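import Pool.Agent.Work.MP_cb528c_lc.IDefs

set_option autoImplicit false
set_option linter.all false

/-!
# MP_cb528c_lc, module ID0 (S-M): digraph properties are first order; default interpretations

* `fo_E`: `FO.rel2`. `fo_snk`: `∀ y, ¬ E (s a) y`: `FO.all k` with `k = a + 1` (a variable different from `a`) and `FO.congr`
  (`Function.update_of_ne`). `fo_isl`, `fo_dom` similar. `fo_dig`: closed version: `∃! x` is
  `∃ x, Isl x ∧ ∀ y, Isl y → y = x` (`ExistsUnique`); use `FO.ex 0`, `FO.all 1`, etc.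
* `fo_d0`: constants of the arity are fixed numbers (`FO.const`).
* `d0_loc`: `σ.ar[r]? = some k` gives `σ.ar.getD r 0 = k`; only `s 0` (if `k ≥ 1`) and `s (k - 1)` are used.
* `d0_fun`: `σ.ar[σ.rel.length + f]? = some (n + 1)`. `n = 0`: `l = []`, `asg G [y] 0 = y`, unique isolated point. `n ≥ 1`:
  `asg G (l ++ [y]) 0 = l[0]` (independent of `y`), `asg G (l ++ [y]) n = y`.
* `ar_fn`, `ar_rel`: `List.getElem?_append_right/left`, `List.getElem?_map`.
-/

namespace CB.IC

theorem ar_rel {σ : Sig} {r k : ℕ} (h : σ.rel[r]? = some k) : σ.ar[r]? = some k ∧ r < σ.rel.length := by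
  have h1 : r < σ.rel.length := (List.getElem?_eq_some_iff.1 h).1
  refine ⟨?_, h1⟩
  unfold Sig.ar
  rw [List.getElem?_append_left h1]
  exact h

theorem ar_fn {σ : Sig} {f n : ℕ} (h : σ.fn[f]? = some n) : σ.ar[σ.rel.length + f]? = some (n + 1) := by
  unfold Sig.ar
  rw [List.getElem?_append_right (Nat.le_add_right _ _), Nat.add_sub_cancel_left, List.getElem?_map, h]
  rfl

theorem fo_E (a b : ℕ) : FO (fun G s => E G (s a) (s b)) := by
  exact FO.rel2 0 a b

theorem fo_snk (a : ℕ) : FO (fun G s => Snk G (s a)) := by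
  refine (FO.all (a + 1) (FO.not (fo_E a (a + 1)))).congr fun N s => ?_
  simp only [Function.update_self, Function.update_of_ne (show a ≠ a + 1 by omega)]
  exact Iff.rfl

theorem fo_isl (a : ℕ) : FO (fun G s => Isl G (s a)) := by
  refine ((fo_snk a).and (FO.all (a + 1) (FO.not (fo_E (a + 1) a)))).congr fun N s => ?_
  simp only [Function.update_self, Function.update_of_ne (show a ≠ a + 1 by omega)]
  exact Iff.rfl

theorem fo_dom (a : ℕ) : FO (fun G s => Dom G (s a)) := by
  refine ((fo_snk a).and (FO.ex (a + 1) (fo_E (a + 1) a))).congr fun N s => ?_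
  simp only [Function.update_self, Function.update_of_ne (show a ≠ a + 1 by omega)]
  exact Iff.rfl

theorem fo_dig : FO (fun G _ => Dig G) := by
  have h1 : FO (fun G _ => ∀ x, ¬ E G x x) := by
    refine (FO.all 0 (FO.not (fo_E 0 0))).congr fun N s => ?_
    simp only [Function.update_self]
  have h2 : FO (fun G _ => ∃! x, Isl G x) := by
    refine (FO.ex 0 ((fo_isl 0).and (FO.all 1 ((fo_isl 1).imp (FO.eq 1 0))))).congr fun N s => ?_
    simp only [Function.update_self, Function.update_of_ne (show (0 : ℕ) ≠ 1 by omega)]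
    exact Iff.rfl
  have h3 : FO (fun G _ => ∀ v w w', E G v w → E G v w' → Snk G w → Snk G w' → w = w') := by
    refine (FO.all 0 (FO.all 1 (FO.all 2 ((fo_E 0 1).imp ((fo_E 0 2).imp ((fo_snk 1).imp
      ((fo_snk 2).imp (FO.eq 1 2)))))))).congr fun N s => ?_
    simp only [Function.update_self, Function.update_of_ne (show (0 : ℕ) ≠ 1 by omega),
      Function.update_of_ne (show (0 : ℕ) ≠ 2 by omega),
      Function.update_of_ne (show (1 : ℕ) ≠ 2 by omega)]
  have h4 : FO (fun G _ => ∀ v w w', E G v w → E G v w' → ¬ Snk G w → ¬ Snk G w' → w = w') := by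
    refine (FO.all 0 (FO.all 1 (FO.all 2 ((fo_E 0 1).imp ((fo_E 0 2).imp ((fo_snk 1).not.imp
      ((fo_snk 2).not.imp (FO.eq 1 2)))))))).congr fun N s => ?_
    simp only [Function.update_self, Function.update_of_ne (show (0 : ℕ) ≠ 1 by omega),
      Function.update_of_ne (show (0 : ℕ) ≠ 2 by omega),
      Function.update_of_ne (show (1 : ℕ) ≠ 2 by omega)]
  refine (h1.and (h2.and (h3.and h4))).congr fun N s => ?_
  exact ⟨fun h => ⟨h.1, h.2.1, h.2.2.1, h.2.2.2⟩, fun h => ⟨h.irr, h.isl, h.u1, h.u2⟩⟩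

theorem fo_d0 (σ : Sig) (r : ℕ) : FO (D0 σ r) := by
  exact (FO.const _).and (((FO.const _).and (fo_isl 0)).or ((FO.const _).and (FO.eq _ 0)))

theorem d0_loc (σ : Sig) {r k : ℕ} (h : σ.ar[r]? = some k) (G : Mdl) (s t : ℕ → G.C) (hst : ∀ i < k, s i = t i) :
    D0 σ r G s ↔ D0 σ r G t := by
  have hk : σ.ar.getD r 0 = k := by
    rw [List.getD_eq_getElem?_getD, h]
    rfl
  unfold D0
  rw [hk]
  refine and_congr Iff.rfl (or_congr (and_congr_right fun h1 => ?_) (and_congr_right fun h1 => ?_))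
  · rw [hst 0 (by omega)]
  · rw [hst 0 (by omega), hst (k - 1) (by omega)]

theorem d0_fun (σ : Sig) {f n : ℕ} (h : σ.fn[f]? = some n) (G : Mdl) (hG : Dig G) (l : List G.C)
    (hl : l.length = n) : ∃! y : G.C, D0 σ (σ.rel.length + f) G (asg G (l ++ [y])) := by
  have h1 := ar_fn h
  have hk : σ.ar.getD (σ.rel.length + f) 0 = n + 1 := by
    rw [List.getD_eq_getElem?_getD, h1]
    rfl
  have hD : ∀ y, D0 σ (σ.rel.length + f) G (asg G (l ++ [y])) ↔
      (n + 1 = 1 ∧ Isl G (asg G (l ++ [y]) 0)) ∨ (2 ≤ n + 1 ∧ asg G (l ++ [y]) n = asg G (l ++ [y]) 0) := by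
    intro y
    unfold D0
    rw [hk]
    exact ⟨fun h => h.2, fun h => ⟨Nat.le_add_right _ _, h⟩⟩
  have hlast : ∀ y, asg G (l ++ [y]) n = y := by
    intro y
    unfold asg
    rw [List.getD_append_right _ _ _ _ hl.le, hl, Nat.sub_self]
    rfl
  rcases Nat.eq_zero_or_pos n with h0 | h0
  · subst h0
    obtain ⟨x, hx, hx'⟩ := hG.isl
    refine ⟨x, ?_, fun y hy => hx' y ?_⟩
    · change D0 σ (σ.rel.length + f) G (asg G (l ++ [x]))
      rw [hD, hlast]
      exact Or.inl ⟨rfl, hx⟩
    · have hy' := (hD y).1 hy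
      rw [hlast] at hy'
      rcases hy' with hy' | hy'
      · exact hy'.2
      · exact absurd hy'.1 (by omega)
  · have hfirst : ∀ y, asg G (l ++ [y]) 0 = l.getD 0 (Classical.choice G.ne) := by
      intro y
      unfold asg
      rw [List.getD_append _ _ _ _ (by omega)]
    refine ⟨l.getD 0 (Classical.choice G.ne), ?_, fun y hy => ?_⟩
    · change D0 σ (σ.rel.length + f) G (asg G (l ++ [_]))
      rw [hD, hlast, hfirst]
      exact Or.inr ⟨by omega, rfl⟩
    · have hy' := (hD y).1 hy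
      rw [hlast, hfirst] at hy'
      rcases hy' with hy' | hy'
      · exact absurd hy'.1 (by omega)
      · exact hy'.2

end CB.IC
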