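import Pool.Agent.Work.MP_cb528c_lc.ISame
import Pool.Agent.Work.MP_cb528c_lc.ID0

set_option autoImplicit false
set_option linter.all false

/-!
# MP_cb528c_lc, module ICaseA (S-M): digraphs in signatures with a relation symbol of arity at least two

`intR_same` with `P N x y := N.R r0 (x :: List.replicate (k - 1) y)` and
`D r G s := (r = r0 ∧ E G (s 0) (s 1)) ∨ (r ≠ r0 ∧ D0 σ r G s)`.
* `hP`: the formula `Fm.rel r0 (1 :: List.replicate (k - 1) 3)`.
* `hrec`: `(expM ar D G).R r0 (x :: replicate (k - 1) y)` iff `ar[r0]? = some k` (`ar_rel`, length `1 + (k - 1) = k`) and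
  `E G x y` (`asg` at `0` is `x`, at `1` is `y` as `k ≥ 2`).
* `hΦ` (`IsFun`): `σ.rel.length + f ≠ r0`; the relation of `expM` for `l ++ [y]` is `D0` (`ar_fn`, length `n + 1`); `d0_fun`.
* `hloc`: `d0_loc`, for `r0`: `k ≥ 2`.
-/

namespace CB.IC

theorem case_rel (σ : Sig) (r0 k : ℕ) (h : σ.rel[r0]? = some k) (hk : 2 ≤ k) : IntR [2] Dig σ.ar (IsFun σ) := by
  obtain ⟨har, hr0⟩ := ar_rel h
  obtain ⟨m, rfl⟩ : ∃ m, k = m + 2 := ⟨k - 2, by omega⟩
  refine intR_same σ.ar Dig (IsFun σ) (fun N x y => N.R r0 (x :: List.replicate (m + 1) y))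
    (fun r G s => (r = r0 ∧ E G (s 0) (s 1)) ∨ (r ≠ r0 ∧ D0 σ r G s)) ?_ ?_ ?_ fo_dig ?_ ?_
  · exact ⟨Fm.rel r0 (1 :: List.replicate (m + 1) 3), fun N s => by
      rw [sat_rel, List.map_cons, List.map_replicate]⟩
  · intro r
    exact ((FO.const _).and (fo_E 0 1)).or ((FO.const _).and (fo_d0 σ r))
  · intro r k' h' G s t hst
    by_cases hr : r = r0
    · subst hr
      have h2 : m + 2 = k' := by
        rw [har] at h'
        exact Option.some.inj h'
      have e0 := hst 0 (by omega)
      have e1 := hst 1 (by omega)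
      refine or_congr (and_congr_right fun _ => ?_) (and_congr_right fun h3 => absurd rfl h3)
      rw [e0, e1]
    · exact or_congr (and_congr_right fun h3 => absurd h3 hr)
        (and_congr_right fun _ => d0_loc σ h' G s t hst)
  · intro G hG hd x y
    have e0 : asg G (x :: List.replicate (m + 1) y) 0 = x := rfl
    have e1 : asg G (x :: List.replicate (m + 1) y) 1 = y := rfl
    constructor
    · rintro ⟨-, h2⟩
      rcases h2 with h2 | h2
      · have h3 : E G x y := h2.2
        exact h3
      · exact absurd rfl h2.1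
    · intro h2
      refine ⟨?_, Or.inl ⟨rfl, ?_⟩⟩
      · have e2 : ∀ (x' y' : G.C), m + 2 = (x' :: List.replicate (m + 1) y').length := fun x' y' => by
          rw [List.length_cons, List.length_replicate]
        exact har.trans (congrArg some (e2 x y))
      · exact h2
  · intro G hG hd f n hf l hl
    have h1 := ar_fn hf
    have hne : σ.rel.length + f ≠ r0 := by omega
    obtain ⟨y, hy, hy'⟩ := d0_fun σ hf G hd l hl
    refine ⟨y, ⟨?_, Or.inr ⟨hne, hy⟩⟩, fun z hz => hy' z ?_⟩
    · have e : ∀ (l' : List G.C), l'.length = n → n + 1 = (l' ++ [y]).length := fun l' h => by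
        rw [List.length_append, h]
        rfl
      exact h1.trans (congrArg some (e l hl))
    · rcases hz.2 with h3 | h3
      · exact absurd h3.1 hne
      · exact h3.2

end CB.IC
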