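import Pool.Agent.Work.MP_cb528c_lc.ISame
import Pool.Agent.Work.MP_cb528c_lc.ID0

set_option autoImplicit false
set_option linter.all false

/-!
# MP_cb528c_lc, module ICaseB (M): digraphs in signatures with a function symbol of arity at least two

The function `F(x1, .., xm)` is `x2` if `E x1 x2`, and `x1` otherwise. Let `r0 = σ.rel.length + f0`; the relation `r0` has arity `m + 1`.
`intR_same` with `P N x y := N.R r0 (x :: List.replicate m y) ∧ x ≠ y` (arguments `x, y, .., y`, value `y`) and
`D r G s := (r = r0 ∧ ((E G (s 0) (s 1) ∧ s m = s 1) ∨ (¬ E G (s 0) (s 1) ∧ s m = s 0))) ∨ (r ≠ r0 ∧ D0 σ r G s)`.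
* `hrec`: `asg` of `x :: replicate m y` at `0` is `x`, at `1` and at `m` is `y` (`m ≥ 2`); for `x ≠ y` the relation says `E G x y`;
  `E G x y → x ≠ y` by `Dig.irr`.
* `hΦ` (`IsFun`): for `f = f0` the unique value is `l[1]` or `l[0]` (`asg G (l ++ [y])` at `0, 1` is `l[0], l[1]`, at `m` is `y`);
  otherwise `σ.rel.length + f ≠ r0` and `d0_fun`.
-/

namespace CB.IC

private theorem asg_lt (G : Mdl) (l : List G.C) (i : ℕ) (h : i < l.length) : asg G l i = l[i] := by
  unfold asg
  rw [List.getD_eq_getElem?_getD, List.getElem?_eq_getElem h]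
  rfl

private theorem asg_app (G : Mdl) (l : List G.C) (y : G.C) (i : ℕ) (h : i < l.length) :
    asg G (l ++ [y]) i = asg G l i := by
  rw [asg_lt _ _ _ (by rw [List.length_append]; omega), asg_lt _ _ _ h, List.getElem_append_left h]

private theorem asg_last (G : Mdl) (l : List G.C) (y : G.C) : asg G (l ++ [y]) l.length = y := by
  rw [asg_lt _ _ _ (by rw [List.length_append]; simp)]
  simp

private def PB (r0 m : ℕ) (N : Mdl) (x y : N.C) : Prop := N.R r0 (x :: List.replicate m y) ∧ x ≠ y

private def DB (σ : Sig) (r0 m r : ℕ) (G : Mdl) (s : ℕ → G.C) : Prop :=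
  (r = r0 ∧ ((E G (s 0) (s 1) ∧ s m = s 1) ∨ (¬ E G (s 0) (s 1) ∧ s m = s 0))) ∨ (r ≠ r0 ∧ D0 σ r G s)

theorem case_fn (σ : Sig) (f0 m : ℕ) (h : σ.fn[f0]? = some m) (hm : 2 ≤ m) : IntR [2] Dig σ.ar (IsFun σ) := by
  have har : σ.ar[σ.rel.length + f0]? = some (m + 1) := ar_fn h
  refine intR_same σ.ar Dig (IsFun σ) (PB (σ.rel.length + f0) m) (DB σ (σ.rel.length + f0) m) ?_ ?_
    ?_ fo_dig ?_ ?_
  · refine FO.and (D := fun N s => N.R (σ.rel.length + f0) (s 1 :: List.replicate m (s 3)))
      (D' := fun N s => ¬ s 1 = s 3) ?_ (FO.not (FO.eq 1 3))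
    refine ⟨Fm.rel (σ.rel.length + f0) (1 :: List.replicate m 3), fun N s => ?_⟩
    rw [sat_rel, List.map_cons, List.map_replicate]
  · intro r
    refine FO.or ?_ ?_
    · refine FO.and (FO.const (r = σ.rel.length + f0)) (FO.or (FO.and (fo_E 0 1) (FO.eq m 1))
        (FO.and (FO.not (fo_E 0 1)) (FO.eq m 0)))
    · exact FO.and (FO.const (r ≠ σ.rel.length + f0)) (fo_d0 σ r)
  · intro r k hk G s t hst
    unfold DB
    refine or_congr (and_congr_right ?_) (and_congr_right fun _ => d0_loc σ hk G s t hst)
    rintro rfl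
    have hkm : k = m + 1 := by
      rw [har] at hk
      exact (Option.some.inj hk).symm
    rw [hst 0 (by omega), hst 1 (by omega), hst m (by omega)]
  · intro G hG hD (x : G.C) (y : G.C)
    have e0 : asg G (x :: List.replicate m y) 0 = x := asg_lt _ _ _ (by simp)
    have e1 : asg G (x :: List.replicate m y) 1 = y := by
      rw [asg_lt _ _ _ (by simp; omega)]
      simp
    have em : asg G (x :: List.replicate m y) m = y := by
      rw [asg_lt _ _ _ (by simp)]
      rw [List.getElem_cons]
      rw [dif_neg (by omega)]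
      simp
    have hlen : σ.ar[σ.rel.length + f0]? = some (x :: List.replicate m y : List G.C).length := by
      rw [har, List.length_cons, List.length_replicate]
    change (σ.ar[σ.rel.length + f0]? = some (x :: List.replicate m y : List G.C).length ∧
      DB σ (σ.rel.length + f0) m (σ.rel.length + f0) G
        (asg G (x :: List.replicate m y : List G.C))) ∧ x ≠ y ↔ E G x y
    constructor
    · rintro ⟨⟨-, hh⟩, hne⟩
      rcases hh with ⟨-, ⟨h1, h2⟩ | ⟨h1, h2⟩⟩ | ⟨h1, -⟩
      · rwa [e0, e1] at h1
      · rw [em, e0] at h2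
        exact absurd h2.symm hne
      · exact absurd rfl h1
    · intro hE
      refine ⟨⟨hlen, Or.inl ⟨rfl, Or.inl ⟨?_, ?_⟩⟩⟩, ?_⟩
      · rw [e0, e1]
        exact hE
      · rw [em, e1]
      · rintro rfl
        exact hD.irr _ hE
  · intro G hG hD f n hf (l : List G.C) hl
    replace hl : List.length (α := G.C) l = n := hl
    by_cases hff : f = f0
    · subst hff
      have hnm : n = m := by
        rw [h] at hf
        exact (Option.some.inj hf).symm
      subst hnm
      have key : ∀ y : G.C, (expM σ.ar (DB σ (σ.rel.length + f) n) G).R (σ.rel.length + f) (l ++ [y]) ↔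
          ((E G (asg G l 0) (asg G l 1) ∧ y = asg G l 1) ∨
            (¬ E G (asg G l 0) (asg G l 1) ∧ y = asg G l 0)) := by
        intro y
        have a0 : asg G (l ++ [y]) 0 = asg G l 0 := asg_app _ _ _ _ (by omega)
        have a1 : asg G (l ++ [y]) 1 = asg G l 1 := asg_app _ _ _ _ (by omega)
        have am : asg G (l ++ [y]) n = y := by
          rw [← hl]
          exact asg_last _ _ _
        constructor
        · rintro ⟨-, ⟨-, hh⟩ | ⟨h1, -⟩⟩
          · rw [a0, a1, am] at hh
            exact hh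
          · exact absurd rfl h1
        · intro hh
          refine ⟨?_, Or.inl ⟨rfl, ?_⟩⟩
          · rw [har, ← hl]
            exact congrArg some (List.length_append (as := l) (bs := [y])).symm
          · rw [a0, a1, am]
            exact hh
      by_cases hE : E G (asg G l 0) (asg G l 1)
      · refine ⟨asg G l 1, (key _).2 (Or.inl ⟨hE, rfl⟩), fun y hy => ?_⟩
        rcases (key y).1 hy with ⟨-, h2⟩ | ⟨h1, -⟩
        · exact h2
        · exact absurd hE h1
      · refine ⟨asg G l 0, (key _).2 (Or.inr ⟨hE, rfl⟩), fun y hy => ?_⟩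
        rcases (key y).1 hy with ⟨h1, -⟩ | ⟨-, h2⟩
        · exact absurd h1 hE
        · exact h2
    · have hr : σ.rel.length + f ≠ σ.rel.length + f0 := by omega
      have key : ∀ y : G.C, (expM σ.ar (DB σ (σ.rel.length + f0) m) G).R (σ.rel.length + f) (l ++ [y]) ↔
          D0 σ (σ.rel.length + f) G (asg G (l ++ [y])) := by
        intro y
        constructor
        · rintro ⟨-, ⟨h1, -⟩ | ⟨-, h2⟩⟩
          · exact absurd h1 hr
          · exact h2
        · intro hh
          refine ⟨?_, Or.inr ⟨hr, hh⟩⟩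
          rw [ar_fn hf, ← hl]
          exact congrArg some (List.length_append (as := l) (bs := [y])).symm
      obtain ⟨y, hy, hy2⟩ := d0_fun σ hf G hD l hl
      exact ⟨y, (key y).2 hy, fun z hz => hy2 z ((key z).1 hz)⟩

end CB.IC
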