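import Pool.Agent.Work.MP_cb528c_lc.ISame
import Pool.Agent.Work.MP_cb528c_lc.ID0

set_option autoImplicit false
set_option linter.all false

/-!
# MP_cb528c_lc, module ICaseC (M): digraphs in signatures with two unary function symbols

`f v` = the out-neighbour of `v` which is not a sink (`v` if there is none), `g v` = the out-neighbour of `v` which is a sink (`v` if
there is none). Let `a = σ.rel.length + f0`, `b = σ.rel.length + g0`, `a ≠ b`.
`intR_same` with `P N x y := (N.R a [x, y] ∨ N.R b [x, y]) ∧ x ≠ y` and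
`D r G s := (r = a ∧ ((E G (s 0) (s 1) ∧ ¬ Snk G (s 1)) ∨ ((∀ w, E G (s 0) w → Snk G w) ∧ s 1 = s 0))) ∨
  (r = b ∧ ((E G (s 0) (s 1) ∧ Snk G (s 1)) ∨ ((∀ w, E G (s 0) w → ¬ Snk G w) ∧ s 1 = s 0))) ∨ (r ≠ a ∧ r ≠ b ∧ D0 σ r G s)`.
* `hrec`: for `x ≠ y` the relations `a`, `b` for `[x, y]` say `E G x y ∧ ¬ Snk G y`, `E G x y ∧ Snk G y`; `Dig.irr`.
* `hΦ` (`IsFun`): uniqueness by `Dig.u2`, `Dig.u1`, existence by cases; other function symbols: `d0_fun`.
-/

namespace CB.IC

private def AC (G : Mdl) (x y : G.C) : Prop :=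
  (E G x y ∧ ¬ Snk G y) ∨ ((∀ w, E G x w → Snk G w) ∧ y = x)

private def BC (G : Mdl) (x y : G.C) : Prop :=
  (E G x y ∧ Snk G y) ∨ ((∀ w, E G x w → ¬ Snk G w) ∧ y = x)

private def PC' (a b : ℕ) (N : Mdl) (x y : N.C) : Prop := (N.R a [x, y] ∨ N.R b [x, y]) ∧ x ≠ y

private def DC (σ : Sig) (a b r : ℕ) (G : Mdl) (s : ℕ → G.C) : Prop :=
  (r = a ∧ AC G (s 0) (s 1)) ∨ (r = b ∧ BC G (s 0) (s 1)) ∨ (r ≠ a ∧ r ≠ b ∧ D0 σ r G s)

private theorem fo_ac : FO (fun G s => AC G (s 0) (s 1)) := by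
  refine FO.or (FO.and (fo_E 0 1) (FO.not (fo_snk 1))) (FO.and ?_ (FO.eq 1 0))
  refine (FO.all 2 (FO.imp (fo_E 0 2) (fo_snk 2))).congr fun N s => ?_
  refine forall_congr' fun w => ?_
  rw [Function.update_self, Function.update_of_ne (by decide : (0 : ℕ) ≠ 2)]

private theorem fo_bc : FO (fun G s => BC G (s 0) (s 1)) := by
  refine FO.or (FO.and (fo_E 0 1) (fo_snk 1)) (FO.and ?_ (FO.eq 1 0))
  refine (FO.all 2 (FO.imp (fo_E 0 2) (FO.not (fo_snk 2)))).congr fun N s => ?_
  refine forall_congr' fun w => ?_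
  rw [Function.update_self, Function.update_of_ne (by decide : (0 : ℕ) ≠ 2)]

private theorem ac_ne {G : Mdl} {x y : G.C} (h : x ≠ y) : AC G x y ↔ E G x y ∧ ¬ Snk G y := by
  constructor
  · rintro (h1 | ⟨-, h1⟩)
    · exact h1
    · exact absurd h1.symm h
  · exact Or.inl

private theorem bc_ne {G : Mdl} {x y : G.C} (h : x ≠ y) : BC G x y ↔ E G x y ∧ Snk G y := by
  constructor
  · rintro (h1 | ⟨-, h1⟩)
    · exact h1
    · exact absurd h1.symm h
  · exact Or.inl

private theorem ac_fun {G : Mdl} (hG : Dig G) (x : G.C) : ∃! y, AC G x y := by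
  by_cases h : ∃ w, E G x w ∧ ¬ Snk G w
  · obtain ⟨w, h1, h2⟩ := h
    refine ⟨w, Or.inl ⟨h1, h2⟩, fun y hy => ?_⟩
    rcases hy with ⟨h3, h4⟩ | ⟨h3, -⟩
    · exact hG.u2 _ _ _ h3 h1 h4 h2
    · exact absurd (h3 w h1) h2
  · have h' : ∀ w, E G x w → Snk G w := fun w hw => by
      by_contra hc
      exact h ⟨w, hw, hc⟩
    refine ⟨x, Or.inr ⟨h', rfl⟩, fun y hy => ?_⟩
    rcases hy with h3 | ⟨-, h4⟩
    · exact absurd ⟨y, h3⟩ h
    · exact h4

private theorem bc_fun {G : Mdl} (hG : Dig G) (x : G.C) : ∃! y, BC G x y := by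
  by_cases h : ∃ w, E G x w ∧ Snk G w
  · obtain ⟨w, h1, h2⟩ := h
    refine ⟨w, Or.inl ⟨h1, h2⟩, fun y hy => ?_⟩
    rcases hy with ⟨h3, h4⟩ | ⟨h3, -⟩
    · exact hG.u1 _ _ _ h3 h1 h4 h2
    · exact absurd h2 (h3 w h1)
  · have h' : ∀ w, E G x w → ¬ Snk G w := fun w hw hc => h ⟨w, hw, hc⟩
    refine ⟨x, Or.inr ⟨h', rfl⟩, fun y hy => ?_⟩
    rcases hy with h3 | ⟨-, h4⟩
    · exact absurd ⟨y, h3⟩ h
    · exact h4

private theorem list_one {C : Type} {l : List C} (h : l.length = 1) : ∃ x, l = [x] :=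
  List.length_eq_one_iff.1 h

theorem case_two (σ : Sig) (f0 g0 : ℕ) (h : σ.fn[f0]? = some 1) (h' : σ.fn[g0]? = some 1) (hne : f0 ≠ g0) :
    IntR [2] Dig σ.ar (IsFun σ) := by
  have hara : σ.ar[σ.rel.length + f0]? = some 2 := ar_fn h
  have harb : σ.ar[σ.rel.length + g0]? = some 2 := ar_fn h'
  obtain ⟨a, ha⟩ : ∃ a, a = σ.rel.length + f0 := ⟨_, rfl⟩
  obtain ⟨b, hb⟩ : ∃ b, b = σ.rel.length + g0 := ⟨_, rfl⟩
  rw [← ha] at hara
  rw [← hb] at harb
  have hab : a ≠ b := by omega
  refine intR_same σ.ar Dig (IsFun σ) (PC' a b) (DC σ a b) ?_ ?_ ?_ fo_dig ?_ ?_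
  · refine FO.and (D := fun N s => N.R a [s 1, s 3] ∨ N.R b [s 1, s 3])
      (D' := fun N s => ¬ s 1 = s 3) (FO.or (FO.rel2 a 1 3) (FO.rel2 b 1 3)) (FO.not (FO.eq 1 3))
  · intro r
    exact FO.or (FO.and (FO.const (r = a)) fo_ac) (FO.or (FO.and (FO.const (r = b)) fo_bc)
      (FO.and (FO.const (r ≠ a)) (FO.and (FO.const (r ≠ b)) (fo_d0 σ r))))
  · intro r k hk G s t hst
    unfold DC
    refine or_congr (and_congr_right ?_) (or_congr (and_congr_right ?_)
      (and_congr_right fun _ => and_congr_right fun _ => d0_loc σ hk G s t hst))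
    · rintro rfl
      have hkm : k = 2 := by
        rw [hara] at hk
        exact (Option.some.inj hk).symm
      rw [hst 0 (by omega), hst 1 (by omega)]
    · rintro rfl
      have hkm : k = 2 := by
        rw [harb] at hk
        exact (Option.some.inj hk).symm
      rw [hst 0 (by omega), hst 1 (by omega)]
  · intro G hG hD (x : G.C) (y : G.C)
    change ((σ.ar[a]? = some 2 ∧ DC σ a b a G (asg G [x, y])) ∨
      (σ.ar[b]? = some 2 ∧ DC σ a b b G (asg G [x, y]))) ∧ x ≠ y ↔ E G x y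
    have e0 : asg G [x, y] 0 = x := rfl
    have e1 : asg G [x, y] 1 = y := rfl
    have k1 : DC σ a b a G (asg G [x, y]) ↔ AC G x y := by
      unfold DC
      rw [e0, e1]
      constructor
      · rintro (⟨-, h1⟩ | ⟨h1, -⟩ | ⟨h1, -⟩)
        · exact h1
        · exact absurd h1 hab
        · exact absurd rfl h1
      · exact fun h1 => Or.inl ⟨rfl, h1⟩
    have k2 : DC σ a b b G (asg G [x, y]) ↔ BC G x y := by
      unfold DC
      rw [e0, e1]
      constructor
      · rintro (⟨h1, -⟩ | ⟨-, h1⟩ | ⟨-, h1, -⟩)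
        · exact absurd h1.symm hab
        · exact h1
        · exact absurd rfl h1
      · exact fun h1 => Or.inr (Or.inl ⟨rfl, h1⟩)
    rw [k1, k2]
    constructor
    · rintro ⟨h1, hxy⟩
      rw [ac_ne hxy, bc_ne hxy] at h1
      rcases h1 with ⟨-, h1, -⟩ | ⟨-, h1, -⟩ <;> exact h1
    · intro hE
      have hxy : x ≠ y := by
        rintro rfl
        exact hD.irr _ hE
      refine ⟨?_, hxy⟩
      rw [ac_ne hxy, bc_ne hxy]
      by_cases hs : Snk G y
      · exact Or.inr ⟨harb, hE, hs⟩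
      · exact Or.inl ⟨hara, hE, hs⟩
  · intro G hG hD f n hf (l : List G.C) hl
    replace hl : List.length (α := G.C) l = n := hl
    have har := ar_fn hf
    have hR : ∀ y : G.C, (expM σ.ar (DC σ a b) G).R (σ.rel.length + f) (l ++ [y]) ↔
        DC σ a b (σ.rel.length + f) G (asg G (l ++ [y])) := by
      intro y
      refine and_iff_right ?_
      rw [har, ← hl]
      exact congrArg some (List.length_append (as := l) (bs := [y])).symm
    by_cases hfa : σ.rel.length + f = a
    · have hn : n = 1 := by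
        have : f = f0 := by omega
        rw [this, h] at hf
        exact (Option.some.inj hf).symm
      subst hn
      obtain ⟨x, rfl⟩ := list_one hl
      have key : ∀ y : G.C, (expM σ.ar (DC σ a b) G).R (σ.rel.length + f) ([x] ++ [y]) ↔
          AC G x y := by
        intro y
        rw [hR y]
        have e0 : asg G ([x] ++ [y]) 0 = x := rfl
        have e1 : asg G ([x] ++ [y]) 1 = y := rfl
        unfold DC
        rw [e0, e1]
        constructor
        · rintro (⟨-, h1⟩ | ⟨h1, -⟩ | ⟨h1, -⟩)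
          · exact h1
          · exact absurd (hfa.symm.trans h1) hab
          · exact absurd hfa h1
        · exact fun h1 => Or.inl ⟨hfa, h1⟩
      obtain ⟨y, hy, hy2⟩ := ac_fun hD x
      exact ⟨y, (key y).2 hy, fun z hz => hy2 z ((key z).1 hz)⟩
    · by_cases hfb : σ.rel.length + f = b
      · have hn : n = 1 := by
          have : f = g0 := by omega
          rw [this, h'] at hf
          exact (Option.some.inj hf).symm
        subst hn
        obtain ⟨x, rfl⟩ := list_one hl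
        have key : ∀ y : G.C, (expM σ.ar (DC σ a b) G).R (σ.rel.length + f) ([x] ++ [y]) ↔
            BC G x y := by
          intro y
          rw [hR y]
          have e0 : asg G ([x] ++ [y]) 0 = x := rfl
          have e1 : asg G ([x] ++ [y]) 1 = y := rfl
          unfold DC
          rw [e0, e1]
          constructor
          · rintro (⟨h1, -⟩ | ⟨-, h1⟩ | ⟨-, h1, -⟩)
            · exact absurd h1 hfa
            · exact h1
            · exact absurd hfb h1
          · exact fun h1 => Or.inr (Or.inl ⟨hfb, h1⟩)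
        obtain ⟨y, hy, hy2⟩ := bc_fun hD x
        exact ⟨y, (key y).2 hy, fun z hz => hy2 z ((key z).1 hz)⟩
      · have key : ∀ y : G.C, (expM σ.ar (DC σ a b) G).R (σ.rel.length + f) (l ++ [y]) ↔
            D0 σ (σ.rel.length + f) G (asg G (l ++ [y])) := by
          intro y
          rw [hR y]
          unfold DC
          constructor
          · rintro (⟨h1, -⟩ | ⟨h1, -⟩ | ⟨-, -, h1⟩)
            · exact absurd h1 hfa
            · exact absurd h1 hfb
            · exact h1
          · exact fun h1 => Or.inr (Or.inr ⟨hfa, hfb, h1⟩)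
        obtain ⟨y, hy, hy2⟩ := d0_fun σ hf G hD l hl
        exact ⟨y, (key y).2 hy, fun z hz => hy2 z ((key z).1 hz)⟩

theorem two_of_count {l : List ℕ} (h : 2 ≤ l.count 1) : ∃ i j : ℕ, i ≠ j ∧ l[i]? = some 1 ∧ l[j]? = some 1 := by
  induction l with
  | nil => simp at h
  | cons a l ih =>
    by_cases ha : a = 1
    · subst ha
      rw [List.count_cons_self] at h
      have h1 : 1 ∈ l := List.count_pos_iff.1 (by omega)
      obtain ⟨j, hj⟩ := List.mem_iff_getElem?.1 h1
      exact ⟨0, j + 1, by omega, rfl, by rw [List.getElem?_cons_succ]; exact hj⟩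
    · rw [List.count_cons_of_ne ha] at h
      obtain ⟨i, j, hij, hi, hj⟩ := ih h
      exact ⟨i + 1, j + 1, by omega, by rw [List.getElem?_cons_succ]; exact hi,
        by rw [List.getElem?_cons_succ]; exact hj⟩

end CB.IC
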