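import Pool.Agent.Work.MP_cb528c_lc.IDefs

set_option autoImplicit false
set_option linter.all false

/-!
# MP_cb528c_lc, module IDec (M): a digraph with `DmP` is isomorphic to the coding digraph of the coded structure

Rewrite with `GI_eq`, so the carrier of `GI L G` is `{v // Dom G v}`. Let `p j x y` be the unique `v` with `NN G j v x y` (`ex`), `z0` the
isolated point. The map `z ↦ z0`, `el x ↦ x`, `pt j x y ↦ p j x y` is bijective: every `v : G.C` is not a sink (then `cov`,
`inj`), or a sink with an in-edge (`Dom`), or isolated; `p j x y` is not a sink (it has an out-neighbour: `Out1`, `Out2` or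
`E G v u` in the definition of `NN`), the elements of `Dom` are sinks with in-edge, `z0` has none.
Edges: the out-neighbours of `p 0 x y` are exactly `x` (`NN 0`); of `p 1 x y`: exactly `v`, `y` where `Out1 G v x`; this `v` is
`p 0 x y` (it satisfies `NN G 0 v x y` by definition, with `w = p 1 x y`); of `p (i+2) x y`: `p (i+1) x y` (by uniqueness `u` is
this point), and nothing else except possibly `x`; `E G (p (i+2) x y) x ↔ RI i G x y` (uniqueness of `p`); note that `i < L`.
`el x`, `z` have no out-edges. Compare with `ge`. Relations of `G` other than `0` and lists of length `≠ 2` do not occur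
(`G.Ok [2]`).
-/

namespace CB.IC

private theorem idec_nnE {G : Mdl} : ∀ (j : ℕ) (v x y : G.C), NN G j v x y → ¬ Snk G v
  | 0, v, x, y, h, hs => hs x ((h.1 x).2 rfl)
  | 1, w, x, y, ⟨v, _, h2⟩, hs => hs v ((h2 v).2 (Or.inl rfl))
  | (j + 2), v, x, y, ⟨u, _, h2, _⟩, hs => hs u h2

theorem dec_iso {L : ℕ} {G : Mdl} (h : G.Ok [2]) (hG : DmP L G) : (Gr L (GI L G)).Iso G := by
  have hne : Nonempty {v // Dom G v} := by
    obtain ⟨v, hv⟩ := hG.ne
    exact ⟨⟨v, hv⟩⟩
  rw [GI_eq hne]
  have hex : ∀ (j : Fin (L + 2)) (x y : {v // Dom G v}), ∃! v, NN G j.1 v x.1 y.1 :=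
    fun j x y => hG.ex j x.1 y.1 x.2 y.2
  choose p hp hpu using hex
  simp only at hp
  have hpu' : ∀ (j : Fin (L + 2)) (x y : {v // Dom G v}) (v : G.C), NN G j.1 v x.1 y.1 → v = p j x y :=
    fun j x y v hv => hpu j x y v hv
  obtain ⟨z0, hz0, hz0u⟩ := hG.isl
  have hps : ∀ (j : Fin (L + 2)) (x y : {v // Dom G v}), ¬ Snk G (p j x y) :=
    fun j x y => idec_nnE j.1 _ _ _ (hp j x y)
  have hpd : ∀ (j : Fin (L + 2)) (x y w : {v // Dom G v}), p j x y ≠ w.1 := by
    intro j x y w hw
    exact hps j x y (by rw [hw]; exact w.2.1)
  have hpi : ∀ (j j' : Fin (L + 2)) (x y x' y' : {v // Dom G v}), p j x y = p j' x' y' →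
      j = j' ∧ x = x' ∧ y = y' := by
    intro j j' x y x' y' he
    have h1 := hG.inj j j' (p j x y) x.1 y.1 x'.1 y'.1 x.2 y.2 x'.2 y'.2 (hp j x y)
      (by rw [he]; exact hp j' x' y')
    exact ⟨h1.1, Subtype.ext h1.2.1, Subtype.ext h1.2.2⟩
  let f : Nd {v // Dom G v} L → G.C := fun n => match n with
    | Nd.z => z0
    | Nd.el x => x.1
    | Nd.pt j x y => p j x y
  have fz : f Nd.z = z0 := rfl
  have fe : ∀ x, f (Nd.el x) = x.1 := fun _ => rfl
  have fp : ∀ j x y, f (Nd.pt j x y) = p j x y := fun _ _ _ => rfl
  have hinj : Function.Injective f := by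
    intro a b hab
    cases a with
    | z =>
      cases b with
      | z => rfl
      | el x =>
        rw [fz, fe] at hab
        obtain ⟨y, hy⟩ := x.2.2
        rw [← hab] at hy
        exact absurd hy (hz0.2 y)
      | pt j x y =>
        rw [fz, fp] at hab
        exact absurd (by rw [← hab]; exact hz0.1) (hps j x y)
    | el x =>
      cases b with
      | z =>
        rw [fz, fe] at hab
        obtain ⟨y, hy⟩ := x.2.2
        rw [hab] at hy
        exact absurd hy (hz0.2 y)
      | el x' =>
        rw [fe, fe] at hab
        rw [Subtype.ext hab]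
      | pt j x' y' =>
        rw [fe, fp] at hab
        exact absurd hab.symm (hpd _ _ _ _)
    | pt j x y =>
      cases b with
      | z =>
        rw [fz, fp] at hab
        exact absurd (by rw [hab]; exact hz0.1) (hps j x y)
      | el x' =>
        rw [fe, fp] at hab
        exact absurd hab (hpd _ _ _ _)
      | pt j' x' y' =>
        rw [fp, fp] at hab
        obtain ⟨h1, h2, h3⟩ := hpi _ _ _ _ _ _ hab
        rw [h1, h2, h3]
  have hsurj : Function.Surjective f := by
    intro v
    by_cases hs : Snk G v
    · by_cases hd : ∃ y, E G y v
      · exact ⟨Nd.el ⟨v, hs, hd⟩, rfl⟩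
      · refine ⟨Nd.z, ?_⟩
        rw [fz]
        exact (hz0u v ⟨hs, fun y hy => hd ⟨y, hy⟩⟩).symm
    · obtain ⟨j, x, y, hx, hy, hn⟩ := hG.cov v hs
      exact ⟨Nd.pt j ⟨x, hx⟩ ⟨y, hy⟩, (hpu' j ⟨x, hx⟩ ⟨y, hy⟩ v hn).symm⟩
  have key : ∀ a b : Nd {v // Dom G v} L, E G (f a) (f b) ↔
      ge L ⟨{v // Dom G v}, hne, fun r l => r < L ∧ ∃ x y : {v // Dom G v}, l = [x, y] ∧
        RI r G x.1 y.1⟩ a b := by
    intro a b
    cases a with
    | z =>
      rw [fz]
      constructor
      · intro he; exact absurd he (hz0.1 _)
      · intro he; cases b <;> exact he.elim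
    | el x =>
      rw [fe]
      constructor
      · intro he; exact absurd he (x.2.1 _)
      · intro he; cases b <;> exact he.elim
    | pt j x y =>
      rw [fp]
      obtain ⟨jn, hj⟩ := j
      have hpj := hp ⟨jn, hj⟩ x y
      simp only at hpj
      match jn, hj, hpj with
      | 0, hj, hpj =>
        have ho : ∀ w, E G (p ⟨0, hj⟩ x y) w ↔ w = x.1 := hpj.1
        cases b with
        | z =>
          rw [fz]
          constructor
          · intro he; exact absurd he (hz0.2 _)
          · intro he; exact he.elim
        | el w =>
          rw [fe, ho]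
          constructor
          · intro he
            exact Or.inl ⟨rfl, Subtype.ext he⟩
          · rintro (⟨-, he⟩ | ⟨he, -⟩ | ⟨i, he, -⟩)
            · have he' : w = x := he
              rw [he']
            · simp at he
            · simp at he
        | pt j' x' y' =>
          rw [fp, ho]
          constructor
          · intro he; exact absurd he (hpd _ _ _ _)
          · rintro ⟨he, -⟩
            simp at he
      | 1, hj, ⟨v, hv1, hv2⟩ =>
        have hv : v = p ⟨0, by omega⟩ x y := hpu' ⟨0, by omega⟩ x y v ⟨hv1, _, hv2⟩
        have ho : ∀ w, E G (p ⟨1, hj⟩ x y) w ↔ w = v ∨ w = y.1 := hv2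
        cases b with
        | z =>
          rw [fz]
          constructor
          · intro he; exact absurd he (hz0.2 _)
          · intro he; exact he.elim
        | el w =>
          rw [fe, ho]
          constructor
          · rintro (he | he)
            · rw [hv] at he
              exact absurd he.symm (hpd _ _ _ _)
            · exact Or.inr (Or.inl ⟨rfl, Subtype.ext he⟩)
          · rintro (⟨he, -⟩ | ⟨-, he⟩ | ⟨i, he, -⟩)
            · simp at he
            · have he' : w = y := he
              rw [he']
              exact Or.inr rfl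
            · simp at he
        | pt j' x' y' =>
          rw [fp, ho]
          constructor
          · rintro (he | he)
            · rw [hv] at he
              obtain ⟨h1, h2, h3⟩ := hpi _ _ _ _ _ _ he
              refine ⟨?_, h2, h3⟩
              rw [h1]
            · exact absurd he (hpd _ _ _ _)
          · rintro ⟨h1, h2, h3⟩
            left
            simp only at h1
            have h2' : x' = x := h2
            have h3' : y' = y := h3
            have h4 : j' = ⟨0, by omega⟩ := Fin.ext (by simp only; omega)
            rw [hv, h2', h3', h4]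
      | i + 2, hj, ⟨u, hu1, hu2, hu3⟩ =>
        have hu : u = p ⟨i + 1, by omega⟩ x y := hpu' ⟨i + 1, by omega⟩ x y u hu1
        cases b with
        | z =>
          rw [fz]
          constructor
          · intro he; exact absurd he (hz0.2 _)
          · intro he; exact he.elim
        | el w =>
          rw [fe]
          constructor
          · intro he
            rcases hu3 _ he with he' | he'
            · rw [hu] at he'
              exact absurd he'.symm (hpd _ _ _ _)
            · have hw : w = x := Subtype.ext he'
              have he2 := he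
              rw [he'] at he2
              exact Or.inr (Or.inr ⟨i, rfl, hw, by omega, x, y, rfl, _, hp ⟨i + 2, hj⟩ x y, he2⟩)
          · rintro (⟨he, -⟩ | ⟨he, -⟩ | ⟨i', he, hw, -, x1, y1, hxy, v', hv', hv''⟩)
            · simp at he
            · simp at he
            · simp only at he
              have hii : i' = i := by omega
              subst hii
              have hw' : w = x := hw
              have h1 : x = x1 := (List.cons.inj hxy).1
              have h2 : y = y1 := (List.cons.inj (List.cons.inj hxy).2).1
              subst h1 h2 hw'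
              have h3 := hpu' ⟨i' + 2, hj⟩ w y v' hv'
              rw [← h3]
              exact hv''
        | pt j' x' y' =>
          rw [fp]
          constructor
          · intro he
            rcases hu3 _ he with he' | he'
            · rw [hu] at he'
              obtain ⟨h1, h2, h3⟩ := hpi _ _ _ _ _ _ he'
              refine ⟨?_, h2, h3⟩
              rw [h1]
            · exact absurd he' (hpd _ _ _ _)
          · rintro ⟨h1, h2, h3⟩
            simp only at h1
            have h2' : x' = x := h2
            have h3' : y' = y := h3
            have h4 : j' = ⟨i + 1, by omega⟩ := Fin.ext (by simp only; omega)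
            rw [h2', h3', h4, ← hu]
            exact hu2
  refine ⟨Equiv.ofBijective f ⟨hinj, hsurj⟩, ?_⟩
  intro r l
  constructor
  · rintro ⟨rfl, v, w, rfl, hvw⟩
    exact (key v w).2 hvw
  · intro hr
    have h1 := h r _ hr
    have h2 : r = 0 := by
      rcases r with _ | r
      · rfl
      · simp at h1
    subst h2
    simp only [List.getElem?_cons_zero, Option.some.injEq, List.length_map] at h1
    match l, h1, hr with
    | [v, w], _, hr => exact ⟨rfl, v, w, rfl, (key v w).1 hr⟩

end CB.IC
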