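import Pool.Agent.Work.MP_cb528c_lc.ID0

set_option autoImplicit false
set_option linter.all false

/-!
# MP_cb528c_lc, module IFoC (M): the decoding is first order

`fo_nn`: for all `a b c` (arbitrary, possibly equal variables) by induction on `j` (cases `0`, `1`, `j + 2`): the quantified variables
are `k = a + b + c + 1`, `k + 1`, `k + 2` (different from `a, b, c`); `FO.ex k`, `FO.all k`, `FO.congr` with
`Function.update_self`, `Function.update_of_ne`. `fo_dmP`: `FO.forallFin`, `FO.existsFin` for `j : Fin (L + 2)`, variables `0, .., 4`;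
`∃! v` unfolds to `∃ v, p v ∧ ∀ w, p w → w = v`; `j = j'` is a constant (`FO.const`). The structure `DmP` is equivalent to
the conjunction of its fields.
-/

namespace CB.IC

private theorem ifoc_out1 (a b : ℕ) : FO (fun G s => Out1 G (s a) (s b)) := by
  refine (((fo_E a (a + b + 1)).iff (FO.eq (a + b + 1) b)).all (a + b + 1)).congr fun N s => ?_
  have h1 : a ≠ a + b + 1 := by omega
  have h2 : b ≠ a + b + 1 := by omega
  simp only [Function.update_self, Function.update_of_ne h1, Function.update_of_ne h2]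
  rfl

private theorem ifoc_out2 (a b c : ℕ) : FO (fun G s => Out2 G (s a) (s b) (s c)) := by
  refine (((fo_E a (a + b + c + 1)).iff ((FO.eq (a + b + c + 1) b).or (FO.eq (a + b + c + 1) c))).all
    (a + b + c + 1)).congr fun N s => ?_
  have h1 : a ≠ a + b + c + 1 := by omega
  have h2 : b ≠ a + b + c + 1 := by omega
  have h3 : c ≠ a + b + c + 1 := by omega
  simp only [Function.update_self, Function.update_of_ne h1, Function.update_of_ne h2,
    Function.update_of_ne h3]
  rfl

private theorem ifoc_nn : ∀ (j a b c : ℕ), FO (fun G s => NN G j (s a) (s b) (s c))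
  | 0, a, b, c => by
    refine ((ifoc_out1 a b).and ((ifoc_out2 (a + b + c + 1) a c).ex (a + b + c + 1))).congr
      fun N s => ?_
    have h1 : a ≠ a + b + c + 1 := by omega
    have h3 : c ≠ a + b + c + 1 := by omega
    simp only [Function.update_self, Function.update_of_ne h1, Function.update_of_ne h3]
    rfl
  | 1, a, b, c => by
    refine (((ifoc_out1 (a + b + c + 1) b).and (ifoc_out2 a (a + b + c + 1) c)).ex
      (a + b + c + 1)).congr fun N s => ?_
    have h1 : a ≠ a + b + c + 1 := by omega
    have h2 : b ≠ a + b + c + 1 := by omega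
    have h3 : c ≠ a + b + c + 1 := by omega
    simp only [Function.update_self, Function.update_of_ne h1, Function.update_of_ne h2,
      Function.update_of_ne h3]
    rfl
  | (j + 2), a, b, c => by
    refine (((ifoc_nn (j + 1) (a + b + c + 1) b c).and ((fo_E a (a + b + c + 1)).and
      (((fo_E a (a + b + c + 2)).imp ((FO.eq (a + b + c + 2) (a + b + c + 1)).or
      (FO.eq (a + b + c + 2) b))).all (a + b + c + 2)))).ex (a + b + c + 1)).congr fun N s => ?_
    have h1 : a ≠ a + b + c + 1 := by omega
    have h2 : b ≠ a + b + c + 1 := by omega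
    have h3 : c ≠ a + b + c + 1 := by omega
    have h4 : a ≠ a + b + c + 2 := by omega
    have h5 : b ≠ a + b + c + 2 := by omega
    have h6 : a + b + c + 1 ≠ a + b + c + 2 := by omega
    simp only [Function.update_self, Function.update_of_ne h1, Function.update_of_ne h2,
      Function.update_of_ne h3, Function.update_of_ne h4, Function.update_of_ne h5,
      Function.update_of_ne h6]
    rfl

theorem fo_nn (j a b c : ℕ) : FO (fun G s => NN G j (s a) (s b) (s c)) :=
  ifoc_nn j a b c

theorem fo_RI (r a b : ℕ) : FO (fun G s => RI r G (s a) (s b)) := by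
  refine (((fo_nn (r + 2) (a + b + 1) a b).and (fo_E (a + b + 1) a)).ex (a + b + 1)).congr
    fun N s => ?_
  have h1 : a ≠ a + b + 1 := by omega
  have h2 : b ≠ a + b + 1 := by omega
  simp only [Function.update_self, Function.update_of_ne h1, Function.update_of_ne h2]
  rfl

private theorem ifoc_isl : FO (fun G _ => ∃! x, Isl G x) := by
  refine (((fo_isl 0).and (((fo_isl 1).imp (FO.eq 1 0)).all 1)).ex 0).congr fun N s => ?_
  have h1 : (0 : ℕ) ≠ 1 := by omega
  simp only [Function.update_self, Function.update_of_ne h1]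
  rfl

private theorem ifoc_ne : FO (fun G _ => ∃ x, Dom G x) := by
  refine ((fo_dom 0).ex 0).congr fun N s => ?_
  simp only [Function.update_self]

private theorem ifoc_ex (L : ℕ) : FO (fun G _ => ∀ j : Fin (L + 2), ∀ x y, Dom G x → Dom G y →
    ∃! v, NN G j.1 v x y) := by
  refine (FO.forallFin (fun j : Fin (L + 2) => (((fo_dom 0).imp ((fo_dom 1).imp
    (((fo_nn j.1 2 0 1).and (((fo_nn j.1 3 0 1).imp (FO.eq 3 2)).all 3)).ex 2))).all 1).all 0)).congr
    fun N s => ?_
  have h1 : (0 : ℕ) ≠ 1 := by omega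
  have h2 : (0 : ℕ) ≠ 2 := by omega
  have h3 : (0 : ℕ) ≠ 3 := by omega
  have h4 : (1 : ℕ) ≠ 2 := by omega
  have h5 : (1 : ℕ) ≠ 3 := by omega
  have h6 : (2 : ℕ) ≠ 3 := by omega
  simp only [Function.update_self, Function.update_of_ne h1, Function.update_of_ne h2,
    Function.update_of_ne h3, Function.update_of_ne h4, Function.update_of_ne h5,
    Function.update_of_ne h6]
  rfl

private theorem ifoc_cov (L : ℕ) : FO (fun G _ => ∀ v, ¬ Snk G v → ∃ j : Fin (L + 2), ∃ x y,
    Dom G x ∧ Dom G y ∧ NN G j.1 v x y) := by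
  refine (((fo_snk 0).not.imp (FO.existsFin (fun j : Fin (L + 2) => (((fo_dom 1).and ((fo_dom 2).and
    (fo_nn j.1 0 1 2))).ex 2).ex 1))).all 0).congr fun N s => ?_
  have h1 : (0 : ℕ) ≠ 1 := by omega
  have h2 : (0 : ℕ) ≠ 2 := by omega
  have h4 : (1 : ℕ) ≠ 2 := by omega
  simp only [Function.update_self, Function.update_of_ne h1, Function.update_of_ne h2,
    Function.update_of_ne h4]

private theorem ifoc_inj (L : ℕ) : FO (fun G _ => ∀ j j' : Fin (L + 2), ∀ v x y x' y', Dom G x →
    Dom G y → Dom G x' → Dom G y' → NN G j.1 v x y → NN G j'.1 v x' y' →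
    j = j' ∧ x = x' ∧ y = y') := by
  have c := fun j j' : Fin (L + 2) => (fo_dom 1).imp ((fo_dom 2).imp ((fo_dom 3).imp
    ((fo_dom 4).imp ((fo_nn j.1 0 1 2).imp ((fo_nn j'.1 0 3 4).imp
      ((FO.const (j = j')).and ((FO.eq 1 3).and (FO.eq 2 4))))))))
  have c' := fun j j' : Fin (L + 2) => (((((c j j').all 4).all 3).all 2).all 1).all 0
  have c2 := FO.forallFin (fun j : Fin (L + 2) => FO.forallFin (fun j' : Fin (L + 2) => c' j j'))
  refine c2.congr fun N s => ?_
  have h1 : (0 : ℕ) ≠ 1 := by omega
  have h2 : (0 : ℕ) ≠ 2 := by omega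
  have h3 : (0 : ℕ) ≠ 3 := by omega
  have h4 : (0 : ℕ) ≠ 4 := by omega
  have h5 : (1 : ℕ) ≠ 2 := by omega
  have h6 : (1 : ℕ) ≠ 3 := by omega
  have h7 : (1 : ℕ) ≠ 4 := by omega
  have h8 : (2 : ℕ) ≠ 3 := by omega
  have h9 : (2 : ℕ) ≠ 4 := by omega
  have h10 : (3 : ℕ) ≠ 4 := by omega
  simp only [Function.update_self, Function.update_of_ne h1, Function.update_of_ne h2,
    Function.update_of_ne h3, Function.update_of_ne h4, Function.update_of_ne h5,
    Function.update_of_ne h6, Function.update_of_ne h7, Function.update_of_ne h8,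
    Function.update_of_ne h9, Function.update_of_ne h10]

theorem fo_dmP (L : ℕ) : FO (fun G _ => DmP L G) := by
  refine (ifoc_isl.and (ifoc_ne.and ((ifoc_ex L).and ((ifoc_cov L).and (ifoc_inj L))))).congr
    fun N s => ?_
  constructor
  · rintro ⟨h1, h2, h3, h4, h5⟩
    exact ⟨h1, h2, h3, h4, h5⟩
  · rintro ⟨h1, h2, h3, h4, h5⟩
    exact ⟨h1, h2, h3, h4, h5⟩

end CB.IC
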