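import Pool.Agent.Work.MP_cb528c_lc.INnGr

set_option autoImplicit false
set_option linter.all false

/-!
# MP_cb528c_lc, module IGrDm (S-M): the coding digraph has the property `DmP`, and it codes the given structure

`dmP_gr`: `isl_gr`, `dom_gr`, `snk_gr`, `nn_gr` (`v` not a sink is some `pt j x y`).
`gi_gr`: `GI_eq`; the bijection `{v // Dom (Gr L M) v} ≃ M.C` (`el x ↔ x`, `dom_gr`); relations:
`RI r (Gr L M) (el x) (el y) ↔ ∃ h, pt ⟨r + 2, h⟩ x y → el x ↔ M.R r [x, y]` for `r < L` (`nn_gr`, `e_gr`, `ge`); `M.Ok` gives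
`r < L` and length 2 for the relations of `M`.
-/

namespace CB.IC

theorem dmP_gr (L : ℕ) (M : Mdl) : DmP L (Gr L M) where
  isl := ⟨Nd.z, isl_gr.2 rfl, fun _ h => isl_gr.1 h⟩
  ne := by
    obtain ⟨x⟩ := M.ne
    exact ⟨Nd.el x, dom_gr.2 ⟨x, rfl⟩⟩
  ex := by
    intro j x y hx hy
    obtain ⟨a, rfl⟩ := dom_gr.1 hx
    obtain ⟨b, rfl⟩ := dom_gr.1 hy
    refine ⟨Nd.pt j a b, (nn_gr j.1 _ a b).2 ⟨j.2, rfl⟩, fun v hv => ?_⟩
    obtain ⟨_, rfl⟩ := (nn_gr j.1 v a b).1 hv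
    rfl
  cov := by
    intro v hv
    rw [snk_gr] at hv
    push Not at hv
    obtain ⟨j, x, y, rfl⟩ := hv
    exact ⟨j, Nd.el x, Nd.el y, dom_gr.2 ⟨x, rfl⟩, dom_gr.2 ⟨y, rfl⟩, (nn_gr j.1 _ x y).2 ⟨j.2, rfl⟩⟩
  inj := by
    intro j j' v x y x' y' hx hy hx' hy' h h'
    obtain ⟨a, rfl⟩ := dom_gr.1 hx
    obtain ⟨b, rfl⟩ := dom_gr.1 hy
    obtain ⟨a', rfl⟩ := dom_gr.1 hx'
    obtain ⟨b', rfl⟩ := dom_gr.1 hy'
    obtain ⟨_, rfl⟩ := (nn_gr j.1 v a b).1 h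
    obtain ⟨_, h2⟩ := (nn_gr j'.1 _ a' b').1 h'
    obtain ⟨h3, h4, h5⟩ := Nd.pt.inj h2
    exact ⟨h3, by rw [h4], by rw [h5]⟩

theorem gi_gr {L : ℕ} {M : Mdl} (h : M.Ok (List.replicate L 2)) : (GI L (Gr L M)).Iso M := by
  have hne : Nonempty {v // Dom (Gr L M) v} := by
    obtain ⟨x⟩ := M.ne
    exact ⟨⟨Nd.el x, dom_gr.2 ⟨x, rfl⟩⟩⟩
  rw [GI_eq hne]
  let f : M.C → {v // Dom (Gr L M) v} := fun x => ⟨Nd.el x, dom_gr.2 ⟨x, rfl⟩⟩
  have hf : Function.Bijective f := by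
    constructor
    · intro x y hxy
      exact Nd.el.inj (congrArg Subtype.val hxy)
    · rintro ⟨v, hv⟩
      obtain ⟨x, rfl⟩ := dom_gr.1 hv
      exact ⟨x, rfl⟩
  let e0 : M.C ≃ {v // Dom (Gr L M) v} := Equiv.ofBijective f hf
  refine ⟨e0.symm, fun r l => ?_⟩
  obtain ⟨l', rfl⟩ : ∃ l', l = l'.map e0 := ⟨l.map e0.symm, by
    rw [List.map_map, Equiv.self_comp_symm, List.map_id]⟩
  rw [List.map_map, Equiv.symm_comp_self, List.map_id]
  have key : ∀ a b : M.C, r < L → (RI r (Gr L M) (Nd.el a) (Nd.el b) ↔ M.R r [a, b]) := by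
    intro a b hr
    constructor
    · rintro ⟨v, h1, h2⟩
      obtain ⟨_, rfl⟩ := (nn_gr (r + 2) v a b).1 h1
      rcases e_gr.1 h2 with ⟨h3, _⟩ | ⟨h3, _⟩ | ⟨i, h3, _, h4⟩
      · exact absurd (show r + 2 = 0 from h3) (by omega)
      · exact absurd (show r + 2 = 1 from h3) (by omega)
      · have h3 : r + 2 = i + 2 := h3
        have h5 : i = r := by omega
        rwa [h5] at h4
    · intro h1
      exact ⟨Nd.pt ⟨r + 2, by omega⟩ a b, (nn_gr (r + 2) _ a b).2 ⟨by omega, rfl⟩,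
        e_gr.2 (Or.inr (Or.inr ⟨r, rfl, rfl, h1⟩))⟩
  constructor
  · rintro ⟨hr, x, y, h1, h2⟩
    match l', h1 with
    | [a, b], h1 =>
      obtain ⟨h3, h4⟩ := List.cons.inj h1
      obtain ⟨h4, _⟩ := List.cons.inj h4
      subst h3 h4
      exact (key a b hr).1 h2
  · intro h1
    have h2 := h r l' h1
    rw [List.getElem?_replicate] at h2
    split_ifs at h2 with hr
    have h3 : 2 = l'.length := Option.some.inj h2
    match l', h3, h1 with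
    | [a, b], _, h1 => exact ⟨hr, e0 a, e0 b, rfl, (key a b hr).2 h1⟩

end CB.IC
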