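import Pool.Agent.Work.MP_cb528c_lc.IDefs

set_option autoImplicit false
set_option linter.all false

/-!
# MP_cb528c_lc, module IGrEf (S-M): games on coding digraphs

`EF.of_system` with `C n S := ∃ T, EF M M' (2 * n) T ∧ ∀ p ∈ S, Lft T p` where `Lft T p` says that `p = (z, z)`, or
`p = (el x, el x')` with `(x, x') ∈ T`, or `p = (pt j x y, pt j x' y')` with `(x, x'), (y, y') ∈ T`.
Step: `a = z`: `b = z`; `a = el x`: choose `x'` by one round (`EF.pred` for the other); `a = pt j x y`: two rounds (`insert` twice,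
`T ⊆ insert ..`: `Lft` is monotone in `T`). Base: equality: injectivity of `T` on both sides (`EF M M' 0 T`); relations: `r = 0` and
lists of length two `[p, q]`: `ge` is preserved: compare the constructors; for `M.R i [x, y] ↔ M'.R i [x', y']` use the list
`[(x, x'), (y, y')]`.
-/

namespace CB.IC

/-- lifting a set of pairs to the coding digraphs -/
private inductive Lft {L : ℕ} {M M' : Mdl} (T : Set (M.C × M'.C)) : Nd M.C L → Nd M'.C L → Prop
  | z : Lft T Nd.z Nd.z
  | el {x x'} (h : (x, x') ∈ T) : Lft T (Nd.el x) (Nd.el x')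
  | pt (j) {x x' y y'} (h : (x, x') ∈ T) (h' : (y, y') ∈ T) : Lft T (Nd.pt j x y) (Nd.pt j x' y')

private theorem Lft.mono {L : ℕ} {M M' : Mdl} {T T' : Set (M.C × M'.C)} (hT : T ⊆ T')
    {v : Nd M.C L} {w : Nd M'.C L} (h : Lft T v w) : Lft T' v w := by
  cases h with
  | z => exact Lft.z
  | el h => exact Lft.el (hT h)
  | pt j h h' => exact Lft.pt j (hT h) (hT h')

private theorem ge_mp {L : ℕ} {M M' : Mdl} {T : Set (M.C × M'.C)} (h0 : EF M M' 0 T)
    {v w : Nd M.C L} {v' w' : Nd M'.C L} (hv : Lft T v v') (hw : Lft T w w') :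
    ge L M v w ↔ ge L M' v' w' := by
  cases hv with
  | z => cases hw <;> exact Iff.rfl
  | el h => cases hw <;> exact Iff.rfl
  | @pt j x x' y y' h h' =>
    cases hw with
    | z => exact Iff.rfl
    | @el u u' hu =>
      have e1 : u = x ↔ u' = x' := h0.1 _ hu _ h
      have e2 : u = y ↔ u' = y' := h0.1 _ hu _ h'
      have e3 : ∀ i, M.R i [x, y] ↔ M'.R i [x', y'] := fun i =>
        h0.2 i [(x, x'), (y, y')] (by
          intro p hp
          rcases List.mem_cons.1 hp with rfl | hp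
          · exact h
          · rcases List.mem_cons.1 hp with rfl | hp
            · exact h'
            · exact absurd hp List.not_mem_nil)
      change ((j.1 = 0 ∧ u = x) ∨ (j.1 = 1 ∧ u = y) ∨ ∃ i, j.1 = i + 2 ∧ u = x ∧ M.R i [x, y]) ↔
        ((j.1 = 0 ∧ u' = x') ∨ (j.1 = 1 ∧ u' = y') ∨ ∃ i, j.1 = i + 2 ∧ u' = x' ∧ M'.R i [x', y'])
      rw [e1, e2]
      simp only [e3]
    | @pt j' u u' w w' hu hw =>
      have e1 : u = x ↔ u' = x' := h0.1 _ hu _ h
      have e2 : w = y ↔ w' = y' := h0.1 _ hw _ h'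
      change (j.1 = j'.1 + 1 ∧ u = x ∧ w = y) ↔ (j.1 = j'.1 + 1 ∧ u' = x' ∧ w' = y')
      rw [e1, e2]

private theorem eq_mp {L : ℕ} {M M' : Mdl} {T : Set (M.C × M'.C)} (h0 : EF M M' 0 T)
    {v w : Nd M.C L} {v' w' : Nd M'.C L} (hv : Lft T v v') (hw : Lft T w w') :
    v = w ↔ v' = w' := by
  cases hv with
  | z =>
    cases hw with
    | z => exact ⟨fun _ => rfl, fun _ => rfl⟩
    | el h => exact ⟨fun h => (nomatch h), fun h => (nomatch h)⟩
    | pt j h h' => exact ⟨fun h => (nomatch h), fun h => (nomatch h)⟩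
  | @el x x' h =>
    cases hw with
    | z => exact ⟨fun h => (nomatch h), fun h => (nomatch h)⟩
    | @el u u' hu =>
      have e1 : x = u ↔ x' = u' := h0.1 _ h _ hu
      exact ⟨fun k => by rw [e1.1 (Nd.el.inj k)], fun k => by rw [e1.2 (Nd.el.inj k)]⟩
    | pt j h h' => exact ⟨fun h => (nomatch h), fun h => (nomatch h)⟩
  | @pt j x x' y y' h h' =>
    cases hw with
    | z => exact ⟨fun h => (nomatch h), fun h => (nomatch h)⟩
    | @el u u' hu => exact ⟨fun h => (nomatch h), fun h => (nomatch h)⟩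
    | @pt j' u u' w w' hu hw =>
      have e1 : x = u ↔ x' = u' := h0.1 _ h _ hu
      have e2 : y = w ↔ y' = w' := h0.1 _ h' _ hw
      constructor
      · intro k
        obtain ⟨k1, k2, k3⟩ := Nd.pt.inj k
        rw [k1, e1.1 k2, e2.1 k3]
      · intro k
        obtain ⟨k1, k2, k3⟩ := Nd.pt.inj k
        rw [k1, e1.2 k2, e2.2 k3]

theorem ef_gr (L : ℕ) {M M' : Mdl} {n : ℕ} (h : EF M M' (2 * n) ∅) : EF (Gr L M) (Gr L M') n ∅ := by
  refine EF.of_system (M := Gr L M) (N := Gr L M')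
    (fun n S => ∃ T, EF M M' (2 * n) T ∧ ∀ p ∈ S, Lft T p.1 p.2) ?_ ?_ ?_ n ∅
    ⟨∅, h, fun p hp => hp.elim⟩
  · rintro S ⟨T, hT, hS⟩
    refine ⟨fun p hp q hq => eq_mp hT (hS p hp) (hS q hq), fun r l hl => ?_⟩
    constructor
    · rintro ⟨hr, v, w, h1, h2⟩
      match l, hl, h1 with
      | [p, q], hl, h1 =>
        obtain ⟨h3, h4⟩ := List.cons.inj h1
        obtain ⟨h4, _⟩ := List.cons.inj h4
        subst h3 h4
        exact ⟨hr, p.2, q.2, rfl, (ge_mp hT (hS p (hl p (by simp))) (hS q (hl q (by simp)))).1 h2⟩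
    · rintro ⟨hr, v, w, h1, h2⟩
      match l, hl, h1 with
      | [p, q], hl, h1 =>
        obtain ⟨h3, h4⟩ := List.cons.inj h1
        obtain ⟨h4, _⟩ := List.cons.inj h4
        subst h3 h4
        exact ⟨hr, p.1, q.1, rfl, (ge_mp hT (hS p (hl p (by simp))) (hS q (hl q (by simp)))).2 h2⟩
  · rintro n S ⟨T, hT, hS⟩ a
    have hT : EF M M' (2 * n + 1 + 1) T := hT
    match a with
    | Nd.z =>
      refine ⟨Nd.z, T, hT.pred.pred, ?_⟩
      rintro p (rfl | hp)
      · exact Lft.z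
      · exact hS p hp
    | Nd.el x =>
      obtain ⟨x', hx⟩ := hT.1 x
      refine ⟨Nd.el x', insert (x, x') T, hx.pred, ?_⟩
      rintro p (rfl | hp)
      · exact Lft.el (Set.mem_insert _ _)
      · exact (hS p hp).mono (Set.subset_insert _ _)
    | Nd.pt j x y =>
      obtain ⟨x', hx⟩ := hT.1 x
      obtain ⟨y', hy⟩ := hx.1 y
      refine ⟨Nd.pt j x' y', insert (y, y') (insert (x, x') T), hy, ?_⟩
      rintro p (rfl | hp)
      · exact Lft.pt j (Set.mem_insert_of_mem _ (Set.mem_insert _ _)) (Set.mem_insert _ _)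
      · exact (hS p hp).mono ((Set.subset_insert _ _).trans (Set.subset_insert _ _))
  · rintro n S ⟨T, hT, hS⟩ a
    have hT : EF M M' (2 * n + 1 + 1) T := hT
    match a with
    | Nd.z =>
      refine ⟨Nd.z, T, hT.pred.pred, ?_⟩
      rintro p (rfl | hp)
      · exact Lft.z
      · exact hS p hp
    | Nd.el x' =>
      obtain ⟨x, hx⟩ := hT.2 x'
      refine ⟨Nd.el x, insert (x, x') T, hx.pred, ?_⟩
      rintro p (rfl | hp)
      · exact Lft.el (Set.mem_insert _ _)
      · exact (hS p hp).mono (Set.subset_insert _ _)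
    | Nd.pt j x' y' =>
      obtain ⟨x, hx⟩ := hT.2 x'
      obtain ⟨y, hy⟩ := hx.2 y'
      refine ⟨Nd.pt j x y, insert (y, y') (insert (x, x') T), hy, ?_⟩
      rintro p (rfl | hp)
      · exact Lft.pt j (Set.mem_insert_of_mem _ (Set.mem_insert _ _)) (Set.mem_insert _ _)
      · exact (hS p hp).mono ((Set.subset_insert _ _).trans (Set.subset_insert _ _))

end CB.IC
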