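import Pool.Agent.Work.MP_cb528c_lc.ITrans
import Pool.Agent.Work.MP_cb528c_lc.ICaseA
import Pool.Agent.Work.MP_cb528c_lc.ICaseB
import Pool.Agent.Work.MP_cb528c_lc.ICaseC
import Pool.Agent.Work.MP_cb528c_lc.IGrDm
import Pool.Agent.Work.MP_cb528c_lc.IDec
import Pool.Agent.Work.MP_cb528c_lc.IGrEf
import Pool.Agent.Work.MP_cb528c_lc.IFoC

set_option autoImplicit false
set_option linter.all false

/-!
# MP_cb528c_lc, block I, assembly: `interp_main`
-/

namespace CB.IC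

theorem intR_rich (σ : Sig) (h : σ.Rich) : IntR [2] Dig σ.ar (IsFun σ) := by
  rcases h with ⟨n, hn, h2⟩ | ⟨n, hn, h2⟩ | h
  · obtain ⟨r, hr⟩ := List.getElem?_of_mem hn
    exact case_rel σ r n hr h2
  · obtain ⟨r, hr⟩ := List.getElem?_of_mem hn
    exact case_fn σ r n hr h2
  · obtain ⟨i, j, hij, hi, hj⟩ := two_of_count h
    exact case_two σ i j hi hj hij

theorem interp_dig (L : ℕ) : Interp (List.replicate L 2) [2] Dig := by
  obtain ⟨Dm, hDc, hDm⟩ := FO.closed (fo_dmP L)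
  obtain ⟨tr, htc, htcl, htr⟩ := tr_exists L Dom RI (fo_dom 1) (fun r => fo_RI r 1 3)
  refine ⟨Dm, tr, GI L, hDc, htc, htcl, ?_, ?_, ?_⟩
  · intro N hN hD
    have h := (hDm N).1 hD
    refine ⟨Dig.iso (dec_iso hN h) (dig_gr L _), ok_GI L N, ?_⟩
    obtain ⟨e, he⟩ := isSub_GI (L := L) h.ne
    exact (htr N (GI L N) e he).2
  · intro M hM
    exact ⟨Gr L M, ok_gr L M, (hDm _).2 (dmP_gr L M), th_iso (gi_gr hM)⟩
  · intro n
    refine ⟨2 * n, fun N N' hN hN' hD hD' h => ?_⟩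
    exact EF.iso_empty (dec_iso hN ((hDm N).1 hD)) (dec_iso hN' ((hDm N').1 hD')) (ef_gr L h)

end CB.IC

namespace CB

/-- coding of `L` binary relations in a rich signature -/
theorem interp_main (L : ℕ) (σ : Sig) (h : σ.Rich) : Interp (List.replicate L 2) σ.ar (IsFun σ) :=
  IC.interp_trans (IC.interp_dig L) (IC.intR_rich σ h)

end CB
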