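import Pool.Agent.Work.MP_cb528c_lc.BaDefs

set_option autoImplicit false
set_option linter.all false

/-!
# MP_cb528c_lc, module BaApi: the algebras `FB u`

* `fb_of_hom`: `h` is an injective homomorphism of Boolean algebras; its image is `FB (h ∘ g)`: a set `X` determined by the finite
  set `F` is the union over the subsets `p ⊆ F` which are the pattern `{i ∈ F | x ∈ h (g i)}` of some `x ∈ X` of
  `⋂_{i ∈ p} h (g i) ∩ ⋂_{i ∈ F \ p} (h (g i))ᶜ = h (...)`.  (`h ⊥ = ∅` since `h (a ⊓ aᶜ) = h a ∩ (h a)ᶜ`; order isomorphism: `a ≤ b` iff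
  `a ⊓ bᶜ = ⊥` iff `h a ∩ (h b)ᶜ = ∅`.)
* `fb_pull`: the map `X ↦ f ⁻¹' X`, `FB u → FB (f⁻¹ u)` is an isomorphism if the image of `f` meets every nonempty `X ∈ FB u`.
  Surjectivity: a set `Y` determined by `F` with respect to `f⁻¹ u` is the preimage of
  `X := {x | ∃ y ∈ Y, ∀ i ∈ F, (x ∈ u i ↔ f y ∈ u i)}`.
* `fb_congr`: `Det u X ↔ Det v X`.
* `fb_iic`: `Y ≤ a` corresponds to `Subtype.val ⁻¹' Y`; inverse: `Subtype.val '' Z` (determined by `F ∪` a set for `a`).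
-/

namespace CB

private theorem Det.univ' {E ι : Type} (u : ι → Set E) : Det u Set.univ :=
  ⟨∅, fun x y h => Iff.rfl⟩

private theorem det_ind_aux {E ι : Type} [DecidableEq ι] {u : ι → Set E} (P : Set E → Prop) (h0 : P ∅) (h1 : P Set.univ)
    (hi : ∀ X Y, P X → P Y → P (X ∩ Y)) (hu' : ∀ X Y, P X → P Y → P (X ∪ Y)) (hc : ∀ X, P X → P Xᶜ)
    (hu : ∀ i, P (u i)) (F : Finset ι) :
    ∀ X : Set E, (∀ x y : E, (∀ i ∈ F, (x ∈ u i ↔ y ∈ u i)) → (x ∈ X ↔ y ∈ X)) → P X := by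
  induction F using Finset.induction_on with
  | empty =>
    intro X hX
    rcases Set.eq_empty_or_nonempty X with h | ⟨x, hx⟩
    · rw [h]; exact h0
    · have : X = Set.univ := by
        ext y
        simp only [Set.mem_univ, iff_true]
        exact (hX x y (by simp)).1 hx
      rw [this]; exact h1
  | insert i F hiF ih =>
    intro X hX
    have e : X = ({x | ∃ y ∈ X, y ∈ u i ∧ ∀ j ∈ F, (x ∈ u j ↔ y ∈ u j)} ∩ u i) ∪
        ({x | ∃ y ∈ X, y ∉ u i ∧ ∀ j ∈ F, (x ∈ u j ↔ y ∈ u j)} ∩ (u i)ᶜ) := by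
      ext x
      constructor
      · intro hx
        by_cases hxi : x ∈ u i
        · exact Or.inl ⟨⟨x, hx, hxi, fun j _ => Iff.rfl⟩, hxi⟩
        · exact Or.inr ⟨⟨x, hx, hxi, fun j _ => Iff.rfl⟩, hxi⟩
      · rintro (⟨⟨y, hy, hyi, hj⟩, hxi⟩ | ⟨⟨y, hy, hyi, hj⟩, hxi⟩)
        · refine (hX x y ?_).2 hy
          intro j hjF
          rcases Finset.mem_insert.1 hjF with rfl | hjF
          · exact ⟨fun _ => hyi, fun _ => hxi⟩
          · exact hj j hjF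
        · refine (hX x y ?_).2 hy
          intro j hjF
          rcases Finset.mem_insert.1 hjF with rfl | hjF
          · exact ⟨fun h => absurd h hxi, fun h => absurd h hyi⟩
          · exact hj j hjF
    rw [e]
    refine hu' _ _ (hi _ _ (ih _ ?_) (hu i)) (hi _ _ (ih _ ?_) (hc _ (hu i)))
    · intro x y hxy
      constructor
      · rintro ⟨z, hz, hzi, hzj⟩
        exact ⟨z, hz, hzi, fun j hj => (hxy j hj).symm.trans (hzj j hj)⟩
      · rintro ⟨z, hz, hzi, hzj⟩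
        exact ⟨z, hz, hzi, fun j hj => (hxy j hj).trans (hzj j hj)⟩
    · intro x y hxy
      constructor
      · rintro ⟨z, hz, hzi, hzj⟩
        exact ⟨z, hz, hzi, fun j hj => (hxy j hj).symm.trans (hzj j hj)⟩
      · rintro ⟨z, hz, hzi, hzj⟩
        exact ⟨z, hz, hzi, fun j hj => (hxy j hj).trans (hzj j hj)⟩

private theorem det_ind {E ι : Type} {u : ι → Set E} (P : Set E → Prop) (h0 : P ∅)
    (hi : ∀ X Y, P X → P Y → P (X ∩ Y)) (hc : ∀ X, P X → P Xᶜ)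
    (hu : ∀ i, P (u i)) {X : Set E} (hX : Det u X) : P X := by
  classical
  obtain ⟨F, hF⟩ := hX
  refine det_ind_aux P h0 ?_ hi ?_ hc hu F X hF
  · have := hc _ h0
    rwa [Set.compl_empty] at this
  · intro X Y hX hY
    have := hc _ (hi _ _ (hc _ hX) (hc _ hY))
    rwa [Set.compl_inter, compl_compl, compl_compl] at this

theorem fb_of_hom {B : Type} [BooleanAlgebra B] {E ι : Type} (h : B → Set E) (hinf : ∀ a b, h (a ⊓ b) = h a ∩ h b)
    (hc : ∀ a, h aᶜ = (h a)ᶜ) (h0 : ∀ a, h a = ∅ → a = ⊥) (g : ι → B) (hg : ∀ b, Det (fun i => h (g i)) (h b)) :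
    Nonempty (B ≃o FB (fun i => h (g i))) := by
  have hbot : h ⊥ = ∅ := by
    have h1 : h (⊥ ⊓ ⊥ᶜ) = h ⊥ ∩ (h ⊥)ᶜ := by rw [hinf, hc]
    rw [inf_compl_eq_bot, Set.inter_compl_self] at h1
    exact h1
  have hle : ∀ a b : B, h a ⊆ h b ↔ a ≤ b := by
    intro a b
    constructor
    · intro hab
      have h1 : h (a ⊓ bᶜ) = ∅ := by
        rw [hinf, hc, ← Set.diff_eq, Set.diff_eq_empty]
        exact hab
      exact disjoint_compl_right_iff.1 (disjoint_iff.2 (h0 _ h1))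
    · intro hab
      have h1 : a ⊓ b = a := inf_eq_left.2 hab
      rw [← h1, hinf]
      exact Set.inter_subset_right
  refine ⟨RelIso.ofSurjective (OrderEmbedding.ofMapLEIff (fun b => (⟨h b, hg b⟩ : FB (fun i => h (g i))))
    (fun a b => hle a b)) ?_⟩
  rintro ⟨X, hX⟩
  have : ∃ b, h b = X := by
    refine det_ind (fun X => ∃ b, h b = X) ⟨⊥, hbot⟩ ?_ ?_ (fun i => ⟨g i, rfl⟩) hX
    · rintro X Y ⟨a, rfl⟩ ⟨b, rfl⟩
      exact ⟨a ⊓ b, hinf a b⟩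
    · rintro X ⟨a, rfl⟩
      exact ⟨aᶜ, hc a⟩
  obtain ⟨b, hb⟩ := this
  exact ⟨b, Subtype.ext hb⟩

private theorem det_preimage {E E' ι : Type} {u : ι → Set E'} (f : E → E') {X : Set E'} (h : Det u X) :
    Det (fun i => f ⁻¹' (u i)) (f ⁻¹' X) := by
  obtain ⟨F, hF⟩ := h
  exact ⟨F, fun x y hxy => hF (f x) (f y) hxy⟩

private theorem det_of_preimage {E E' ι : Type} {u : ι → Set E'} (f : E → E') {Y : Set E}
    (h : Det (fun i => f ⁻¹' (u i)) Y) : ∃ X, Det u X ∧ f ⁻¹' X = Y := by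
  refine det_ind (fun Y => ∃ X, Det u X ∧ f ⁻¹' X = Y) ⟨∅, Det.empty u, rfl⟩ ?_ ?_ (fun i => ⟨u i, Det.self u i, rfl⟩) h
  · rintro X Y ⟨a, ha, rfl⟩ ⟨b, hb, rfl⟩
    exact ⟨a ∩ b, ha.inter hb, rfl⟩
  · rintro X ⟨a, ha, rfl⟩
    exact ⟨aᶜ, ha.compl, rfl⟩

theorem fb_pull {E E' ι : Type} (u : ι → Set E') (f : E → E') (hf : ∀ X, Det u X → X.Nonempty → ∃ x, f x ∈ X) :
    Nonempty (FB u ≃o FB (fun i => f ⁻¹' (u i))) := by
  refine ⟨RelIso.ofSurjective (OrderEmbedding.ofMapLEIff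
    (fun X : FB u => (⟨f ⁻¹' X.1, det_preimage f X.2⟩ : FB (fun i => f ⁻¹' (u i)))) ?_) ?_⟩
  · intro X Y
    constructor
    · intro hXY
      by_contra hcon
      have h1 : (X.1 ∩ Y.1ᶜ).Nonempty := by
        by_contra h2
        apply hcon
        intro x hx
        by_contra hx'
        exact h2 ⟨x, hx, hx'⟩
      obtain ⟨x, hx1, hx2⟩ := hf _ (Det.inter X.2 (Det.compl Y.2)) h1
      exact hx2 (hXY hx1)
    · intro hXY x hx
      exact hXY hx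
  · rintro ⟨Y, hY⟩
    obtain ⟨X, hX, hXY⟩ := det_of_preimage f hY
    exact ⟨⟨X, hX⟩, Subtype.ext hXY⟩

theorem det_congr {E ι κ : Type} {u : ι → Set E} {v : κ → Set E} (h1 : ∀ i, Det v (u i)) (h2 : ∀ j, Det u (v j))
    (X : Set E) : Det u X ↔ Det v X :=
  ⟨fun h => det_ind (fun X => Det v X) (Det.empty v) (fun X Y hX hY => hX.inter hY) (fun X hX => hX.compl) h1 h,
    fun h => det_ind (fun X => Det u X) (Det.empty u) (fun X Y hX hY => hX.inter hY) (fun X hX => hX.compl) h2 h⟩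

theorem fb_congr {E ι κ : Type} {u : ι → Set E} {v : κ → Set E} (h1 : ∀ i, Det v (u i)) (h2 : ∀ j, Det u (v j)) :
    Nonempty (FB u ≃o FB v) := by
  refine ⟨RelIso.ofSurjective (OrderEmbedding.ofMapLEIff
    (fun X : FB u => (⟨X.1, (det_congr h1 h2 X.1).1 X.2⟩ : FB v)) (fun X Y => Iff.rfl)) ?_⟩
  rintro ⟨Y, hY⟩
  exact ⟨⟨Y, (det_congr h1 h2 Y).2 hY⟩, rfl⟩

theorem fb_iic {E ι : Type} (u : ι → Set E) (a : FB u) :
    Nonempty (Set.Iic a ≃o FB (fun i => (Subtype.val ⁻¹' (u i) : Set (a : Set E)))) := by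
  refine ⟨RelIso.ofSurjective (OrderEmbedding.ofMapLEIff
    (fun X : Set.Iic a => (⟨Subtype.val ⁻¹' X.1.1, det_preimage Subtype.val X.1.2⟩ :
      FB (fun i => (Subtype.val ⁻¹' (u i) : Set (a : Set E))))) ?_) ?_⟩
  · intro X Y
    constructor
    · intro hXY x hx
      have hxa : x ∈ (a : Set E) := X.2 hx
      exact hXY (show (⟨x, hxa⟩ : (a : Set E)) ∈ Subtype.val ⁻¹' X.1.1 from hx)
    · intro hXY x hx
      exact hXY hx
  · rintro ⟨Y, hY⟩
    obtain ⟨X, hX, hXY⟩ := det_of_preimage (u := u) (fun x : (a.1 : Set E) => x.1) hY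
    refine ⟨⟨⟨X ∩ a.1, hX.inter a.2⟩, fun x hx => hx.2⟩, Subtype.ext ?_⟩
    show Subtype.val ⁻¹' (X ∩ a.1) = Y
    rw [← hXY]
    ext x
    exact ⟨fun hx => hx.1, fun hx => ⟨hx, x.2⟩⟩

theorem iic_congr {B C : Type} [BooleanAlgebra B] [BooleanAlgebra C] (e : B ≃o C) (a : B) :
    Nonempty (Set.Iic a ≃o Set.Iic (e a)) := by
  refine ⟨RelIso.ofSurjective (OrderEmbedding.ofMapLEIff
    (fun x : Set.Iic a => (⟨e x.1, e.monotone x.2⟩ : Set.Iic (e a))) ?_) ?_⟩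
  · intro x y
    exact e.le_iff_le
  · rintro ⟨y, hy⟩
    exact ⟨⟨e.symm y, by
      rw [Set.mem_Iic, e.symm_apply_le]
      exact hy⟩, Subtype.ext (e.apply_symm_apply y)⟩

/-- a numeration is transported by an isomorphism -/
theorem IsPiAlg.congr {n : ℕ} {B C : Type} [BooleanAlgebra B] [BooleanAlgebra C] {ν : ℕ → B} (h : IsPiAlg n ν)
    (e : B ≃o C) : IsPiAlg n (fun i => e (ν i)) := by
  obtain ⟨h1, ⟨f, hf, hf'⟩, ⟨g, hg, hg'⟩, ⟨k, hk, hk'⟩, h5⟩ := h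
  refine ⟨e.surjective.comp h1, ⟨f, hf, fun i j => ?_⟩, ⟨g, hg, fun i j => ?_⟩, ⟨k, hk, fun i => ?_⟩, ?_⟩
  · show e (ν (f i j)) = e (ν i) ⊔ e (ν j)
    rw [hf', map_sup]
  · show e (ν (g i j)) = e (ν i) ⊓ e (ν j)
    rw [hg', map_inf]
  · show e (ν (k i)) = (e (ν i))ᶜ
    rw [hk', map_compl']
  · have : (fun x : ℕ => e (ν x.unpair.1) = e (ν x.unpair.2)) = (fun x : ℕ => ν x.unpair.1 = ν x.unpair.2) := by
      funext x
      exact propext e.injective.eq_iff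
    rw [this]
    exact h5

theorem WU.congr {n : ℕ} {B C : Type} [BooleanAlgebra B] [BooleanAlgebra C] {ν : ℕ → B} (h : WU n ν)
    (e : B ≃o C) : WU n (fun i => e (ν i)) := by
  refine ⟨h.1.congr e, ?_⟩
  intro D _ μ hμ
  obtain ⟨a, ⟨f⟩⟩ := h.2 D _ μ hμ
  obtain ⟨g⟩ := iic_congr e a
  exact ⟨e a, ⟨f.trans g⟩⟩

end CB
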