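import Pool.Agent.Work.MP_cb528c_lc.HierApi

set_option autoImplicit false
set_option linter.all false

/-!
# MP_cb528c_lc, module PiClass: Pi_1 classes in Cantor space

`restr y n` = the list of the first `n` values.  A primitive recursive `f : α → List Bool → Bool` gives the classes
`{y | ∀ n, f a (restr y n) = true}`.
`piclass_konig`: such a class is nonempty iff for every `n` there is a list of length `n` all of whose prefixes are accepted
(Koenig: the set of accepted-with-all-prefixes lists is a finitely branching infinite tree; e.g. use compactness of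
`ℕ → Bool` or build the path of nodes with infinitely many extensions).
`piclass_nonempty`: hence nonemptiness is Pi_1 uniformly in `a` (a bounded search over the lists of length `n`: primitive
recursive, e.g. the list of all lists of length `n` by recursion on `n`).
-/

namespace CB

/-- the first `n` values -/
def restr (y : ℕ → Bool) (n : ℕ) : List Bool := (List.range n).map y

theorem restr_succ (y : ℕ → Bool) (n : ℕ) : restr y (n + 1) = restr y n ++ [y n] := by
  unfold restr; rw [List.range_succ, List.map_append]; rfl

theorem restr_length (y : ℕ → Bool) (n : ℕ) : (restr y n).length = n := by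
  unfold restr; simp

theorem restr_eq_iff {y z : ℕ → Bool} {n : ℕ} : restr y n = restr z n ↔ ∀ i < n, y i = z i := by
  unfold restr
  rw [List.map_inj_left]
  simp

private theorem restr_take (y : ℕ → Bool) {m n : ℕ} (h : m ≤ n) :
    (restr y n).take m = restr y m := by
  unfold restr
  rw [← List.map_take, List.take_range, min_eq_left h]

private theorem restr_getD (l : List Bool) {m : ℕ} (h : m ≤ l.length) :
    restr (fun i => l.getD i false) m = l.take m := by
  apply List.ext_getElem
  · rw [restr_length, List.length_take, min_eq_left h]
  · intro i h1 h2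
    rw [restr_length] at h1
    unfold restr
    rw [List.getElem_map, List.getElem_range, List.getElem_take, List.getD_eq_getElem?_getD,
      List.getElem?_eq_getElem (by omega)]
    rfl

private theorem isClosed_restr (f : List Bool → Bool) (m : ℕ) :
    IsClosed {y : ℕ → Bool | f (restr y m) = true} := by
  have h1 : Continuous (fun y : ℕ → Bool => (fun i : Fin m => y i)) :=
    continuous_pi fun i => continuous_apply _
  have h2 : Continuous (fun v : Fin m → Bool => f (List.ofFn v)) := continuous_of_discreteTopology
  have h3 : (fun y : ℕ → Bool => f (restr y m)) = fun y => f (List.ofFn (fun i : Fin m => y i)) := by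
    funext y
    congr 1
    apply List.ext_getElem
    · rw [restr_length, List.length_ofFn]
    · intro i h1 h2
      unfold restr
      simp
  have h4 : Continuous (fun y : ℕ → Bool => f (restr y m)) := by
    rw [h3]
    exact h2.comp h1
  exact isClosed_eq h4 continuous_const

theorem piclass_konig (f : List Bool → Bool) :
    (∃ y : ℕ → Bool, ∀ n, f (restr y n) = true) ↔
      ∀ n, ∃ l : List Bool, l.length = n ∧ ∀ m ≤ n, f (l.take m) = true := by
  constructor
  · rintro ⟨y, hy⟩ n
    refine ⟨restr y n, restr_length y n, fun m hm => ?_⟩
    rw [restr_take y hm]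
    exact hy m
  · intro h
    let C : ℕ → Set (ℕ → Bool) := fun n => {y | ∀ m ≤ n, f (restr y m) = true}
    have hclosed : ∀ n, IsClosed (C n) := by
      intro n
      have : C n = ⋂ m, ⋂ (_ : m ≤ n), {y : ℕ → Bool | f (restr y m) = true} := by
        ext y
        simp [C]
      rw [this]
      exact isClosed_iInter fun m => isClosed_iInter fun _ => isClosed_restr f m
    have hne : ∀ n, (C n).Nonempty := by
      intro n
      obtain ⟨l, hl, hf⟩ := h n
      refine ⟨fun i => l.getD i false, fun m hm => ?_⟩
      rw [restr_getD l (by omega)]
      exact hf m hm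
    obtain ⟨y, hy⟩ := IsCompact.nonempty_iInter_of_sequence_nonempty_isCompact_isClosed C
      (fun n y hy m hm => hy m (by omega)) hne (hclosed 0).isCompact hclosed
    refine ⟨y, fun n => ?_⟩
    exact Set.mem_iInter.1 hy n n le_rfl

/-- all lists of length `n` -/
private def bl : ℕ → List (List Bool) :=
  fun n => Nat.rec [[]] (fun _ L => L.map (fun l => true :: l) ++ L.map (fun l => false :: l)) n

private theorem mem_bl (n : ℕ) : ∀ l : List Bool, l ∈ bl n ↔ l.length = n := by
  induction n with
  | zero =>
    intro l
    show l ∈ [[]] ↔ _
    simp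
  | succ n ih =>
    intro l
    show l ∈ (bl n).map (fun l => true :: l) ++ (bl n).map (fun l => false :: l) ↔ _
    rw [List.mem_append, List.mem_map, List.mem_map]
    constructor
    · rintro (⟨l, hl, rfl⟩ | ⟨l, hl, rfl⟩)
      · rw [List.length_cons, (ih l).1 hl]
      · rw [List.length_cons, (ih l).1 hl]
    · intro h
      cases l with
      | nil => simp at h
      | cons b l =>
        rw [List.length_cons] at h
        have hl : l ∈ bl n := (ih l).2 (by omega)
        cases b
        · exact Or.inr ⟨l, hl, rfl⟩
        · exact Or.inl ⟨l, hl, rfl⟩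

private theorem primrec_bl : Primrec bl := by
  have hc : ∀ b : Bool, Primrec₂ (fun (_ : ℕ × List (List Bool)) (l : List Bool) => b :: l) :=
    fun b => Primrec.list_cons.comp (Primrec.const b) Primrec.snd
  have h1 : Primrec₂ (fun (_ : ℕ) (L : List (List Bool)) =>
      L.map (fun l => true :: l) ++ L.map (fun l => false :: l)) :=
    Primrec.list_append.comp (Primrec.list_map Primrec.snd (hc true))
      (Primrec.list_map Primrec.snd (hc false))
  exact Primrec.nat_rec₁ [[]] h1

theorem piclass_nonempty {α : Type} [Primcodable α] {f : α → List Bool → Bool} (hf : Primrec₂ f) :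
    Pg 1 (fun a => ∃ y : ℕ → Bool, ∀ n, f a (restr y n) = true) := by
  have h1 : PrimrecRel (fun (m : ℕ) (x : List Bool × α) => f x.2 (x.1.take m) = true) :=
    Primrec.eq.comp (hf.comp (Primrec.snd.comp Primrec.snd)
      (Primrec.list_take.comp Primrec.fst (Primrec.fst.comp Primrec.snd))) (Primrec.const true)
  have h2 : PrimrecRel (fun (l : List Bool) (x : α × ℕ) =>
      ∀ m ∈ List.range (x.2 + 1), f x.1 (l.take m) = true) :=
    h1.forall_mem_list.comp (Primrec.list_range.comp (Primrec.succ.comp
      (Primrec.snd.comp Primrec.snd))) (Primrec.pair Primrec.fst (Primrec.fst.comp Primrec.snd))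
  have h3 : PrimrecPred (fun x : α × ℕ => ∃ l ∈ bl x.2,
      ∀ m ∈ List.range (x.2 + 1), f x.1 (l.take m) = true) :=
    h2.exists_mem_list.comp (primrec_bl.comp Primrec.snd) Primrec.id
  obtain ⟨d, hd⟩ := h3
  have h4 : Sg 0 (fun x : α × ℕ => ∃ l ∈ bl x.2,
      ∀ m ∈ List.range (x.2 + 1), f x.1 (l.take m) = true) :=
    Sg.of_primrec hd (fun a => by simp) 0
  refine (Sg.all (p := fun a n => ∃ l ∈ bl n,
    ∀ m ∈ List.range (n + 1), f a (l.take m) = true) h4).congr (fun a => ?_)
  rw [piclass_konig]
  refine forall_congr' fun n => exists_congr fun l => ?_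
  rw [mem_bl]
  simp [Nat.lt_succ_iff]

end CB
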