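import Pool.Agent.Work.MP_cb528c_lc.HierRe
import Pool.Agent.Work.MP_cb528c_lc.PiClass

set_option autoImplicit false
set_option linter.all false

/-!
# MP_cb528c_lc: Boolean algebras (definitions)
-/

namespace CB

/-- `ν` is a numeration of the Boolean algebra `B` with computable operations and Pi^0_n equality -/
def IsPiAlg (n : ℕ) {B : Type} [BooleanAlgebra B] (ν : ℕ → B) : Prop :=
  Function.Surjective ν ∧
  (∃ f : ℕ → ℕ → ℕ, Computable₂ f ∧ ∀ i j, ν (f i j) = ν i ⊔ ν j) ∧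
  (∃ f : ℕ → ℕ → ℕ, Computable₂ f ∧ ∀ i j, ν (f i j) = ν i ⊓ ν j) ∧
  (∃ f : ℕ → ℕ, Computable f ∧ ∀ i, ν (f i) = (ν i)ᶜ) ∧
  ArN false n (fun x => ν x.unpair.1 = ν x.unpair.2)

/-- weak universality: a Pi^0_n algebra such that every Pi^0_n algebra is isomorphic to one of its relative algebras -/
def WU (n : ℕ) {B : Type} [BooleanAlgebra B] (ν : ℕ → B) : Prop :=
  IsPiAlg n ν ∧ ∀ (C : Type) (_ : BooleanAlgebra C) (μ : ℕ → C), IsPiAlg n μ → ∃ a : B, Nonempty (C ≃o Set.Iic a)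

/-- the set `X` is determined by finitely many of the sets `u i` -/
def Det {E ι : Type} (u : ι → Set E) (X : Set E) : Prop :=
  ∃ F : Finset ι, ∀ x y : E, (∀ i ∈ F, (x ∈ u i ↔ y ∈ u i)) → (x ∈ X ↔ y ∈ X)

theorem Det.self {E ι : Type} (u : ι → Set E) (i : ι) : Det u (u i) :=
  ⟨{i}, fun x y h => h i (by simp)⟩

theorem Det.empty {E ι : Type} (u : ι → Set E) : Det u ∅ :=
  ⟨∅, fun x y h => Iff.rfl⟩

theorem Det.compl {E ι : Type} {u : ι → Set E} {X : Set E} (h : Det u X) : Det u Xᶜ := by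
  obtain ⟨F, hF⟩ := h
  exact ⟨F, fun x y hxy => not_congr (hF x y hxy)⟩

theorem Det.union {E ι : Type} {u : ι → Set E} {X Y : Set E} (h : Det u X) (h' : Det u Y) : Det u (X ∪ Y) := by
  classical
  obtain ⟨F, hF⟩ := h
  obtain ⟨F', hF'⟩ := h'
  exact ⟨F ∪ F', fun x y hxy => or_congr (hF x y fun i hi => hxy i (Finset.mem_union_left _ hi))
    (hF' x y fun i hi => hxy i (Finset.mem_union_right _ hi))⟩

theorem Det.inter {E ι : Type} {u : ι → Set E} {X Y : Set E} (h : Det u X) (h' : Det u Y) : Det u (X ∩ Y) := by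
  classical
  obtain ⟨F, hF⟩ := h
  obtain ⟨F', hF'⟩ := h'
  exact ⟨F ∪ F', fun x y hxy => and_congr (hF x y fun i hi => hxy i (Finset.mem_union_left _ hi))
    (hF' x y fun i hi => hxy i (Finset.mem_union_right _ hi))⟩

/-- the algebra of the sets determined by finitely many `u i`, i.e. the algebra generated by the `u i` -/
def FB {E ι : Type} (u : ι → Set E) : BooleanSubalgebra (Set E) where
  carrier := {X | Det u X}
  supClosed' := fun X hX Y hY => Det.union hX hY
  infClosed' := fun X hX Y hY => Det.inter hX hY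
  compl_mem' := fun h => Det.compl h
  bot_mem' := Det.empty u

theorem mem_FB {E ι : Type} {u : ι → Set E} {X : Set E} : X ∈ FB u ↔ Det u X := Iff.rfl

/-- sequences that are eventually constant with value `⊥` or `⊤` -/
def wpow (B : Type) [BooleanAlgebra B] : BooleanSubalgebra (ℕ → B) where
  carrier := {f | (∃ n, ∀ m ≥ n, f m = ⊥) ∨ ∃ n, ∀ m ≥ n, f m = ⊤}
  supClosed' := by
    rintro f (⟨n, hf⟩ | ⟨n, hf⟩) g (⟨k, hg⟩ | ⟨k, hg⟩)
    · exact Or.inl ⟨max n k, fun m hm => by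
        rw [Pi.sup_apply, hf m (le_trans (le_max_left _ _) hm), hg m (le_trans (le_max_right _ _) hm), sup_idem]⟩
    · exact Or.inr ⟨k, fun m hm => by rw [Pi.sup_apply, hg m hm, sup_top_eq]⟩
    · exact Or.inr ⟨n, fun m hm => by rw [Pi.sup_apply, hf m hm, top_sup_eq]⟩
    · exact Or.inr ⟨n, fun m hm => by rw [Pi.sup_apply, hf m hm, top_sup_eq]⟩
  infClosed' := by
    rintro f (⟨n, hf⟩ | ⟨n, hf⟩) g (⟨k, hg⟩ | ⟨k, hg⟩)
    · exact Or.inl ⟨n, fun m hm => by rw [Pi.inf_apply, hf m hm, bot_inf_eq]⟩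
    · exact Or.inl ⟨n, fun m hm => by rw [Pi.inf_apply, hf m hm, bot_inf_eq]⟩
    · exact Or.inl ⟨k, fun m hm => by rw [Pi.inf_apply, hg m hm, inf_bot_eq]⟩
    · exact Or.inr ⟨max n k, fun m hm => by
        rw [Pi.inf_apply, hf m (le_trans (le_max_left _ _) hm), hg m (le_trans (le_max_right _ _) hm), inf_idem]⟩
  compl_mem' := by
    rintro f (⟨n, hf⟩ | ⟨n, hf⟩)
    · exact Or.inr ⟨n, fun m hm => by rw [Pi.compl_apply, hf m hm, compl_bot]⟩
    · exact Or.inl ⟨n, fun m hm => by rw [Pi.compl_apply, hf m hm, compl_top]⟩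
  bot_mem' := Or.inl ⟨0, fun m hm => rfl⟩

/-- the Pi^0_1 class of a (primitive recursive) `f` -/
def PC (f : List Bool → Bool) : Set (ℕ → Bool) := {y | ∀ n, f (restr y n) = true}

/-- the computable non isolated points of `P` -/
def CN (P : Set (ℕ → Bool)) : Set (ℕ → Bool) :=
  {y | y ∈ P ∧ Computable y ∧ ∀ n, ∃ z ∈ P, z ≠ y ∧ restr z n = restr y n}

/-- the algebra of traces on `E` of the clopen sets of Cantor space -/
def TA (E : Set (ℕ → Bool)) : BooleanSubalgebra (Set E) := FB (fun i : ℕ => {y : E | y.1 i = true})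

/-- the algebra of a set `D` of finite sequences, generated by the cones -/
def CA (D : List ℕ → Prop) : BooleanSubalgebra (Set {d : List ℕ // D d}) :=
  FB (fun t : List ℕ => {d : {d : List ℕ // D d} | t <+: d.1})

end CB
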