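import Pool.Agent.Work.MP_cb528c_lc.HierRe

set_option autoImplicit false
set_option linter.all false

/-!
# MP_cb528c_lc, module HierComp: substitution of computable functions (levels `≥ 1`)

The graph `fun x : α × β => f x.1 = x.2` of a computable function is Sigma_1 (`sg_one_of_re`; e.g. it is a `ComputablePred`).
`p (f a) ↔ ∀ b, f a = b → p b` (`Pg.all`, `Pg.imp`) and `p (f a) ↔ ∃ b, f a = b ∧ p b` (`Sg.ex`, `Sg.and`), `Sg.mono`.
-/

namespace CB

variable {α β : Type} [Primcodable α] [Primcodable β]

private theorem sg_graph {f : α → β} (hf : Computable f) : Sg 1 (fun x : α × β => f x.1 = x.2) := by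
  have h1 : PrimrecPred (fun y : ℕ × ℕ => y.1 = y.2) := Primrec.eq.comp Primrec.fst Primrec.snd
  obtain ⟨hd, hc⟩ := h1.computablePred
  have h2 : Computable (fun x : α × β => (Encodable.encode (f x.1), Encodable.encode x.2)) :=
    (Computable.encode.comp (hf.comp Computable.fst)).pair (Computable.encode.comp Computable.snd)
  have h3 : ComputablePred (fun x : α × β => Encodable.encode (f x.1) = Encodable.encode x.2) :=
    ⟨fun x => hd (Encodable.encode (f x.1), Encodable.encode x.2), hc.comp h2⟩
  exact (sg_one_of_re h3.to_re).congr fun x => Encodable.encode_inj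

theorem Pg.compC {n : ℕ} {p : β → Prop} (h : Pg (n + 1) p) {f : α → β} (hf : Computable f) :
    Pg (n + 1) (fun a => p (f a)) := by
  have h1 : Sg (n + 1) (fun x : α × β => f x.1 = x.2) := (sg_graph hf).mono (by omega)
  have h2 : Pg (n + 1) (fun x : α × β => f x.1 = x.2 → p x.2) :=
    Pg.imp h1 (h.comp Primrec.snd)
  refine (Pg.all (p := fun (a : α) (b : β) => f a = b → p b) h2).congr fun a => ?_
  constructor
  · intro H
    exact H _ rfl
  · rintro H b rfl
    exact H

theorem Sg.compC {n : ℕ} {p : β → Prop} (h : Sg (n + 1) p) {f : α → β} (hf : Computable f) :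
    Sg (n + 1) (fun a => p (f a)) := by
  have h1 : Sg (n + 1) (fun x : α × β => f x.1 = x.2) := (sg_graph hf).mono (by omega)
  have h2 : Sg (n + 1) (fun x : α × β => f x.1 = x.2 ∧ p x.2) :=
    Sg.and h1 (h.comp Primrec.snd)
  refine (Sg.ex (p := fun (a : α) (b : β) => f a = b ∧ p b) h2).congr fun a => ?_
  constructor
  · rintro ⟨b, rfl, H⟩
    exact H
  · intro H
    exact ⟨_, rfl, H⟩

/-- computable predicates belong to all levels `≥ 1` -/
theorem Pg.of_computable {n : ℕ} {p : α → Prop} (h : ComputablePred p) : Pg (n + 1) p := by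
  have h1 : Sg 1 (fun a => ¬ p a) := sg_one_of_re h.not.to_re
  exact ((h1.not).congr fun a => not_not).mono (by omega)

theorem Sg.of_computable {n : ℕ} {p : α → Prop} (h : ComputablePred p) : Sg (n + 1) p :=
  (sg_one_of_re h.to_re).mono (by omega)

end CB
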