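import Pool.Agent.Work.MP_cb528c_lc.BaApi
import Pool.Agent.Work.MP_cb528c_lc.HierComp

set_option autoImplicit false
set_option linter.all false

/-!
# MP_cb528c_lc, module BaTree: the tree of a Pi_4 algebra

For `τ : List Bool` let `a τ` be the meet over `i < τ.length` of `ν i` (if `τ[i] = true`) or `(ν i)ᶜ`; there is a computable `idx` with
`ν (idx τ) = a τ` (recursion over the length with the computable operations; `⊤ = ν i1`).  `N τ := a τ ≠ ⊥`, a
Sigma_4 predicate (`arN_pi_iff` for the equality, `Pg.not`; composition with a computable function: `Pg.compC` of module HierComp).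
* prefix closed: `a (τ ++ [b]) ≤ a τ`.  No dead ends: `a τ = a (τ ++ [true]) ⊔ a (τ ++ [false])`.
* for `E`, `x` as in the statement: `h b := {e | ∃ n, a (restr (x e) n) ≤ b}`; `h (ν i) = {e | x e i = true}` (`a (restr (x e) (i+1))` is
  below `ν i` or below its complement, and never `⊥`), `h` satisfies the hypotheses of `fb_of_hom` with `g = ν`: for `h0`: if
  `ν i ≠ ⊥` there is `τ` of length `i + 1` with `⊥ ≠ a τ ≤ ν i` (`ν i` is the join of the `a τ` with `τ` of length `i + 1` and `τ[i] = true`;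
  e.g. choose successively the bits), take `e` with `restr (x e) (i+1) = τ`.
-/

namespace CB

private def lt62 {B : Type} [BooleanAlgebra B] (ν : ℕ → B) (i : ℕ) (b : Bool) : B := bif b then ν i else (ν i)ᶜ

private def mt62 {B : Type} [BooleanAlgebra B] (ν : ℕ → B) (y : ℕ → Bool) : ℕ → B
  | 0 => ⊤
  | n + 1 => mt62 ν y n ⊓ lt62 ν n (y n)

private theorem mt62_congr {B : Type} [BooleanAlgebra B] (ν : ℕ → B) {y z : ℕ → Bool} {n : ℕ}
    (h : ∀ i < n, y i = z i) : mt62 ν y n = mt62 ν z n := by
  induction n with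
  | zero => rfl
  | succ n ih =>
    show mt62 ν y n ⊓ lt62 ν n (y n) = mt62 ν z n ⊓ lt62 ν n (z n)
    rw [ih fun i hi => h i (by omega), h n (by omega)]

private theorem mt62_anti {B : Type} [BooleanAlgebra B] (ν : ℕ → B) (y : ℕ → Bool) : Antitone (mt62 ν y) :=
  antitone_nat_of_succ_le fun n => inf_le_left

private def at62 {B : Type} [BooleanAlgebra B] (ν : ℕ → B) (τ : List Bool) : B :=
  mt62 ν (fun i => τ.getD i false) τ.length

private theorem at62_restr {B : Type} [BooleanAlgebra B] (ν : ℕ → B) (y : ℕ → Bool) (n : ℕ) :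
    at62 ν (restr y n) = mt62 ν y n := by
  unfold at62
  rw [restr_length]
  apply mt62_congr
  intro i hi
  unfold restr
  rw [List.getD_eq_getElem?_getD, List.getElem?_map, List.getElem?_range hi]
  rfl

private theorem at62_append {B : Type} [BooleanAlgebra B] (ν : ℕ → B) (τ : List Bool) (b : Bool) :
    at62 ν (τ ++ [b]) = at62 ν τ ⊓ lt62 ν τ.length b := by
  unfold at62
  rw [List.length_append, List.length_singleton]
  show mt62 ν (fun i => (τ ++ [b]).getD i false) τ.length ⊓
    lt62 ν τ.length ((τ ++ [b]).getD τ.length false) = _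
  have h1 : (τ ++ [b]).getD τ.length false = b := by
    rw [List.getD_eq_getElem?_getD, List.getElem?_append_right (le_refl _)]
    simp
  rw [h1]
  congr 1
  apply mt62_congr
  intro i hi
  show (τ ++ [b]).getD i false = τ.getD i false
  rw [List.getD_eq_getElem?_getD, List.getElem?_append_left hi, ← List.getD_eq_getElem?_getD]

private theorem split62 {B : Type} [BooleanAlgebra B] (ν : ℕ → B) (c : B) (hc : c ≠ ⊥) (i : ℕ) :
    ∃ b, c ⊓ lt62 ν i b ≠ ⊥ := by
  by_contra hcon
  push Not at hcon
  have h1 : c ⊓ ν i = ⊥ := hcon true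
  have h2 : c ⊓ (ν i)ᶜ = ⊥ := hcon false
  apply hc
  calc c = c ⊓ (ν i ⊔ (ν i)ᶜ) := by rw [sup_compl_eq_top, inf_top_eq]
    _ = (c ⊓ ν i) ⊔ (c ⊓ (ν i)ᶜ) := inf_sup_left _ _ _
    _ = ⊥ := by rw [h1, h2, sup_bot_eq]

private theorem ext62 {B : Type} [BooleanAlgebra B] (ν : ℕ → B) (c : B) (hc : c ≠ ⊥) (n : ℕ) :
    ∃ τ : List Bool, τ.length = n ∧ at62 ν τ ⊓ c ≠ ⊥ := by
  induction n with
  | zero =>
    refine ⟨[], rfl, ?_⟩
    show ⊤ ⊓ c ≠ ⊥
    rw [top_inf_eq]
    exact hc
  | succ n ih =>
    obtain ⟨τ, h1, h2⟩ := ih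
    obtain ⟨b, hb⟩ := split62 ν _ h2 n
    refine ⟨τ ++ [b], by rw [List.length_append, h1]; rfl, ?_⟩
    rw [at62_append, h1, inf_right_comm]
    exact hb

theorem ba_tree {B : Type} [BooleanAlgebra B] {ν : ℕ → B} (h : IsPiAlg 4 ν) :
    ∃ N : List Bool → Prop, Sg 4 N ∧ (∀ τ b, N (τ ++ [b]) → N τ) ∧ (∀ τ, N τ → ∃ b, N (τ ++ [b])) ∧
      ∀ (E : Type) (x : E → ℕ → Bool), (∀ e n, N (restr (x e) n)) →
        (∀ τ, N τ → ∃ e, restr (x e) τ.length = τ) →
        Nonempty (B ≃o FB (fun i : ℕ => {e : E | x e i = true})) := by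
  obtain ⟨hsurj, _, ⟨fm, hfm, hfm'⟩, ⟨fc, hfc, hfc'⟩, hpi⟩ := h
  obtain ⟨i0, hi0⟩ := hsurj ⊥
  obtain ⟨i1, hi1⟩ := hsurj ⊤
  refine ⟨fun τ => at62 ν τ ≠ ⊥, ?_, ?_, ?_, ?_⟩
  · -- computable index
    have hgd : Computable₂ (fun (τ : List Bool) (i : ℕ) => τ.getD i false) := by
      have h1 : Primrec₂ (fun (τ : List Bool) (i : ℕ) => τ.getD i false) := Primrec.list_getD false
      exact h1.to_comp
    have hstep : Computable₂ (fun (τ : List Bool) (p : ℕ × ℕ) =>
        fm p.2 (bif τ.getD p.1 false then p.1 else fc p.1)) := by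
      have h1 : Computable (fun q : List Bool × (ℕ × ℕ) => q.1.getD q.2.1 false) :=
        hgd.comp Computable.fst (Computable.fst.comp Computable.snd)
      have h2 : Computable (fun q : List Bool × (ℕ × ℕ) =>
          bif q.1.getD q.2.1 false then q.2.1 else fc q.2.1) :=
        Computable.cond h1 (Computable.fst.comp Computable.snd)
          (hfc.comp (Computable.fst.comp Computable.snd))
      exact hfm.comp (Computable.snd.comp Computable.snd) h2
    have hidx : Computable (fun τ : List Bool => (Nat.rec i1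
        (fun y IH => fm IH (bif τ.getD y false then y else fc y)) τ.length : ℕ)) :=
      Computable.nat_rec Computable.list_length (Computable.const i1) hstep
    have hν : ∀ (τ : List Bool) (n : ℕ), ν (Nat.rec i1
        (fun y IH => fm IH (bif τ.getD y false then y else fc y)) n : ℕ) =
        mt62 ν (fun i => τ.getD i false) n := by
      intro τ n
      induction n with
      | zero => exact hi1
      | succ n ih =>
        show ν (fm _ _) = mt62 ν (fun i => τ.getD i false) n ⊓ lt62 ν n (τ.getD n false)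
        rw [hfm', ih]
        congr 1
        unfold lt62
        cases τ.getD n false
        · exact hfc' n
        · rfl
    have h1 : Pg 4 (fun x : ℕ => ν x.unpair.1 = ν x.unpair.2) := arN_pi_iff.1 hpi
    have h2 : Computable (fun τ : List Bool => Nat.pair (Nat.rec i1
        (fun y IH => fm IH (bif τ.getD y false then y else fc y)) τ.length : ℕ) i0) :=
      Primrec₂.natPair.to_comp.comp hidx (Computable.const i0)
    have h3 := (Pg.compC h1 h2).not
    refine h3.congr fun τ => ?_
    rw [Nat.unpair_pair]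
    show ¬ ν _ = ν i0 ↔ at62 ν τ ≠ ⊥
    rw [hi0, hν τ τ.length]
    rfl
  · intro τ b hN hτ
    apply hN
    rw [at62_append, hτ, bot_inf_eq]
  · intro τ hN
    obtain ⟨b, hb⟩ := split62 ν _ hN τ.length
    refine ⟨b, ?_⟩
    show at62 ν (τ ++ [b]) ≠ ⊥
    rw [at62_append]
    exact hb
  · intro E x hx hE
    have hne : ∀ e n, mt62 ν (x e) n ≠ ⊥ := fun e n => by
      rw [← at62_restr]
      exact hx e n
    let hh : B → Set E := fun b => {e | ∃ n, mt62 ν (x e) n ≤ b}
    have hlit : ∀ e i, mt62 ν (x e) (i + 1) ≤ lt62 ν i (x e i) := fun e i => inf_le_right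
    have hcomp : ∀ b, hh bᶜ = (hh b)ᶜ := by
      intro b
      ext e
      constructor
      · rintro ⟨n, hn⟩ ⟨m, hm⟩
        apply hne e (max n m)
        apply le_bot_iff.1
        calc mt62 ν (x e) (max n m) ≤ b ⊓ bᶜ :=
              le_inf (le_trans (mt62_anti ν (x e) (le_max_right _ _)) hm)
                (le_trans (mt62_anti ν (x e) (le_max_left _ _)) hn)
          _ = ⊥ := inf_compl_eq_bot
      · intro hn
        obtain ⟨i, rfl⟩ := hsurj b
        have h1 := hlit e i
        cases hxi : x e i with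
        | true =>
          rw [hxi] at h1
          exact absurd ⟨i + 1, h1⟩ hn
        | false =>
          rw [hxi] at h1
          exact ⟨i + 1, h1⟩
    have hinf : ∀ a b, hh (a ⊓ b) = hh a ∩ hh b := by
      intro a b
      ext e
      constructor
      · rintro ⟨n, hn⟩
        exact ⟨⟨n, le_trans hn inf_le_left⟩, ⟨n, le_trans hn inf_le_right⟩⟩
      · rintro ⟨⟨n, hn⟩, ⟨m, hm⟩⟩
        exact ⟨max n m, le_inf (le_trans (mt62_anti ν (x e) (le_max_left _ _)) hn)
          (le_trans (mt62_anti ν (x e) (le_max_right _ _)) hm)⟩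
    have h0 : ∀ a, hh a = ∅ → a = ⊥ := by
      intro a ha
      by_contra hcon
      obtain ⟨i, rfl⟩ := hsurj a
      obtain ⟨τ, h1, h2⟩ := ext62 ν _ hcon (i + 1)
      have h3 : at62 ν τ ≠ ⊥ := fun h4 => h2 (by rw [h4, bot_inf_eq])
      obtain ⟨e, he⟩ := hE τ h3
      have h4 : at62 ν τ = mt62 ν (x e) (i + 1) := by
        rw [← at62_restr, ← h1, he]
      have h5 := hlit e i
      have h6 : e ∈ hh (ν i) := by
        cases hxi : x e i with
        | true =>
          rw [hxi] at h5
          exact ⟨i + 1, h5⟩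
        | false =>
          exfalso
          rw [hxi] at h5
          apply h2
          apply le_bot_iff.1
          calc at62 ν τ ⊓ ν i ≤ (ν i)ᶜ ⊓ ν i := inf_le_inf_right _ (by rw [h4]; exact h5)
            _ = ⊥ := compl_inf_eq_bot
      rw [ha] at h6
      exact h6
    have hg : ∀ b, Det (fun i => hh (ν i)) (hh b) := by
      intro b
      obtain ⟨i, rfl⟩ := hsurj b
      exact Det.self (fun i => hh (ν i)) i
    have hset : (fun i => hh (ν i)) = (fun i : ℕ => {e : E | x e i = true}) := by
      funext i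
      ext e
      show e ∈ hh (ν i) ↔ x e i = true
      have h5 := hlit e i
      cases hxi : x e i with
      | true =>
        rw [hxi] at h5
        exact ⟨fun _ => rfl, fun _ => ⟨i + 1, h5⟩⟩
      | false =>
        rw [hxi] at h5
        have h6 : e ∈ hh (ν i)ᶜ := ⟨i + 1, h5⟩
        rw [hcomp] at h6
        exact ⟨fun h7 => absurd h7 h6, fun h7 => by cases h7⟩
    have hfin := fb_of_hom hh hinf hcomp h0 ν hg
    rw [hset] at hfin
    exact hfin

end CB
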