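import Pool.Agent.Work.MP_cb528c_lc.FinDefs

set_option autoImplicit false
set_option linter.all false

/-!
# MP_cb528c_lc, module CodeFml: codes of terms and formulas are injective and decidable

* `Tm.code_inj`, `Fml.code_inj`: induction; `Nat.pair_eq_pair`, `Encodable.encode_injective`, `List.ofFn_injective`.
* `exists_tmVars`: strong recursion on `n` (`Primrec.nat_strong_rec`): for `n = Nat.pair 0 i`: `some [i]`; for `n = Nat.pair (f + 1) m` with
  `f < σ.fn.length`: let `l := Denumerable.ofNat (List ℕ) m` (its entries are `< n`); if `l.length = σ.fn[f]` and all the previous values at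
  the entries of `l` are `some`, the concatenation of these lists, otherwise `none`.  (`σ.fn` is a fixed list: arity lookup is
  primitive recursive.)
* `exists_fmlVars`: similar with the five cases of `Fml.code`; for `ex` remove `i` from the list.
* `computable_sen`: `v n = some []`.
-/

namespace CB

variable {σ : Sig}

/-! ### course of values recursion -/

private def cov {S : Type} (L : ℕ → List ℕ) (hL : ∀ n, ∀ k ∈ L n, k < n) (G : ℕ → List S → S) : ℕ → S
  | n => G n ((L n).attach.map fun x => cov L hL G x.1)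
termination_by n => n
decreasing_by exact hL _ _ x.2

private theorem cov_eq {S : Type} (L : ℕ → List ℕ) (hL : ∀ n, ∀ k ∈ L n, k < n) (G : ℕ → List S → S) (n : ℕ) :
    cov L hL G n = G n ((L n).map (cov L hL G)) := by
  rw [cov]
  congr 1
  exact List.attach_map_val

private theorem prim_cov {S : Type} [Primcodable S] {L : ℕ → List ℕ} {G : ℕ → List S → S} (hL : Primrec L)
    (hG : Primrec₂ G) (hlt : ∀ n, ∀ k ∈ L n, k < n) :
    ∃ f : ℕ → S, Primrec f ∧ ∀ n, f n = G n ((L n).map f) := by
  refine ⟨cov L hlt G, ?_, cov_eq L hlt G⟩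
  refine Primrec.nat_omega_rec' (cov L hlt G) (m := id) (l := L) (g := fun n v => some (G n v))
    Primrec.id hL (Primrec.option_some.comp₂ hG) hlt (fun n => ?_)
  exact congrArg some (cov_eq L hlt G n).symm

/-! ### sequences of options -/

private def seq (l : List (Option (List ℕ))) : Option (List ℕ) :=
  l.foldr (fun o acc => o.bind fun x => acc.map fun y => x ++ y) (some [])

private theorem prim_seq : Primrec seq := by
  have h : Primrec₂ (fun (_ : List (Option (List ℕ))) (p : Option (List ℕ) × Option (List ℕ)) =>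
      p.1.bind fun x => p.2.map fun y => x ++ y) := by
    refine Primrec.option_bind (Primrec.fst.comp Primrec.snd) ?_
    exact (Primrec.option_map (Primrec.snd.comp (Primrec.snd.comp Primrec.fst))
      (Primrec.list_append.comp (Primrec.snd.comp Primrec.fst) Primrec.snd).to₂).to₂
  exact Primrec.list_foldr Primrec.id (Primrec.const (some [])) h

private theorem seq_cons (o : Option (List ℕ)) (l : List (Option (List ℕ))) :
    seq (o :: l) = o.bind fun x => (seq l).map fun y => x ++ y := rfl

private theorem seq_some (l : List (Option (List ℕ))) (h : ∀ o ∈ l, ∃ x, o = some x) :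
    ∃ y, seq l = some y ∧ ∀ i, i ∈ y ↔ ∃ x, some x ∈ l ∧ i ∈ x := by
  induction l with
  | nil => exact ⟨[], rfl, fun i => by simp⟩
  | cons o l ih =>
    obtain ⟨x, rfl⟩ := h o List.mem_cons_self
    obtain ⟨y, hy, hy'⟩ := ih fun o' ho' => h o' (List.mem_cons_of_mem _ ho')
    refine ⟨x ++ y, by rw [seq_cons, hy]; rfl, fun i => ?_⟩
    rw [List.mem_append, hy']
    constructor
    · rintro (h1 | ⟨x', h1, h2⟩)
      · exact ⟨x, List.mem_cons_self, h1⟩
      · exact ⟨x', List.mem_cons_of_mem _ h1, h2⟩
    · rintro ⟨x', h1, h2⟩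
      rcases List.mem_cons.1 h1 with h3 | h3
      · rw [Option.some.inj h3] at h2
        exact Or.inl h2
      · exact Or.inr ⟨x', h3, h2⟩

private theorem seq_inv (l : List (Option (List ℕ))) {y : List ℕ} (h : seq l = some y) :
    ∀ o ∈ l, ∃ x, o = some x := by
  induction l generalizing y with
  | nil => intro o ho; exact absurd ho (by simp)
  | cons o l ih =>
    rw [seq_cons, Option.bind_eq_some_iff] at h
    obtain ⟨x, rfl, h⟩ := h
    rw [Option.map_eq_some_iff] at h
    obtain ⟨z, hz, -⟩ := h
    intro o' ho'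
    rcases List.mem_cons.1 ho' with rfl | h3
    · exact ⟨x, rfl⟩
    · exact ih hz o' h3

/-! ### codes -/

private theorem lt_pair {a b : ℕ} (h : 0 < a) : b < Nat.pair a b :=
  (Nat.right_le_pair 0 b).trans_lt (Nat.pair_lt_pair_left b h)

private theorem mem_lt_encode {l : List ℕ} {x : ℕ} (h : x ∈ l) : x < Encodable.encode l := by
  induction l with
  | nil => exact absurd h (by simp)
  | cons a l ih =>
    rw [Encodable.encode_list_cons]
    rcases List.mem_cons.1 h with rfl | h
    · exact Nat.lt_succ_of_le (Nat.left_le_pair _ _)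
    · exact Nat.lt_succ_of_le ((ih h).le.trans (Nat.right_le_pair _ _))

private theorem mem_ofNat_lt {m x : ℕ} (h : x ∈ Denumerable.ofNat (List ℕ) m) : x < m := by
  have h1 := mem_lt_encode h
  rwa [Denumerable.encode_ofNat] at h1

private theorem unpair_lt {n x : ℕ} (h0 : n.unpair.1 ≠ 0) (h : x ≤ n.unpair.2) : x < n := by
  have h1 := lt_pair (b := n.unpair.2) (Nat.pos_of_ne_zero h0)
  rw [Nat.pair_unpair] at h1
  exact h.trans_lt h1

theorem Tm.code_inj : Function.Injective (Tm.code (σ := σ)) := by
  intro t
  induction t with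
  | var i =>
    intro u h
    cases u with
    | var j =>
      rw [Tm.code, Tm.code, Nat.pair_eq_pair] at h
      rw [h.2]
    | app f a =>
      rw [Tm.code, Tm.code, Nat.pair_eq_pair] at h
      exact absurd h.1 (by omega)
  | app f a ih =>
    intro u h
    cases u with
    | var j =>
      rw [Tm.code, Tm.code, Nat.pair_eq_pair] at h
      exact absurd h.1 (by omega)
    | app f' a' =>
      rw [Tm.code, Tm.code, Nat.pair_eq_pair] at h
      obtain rfl : f = f' := Fin.ext (by omega)
      have h1 := List.ofFn_injective (Encodable.encode_injective h.2)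
      congr 1
      funext j
      exact ih j (congrFun h1 j)

theorem Fml.code_inj : Function.Injective (Fml.code (σ := σ)) := by
  intro φ
  induction φ with
  | eq s t =>
    intro ψ h
    cases ψ with
    | eq s' t' =>
      simp only [Fml.code, Nat.pair_eq_pair, true_and] at h
      rw [Tm.code_inj h.1, Tm.code_inj h.2]
    | rel r a => simp only [Fml.code, Nat.pair_eq_pair] at h; exact absurd h.1 (by omega)
    | neg φ => simp only [Fml.code, Nat.pair_eq_pair] at h; exact absurd h.1 (by omega)
    | and φ ψ => simp only [Fml.code, Nat.pair_eq_pair] at h; exact absurd h.1 (by omega)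
    | ex i φ => simp only [Fml.code, Nat.pair_eq_pair] at h; exact absurd h.1 (by omega)
  | rel r a =>
    intro ψ h
    cases ψ with
    | eq s' t' => simp only [Fml.code, Nat.pair_eq_pair] at h; exact absurd h.1 (by omega)
    | rel r' a' =>
      simp only [Fml.code, Nat.pair_eq_pair, true_and] at h
      obtain rfl : r = r' := Fin.ext h.1
      have h1 := List.ofFn_injective (Encodable.encode_injective h.2)
      congr 1
      funext j
      exact Tm.code_inj (congrFun h1 j)
    | neg φ => simp only [Fml.code, Nat.pair_eq_pair] at h; exact absurd h.1 (by omega)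
    | and φ ψ => simp only [Fml.code, Nat.pair_eq_pair] at h; exact absurd h.1 (by omega)
    | ex i φ => simp only [Fml.code, Nat.pair_eq_pair] at h; exact absurd h.1 (by omega)
  | neg φ ih =>
    intro ψ h
    cases ψ with
    | eq s' t' => simp only [Fml.code, Nat.pair_eq_pair] at h; exact absurd h.1 (by omega)
    | rel r' a' => simp only [Fml.code, Nat.pair_eq_pair] at h; exact absurd h.1 (by omega)
    | neg φ' =>
      simp only [Fml.code, Nat.pair_eq_pair, true_and] at h
      rw [ih h]
    | and φ ψ => simp only [Fml.code, Nat.pair_eq_pair] at h; exact absurd h.1 (by omega)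
    | ex i φ => simp only [Fml.code, Nat.pair_eq_pair] at h; exact absurd h.1 (by omega)
  | and φ1 φ2 ih1 ih2 =>
    intro ψ h
    cases ψ with
    | eq s' t' => simp only [Fml.code, Nat.pair_eq_pair] at h; exact absurd h.1 (by omega)
    | rel r' a' => simp only [Fml.code, Nat.pair_eq_pair] at h; exact absurd h.1 (by omega)
    | neg φ' => simp only [Fml.code, Nat.pair_eq_pair] at h; exact absurd h.1 (by omega)
    | and φ ψ =>
      simp only [Fml.code, Nat.pair_eq_pair, true_and] at h
      rw [ih1 h.1, ih2 h.2]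
    | ex i φ => simp only [Fml.code, Nat.pair_eq_pair] at h; exact absurd h.1 (by omega)
  | ex i φ ih =>
    intro ψ h
    cases ψ with
    | eq s' t' => simp only [Fml.code, Nat.pair_eq_pair] at h; exact absurd h.1 (by omega)
    | rel r' a' => simp only [Fml.code, Nat.pair_eq_pair] at h; exact absurd h.1 (by omega)
    | neg φ' => simp only [Fml.code, Nat.pair_eq_pair] at h; exact absurd h.1 (by omega)
    | and φ ψ => simp only [Fml.code, Nat.pair_eq_pair] at h; exact absurd h.1 (by omega)
    | ex i' φ' =>
      simp only [Fml.code, Nat.pair_eq_pair, true_and] at h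
      rw [ih h.2, h.1]

private theorem prim_u1 : Primrec fun n : ℕ => n.unpair.1 := Primrec.fst.comp Primrec.unpair
private theorem prim_u2 : Primrec fun n : ℕ => n.unpair.2 := Primrec.snd.comp Primrec.unpair

private theorem prim_tag {α : Type} [Primcodable α] {f : α → ℕ} (hf : Primrec f) (k : ℕ) :
    PrimrecPred fun a => (f a).unpair.1 = k :=
  Primrec.eq.comp (prim_u1.comp hf) (Primrec.const k)

/-- a list of terms with given codes -/
private theorem tm_list {l : List ℕ} {k : ℕ} (hl : k = l.length) (h : ∀ x ∈ l, ∃ t : Tm σ, t.code = x) :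
    ∃ a : Fin k → Tm σ, List.ofFn (fun j => (a j).code) = l := by
  subst hl
  choose a ha using fun j : Fin l.length => h (l.get j) (List.get_mem l j)
  refine ⟨a, ?_⟩
  rw [show (fun j => (a j).code) = l.get from funext ha]
  exact List.ofFn_get l

theorem exists_tmVars (σ : Sig) : ∃ v : ℕ → Option (List ℕ), Primrec v ∧
    (∀ t : Tm σ, ∃ l, v t.code = some l ∧ ∀ i, i ∈ l ↔ i ∈ t.vars) ∧
    ∀ n l, v n = some l → ∃ t : Tm σ, t.code = n := by
  obtain ⟨v, hv, hv'⟩ := prim_cov (S := Option (List ℕ))
    (L := fun n => if n.unpair.1 = 0 then [] else Denumerable.ofNat (List ℕ) n.unpair.2)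
    (G := fun n vals => if n.unpair.1 = 0 then some [n.unpair.2] else
      if σ.fn[n.unpair.1 - 1]? = some vals.length then seq vals else none)
    (Primrec.ite (prim_tag Primrec.id 0) (Primrec.const _) ((Primrec.ofNat _).comp prim_u2))
    (Primrec.ite (prim_tag Primrec.fst 0)
      (Primrec.option_some.comp (Primrec.list_cons.comp (prim_u2.comp Primrec.fst) (Primrec.const [])))
      (Primrec.ite (Primrec.eq.comp (Primrec.list_getElem?.comp (Primrec.const σ.fn)
          (Primrec.nat_sub.comp (prim_u1.comp Primrec.fst) (Primrec.const 1)))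
          (Primrec.option_some.comp (Primrec.list_length.comp Primrec.snd)))
        (prim_seq.comp Primrec.snd) (Primrec.const none)))
    (by
      intro n k hk
      by_cases h0 : n.unpair.1 = 0
      · rw [if_pos h0] at hk
        exact absurd hk (by simp)
      · rw [if_neg h0] at hk
        exact unpair_lt h0 (mem_ofNat_lt hk).le)
  refine ⟨v, hv, fun t => ?_, fun n => ?_⟩
  · induction t with
    | var i =>
      refine ⟨[i], ?_, fun j => by simp [Tm.vars]⟩
      rw [hv', Tm.code, Nat.unpair_pair]
      simp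
    | app f a ih =>
      have e1 : (Nat.pair ((f : ℕ) + 1) (Encodable.encode (List.ofFn fun j => (a j).code))).unpair =
        ((f : ℕ) + 1, Encodable.encode (List.ofFn fun j => (a j).code)) := Nat.unpair_pair _ _
      have hne : ¬ ((f : ℕ) + 1 = 0) := by omega
      obtain ⟨y, hy, hy'⟩ := seq_some ((List.ofFn fun j => (a j).code).map v) (by
        intro o ho
        rw [List.mem_map] at ho
        obtain ⟨x, hx, rfl⟩ := ho
        rw [List.mem_ofFn] at hx
        obtain ⟨j, rfl⟩ := hx
        obtain ⟨l, hl, -⟩ := ih j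
        exact ⟨l, hl⟩)
      refine ⟨y, ?_, fun i => ?_⟩
      · rw [hv', Tm.code]
        simp only [e1, if_neg hne, Denumerable.ofNat_encode, List.length_map, List.length_ofFn,
          Nat.add_sub_cancel]
        rw [if_pos (show σ.fn[(f : ℕ)]? = some (σ.fn.get f) from List.getElem?_eq_getElem f.2)]
        exact hy
      · rw [hy']
        constructor
        · rintro ⟨x, hx, hi⟩
          rw [List.mem_map] at hx
          obtain ⟨z, hz, hz'⟩ := hx
          rw [List.mem_ofFn] at hz
          obtain ⟨j, rfl⟩ := hz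
          obtain ⟨l, hl, hl'⟩ := ih j
          rw [hl] at hz'
          rw [← Option.some.inj hz'] at hi
          exact ⟨j, (hl' i).1 hi⟩
        · rintro ⟨j, hj⟩
          obtain ⟨l, hl, hl'⟩ := ih j
          exact ⟨l, List.mem_map.2 ⟨(a j).code, List.mem_ofFn.2 ⟨j, rfl⟩, hl⟩, (hl' i).2 hj⟩
  · induction n using Nat.strong_induction_on with
    | _ n ih =>
      intro l hl
      rw [hv'] at hl
      by_cases h0 : n.unpair.1 = 0
      · refine ⟨Tm.var n.unpair.2, ?_⟩
        rw [Tm.code, ← h0, Nat.pair_unpair]
      · simp only [if_neg h0, List.length_map] at hl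
        split_ifs at hl with h1
        have h2 := seq_inv _ hl
        obtain ⟨hf, hlen⟩ := List.getElem?_eq_some_iff.1 h1
        obtain ⟨a, ha⟩ := tm_list (σ := σ) (k := σ.fn.get ⟨n.unpair.1 - 1, hf⟩)
          (l := Denumerable.ofNat (List ℕ) n.unpair.2) hlen (by
            intro x hx
            obtain ⟨y, hy⟩ := h2 (v x) (List.mem_map.2 ⟨x, hx, rfl⟩)
            exact ih x (unpair_lt h0 (mem_ofNat_lt hx).le) y hy)
        refine ⟨Tm.app ⟨n.unpair.1 - 1, hf⟩ a, ?_⟩
        rw [Tm.code, ha, Denumerable.encode_ofNat]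
        have h3 : ((⟨n.unpair.1 - 1, hf⟩ : Fin σ.fn.length) : ℕ) + 1 = n.unpair.1 := by
          change n.unpair.1 - 1 + 1 = n.unpair.1
          omega
        rw [h3, Nat.pair_unpair]

private def rm (i : ℕ) (l : List ℕ) : List ℕ := l.filterMap fun b => if b = i then none else some b

private theorem mem_rm {i j : ℕ} {l : List ℕ} : j ∈ rm i l ↔ j ∈ l ∧ j ≠ i := by
  unfold rm
  rw [List.mem_filterMap]
  constructor
  · rintro ⟨b, hb, h⟩
    split_ifs at h with h1
    rw [← Option.some.inj h]
    exact ⟨hb, h1⟩
  · rintro ⟨h1, h2⟩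
    exact ⟨j, h1, if_neg h2⟩

private theorem prim_rm : Primrec₂ rm :=
  Primrec.listFilterMap Primrec.snd (Primrec.ite
    (Primrec.eq.comp Primrec.snd (Primrec.fst.comp Primrec.fst)) (Primrec.const none)
    (Primrec.option_some.comp Primrec.snd)).to₂

private theorem seq_one (o : Option (List ℕ)) : seq [o] = o := by
  cases o with
  | none => rfl
  | some x => rw [seq_cons]; simp [seq]

theorem exists_fmlVars (σ : Sig) : ∃ v : ℕ → Option (List ℕ), Primrec v ∧
    (∀ φ : Fml σ, ∃ l, v φ.code = some l ∧ ∀ i, i ∈ l ↔ i ∈ φ.fv) ∧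
    ∀ n l, v n = some l → ∃ φ : Fml σ, φ.code = n := by
  obtain ⟨w, hw, hw1, hw2⟩ := exists_tmVars σ
  have p2 : Primrec fun x : ℕ × List (Option (List ℕ)) => x.1.unpair.2 := prim_u2.comp Primrec.fst
  have p21 : Primrec fun x : ℕ × List (Option (List ℕ)) => x.1.unpair.2.unpair.1 := prim_u1.comp p2
  have p22 : Primrec fun x : ℕ × List (Option (List ℕ)) => x.1.unpair.2.unpair.2 := prim_u2.comp p2
  obtain ⟨v, hv, hv'⟩ := prim_cov (S := Option (List ℕ))
    (L := fun n => if n.unpair.1 = 2 then [n.unpair.2] else
      if n.unpair.1 = 3 then [n.unpair.2.unpair.1, n.unpair.2.unpair.2] else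
      if n.unpair.1 = 4 then [n.unpair.2.unpair.2] else [])
    (G := fun n vals => if n.unpair.1 = 0 then seq [w n.unpair.2.unpair.1, w n.unpair.2.unpair.2] else
      if n.unpair.1 = 1 then
        (if σ.rel[n.unpair.2.unpair.1]? = some (Denumerable.ofNat (List ℕ) n.unpair.2.unpair.2).length
          then seq ((Denumerable.ofNat (List ℕ) n.unpair.2.unpair.2).map w) else none) else
      if n.unpair.1 = 2 then seq vals else
      if n.unpair.1 = 3 then seq vals else
      if n.unpair.1 = 4 then (seq vals).map (rm n.unpair.2.unpair.1) else none)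
    (Primrec.ite (prim_tag Primrec.id 2) (Primrec.list_cons.comp prim_u2 (Primrec.const []))
      (Primrec.ite (prim_tag Primrec.id 3) (Primrec.list_cons.comp (prim_u1.comp prim_u2)
        (Primrec.list_cons.comp (prim_u2.comp prim_u2) (Primrec.const [])))
      (Primrec.ite (prim_tag Primrec.id 4) (Primrec.list_cons.comp (prim_u2.comp prim_u2)
        (Primrec.const [])) (Primrec.const []))))
    (Primrec.ite (prim_tag Primrec.fst 0) (prim_seq.comp (Primrec.list_cons.comp (hw.comp p21)
        (Primrec.list_cons.comp (hw.comp p22) (Primrec.const []))))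
      (Primrec.ite (prim_tag Primrec.fst 1)
        (Primrec.ite (Primrec.eq.comp (Primrec.list_getElem?.comp (Primrec.const σ.rel) p21)
            (Primrec.option_some.comp (Primrec.list_length.comp ((Primrec.ofNat _).comp p22))))
          (prim_seq.comp (Primrec.list_map ((Primrec.ofNat _).comp p22) (hw.comp Primrec.snd).to₂))
          (Primrec.const none))
      (Primrec.ite (prim_tag Primrec.fst 2) (prim_seq.comp Primrec.snd)
      (Primrec.ite (prim_tag Primrec.fst 3) (prim_seq.comp Primrec.snd)
      (Primrec.ite (prim_tag Primrec.fst 4)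
        (Primrec.option_map (prim_seq.comp Primrec.snd)
          (prim_rm.comp (p21.comp Primrec.fst) Primrec.snd).to₂) (Primrec.const none))))))
    (by
      intro n k hk
      split_ifs at hk with h1 h1 h1
      · rw [List.mem_singleton] at hk
        rw [hk]
        exact unpair_lt (by omega) le_rfl
      · rw [List.mem_cons, List.mem_singleton] at hk
        rcases hk with rfl | rfl
        · exact unpair_lt (by omega) (Nat.unpair_left_le _)
        · exact unpair_lt (by omega) (Nat.unpair_right_le _)
      · rw [List.mem_singleton] at hk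
        rw [hk]
        exact unpair_lt (by omega) (Nat.unpair_right_le _)
      · exact absurd hk (by simp))
  refine ⟨v, hv, fun φ => ?_, fun n => ?_⟩
  · induction φ with
    | eq s t =>
      obtain ⟨l1, h1, h1'⟩ := hw1 s
      obtain ⟨l2, h2, h2'⟩ := hw1 t
      obtain ⟨y, hy, hy'⟩ := seq_some [w s.code, w t.code] (by
        intro o ho
        rw [List.mem_cons, List.mem_singleton] at ho
        rcases ho with rfl | rfl
        · exact ⟨l1, h1⟩
        · exact ⟨l2, h2⟩)
      refine ⟨y, ?_, fun i => ?_⟩
      · rw [hv', Fml.code]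
        simp only [Nat.unpair_pair, if_true]
        exact hy
      · rw [hy', h1, h2]
        simp only [List.mem_cons, List.not_mem_nil, or_false, Option.some.injEq, Fml.fv, Set.mem_union]
        rw [← h1', ← h2']
        constructor
        · rintro ⟨x, rfl | rfl, hx⟩
          · exact Or.inl hx
          · exact Or.inr hx
        · rintro (h | h)
          · exact ⟨l1, Or.inl rfl, h⟩
          · exact ⟨l2, Or.inr rfl, h⟩
    | rel r a =>
      obtain ⟨y, hy, hy'⟩ := seq_some ((List.ofFn fun j => (a j).code).map w) (by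
        intro o ho
        rw [List.mem_map] at ho
        obtain ⟨x, hx, rfl⟩ := ho
        rw [List.mem_ofFn] at hx
        obtain ⟨j, rfl⟩ := hx
        obtain ⟨l, hl, -⟩ := hw1 (a j)
        exact ⟨l, hl⟩)
      refine ⟨y, ?_, fun i => ?_⟩
      · rw [hv', Fml.code]
        simp only [Nat.unpair_pair, if_true, if_neg one_ne_zero, Denumerable.ofNat_encode,
          List.length_ofFn]
        rw [if_pos (show σ.rel[(r : ℕ)]? = some (σ.rel.get r) from List.getElem?_eq_getElem r.2)]
        exact hy
      · rw [hy']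
        constructor
        · rintro ⟨x, hx, hi⟩
          rw [List.mem_map] at hx
          obtain ⟨z, hz, hz'⟩ := hx
          rw [List.mem_ofFn] at hz
          obtain ⟨j, rfl⟩ := hz
          obtain ⟨l, hl, hl'⟩ := hw1 (a j)
          rw [hl] at hz'
          rw [← Option.some.inj hz'] at hi
          exact ⟨j, (hl' i).1 hi⟩
        · rintro ⟨j, hj⟩
          obtain ⟨l, hl, hl'⟩ := hw1 (a j)
          exact ⟨l, List.mem_map.2 ⟨(a j).code, List.mem_ofFn.2 ⟨j, rfl⟩, hl⟩, (hl' i).2 hj⟩
    | neg φ ih =>
      obtain ⟨l, hl, hl'⟩ := ih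
      refine ⟨l, ?_, hl'⟩
      rw [hv', Fml.code]
      simp only [Nat.unpair_pair, if_true, List.map_cons, List.map_nil, seq_one]
      rw [if_neg (by omega), if_neg (by omega)]
      exact hl
    | and φ ψ ih1 ih2 =>
      obtain ⟨l1, h1, h1'⟩ := ih1
      obtain ⟨l2, h2, h2'⟩ := ih2
      refine ⟨l1 ++ l2, ?_, fun i => ?_⟩
      · rw [hv', Fml.code]
        simp only [Nat.unpair_pair, if_true]
        rw [if_neg (by omega), if_neg (by omega), if_neg (by omega), if_neg (by omega)]
        simp only [List.map_cons, List.map_nil, h1, h2]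
        rw [seq_cons, seq_one]
        rfl
      · rw [List.mem_append, h1', h2']
        rfl
    | ex i φ ih =>
      obtain ⟨l, hl, hl'⟩ := ih
      refine ⟨rm i l, ?_, fun j => ?_⟩
      · rw [hv', Fml.code]
        simp only [Nat.unpair_pair, if_true]
        rw [if_neg (by omega), if_neg (by omega), if_neg (by omega), if_neg (by omega),
          if_neg (by omega), if_neg (by omega)]
        simp only [List.map_cons, List.map_nil, hl, seq_one]
        rfl
      · rw [mem_rm, hl']
        rfl
  · induction n using Nat.strong_induction_on with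
    | _ n ih =>
      intro l hl
      rw [hv'] at hl
      have hn : Nat.pair n.unpair.1 n.unpair.2 = n := Nat.pair_unpair n
      have hm : Nat.pair n.unpair.2.unpair.1 n.unpair.2.unpair.2 = n.unpair.2 := Nat.pair_unpair _
      by_cases h0 : n.unpair.1 = 0
      · simp only [if_pos h0] at hl
        have k1 := seq_inv _ hl
        obtain ⟨x, hx⟩ := k1 _ List.mem_cons_self
        obtain ⟨y, hy⟩ := k1 _ (List.mem_cons_of_mem _ List.mem_cons_self)
        obtain ⟨s, hs⟩ := hw2 _ _ hx
        obtain ⟨t, ht⟩ := hw2 _ _ hy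
        refine ⟨Fml.eq s t, ?_⟩
        rw [Fml.code, hs, ht, hm, ← h0, hn]
      by_cases h1 : n.unpair.1 = 1
      · simp only [if_neg h0, if_pos h1] at hl
        split_ifs at hl with h1'
        have k1 := seq_inv _ hl
        obtain ⟨hf, hlen⟩ := List.getElem?_eq_some_iff.1 h1'
        obtain ⟨a, ha⟩ := tm_list (σ := σ) (k := σ.rel.get ⟨n.unpair.2.unpair.1, hf⟩)
          (l := Denumerable.ofNat (List ℕ) n.unpair.2.unpair.2) hlen (by
            intro x hx
            obtain ⟨y, hy⟩ := k1 (w x) (List.mem_map.2 ⟨x, hx, rfl⟩)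
            exact hw2 x y hy)
        refine ⟨Fml.rel ⟨n.unpair.2.unpair.1, hf⟩ a, ?_⟩
        rw [Fml.code, ha, Denumerable.encode_ofNat]
        change Nat.pair 1 (Nat.pair n.unpair.2.unpair.1 _) = n
        rw [hm, ← h1, hn]
      by_cases h2 : n.unpair.1 = 2
      · simp only [if_neg h0, if_neg h1, if_pos h2, List.map_cons, List.map_nil, seq_one] at hl
        obtain ⟨φ, hφ⟩ := ih _ (unpair_lt (by omega) le_rfl) _ hl
        refine ⟨Fml.neg φ, ?_⟩
        rw [Fml.code, hφ, ← h2, hn]
      by_cases h3 : n.unpair.1 = 3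
      · simp only [if_neg h0, if_neg h1, if_neg h2, if_pos h3, List.map_cons, List.map_nil] at hl
        have k1 := seq_inv _ hl
        obtain ⟨x, hx⟩ := k1 _ List.mem_cons_self
        obtain ⟨y, hy⟩ := k1 _ (List.mem_cons_of_mem _ List.mem_cons_self)
        obtain ⟨φ, hφ⟩ := ih _ (unpair_lt (by omega) (Nat.unpair_left_le _)) _ hx
        obtain ⟨ψ, hψ⟩ := ih _ (unpair_lt (by omega) (Nat.unpair_right_le _)) _ hy
        refine ⟨Fml.and φ ψ, ?_⟩
        rw [Fml.code, hφ, hψ, hm, ← h3, hn]
      by_cases h4 : n.unpair.1 = 4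
      · simp only [if_neg h0, if_neg h1, if_neg h2, if_neg h3, if_pos h4, List.map_cons, List.map_nil,
          seq_one] at hl
        obtain ⟨x, hx, -⟩ := Option.map_eq_some_iff.1 hl
        obtain ⟨φ, hφ⟩ := ih _ (unpair_lt (by omega) (Nat.unpair_right_le _)) _ hx
        refine ⟨Fml.ex n.unpair.2.unpair.1 φ, ?_⟩
        rw [Fml.code, hφ, hm, ← h4, hn]
      · simp only [if_neg h0, if_neg h1, if_neg h2, if_neg h3, if_neg h4] at hl
        exact absurd hl (by simp)

theorem computable_sen (σ : Sig) : ComputablePred (fun n : ℕ => ∃ φ : Sen σ, φ.1.code = n) := by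
  obtain ⟨v, hv, hv1, hv2⟩ := exists_fmlVars σ
  refine (PrimrecPred.computablePred (Primrec.eq.comp hv (Primrec.const (some [])))).of_eq
    fun n => ⟨fun h => ?_, ?_⟩
  · obtain ⟨φ, rfl⟩ := hv2 _ _ h
    obtain ⟨l, hl, hl'⟩ := hv1 φ
    rw [h] at hl
    obtain rfl := (Option.some.inj hl).symm
    refine ⟨⟨φ, Set.eq_empty_of_forall_notMem fun i hi => ?_⟩, rfl⟩
    exact absurd ((hl' i).2 hi) (by simp)
  · rintro ⟨φ, rfl⟩
    obtain ⟨l, hl, hl'⟩ := hv1 φ.1
    have hnil : l = [] := List.eq_nil_iff_forall_not_mem.2 fun i hi => by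
      have h1 := (hl' i).1 hi
      rw [φ.2] at h1
      exact h1
    rw [hl, hnil]

/-- the set of pairs `(code φ, k)` such that the free variables of `φ` are `< k` -/
theorem computable_fvlt (σ : Sig) : ComputablePred (fun x : ℕ × ℕ => ∃ φ : Fml σ, φ.code = x.1 ∧ ∀ i ∈ φ.fv, i < x.2) := by
  obtain ⟨v, hv, hv1, hv2⟩ := exists_fmlVars σ
  have hb : ∀ (l : List ℕ) (k : ℕ), l.foldr (fun a s => max (a + 1) s) 0 ≤ k ↔ ∀ i ∈ l, i < k := by
    intro l k
    induction l with
    | nil => simp
    | cons a l ih => simp [ih]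
  have hp : Primrec fun x : ℕ × ℕ => (Option.casesOn (v x.1) (x.2 + 1)
      (fun l => l.foldr (fun a s => max (a + 1) s) 0) : ℕ) := by
    refine Primrec.option_casesOn (hv.comp Primrec.fst) (Primrec.succ.comp Primrec.snd) ?_
    exact (Primrec.list_foldr Primrec.snd (Primrec.const 0)
      (Primrec.nat_max.comp (Primrec.succ.comp (Primrec.fst.comp Primrec.snd))
      (Primrec.snd.comp Primrec.snd)).to₂).to₂
  refine (PrimrecPred.computablePred (Primrec.nat_le.comp hp Primrec.snd)).of_eq fun x => ?_
  constructor
  · intro h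
    cases hvx : v x.1 with
    | none =>
      rw [hvx] at h
      exact absurd h (by simp)
    | some l =>
      rw [hvx] at h
      obtain ⟨φ, hφ⟩ := hv2 _ _ hvx
      refine ⟨φ, hφ, fun i hi => (hb l x.2).1 h i ?_⟩
      obtain ⟨l', hl, hl'⟩ := hv1 φ
      rw [hφ, hvx] at hl
      rw [Option.some.inj hl]
      exact (hl' i).2 hi
  · rintro ⟨φ, hφ, h⟩
    obtain ⟨l, hl, hl'⟩ := hv1 φ
    rw [hφ] at hl
    rw [hl]
    exact (hb l x.2).2 fun i hi => h i ((hl' i).1 hi)

theorem godel_code (φ : Sen σ) : godel σ φ.1.code = φ := by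
  have h : ∃ ψ : Sen σ, ψ.1.code = φ.1.code := ⟨φ, rfl⟩
  unfold godel
  rw [dif_pos h]
  exact Subtype.ext (Fml.code_inj (Classical.choose_spec h))

end CB
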