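import Pool.Agent.Work.MP_cb528c_lc.Syntax

set_option autoImplicit false
set_option linter.all false

/-!
# MP_cb528c_lc, module FmPrim: primitive recursion on formulas

Key lemma `Fm.primrec_rec`: a function defined by structural recursion from primitive recursive step functions is primitive
recursive.  Proof: `Primrec.nat_strong_rec` (or `Primrec.nat_strong_rec'`) for `fun a n => f a (Fm.dec n)`: the value at `n` is
computed from `n % 5`, `(n / 5).unpair` and the list of the previous values (`List.getD`/`getElem?`), by the same case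
distinction as `Fm.dec`; compare `Nat.Partrec.Code.rec_prim` in Mathlib.  `encode φ = Fm.enc φ` by `Primcodable.ofEquiv`.
-/

namespace CB

open Primrec

theorem Fm.encode_eq (φ : Fm) : Encodable.encode φ = Fm.enc φ := rfl

theorem Fm.primrec_enc : Primrec Fm.enc :=
  (Primrec.of_equiv (e := Fm.equiv)).of_eq fun _ => rfl

theorem Fm.primrec_dec : Primrec Fm.dec :=
  (Primrec.of_equiv_symm (e := Fm.equiv)).of_eq fun _ => rfl

private theorem cb_natpair {α : Type} [Primcodable α] {f g : α → ℕ} (hf : Primrec f)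
    (hg : Primrec g) : Primrec (fun x => Nat.pair (f x) (g x)) :=
  Primrec₂.natPair.comp hf hg

private theorem cb_five {α : Type} [Primcodable α] {f : α → ℕ} (hf : Primrec f) (c : ℕ) :
    Primrec (fun x => 5 * f x + c) :=
  Primrec.nat_add.comp (Primrec.nat_mul.comp (Primrec.const 5) hf) (Primrec.const c)

theorem Fm.primrec_rel : Primrec₂ Fm.rel := by
  refine Primrec.of_eq (f := fun x : ℕ × List ℕ =>
    Fm.dec (5 * Nat.pair x.1 (Encodable.encode x.2) + 0)) ?_ ?_
  · exact Fm.primrec_dec.comp (cb_five (cb_natpair Primrec.fst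
      (Primrec.encode.comp Primrec.snd)) 0)
  · rintro ⟨r, v⟩
    exact Fm.dec_enc (Fm.rel r v)

theorem Fm.primrec_eq : Primrec₂ Fm.eq := by
  refine Primrec.of_eq (f := fun x : ℕ × ℕ => Fm.dec (5 * Nat.pair x.1 x.2 + 1)) ?_ ?_
  · exact Fm.primrec_dec.comp (cb_five (cb_natpair Primrec.fst Primrec.snd) 1)
  · rintro ⟨i, j⟩
    exact Fm.dec_enc (Fm.eq i j)

theorem Fm.primrec_neg : Primrec Fm.neg := by
  refine Primrec.of_eq (f := fun x : Fm => Fm.dec (5 * Fm.enc x + 2)) ?_ ?_
  · exact Fm.primrec_dec.comp (cb_five Fm.primrec_enc 2)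
  · intro φ
    exact Fm.dec_enc (Fm.neg φ)

theorem Fm.primrec_and : Primrec₂ Fm.and := by
  refine Primrec.of_eq (f := fun x : Fm × Fm =>
    Fm.dec (5 * Nat.pair (Fm.enc x.1) (Fm.enc x.2) + 3)) ?_ ?_
  · exact Fm.primrec_dec.comp (cb_five (cb_natpair (Fm.primrec_enc.comp Primrec.fst)
      (Fm.primrec_enc.comp Primrec.snd)) 3)
  · rintro ⟨φ, ψ⟩
    exact Fm.dec_enc (Fm.and φ ψ)

theorem Fm.primrec_ex : Primrec₂ Fm.ex := by
  refine Primrec.of_eq (f := fun x : ℕ × Fm =>
    Fm.dec (5 * Nat.pair x.1 (Fm.enc x.2) + 4)) ?_ ?_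
  · exact Fm.primrec_dec.comp (cb_five (cb_natpair Primrec.fst
      (Fm.primrec_enc.comp Primrec.snd)) 4)
  · rintro ⟨i, φ⟩
    exact Fm.dec_enc (Fm.ex i φ)

theorem Fm.primrec_or : Primrec₂ Fm.or :=
  Fm.primrec_neg.comp (Fm.primrec_and.comp (Fm.primrec_neg.comp Primrec.fst)
    (Fm.primrec_neg.comp Primrec.snd))

theorem Fm.primrec_imp : Primrec₂ Fm.imp :=
  Fm.primrec_neg.comp (Fm.primrec_and.comp Primrec.fst (Fm.primrec_neg.comp Primrec.snd))

theorem Fm.primrec_iff : Primrec₂ Fm.iff :=
  Fm.primrec_and.comp (Fm.primrec_imp.comp Primrec.fst Primrec.snd)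
    (Fm.primrec_imp.comp Primrec.snd Primrec.fst)

theorem Fm.primrec_all : Primrec₂ Fm.all :=
  Fm.primrec_neg.comp (Fm.primrec_ex.comp Primrec.fst (Fm.primrec_neg.comp Primrec.snd))

theorem Fm.primrec_rec {α σ : Type} [Primcodable α] [Primcodable σ] {f : α → Fm → σ}
    {frel : α → ℕ → List ℕ → σ} (h1 : Primrec (fun x : α × ℕ × List ℕ => frel x.1 x.2.1 x.2.2))
    {feq : α → ℕ → ℕ → σ} (h2 : Primrec (fun x : α × ℕ × ℕ => feq x.1 x.2.1 x.2.2))
    {fneg : α → Fm → σ → σ} (h3 : Primrec (fun x : α × Fm × σ => fneg x.1 x.2.1 x.2.2))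
    {fand : α → Fm → Fm → σ → σ → σ}
    (h4 : Primrec (fun x : α × Fm × Fm × σ × σ => fand x.1 x.2.1 x.2.2.1 x.2.2.2.1 x.2.2.2.2))
    {fex : α → ℕ → Fm → σ → σ} (h5 : Primrec (fun x : α × ℕ × Fm × σ => fex x.1 x.2.1 x.2.2.1 x.2.2.2))
    (e1 : ∀ a r v, f a (Fm.rel r v) = frel a r v) (e2 : ∀ a i j, f a (Fm.eq i j) = feq a i j)
    (e3 : ∀ a φ, f a (Fm.neg φ) = fneg a φ (f a φ))
    (e4 : ∀ a φ ψ, f a (Fm.and φ ψ) = fand a φ ψ (f a φ) (f a ψ))
    (e5 : ∀ a i φ, f a (Fm.ex i φ) = fex a i φ (f a φ)) : Primrec₂ f := by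
  -- the step function
  let g : α → List σ → Option σ := fun a L =>
    if L.length % 5 = 0 then some (frel a (L.length / 5).unpair.1
      (Denumerable.ofNat (List ℕ) (L.length / 5).unpair.2))
    else if L.length % 5 = 1 then some (feq a (L.length / 5).unpair.1 (L.length / 5).unpair.2)
    else if L.length % 5 = 2 then (L[L.length / 5]?).map
      (fun s => fneg a (Fm.dec (L.length / 5)) s)
    else if L.length % 5 = 3 then (L[(L.length / 5).unpair.1]?).bind (fun s =>
      (L[(L.length / 5).unpair.2]?).map (fun t =>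
        fand a (Fm.dec (L.length / 5).unpair.1) (Fm.dec (L.length / 5).unpair.2) s t))
    else (L[(L.length / 5).unpair.2]?).map
      (fun s => fex a (L.length / 5).unpair.1 (Fm.dec (L.length / 5).unpair.2) s)
  have hlen : Primrec (fun x : α × List σ => x.2.length) := Primrec.list_length.comp Primrec.snd
  have hm : Primrec (fun x : α × List σ => x.2.length / 5) :=
    Primrec.nat_div.comp hlen (Primrec.const 5)
  have hmod : Primrec (fun x : α × List σ => x.2.length % 5) :=
    Primrec.nat_mod.comp hlen (Primrec.const 5)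
  have hi : Primrec (fun x : α × List σ => (x.2.length / 5).unpair.1) :=
    Primrec.fst.comp (Primrec.unpair.comp hm)
  have hj : Primrec (fun x : α × List σ => (x.2.length / 5).unpair.2) :=
    Primrec.snd.comp (Primrec.unpair.comp hm)
  have hg : Primrec₂ g := by
    have c : ∀ r : ℕ, PrimrecPred (fun x : α × List σ => x.2.length % 5 = r) := fun r =>
      Primrec.eq.comp hmod (Primrec.const r)
    refine Primrec.ite (c 0) ?_ (Primrec.ite (c 1) ?_ (Primrec.ite (c 2) ?_
      (Primrec.ite (c 3) ?_ ?_)))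
    · exact Primrec.option_some.comp (h1.comp (Primrec.pair Primrec.fst (Primrec.pair hi
        ((Primrec.ofNat (List ℕ)).comp hj))))
    · exact Primrec.option_some.comp (h2.comp (Primrec.pair Primrec.fst (Primrec.pair hi hj)))
    · refine Primrec.option_map (Primrec.list_getElem?.comp Primrec.snd hm) ?_
      exact h3.comp (Primrec.pair (Primrec.fst.comp Primrec.fst)
        (Primrec.pair (Fm.primrec_dec.comp (hm.comp Primrec.fst)) Primrec.snd))
    · refine Primrec.option_bind (Primrec.list_getElem?.comp Primrec.snd hi) ?_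
      refine Primrec.option_map (Primrec.list_getElem?.comp (Primrec.snd.comp Primrec.fst)
        (hj.comp Primrec.fst)) ?_
      exact h4.comp (Primrec.pair (Primrec.fst.comp (Primrec.fst.comp Primrec.fst))
        (Primrec.pair (Fm.primrec_dec.comp (hi.comp (Primrec.fst.comp Primrec.fst)))
          (Primrec.pair (Fm.primrec_dec.comp (hj.comp (Primrec.fst.comp Primrec.fst)))
            (Primrec.pair (Primrec.snd.comp Primrec.fst) Primrec.snd))))
    · refine Primrec.option_map (Primrec.list_getElem?.comp Primrec.snd hj) ?_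
      exact h5.comp (Primrec.pair (Primrec.fst.comp Primrec.fst)
        (Primrec.pair (hi.comp Primrec.fst)
          (Primrec.pair (Fm.primrec_dec.comp (hj.comp Primrec.fst)) Primrec.snd)))
  have key : Primrec₂ (fun a n => f a (Fm.dec n)) := by
    refine Primrec.nat_strong_rec _ hg ?_
    intro a n
    have q1 := Nat.unpair_left_le (n / 5)
    have q2 := Nat.unpair_right_le (n / 5)
    have hl : n % 5 < 5 := Nat.mod_lt _ (by norm_num)
    have hget : ∀ k, k < n → ((List.range n).map fun n => f a (Fm.dec n))[k]? =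
        some (f a (Fm.dec k)) := by
      intro k hk
      rw [List.getElem?_map, List.getElem?_range hk]
      rfl
    have hlen' : ((List.range n).map fun n => f a (Fm.dec n)).length = n := by simp
    show g a ((List.range n).map fun n => f a (Fm.dec n)) = some (f a (Fm.dec n))
    simp only [g]
    rw [hlen']
    conv_rhs => rw [Fm.dec]
    split_ifs with c0 c1 c2 c3
    · rw [e1]
    · rw [e2]
    · rw [hget _ (by omega), e3]; rfl
    · rw [hget _ (by omega), hget _ (by omega), e4]; rfl
    · rw [hget _ (by omega), e5]; rfl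
  exact (key.comp Primrec.fst (Fm.primrec_enc.comp Primrec.snd)).of_eq fun x => by
    show f x.1 (Fm.dec (Fm.enc x.2)) = f x.1 x.2
    rw [Fm.dec_enc]

private theorem cb_filter : Primrec (fun x : ℕ × List ℕ => x.2.filter (fun j => j ≠ x.1)) := by
  have h : Primrec (fun x : ℕ × List ℕ => x.2.filterMap
      (fun j => if j = x.1 then none else some j)) :=
    Primrec.listFilterMap Primrec.snd (Primrec.ite
      (Primrec.eq.comp Primrec.snd (Primrec.fst.comp Primrec.fst)) (Primrec.const none)
      (Primrec.option_some.comp Primrec.snd))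
  refine h.of_eq fun x => ?_
  obtain ⟨i, l⟩ := x
  show l.filterMap (fun j => if j = i then none else some j) = l.filter (fun j => decide (j ≠ i))
  induction l with
  | nil => rfl
  | cons a l ih =>
    rw [List.filterMap_cons, List.filter_cons, ih]
    by_cases ha : a = i
    · simp [ha]
    · simp [ha]

theorem Fm.primrec_fv : Primrec Fm.fv := by
  have h := Fm.primrec_rec (α := Unit) (σ := List ℕ) (f := fun _ φ => Fm.fv φ)
    (frel := fun _ _ v => v) (Primrec.snd.comp Primrec.snd)
    (feq := fun _ i j => [i, j])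
    (Primrec.list_cons.comp (Primrec.fst.comp Primrec.snd)
      (Primrec.list_cons.comp (Primrec.snd.comp Primrec.snd) (Primrec.const [])))
    (fneg := fun _ _ s => s) (Primrec.snd.comp Primrec.snd)
    (fand := fun _ _ _ s t => s ++ t)
    (Primrec.list_append.comp (Primrec.fst.comp (Primrec.snd.comp (Primrec.snd.comp Primrec.snd)))
      (Primrec.snd.comp (Primrec.snd.comp (Primrec.snd.comp Primrec.snd))))
    (fex := fun _ i _ s => s.filter (fun j => j ≠ i))
    (cb_filter.comp (Primrec.pair (Primrec.fst.comp Primrec.snd)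
      (Primrec.snd.comp (Primrec.snd.comp Primrec.snd))))
    (fun _ _ _ => rfl) (fun _ _ _ => rfl) (fun _ _ => rfl) (fun _ _ _ => rfl) (fun _ _ _ => rfl)
  exact h.comp (Primrec.const ()) Primrec.id

theorem Fm.primrec_qr : Primrec Fm.qr := by
  have h := Fm.primrec_rec (α := Unit) (σ := ℕ) (f := fun _ φ => Fm.qr φ)
    (frel := fun _ _ _ => 0) (Primrec.const 0)
    (feq := fun _ _ _ => 0) (Primrec.const 0)
    (fneg := fun _ _ s => s) (Primrec.snd.comp Primrec.snd)
    (fand := fun _ _ _ s t => max s t)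
    (Primrec.nat_max.comp (Primrec.fst.comp (Primrec.snd.comp (Primrec.snd.comp Primrec.snd)))
      (Primrec.snd.comp (Primrec.snd.comp (Primrec.snd.comp Primrec.snd))))
    (fex := fun _ _ _ s => s + 1)
    (Primrec.succ.comp (Primrec.snd.comp (Primrec.snd.comp Primrec.snd)))
    (fun _ _ _ => rfl) (fun _ _ _ => rfl) (fun _ _ => rfl) (fun _ _ _ => rfl) (fun _ _ _ => rfl)
  exact h.comp (Primrec.const ()) Primrec.id

instance : DecidablePred Fm.Closed := fun φ => decidable_of_iff (φ.fv = []) Iff.rfl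

theorem Fm.primrec_closed : Primrec (fun φ : Fm => decide φ.Closed) := by
  have h : PrimrecPred (fun φ : Fm => φ.fv = []) :=
    Primrec.eq.comp Fm.primrec_fv (Primrec.const [])
  obtain ⟨_, h2⟩ := h
  refine h2.of_eq fun φ => ?_
  exact decide_eq_decide.2 Iff.rfl

end CB
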