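import Pool.Agent.Work.MP_cb528c_lc.StrMdl
import Pool.Agent.Work.MP_cb528c_lc.CodeFml
import Pool.Agent.Work.MP_cb528c_lc.FmPrim

set_option autoImplicit false
set_option linter.all false

/-!
# MP_cb528c_lc, module BkFml: translation of relational formulas into formulas of `σ`

`rel r v`: if `r < σ.rel.length` and `v.length = σ.rel[r]`: the relation symbol `r` applied to the variables; if
`r = σ.rel.length + f`, `v.length = σ.fn[f] + 1`: the equation `f (v_0, .., v_(n-1)) = v_n`; otherwise a false formula without free variables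
(`Fml.neg` of `∃ x_0, x_0 = x_0`).  `eq`, `neg`, `and`, `ex` directly.  On codes: `Fm.primrec_rec`, where the code of the equation is
`Nat.pair 0 (Nat.pair (Nat.pair (f + 1) (encode (v.dropLast.map (Nat.pair 0 ·)))) (Nat.pair 0 (last of v)))` etc.
-/

namespace CB

/-- a false sentence -/
private def flsF (σ : Sig) : Fml σ := Fml.neg (Fml.ex 0 (Fml.eq (Tm.var 0) (Tm.var 0)))

/-- codes of the translations of atomic formulas -/
private def relc (σ : Sig) (r : ℕ) (v : List ℕ) : ℕ :=
  if σ.rel[r]? = some v.length then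
    Nat.pair 1 (Nat.pair r (Encodable.encode (v.map (Nat.pair 0))))
  else List.casesOn (motive := fun _ => ℕ) v.reverse (flsF σ).code fun y ys =>
    if σ.rel.length ≤ r ∧ σ.fn[r - σ.rel.length]? = some ys.length then
      Nat.pair 0 (Nat.pair (Nat.pair (r - σ.rel.length + 1)
        (Encodable.encode (ys.reverse.map (Nat.pair 0)))) (Nat.pair 0 y))
    else (flsF σ).code

private theorem primrec_relc (σ : Sig) : Primrec (fun x : ℕ × List ℕ => relc σ x.1 x.2) := by
  have hp : ∀ {α : Type} [Primcodable α] {f g : α → ℕ}, Primrec f → Primrec g →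
      Primrec (fun x => Nat.pair (f x) (g x)) := fun hf hg => Primrec₂.natPair.comp hf hg
  have hmap : Primrec (fun l : List ℕ => Encodable.encode (l.map (Nat.pair 0))) :=
    Primrec.encode.comp (Primrec.list_map Primrec.id
      (hp (Primrec.const 0) Primrec.snd))
  have c1 : PrimrecPred (fun x : ℕ × List ℕ => σ.rel[x.1]? = some x.2.length) :=
    Primrec.eq.comp (Primrec.list_getElem?.comp (Primrec.const σ.rel) Primrec.fst)
      (Primrec.option_some.comp (Primrec.list_length.comp Primrec.snd))
  have c2 : PrimrecPred (fun y : (ℕ × List ℕ) × ℕ × List ℕ =>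
      σ.rel.length ≤ y.1.1 ∧ σ.fn[y.1.1 - σ.rel.length]? = some y.2.2.length) := by
    refine PrimrecPred.and ?_ ?_
    · exact Primrec.nat_le.comp (Primrec.const _) (Primrec.fst.comp Primrec.fst)
    · exact Primrec.eq.comp (Primrec.list_getElem?.comp (Primrec.const σ.fn)
        (Primrec.nat_sub.comp (Primrec.fst.comp Primrec.fst) (Primrec.const _)))
        (Primrec.option_some.comp (Primrec.list_length.comp (Primrec.snd.comp Primrec.snd)))
  have h2 : Primrec₂ (fun (x : ℕ × List ℕ) (y : ℕ × List ℕ) =>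
      if σ.rel.length ≤ x.1 ∧ σ.fn[x.1 - σ.rel.length]? = some y.2.length then
        Nat.pair 0 (Nat.pair (Nat.pair (x.1 - σ.rel.length + 1)
          (Encodable.encode (y.2.reverse.map (Nat.pair 0)))) (Nat.pair 0 y.1))
      else (flsF σ).code) := by
    refine Primrec.ite c2 ?_ (Primrec.const _)
    refine hp (Primrec.const 0) (hp (hp ?_ ?_) (hp (Primrec.const 0) ?_))
    · exact Primrec.succ.comp (Primrec.nat_sub.comp (Primrec.fst.comp Primrec.fst)
        (Primrec.const _))
    · exact hmap.comp (Primrec.list_reverse.comp (Primrec.snd.comp Primrec.snd))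
    · exact Primrec.fst.comp Primrec.snd
  refine Primrec.ite c1 ?_ ?_
  · exact hp (Primrec.const 1) (hp Primrec.fst (hmap.comp Primrec.snd))
  · exact Primrec.list_casesOn (Primrec.list_reverse.comp Primrec.snd) (Primrec.const _) h2

private theorem ofFn_cast {α : Type} {n : ℕ} (v : List ℕ) (e : n = v.length) (f : ℕ → α) :
    List.ofFn (fun j : Fin n => f (v.get (Fin.cast e j))) = v.map f := by
  subst e
  apply List.ext_getElem
  · simp
  · intro i h1 h2
    simp

private theorem rel_case (σ : Sig) (r : ℕ) (v : List ℕ) : ∃ φ : Fml σ, relc σ r v = φ.code ∧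
    (∀ i ∈ φ.fv, i ∈ v) ∧ ∀ (A : Str σ) (s : ℕ → A.C), φ.Sat A s ↔ A.toMdl.R r (v.map s) := by
  by_cases h1 : σ.rel[r]? = some v.length
  · obtain ⟨hr, hr'⟩ := List.getElem?_eq_some_iff.1 h1
    have e : σ.rel.get ⟨r, hr⟩ = v.length := hr'
    refine ⟨Fml.rel ⟨r, hr⟩ (fun j => Tm.var (v.get (Fin.cast e j))), ?_, ?_, ?_⟩
    · unfold relc
      rw [if_pos h1]
      unfold Fml.code
      congr 3
      exact (ofFn_cast v e (Nat.pair 0)).symm
    · rintro i ⟨j, hj⟩
      have hj' : i = v.get (Fin.cast e j) := hj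
      rw [hj']
      exact List.get_mem _ _
    · intro A s
      exact (toMdl_rel A ⟨r, hr⟩ (fun j => s (v.get (Fin.cast e j)))).symm.trans
        (iff_of_eq (congrArg (A.toMdl.R r) (ofFn_cast v e s)))
  · by_cases h2 : ∃ y ys, v.reverse = y :: ys ∧ σ.rel.length ≤ r ∧
      σ.fn[r - σ.rel.length]? = some ys.length
    · obtain ⟨y, ys, hv, h3, h4⟩ := h2
      obtain ⟨hf, hf'⟩ := List.getElem?_eq_some_iff.1 h4
      have hv' : v = ys.reverse ++ [y] := by
        rw [← List.reverse_reverse v, hv, List.reverse_cons]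
      have e : σ.fn.get ⟨r - σ.rel.length, hf⟩ = ys.reverse.length := by
        rw [List.length_reverse]
        exact hf'
      refine ⟨Fml.eq (Tm.app ⟨r - σ.rel.length, hf⟩
        (fun j => Tm.var (ys.reverse.get (Fin.cast e j)))) (Tm.var y), ?_, ?_, ?_⟩
      · unfold relc
        rw [if_neg h1, hv]
        change (if σ.rel.length ≤ r ∧ σ.fn[r - σ.rel.length]? = some ys.length then
          Nat.pair 0 (Nat.pair (Nat.pair (r - σ.rel.length + 1)
            (Encodable.encode (ys.reverse.map (Nat.pair 0)))) (Nat.pair 0 y))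
          else (flsF σ).code) = _
        rw [if_pos ⟨h3, h4⟩]
        unfold Fml.code Tm.code
        congr 4
        exact (ofFn_cast ys.reverse e (Nat.pair 0)).symm
      · rintro i (⟨j, hj⟩ | hj)
        · have hj' : i = ys.reverse.get (Fin.cast e j) := hj
          rw [hj', hv']
          exact List.mem_append_left _ (List.get_mem _ _)
        · have hj' : i = y := hj
          rw [hj', hv']
          simp
      · intro A s
        have hr : r = σ.rel.length + (⟨r - σ.rel.length, hf⟩ : Fin σ.fn.length) := by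
          change r = σ.rel.length + (r - σ.rel.length)
          omega
        have h5 := toMdl_fun A ⟨r - σ.rel.length, hf⟩
          (fun j => s (ys.reverse.get (Fin.cast e j))) (s y)
        rw [ofFn_cast ys.reverse e s, ← hr] at h5
        rw [hv', List.map_append]
        refine Iff.trans ?_ h5.symm
        exact eq_comm
    · refine ⟨flsF σ, ?_, ?_, ?_⟩
      · unfold relc
        rw [if_neg h1]
        rcases hv : v.reverse with _ | ⟨y, ys⟩
        · rfl
        · change (if σ.rel.length ≤ r ∧ σ.fn[r - σ.rel.length]? = some ys.length then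
            Nat.pair 0 (Nat.pair (Nat.pair (r - σ.rel.length + 1)
              (Encodable.encode (ys.reverse.map (Nat.pair 0)))) (Nat.pair 0 y))
            else (flsF σ).code) = _
          rw [if_neg fun h => h2 ⟨y, ys, hv, h⟩]
      · intro i hi
        simp [flsF, Fml.fv, Tm.vars] at hi
      · intro A s
        constructor
        · intro h
          exact absurd ⟨s 0, rfl⟩ h
        · intro h
          exfalso
          have h3 := A.toMdl_ok r _ h
          rw [List.length_map] at h3
          unfold Sig.ar at h3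
          rcases Nat.lt_or_ge r σ.rel.length with h4 | h4
          · rw [List.getElem?_append_left h4] at h3
            exact h1 h3
          · rw [List.getElem?_append_right h4, List.getElem?_map] at h3
            obtain ⟨n, hn, hn'⟩ := Option.map_eq_some_iff.1 h3
            have hlen : v.reverse.length = n + 1 := by rw [List.length_reverse, hn']
            rcases hv : v.reverse with _ | ⟨y, ys⟩
            · rw [hv] at hlen
              simp at hlen
            · rw [hv] at hlen
              have : ys.length = n := by simpa using hlen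
              exact h2 ⟨y, ys, hv, h4, by rw [this]; exact hn⟩

/-- codes of the translations -/
private def bkc (σ : Sig) : Fm → ℕ
  | Fm.rel r v => relc σ r v
  | Fm.eq i j => Nat.pair 0 (Nat.pair (Nat.pair 0 i) (Nat.pair 0 j))
  | Fm.neg φ => Nat.pair 2 (bkc σ φ)
  | Fm.and φ ψ => Nat.pair 3 (Nat.pair (bkc σ φ) (bkc σ ψ))
  | Fm.ex i φ => Nat.pair 4 (Nat.pair i (bkc σ φ))

private theorem primrec_bkc (σ : Sig) : Primrec (bkc σ) := by
  have hp : ∀ {α : Type} [Primcodable α] {f g : α → ℕ}, Primrec f → Primrec g →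
      Primrec (fun x => Nat.pair (f x) (g x)) := fun hf hg => Primrec₂.natPair.comp hf hg
  have h := Fm.primrec_rec (α := Unit) (σ := ℕ) (f := fun _ φ => bkc σ φ)
    (frel := fun _ r v => relc σ r v) ((primrec_relc σ).comp Primrec.snd)
    (feq := fun _ i j => Nat.pair 0 (Nat.pair (Nat.pair 0 i) (Nat.pair 0 j)))
    (hp (Primrec.const 0) (hp (hp (Primrec.const 0) (Primrec.fst.comp Primrec.snd))
      (hp (Primrec.const 0) (Primrec.snd.comp Primrec.snd))))
    (fneg := fun _ _ s => Nat.pair 2 s)
    (hp (Primrec.const 2) (Primrec.snd.comp Primrec.snd))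
    (fand := fun _ _ _ s t => Nat.pair 3 (Nat.pair s t))
    (hp (Primrec.const 3) (hp (Primrec.fst.comp (Primrec.snd.comp (Primrec.snd.comp Primrec.snd)))
      (Primrec.snd.comp (Primrec.snd.comp (Primrec.snd.comp Primrec.snd)))))
    (fex := fun _ i _ s => Nat.pair 4 (Nat.pair i s))
    (hp (Primrec.const 4) (hp (Primrec.fst.comp Primrec.snd)
      (Primrec.snd.comp (Primrec.snd.comp Primrec.snd))))
    (fun _ _ _ => rfl) (fun _ _ _ => rfl) (fun _ _ => rfl) (fun _ _ _ => rfl) (fun _ _ _ => rfl)
  exact h.comp (Primrec.const ()) Primrec.id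

theorem exists_bk (σ : Sig) : ∃ T : Fm → ℕ, Computable T ∧ ∀ ψ : Fm, ∃ φ : Fml σ, T ψ = φ.code ∧
    (∀ i ∈ φ.fv, i ∈ ψ.fv) ∧ ∀ (A : Str σ) (s : ℕ → A.C), φ.Sat A s ↔ Sat A.toMdl s ψ := by
  refine ⟨bkc σ, (primrec_bkc σ).to_comp, fun ψ => ?_⟩
  induction ψ with
  | rel r v => exact rel_case σ r v
  | eq i j =>
    refine ⟨Fml.eq (Tm.var i) (Tm.var j), rfl, ?_, fun A s => Iff.rfl⟩
    rintro k (hk | hk)
    · have hk' : k = i := hk
      simp [Fm.fv, hk']
    · have hk' : k = j := hk
      simp [Fm.fv, hk']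
  | neg ψ ih =>
    obtain ⟨φ, h1, h2, h3⟩ := ih
    refine ⟨Fml.neg φ, ?_, h2, fun A s => not_congr (h3 A s)⟩
    change Nat.pair 2 (bkc σ ψ) = Nat.pair 2 φ.code
    rw [h1]
  | and ψ ψ' ih ih' =>
    obtain ⟨φ, h1, h2, h3⟩ := ih
    obtain ⟨φ', h1', h2', h3'⟩ := ih'
    refine ⟨Fml.and φ φ', ?_, ?_, fun A s => and_congr (h3 A s) (h3' A s)⟩
    · change Nat.pair 3 (Nat.pair (bkc σ ψ) (bkc σ ψ')) = Nat.pair 3 (Nat.pair φ.code φ'.code)
      rw [h1, h1']
    · rintro k (hk | hk)
      · exact List.mem_append_left _ (h2 k hk)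
      · exact List.mem_append_right _ (h2' k hk)
  | ex i ψ ih =>
    obtain ⟨φ, h1, h2, h3⟩ := ih
    refine ⟨Fml.ex i φ, ?_, ?_, fun A s => exists_congr fun c => h3 A _⟩
    · change Nat.pair 4 (Nat.pair i (bkc σ ψ)) = Nat.pair 4 (Nat.pair i φ.code)
      rw [h1]
    · rintro k ⟨hk, hk'⟩
      have hk'' : k ≠ i := hk'
      refine List.mem_filter.2 ⟨h2 k hk, ?_⟩
      simpa using hk''

end CB
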