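import Pool.Agent.Work.MP_cb528c_lc.BlkDefs

set_option autoImplicit false
set_option linter.all false

/-!
# MP_cb528c_lc, module BlkBasic: combinatorics of blocks

All by induction on lists.  `pt_cases`: either there are infinitely many ones, and then the sequence of all block
lengths `g` has the property, or finitely many.
-/

namespace CB

private theorem blkAux_rep (a : ℕ) : ∀ (k : ℕ) (l : List Bool),
    blkAux k (List.replicate a false ++ l) = blkAux (k + a) l := by
  induction a with
  | zero => intro k l; simp
  | succ a ih =>
    intro k l
    rw [List.replicate_succ, List.cons_append]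
    show blkAux (k + 1) (List.replicate a false ++ l) = _
    rw [ih]
    congr 1
    omega

private theorem wcat_nil : wcat [] = [] := rfl

private theorem wcat_cons (a : ℕ) (w : List ℕ) :
    wcat (a :: w) = List.replicate a false ++ (true :: wcat w) := by
  simp [wcat]

private theorem wcat_append (u v : List ℕ) : wcat (u ++ v) = wcat u ++ wcat v := by
  simp [wcat]

private theorem blkAux_false (k m : ℕ) : blkAux k (List.replicate m false) = [] := by
  have := blkAux_rep m k []
  rw [List.append_nil] at this
  rw [this]
  rfl

theorem blk_wcat_append (w : List ℕ) (k : ℕ) : blk (wcat w ++ List.replicate k false) = w := by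
  unfold blk
  induction w with
  | nil => rw [wcat_nil, List.nil_append]; exact blkAux_false 0 k
  | cons a w ih =>
    rw [wcat_cons, List.append_assoc, blkAux_rep, List.cons_append]
    show (0 + a) :: blkAux 0 (wcat w ++ List.replicate k false) = _
    rw [ih, Nat.zero_add]

private theorem exists_wcat_aux (l : List Bool) : ∀ j : ℕ, ∃ k,
    List.replicate j false ++ l = wcat (blkAux j l) ++ List.replicate k false := by
  induction l with
  | nil => intro j; exact ⟨j, by simp [blkAux, wcat_nil]⟩
  | cons b l ih =>
    intro j
    cases b with
    | true =>
      obtain ⟨k, hk⟩ := ih 0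
      refine ⟨k, ?_⟩
      show _ = wcat (j :: blkAux 0 l) ++ _
      rw [wcat_cons, List.append_assoc, List.cons_append, ← hk]
      simp
    | false =>
      obtain ⟨k, hk⟩ := ih (j + 1)
      refine ⟨k, ?_⟩
      show _ = wcat (blkAux (j + 1) l) ++ _
      rw [← hk, List.replicate_succ', List.append_assoc]
      simp

/-- every finite 0-1 sequence is of this form -/
theorem exists_wcat (l : List Bool) : ∃ k, l = wcat (blk l) ++ List.replicate k false := by
  obtain ⟨k, hk⟩ := exists_wcat_aux l 0
  exact ⟨k, by simpa [blk] using hk⟩

private theorem blkAux_prefix (l t : List Bool) : ∀ k, blkAux k l <+: blkAux k (l ++ t) := by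
  induction l with
  | nil => intro k; exact List.nil_prefix
  | cons b l ih =>
    intro k
    cases b with
    | true =>
      show k :: blkAux 0 l <+: k :: blkAux 0 (l ++ t)
      exact (List.cons_prefix_cons).2 ⟨rfl, ih 0⟩
    | false => exact ih (k + 1)

theorem blk_prefix {l l' : List Bool} (h : l <+: l') : blk l <+: blk l' := by
  obtain ⟨t, rfl⟩ := h
  exact blkAux_prefix l t 0

private theorem restr_pre (y : ℕ → Bool) {n m : ℕ} (h : n ≤ m) : restr y n <+: restr y m := by
  obtain ⟨k, rfl⟩ := Nat.exists_eq_add_of_le h
  induction k with
  | zero => exact List.prefix_refl _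
  | succ k ih =>
    rw [← Nat.add_assoc, restr_succ]
    exact (ih (by omega)).trans (List.prefix_append _ _)

theorem blk_restr_prefix (y : ℕ → Bool) {n m : ℕ} (h : n ≤ m) : blk (restr y n) <+: blk (restr y m) :=
  blk_prefix (restr_pre y h)

theorem restr_ypt (w : List ℕ) (k : ℕ) : restr (ypt w) ((wcat w).length + k) = wcat w ++ List.replicate k false := by
  apply List.ext_getElem
  · simp [restr_length]
  · intro i h1 h2
    have h3 : (restr (ypt w) ((wcat w).length + k))[i] = ypt w i := by
      simp [restr]
    rw [h3, ypt]
    by_cases hi : i < (wcat w).length
    · rw [List.getElem_append_left hi, List.getD_eq_getElem _ _ hi]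
    · push Not at hi
      rw [List.getElem_append_right hi, List.getD_eq_default _ _ hi]
      simp

theorem ypt_inj {w w' : List ℕ} (h : ypt w = ypt w') : w = w' := by
  have h1 := restr_ypt w (wcat w').length
  have h2 := restr_ypt w' (wcat w).length
  rw [h, Nat.add_comm, h2] at h1
  have h3 := congrArg blk h1
  rw [blk_wcat_append, blk_wcat_append] at h3
  exact h3.symm

theorem computable_ypt (w : List ℕ) : Computable (ypt w) :=
  ((Primrec.list_getD false).comp (Primrec.const (wcat w)) Primrec.id).to_comp

private theorem length_blk_snoc (l : List Bool) : ∀ k,
    (blkAux k (l ++ [true])).length = (blkAux k l).length + 1 := by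
  induction l with
  | nil => intro k; simp [blkAux]
  | cons b l ih =>
    intro k
    cases b with
    | true =>
      show (k :: blkAux 0 (l ++ [true])).length = (k :: blkAux 0 l).length + 1
      rw [List.length_cons, List.length_cons, ih 0]
    | false => exact ih (k + 1)

/-- `w` is a prefix of the word of completed blocks iff `y` begins with `wcat w` -/
private theorem prefix_blk_iff' (y : ℕ → Bool) (w : List ℕ) :
    (∃ n, w <+: blk (restr y n)) ↔ restr y (wcat w).length = wcat w := by
  constructor
  · rintro ⟨n, t, ht⟩
    obtain ⟨k, hk⟩ := exists_wcat (restr y n)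
    rw [← ht, wcat_append, List.append_assoc] at hk
    have h1 : wcat w <+: restr y n := ⟨_, hk.symm⟩
    have h2 : (wcat w).length ≤ n := by
      have := h1.length_le
      rwa [restr_length] at this
    have h3 := restr_pre y h2
    have h4 : restr y (wcat w).length <+: wcat w :=
      List.prefix_of_prefix_length_le h3 h1 (by rw [restr_length])
    exact h4.eq_of_length (by rw [restr_length])
  · intro h
    refine ⟨(wcat w).length, ?_⟩
    rw [h]
    have := blk_wcat_append w 0
    rw [List.replicate_zero, List.append_nil] at this
    rw [this]

/-- the points of Cantor space: finite words followed by zeros, or infinite words -/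
theorem pt_cases (y : ℕ → Bool) : (∃ w, y = ypt w) ∨
    ∃ g : ℕ → ℕ, ∀ r, restr y (wcat ((List.range r).map g)).length = wcat ((List.range r).map g) := by
  by_cases hf : ∃ n, ∀ m, n ≤ m → y m = false
  · left
    obtain ⟨n, hn⟩ := hf
    obtain ⟨k, hk⟩ := exists_wcat (restr y n)
    refine ⟨blk (restr y n), ?_⟩
    set w := blk (restr y n) with hw
    have hlen : n = (wcat w).length + k := by
      have := congrArg List.length hk
      rw [restr_length, List.length_append, List.length_replicate] at this
      exact this
    have h1 : restr (ypt w) n = restr y n := by
      conv_lhs => rw [hlen, restr_ypt, ← hk]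
    funext i
    by_cases hi : i < n
    · exact (restr_eq_iff.1 h1 i hi).symm
    · rw [hn i (by omega), ypt, List.getD_eq_default]
      omega
  · right
    push Not at hf
    have hN : ∀ r, ∃ n, r ≤ (blk (restr y n)).length := by
      intro r
      induction r with
      | zero => exact ⟨0, Nat.zero_le _⟩
      | succ r ih =>
        obtain ⟨n, hn⟩ := ih
        obtain ⟨m, hm, hy⟩ := hf n
        have hy' : y m = true := by
          cases h : y m with
          | true => rfl
          | false => exact absurd h hy
        refine ⟨m + 1, ?_⟩
        rw [restr_succ, hy']
        have h1 := length_blk_snoc (restr y m) 0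
        have h2 := (blk_restr_prefix y hm).length_le
        unfold blk at *
        omega
    choose N hN using hN
    refine ⟨fun r => (blk (restr y (N (r + 1)))).getD r 0, fun r => ?_⟩
    rw [← prefix_blk_iff']
    refine ⟨N r, ?_⟩
    have h1 : (List.range r).map (fun r => (blk (restr y (N (r + 1)))).getD r 0) =
        (blk (restr y (N r))).take r := by
      apply List.ext_getElem
      · simp [hN r]
      · intro i h1 h2
        rw [List.getElem_map, List.getElem_range, List.getElem_take]
        have hi : i < r := by simpa using h1
        have hl := hN (i + 1)
        have hl' := hN r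
        rw [List.getD_eq_getElem _ _ (by omega)]
        rcases le_total (N (i + 1)) (N r) with h | h
        · exact (blk_restr_prefix y h).getElem _
        · exact ((blk_restr_prefix y h).getElem _).symm
    rw [h1]
    exact List.take_prefix _ _

theorem length_le_wcat (w : List ℕ) : w.length ≤ (wcat w).length := by
  induction w with
  | nil => simp
  | cons a w ih =>
    rw [wcat_cons, List.length_append, List.length_cons, List.length_cons]
    omega

/-- `w` is a prefix of the word of completed blocks iff `y` begins with `wcat w` -/
theorem prefix_blk_iff (y : ℕ → Bool) (w : List ℕ) :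
    (∃ n, w <+: blk (restr y n)) ↔ restr y (wcat w).length = wcat w :=
  prefix_blk_iff' y w

end CB
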