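import Pool.Agent.Work.MP_cb528c_lc.HierApi

set_option autoImplicit false
set_option linter.all false

/-!
# MP_cb528c_lc, module HierUniq: Sigma_{n+1} predicates have a Pi_n matrix with UNIQUE witnesses

Proof by induction on `n`.  `n = 0`: take the least witness (`PrimrecPred` matrix: `q' a k := q a k ∧ ∀ j < k, ¬ q a j`,
primitive recursive by bounded quantification).
`n + 1`: `p a ↔ ∃ k, q a k`, `q` in Pi_{n+1}.  `¬ q` is Sigma_{n+1}, so by induction `¬ q a k ↔ ∃ e, r a k e`, `r` in Pi_n, at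
most one `e`.  Put `q' a m :=` with `m = encode (k, l)`, `l : List ℕ`: `q a k ∧ l.length = k ∧ ∀ i < k, r a i (l.getD i 0)`.
This is Pi_{n+1} (`Pg.and`, `Pg.ball`, `Pg.mono`, `Sg.comp`); `k` is the least witness of `q a`, and `l` is determined.
-/

namespace CB

private theorem pg_zero_iff {β : Type} [Primcodable β] {p : β → Prop} : Pg 0 p ↔ PrimrecPred p := by
  constructor
  · rintro ⟨s, ⟨f, hf, hs⟩, hp⟩
    exact (Primrec.eq.comp (hf.comp Primrec.encode) (Primrec.const true)).of_eq
      fun a => ((hp a).trans (hs _)).symm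
  · rintro ⟨hd, hp⟩
    exact Pg.of_primrec hp (fun a => by rw [decide_eq_true_iff]) 0

private theorem uniq_aux (n : ℕ) : ∀ (α : Type) [Primcodable α] (p : α → Prop), Sg (n + 1) p →
    ∃ q : α → ℕ → Prop, Pg n (fun x : α × ℕ => q x.1 x.2) ∧ (∀ a, p a ↔ ∃ k, q a k) ∧
      ∀ a k k', q a k → q a k' → k = k' := by
  classical
  induction n with
  | zero =>
    intro α _ p h
    obtain ⟨q, hq, hp⟩ := sg_succ_iff.1 h
    rw [pg_zero_iff] at hq
    refine ⟨fun a k => q a k ∧ ∀ j ∈ List.range k, ¬ q a j, ?_, ?_, ?_⟩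
    · rw [pg_zero_iff]
      refine hq.and ?_
      have h1 : PrimrecRel (fun (j : ℕ) (a : α) => ¬ q a j) :=
        (hq.comp (Primrec.snd.pair Primrec.fst)).not
      exact (PrimrecRel.forall_mem_list h1).comp (Primrec.list_range.comp Primrec.snd) Primrec.fst
    · intro a
      rw [hp]
      constructor
      · intro hex
        refine ⟨Nat.find hex, Nat.find_spec hex, fun j hj => ?_⟩
        exact Nat.find_min hex (List.mem_range.1 hj)
      · rintro ⟨k, hk, _⟩
        exact ⟨k, hk⟩
    · rintro a k k' ⟨h1, h2⟩ ⟨h3, h4⟩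
      rcases lt_trichotomy k k' with h | h | h
      · exact absurd h1 (h4 _ (List.mem_range.2 h))
      · exact h
      · exact absurd h3 (h2 _ (List.mem_range.2 h))
  | succ n ih =>
    intro α _ p h
    obtain ⟨q, hq, hp⟩ := sg_succ_iff.1 h
    obtain ⟨r, hr, hqr, hu⟩ := ih (α × ℕ) (fun x => ¬ q x.1 x.2) hq.not
    have hof : Primrec (fun m : ℕ => Denumerable.ofNat (ℕ × List ℕ) m) :=
      Primrec.ofNat (ℕ × List ℕ)
    have hk : Primrec (fun m : ℕ => (Denumerable.ofNat (ℕ × List ℕ) m).1) := Primrec.fst.comp hof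
    have hl : Primrec (fun m : ℕ => (Denumerable.ofNat (ℕ × List ℕ) m).2) := Primrec.snd.comp hof
    refine ⟨fun a m => q a (Denumerable.ofNat (ℕ × List ℕ) m).1 ∧
      ((Denumerable.ofNat (ℕ × List ℕ) m).2.length = (Denumerable.ofNat (ℕ × List ℕ) m).1 ∧
      ∀ i < (Denumerable.ofNat (ℕ × List ℕ) m).1,
        r (a, i) ((Denumerable.ofNat (ℕ × List ℕ) m).2.getD i 0)), ?_, ?_, ?_⟩
    · have h1 : Pg (n + 1) (fun x : α × ℕ => q x.1 (Denumerable.ofNat (ℕ × List ℕ) x.2).1) :=
        hq.comp (Primrec.fst.pair (hk.comp Primrec.snd))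
      have h2 : Pg (n + 1) (fun x : α × ℕ => (Denumerable.ofNat (ℕ × List ℕ) x.2).2.length =
          (Denumerable.ofNat (ℕ × List ℕ) x.2).1) := by
        have h3 : PrimrecPred (fun x : α × ℕ => (Denumerable.ofNat (ℕ × List ℕ) x.2).2.length =
            (Denumerable.ofNat (ℕ × List ℕ) x.2).1) :=
          Primrec.eq.comp (Primrec.list_length.comp (hl.comp Primrec.snd)) (hk.comp Primrec.snd)
        exact Pg.mono (Nat.zero_le _) (pg_zero_iff.2 h3)
      have h4 : Pg (n + 1) (fun y : (α × ℕ) × ℕ =>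
          r (y.1.1, y.2) ((Denumerable.ofNat (ℕ × List ℕ) y.1.2).2.getD y.2 0)) := by
        have h5 : Primrec (fun y : (α × ℕ) × ℕ =>
            (((y.1.1, y.2), (Denumerable.ofNat (ℕ × List ℕ) y.1.2).2.getD y.2 0) : (α × ℕ) × ℕ)) :=
          ((Primrec.fst.comp Primrec.fst).pair Primrec.snd).pair
            ((Primrec.list_getD 0).comp (hl.comp (Primrec.snd.comp Primrec.fst)) Primrec.snd)
        exact (Pg.mono (Nat.le_succ n) hr).comp h5
      have h6 : Pg (n + 1) (fun x : α × ℕ => ∀ i < (Denumerable.ofNat (ℕ × List ℕ) x.2).1,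
          r (x.1, i) ((Denumerable.ofNat (ℕ × List ℕ) x.2).2.getD i 0)) :=
        Pg.ball (p := fun (x : α × ℕ) (i : ℕ) =>
          r (x.1, i) ((Denumerable.ofNat (ℕ × List ℕ) x.2).2.getD i 0)) h4 (hk.comp Primrec.snd)
      exact h1.and (h2.and h6)
    · intro a
      rw [hp]
      constructor
      · intro hex
        have hmin : ∀ i, ∃ e, i < Nat.find hex → r (a, i) e := by
          intro i
          by_cases hi : i < Nat.find hex
          · obtain ⟨e, he⟩ := (hqr (a, i)).1 (Nat.find_min hex hi)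
            exact ⟨e, fun _ => he⟩
          · exact ⟨0, fun h => absurd h hi⟩
        choose e he using hmin
        refine ⟨Encodable.encode (Nat.find hex, (List.range (Nat.find hex)).map e), ?_⟩
        simp only [Denumerable.ofNat_encode]
        refine ⟨Nat.find_spec hex, by simp, fun i hi => ?_⟩
        have h7 : ((List.range (Nat.find hex)).map e).getD i 0 = e i := by
          rw [List.getD_eq_getElem _ _ (by simpa using hi)]
          simp
        rw [h7]
        exact he i hi
      · rintro ⟨m, h1, _⟩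
        exact ⟨_, h1⟩
    · rintro a m m' ⟨h1, h2, h3⟩ ⟨h4, h5, h6⟩
      have hkk : (Denumerable.ofNat (ℕ × List ℕ) m).1 = (Denumerable.ofNat (ℕ × List ℕ) m').1 := by
        rcases lt_trichotomy (Denumerable.ofNat (ℕ × List ℕ) m).1
          (Denumerable.ofNat (ℕ × List ℕ) m').1 with h | h | h
        · exact absurd h1 ((hqr (a, _)).2 ⟨_, h6 _ h⟩)
        · exact h
        · exact absurd h4 ((hqr (a, _)).2 ⟨_, h3 _ h⟩)
      have hll : (Denumerable.ofNat (ℕ × List ℕ) m).2 = (Denumerable.ofNat (ℕ × List ℕ) m').2 := by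
        refine List.ext_getElem (by rw [h2, h5, hkk]) fun i hi hi' => ?_
        have e1 := h3 i (by rw [← h2]; exact hi)
        have e2 := h6 i (by rw [← h5]; exact hi')
        rw [List.getD_eq_getElem _ _ hi] at e1
        rw [List.getD_eq_getElem _ _ hi'] at e2
        exact hu _ _ _ e1 e2
      have hoo : Denumerable.ofNat (ℕ × List ℕ) m = Denumerable.ofNat (ℕ × List ℕ) m' :=
        Prod.ext hkk hll
      have := congrArg Encodable.encode hoo
      rwa [Denumerable.encode_ofNat, Denumerable.encode_ofNat] at this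

variable {α : Type} [Primcodable α]

theorem Sg.uniq {n : ℕ} {p : α → Prop} (h : Sg (n + 1) p) :
    ∃ q : α → ℕ → Prop, Pg n (fun x : α × ℕ => q x.1 x.2) ∧ (∀ a, p a ↔ ∃ k, q a k) ∧
      ∀ a k k', q a k → q a k' → k = k' :=
  uniq_aux n α p h

end CB
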