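import Pool.Agent.Work.MP_cb528c_lc.BlkDefs
import Pool.Agent.Work.MP_cb528c_lc.HierUniq
import Pool.Agent.Work.MP_cb528c_lc.BlkBasic

set_option autoImplicit false
set_option linter.all false

/-!
# MP_cb528c_lc, module BlkCert: the valid words for a Pi_3 set `D`

By `pg_succ_iff` and `Sg.uniq` (twice down): `D d ↔ ∀ a, ∃ c, Ψ d a c`, `Ψ` in Pi_1, at most one `c` for given `d`, `a`; and
`Ψ d a c ↔ ∀ z, ψ d a c z = true` with `ψ` primitive recursive.
For a word `w = [a_1, .., a_m]` put `n_i := a_i.unpair.1`, `κ_i := ` the list `Denumerable.ofNat (List ℕ) a_i.unpair.2`, `d := (n_1, .., n_m)`.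
`V w := ∀ r < m, with n := n_{r+1}, κ := κ_{r+1}: κ.length = (r + 1) * (n + r + 1) ∧
   ∀ j ≤ r, ∀ a ≤ n + r, Ψ (d.take j) a (κ.getD (j * (n + r + 1) + a) 0)`.
* `Valid.ex`: if `D (n w)` then `D` of all prefixes (`preD`), so all certificates exist and are unique; a list is
  determined by its length and entries.
* `Valid.fin`: if `¬ D (n w)` choose `a0` with no `c` for `(n w, a0)`; a child `a` of `w` has `a.unpair.1 + w.length < a0`, and for each value
  of `a.unpair.1` there is at most one child (uniqueness of the certificates).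
* `Valid.inf`: for the infinite word `g` and given `r`, `a`: the certificate for the prefix of length `r` and `a` is contained
  in the block number `r'` for every `r' > max r a`.
* `f l := ` the same condition for `w = blk l` with `Ψ` replaced by `∀ z < l.length, ψ .. z`.  Then `PV V = PC f`: if `V` fails for
  `blk (restr y n)` then some `Ψ` fails at some `z`, and `f (restr y n') = false` for `n' > z`, `n' ≥ n` (`blk (restr y n)` is a prefix of
  `blk (restr y n')` and the condition for `r` depends only on the first `r + 1` blocks).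
-/

namespace CB

/-! ### complexity helpers -/

private theorem pg_zero_iff {β : Type} [Primcodable β] {p : β → Prop} : Pg 0 p ↔ PrimrecPred p := by
  constructor
  · rintro ⟨s, ⟨f, hf, hs⟩, hp⟩
    exact (Primrec.eq.comp (hf.comp Primrec.encode) (Primrec.const true)).of_eq
      fun a => ((hp a).trans (hs _)).symm
  · rintro ⟨hd, hp⟩
    exact Pg.of_primrec hp (fun a => by rw [decide_eq_true_iff]) 0

private theorem pp_ball {β : Type} [Primcodable β] {p : β → ℕ → Prop}
    (h : PrimrecPred (fun x : β × ℕ => p x.1 x.2)) {g : β → ℕ} (hg : Primrec g) :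
    PrimrecPred (fun a => ∀ i < g a, p a i) := by
  have h1 : PrimrecRel (fun (i : ℕ) (a : β) => p a i) := h.comp (Primrec.snd.pair Primrec.fst)
  have h2 : PrimrecPred (fun a : β => ∀ i ∈ List.range (g a), p (id a) i) :=
    (PrimrecRel.forall_mem_list h1).comp (Primrec.list_range.comp hg) Primrec.id
  exact h2.of_eq fun a => by simp

/-- the certificate for the block number `d.length`, coded by `a` -/
private def GG (Ψ : List ℕ × ℕ → ℕ → Prop) (d : List ℕ) (a : ℕ) : Prop :=
  (Denumerable.ofNat (List ℕ) a.unpair.2).length = (d.length + 1) * (a.unpair.1 + d.length + 1) ∧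
    ∀ j < d.length + 1, ∀ e < a.unpair.1 + d.length + 1,
      Ψ (d.take j, e) ((Denumerable.ofNat (List ℕ) a.unpair.2).getD (j * (a.unpair.1 + d.length + 1) + e) 0)

private def nnw (w : List ℕ) : List ℕ := w.map (fun a => a.unpair.1)

private def VV (Ψ : List ℕ × ℕ → ℕ → Prop) (w : List ℕ) : Prop :=
  ∀ r < w.length, GG Ψ ((nnw w).take r) (w.getD r 0)

private theorem VV_snoc (Ψ : List ℕ × ℕ → ℕ → Prop) (w : List ℕ) (a : ℕ) :
    VV Ψ (w ++ [a]) ↔ VV Ψ w ∧ GG Ψ (nnw w) a := by
  have hn : nnw (w ++ [a]) = nnw w ++ [a.unpair.1] := by simp [nnw]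
  have hl : (nnw w).length = w.length := by simp [nnw]
  have e1 : ∀ j < w.length, (nnw (w ++ [a])).take j = (nnw w).take j := fun j hj => by
    rw [hn, List.take_append_of_le_length (by rw [hl]; exact hj.le)]
  have e2 : ∀ j < w.length, (w ++ [a]).getD j 0 = w.getD j 0 := fun j hj =>
    List.getD_append _ _ _ _ hj
  have e3 : (nnw (w ++ [a])).take w.length = nnw w := by
    rw [hn, ← hl]; simp
  have e4 : (w ++ [a]).getD w.length 0 = a := by simp
  constructor
  · intro h1
    refine ⟨fun j hj => ?_, ?_⟩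
    · have := h1 j (by simp; omega)
      rwa [e1 j hj, e2 j hj] at this
    · have := h1 w.length (by simp)
      rwa [e3, e4] at this
  · rintro ⟨h1, h2⟩ j hj
    rw [List.length_append, List.length_singleton] at hj
    rcases Nat.lt_succ_iff_lt_or_eq.1 hj with h | h
    · rw [e1 j h, e2 j h]
      exact h1 j h
    · subst h
      rw [e3, e4]
      exact h2

private theorem GG_mono {Ψ Ψ' : List ℕ × ℕ → ℕ → Prop} (h : ∀ x c, Ψ x c → Ψ' x c) {d : List ℕ} {a : ℕ}
    (hG : GG Ψ d a) : GG Ψ' d a :=
  ⟨hG.1, fun j hj e he => h _ _ (hG.2 j hj e he)⟩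

/-- the blocks by a fold -/
private theorem blkAux_fold (l : List Bool) : ∀ (k : ℕ) (acc : List ℕ),
    (l.foldl (fun (s : ℕ × List ℕ) (b : Bool) => cond b (0, s.2 ++ [s.1]) (s.1 + 1, s.2)) (k, acc)).2 =
      acc ++ blkAux k l := by
  induction l with
  | nil => intro k acc; simp [blkAux]
  | cons b l ih =>
    intro k acc
    cases b
    · rw [List.foldl_cons]
      show (List.foldl _ (k + 1, acc) l).2 = _
      rw [ih]; rfl
    · rw [List.foldl_cons]
      show (List.foldl _ (0, acc ++ [k]) l).2 = _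
      rw [ih, blkAux, List.append_assoc]; rfl

private theorem primrec_blk : Primrec blk := by
  have h1 : Primrec₂ (fun (_ : List Bool) (x : (ℕ × List ℕ) × Bool) =>
      cond x.2 (0, x.1.2 ++ [x.1.1]) (x.1.1 + 1, x.1.2)) := by
    refine Primrec.cond (Primrec.snd.comp Primrec.snd) ?_ ?_
    · exact (Primrec.const 0).pair (Primrec.list_concat.comp
        (Primrec.snd.comp (Primrec.fst.comp Primrec.snd)) (Primrec.fst.comp (Primrec.fst.comp Primrec.snd)))
    · exact (Primrec.succ.comp (Primrec.fst.comp (Primrec.fst.comp Primrec.snd))).pair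
        (Primrec.snd.comp (Primrec.fst.comp Primrec.snd))
  have h2 : Primrec (fun l : List Bool =>
      (l.foldl (fun (s : ℕ × List ℕ) (b : Bool) => cond b (0, s.2 ++ [s.1]) (s.1 + 1, s.2)) (0, [])).2) :=
    Primrec.snd.comp (Primrec.list_foldl Primrec.id (Primrec.const (0, [])) h1)
  refine h2.of_eq fun l => ?_
  rw [blkAux_fold]
  rfl

private theorem pp_GG {ψ : (List ℕ × ℕ) × ℕ → ℕ → Prop}
    (h : PrimrecPred (fun x : ((List ℕ × ℕ) × ℕ) × ℕ => ψ x.1 x.2)) :
    PrimrecPred (fun x : (ℕ × List ℕ) × ℕ => GG (fun y c => ∀ z < x.1.1, ψ (y, c) z) x.1.2 x.2) := by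
  have hs : Primrec (fun x : (ℕ × List ℕ) × ℕ => x.1.1) := Primrec.fst.comp Primrec.fst
  have hd : Primrec (fun x : (ℕ × List ℕ) × ℕ => x.1.2) := Primrec.snd.comp Primrec.fst
  have hn : Primrec (fun x : (ℕ × List ℕ) × ℕ => x.2.unpair.1) :=
    Primrec.fst.comp (Primrec.unpair.comp Primrec.snd)
  have hκ : Primrec (fun x : (ℕ × List ℕ) × ℕ => Denumerable.ofNat (List ℕ) x.2.unpair.2) :=
    (Primrec.ofNat (List ℕ)).comp (Primrec.snd.comp (Primrec.unpair.comp Primrec.snd))
  have hdl : Primrec (fun x : (ℕ × List ℕ) × ℕ => x.1.2.length + 1) :=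
    Primrec.succ.comp (Primrec.list_length.comp hd)
  have hm : Primrec (fun x : (ℕ × List ℕ) × ℕ => x.2.unpair.1 + x.1.2.length + 1) :=
    Primrec.succ.comp (Primrec.nat_add.comp hn (Primrec.list_length.comp hd))
  have h1 : PrimrecPred (fun x : (ℕ × List ℕ) × ℕ => (Denumerable.ofNat (List ℕ) x.2.unpair.2).length =
      (x.1.2.length + 1) * (x.2.unpair.1 + x.1.2.length + 1)) :=
    (Primrec.eq (α := ℕ)).comp (Primrec.list_length.comp hκ) (Primrec.nat_mul.comp hdl hm)
  have h2 : PrimrecPred (fun w : ((((ℕ × List ℕ) × ℕ) × ℕ) × ℕ) × ℕ =>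
      ψ ((w.1.1.1.1.2.take w.1.1.2, w.1.2), (Denumerable.ofNat (List ℕ) w.1.1.1.2.unpair.2).getD
        (w.1.1.2 * (w.1.1.1.2.unpair.1 + w.1.1.1.1.2.length + 1) + w.1.2) 0) w.2) := by
    have p1 : Primrec (fun w : ((((ℕ × List ℕ) × ℕ) × ℕ) × ℕ) × ℕ => w.1.1.1) :=
      Primrec.fst.comp (Primrec.fst.comp Primrec.fst)
    have p2 : Primrec (fun w : ((((ℕ × List ℕ) × ℕ) × ℕ) × ℕ) × ℕ => w.1.1.2) :=
      Primrec.snd.comp (Primrec.fst.comp Primrec.fst)
    have p3 : Primrec (fun w : ((((ℕ × List ℕ) × ℕ) × ℕ) × ℕ) × ℕ => w.1.2) :=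
      Primrec.snd.comp Primrec.fst
    exact h.comp ((((Primrec.list_take.comp p2 (hd.comp p1)).pair p3).pair
      ((Primrec.list_getD 0).comp (hκ.comp p1)
        (Primrec.nat_add.comp (Primrec.nat_mul.comp p2 (hm.comp p1)) p3))).pair Primrec.snd)
  have h3 := pp_ball (p := fun (w : (((ℕ × List ℕ) × ℕ) × ℕ) × ℕ) (z : ℕ) =>
      ψ ((w.1.1.1.2.take w.1.2, w.2), (Denumerable.ofNat (List ℕ) w.1.1.2.unpair.2).getD
        (w.1.2 * (w.1.1.2.unpair.1 + w.1.1.1.2.length + 1) + w.2) 0) z) h2
    (hs.comp (Primrec.fst.comp Primrec.fst))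
  have h4 := pp_ball (p := fun (w : ((ℕ × List ℕ) × ℕ) × ℕ) (e : ℕ) => ∀ z < w.1.1.1,
      ψ ((w.1.1.2.take w.2, e), (Denumerable.ofNat (List ℕ) w.1.2.unpair.2).getD
        (w.2 * (w.1.2.unpair.1 + w.1.1.2.length + 1) + e) 0) z) h3 (hm.comp Primrec.fst)
  have h5 := pp_ball (p := fun (w : (ℕ × List ℕ) × ℕ) (j : ℕ) => ∀ e < w.2.unpair.1 + w.1.2.length + 1,
      ∀ z < w.1.1, ψ ((w.1.2.take j, e), (Denumerable.ofNat (List ℕ) w.2.unpair.2).getD
        (j * (w.2.unpair.1 + w.1.2.length + 1) + e) 0) z) h4 hdl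
  exact h1.and h5

private theorem pp_VV {ψ : (List ℕ × ℕ) × ℕ → ℕ → Prop}
    (h : PrimrecPred (fun x : ((List ℕ × ℕ) × ℕ) × ℕ => ψ x.1 x.2)) :
    PrimrecPred (fun l : List Bool => VV (fun y c => ∀ z < l.length, ψ (y, c) z) (blk l)) := by
  have hnn : Primrec (fun w : List ℕ => nnw w) :=
    Primrec.list_map Primrec.id (Primrec.fst.comp (Primrec.unpair.comp Primrec.snd)).to₂
  have h1 : Primrec (fun x : List Bool × ℕ =>
      (((x.1.length, (nnw (blk x.1)).take x.2), (blk x.1).getD x.2 0) : (ℕ × List ℕ) × ℕ)) :=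
    ((Primrec.list_length.comp Primrec.fst).pair (Primrec.list_take.comp Primrec.snd
      (hnn.comp (primrec_blk.comp Primrec.fst)))).pair
      ((Primrec.list_getD 0).comp (primrec_blk.comp Primrec.fst) Primrec.snd)
  exact pp_ball (p := fun (l : List Bool) (r : ℕ) =>
    GG (fun y c => ∀ z < l.length, ψ (y, c) z) ((nnw (blk l)).take r) ((blk l).getD r 0))
    ((pp_GG h).comp h1) (Primrec.list_length.comp primrec_blk)

private theorem index_lt {r m j e : ℕ} (hj : j < r) (he : e < m) : j * m + e < r * m := by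
  have : (j + 1) * m ≤ r * m := Nat.mul_le_mul_right _ hj
  rw [add_mul, one_mul] at this
  omega

theorem exists_valid {D : List ℕ → Prop} (h3 : Pg 3 D) (hp : ∀ d a, D (d ++ [a]) → D d) :
    ∃ (V : List ℕ → Prop) (f : List Bool → Bool), Primrec f ∧ Valid D V ∧ PV V = PC f := by
  classical
  obtain ⟨E, hE, hDE⟩ := pg_succ_iff.1 h3
  obtain ⟨Ψ, hΨ, hEΨ, hu⟩ := Sg.uniq (n := 1) (p := fun x : List ℕ × ℕ => E x.1 x.2) hE
  obtain ⟨ψ, hψ, hΨψ⟩ := pg_succ_iff.1 hΨ
  have hψ0 : PrimrecPred (fun x : ((List ℕ × ℕ) × ℕ) × ℕ => ψ x.1 x.2) := by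
    rw [← pg_zero_iff]
    obtain ⟨s, hs, hqs⟩ := hψ
    exact ⟨s, hs, hqs⟩
  have hDt : ∀ (d e : List ℕ), D (d ++ e) → D d := by
    intro d e
    induction e using List.reverseRecOn with
    | nil => intro h; simpa using h
    | append_singleton w b ih =>
      intro h
      rw [← List.append_assoc] at h
      exact ih (hp _ _ h)
  have hDtake : ∀ (d : List ℕ) (j : ℕ), D d → D (d.take j) := by
    intro d j h
    refine hDt (d.take j) (d.drop j) ?_
    rwa [List.take_append_drop]
  have huniq : ∀ d a a', GG Ψ d a → GG Ψ d a' → a.unpair.1 = a'.unpair.1 → a = a' := by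
    rintro d a a' ⟨h1, h2⟩ ⟨h1', h2'⟩ h
    rw [← h] at h1' h2'
    have hk : Denumerable.ofNat (List ℕ) a.unpair.2 = Denumerable.ofNat (List ℕ) a'.unpair.2 := by
      refine List.ext_getElem (by rw [h1, h1']) fun i hi hi' => ?_
      rw [h1] at hi
      set m := a.unpair.1 + d.length + 1 with hm
      have hm0 : 0 < m := by omega
      have e0 : i / m * m + i % m = i := Nat.div_add_mod' i m
      have e1 := h2 (i / m) ((Nat.div_lt_iff_lt_mul hm0).2 hi) (i % m) (Nat.mod_lt _ hm0)
      have e2 := h2' (i / m) ((Nat.div_lt_iff_lt_mul hm0).2 hi) (i % m) (Nat.mod_lt _ hm0)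
      rw [e0] at e1 e2
      have e3 := hu _ _ _ e1 e2
      rw [List.getD_eq_getElem _ _ (by rw [h1]; exact hi), List.getD_eq_getElem _ _ hi'] at e3
      exact e3
    have h5 : a.unpair.2 = a'.unpair.2 := by
      have := congrArg Encodable.encode hk
      rwa [Denumerable.encode_ofNat, Denumerable.encode_ofNat] at this
    rw [← Nat.pair_unpair a, ← Nat.pair_unpair a', h, h5]
  obtain ⟨hdec, hprim⟩ := pp_VV hψ0
  refine ⟨VV Ψ, fun l => @decide (VV (fun y c => ∀ z < l.length, ψ (y, c) z) (blk l)) (hdec l), hprim,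
    ⟨hp, ?_, ?_, ?_, ?_, ?_⟩, ?_⟩
  · intro r hr
    simp at hr
  · intro w a h
    exact ((VV_snoc Ψ w a).1 h).1
  · -- existence and uniqueness of the child
    intro w hw hD m
    have hex : ∀ j e, ∃ c, Ψ ((nnw w).take j, e) c := by
      intro j e
      exact (hEΨ _).1 ((hDE _).1 (hDtake _ j hD) e)
    choose C hC using hex
    set M := m + (nnw w).length + 1 with hM
    have hM0 : 0 < M := by omega
    refine ⟨Nat.pair m (Encodable.encode ((List.range (((nnw w).length + 1) * M)).map
      fun i => C (i / M) (i % M))), ⟨by simp, ?_⟩, ?_⟩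
    · refine (VV_snoc Ψ w _).2 ⟨hw, ?_⟩
      unfold GG
      simp only [Nat.unpair_pair, Denumerable.ofNat_encode]
      refine ⟨by simp [hM], fun j hj e he => ?_⟩
      have hidx : j * M + e < ((nnw w).length + 1) * M := index_lt hj he
      have h7 : ((List.range (((nnw w).length + 1) * M)).map
          fun i => C (i / M) (i % M)).getD (j * M + e) 0 = C j e := by
        rw [List.getD_eq_getElem _ _ (by simpa using hidx)]
        simp only [List.getElem_map, List.getElem_range]
        have e1 : (j * M + e) / M = j := by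
          rw [mul_comm, Nat.mul_add_div hM0, Nat.div_eq_of_lt he, add_zero]
        have e2 : (j * M + e) % M = e := by
          rw [mul_comm, Nat.mul_add_mod, Nat.mod_eq_of_lt he]
        rw [e1, e2]
      rw [h7]
      exact hC j e
    · rintro a ⟨ha1, ha2⟩
      refine huniq (nnw w) _ _ ((VV_snoc Ψ w _).1 ha2).2 ?_ ?_
      · unfold GG
        simp only [Nat.unpair_pair, Denumerable.ofNat_encode]
        refine ⟨by simp [hM], fun j hj e he => ?_⟩
        have hidx : j * M + e < ((nnw w).length + 1) * M := index_lt hj he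
        have h7 : ((List.range (((nnw w).length + 1) * M)).map
            fun i => C (i / M) (i % M)).getD (j * M + e) 0 = C j e := by
          rw [List.getD_eq_getElem _ _ (by simpa using hidx)]
          simp only [List.getElem_map, List.getElem_range]
          have e1 : (j * M + e) / M = j := by
            rw [mul_comm, Nat.mul_add_div hM0, Nat.div_eq_of_lt he, add_zero]
          have e2 : (j * M + e) % M = e := by
            rw [mul_comm, Nat.mul_add_mod, Nat.mod_eq_of_lt he]
          rw [e1, e2]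
        rw [h7]
        exact hC j e
      · rw [ha1]; simp
  · -- finiteness
    intro w hw hD
    have hne : ∃ e0, ¬ E (nnw w) e0 := by
      by_contra hcon
      push Not at hcon
      exact hD ((hDE _).2 hcon)
    obtain ⟨e0, he0⟩ := hne
    refine Set.Finite.of_finite_image (f := fun a : ℕ => a.unpair.1)
      ((Set.finite_lt_nat e0).subset ?_) ?_
    · rintro _ ⟨a, ha, rfl⟩
      have hG := ((VV_snoc Ψ w a).1 ha).2
      show a.unpair.1 < e0
      by_contra hlt
      have := hG.2 (nnw w).length (by omega) e0 (by omega)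
      rw [List.take_length] at this
      exact he0 ((hEΨ (nnw w, e0)).2 ⟨_, this⟩)
    · intro a ha a' ha' h
      exact huniq (nnw w) _ _ ((VV_snoc Ψ w a).1 ha).2 ((VV_snoc Ψ w a').1 ha').2 h
  · -- infinite words
    intro g hg r
    rw [hDE]
    intro e
    refine (hEΨ (_, e)).2 ?_
    have h1 := hg (r + e + 1)
    rw [List.range_succ, List.map_append] at h1
    have hG := ((VV_snoc Ψ _ _).1 h1).2
    have hl : (nnw ((List.range (r + e)).map g)).length = r + e := by simp [nnw]
    have h2 := hG.2 r (by rw [hl]; omega) e (by rw [hl]; omega)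
    have h3 : (nnw ((List.range (r + e)).map g)).take r = (List.range r).map (fun i => (g i).unpair.1) := by
      simp only [nnw, List.map_map, ← List.map_take, List.take_range]
      rw [min_eq_left (by omega)]
      rfl
    rw [h3] at h2
    exact ⟨_, h2⟩
  · -- the class
    ext y
    constructor
    · intro hy n
      simp only [decide_eq_true_iff]
      intro r hr
      exact GG_mono (fun x c h z _ => (hΨψ (x, c)).1 h z) (hy n r hr)
    · intro hy n r hr
      have hy' : ∀ n, VV (fun y' c => ∀ z < (restr y n).length, ψ (y', c) z) (blk (restr y n)) := by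
        intro n
        have := hy n
        simp only [decide_eq_true_iff] at this
        exact this
      refine ⟨(hy' n r hr).1, fun j hj e he => ?_⟩
      refine (hΨψ (_, _)).2 fun z => ?_
      have hpre := blk_restr_prefix y (le_max_left n (z + 1))
      obtain ⟨t, ht⟩ := hpre
      have hr' : r < (blk (restr y (max n (z + 1)))).length := by
        rw [← ht, List.length_append]; omega
      have h1 := (hy' (max n (z + 1)) r hr').2
      have e1 : (nnw (blk (restr y (max n (z + 1))))).take r = (nnw (blk (restr y n))).take r := by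
        rw [← ht, nnw, List.map_append, List.take_append_of_le_length]
        · rfl
        · rw [List.length_map]; omega
      have e2 : (blk (restr y (max n (z + 1)))).getD r 0 = (blk (restr y n)).getD r 0 := by
        rw [← ht, List.getD_append _ _ _ _ hr]
      rw [e1, e2] at h1
      refine h1 j hj e he z ?_
      rw [restr_length]
      exact lt_of_lt_of_le (Nat.lt_succ_self z) (le_max_right _ _)

end CB
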