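import Pool.Agent.Work.MP_cb528c_lc.BaDefs

set_option autoImplicit false
set_option linter.all false

/-!
# MP_cb528c_lc: blocks of zeros (definitions)
-/

namespace CB

/-- the lengths of the completed blocks, the first one being prolonged by `k` -/
def blkAux : ℕ → List Bool → List ℕ
  | _, [] => []
  | k, true :: l => k :: blkAux 0 l
  | k, false :: l => blkAux (k + 1) l

/-- the lengths of the completed blocks of zeros: `0^a1 1 0^a2 1 ... 0^am 1 0^k ↦ [a1, .., am]` -/
def blk (l : List Bool) : List ℕ := blkAux 0 l

/-- the sequence with given blocks -/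
def wcat (w : List ℕ) : List Bool := w.flatMap (fun a => List.replicate a false ++ [true])

/-- the word `w` followed by zeros -/
def ypt (w : List ℕ) : ℕ → Bool := fun i => (wcat w).getD i false

/-- all words of completed blocks are valid -/
def PV (V : List ℕ → Prop) : Set (ℕ → Bool) := {y | ∀ n, V (blk (restr y n))}

/-- valid words: see `valid_class` -/
structure Valid (D V : List ℕ → Prop) : Prop where
  preD : ∀ d a, D (d ++ [a]) → D d
  nil : V []
  pre : ∀ w a, V (w ++ [a]) → V w
  ex : ∀ w, V w → D (w.map (fun a => a.unpair.1)) → ∀ m, ∃! a : ℕ, a.unpair.1 = m ∧ V (w ++ [a])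
  fin : ∀ w, V w → ¬ D (w.map (fun a => a.unpair.1)) → {a : ℕ | V (w ++ [a])}.Finite
  inf : ∀ g : ℕ → ℕ, (∀ r, V ((List.range r).map g)) → ∀ r, D ((List.range r).map (fun i => (g i).unpair.1))

end CB
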