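import Pool.Agent.Work.MP_cb528c_lc.BlkBasic
import Pool.Agent.Work.MP_cb528c_lc.BaApi

set_option autoImplicit false
set_option linter.all false

/-!
# MP_cb528c_lc, module BlkPts: the computable non isolated points of the class of valid words

Write `n w := w.map (fun a => a.unpair.1)`.
* `mem_pv_ypt`: `ypt w ∈ PV V ↔ V w` (`blk (restr (ypt w) m)` is a prefix of `w`, and equal to `w` for large `m`).
* For `D d` there is exactly one `w` with `V w` and `n w = d` (`word_ex`): induction on `d` from the right with `Valid.ex`,
  `Valid.preD`.  The points `ypt w`, `D (n w)`, `V w` are computable (`computable_ypt`) and not isolated: for every `m` let `a` be the child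
  with `a.unpair.1 = m` (`Valid.ex`); then `ypt (w ++ [a]) ∈ PV V`, different from `ypt w`, and agrees with it below
  `(wcat w).length + a ≥ m`.
* If `V w` and `¬ D (n w)` then `ypt w` is isolated in `PV V`: let `A` be larger than all `a` with `V (w ++ [a])`; a point of `PV V`
  agreeing with `ypt w` below `(wcat w).length + A + 1` and different from it has a completed block of length `> A` after `w`
  (`exists_wcat` for a long initial segment), contradiction.
* A point of `PV V` with infinitely many blocks `g` (`pt_cases`) satisfies `D (n (g 0, .., g (r-1)))` for all `r` (`Valid.inf`), hence is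
  the limit of the points `ypt (g 0, .., g (r-1))` of the first kind.
* Conclusion: let `E := {d // D d}`, `f : E → CN (PV V)`, `f d := ypt (word of d)`.  `f` has dense image: every nonempty set determined by
  finitely many coordinates meets the image.  By `fb_pull`: `TA (CN (PV V)) ≃o FB (fun i => {d | ypt (word d) i = true})`, and by `fb_congr` this
  is `CA D`: (1) the cone `{d | t <+: d}`: empty if `¬ D t`, otherwise `t <+: d` iff `word t <+: word d` iff `ypt (word d)` begins with
  `wcat (word t)` (`prefix_blk_iff`): determined by finitely many coordinates.  (2) the set `{d | ypt (word d) i = true}` is determined by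
  the cones of the `t` with `D t` and `(wcat (word t)).length ≤ i + 1` (finitely many, `word` is injective and there are finitely many
  0-1 sequences of bounded length): `ypt (word d) i = true` iff `(wcat (word t)).length = i + 1` for some prefix `t` of `d`.
-/

namespace CB

variable {D V : List ℕ → Prop}

private theorem wcat_app (u v : List ℕ) : wcat (u ++ v) = wcat u ++ wcat v := by
  simp [wcat]

private theorem valid_prefix (h : Valid D V) {u w : List ℕ} (hw : V w) (hu : u <+: w) : V u := by
  obtain ⟨t, rfl⟩ := hu
  induction t using List.reverseRecOn with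
  | nil => simpa using hw
  | append_singleton t b ih =>
    rw [← List.append_assoc] at hw
    exact ih (h.pre _ _ hw)

private theorem d_prefix (h : Valid D V) {u w : List ℕ} (hw : D w) (hu : u <+: w) : D u := by
  obtain ⟨t, rfl⟩ := hu
  induction t using List.reverseRecOn with
  | nil => simpa using hw
  | append_singleton t b ih =>
    rw [← List.append_assoc] at hw
    exact ih (h.preD _ _ hw)

private theorem blk_restr_wcat (w : List ℕ) : blk (restr (ypt w) (wcat w).length) = w := by
  have h := restr_ypt w 0
  rw [add_zero] at h
  rw [h, blk_wcat_append]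

private theorem blk_restr_large (w : List ℕ) {n : ℕ} (h : (wcat w).length ≤ n) : blk (restr (ypt w) n) = w := by
  obtain ⟨k, rfl⟩ := Nat.exists_eq_add_of_le h
  rw [restr_ypt, blk_wcat_append]

private theorem blk_pre (w : List ℕ) (n : ℕ) : blk (restr (ypt w) n) <+: w := by
  have h1 := blk_restr_prefix (ypt w) (le_max_left n (wcat w).length)
  rwa [blk_restr_large w (le_max_right _ _)] at h1

private theorem ypt_prefix {u w : List ℕ} (hu : u <+: w) {i : ℕ} (hi : i < (wcat u).length) :
    ypt w i = ypt u i := by
  obtain ⟨t, rfl⟩ := hu
  unfold ypt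
  rw [wcat_app, List.getD_append _ _ _ _ hi]

private theorem ypt_ge (w : List ℕ) {i : ℕ} (hi : (wcat w).length ≤ i) : ypt w i = false := by
  unfold ypt
  rw [List.getD_eq_default _ _ hi]

theorem mem_pv_ypt (h : Valid D V) (w : List ℕ) : ypt w ∈ PV V ↔ V w := by
  constructor
  · intro hw
    have := hw (wcat w).length
    rwa [blk_restr_wcat] at this
  · intro hw n
    exact valid_prefix h hw (blk_pre w n)

theorem word_ex (h : Valid D V) {d : List ℕ} (hd : D d) : ∃! w : List ℕ, V w ∧ w.map (fun a => a.unpair.1) = d := by
  induction d using List.reverseRecOn with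
  | nil =>
    refine ⟨[], ⟨h.nil, rfl⟩, ?_⟩
    rintro w ⟨-, hw⟩
    exact List.map_eq_nil_iff.1 hw
  | append_singleton d m ih =>
    obtain ⟨w, ⟨hw1, hw2⟩, hw3⟩ := ih (h.preD _ _ hd)
    obtain ⟨a, ⟨ha1, ha2⟩, ha3⟩ := h.ex w hw1 (by rw [hw2]; exact h.preD _ _ hd) m
    refine ⟨w ++ [a], ⟨ha2, by simp [hw2, ha1]⟩, ?_⟩
    rintro v ⟨hv1, hv2⟩
    rcases List.eq_nil_or_concat' v with rfl | ⟨v', b, rfl⟩
    · simp at hv2
    · rw [List.map_append, List.map_singleton] at hv2
      obtain ⟨e1, e2⟩ := List.append_inj' hv2 rfl
      have e3 : b.unpair.1 = m := by simpa using e2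
      have e4 := hw3 v' ⟨h.pre _ _ hv1, e1⟩
      subst e4
      rw [ha3 b ⟨e3, hv1⟩]

theorem mem_cn_ypt (h : Valid D V) {w : List ℕ} (hw : V w) : ypt w ∈ CN (PV V) ↔ D (w.map (fun a => a.unpair.1)) := by
  constructor
  · rintro ⟨-, -, h3⟩
    by_contra hD
    obtain ⟨A, hA⟩ := (h.fin w hw hD).bddAbove
    obtain ⟨z, hz1, hz2, hz3⟩ := h3 ((wcat w).length + A + 1)
    rw [restr_eq_iff] at hz3
    have hne : ∃ i, z i ≠ ypt w i := by
      by_contra hcon
      push Not at hcon
      exact hz2 (funext hcon)
    obtain ⟨i, hi⟩ := hne
    have hin : (wcat w).length + A + 1 ≤ i := by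
      by_contra hlt
      exact hi (hz3 i (by omega))
    have hzi : z i = true := by
      rw [ypt_ge w (by omega)] at hi
      simpa using hi
    -- `w` is a prefix of the completed blocks
    have hwpre : w <+: blk (restr z (i + 1)) := by
      have h1 : restr z ((wcat w).length) = restr (ypt w) ((wcat w).length) := by
        rw [restr_eq_iff]
        exact fun j hj => hz3 j (by omega)
      have h2 := blk_restr_prefix z (show (wcat w).length ≤ i + 1 by omega)
      rwa [h1, blk_restr_wcat] at h2
    obtain ⟨k, hk⟩ := exists_wcat (restr z (i + 1))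
    have hk0 : k = 0 := by
      by_contra hk0
      have h1 : (restr z (i + 1)).getLast? = some true := by
        rw [restr_succ, hzi]; simp
      rw [hk] at h1
      obtain ⟨k', rfl⟩ := Nat.exists_eq_succ_of_ne_zero hk0
      rw [List.replicate_succ', ← List.append_assoc, List.getLast?_concat] at h1
      simp at h1
    subst hk0
    rw [List.replicate_zero, List.append_nil] at hk
    obtain ⟨t, ht⟩ := hwpre
    cases t with
    | nil =>
      rw [List.append_nil] at ht
      rw [← ht] at hk
      have := congrArg List.length hk
      rw [restr_length] at this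
      omega
    | cons a t =>
      have hVa : V (w ++ [a]) := by
        refine valid_prefix h (hz1 (i + 1)) ⟨t, ?_⟩
        rw [← ht]; simp
      have haA : a ≤ A := hA hVa
      -- the entry of `z` after the block `a` is `true`
      have h5 : (restr z (i + 1)).getD ((wcat w).length + a) false = true := by
        rw [hk, ← ht, wcat_app]
        have e : wcat (a :: t) = List.replicate a false ++ (true :: wcat t) := by
          simp [wcat]
        rw [e, List.getD_append_right _ _ _ _ (by omega), Nat.add_sub_cancel_left,
          List.getD_append_right _ _ _ _ (by simp)]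
        simp
      have h6 : (restr z (i + 1)).getD ((wcat w).length + a) false = z ((wcat w).length + a) := by
        rw [List.getD_eq_getElem _ _ (by rw [restr_length]; omega)]
        simp [restr]
      rw [h6, hz3 _ (by omega), ypt_ge w (by omega)] at h5
      exact absurd h5 (by simp)
  · intro hD
    refine ⟨(mem_pv_ypt h w).2 hw, computable_ypt w, fun n => ?_⟩
    obtain ⟨a, ⟨ha1, ha2⟩, -⟩ := h.ex w hw hD n
    have han : n ≤ a := by rw [← ha1]; exact Nat.unpair_left_le a
    refine ⟨ypt (w ++ [a]), (mem_pv_ypt h _).2 ha2, fun he => ?_, ?_⟩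
    · have := congrArg List.length (ypt_inj he)
      simp at this
    · rw [restr_eq_iff]
      intro i hi
      by_cases hil : i < (wcat w).length
      · exact ypt_prefix (List.prefix_append _ _) hil
      · rw [ypt_ge w (by omega)]
        unfold ypt
        have e : wcat (w ++ [a]) = wcat w ++ (List.replicate a false ++ [true]) := by
          simp [wcat]
        rw [e, List.getD_append_right _ _ _ _ (by omega), List.getD_append _ _ _ _ (by simp; omega),
          List.getD_eq_getElem _ _ (by simp; omega)]
        simp

theorem valid_class (h : Valid D V) : Nonempty (CA D ≃o TA (CN (PV V))) := by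
  classical
  have hex : ∀ d : {d : List ℕ // D d}, ∃ w : List ℕ, V w ∧ w.map (fun a => a.unpair.1) = d.1 := fun d =>
    (word_ex h d.2).exists
  choose word hV hword using hex
  have huni : ∀ (d : {d : List ℕ // D d}) (w : List ℕ), V w → w.map (fun a => a.unpair.1) = d.1 → word d = w :=
    fun d w h1 h2 => (word_ex h d.2).unique ⟨hV d, hword d⟩ ⟨h1, h2⟩
  have hcn : ∀ d, ypt (word d) ∈ CN (PV V) := fun d => (mem_cn_ypt h (hV d)).2 (by rw [hword]; exact d.2)
  -- prefixes
  have hpre : ∀ d e : {d : List ℕ // D d}, d.1 <+: e.1 ↔ word d <+: word e := by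
    intro d e
    constructor
    · intro hde
      have h1 : (word e).take d.1.length <+: word e := List.take_prefix _ _
      have h2 : ((word e).take d.1.length).map (fun a => a.unpair.1) = d.1 := by
        rw [List.map_take, hword]
        exact (List.prefix_iff_eq_take.1 hde).symm
      rw [huni d _ (valid_prefix h (hV e) h1) h2]
      exact h1
    · intro hde
      have := hde.map (fun a : ℕ => a.unpair.1)
      rwa [hword, hword] at this
  have hpre2 : ∀ d e : {d : List ℕ // D d}, word d <+: word e ↔
      restr (ypt (word e)) (wcat (word d)).length = wcat (word d) := by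
    intro d e
    rw [← prefix_blk_iff]
    constructor
    · intro h1
      refine ⟨(wcat (word e)).length, ?_⟩
      rwa [blk_restr_wcat]
    · rintro ⟨n, hn⟩
      exact hn.trans (blk_pre _ n)
  set u : ℕ → Set (CN (PV V)) := fun i => {y : CN (PV V) | y.1 i = true} with hu
  set F : {d : List ℕ // D d} → CN (PV V) := fun d => ⟨ypt (word d), hcn d⟩ with hF
  have hdense : ∀ X, Det u X → X.Nonempty → ∃ x, F x ∈ X := by
    rintro X ⟨S, hS⟩ ⟨⟨y, hy⟩, hyX⟩
    -- it suffices to approximate `y`
    obtain ⟨n, hn⟩ : ∃ n, ∀ i ∈ S, i < n := ⟨S.sup id + 1, fun i hi =>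
      Nat.lt_succ_of_le (Finset.le_sup (f := id) hi)⟩
    have hsuff : ∀ d, (∀ i < n, ypt (word d) i = y i) → F d ∈ X := by
      intro d hd
      refine (hS (F d) ⟨y, hy⟩ fun i hi => ?_).2 hyX
      show ypt (word d) i = true ↔ y i = true
      rw [hd i (hn i hi)]
    rcases pt_cases y with ⟨w, rfl⟩ | ⟨g, hg⟩
    · have hVw : V w := (mem_pv_ypt h w).1 hy.1
      have hDw := (mem_cn_ypt h hVw).1 hy
      refine ⟨⟨_, hDw⟩, hsuff _ fun i _ => ?_⟩
      rw [huni ⟨_, hDw⟩ w hVw rfl]
    · have hVg : ∀ r, V ((List.range r).map g) := by
        intro r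
        have h1 := hy.1 (wcat ((List.range r).map g)).length
        rw [hg r] at h1
        have h2 := blk_wcat_append ((List.range r).map g) 0
        rw [List.replicate_zero, List.append_nil] at h2
        rwa [h2] at h1
      have hDg := h.inf g hVg n
      have hnn : ((List.range n).map g).map (fun a => a.unpair.1) =
          (List.range n).map (fun i => (g i).unpair.1) := by
        rw [List.map_map]; rfl
      refine ⟨⟨_, hDg⟩, hsuff _ fun i hi => ?_⟩
      rw [huni ⟨_, hDg⟩ _ (hVg n) hnn]
      have h1 := hg n
      have h2 := restr_ypt ((List.range n).map g) 0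
      rw [List.replicate_zero, List.append_nil, add_zero] at h2
      have h3 : restr (ypt ((List.range n).map g)) (wcat ((List.range n).map g)).length =
          restr y (wcat ((List.range n).map g)).length := by rw [h1, h2]
      rw [restr_eq_iff] at h3
      refine h3 i ?_
      have := length_le_wcat ((List.range n).map g)
      rw [List.length_map, List.length_range] at this
      omega
  obtain ⟨e1⟩ := fb_pull u F hdense
  have hcone : ∀ t : List ℕ, Det (fun i => F ⁻¹' (u i)) {d : {d : List ℕ // D d} | t <+: d.1} := by
    intro t
    by_cases ht : D t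
    · refine ⟨Finset.range (wcat (word ⟨t, ht⟩)).length, fun x y hxy => ?_⟩
      show t <+: x.1 ↔ t <+: y.1
      have e : ∀ z : {d : List ℕ // D d}, t <+: z.1 ↔
          restr (ypt (word z)) (wcat (word ⟨t, ht⟩)).length = wcat (word ⟨t, ht⟩) := fun z =>
        (hpre ⟨t, ht⟩ z).trans (hpre2 ⟨t, ht⟩ z)
      have e2 : restr (ypt (word x)) (wcat (word ⟨t, ht⟩)).length =
          restr (ypt (word y)) (wcat (word ⟨t, ht⟩)).length := by
        rw [restr_eq_iff]
        intro i hi
        have := hxy i (Finset.mem_range.2 hi)
        have h3 : ypt (word x) i = true ↔ ypt (word y) i = true := this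
        cases h4 : ypt (word x) i <;> cases h5 : ypt (word y) i <;> simp_all
      rw [e, e, e2]
    · have : {d : {d : List ℕ // D d} | t <+: d.1} = ∅ := by
        ext d
        simp only [Set.mem_setOf_eq, Set.mem_empty_iff_false, iff_false]
        exact fun hd => ht (d_prefix h d.2 hd)
      rw [this]
      exact Det.empty _
  have hcoord : ∀ i : ℕ, Det (fun t : List ℕ => {d : {d : List ℕ // D d} | t <+: d.1}) (F ⁻¹' (u i)) := by
    intro i
    have hfin : {t : List ℕ | ∃ ht : D t, (wcat (word ⟨t, ht⟩)).length ≤ i + 1}.Finite := by
      have hinj : ∀ (t t' : List ℕ) (ht : D t) (ht' : D t'), wcat (word ⟨t, ht⟩) = wcat (word ⟨t', ht'⟩) →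
          t = t' := by
        intro t t' ht ht' he
        have h1 : word ⟨t, ht⟩ = word ⟨t', ht'⟩ := by
          have h2 := blk_wcat_append (word ⟨t, ht⟩) 0
          rw [he, blk_wcat_append] at h2
          exact h2.symm
        have h2 := hword ⟨t, ht⟩
        rw [h1, hword] at h2
        exact h2.symm
      refine Set.Finite.of_finite_image (f := fun t => if ht : D t then wcat (word ⟨t, ht⟩) else [])
        ((List.finite_length_le Bool (i + 1)).subset ?_) ?_
      · rintro _ ⟨t, ⟨ht, hl⟩, rfl⟩
        simp only [ht, dif_pos]
        exact hl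
      · rintro t ⟨ht, -⟩ t' ⟨ht', -⟩ he
        simp only [ht, ht', dif_pos] at he
        exact hinj _ _ _ _ he
    refine ⟨hfin.toFinset, ?_⟩
    have key : ∀ x y : {d : List ℕ // D d}, (∀ t ∈ hfin.toFinset, (t <+: x.1 ↔ t <+: y.1)) →
        ypt (word x) i = true → ypt (word y) i = true := by
      intro x y hxy hx
      obtain ⟨k, hk⟩ := exists_wcat (restr (ypt (word x)) (i + 1))
      have hk0 : k = 0 := by
        by_contra hk0
        have h1 : (restr (ypt (word x)) (i + 1)).getLast? = some true := by
          rw [restr_succ, hx]; simp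
        rw [hk] at h1
        obtain ⟨k', rfl⟩ := Nat.exists_eq_succ_of_ne_zero hk0
        rw [List.replicate_succ', ← List.append_assoc, List.getLast?_concat] at h1
        simp at h1
      subst hk0
      rw [List.replicate_zero, List.append_nil] at hk
      set v := blk (restr (ypt (word x)) (i + 1)) with hv
      have hvpre : v <+: word x := blk_pre _ _
      have hvl : (wcat v).length = i + 1 := by
        rw [← hk, restr_length]
      have hVv := valid_prefix h (hV x) hvpre
      have hnv : v.map (fun a => a.unpair.1) <+: x.1 := by
        have := hvpre.map (fun a : ℕ => a.unpair.1)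
        rwa [hword] at this
      have hDv := d_prefix h x.2 hnv
      have hwv := huni ⟨_, hDv⟩ v hVv rfl
      have hmem : v.map (fun a => a.unpair.1) ∈ hfin.toFinset := by
        rw [Set.Finite.mem_toFinset]
        refine ⟨hDv, ?_⟩
        rw [hwv, hvl]
      have hy := (hxy _ hmem).1 hnv
      have hvy : v <+: word y := by
        have := (hpre ⟨_, hDv⟩ y).1 hy
        rwa [hwv] at this
      rw [ypt_prefix hvy (by omega), ← ypt_prefix hvpre (by omega)]
      exact hx
    intro x y hxy
    exact ⟨key x y hxy, key y x fun t ht => (hxy t ht).symm⟩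
  obtain ⟨e2⟩ := fb_congr (u := fun t : List ℕ => {d : {d : List ℕ // D d} | t <+: d.1})
    (v := fun i => F ⁻¹' (u i)) hcone hcoord
  exact ⟨e2.trans e1.symm⟩

end CB
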