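import Pool.Agent.Work.MP_cb528c_lc.HierApi

set_option autoImplicit false
set_option linter.all false

/-!
# MP_cb528c_lc, module HierRe: computably enumerable = Sigma_1; the standard hierarchy with a computable matrix
is the same from level 1 on

* `sg_one_of_re`: for `p : α → Prop` with `REPred p` use a code `c` of the partial function (`Nat.Partrec.Code.exists_code`)
  and `Nat.Partrec.Code.evaln_prim`, `Nat.Partrec.Code.evaln_complete`: `p a ↔ ∃ k, (evaln k c (encode a)).isSome`.
* `re_of_sg_one`: unbounded search (`Nat.rfind`, or `REPred` of `∃ k, f (pair x k) = true`).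
* `ArN`: the textbook hierarchy with a decidable matrix.
-/

namespace CB

variable {α : Type} [Primcodable α]

private theorem pg_zero_iff {β : Type} [Primcodable β] {p : β → Prop} : Pg 0 p ↔ PrimrecPred p := by
  constructor
  · rintro ⟨s, ⟨f, hf, hs⟩, hp⟩
    exact (Primrec.eq.comp (hf.comp Primrec.encode) (Primrec.const true)).of_eq
      fun a => ((hp a).trans (hs _)).symm
  · rintro ⟨hd, hp⟩
    exact Pg.of_primrec hp (fun a => by rw [decide_eq_true_iff]) 0

theorem sg_one_of_re {p : α → Prop} (h : REPred p) : Sg 1 p := by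
  obtain ⟨c, hc⟩ := Nat.Partrec.Code.exists_code.1 h
  have h1 : Primrec (fun x : α × ℕ =>
      (Nat.Partrec.Code.evaln x.2 c (Encodable.encode x.1)).isSome) :=
    Primrec.option_isSome.comp (Nat.Partrec.Code.primrec_evaln.comp
      ((Primrec.snd.pair (Primrec.const c)).pair (Primrec.encode.comp Primrec.fst)))
  have h2 : Pg 0 (fun x : α × ℕ =>
      (Nat.Partrec.Code.evaln x.2 c (Encodable.encode x.1)).isSome = true) :=
    Pg.of_primrec h1 (fun x => Iff.rfl) 0
  refine (Pg.ex (p := fun (a : α) (k : ℕ) =>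
      (Nat.Partrec.Code.evaln k c (Encodable.encode a)).isSome = true) h2).congr fun a => ?_
  have h3 : (∃ k, (Nat.Partrec.Code.evaln k c (Encodable.encode a)).isSome = true) ↔
      (Nat.Partrec.Code.eval c (Encodable.encode a)).Dom := by
    rw [Part.dom_iff_mem]
    constructor
    · rintro ⟨k, hk⟩
      obtain ⟨y, hy⟩ := Option.isSome_iff_exists.1 hk
      exact ⟨y, Nat.Partrec.Code.evaln_complete.2 ⟨k, hy⟩⟩
    · rintro ⟨y, hy⟩
      obtain ⟨k, hk⟩ := Nat.Partrec.Code.evaln_complete.1 hy
      exact ⟨k, Option.isSome_iff_exists.2 ⟨y, hk⟩⟩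
  rw [h3, hc]
  simp [Part.assert]

theorem re_of_sg_one {p : α → Prop} (h : Sg 1 p) : REPred p := by
  classical
  obtain ⟨q, hq, hp⟩ := sg_succ_iff.1 h
  rw [pg_zero_iff] at hq
  have hq' : ComputablePred (fun x : α × ℕ => q x.1 x.2) := hq.computablePred
  have h1 : Partrec (fun x : α => Nat.rfind fun n => Part.some (decide (q x n))) :=
    Partrec.rfind hq'.decide.partrec
  refine h1.dom_re.of_eq fun a => ?_
  rw [hp]
  refine Iff.trans Nat.rfind_dom ?_
  simp

/-- the arithmetical hierarchy over a computable matrix: `ArN true n` = Sigma^0_n, `ArN false n` = Pi^0_n -/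
def ArN : Bool → ℕ → (ℕ → Prop) → Prop
  | _, 0, p => ComputablePred p
  | true, n + 1, p => ∃ q, ArN false n q ∧ ∀ x, p x ↔ ∃ k, q (Nat.pair x k)
  | false, n + 1, p => ∃ q, ArN true n q ∧ ∀ x, p x ↔ ∀ k, q (Nat.pair x k)

private theorem prim_unpair : Primrec (fun m : ℕ => (m.unpair.1, m.unpair.2)) :=
  (Primrec.fst.comp Primrec.unpair).pair (Primrec.snd.comp Primrec.unpair)

private theorem arN_zero {b : Bool} {p : ℕ → Prop} : ArN b 0 p ↔ ComputablePred p := by
  cases b <;> exact Iff.rfl

private theorem arN_aux (n : ℕ) : (∀ p : ℕ → Prop, ArN false (n + 1) p ↔ Pg (n + 1) p) ∧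
    (∀ p : ℕ → Prop, ArN true (n + 1) p ↔ Sg (n + 1) p) := by
  induction n with
  | zero =>
    constructor
    · intro p
      constructor
      · rintro ⟨q, hq, hp⟩
        rw [arN_zero] at hq
        have h1 : Sg 1 (fun x : ℕ => ¬ q x) := sg_one_of_re hq.not.to_re
        have h2 : Sg 1 (fun x : ℕ => ∃ k, ¬ q (Nat.pair x k)) :=
          Sg.ex (p := fun x k => ¬ q (Nat.pair x k)) (h1.comp Primrec₂.natPair)
        refine h2.not.congr fun x => ?_
        rw [hp, not_exists]
        exact forall_congr' fun k => not_not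
      · intro h
        obtain ⟨q, hq, hp⟩ := pg_succ_iff.1 h
        have hq0 : Pg 0 (fun x : ℕ × ℕ => q x.1 x.2) := by
          obtain ⟨s, hs, hqs⟩ := hq
          exact ⟨s, hs, hqs⟩
        rw [pg_zero_iff] at hq0
        refine ⟨fun m => q m.unpair.1 m.unpair.2, ?_, fun x => ?_⟩
        · rw [arN_zero]
          exact (hq0.comp prim_unpair).computablePred
        · rw [hp]
          simp only [Nat.unpair_pair]
    · intro p
      constructor
      · rintro ⟨q, hq, hp⟩
        rw [arN_zero] at hq
        have h1 : Sg 1 q := sg_one_of_re hq.to_re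
        have h2 : Sg 1 (fun x : ℕ => ∃ k, q (Nat.pair x k)) :=
          Sg.ex (p := fun x k => q (Nat.pair x k)) (h1.comp Primrec₂.natPair)
        exact h2.congr fun x => (hp x).symm
      · intro h
        obtain ⟨q, hq, hp⟩ := sg_succ_iff.1 h
        rw [pg_zero_iff] at hq
        refine ⟨fun m => q m.unpair.1 m.unpair.2, ?_, fun x => ?_⟩
        · rw [arN_zero]
          exact (hq.comp prim_unpair).computablePred
        · rw [hp]
          simp only [Nat.unpair_pair]
  | succ n ih =>
    constructor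
    · intro p
      constructor
      · rintro ⟨q, hq, hp⟩
        have h1 : Sg (n + 1) q := (ih.2 q).1 hq
        have h2 : Pg (n + 2) (fun x : ℕ => ∀ k, q (Nat.pair x k)) :=
          Sg.all (p := fun x k => q (Nat.pair x k)) (h1.comp Primrec₂.natPair)
        exact h2.congr fun x => (hp x).symm
      · intro h
        obtain ⟨q, hq, hp⟩ := pg_succ_iff.1 h
        refine ⟨fun m => q m.unpair.1 m.unpair.2, ?_, fun x => ?_⟩
        · exact (ih.2 _).2 (hq.comp prim_unpair)
        · rw [hp]
          simp only [Nat.unpair_pair]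
    · intro p
      constructor
      · rintro ⟨q, hq, hp⟩
        have h1 : Pg (n + 1) q := (ih.1 q).1 hq
        have h2 : Sg (n + 2) (fun x : ℕ => ∃ k, q (Nat.pair x k)) :=
          Pg.ex (p := fun x k => q (Nat.pair x k)) (h1.comp Primrec₂.natPair)
        exact h2.congr fun x => (hp x).symm
      · intro h
        obtain ⟨q, hq, hp⟩ := sg_succ_iff.1 h
        refine ⟨fun m => q m.unpair.1 m.unpair.2, ?_, fun x => ?_⟩
        · exact (ih.1 _).2 (hq.comp prim_unpair)
        · rw [hp]
          simp only [Nat.unpair_pair]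

theorem arN_pi_iff {n : ℕ} {p : ℕ → Prop} : ArN false (n + 1) p ↔ Pg (n + 1) p :=
  (arN_aux n).1 p

theorem arN_sigma_iff {n : ℕ} {p : ℕ → Prop} : ArN true (n + 1) p ↔ Sg (n + 1) p :=
  (arN_aux n).2 p

end CB
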