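import Pool.Agent.Work.MP_cb528c_lc.PtDefs
import Pool.Agent.Work.MP_cb528c_lc.HierRe
import Pool.Agent.Work.MP_cb528c_lc.FmPrim

set_option autoImplicit false
set_option linter.all false

/-!
# MP_cb528c_lc, module CodeSet: decidable sets of formulas by codes

`Nat.Partrec.Code.evaln_prim`, `evaln_complete`, `evaln_mono`, `evaln_sound`, `Nat.Partrec.Code.exists_code`; `Primcodable Nat.Partrec.Code` is in
Mathlib.
-/

namespace CB

private theorem ev_iff {e : Nat.Partrec.Code} {n b : ℕ} :
    (∃ k, Nat.Partrec.Code.evaln k e n = some b) ↔ b ∈ Nat.Partrec.Code.eval e n := by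
  rw [Nat.Partrec.Code.evaln_complete]
  rfl

private theorem sg_ev (b : ℕ) : Sg 1 (fun x : Nat.Partrec.Code × Fm =>
    ∃ k, Nat.Partrec.Code.evaln k x.1 (Encodable.encode x.2) = some b) := by
  have h1 : Primrec (fun x : (Nat.Partrec.Code × Fm) × ℕ => decide
      (Nat.Partrec.Code.evaln x.2 x.1.1 (Encodable.encode x.1.2) = some b)) := by
    refine PrimrecPred.decide ?_
    refine Primrec.eq.comp ?_ (Primrec.const (some b))
    exact Nat.Partrec.Code.primrec_evaln.comp
      ((Primrec.snd.pair (Primrec.fst.comp Primrec.fst)).pair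
        (Primrec.encode.comp (Primrec.snd.comp Primrec.fst)))
  have h2 : Pg 0 (fun x : (Nat.Partrec.Code × Fm) × ℕ =>
      Nat.Partrec.Code.evaln x.2 x.1.1 (Encodable.encode x.1.2) = some b) :=
    Pg.of_primrec h1 (fun x => by rw [decide_eq_true_iff]) 0
  exact Pg.ex (p := fun (a : Nat.Partrec.Code × Fm) (k : ℕ) =>
    Nat.Partrec.Code.evaln k a.1 (Encodable.encode a.2) = some b) h2

/-- every decidable set of formulas has a code -/
theorem exists_codeC {T : Set Fm} (h : ComputablePred (fun φ : Fm => φ ∈ T)) : ∃ e, TotC e ∧ TC e = T := by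
  classical
  have h1 : Computable (fun φ : Fm => decide (φ ∈ T)) := h.decide
  have h2 : Computable (fun n : ℕ => Encodable.encode (decide (Fm.dec n ∈ T))) :=
    Computable.encode.comp (h1.comp Fm.primrec_dec.to_comp)
  obtain ⟨c, hc⟩ := Nat.Partrec.Code.exists_code.1 (Partrec.nat_iff.1 h2.partrec)
  have hev : ∀ (φ : Fm) (b : ℕ), b ∈ Nat.Partrec.Code.eval c (Encodable.encode φ) ↔
      b = Encodable.encode (decide (φ ∈ T)) := by
    intro φ b
    have h3 : Nat.Partrec.Code.eval c (Encodable.encode φ) =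
        Part.some (Encodable.encode (decide (Fm.dec (Encodable.encode φ) ∈ T))) := by
      rw [hc]
      rfl
    rw [h3, Fm.encode_eq, Fm.dec_enc]
    exact Part.mem_some_iff
  refine ⟨c, fun φ => ?_, ?_⟩
  · by_cases hφ : φ ∈ T
    · have h4 : (1 : ℕ) ∈ Nat.Partrec.Code.eval c (Encodable.encode φ) := by
        rw [hev, decide_eq_true hφ]
        rfl
      obtain ⟨k, hk⟩ := ev_iff.2 h4
      exact ⟨k, Or.inl hk⟩
    · have h4 : (0 : ℕ) ∈ Nat.Partrec.Code.eval c (Encodable.encode φ) := by
        rw [hev, decide_eq_false hφ]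
        rfl
      obtain ⟨k, hk⟩ := ev_iff.2 h4
      exact ⟨k, Or.inr hk⟩
  · ext φ
    change (∃ k, Nat.Partrec.Code.evaln k c (Encodable.encode φ) = some 1) ↔ _
    rw [ev_iff, hev]
    by_cases hφ : φ ∈ T
    · rw [decide_eq_true hφ]
      exact ⟨fun _ => hφ, fun _ => rfl⟩
    · rw [decide_eq_false hφ]
      exact ⟨fun h5 => absurd h5 (by decide), fun h5 => absurd h5 hφ⟩

theorem sg_tc : Sg 1 (fun x : Nat.Partrec.Code × Fm => x.2 ∈ TC x.1) := sg_ev 1

theorem computable_tc {e : Nat.Partrec.Code} (h : TotC e) : ComputablePred (fun φ : Fm => φ ∈ TC e) := by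
  rw [ComputablePred.computable_iff_re_compl_re']
  have hp : Primrec (fun φ : Fm => (e, φ)) := (Primrec.const e).pair Primrec.id
  constructor
  · exact re_of_sg_one (sg_tc.comp hp)
  · refine re_of_sg_one (((sg_ev 0).comp hp).congr fun φ => ?_)
    constructor
    · intro h0 h1
      have h0' := ev_iff.1 h0
      have h1' := ev_iff.1 h1
      exact absurd (Part.mem_unique h0' h1') (by decide)
    · intro h1
      obtain ⟨k, hk | hk⟩ := h φ
      · exact absurd ⟨k, hk⟩ h1
      · exact ⟨k, hk⟩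

theorem pg_totC : Pg 2 TotC := by
  refine (Sg.all (p := fun (e : Nat.Partrec.Code) (φ : Fm) =>
    (∃ k, Nat.Partrec.Code.evaln k e (Encodable.encode φ) = some 1) ∨
    (∃ k, Nat.Partrec.Code.evaln k e (Encodable.encode φ) = some 0))
    (Sg.or (sg_ev 1) (sg_ev 0))).congr fun e => ?_
  exact forall_congr' fun φ => exists_or.symm

end CB
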