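import Pool.Agent.Work.MP_cb528c_lc.HdDefs
import Pool.Agent.Work.MP_cb528c_lc.FmPrim
import Pool.Agent.Work.MP_cb528c_lc.PiClass

set_option autoImplicit false
set_option linter.all false

/-!
# MP_cb528c_lc, module HdClass: the Henkin diagrams form a Pi_1 class

Every clause of `HD` is a condition on finitely many values of `H`, so `HD ar H ↔ ∀ n, f (restr H n) = true` where `f l` checks
all instances of the clauses with parameters (codes) `< l.length` all of whose instance numbers are `< l.length`
(instances with an instance number `≥ l.length` are skipped; they are checked for a longer list).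
Here `l : List Bool` and the value of an instance with number `j` is `l.getD j false`.
It is convenient to enumerate the clause instances by one number `t` with a decoded tuple
`(kind, i, j, r, k, ψ, χ, e, l, ...)` and to prove primitive recursiveness clause by clause.
(`and` over a bounded range: `(List.range n).all`, `Primrec.list_...`; `Primrec` for `asg`, `upd`, `wit` first.)
-/

namespace CB

theorem primrec_asg : Primrec₂ asg := Primrec.list_getD 0

private theorem primrec_replicate : Primrec (fun n : ℕ => List.replicate n 0) := by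
  have h : Primrec (fun n : ℕ => (List.range n).map (fun _ => 0)) :=
    Primrec.list_map Primrec.list_range (Primrec.const 0)
  exact h.of_eq (fun n => by rw [List.map_const', List.length_range])

theorem primrec_upd : Primrec (fun x : List ℕ × ℕ × ℕ => upd x.1 x.2.1 x.2.2) := by
  have h1 : Primrec (fun x : List ℕ × ℕ × ℕ => x.2.1 + 1 - x.1.length) :=
    Primrec.nat_sub.comp (Primrec.succ.comp (Primrec.fst.comp Primrec.snd))
      (Primrec.list_length.comp Primrec.fst)
  have h2 : Primrec (fun x : List ℕ × ℕ × ℕ => x.1 ++ List.replicate (x.2.1 + 1 - x.1.length) 0) :=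
    Primrec.list_append.comp Primrec.fst (primrec_replicate.comp h1)
  exact Primrec.list_set.comp h2 Primrec.snd

theorem primrec_wit : Primrec (fun x : ℕ × Fm × List ℕ => wit x.1 x.2.1 x.2.2) :=
  Primrec.succ.comp Primrec.encode

/-- families of finite conditions on `H` -/
private def FC (α : Type) [Primcodable α] (P : α → (ℕ → Bool) → Prop) : Prop :=
  ∃ (u : α → ℕ) (c : α → List Bool → Bool), Primrec u ∧ Primrec₂ c ∧
    ∀ a H n, u a ≤ n → (c a (restr H n) = true ↔ P a H)

/-- classes given by a primitive recursive tree -/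
private def Cl (P : (ℕ → Bool) → Prop) : Prop :=
  ∃ f : List Bool → Bool, Primrec f ∧ ∀ H, P H ↔ ∀ n, f (restr H n) = true

private theorem Cl.and {P Q : (ℕ → Bool) → Prop} (hP : Cl P) (hQ : Cl Q) :
    Cl (fun H => P H ∧ Q H) := by
  obtain ⟨f, hf, h1⟩ := hP
  obtain ⟨g, hg, h2⟩ := hQ
  refine ⟨fun l => f l && g l, Primrec.and.comp hf hg, fun H => ?_⟩
  show P H ∧ Q H ↔ ∀ n, (f (restr H n) && g (restr H n)) = true
  rw [h1, h2, ← forall_and]
  exact forall_congr' fun n => by rw [Bool.and_eq_true]

private theorem Cl.congr {P Q : (ℕ → Bool) → Prop} (hP : Cl P) (h : ∀ H, P H ↔ Q H) : Cl Q := by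
  obtain ⟨f, hf, h1⟩ := hP
  exact ⟨f, hf, fun H => (h H).symm.trans (h1 H)⟩

section FC

variable {α : Type} [Primcodable α]

private theorem FC.atom {j : α → ℕ} (hj : Primrec j) : FC α (fun a H => H (j a) = true) := by
  refine ⟨fun a => j a + 1, fun a l => l.getD (j a) false, Primrec.succ.comp hj,
    (Primrec.list_getD false).comp Primrec.snd (hj.comp Primrec.fst), fun a H n hn => ?_⟩
  have h1 : j a < (restr H n).length := by rw [restr_length]; exact hn
  show (restr H n).getD (j a) false = true ↔ H (j a) = true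
  rw [List.getD_eq_getElem?_getD, List.getElem?_eq_getElem h1]
  have h2 : (restr H n)[j a] = H (j a) := by
    unfold restr
    rw [List.getElem_map, List.getElem_range]
  rw [h2]
  rfl

private theorem FC.ins {φ : α → Fm} {e : α → List ℕ} (hφ : Primrec φ) (he : Primrec e) :
    FC α (fun a H => ins H (φ a) (e a) = true) :=
  FC.atom (j := fun a => Encodable.encode (φ a, e a)) (Primrec.encode.comp (Primrec.pair hφ he))

private theorem FC.bop {P Q : α → (ℕ → Bool) → Prop} (hP : FC α P) (hQ : FC α Q)
    (op : Bool → Bool → Bool) (R : Prop → Prop → Prop)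
    (hop : ∀ x y p q, (x = true ↔ p) → (y = true ↔ q) → (op x y = true ↔ R p q)) :
    FC α (fun a H => R (P a H) (Q a H)) := by
  obtain ⟨u, c, hu, hc, h1⟩ := hP
  obtain ⟨v, d, hv, hd, h2⟩ := hQ
  refine ⟨fun a => max (u a) (v a), fun a l => op (c a l) (d a l), Primrec.nat_max.comp hu hv,
    (Primrec.dom_bool₂ op).comp hc hd, fun a H n hn => ?_⟩
  exact hop _ _ _ _ (h1 a H n (le_trans (le_max_left _ _) hn))
    (h2 a H n (le_trans (le_max_right _ _) hn))

private theorem FC.and {P Q : α → (ℕ → Bool) → Prop} (hP : FC α P) (hQ : FC α Q) :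
    FC α (fun a H => P a H ∧ Q a H) :=
  FC.bop hP hQ (fun x y => x && y) (fun p q => p ∧ q) (by
    intro x y p q hp hq
    rw [← hp, ← hq]
    simp)

private theorem FC.imp {P Q : α → (ℕ → Bool) → Prop} (hP : FC α P) (hQ : FC α Q) :
    FC α (fun a H => P a H → Q a H) :=
  FC.bop hP hQ (fun x y => !x || y) (fun p q => p → q) (by
    intro x y p q hp hq
    rw [← hp, ← hq]
    cases x <;> simp)

private theorem FC.iff {P Q : α → (ℕ → Bool) → Prop} (hP : FC α P) (hQ : FC α Q) :
    FC α (fun a H => (P a H ↔ Q a H)) :=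
  FC.bop hP hQ (fun x y => decide (x = y)) (fun p q => (p ↔ q)) (by
    intro x y p q hp hq
    rw [← hp, ← hq]
    cases x <;> cases y <;> simp)

private theorem FC.not {P : α → (ℕ → Bool) → Prop} (hP : FC α P) :
    FC α (fun a H => ¬ P a H) :=
  FC.bop hP hP (fun x _ => !x) (fun p _ => ¬ p) (by
    intro x y p q hp hq
    rw [← hp]
    simp)

private theorem FC.pure {p : α → Prop} (hp : PrimrecPred p) : FC α (fun a _ => p a) := by
  obtain ⟨d, hd⟩ := hp
  refine ⟨fun _ => 0, fun a _ => decide (p a), Primrec.const 0, hd.comp Primrec.fst,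
    fun a H n _ => ?_⟩
  simp

private theorem FC.congr {P Q : α → (ℕ → Bool) → Prop} (hP : FC α P) (h : ∀ a H, P a H ↔ Q a H) :
    FC α Q := by
  obtain ⟨u, c, hu, hc, h1⟩ := hP
  exact ⟨u, c, hu, hc, fun a H n hn => (h1 a H n hn).trans (h a H)⟩

private theorem le_foldr_max (g : ℕ → ℕ) (L : List ℕ) (i : ℕ) (hi : i ∈ L) :
    g i ≤ L.foldr (fun i m => max (g i) m) 0 := by
  induction L with
  | nil => simp at hi
  | cons a L ih =>
    rw [List.foldr_cons]
    rcases List.mem_cons.1 hi with rfl | hi
    · exact le_max_left _ _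
    · exact (ih hi).trans (le_max_right _ _)

private theorem FC.ball {b : α → ℕ} (hb : Primrec b) {P : α × ℕ → (ℕ → Bool) → Prop}
    (h : FC (α × ℕ) P) : FC α (fun a H => ∀ i < b a, P (a, i) H) := by
  obtain ⟨u, c, hu, hc, h1⟩ := h
  have hr : PrimrecRel (fun (i : ℕ) (x : α × List Bool) => c (x.1, i) x.2 = true) :=
    Primrec.eq.comp (hc.comp (Primrec.pair (Primrec.fst.comp Primrec.snd) Primrec.fst)
      (Primrec.snd.comp Primrec.snd)) (Primrec.const true)
  have hr2 : PrimrecPred (fun x : α × List Bool => ∀ i ∈ List.range (b x.1),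
      c (x.1, i) x.2 = true) :=
    hr.forall_mem_list.comp (Primrec.list_range.comp (hb.comp Primrec.fst)) Primrec.id
  obtain ⟨d, hd⟩ := hr2
  refine ⟨fun a => (List.range (b a)).foldr (fun i m => max (u (a, i)) m) 0,
    fun a l => @decide (∀ i ∈ List.range (b a), c (a, i) l = true) (d (a, l)), ?_, hd,
    fun a H n hn => ?_⟩
  · exact Primrec.list_foldr (h := fun (a : α) (x : ℕ × ℕ) => max (u (a, x.1)) x.2)
      (Primrec.list_range.comp hb) (Primrec.const 0)
      (Primrec.nat_max.comp (hu.comp (Primrec.pair Primrec.fst (Primrec.fst.comp Primrec.snd)))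
        (Primrec.snd.comp Primrec.snd))
  · refine (@decide_eq_true_iff _ (d (a, restr H n))).trans ?_
    simp only [List.mem_range]
    refine forall_congr' fun i => imp_congr_right fun hi => ?_
    exact h1 (a, i) H n ((le_foldr_max (fun i => u (a, i)) _ i (List.mem_range.2 hi)).trans hn)

private theorem FC.all {P : α → (ℕ → Bool) → Prop} (h : FC α P) : Cl (fun H => ∀ a, P a H) := by
  obtain ⟨u, c, hu, hc, h1⟩ := h
  -- the check for one code
  let g : ℕ → List Bool → Bool := fun t l =>
    ((Encodable.decode (α := α) t).map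
      (fun a => !(decide (u a ≤ l.length)) || c a l)).getD true
  have hg : Primrec₂ g := by
    have h2 : Primrec₂ (fun (x : ℕ × List Bool) (a : α) =>
        (!(decide (u a ≤ x.2.length)) || c a x.2)) :=
      Primrec.or.comp (Primrec.not.comp ((Primrec.nat_le.comp (hu.comp Primrec.snd)
        (Primrec.list_length.comp (Primrec.snd.comp Primrec.fst))).decide))
        (hc.comp Primrec.snd (Primrec.snd.comp Primrec.fst))
    exact Primrec.option_getD.comp (Primrec.option_map (Primrec.decode.comp Primrec.fst) h2)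
      (Primrec.const true)
  have hr : PrimrecRel (fun (t : ℕ) (l : List Bool) => g t l = true) :=
    Primrec.eq.comp hg (Primrec.const true)
  have hr2 : PrimrecPred (fun l : List Bool => ∀ t ∈ List.range l.length, g t l = true) :=
    hr.forall_mem_list.comp (Primrec.list_range.comp Primrec.list_length) Primrec.id
  obtain ⟨d, hd⟩ := hr2
  refine ⟨fun l => @decide (∀ t ∈ List.range l.length, g t l = true) (d l), hd, fun H => ?_⟩
  simp only [decide_eq_true_iff, List.mem_range, restr_length]
  constructor
  · intro hH n t _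
    show ((Encodable.decode (α := α) t).map
      (fun a => !(decide (u a ≤ (restr H n).length)) || c a (restr H n))).getD true = true
    cases ht : (Encodable.decode (α := α) t) with
    | none => rfl
    | some a =>
      rw [Option.map_some, Option.getD_some, restr_length]
      by_cases hn : u a ≤ n
      · rw [(h1 a H n hn).2 (hH a), Bool.or_true]
      · simp [hn]
  · intro hH a
    have h3 := hH (max (Encodable.encode a + 1) (u a)) (Encodable.encode a)
      (lt_of_lt_of_le (Nat.lt_succ_self _) (le_max_left _ _))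
    have h4 : u a ≤ max (Encodable.encode a + 1) (u a) := le_max_right _ _
    rw [← h1 a H _ h4]
    change ((Encodable.decode (α := α) (Encodable.encode a)).map
      (fun a' => !(decide (u a' ≤ (restr H (max (Encodable.encode a + 1) (u a))).length)) ||
        c a' (restr H (max (Encodable.encode a + 1) (u a))))).getD true = true at h3
    rw [Encodable.encodek, Option.map_some, Option.getD_some, restr_length] at h3
    simpa [h4] using h3

end FC

theorem hd_class (ar : List ℕ) : ∃ f : List Bool → Bool, Primrec f ∧ ∀ H, HD ar H ↔ ∀ n, f (restr H n) = true := by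
  have hbb : ∀ x y : Bool, x = y ↔ (x = true ↔ y = true) := by
    intro x y
    cases x <;> cases y <;> simp
  have hnb : ∀ x y : Bool, (x = !y) ↔ (x = true ↔ ¬ y = true) := by
    intro x y
    cases x <;> cases y <;> simp
  have hab : ∀ x y z : Bool, (x = (y && z)) ↔ (x = true ↔ (y = true ∧ z = true)) := by
    intro x y z
    cases x <;> cases y <;> cases z <;> simp
  have h01 : ∀ {α : Type} [Primcodable α] {k l : α → ℕ}, Primrec k → Primrec l →
      FC α (fun a H => eqc H (k a) (l a)) := by
    intro α _ k l hk hl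
    exact FC.ins (Primrec.const _) (Primrec.list_cons.comp hk
      (Primrec.list_cons.comp hl (Primrec.const [])))
  have c1 : Cl (fun H => ∀ x : Fm × List ℕ, (ins H (Fm.neg x.1) x.2 = true ↔
      ¬ ins H x.1 x.2 = true)) :=
    FC.all (FC.iff (FC.ins (Fm.primrec_neg.comp Primrec.fst) Primrec.snd)
      (FC.not (FC.ins Primrec.fst Primrec.snd)))
  have c2 : Cl (fun H => ∀ x : Fm × Fm × List ℕ, (ins H (Fm.and x.1 x.2.1) x.2.2 = true ↔
      (ins H x.1 x.2.2 = true ∧ ins H x.2.1 x.2.2 = true))) :=
    FC.all (FC.iff (FC.ins (Fm.primrec_and.comp Primrec.fst (Primrec.fst.comp Primrec.snd))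
      (Primrec.snd.comp Primrec.snd)) (FC.and (FC.ins Primrec.fst (Primrec.snd.comp Primrec.snd))
      (FC.ins (Primrec.fst.comp Primrec.snd) (Primrec.snd.comp Primrec.snd))))
  have c3 : Cl (fun H => ∀ x : ℕ × Fm × List ℕ, ins H (Fm.ex x.1 x.2.1) x.2.2 = true →
      ins H x.2.1 (upd x.2.2 x.1 (wit x.1 x.2.1 x.2.2)) = true) :=
    FC.all (FC.imp (FC.ins (Fm.primrec_ex.comp Primrec.fst (Primrec.fst.comp Primrec.snd))
      (Primrec.snd.comp Primrec.snd)) (FC.ins (Primrec.fst.comp Primrec.snd)
      (primrec_upd.comp (Primrec.pair (Primrec.snd.comp Primrec.snd)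
        (Primrec.pair Primrec.fst primrec_wit)))))
  have c4 : Cl (fun H => ∀ x : ℕ × Fm × List ℕ × ℕ, ins H x.2.1 (upd x.2.2.1 x.1 x.2.2.2) = true →
      ins H (Fm.ex x.1 x.2.1) x.2.2.1 = true) :=
    FC.all (FC.imp (FC.ins (Primrec.fst.comp Primrec.snd)
      (primrec_upd.comp (Primrec.pair (Primrec.fst.comp (Primrec.snd.comp Primrec.snd))
        (Primrec.pair Primrec.fst (Primrec.snd.comp (Primrec.snd.comp Primrec.snd))))))
      (FC.ins (Fm.primrec_ex.comp Primrec.fst (Primrec.fst.comp Primrec.snd))
      (Primrec.fst.comp (Primrec.snd.comp Primrec.snd))))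
  have c5 : Cl (fun H => ∀ x : ℕ × ℕ × List ℕ, (ins H (Fm.eq x.1 x.2.1) x.2.2 = true ↔
      eqc H (asg x.2.2 x.1) (asg x.2.2 x.2.1))) :=
    FC.all (FC.iff (FC.ins (Fm.primrec_eq.comp Primrec.fst (Primrec.fst.comp Primrec.snd))
      (Primrec.snd.comp Primrec.snd)) (h01
        (primrec_asg.comp (Primrec.snd.comp Primrec.snd) Primrec.fst)
        (primrec_asg.comp (Primrec.snd.comp Primrec.snd) (Primrec.fst.comp Primrec.snd))))
  have c6 : Cl (fun H => ∀ k : ℕ, eqc H k k) := FC.all (h01 Primrec.id Primrec.id)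
  have c7 : Cl (fun H => ∀ x : ℕ × ℕ, eqc H x.1 x.2 → eqc H x.2 x.1) :=
    FC.all (FC.imp (h01 Primrec.fst Primrec.snd) (h01 Primrec.snd Primrec.fst))
  have c8 : Cl (fun H => ∀ x : ℕ × ℕ × ℕ, eqc H x.1 x.2.1 → eqc H x.2.1 x.2.2 →
      eqc H x.1 x.2.2) :=
    FC.all (FC.imp (h01 Primrec.fst (Primrec.fst.comp Primrec.snd))
      (FC.imp (h01 (Primrec.fst.comp Primrec.snd) (Primrec.snd.comp Primrec.snd))
        (h01 Primrec.fst (Primrec.snd.comp Primrec.snd))))
  have hrr : ∀ {α : Type} [Primcodable α] {r : α → ℕ} {l : α → List ℕ}, Primrec r → Primrec l →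
      Primrec (fun a => Fm.rel (r a) (List.range (l a).length)) := by
    intro α _ r l hr hl
    exact Fm.primrec_rel.comp hr (Primrec.list_range.comp (Primrec.list_length.comp hl))
  have c9 : Cl (fun H => ∀ x : ℕ × List ℕ × List ℕ, (ins H (Fm.rel x.1 x.2.1) x.2.2 = true ↔
      ins H (Fm.rel x.1 (List.range x.2.1.length)) (x.2.1.map (asg x.2.2)) = true)) := by
    apply FC.all
    apply FC.iff
    · exact FC.ins (Fm.primrec_rel.comp Primrec.fst (Primrec.fst.comp Primrec.snd))
        (Primrec.snd.comp Primrec.snd)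
    · apply FC.ins (hrr Primrec.fst (Primrec.fst.comp Primrec.snd))
      exact Primrec.list_map (Primrec.fst.comp Primrec.snd)
        (primrec_asg.comp (Primrec.snd.comp (Primrec.snd.comp Primrec.fst)) Primrec.snd)
  have c10 : Cl (fun H => ∀ x : ℕ × List ℕ × List ℕ, x.2.1.length = x.2.2.length →
      (∀ i < x.2.1.length, eqc H (x.2.1.getD i 0) (x.2.2.getD i 0)) →
      (ins H (Fm.rel x.1 (List.range x.2.1.length)) x.2.1 = true ↔
        ins H (Fm.rel x.1 (List.range x.2.2.length)) x.2.2 = true)) := by
    apply FC.all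
    apply FC.imp
    · apply FC.pure
      exact Primrec.eq.comp (Primrec.list_length.comp (Primrec.fst.comp Primrec.snd))
        (Primrec.list_length.comp (Primrec.snd.comp Primrec.snd))
    · apply FC.imp
      · apply FC.ball (b := fun x : ℕ × List ℕ × List ℕ => x.2.1.length)
          (P := fun y H => eqc H (y.1.2.1.getD y.2 0) (y.1.2.2.getD y.2 0))
        · exact Primrec.list_length.comp (Primrec.fst.comp Primrec.snd)
        · apply h01
          · exact (Primrec.list_getD 0).comp (Primrec.fst.comp (Primrec.snd.comp Primrec.fst))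
              Primrec.snd
          · exact (Primrec.list_getD 0).comp (Primrec.snd.comp (Primrec.snd.comp Primrec.fst))
              Primrec.snd
      · apply FC.iff
        · exact FC.ins (hrr Primrec.fst (Primrec.fst.comp Primrec.snd))
            (Primrec.fst.comp Primrec.snd)
        · exact FC.ins (hrr Primrec.fst (Primrec.snd.comp Primrec.snd))
            (Primrec.snd.comp Primrec.snd)
  have c11 : Cl (fun H => ∀ x : ℕ × List ℕ × List ℕ, ins H (Fm.rel x.1 x.2.1) x.2.2 = true →
      ar[x.1]? = some x.2.1.length) := by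
    apply FC.all
    apply FC.imp
    · exact FC.ins (Fm.primrec_rel.comp Primrec.fst (Primrec.fst.comp Primrec.snd))
        (Primrec.snd.comp Primrec.snd)
    · apply FC.pure
      exact Primrec.eq.comp (Primrec.list_getElem?.comp (Primrec.const ar) Primrec.fst)
        (Primrec.option_some.comp (Primrec.list_length.comp (Primrec.fst.comp Primrec.snd)))
  have hall := (c1.and (c2.and (c3.and (c4.and (c5.and (c6.and (c7.and (c8.and (c9.and
    (c10.and c11))))))))))
  refine hall.congr (fun H => ?_)
  constructor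
  · rintro ⟨d1, d2, d3, d4, d5, d6, d7, d8, d9, d10, d11⟩
    exact { neg := fun ψ e => (hnb _ _).2 (d1 (ψ, e))
            and := fun ψ χ e => (hab _ _ _).2 (d2 (ψ, χ, e))
            wit := fun i ψ e => d3 (i, ψ, e)
            ex := fun i ψ e k => d4 (i, ψ, e, k)
            eq := fun i j e => (hbb _ _).2 (d5 (i, j, e))
            refl := d6
            symm := fun k l => d7 (k, l)
            trans := fun k l m => d8 (k, l, m)
            rel := fun r v e => (hbb _ _).2 (d9 (r, v, e))
            congr := fun r l l' h1 h2 => (hbb _ _).2 (d10 (r, l, l') h1 h2)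
            ar := fun r v e => d11 (r, v, e) }
  · intro h
    exact ⟨fun x => (hnb _ _).1 (h.neg x.1 x.2), fun x => (hab _ _ _).1 (h.and x.1 x.2.1 x.2.2),
      fun x => h.wit x.1 x.2.1 x.2.2, fun x => h.ex x.1 x.2.1 x.2.2.1 x.2.2.2,
      fun x => (hbb _ _).1 (h.eq x.1 x.2.1 x.2.2), h.refl, fun x => h.symm x.1 x.2,
      fun x => h.trans x.1 x.2.1 x.2.2, fun x => (hbb _ _).1 (h.rel x.1 x.2.1 x.2.2),
      fun x h1 h2 => (hbb _ _).1 (h.congr x.1 x.2.1 x.2.2 h1 h2), fun x => h.ar x.1 x.2.1 x.2.2⟩

end CB
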