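import Pool.Agent.Work.MP_cb528c_lc.HdDefs

set_option autoImplicit false
set_option linter.all false

/-!
# MP_cb528c_lc, module HdOf: Henkin diagrams of structures

`wc_extend`: given values `m0` for the constants below `K` with the witness condition `WC M m0 K`, define `m k` by strong
recursion (`Nat.strongRec`/well founded): `m k = m0 k` for `k < K`; for `k ≥ K`, if `k = wit i ψ e` for some (unique, `wit_inj`)
`i ψ e` and some `a` satisfies `ψ` under the update of `fun j => m (asg e j)` at `i` (all `asg e j < k`, `asg_lt_wit`), take such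
an `a`; otherwise `m0 k`.
`hd_of_wc`: if `∀ K, WC M m K` then the truth values form a Henkin diagram.
-/

namespace CB

private theorem upd_asg' {α : Type} (m : ℕ → α) (e : List ℕ) (i k : ℕ) :
    (fun j => m (asg (upd e i k) j)) = Function.update (fun j => m (asg e j)) i (m k) := by
  funext j
  rw [asg_upd]
  by_cases h : j = i
  · subst h; simp
  · rw [Function.update_of_ne h, Function.update_of_ne h]

theorem wc_extend {M : Mdl} (m0 : ℕ → M.C) (K : ℕ) (h : WC M m0 K) :
    ∃ m : ℕ → M.C, (∀ k < K, m k = m0 k) ∧ ∀ K', WC M m K' := by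
  classical
  let P : (k : ℕ) → ((j : ℕ) → j < k → M.C) → M.C → Prop := fun k ih a =>
    ∃ i ψ e, k = wit i ψ e ∧
      Sat M (Function.update (fun j => if hj : asg e j < k then ih _ hj else m0 0) i a) ψ
  let F : (k : ℕ) → ((j : ℕ) → j < k → M.C) → M.C := fun k ih =>
    if k < K then m0 k else if hk : ∃ a, P k ih a then hk.choose else m0 k
  let m : ℕ → M.C := fun k => Nat.lt_wfRel.wf.fix F k
  have hm : ∀ k, m k = F k (fun j _ => m j) := fun k => Nat.lt_wfRel.wf.fix_eq F k
  have hlt : ∀ k < K, m k = m0 k := by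
    intro k hk
    rw [hm k]
    exact if_pos hk
  refine ⟨m, hlt, ?_⟩
  intro K' i ψ e _ hs
  by_cases hk : wit i ψ e < K
  · have e1 : (fun j => m (asg e j)) = fun j => m0 (asg e j) := by
      funext j
      exact hlt _ (lt_trans (asg_lt_wit i ψ e j) hk)
    have h2 := h i ψ e hk (by rw [← e1]; exact hs)
    rw [upd_asg'] at h2 ⊢
    rw [e1, hlt _ hk]
    exact h2
  · rw [upd_asg']
    obtain ⟨a, ha⟩ := hs
    have e1 : (fun j => if hj : asg e j < wit i ψ e then m (asg e j) else m0 0) =
        fun j => m (asg e j) := by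
      funext j
      rw [dif_pos (asg_lt_wit i ψ e j)]
    have hP : ∃ a, P (wit i ψ e) (fun j _ => m j) a := by
      refine ⟨a, i, ψ, e, rfl, ?_⟩
      rw [e1]; exact ha
    have hv : m (wit i ψ e) = hP.choose := by
      rw [hm (wit i ψ e)]
      change (if wit i ψ e < K then m0 (wit i ψ e) else
        if hk : ∃ a, P (wit i ψ e) (fun j _ => m j) a then hk.choose else m0 (wit i ψ e)) = _
      rw [if_neg hk, dif_pos hP]
    obtain ⟨i', ψ', e', he, hsat⟩ := hP.choose_spec
    obtain ⟨rfl, rfl, rfl⟩ := wit_inj he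
    rw [e1] at hsat
    rw [hv]
    exact hsat

theorem hd_of_wc {ar : List ℕ} {M : Mdl} (hM : M.Ok ar) (m : ℕ → M.C) (h : ∀ K, WC M m K) :
    ∃ H : ℕ → Bool, HD ar H ∧ ∀ ψ e, ins H ψ e = true ↔ Sat M (fun i => m (asg e i)) ψ := by
  classical
  let H : ℕ → Bool := fun n => decide (Sat M (fun i => m (asg (insDec n).2 i)) (insDec n).1)
  have hH : ∀ ψ e, ins H ψ e = decide (Sat M (fun i => m (asg e i)) ψ) := by
    intro ψ e
    change decide (Sat M (fun i => m (asg (insDec (Encodable.encode (ψ, e))).2 i))
      (insDec (Encodable.encode (ψ, e))).1) = _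
    rw [insDec_encode]
  have hlist : ∀ (v l : List ℕ), v.length = l.length →
      (List.range v.length).map (fun i => m (asg l i)) = l.map m := by
    intro v l hv
    apply List.ext_getElem
    · simp [hv]
    · intro i h1 h2
      have h3 : i < l.length := by simpa using h2
      simp only [List.getElem_map, List.getElem_range]
      unfold asg
      rw [List.getD_eq_getElem?_getD, List.getElem?_eq_getElem h3]
      rfl
  have hrel : ∀ r (v l : List ℕ), v.length = l.length →
      ins H (Fm.rel r (List.range v.length)) l = decide (M.R r (l.map m)) := by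
    intro r v l hv
    rw [hH]
    congr 1
    rw [sat_rel, hlist v l hv]
  have heqc : ∀ k l, eqc H k l ↔ m k = m l := by
    intro k l
    unfold eqc
    rw [hH, decide_eq_true_iff]
    exact Iff.rfl
  refine ⟨H, ?_, fun ψ e => by rw [hH, decide_eq_true_iff]⟩
  refine ⟨?_, ?_, ?_, ?_, ?_, ?_, ?_, ?_, ?_, ?_, ?_⟩
  · intro ψ e
    rw [hH, hH]
    by_cases h1 : Sat M (fun i => m (asg e i)) ψ
    · simp [sat_neg, h1]
    · simp [sat_neg, h1]
  · intro ψ χ e
    rw [hH, hH, hH]
    by_cases h1 : Sat M (fun i => m (asg e i)) ψ <;> by_cases h2 : Sat M (fun i => m (asg e i)) χ <;>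
      simp [sat_and, h1, h2]
  · intro i ψ e h1
    rw [hH, decide_eq_true_iff] at h1 ⊢
    exact h (wit i ψ e + 1) i ψ e (Nat.lt_succ_self _) h1
  · intro i ψ e k h1
    rw [hH, decide_eq_true_iff] at h1 ⊢
    rw [upd_asg'] at h1
    exact ⟨_, h1⟩
  · intro i j e
    rw [hH, hH]
    rfl
  · intro k
    rw [heqc]
  · intro k l h1
    rw [heqc] at h1 ⊢
    exact h1.symm
  · intro k l n h1 h2
    rw [heqc] at h1 h2 ⊢
    exact h1.trans h2
  · intro r v e
    rw [hH, hrel r v _ (by simp)]
    congr 1
    rw [sat_rel, List.map_map]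
    rfl
  · intro r l l' hl hc
    rw [hrel r l l rfl, hrel r l' l' rfl]
    have : l.map m = l'.map m := by
      apply List.ext_getElem
      · simp [hl]
      · intro i h1 h2
        have h3 : i < l.length := by simpa using h1
        have h4 : i < l'.length := by simpa using h2
        have h5 := (heqc _ _).1 (hc i h3)
        rw [List.getD_eq_getElem?_getD, List.getD_eq_getElem?_getD, List.getElem?_eq_getElem h3,
          List.getElem?_eq_getElem h4] at h5
        simpa using h5
    rw [this]
  · intro r v e h1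
    rw [hH, decide_eq_true_iff] at h1
    have := hM r _ h1
    simpa using this

end CB
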