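import Pool.Agent.Work.MP_cb528c_lc.HdMdl
import Pool.Agent.Work.MP_cb528c_lc.HdOf
import Pool.Agent.Work.MP_cb528c_lc.HdClass

set_option autoImplicit false
set_option linter.all false

/-!
# MP_cb528c_lc, module SatPi: satisfiability is Pi_1; compactness

* `sat_iff_hd`: a closed `φ` has a model with relations of arities `ar` iff some Henkin diagram `H` has `ins H φ [] = true`
  (`wc_extend` with `K = 0` or `1` and any `m0`, `hd_of_wc`; conversely `mdl_of_hd`).
* `sat_pi`: `piclass_nonempty` for the class `HD ar H ∧ ins H φ [] = true` (`hd_class`; the additional condition is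
  checked as soon as the list is longer than `encode (φ, [])`).
* `compact`: a set of closed formulas closed under conjunction, each of which is satisfiable, has a model: enumerate
  `TT` (a subset of the countable type `Fm`), `φ_n` = conjunction of the first `n` members (again satisfiable), choose
  Henkin diagrams `H_n` with `ins H_n φ_n [] = true` and use compactness of `ℕ → Bool` (Tychonoff in Mathlib: nested nonempty
  closed sets, or `piclass_konig` applied to a (non computable) `f`: `piclass_konig` holds for arbitrary `f : List Bool → Bool`).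
-/

namespace CB

theorem sat_iff_hd {ar : List ℕ} {φ : Fm} (hφ : φ.Closed) :
    (∃ M : Mdl, M.Ok ar ∧ φ ∈ Th M) ↔ ∃ H, HD ar H ∧ ins H φ [] = true := by
  constructor
  · rintro ⟨M, hM, hφM⟩
    obtain ⟨a⟩ := M.ne
    obtain ⟨m, -, hm⟩ := wc_extend (fun _ => a) 0 (M := M) (by
      intro i ψ e h
      exact absurd h (Nat.not_lt_zero _))
    obtain ⟨H, h1, h2⟩ := hd_of_wc hM m hm
    exact ⟨H, h1, (h2 φ []).2 (hφM.2 _)⟩
  · rintro ⟨H, h1, h2⟩
    obtain ⟨M, m, hM, -, -, h3⟩ := mdl_of_hd h1
    exact ⟨M, hM, (mem_th_iff hφ _).2 ((h3 φ []).2 h2)⟩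

private theorem getD_restr (y : ℕ → Bool) {n j : ℕ} (h : j < n) : (restr y n).getD j false = y j := by
  unfold restr
  rw [List.getD_eq_getElem?_getD, List.getElem?_map, List.getElem?_range h]
  rfl

private theorem take_restr (y : ℕ → Bool) {n m : ℕ} (h : m ≤ n) : (restr y n).take m = restr y m := by
  unfold restr
  rw [← List.map_take, List.take_range, min_eq_left h]

theorem sat_pi (ar : List ℕ) : Pg 1 (fun φ : Fm => φ.Closed ∧ ∃ M : Mdl, M.Ok ar ∧ φ ∈ Th M) := by
  obtain ⟨f, hf, hH⟩ := hd_class ar
  set g : Fm → List Bool → Bool := fun φ l => f l &&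
    (if Encodable.encode (φ, ([] : List ℕ)) < l.length then
      l.getD (Encodable.encode (φ, ([] : List ℕ))) false else true) with hg
  have hgp : Primrec₂ g := by
    have h1 : Primrec (fun x : Fm × List Bool => Encodable.encode (x.1, ([] : List ℕ))) :=
      Primrec.encode.comp (Primrec.fst.pair (Primrec.const []))
    have h2 : Primrec (fun x : Fm × List Bool => x.2.length) :=
      Primrec.list_length.comp Primrec.snd
    have h3 : Primrec (fun x : Fm × List Bool =>
        x.2.getD (Encodable.encode (x.1, ([] : List ℕ))) false) :=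
      (Primrec.list_getD false).comp Primrec.snd h1
    exact Primrec.and.comp (hf.comp Primrec.snd)
      (Primrec.ite (Primrec.nat_lt.comp h1 h2) h3 (Primrec.const true))
  have key : ∀ (φ : Fm) (H : ℕ → Bool), (∀ n, g φ (restr H n) = true) ↔
      HD ar H ∧ ins H φ [] = true := by
    intro φ H
    rw [hH]
    constructor
    · intro h
      refine ⟨fun n => ?_, ?_⟩
      · have := h n
        simp only [hg, Bool.and_eq_true] at this
        exact this.1
      · have := h (Encodable.encode (φ, ([] : List ℕ)) + 1)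
        simp only [hg, Bool.and_eq_true] at this
        have h2 := this.2
        rw [restr_length, if_pos (Nat.lt_succ_self _), getD_restr _ (Nat.lt_succ_self _)] at h2
        exact h2
    · rintro ⟨h1, h2⟩ n
      simp only [hg, Bool.and_eq_true]
      refine ⟨h1 n, ?_⟩
      rw [restr_length]
      by_cases h3 : Encodable.encode (φ, ([] : List ℕ)) < n
      · rw [if_pos h3, getD_restr _ h3]
        exact h2
      · rw [if_neg h3]
  have h1 : Pg 1 (fun φ : Fm => φ.Closed) :=
    Pg.of_primrec Fm.primrec_closed (fun φ => by rw [decide_eq_true_iff]) 1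
  refine (h1.and (piclass_nonempty hgp)).congr fun φ => ?_
  refine and_congr_right fun hφ => ?_
  rw [sat_iff_hd hφ]
  exact exists_congr fun H => key φ H

theorem compact {ar : List ℕ} {T : Set Fm} (h0 : ∀ φ ∈ T, φ.Closed)
    (h1 : ∀ φ ∈ T, ∀ ψ ∈ T, Fm.and φ ψ ∈ T) (h2 : ∀ φ ∈ T, ∃ M : Mdl, M.Ok ar ∧ φ ∈ Th M) :
    ∃ M : Mdl, M.Ok ar ∧ T ⊆ Th M := by
  rcases T.eq_empty_or_nonempty with rfl | hne
  · refine ⟨⟨Unit, ⟨()⟩, fun _ _ => False⟩, fun r l h => absurd h (by exact id), ?_⟩
    exact Set.empty_subset _
  have hcf : Countable Fm := ⟨Fm.equiv, Fm.equiv.injective⟩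
  obtain ⟨u, hu⟩ := (Set.to_countable T).exists_eq_range hne
  have huT : ∀ n, u n ∈ T := fun n => by rw [hu]; exact Set.mem_range_self n
  let φs : ℕ → Fm := fun n => Nat.rec (u 0) (fun n φ => Fm.and φ (u (n + 1))) n
  have hφT : ∀ n, φs n ∈ T := by
    intro n
    induction n with
    | zero => exact huT 0
    | succ n ih => exact h1 _ ih _ (huT (n + 1))
  have hex : ∀ n, ∃ H, HD ar H ∧ ins H (φs n) [] = true := fun n =>
    (sat_iff_hd (h0 _ (hφT n))).1 (h2 _ (hφT n))
  choose H hHD hHφ using hex
  have hHu : ∀ n k, k ≤ n → ins (H n) (u k) [] = true := by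
    intro n
    have h3 : ∀ j, ins (H n) (φs j) [] = true → ∀ k ≤ j, ins (H n) (u k) [] = true := by
      intro j
      induction j with
      | zero =>
        intro h k hk
        rw [Nat.le_zero.1 hk]
        exact h
      | succ j ih =>
        intro h k hk
        have h4 : ins (H n) (Fm.and (φs j) (u (j + 1))) [] = true := h
        rw [(hHD n).and, Bool.and_eq_true] at h4
        rcases Nat.le_succ_iff.1 hk with h5 | h5
        · exact ih h4.1 k h5
        · rw [h5]
          exact h4.2
    exact h3 n (hHφ n)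
  obtain ⟨f, -, hf⟩ := hd_class ar
  set g : List Bool → Bool := fun l => f l && decide (∀ k < l.length,
    Encodable.encode (u k, ([] : List ℕ)) < l.length →
      l.getD (Encodable.encode (u k, ([] : List ℕ))) false = true) with hg
  obtain ⟨y, hy⟩ := (piclass_konig g).2 (by
    intro n
    refine ⟨restr (H n) n, restr_length _ _, fun m hm => ?_⟩
    rw [take_restr _ hm]
    simp only [hg, Bool.and_eq_true, decide_eq_true_iff]
    refine ⟨(hf (H n)).1 (hHD n) m, ?_⟩
    rw [restr_length]
    intro k hk hk2
    rw [getD_restr _ hk2]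
    exact hHu n k (hk.le.trans hm))
  have hy1 : HD ar y := (hf y).2 fun n => by
    have := hy n
    simp only [hg, Bool.and_eq_true] at this
    exact this.1
  have hy2 : ∀ k, ins y (u k) [] = true := by
    intro k
    have := hy (k + Encodable.encode (u k, ([] : List ℕ)) + 1)
    simp only [hg, Bool.and_eq_true, decide_eq_true_iff] at this
    have h3 := this.2 k (by rw [restr_length]; omega) (by rw [restr_length]; omega)
    rw [getD_restr _ (by omega)] at h3
    exact h3
  obtain ⟨M, m, hM, -, -, h3⟩ := mdl_of_hd hy1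
  refine ⟨M, hM, ?_⟩
  intro φ hφ
  have h4 : φ ∈ Set.range u := by rw [← hu]; exact hφ
  obtain ⟨k, rfl⟩ := h4
  exact (mem_th_iff (h0 _ hφ) _).2 ((h3 (u k) []).2 (hy2 k))

end CB
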