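import Pool.Agent.Work.MP_cb528c_lc.CodeSet
import Pool.Agent.Work.MP_cb528c_lc.SatPi

set_option autoImplicit false
set_option linter.all false

/-!
# MP_cb528c_lc, module CondTh: complexity of '`e` decides a complete theory'

Let `sat φ := φ.Closed ∧ ∃ M, M.Ok ar ∧ φ ∈ Th M` (Pi_1 by `sat_pi`).
* `isTh_iff`: `TC e = Th M` for some `M` iff (i) all members of `TC e` satisfy `sat`, (ii) `TC e` is closed under `and`, (iii) for closed `φ`: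
  `φ ∈ TC e` or `Fm.neg φ ∈ TC e`.  (←): `compact`: `TC e ⊆ Th M`; if `φ ∈ Th M`, `φ ∉ TC e` then `Fm.neg φ ∈ TC e ⊆ Th M`, contradiction.
* Pi_2: (i) `∀ φ, φ ∈ TC e → sat φ` (`Pg.imp`), (ii), (iii) `∀ φ, closed → Sigma_1`.
* `fax_iff`: for a complete theory `T = Th M`: `FAx ar T ↔ ∃ φ ∈ T, ∀ ψ ∈ T, ¬ sat (Fm.and φ (Fm.neg ψ))`.
* `sg_fax`: `∃ φ ∈ TC e, ∀ ψ, ψ ∈ TC e → ¬ sat (..)` is Sigma_3.
-/

namespace CB

private theorem neg_th {M : Mdl} {φ : Fm} (h : φ.Closed) : Fm.neg φ ∈ Th M ↔ φ ∉ Th M := by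
  obtain ⟨a⟩ := M.ne
  have h' : (Fm.neg φ).Closed := h
  rw [mem_th_iff h (fun _ => a), mem_th_iff h' (fun _ => a), sat_neg]

private theorem and_closed {φ ψ : Fm} : (Fm.and φ ψ).Closed ↔ φ.Closed ∧ ψ.Closed :=
  List.append_eq_nil_iff

private theorem and_th {M : Mdl} {φ ψ : Fm} : Fm.and φ ψ ∈ Th M ↔ φ ∈ Th M ∧ ψ ∈ Th M := by
  constructor
  · rintro ⟨h1, h2⟩
    exact ⟨⟨(and_closed.1 h1).1, fun s => (h2 s).1⟩, ⟨(and_closed.1 h1).2, fun s => (h2 s).2⟩⟩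
  · rintro ⟨h1, h2⟩
    exact ⟨and_closed.2 ⟨h1.1, h2.1⟩, fun s => ⟨h1.2 s, h2.2 s⟩⟩

private theorem cl_prim : Primrec (fun φ : Fm => decide (Fm.Closed φ)) := Fm.primrec_closed

theorem pg_isTh (ar : List ℕ) : ∃ p : Nat.Partrec.Code → Prop, Pg 2 p ∧
    ∀ e, p e ↔ (TotC e ∧ ∃ M : Mdl, M.Ok ar ∧ TC e = Th M) := by
  have hsat := sat_pi ar
  have h1 : Pg 2 (fun e : Nat.Partrec.Code => ∀ φ : Fm, φ ∈ TC e →
      (φ.Closed ∧ ∃ M : Mdl, M.Ok ar ∧ φ ∈ Th M)) := by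
    refine Pg.all (p := fun (e : Nat.Partrec.Code) (φ : Fm) => φ ∈ TC e →
      (φ.Closed ∧ ∃ M : Mdl, M.Ok ar ∧ φ ∈ Th M)) ?_
    exact Pg.imp (sg_tc.mono (by omega)) ((hsat.comp Primrec.snd).mono (by omega))
  have h2 : Pg 2 (fun e : Nat.Partrec.Code => ∀ x : Fm × Fm, (x.1 ∈ TC e ∧ x.2 ∈ TC e) →
      Fm.and x.1 x.2 ∈ TC e) := by
    refine Pg.all (p := fun (e : Nat.Partrec.Code) (x : Fm × Fm) => (x.1 ∈ TC e ∧ x.2 ∈ TC e) →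
      Fm.and x.1 x.2 ∈ TC e) ?_
    refine Pg.imp (Sg.mono (by omega : 1 ≤ 2) (Sg.and ?_ ?_)) (Pg.of_sg ?_)
    · exact sg_tc.comp (f := fun x : Nat.Partrec.Code × Fm × Fm => (x.1, x.2.1))
        (Primrec.fst.pair (Primrec.fst.comp Primrec.snd))
    · exact sg_tc.comp (f := fun x : Nat.Partrec.Code × Fm × Fm => (x.1, x.2.2))
        (Primrec.fst.pair (Primrec.snd.comp Primrec.snd))
    · exact sg_tc.comp (f := fun x : Nat.Partrec.Code × Fm × Fm => (x.1, Fm.and x.2.1 x.2.2))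
        (Primrec.fst.pair (Fm.primrec_and.comp (Primrec.fst.comp Primrec.snd)
          (Primrec.snd.comp Primrec.snd)))
  have h3 : Pg 2 (fun e : Nat.Partrec.Code => ∀ φ : Fm, φ.Closed → (φ ∈ TC e ∨ Fm.neg φ ∈ TC e)) := by
    refine Pg.all (p := fun (e : Nat.Partrec.Code) (φ : Fm) => φ.Closed →
      (φ ∈ TC e ∨ Fm.neg φ ∈ TC e)) ?_
    refine Pg.imp ?_ (Pg.of_sg (Sg.or sg_tc ?_))
    · exact Sg.of_primrec (cl_prim.comp Primrec.snd) (fun x => by rw [decide_eq_true_iff]) 2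
    · exact sg_tc.comp (f := fun x : Nat.Partrec.Code × Fm => (x.1, Fm.neg x.2))
        (Primrec.fst.pair (Fm.primrec_neg.comp Primrec.snd))
  refine ⟨_, pg_totC.and (h1.and (h2.and h3)), fun e => ?_⟩
  refine and_congr_right fun _ => ?_
  constructor
  · rintro ⟨h1, h2, h3⟩
    obtain ⟨M, hM, hTM⟩ := compact (ar := ar) (T := TC e) (fun φ hφ => (h1 φ hφ).1)
      (fun φ hφ ψ hψ => h2 (φ, ψ) ⟨hφ, hψ⟩) (fun φ hφ => (h1 φ hφ).2)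
    refine ⟨M, hM, Set.Subset.antisymm hTM fun φ hφ => ?_⟩
    rcases h3 φ hφ.1 with h4 | h4
    · exact h4
    · exact absurd hφ ((neg_th hφ.1).1 (hTM h4))
  · rintro ⟨M, hM, hTM⟩
    rw [hTM]
    refine ⟨fun φ hφ => ⟨hφ.1, M, hM, hφ⟩, fun x hx => and_th.2 hx, fun φ hφ => ?_⟩
    rw [neg_th hφ]
    exact em _

theorem fax_iff {ar : List ℕ} {M : Mdl} (hM : M.Ok ar) : FAx ar (Th M) ↔ ∃ φ ∈ Th M, ∀ ψ ∈ Th M,
    ¬ ∃ N : Mdl, N.Ok ar ∧ Fm.and φ (Fm.neg ψ) ∈ Th N := by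
  constructor
  · rintro ⟨φ, hφ, h⟩
    refine ⟨φ, hφ, fun ψ hψ => ?_⟩
    rintro ⟨N, hN, hN2⟩
    rw [and_th] at hN2
    have h1 := h N hN hN2.1
    have h2 := (neg_th hψ.1).1 hN2.2
    rw [h1] at h2
    exact h2 hψ
  · rintro ⟨φ, hφ, h⟩
    refine ⟨φ, hφ, fun N hN hφN => ?_⟩
    have h1 : ∀ ψ ∈ Th M, ψ ∈ Th N := by
      intro ψ hψ
      by_contra h2
      exact h ψ hψ ⟨N, hN, and_th.2 ⟨hφN, (neg_th hψ.1).2 h2⟩⟩
    refine Set.Subset.antisymm (fun ψ hψ => ?_) h1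
    by_contra h2
    have h3 := h1 _ ((neg_th hψ.1).2 h2)
    exact (neg_th hψ.1).1 h3 hψ

theorem sg_fax (ar : List ℕ) : ∃ p : Nat.Partrec.Code → Prop, Sg 3 p ∧
    ∀ e, TotC e → (∃ M : Mdl, M.Ok ar ∧ TC e = Th M) → (p e ↔ FAx ar (TC e)) := by
  have hsat := sat_pi ar
  have h1 : Pg 2 (fun x : Nat.Partrec.Code × Fm => ∀ ψ : Fm, ψ ∈ TC x.1 →
      ¬ ((Fm.and x.2 (Fm.neg ψ)).Closed ∧ ∃ M : Mdl, M.Ok ar ∧ Fm.and x.2 (Fm.neg ψ) ∈ Th M)) := by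
    refine Pg.all (p := fun (x : Nat.Partrec.Code × Fm) (ψ : Fm) => ψ ∈ TC x.1 →
      ¬ ((Fm.and x.2 (Fm.neg ψ)).Closed ∧
        ∃ M : Mdl, M.Ok ar ∧ Fm.and x.2 (Fm.neg ψ) ∈ Th M)) ?_
    refine Pg.imp (Sg.mono (by omega : 1 ≤ 2) ?_) (Pg.of_sg ?_)
    · exact sg_tc.comp (f := fun x : (Nat.Partrec.Code × Fm) × Fm => (x.1.1, x.2))
        ((Primrec.fst.comp Primrec.fst).pair Primrec.snd)
    · exact (hsat.comp (f := fun x : (Nat.Partrec.Code × Fm) × Fm => Fm.and x.1.2 (Fm.neg x.2))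
        (Fm.primrec_and.comp (Primrec.snd.comp Primrec.fst)
          (Fm.primrec_neg.comp Primrec.snd))).not
  have h2 : Sg 3 (fun e : Nat.Partrec.Code => ∃ φ : Fm, φ ∈ TC e ∧ ∀ ψ : Fm, ψ ∈ TC e →
      ¬ ((Fm.and φ (Fm.neg ψ)).Closed ∧ ∃ M : Mdl, M.Ok ar ∧ Fm.and φ (Fm.neg ψ) ∈ Th M)) := by
    refine Pg.ex (p := fun (e : Nat.Partrec.Code) (φ : Fm) => φ ∈ TC e ∧ ∀ ψ : Fm, ψ ∈ TC e →
      ¬ ((Fm.and φ (Fm.neg ψ)).Closed ∧ ∃ M : Mdl, M.Ok ar ∧ Fm.and φ (Fm.neg ψ) ∈ Th M)) ?_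
    exact Pg.and (Pg.of_sg sg_tc) h1
  refine ⟨_, h2, fun e he => ?_⟩
  rintro ⟨M, hM, hTM⟩
  rw [hTM, fax_iff hM]
  refine exists_congr fun φ => and_congr_right fun hφ => forall_congr' fun ψ =>
    forall_congr' fun hψ => not_congr ?_
  constructor
  · rintro ⟨_, N, hN, h3⟩
    exact ⟨N, hN, h3⟩
  · rintro ⟨N, hN, h3⟩
    exact ⟨h3.1, N, hN, h3⟩

end CB
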