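import Pool.Agent.Work.MP_cb528c_lc.Syntax

set_option autoImplicit false
set_option linter.all false

/-!
# MP_cb528c_lc, module Ef: Ehrenfeucht-Fraisse equivalence

`EF M N n S`: duplicator wins the `n` round game from the (partial) map with graph `S`.
-/

namespace CB

/-- duplicator wins the `n`-round game on `M`, `N` from the set of pairs `S` -/
def EF (M N : Mdl) : ℕ → Set (M.C × N.C) → Prop
  | 0, S => (∀ p ∈ S, ∀ q ∈ S, (p.1 = q.1 ↔ p.2 = q.2)) ∧
      ∀ (r : ℕ) (l : List (M.C × N.C)), (∀ p ∈ l, p ∈ S) → (M.R r (l.map Prod.fst) ↔ N.R r (l.map Prod.snd))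
  | n + 1, S => (∀ a, ∃ b, EF M N n (insert (a, b) S)) ∧ (∀ b, ∃ a, EF M N n (insert (a, b) S))

theorem EF.mono {M N : Mdl} {n : ℕ} {S S' : Set (M.C × N.C)} (h : EF M N n S) (hS : S' ⊆ S) : EF M N n S' := by
  induction n generalizing S S' with
  | zero => exact ⟨fun p hp q hq => h.1 p (hS hp) q (hS hq), fun r l hl => h.2 r l fun p hp => hS (hl p hp)⟩
  | succ n ih =>
    refine ⟨fun a => ?_, fun b => ?_⟩
    · obtain ⟨b, hb⟩ := h.1 a
      exact ⟨b, ih hb (Set.insert_subset_insert hS)⟩
    · obtain ⟨a, ha⟩ := h.2 b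
      exact ⟨a, ih ha (Set.insert_subset_insert hS)⟩

theorem EF.pred {M N : Mdl} {n : ℕ} {S : Set (M.C × N.C)} (h : EF M N (n + 1) S) : EF M N n S := by
  obtain ⟨a⟩ := M.ne
  obtain ⟨b, hb⟩ := h.1 a
  exact hb.mono (Set.subset_insert _ _)

theorem EF.le {M N : Mdl} {n m : ℕ} (hnm : n ≤ m) {S : Set (M.C × N.C)} (h : EF M N m S) : EF M N n S := by
  induction hnm with
  | refl => exact h
  | step _ ih => exact ih h.pred

/-- formulas of quantifier rank `≤ n` are preserved -/
theorem EF.sat {M N : Mdl} {n : ℕ} {S : Set (M.C × N.C)} (h : EF M N n S) {φ : Fm} (hq : φ.qr ≤ n)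
    {s : ℕ → M.C} {t : ℕ → N.C} (hs : ∀ i ∈ φ.fv, (s i, t i) ∈ S) : Sat M s φ ↔ Sat N t φ := by
  induction φ generalizing n S s t with
  | rel r v =>
    rw [sat_rel, sat_rel]
    have h0 : EF M N 0 S := h.le (Nat.zero_le n)
    have h1 := h0.2 r (v.map fun i => (s i, t i)) (by
      intro p hp
      obtain ⟨i, hi, rfl⟩ := List.mem_map.1 hp
      exact hs i hi)
    rw [List.map_map, List.map_map] at h1
    exact h1
  | eq i j =>
    rw [sat_eq, sat_eq]
    have h0 : EF M N 0 S := h.le (Nat.zero_le n)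
    exact h0.1 (s i, t i) (hs i (by simp [Fm.fv])) (s j, t j) (hs j (by simp [Fm.fv]))
  | neg φ ih =>
    rw [sat_neg, sat_neg]
    exact not_congr (ih h hq hs)
  | and φ ψ ih1 ih2 =>
    rw [sat_and, sat_and]
    have hq' : max φ.qr ψ.qr ≤ n := hq
    exact and_congr (ih1 h ((le_max_left _ _).trans hq') fun i hi => hs i (by simp [Fm.fv, hi]))
      (ih2 h ((le_max_right _ _).trans hq') fun i hi => hs i (by simp [Fm.fv, hi]))
  | ex i φ ih =>
    have hq' : φ.qr + 1 ≤ n := hq
    obtain ⟨m, rfl⟩ : ∃ m, n = m + 1 := ⟨n - 1, by omega⟩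
    have hq2 : φ.qr ≤ m := by omega
    have key : ∀ a b, EF M N m (insert (a, b) S) →
        (Sat M (Function.update s i a) φ ↔ Sat N (Function.update t i b) φ) := by
      intro a b hab
      refine ih hab hq2 fun j hj => ?_
      by_cases hji : j = i
      · subst hji
        rw [Function.update_self, Function.update_self]
        exact Set.mem_insert _ _
      · rw [Function.update_of_ne hji, Function.update_of_ne hji]
        exact Set.mem_insert_of_mem _ (hs j (by simp [Fm.fv, hj, hji]))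
    rw [sat_ex, sat_ex]
    constructor
    · rintro ⟨a, ha⟩
      obtain ⟨b, hb⟩ := h.1 a
      exact ⟨b, (key a b hb).1 ha⟩
    · rintro ⟨b, hb⟩
      obtain ⟨a, ha⟩ := h.2 b
      exact ⟨a, (key a b ha).2 hb⟩

theorem EF.th {M N : Mdl} {n : ℕ} (h : EF M N n ∅) {φ : Fm} (hq : φ.qr ≤ n) : φ ∈ Th M ↔ φ ∈ Th N := by
  have hs : ∀ (hc : φ.Closed) (s : ℕ → M.C) (t : ℕ → N.C), Sat M s φ ↔ Sat N t φ := by
    intro hc s t
    refine h.sat hq fun i hi => ?_
    rw [show φ.fv = [] from hc] at hi
    simp at hi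
  obtain ⟨a⟩ := M.ne
  obtain ⟨b⟩ := N.ne
  constructor
  · rintro ⟨hc, h1⟩
    exact ⟨hc, fun t => (hs hc (fun _ => a) t).1 (h1 _)⟩
  · rintro ⟨hc, h1⟩
    exact ⟨hc, fun s => (hs hc s (fun _ => b)).2 (h1 _)⟩

theorem EF.symm {M N : Mdl} {n : ℕ} {S : Set (M.C × N.C)} (h : EF M N n S) :
    EF N M n (Prod.swap '' S) := by
  induction n generalizing S with
  | zero =>
    constructor
    · rintro _ ⟨p, hp, rfl⟩ _ ⟨q, hq, rfl⟩
      exact (h.1 p hp q hq).symm
    · intro r l hl
      have h1 := h.2 r (l.map Prod.swap) (by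
        intro p hp
        obtain ⟨q, hq, rfl⟩ := List.mem_map.1 hp
        obtain ⟨q', hq', rfl⟩ := hl q hq
        rw [Prod.swap_swap]
        exact hq')
      rw [List.map_map, List.map_map] at h1
      exact h1.symm
  | succ n ih =>
    constructor
    · intro b
      obtain ⟨a, ha⟩ := h.2 b
      refine ⟨a, ?_⟩
      have := ih ha
      rw [Set.image_insert_eq] at this
      exact this
    · intro a
      obtain ⟨b, hb⟩ := h.1 a
      refine ⟨b, ?_⟩
      have := ih hb
      rw [Set.image_insert_eq] at this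
      exact this

/-- transport along isomorphisms -/
theorem EF.iso {M N M' N' : Mdl} {n : ℕ} (eM : M.C ≃ M'.C) (hM : ∀ r l, M.R r l ↔ M'.R r (l.map eM))
    (eN : N.C ≃ N'.C) (hN : ∀ r l, N.R r l ↔ N'.R r (l.map eN)) {S : Set (M.C × N.C)} (h : EF M N n S) :
    EF M' N' n ((fun p => (eM p.1, eN p.2)) '' S) := by
  induction n generalizing S with
  | zero =>
    constructor
    · rintro _ ⟨p, hp, rfl⟩ _ ⟨q, hq, rfl⟩
      show eM p.1 = eM q.1 ↔ eN p.2 = eN q.2
      rw [eM.injective.eq_iff, eN.injective.eq_iff]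
      exact h.1 p hp q hq
    · intro r l hl
      have h1 := h.2 r (l.map fun p => (eM.symm p.1, eN.symm p.2)) (by
        intro p hp
        obtain ⟨q, hq, rfl⟩ := List.mem_map.1 hp
        obtain ⟨q', hq', rfl⟩ := hl q hq
        simpa using hq')
      rw [hM, hN, List.map_map, List.map_map, List.map_map, List.map_map] at h1
      have e1 : ((eM ∘ Prod.fst) ∘ fun p : M'.C × N'.C => (eM.symm p.1, eN.symm p.2)) = Prod.fst := by
        funext p
        simp
      have e2 : ((eN ∘ Prod.snd) ∘ fun p : M'.C × N'.C => (eM.symm p.1, eN.symm p.2)) = Prod.snd := by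
        funext p
        simp
      rw [e1, e2] at h1
      exact h1
  | succ n ih =>
    constructor
    · intro a
      obtain ⟨b, hb⟩ := h.1 (eM.symm a)
      refine ⟨eN b, ?_⟩
      have := ih hb
      rw [Set.image_insert_eq] at this
      simpa using this
    · intro b
      obtain ⟨a, ha⟩ := h.2 (eN.symm b)
      refine ⟨eM a, ?_⟩
      have := ih ha
      rw [Set.image_insert_eq] at this
      simpa using this

theorem EF.iso_empty {M N M' N' : Mdl} {n : ℕ} (hM : M.Iso M') (hN : N.Iso N') (h : EF M N n ∅) :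
    EF M' N' n ∅ := by
  obtain ⟨eM, hM⟩ := hM
  obtain ⟨eN, hN⟩ := hN
  have := EF.iso eM hM eN hN h
  rwa [Set.image_empty] at this

/-- isomorphic structures have the same theory -/
theorem th_iso {M N : Mdl} (h : M.Iso N) : Th M = Th N := by
  obtain ⟨e, he⟩ := h
  have key : ∀ (φ : Fm) (s : ℕ → M.C), Sat M s φ ↔ Sat N (fun i => e (s i)) φ := by
    intro φ
    induction φ with
    | rel r v =>
      intro s
      rw [sat_rel, sat_rel, he, List.map_map]
      rfl
    | eq i j =>
      intro s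
      rw [sat_eq, sat_eq, e.injective.eq_iff]
    | neg φ ih =>
      intro s
      rw [sat_neg, sat_neg, ih]
    | and φ ψ ih1 ih2 =>
      intro s
      rw [sat_and, sat_and, ih1, ih2]
    | ex i φ ih =>
      intro s
      rw [sat_ex, sat_ex]
      have e1 : ∀ a, (fun j => e (Function.update s i a j)) =
          Function.update (fun j => e (s j)) i (e a) := by
        intro a
        funext j
        by_cases hj : j = i
        · subst hj
          simp
        · simp [Function.update_of_ne hj]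
      constructor
      · rintro ⟨a, ha⟩
        refine ⟨e a, ?_⟩
        rw [← e1]
        exact (ih _).1 ha
      · rintro ⟨b, hb⟩
        refine ⟨e.symm b, (ih _).2 ?_⟩
        rw [e1, e.apply_symm_apply]
        exact hb
  ext φ
  constructor
  · rintro ⟨hc, h1⟩
    refine ⟨hc, fun t => ?_⟩
    have h2 := (key φ (fun i => e.symm (t i))).1 (h1 _)
    simpa using h2
  · rintro ⟨hc, h1⟩
    exact ⟨hc, fun s => (key φ s).2 (h1 _)⟩

/-- back and forth systems give `EF`: if `C n S` is a family of sets of pairs with the back and forth property and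
`C 0 S` implies `EF 0 S` then `C n S` implies `EF n S` -/
theorem EF.of_system {M N : Mdl} (C : ℕ → Set (M.C × N.C) → Prop) (h0 : ∀ S, C 0 S → EF M N 0 S)
    (hf : ∀ n S, C (n + 1) S → ∀ a, ∃ b, C n (insert (a, b) S))
    (hb : ∀ n S, C (n + 1) S → ∀ b, ∃ a, C n (insert (a, b) S)) (n : ℕ) (S : Set (M.C × N.C)) (h : C n S) :
    EF M N n S := by
  induction n generalizing S with
  | zero => exact h0 S h
  | succ n ih =>
    refine ⟨fun a => ?_, fun b => ?_⟩
    · obtain ⟨b, hb'⟩ := hf n S h a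
      exact ⟨b, ih _ hb'⟩
    · obtain ⟨a, ha⟩ := hb n S h b
      exact ⟨a, ih _ ha⟩

end CB
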