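import Pool.Agent.Work.MP_cb528c_lc.Ef

set_option autoImplicit false
set_option linter.all false

/-!
# MP_cb528c_lc: signatures, interpretations (definitions)
-/

namespace CB

/-- a finite signature: the lists of the arities of the relation symbols and of the function symbols -/
structure Sig where
  rel : List ℕ
  fn : List ℕ

/-- rich signatures: a relation or function symbol of arity at least 2, or at least two unary function symbols -/
def Sig.Rich (σ : Sig) : Prop := (∃ n ∈ σ.rel, 2 ≤ n) ∨ (∃ n ∈ σ.fn, 2 ≤ n) ∨ 2 ≤ σ.fn.count 1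

/-- arities of the relational version: function symbols are replaced by their graphs -/
def Sig.ar (σ : Sig) : List ℕ := σ.rel ++ σ.fn.map (· + 1)

/-- the relations for the function symbols are graphs of total functions -/
def IsFun (σ : Sig) (N : Mdl) : Prop :=
  ∀ (f n : ℕ), σ.fn[f]? = some n → ∀ l : List N.C, l.length = n → ∃! y : N.C, N.R (σ.rel.length + f) (l ++ [y])

/-- structures of arities `ar0` are interpreted in structures of arities `ar` with the property `Φ` -/
def Interp (ar0 ar : List ℕ) (Φ : Mdl → Prop) : Prop :=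
  ∃ (Dm : Fm) (tr : Fm → Fm) (Γ : Mdl → Mdl), Dm.Closed ∧ Computable tr ∧ (∀ φ, φ.Closed → (tr φ).Closed) ∧
    (∀ N, N.Ok ar → Dm ∈ Th N → Φ N ∧ (Γ N).Ok ar0 ∧ ∀ φ, φ.Closed → (tr φ ∈ Th N ↔ φ ∈ Th (Γ N))) ∧
    (∀ M, M.Ok ar0 → ∃ N, N.Ok ar ∧ Dm ∈ Th N ∧ Th (Γ N) = Th M) ∧
    ∀ n, ∃ m, ∀ N N', N.Ok ar → N'.Ok ar → Dm ∈ Th N → Dm ∈ Th N' → EF (Γ N) (Γ N') m ∅ → EF N N' n ∅

end CB
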