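import Pool.Agent.Work.MP_cb528c_lc.BaDefs
import Pool.Agent.Work.MP_cb528c_lc.SigDefs

set_option autoImplicit false
set_option linter.all false

/-!
# MP_cb528c_lc: first order logic of a finite signature, Goedel numbers, strongly constructivizable structures,
Lindenbaum algebras (definitions of the final statement)
-/

namespace CB

/-- terms of the signature `σ`, variables are numbered by natural numbers -/
inductive Tm (σ : Sig) : Type
  | var (i : ℕ) : Tm σ
  | app (f : Fin σ.fn.length) (a : Fin (σ.fn.get f) → Tm σ) : Tm σ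

/-- formulas of the signature `σ` -/
inductive Fml (σ : Sig) : Type
  | eq (s t : Tm σ) : Fml σ
  | rel (r : Fin σ.rel.length) (a : Fin (σ.rel.get r) → Tm σ) : Fml σ
  | neg (φ : Fml σ) : Fml σ
  | and (φ ψ : Fml σ) : Fml σ
  | ex (i : ℕ) (φ : Fml σ) : Fml σ

/-- structures of the signature `σ` -/
structure Str (σ : Sig) where
  C : Type
  ne : Nonempty C
  F : (f : Fin σ.fn.length) → (Fin (σ.fn.get f) → C) → C
  R : (r : Fin σ.rel.length) → (Fin (σ.rel.get r) → C) → Prop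

variable {σ : Sig}

/-- the set of the variables of a term -/
def Tm.vars : Tm σ → Set ℕ
  | Tm.var i => {i}
  | Tm.app _ a => {i | ∃ j, i ∈ (a j).vars}

/-- the set of the free variables of a formula -/
def Fml.fv : Fml σ → Set ℕ
  | Fml.eq s t => s.vars ∪ t.vars
  | Fml.rel _ a => {i | ∃ j, i ∈ (a j).vars}
  | Fml.neg φ => φ.fv
  | Fml.and φ ψ => φ.fv ∪ ψ.fv
  | Fml.ex i φ => φ.fv \ {i}

/-- the value of a term under the assignment `s` -/
def Tm.val (A : Str σ) (s : ℕ → A.C) : Tm σ → A.C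
  | Tm.var i => s i
  | Tm.app f a => A.F f (fun j => (a j).val A s)

/-- satisfaction of a formula under the assignment `s` -/
def Fml.Sat (A : Str σ) : (ℕ → A.C) → Fml σ → Prop
  | s, Fml.eq t u => t.val A s = u.val A s
  | s, Fml.rel r a => A.R r (fun j => (a j).val A s)
  | s, Fml.neg φ => ¬ Fml.Sat A s φ
  | s, Fml.and φ ψ => Fml.Sat A s φ ∧ Fml.Sat A s ψ
  | s, Fml.ex i φ => ∃ c : A.C, Fml.Sat A (Function.update s i c) φ

/-- the code of a term -/
def Tm.code : Tm σ → ℕ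
  | Tm.var i => Nat.pair 0 i
  | Tm.app f a => Nat.pair (f + 1) (Encodable.encode (List.ofFn (fun j => (a j).code)))

/-- the code of a formula -/
def Fml.code : Fml σ → ℕ
  | Fml.eq s t => Nat.pair 0 (Nat.pair s.code t.code)
  | Fml.rel r a => Nat.pair 1 (Nat.pair r (Encodable.encode (List.ofFn (fun j => (a j).code))))
  | Fml.neg φ => Nat.pair 2 φ.code
  | Fml.and φ ψ => Nat.pair 3 (Nat.pair φ.code ψ.code)
  | Fml.ex i φ => Nat.pair 4 (Nat.pair i φ.code)

/-- sentences -/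
def Sen (σ : Sig) : Type := {φ : Fml σ // φ.fv = ∅}

/-- the sentence `φ` is true in the structure `A` -/
def Str.Mod (A : Str σ) (φ : Sen σ) : Prop := ∀ s : ℕ → A.C, φ.1.Sat A s

/-- the sentence `∃ x_0, x_0 = x_0` -/
def Sen.tru : Sen σ := ⟨Fml.ex 0 (Fml.eq (Tm.var 0) (Tm.var 0)), by
  simp [Fml.fv, Tm.vars]⟩
def Sen.neg (φ : Sen σ) : Sen σ := ⟨Fml.neg φ.1, φ.2⟩
def Sen.and (φ ψ : Sen σ) : Sen σ := ⟨Fml.and φ.1 ψ.1, by
  have h1 := φ.2
  have h2 := ψ.2
  simp only [Fml.fv, h1, h2, Set.union_empty]⟩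

/-- the Goedel numbering of the sentences: number `n` is given to the sentence with code `n` if there is one, otherwise to
`∃ x_0, x_0 = x_0` -/
noncomputable def godel (σ : Sig) (n : ℕ) : Sen σ :=
  open Classical in if h : ∃ φ : Sen σ, φ.1.code = n then Classical.choose h else Sen.tru

/-- `φ` is a logical consequence of `Γ` -/
def Entails (Γ : Set (Sen σ)) (φ : Sen σ) : Prop := ∀ A : Str σ, (∀ ψ ∈ Γ, A.Mod ψ) → A.Mod φ

/-- the complete theory of `A` is finitely axiomatizable -/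
def Str.FinAx (A : Str σ) : Prop :=
  ∃ Γ : Set (Sen σ), Γ.Finite ∧ (∀ φ ∈ Γ, A.Mod φ) ∧ ∀ φ, A.Mod φ → Entails Γ φ

/-- the elementary diagram of `A`, the elements being named by natural numbers by means of `ι`: `(code φ, l)` belongs to it if
`l` is the list of (the names of) values of the variables `0, .., l.length - 1`, all the free variables of `φ` are among
them, and `φ` is true for these values -/
def Str.Diag (A : Str σ) (ι : A.C → ℕ) (x : ℕ × List ℕ) : Prop :=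
  ∃ (φ : Fml σ) (s : ℕ → A.C), φ.code = x.1 ∧ (∀ i ∈ φ.fv, i < x.2.length) ∧
    x.2 = (List.range x.2.length).map (fun i => ι (s i)) ∧ φ.Sat A s

/-- `A` is strongly constructivizable: it is isomorphic (by `ι`) to a structure on a subset of `ℕ` with decidable elementary
diagram -/
def Str.StrongC (A : Str σ) : Prop := ∃ ι : A.C → ℕ, Function.Injective ι ∧ ComputablePred (A.Diag ι)

/-- the theory of the class of the strongly constructivizable structures whose theory is not finitely axiomatizable -/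
def ThNC (σ : Sig) : Set (Sen σ) := {φ | ∀ A : Str σ, A.StrongC → ¬ A.FinAx → A.Mod φ}

/-- equivalence modulo a theory -/
def eqv (Γ : Set (Sen σ)) : Setoid (Sen σ) where
  r φ ψ := ∀ A : Str σ, (∀ χ ∈ Γ, A.Mod χ) → (A.Mod φ ↔ A.Mod ψ)
  iseqv := ⟨fun _ _ _ => Iff.rfl, fun h A hA => (h A hA).symm, fun h h' A hA => (h A hA).trans (h' A hA)⟩

/-- the Lindenbaum algebra of the theory `Γ` -/
def Lind (Γ : Set (Sen σ)) : Type := Quotient (eqv Γ)

theorem Tm.val_congr (A : Str σ) {s t : ℕ → A.C} (u : Tm σ) (h : ∀ i ∈ u.vars, s i = t i) : u.val A s = u.val A t := by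
  induction u with
  | var i => exact h i rfl
  | app f a ih =>
    unfold Tm.val
    congr 1
    funext j
    exact ih j fun i hi => h i ⟨j, hi⟩

theorem Fml.sat_congr (A : Str σ) (φ : Fml σ) : ∀ {s t : ℕ → A.C}, (∀ i ∈ φ.fv, s i = t i) →
    (φ.Sat A s ↔ φ.Sat A t) := by
  induction φ with
  | eq u v =>
    intro s t h
    unfold Fml.Sat
    rw [Tm.val_congr A u fun i hi => h i (Or.inl hi), Tm.val_congr A v fun i hi => h i (Or.inr hi)]
  | rel r a =>
    intro s t h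
    unfold Fml.Sat
    have : (fun j => (a j).val A s) = fun j => (a j).val A t :=
      funext fun j => Tm.val_congr A (a j) fun i hi => h i ⟨j, hi⟩
    rw [this]
  | neg φ ih => intro s t h; exact not_congr (ih h)
  | and φ ψ ih1 ih2 =>
    intro s t h
    exact and_congr (ih1 fun i hi => h i (Or.inl hi)) (ih2 fun i hi => h i (Or.inr hi))
  | ex i φ ih =>
    intro s t h
    unfold Fml.Sat
    refine exists_congr fun c => ih fun j hj => ?_
    by_cases hji : j = i
    · subst hji; simp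
    · rw [Function.update_of_ne hji, Function.update_of_ne hji]
      exact h j ⟨hj, hji⟩

theorem Str.mod_iff (A : Str σ) (φ : Sen σ) (s : ℕ → A.C) : A.Mod φ ↔ φ.1.Sat A s := by
  refine ⟨fun h => h s, fun h t => (Fml.sat_congr A φ.1 fun i hi => ?_).1 h⟩
  rw [φ.2] at hi
  exact absurd hi (Set.notMem_empty i)

theorem Str.mod_neg (A : Str σ) (φ : Sen σ) : A.Mod φ.neg ↔ ¬ A.Mod φ := by
  obtain ⟨a⟩ := A.ne
  rw [A.mod_iff _ (fun _ => a), A.mod_iff _ (fun _ => a)]
  rfl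

theorem Str.mod_and (A : Str σ) (φ ψ : Sen σ) : A.Mod (φ.and ψ) ↔ A.Mod φ ∧ A.Mod ψ := by
  obtain ⟨a⟩ := A.ne
  rw [A.mod_iff _ (fun _ => a), A.mod_iff _ (fun _ => a), A.mod_iff _ (fun _ => a)]
  rfl

theorem Str.mod_tru (A : Str σ) : A.Mod (Sen.tru : Sen σ) := by
  obtain ⟨a⟩ := A.ne
  exact fun s => ⟨a, rfl⟩

/-- disjunction -/
def Sen.or (φ ψ : Sen σ) : Sen σ := (φ.neg.and ψ.neg).neg

theorem Str.mod_or (A : Str σ) (φ ψ : Sen σ) : A.Mod (φ.or ψ) ↔ A.Mod φ ∨ A.Mod ψ := by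
  unfold Sen.or
  rw [A.mod_neg, A.mod_and, A.mod_neg, A.mod_neg]; tauto

namespace Lind

variable {Γ : Set (Sen σ)}

/-- the class of a sentence -/
def mk (Γ : Set (Sen σ)) (φ : Sen σ) : Lind Γ := Quotient.mk (eqv Γ) φ

/-- the set of the models of `Γ` in which the class of `φ` holds -/
def mods (x : Lind Γ) : Set {A : Str σ // ∀ χ ∈ Γ, A.Mod χ} :=
  Quotient.lift (fun φ : Sen σ => {A : {A : Str σ // ∀ χ ∈ Γ, A.Mod χ} | A.1.Mod φ})
    (fun φ ψ (h : (eqv Γ).r φ ψ) => Set.ext fun A => h A.1 A.2) x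

theorem mods_mk (φ : Sen σ) : mods (mk Γ φ) = {A : {A : Str σ // ∀ χ ∈ Γ, A.Mod χ} | A.1.Mod φ} := rfl

theorem mods_inj : Function.Injective (mods (Γ := Γ)) := by
  rintro ⟨φ⟩ ⟨ψ⟩ h
  refine Quotient.sound (s := eqv Γ) (fun A hA => ?_)
  have := congrArg (fun X => (⟨A, hA⟩ : {A : Str σ // ∀ χ ∈ Γ, A.Mod χ}) ∈ X) h
  exact iff_of_eq this

instance : Max (Lind Γ) := ⟨Quotient.map₂ Sen.or fun a b (h : (eqv Γ).r a b) c d (h' : (eqv Γ).r c d) A hA => by
  rw [A.mod_or, A.mod_or, h A hA, h' A hA]⟩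
instance : Min (Lind Γ) := ⟨Quotient.map₂ Sen.and fun a b (h : (eqv Γ).r a b) c d (h' : (eqv Γ).r c d) A hA => by
  rw [A.mod_and, A.mod_and, h A hA, h' A hA]⟩
instance : Compl (Lind Γ) := ⟨Quotient.map Sen.neg fun a b (h : (eqv Γ).r a b) A hA => by
  rw [A.mod_neg, A.mod_neg, h A hA]⟩
instance : Top (Lind Γ) := ⟨mk Γ Sen.tru⟩
instance : Bot (Lind Γ) := ⟨mk Γ Sen.tru.neg⟩
instance : SDiff (Lind Γ) := ⟨fun x y => x ⊓ yᶜ⟩
instance : HImp (Lind Γ) := ⟨fun x y => y ⊔ xᶜ⟩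
/-- `x ≤ y` iff every model of `Γ` and `x` is a model of `y` -/
instance : LE (Lind Γ) := ⟨fun x y => mods x ⊆ mods y⟩
instance : LT (Lind Γ) := ⟨fun x y => mods x ⊂ mods y⟩

theorem mods_sup (x y : Lind Γ) : mods (x ⊔ y) = mods x ∪ mods y := by
  obtain ⟨φ⟩ := x
  obtain ⟨ψ⟩ := y
  exact Set.ext fun A => A.1.mod_or φ ψ

theorem mods_inf (x y : Lind Γ) : mods (x ⊓ y) = mods x ∩ mods y := by
  obtain ⟨φ⟩ := x
  obtain ⟨ψ⟩ := y
  exact Set.ext fun A => A.1.mod_and φ ψ

theorem mods_compl (x : Lind Γ) : mods xᶜ = (mods x)ᶜ := by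
  obtain ⟨φ⟩ := x
  exact Set.ext fun A => A.1.mod_neg φ

theorem mods_top : mods (⊤ : Lind Γ) = Set.univ := Set.eq_univ_of_forall fun A => A.1.mod_tru

theorem mods_bot : mods (⊥ : Lind Γ) = ∅ := by
  refine Set.eq_empty_of_forall_notMem fun A hA => ?_
  exact (A.1.mod_neg Sen.tru).1 hA A.1.mod_tru

/-- the Lindenbaum algebra is a Boolean algebra -/
noncomputable instance : BooleanAlgebra (Lind Γ) :=
  Function.Injective.booleanAlgebra (mods (Γ := Γ)) mods_inj Iff.rfl Iff.rfl mods_sup mods_inf mods_top mods_bot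
    mods_compl (fun x y => by
      change mods (x ⊓ yᶜ) = _
      rw [mods_inf, mods_compl]; rfl)
    (fun x y => by
      change mods (y ⊔ xᶜ) = _
      rw [mods_sup, mods_compl, himp_eq]; rfl)

theorem mk_sup (φ ψ : Sen σ) : mk Γ φ ⊔ mk Γ ψ = mk Γ (φ.or ψ) := rfl
theorem mk_inf (φ ψ : Sen σ) : mk Γ φ ⊓ mk Γ ψ = mk Γ (φ.and ψ) := rfl
theorem mk_compl (φ : Sen σ) : (mk Γ φ)ᶜ = mk Γ φ.neg := rfl

end Lind

/-- the Lindenbaum algebra of the question -/
abbrev LNC (σ : Sig) : Type := Lind (ThNC σ)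

/-- its Goedel numeration -/
noncomputable def gnum (σ : Sig) (n : ℕ) : LNC σ := Lind.mk (ThNC σ) (godel σ n)

end CB
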