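import Pool.Agent.Work.MP_cb528c_lc.HDec
import Pool.Agent.Work.MP_cb528c_lc.BaApi

set_option autoImplicit false
set_option linter.all false

/-!
# MP_cb528c_lc, module HPts: the relative algebra of a Hanf sentence

Let `a : LA ar F` be the set `{T | b ∈ T}`.  `fb_iic`: `Iic a ≃o FB (traces on {T : Pt ar F | b ∈ T} of the sets of the φ)`.
For such `T = Th M` let `y T : ℕ → Bool`, `y T n = true ↔ θ n ∈ T`.  By `HanfP.pt`, decidability of `T` and `hanf_isolated`,
`y T ∈ CN P` (computable: `θ` computable, `T` decidable).  The map `T ↦ y T` is onto `CN P`: `HanfP.real`, `hanf_dec`, `hanf_isolated`, and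
`F ∈ Th M` by `pt`.  The set of `φ` (closed) is determined by the sets of the `θ i`, `i < R` (`ef` with `n = φ.qr`; non closed `φ`: empty set),
and conversely (`θ i` is a formula).  So `fb_congr` and then `fb_pull` along `T ↦ y T` (surjective).
-/

namespace CB

theorem hanf_iic {ar : List ℕ} {F : Fm} {P : Set (ℕ → Bool)} (h : Hanf ar F P) :
    ∃ a : LA ar F, Nonempty (TA (CN P) ≃o Set.Iic a) := by
  classical
  obtain ⟨b, θ, h⟩ := h
  set u : Fm → Set (Pt ar F) := fun φ => {T : Pt ar F | φ ∈ T.1} with hu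
  let a : FB u := ⟨u b, Det.self u b⟩
  let y : ↥(a : Set (Pt ar F)) → ℕ → Bool := fun T n => decide (θ n ∈ T.1.1)
  have hy : ∀ (T : ↥(a : Set (Pt ar F))) (n : ℕ), θ n ∈ T.1.1 ↔ y T n = true := fun T n =>
    (decide_eq_true_iff).symm
  -- the point of a theory
  have hyC : ∀ T : ↥(a : Set (Pt ar F)), y T ∈ CN P := by
    intro T
    obtain ⟨⟨M, hM, hTM⟩, hF, hdec, hfax⟩ := T.1.2
    have hbT : b ∈ T.1.1 := T.2
    have hyM : ∀ n, θ n ∈ Th M ↔ y T n = true := fun n => by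
      rw [← hTM]
      exact hy T n
    obtain ⟨-, y', hy'P, hy'⟩ := h.pt M hM (hTM ▸ hbT)
    have hyy : y T = y' := by
      funext n
      have h1 := (hyM n).symm.trans (hy' n)
      cases h2 : y T n <;> cases h3 : y' n <;> simp_all
    refine ⟨by rw [hyy]; exact hy'P, ?_, ?_⟩
    · exact hdec.decide.comp h.comp
    · intro n
      by_contra hcon
      apply hfax
      rw [hTM]
      refine (hanf_isolated h hM (hTM ▸ hbT) hyM).2 ⟨n, fun z hz hzn => ?_⟩
      by_contra hne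
      exact hcon ⟨z, hz, hne, hzn⟩
  let f : ↥(a : Set (Pt ar F)) → CN P := fun T => ⟨y T, hyC T⟩
  have hf : Function.Surjective f := by
    rintro ⟨z, hzP, hzc, hzn⟩
    obtain ⟨M, hM, hbM, hθ⟩ := h.real z hzP
    have hF : F ∈ Th M := (h.pt M hM hbM).1
    have hdec := hanf_dec h hM hbM hzc hθ
    have hfax : ¬ FAx ar (Th M) := by
      rw [hanf_isolated h hM hbM hθ]
      rintro ⟨n, hn⟩
      obtain ⟨w, hw, hne, hwn⟩ := hzn n
      exact hne (hn w hw hwn)
    refine ⟨⟨⟨Th M, ⟨M, hM, rfl⟩, hF, hdec, hfax⟩, hbM⟩, Subtype.ext (funext fun n => ?_)⟩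
    change decide (θ n ∈ Th M) = z n
    cases h3 : z n with
    | true => exact decide_eq_true ((hθ n).2 h3)
    | false =>
      refine decide_eq_false fun h4 => ?_
      rw [(hθ n).1 h4] at h3
      exact absurd h3 (by decide)
  obtain ⟨e1⟩ := fb_pull (fun i : ℕ => {y : CN P | y.1 i = true}) f (fun X _ hX => by
    obtain ⟨x, hx⟩ := hX
    obtain ⟨T, hT⟩ := hf x
    exact ⟨T, hT ▸ hx⟩)
  obtain ⟨e3⟩ := fb_iic u a
  have h1 : ∀ i : ℕ, Det (fun φ : Fm => (Subtype.val ⁻¹' (u φ) : Set ↥(a : Set (Pt ar F))))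
      (f ⁻¹' {y : CN P | y.1 i = true}) := by
    intro i
    have e : f ⁻¹' {y : CN P | y.1 i = true} =
        (Subtype.val ⁻¹' (u (θ i)) : Set ↥(a : Set (Pt ar F))) := by
      ext T
      exact (hy T i).symm
    rw [e]
    exact Det.self (fun φ : Fm => (Subtype.val ⁻¹' (u φ) : Set ↥(a : Set (Pt ar F)))) (θ i)
  have h2 : ∀ φ : Fm, Det (fun i : ℕ => f ⁻¹' {y : CN P | y.1 i = true})
      (Subtype.val ⁻¹' (u φ) : Set ↥(a : Set (Pt ar F))) := by
    intro φ
    obtain ⟨R, hR⟩ := h.ef φ.qr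
    refine ⟨Finset.range R, fun T T' hTT => ?_⟩
    obtain ⟨⟨M, hM, hTM⟩, -⟩ := T.1.2
    obtain ⟨⟨N, hN, hTN⟩, -⟩ := T'.1.2
    have hbT : b ∈ T.1.1 := T.2
    have hbT' : b ∈ T'.1.1 := T'.2
    have hef := hR M N hM hN (hTM ▸ hbT) (hTN ▸ hbT') (fun i hi => by
      rw [← hTM, ← hTN, hy T i, hy T' i]
      exact hTT i (Finset.mem_range.2 hi))
    have h5 := hef.th (φ := φ) le_rfl
    rw [← hTM, ← hTN] at h5
    exact h5
  obtain ⟨e2⟩ := fb_congr h1 h2
  exact ⟨a, ⟨(e1.trans e2).trans e3.symm⟩⟩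

end CB
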