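import Pool.Agent.Work.MP_cb528c_lc.GAxDefs

set_option autoImplicit false
set_option linter.all false

/-!
# MP_cb528c_lc, module GAxFo: the axioms are first order

First `AX`, `ASc`, `ANb`, `AMv`, `ANum`, `AL0`, `AL1`, `ADat` of variables are `FO` (choose auxiliary variables which are not
used otherwise, e.g. the lemma for `ASc`: for `i j`, `FO (fun N s => ASc N (s i) (s j))` with an auxiliary variable `i + j + 1`,
use `FO.ex`, `FO.all` and `FO.congr` with `Function.update_of_ne`).  Then each field, and the conjunction of all of them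
(`GAx` is equivalent to the conjunction of its fields).  Quantifiers over `Fin`, `Bool`, `Fin k → Bool`: `FO.forallFin`;
over `r` with `kindF M r`: split into `4, 5, 6, 7` and `∀ i : Fin k`.  Tuples `a : Fin k → N.C`: `FO.tuple` with `v0 = 10`.
-/

namespace CB

namespace GAxFoAux

theorem all_of (i : ℕ) {P : (N : Mdl) → (ℕ → N.C) → N.C → Prop}
    (hP : ∀ N s a, P N (Function.update s i a) a ↔ P N s a) (h : FO (fun N s => P N s (s i))) :
    FO (fun N s => ∀ a, P N s a) := by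
  refine (FO.all i h).congr (fun N s => forall_congr' fun a => ?_)
  rw [Function.update_self]
  exact hP N s a

theorem ex_of (i : ℕ) {P : (N : Mdl) → (ℕ → N.C) → N.C → Prop}
    (hP : ∀ N s a, P N (Function.update s i a) a ↔ P N s a) (h : FO (fun N s => P N s (s i))) :
    FO (fun N s => ∃ a, P N s a) := by
  refine (FO.ex i h).congr (fun N s => exists_congr fun a => ?_)
  rw [Function.update_self]
  exact hP N s a

theorem upd10 {N : Mdl} (s : ℕ → N.C) (j : ℕ) (hj : j < 10) (a : N.C) (i : ℕ) :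
    Function.update s j a (10 + i) = s (10 + i) := Function.update_of_ne (by omega) _ _

theorem ten0 (i : ℕ) : (10 + i = 0) = False := by simp
theorem ten1 (i : ℕ) : (10 + i = 1) = False := eq_false (by omega)
theorem ten2 (i : ℕ) : (10 + i = 2) = False := eq_false (by omega)
theorem ten3 (i : ℕ) : (10 + i = 3) = False := eq_false (by omega)
theorem ten4 (i : ℕ) : (10 + i = 4) = False := eq_false (by omega)
theorem ten5 (i : ℕ) : (10 + i = 5) = False := eq_false (by omega)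

theorem tup_of {k : ℕ} {P : (N : Mdl) → (Fin k → N.C) → Prop}
    (h : FO (fun N s => P N (fun i => s (10 + i)))) : FO (fun N _ => ∀ a, P N a) := by
  refine (FO.tuple 10 k h).congr (fun N s => forall_congr' fun a => ?_)
  have e1 : (fun i : Fin k => (fun j => if hj : 10 ≤ j ∧ j < 10 + k then a ⟨j - 10, by omega⟩ else s j) (10 + (i : ℕ))) = a := by
    funext i
    have hi := i.2
    show (if hj : 10 ≤ 10 + (i : ℕ) ∧ 10 + (i : ℕ) < 10 + k then a ⟨10 + (i : ℕ) - 10, by omega⟩ else s (10 + (i : ℕ))) = a i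
    rw [dif_pos ⟨by omega, by omega⟩]
    congr 1
    exact Fin.ext (by simp)
  rw [e1]

theorem kindF_all {M : Mach} {P : ℕ → Mdl → Prop} (h : ∀ r, FO (fun N _ => P r N)) :
    FO (fun N _ => ∀ r, kindF M r → P r N) := by
  have h1 : FO (fun N _ => ∀ i : Fin M.k, P (12 + (i : ℕ)) N) := FO.forallFin (fun i => h _)
  refine ((h 4).and ((h 5).and ((h 6).and ((h 7).and h1)))).congr (fun N s => ?_)
  constructor
  · rintro ⟨h4, h5, h6, h7, hi⟩ r (h | h | h | h | ⟨i, h⟩)
    · rw [h]; exact h4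
    · rw [h]; exact h5
    · rw [h]; exact h6
    · rw [h]; exact h7
    · rw [h]; exact hi i
  · intro h
    exact ⟨h 4 (Or.inl rfl), h 5 (Or.inr (Or.inl rfl)), h 6 (Or.inr (Or.inr (Or.inl rfl))),
      h 7 (Or.inr (Or.inr (Or.inr (Or.inl rfl)))),
      fun i => h _ (Or.inr (Or.inr (Or.inr (Or.inr ⟨i, rfl⟩))))⟩

theorem kindU_all {M : Mach} {P : ℕ → Mdl → Prop} (h : ∀ r, FO (fun N _ => P r N)) :
    FO (fun N _ => ∀ r, kindU M r → P r N) := by
  have h1 : FO (fun N _ => ∀ i : Fin M.q, P (12 + M.k + (i : ℕ)) N) := FO.forallFin (fun i => h _)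
  refine ((h 8).and ((h 9).and ((h 10).and ((h 11).and h1)))).congr (fun N s => ?_)
  constructor
  · rintro ⟨h4, h5, h6, h7, hi⟩ r (h | h | h | h | ⟨i, h⟩)
    · rw [h]; exact h4
    · rw [h]; exact h5
    · rw [h]; exact h6
    · rw [h]; exact h7
    · rw [h]; exact hi i
  · intro h
    exact ⟨h 8 (Or.inl rfl), h 9 (Or.inr (Or.inl rfl)), h 10 (Or.inr (Or.inr (Or.inl rfl))),
      h 11 (Or.inr (Or.inr (Or.inr (Or.inl rfl)))),
      fun i => h _ (Or.inr (Or.inr (Or.inr (Or.inr ⟨i, rfl⟩))))⟩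

theorem fo_AX (i : ℕ) : FO (fun N s => AX N (s i)) := by
  refine ex_of (i + 1) (P := fun N s y => N.R 2 [s i, y]) (fun N s a => ?_) (FO.rel2 2 i (i + 1))
  rw [Function.update_of_ne (by omega)]

theorem fo_ASc (i j : ℕ) : FO (fun N s => ASc N (s i) (s j)) := by
  refine FO.and (FO.rel2 0 i j) ?_
  refine all_of (i + j + 1) (P := fun N s u => N.R 0 [s i, u] → s j = u ∨ N.R 0 [s j, u])
    (fun N s a => ?_) ?_
  · rw [Function.update_of_ne (by omega), Function.update_of_ne (by omega)]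
  · exact (FO.rel2 0 i _).imp ((FO.eq j _).or (FO.rel2 0 j _))

theorem fo_ANb (i : ℕ) : FO (fun N s => ANb N (s i)) := by
  refine FO.and (fo_AX i) ?_
  refine all_of (i + 1) (P := fun N s f => ¬ N.R 2 [f, s i]) (fun N s a => ?_) (FO.rel2 2 (i + 1) i).not
  rw [Function.update_of_ne (by omega)]

theorem fo_AMv (m : Mv) (i j : ℕ) : FO (fun N s => AMv N m (s i) (s j)) := by
  cases m with
  | down => exact fo_ASc j i
  | stay => exact FO.eq j i
  | up => exact fo_ASc i j

theorem fo_ANum (n i : ℕ) : FO (fun N s => ANum N n (s i)) := by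
  induction n generalizing i with
  | zero => exact FO.rel2 1 i i
  | succ n ih =>
    refine ex_of (i + 1) (P := fun N s z => ASc N z (s i) ∧ ANum N n z) (fun N s a => ?_) ?_
    · rw [Function.update_of_ne (by omega)]
    · exact (fo_ASc (i + 1) i).and (ih (i + 1))

theorem fo_AL0 (i : ℕ) : FO (fun N s => AL0 N (s i)) := by
  refine FO.and (FO.rel2 8 i i) ?_
  refine ex_of (i + 1) (P := fun N s f => N.R 3 [f, s i] ∧ ¬ N.R 8 [f, f]) (fun N s a => ?_) ?_
  · rw [Function.update_of_ne (by omega)]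
  · exact (FO.rel2 3 _ _).and (FO.rel2 8 _ _).not

theorem fo_AL1 (i : ℕ) : FO (fun N s => AL1 N (s i)) := by
  refine FO.and (FO.rel2 9 i i) ?_
  refine ex_of (i + 1) (P := fun N s f => N.R 3 [f, s i] ∧ ¬ N.R 9 [f, f]) (fun N s a => ?_) ?_
  · rw [Function.update_of_ne (by omega)]
  · exact (FO.rel2 3 _ _).and (FO.rel2 9 _ _).not

theorem fo_ADat (M : Mach) (s0 : Fin M.q) (t d : Bool) (n l p r e : ℕ) :
    FO (fun N s => ADat M N s0 t d (fun i => s (10 + i)) (s n) (s l) (s p) (s r) (s e)) := by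
  refine (fo_ANb e).and ((FO.rel2 _ e e).and (((FO.rel2 10 e e).iff (FO.const (t = true))).and
    (((FO.rel2 11 e e).iff (FO.const (d = true))).and (FO.and (FO.forallFin fun i => FO.rel2 _ e _)
    ((FO.rel2 4 e n).and ((FO.rel2 5 e l).and ((FO.rel2 6 e p).and (FO.rel2 7 e r))))))))

theorem fo_s0 (M : Mach) (c0 : M.Cfg) : FO (fun N _ => ∀ x y, N.R 0 [x, y] → ¬ AX N x ∧ ¬ AX N y) := by
  refine all_of 0 (fun N s a => by (first | exact Iff.rfl | simp only [Function.update_apply, ten0, ten1, ten2, ten3, ten4, ten5, ne_eq, Nat.reduceEqDiff, OfNat.ofNat_ne_zero, OfNat.zero_ne_ofNat, one_ne_zero, zero_ne_one, OfNat.ofNat_ne_one, OfNat.one_ne_ofNat, if_false, reduceIte] | simp [Function.update_apply])) ?_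
  refine all_of 1 (fun N s a => by (first | exact Iff.rfl | simp only [Function.update_apply, ten0, ten1, ten2, ten3, ten4, ten5, ne_eq, Nat.reduceEqDiff, OfNat.ofNat_ne_zero, OfNat.zero_ne_ofNat, one_ne_zero, zero_ne_one, OfNat.ofNat_ne_one, OfNat.one_ne_ofNat, if_false, reduceIte] | simp [Function.update_apply])) ?_
  (repeat' (first | exact fo_AX _ | exact fo_ASc _ _ | exact fo_ANb _ | exact fo_AMv _ _ _ | exact fo_ANum _ _ | exact fo_AL0 _ | exact fo_AL1 _ | exact FO.rel2 _ _ _ | exact FO.eq _ _ | exact FO.const _ | exact fo_ADat _ _ _ _ _ _ _ _ _ | refine FO.not ?_ | refine FO.and ?_ ?_ | refine FO.or ?_ ?_ | refine FO.iff ?_ ?_ | refine FO.imp ?_ ?_))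

theorem fo_s1 (M : Mach) (c0 : M.Cfg) : FO (fun N _ => ∀ x y, N.R 1 [x, y] → ¬ AX N x ∧ x = y) := by
  refine all_of 0 (fun N s a => by (first | exact Iff.rfl | simp only [Function.update_apply, ten0, ten1, ten2, ten3, ten4, ten5, ne_eq, Nat.reduceEqDiff, OfNat.ofNat_ne_zero, OfNat.zero_ne_ofNat, one_ne_zero, zero_ne_one, OfNat.ofNat_ne_one, OfNat.one_ne_ofNat, if_false, reduceIte] | simp [Function.update_apply])) ?_
  refine all_of 1 (fun N s a => by (first | exact Iff.rfl | simp only [Function.update_apply, ten0, ten1, ten2, ten3, ten4, ten5, ne_eq, Nat.reduceEqDiff, OfNat.ofNat_ne_zero, OfNat.zero_ne_ofNat, one_ne_zero, zero_ne_one, OfNat.ofNat_ne_one, OfNat.one_ne_ofNat, if_false, reduceIte] | simp [Function.update_apply])) ?_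
  (repeat' (first | exact fo_AX _ | exact fo_ASc _ _ | exact fo_ANb _ | exact fo_AMv _ _ _ | exact fo_ANum _ _ | exact fo_AL0 _ | exact fo_AL1 _ | exact FO.rel2 _ _ _ | exact FO.eq _ _ | exact FO.const _ | exact fo_ADat _ _ _ _ _ _ _ _ _ | refine FO.not ?_ | refine FO.and ?_ ?_ | refine FO.or ?_ ?_ | refine FO.iff ?_ ?_ | refine FO.imp ?_ ?_))

theorem fo_s2 (M : Mach) (c0 : M.Cfg) : FO (fun N _ => ∀ x y, N.R 2 [x, y] → AX N y) := by
  refine all_of 0 (fun N s a => by (first | exact Iff.rfl | simp only [Function.update_apply, ten0, ten1, ten2, ten3, ten4, ten5, ne_eq, Nat.reduceEqDiff, OfNat.ofNat_ne_zero, OfNat.zero_ne_ofNat, one_ne_zero, zero_ne_one, OfNat.ofNat_ne_one, OfNat.one_ne_ofNat, if_false, reduceIte] | simp [Function.update_apply])) ?_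
  refine all_of 1 (fun N s a => by (first | exact Iff.rfl | simp only [Function.update_apply, ten0, ten1, ten2, ten3, ten4, ten5, ne_eq, Nat.reduceEqDiff, OfNat.ofNat_ne_zero, OfNat.zero_ne_ofNat, one_ne_zero, zero_ne_one, OfNat.ofNat_ne_one, OfNat.one_ne_ofNat, if_false, reduceIte] | simp [Function.update_apply])) ?_
  (repeat' (first | exact fo_AX _ | exact fo_ASc _ _ | exact fo_ANb _ | exact fo_AMv _ _ _ | exact fo_ANum _ _ | exact fo_AL0 _ | exact fo_AL1 _ | exact FO.rel2 _ _ _ | exact FO.eq _ _ | exact FO.const _ | exact fo_ADat _ _ _ _ _ _ _ _ _ | refine FO.not ?_ | refine FO.and ?_ ?_ | refine FO.or ?_ ?_ | refine FO.iff ?_ ?_ | refine FO.imp ?_ ?_))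

theorem fo_s3 (M : Mach) (c0 : M.Cfg) : FO (fun N _ => ∀ x y, N.R 3 [x, y] → AX N x ∧ AX N y) := by
  refine all_of 0 (fun N s a => by (first | exact Iff.rfl | simp only [Function.update_apply, ten0, ten1, ten2, ten3, ten4, ten5, ne_eq, Nat.reduceEqDiff, OfNat.ofNat_ne_zero, OfNat.zero_ne_ofNat, one_ne_zero, zero_ne_one, OfNat.ofNat_ne_one, OfNat.one_ne_ofNat, if_false, reduceIte] | simp [Function.update_apply])) ?_
  refine all_of 1 (fun N s a => by (first | exact Iff.rfl | simp only [Function.update_apply, ten0, ten1, ten2, ten3, ten4, ten5, ne_eq, Nat.reduceEqDiff, OfNat.ofNat_ne_zero, OfNat.zero_ne_ofNat, one_ne_zero, zero_ne_one, OfNat.ofNat_ne_one, OfNat.one_ne_ofNat, if_false, reduceIte] | simp [Function.update_apply])) ?_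
  (repeat' (first | exact fo_AX _ | exact fo_ASc _ _ | exact fo_ANb _ | exact fo_AMv _ _ _ | exact fo_ANum _ _ | exact fo_AL0 _ | exact fo_AL1 _ | exact FO.rel2 _ _ _ | exact FO.eq _ _ | exact FO.const _ | exact fo_ADat _ _ _ _ _ _ _ _ _ | refine FO.not ?_ | refine FO.and ?_ ?_ | refine FO.or ?_ ?_ | refine FO.iff ?_ ?_ | refine FO.imp ?_ ?_))

theorem fo_sF (M : Mach) (c0 : M.Cfg) : FO (fun N _ => ∀ r, kindF M r → ∀ x y, N.R r [x, y] → AX N x ∧ ¬ AX N y) := by
  refine kindF_all (fun r => ?_)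
  refine all_of 0 (fun N s a => by (first | exact Iff.rfl | simp only [Function.update_apply, ten0, ten1, ten2, ten3, ten4, ten5, ne_eq, Nat.reduceEqDiff, OfNat.ofNat_ne_zero, OfNat.zero_ne_ofNat, one_ne_zero, zero_ne_one, OfNat.ofNat_ne_one, OfNat.one_ne_ofNat, if_false, reduceIte] | simp [Function.update_apply])) ?_
  refine all_of 1 (fun N s a => by (first | exact Iff.rfl | simp only [Function.update_apply, ten0, ten1, ten2, ten3, ten4, ten5, ne_eq, Nat.reduceEqDiff, OfNat.ofNat_ne_zero, OfNat.zero_ne_ofNat, one_ne_zero, zero_ne_one, OfNat.ofNat_ne_one, OfNat.one_ne_ofNat, if_false, reduceIte] | simp [Function.update_apply])) ?_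
  (repeat' (first | exact fo_AX _ | exact fo_ASc _ _ | exact fo_ANb _ | exact fo_AMv _ _ _ | exact fo_ANum _ _ | exact fo_AL0 _ | exact fo_AL1 _ | exact FO.rel2 _ _ _ | exact FO.eq _ _ | exact FO.const _ | exact fo_ADat _ _ _ _ _ _ _ _ _ | refine FO.not ?_ | refine FO.and ?_ ?_ | refine FO.or ?_ ?_ | refine FO.iff ?_ ?_ | refine FO.imp ?_ ?_))

theorem fo_sU (M : Mach) (c0 : M.Cfg) : FO (fun N _ => ∀ r, kindU M r → ∀ x y, N.R r [x, y] → AX N x ∧ x = y) := by
  refine kindU_all (fun r => ?_)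
  refine all_of 0 (fun N s a => by (first | exact Iff.rfl | simp only [Function.update_apply, ten0, ten1, ten2, ten3, ten4, ten5, ne_eq, Nat.reduceEqDiff, OfNat.ofNat_ne_zero, OfNat.zero_ne_ofNat, one_ne_zero, zero_ne_one, OfNat.ofNat_ne_one, OfNat.one_ne_ofNat, if_false, reduceIte] | simp [Function.update_apply])) ?_
  refine all_of 1 (fun N s a => by (first | exact Iff.rfl | simp only [Function.update_apply, ten0, ten1, ten2, ten3, ten4, ten5, ne_eq, Nat.reduceEqDiff, OfNat.ofNat_ne_zero, OfNat.zero_ne_ofNat, one_ne_zero, zero_ne_one, OfNat.ofNat_ne_one, OfNat.one_ne_ofNat, if_false, reduceIte] | simp [Function.update_apply])) ?_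
  (repeat' (first | exact fo_AX _ | exact fo_ASc _ _ | exact fo_ANb _ | exact fo_AMv _ _ _ | exact fo_ANum _ _ | exact fo_AL0 _ | exact fo_AL1 _ | exact FO.rel2 _ _ _ | exact FO.eq _ _ | exact FO.const _ | exact fo_ADat _ _ _ _ _ _ _ _ _ | refine FO.not ?_ | refine FO.and ?_ ?_ | refine FO.or ?_ ?_ | refine FO.iff ?_ ?_ | refine FO.imp ?_ ?_))

theorem fo_irr (M : Mach) (c0 : M.Cfg) : FO (fun N _ => ∀ x, ¬ N.R 0 [x, x]) := by
  refine all_of 0 (fun N s a => by (first | exact Iff.rfl | simp only [Function.update_apply, ten0, ten1, ten2, ten3, ten4, ten5, ne_eq, Nat.reduceEqDiff, OfNat.ofNat_ne_zero, OfNat.zero_ne_ofNat, one_ne_zero, zero_ne_one, OfNat.ofNat_ne_one, OfNat.one_ne_ofNat, if_false, reduceIte] | simp [Function.update_apply])) ?_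
  (repeat' (first | exact fo_AX _ | exact fo_ASc _ _ | exact fo_ANb _ | exact fo_AMv _ _ _ | exact fo_ANum _ _ | exact fo_AL0 _ | exact fo_AL1 _ | exact FO.rel2 _ _ _ | exact FO.eq _ _ | exact FO.const _ | exact fo_ADat _ _ _ _ _ _ _ _ _ | refine FO.not ?_ | refine FO.and ?_ ?_ | refine FO.or ?_ ?_ | refine FO.iff ?_ ?_ | refine FO.imp ?_ ?_))

theorem fo_tr (M : Mach) (c0 : M.Cfg) : FO (fun N _ => ∀ x y z, N.R 0 [x, y] → N.R 0 [y, z] → N.R 0 [x, z]) := by
  refine all_of 0 (fun N s a => by (first | exact Iff.rfl | simp only [Function.update_apply, ten0, ten1, ten2, ten3, ten4, ten5, ne_eq, Nat.reduceEqDiff, OfNat.ofNat_ne_zero, OfNat.zero_ne_ofNat, one_ne_zero, zero_ne_one, OfNat.ofNat_ne_one, OfNat.one_ne_ofNat, if_false, reduceIte] | simp [Function.update_apply])) ?_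
  refine all_of 1 (fun N s a => by (first | exact Iff.rfl | simp only [Function.update_apply, ten0, ten1, ten2, ten3, ten4, ten5, ne_eq, Nat.reduceEqDiff, OfNat.ofNat_ne_zero, OfNat.zero_ne_ofNat, one_ne_zero, zero_ne_one, OfNat.ofNat_ne_one, OfNat.one_ne_ofNat, if_false, reduceIte] | simp [Function.update_apply])) ?_
  refine all_of 2 (fun N s a => by (first | exact Iff.rfl | simp only [Function.update_apply, ten0, ten1, ten2, ten3, ten4, ten5, ne_eq, Nat.reduceEqDiff, OfNat.ofNat_ne_zero, OfNat.zero_ne_ofNat, one_ne_zero, zero_ne_one, OfNat.ofNat_ne_one, OfNat.one_ne_ofNat, if_false, reduceIte] | simp [Function.update_apply])) ?_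
  (repeat' (first | exact fo_AX _ | exact fo_ASc _ _ | exact fo_ANb _ | exact fo_AMv _ _ _ | exact fo_ANum _ _ | exact fo_AL0 _ | exact fo_AL1 _ | exact FO.rel2 _ _ _ | exact FO.eq _ _ | exact FO.const _ | exact fo_ADat _ _ _ _ _ _ _ _ _ | refine FO.not ?_ | refine FO.and ?_ ?_ | refine FO.or ?_ ?_ | refine FO.iff ?_ ?_ | refine FO.imp ?_ ?_))

theorem fo_tot (M : Mach) (c0 : M.Cfg) : FO (fun N _ => ∀ x y, ¬ AX N x → ¬ AX N y → N.R 0 [x, y] ∨ x = y ∨ N.R 0 [y, x]) := by
  refine all_of 0 (fun N s a => by (first | exact Iff.rfl | simp only [Function.update_apply, ten0, ten1, ten2, ten3, ten4, ten5, ne_eq, Nat.reduceEqDiff, OfNat.ofNat_ne_zero, OfNat.zero_ne_ofNat, one_ne_zero, zero_ne_one, OfNat.ofNat_ne_one, OfNat.one_ne_ofNat, if_false, reduceIte] | simp [Function.update_apply])) ?_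
  refine all_of 1 (fun N s a => by (first | exact Iff.rfl | simp only [Function.update_apply, ten0, ten1, ten2, ten3, ten4, ten5, ne_eq, Nat.reduceEqDiff, OfNat.ofNat_ne_zero, OfNat.zero_ne_ofNat, one_ne_zero, zero_ne_one, OfNat.ofNat_ne_one, OfNat.one_ne_ofNat, if_false, reduceIte] | simp [Function.update_apply])) ?_
  (repeat' (first | exact fo_AX _ | exact fo_ASc _ _ | exact fo_ANb _ | exact fo_AMv _ _ _ | exact fo_ANum _ _ | exact fo_AL0 _ | exact fo_AL1 _ | exact FO.rel2 _ _ _ | exact FO.eq _ _ | exact FO.const _ | exact fo_ADat _ _ _ _ _ _ _ _ _ | refine FO.not ?_ | refine FO.and ?_ ?_ | refine FO.or ?_ ?_ | refine FO.iff ?_ ?_ | refine FO.imp ?_ ?_))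

theorem fo_suc (M : Mach) (c0 : M.Cfg) : FO (fun N _ => ∀ z, ¬ AX N z → ∃ w, ASc N z w) := by
  refine all_of 0 (fun N s a => by (first | exact Iff.rfl | simp only [Function.update_apply, ten0, ten1, ten2, ten3, ten4, ten5, ne_eq, Nat.reduceEqDiff, OfNat.ofNat_ne_zero, OfNat.zero_ne_ofNat, one_ne_zero, zero_ne_one, OfNat.ofNat_ne_one, OfNat.one_ne_ofNat, if_false, reduceIte] | simp [Function.update_apply])) ?_
  refine FO.imp (by (repeat' (first | exact fo_AX _ | exact fo_ASc _ _ | exact fo_ANb _ | exact fo_AMv _ _ _ | exact fo_ANum _ _ | exact fo_AL0 _ | exact fo_AL1 _ | exact FO.rel2 _ _ _ | exact FO.eq _ _ | exact FO.const _ | exact fo_ADat _ _ _ _ _ _ _ _ _ | refine FO.not ?_ | refine FO.and ?_ ?_ | refine FO.or ?_ ?_ | refine FO.iff ?_ ?_ | refine FO.imp ?_ ?_))) ?_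
  refine ex_of 1 (fun N s a => by (first | exact Iff.rfl | simp only [Function.update_apply, ten0, ten1, ten2, ten3, ten4, ten5, ne_eq, Nat.reduceEqDiff, OfNat.ofNat_ne_zero, OfNat.zero_ne_ofNat, one_ne_zero, zero_ne_one, OfNat.ofNat_ne_one, OfNat.one_ne_ofNat, if_false, reduceIte] | simp [Function.update_apply])) ?_
  (repeat' (first | exact fo_AX _ | exact fo_ASc _ _ | exact fo_ANb _ | exact fo_AMv _ _ _ | exact fo_ANum _ _ | exact fo_AL0 _ | exact fo_AL1 _ | exact FO.rel2 _ _ _ | exact FO.eq _ _ | exact FO.const _ | exact fo_ADat _ _ _ _ _ _ _ _ _ | refine FO.not ?_ | refine FO.and ?_ ?_ | refine FO.or ?_ ?_ | refine FO.iff ?_ ?_ | refine FO.imp ?_ ?_))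

theorem fo_prd (M : Mach) (c0 : M.Cfg) : FO (fun N _ => ∀ w, ¬ AX N w → ∃ z, ASc N z w) := by
  refine all_of 0 (fun N s a => by (first | exact Iff.rfl | simp only [Function.update_apply, ten0, ten1, ten2, ten3, ten4, ten5, ne_eq, Nat.reduceEqDiff, OfNat.ofNat_ne_zero, OfNat.zero_ne_ofNat, one_ne_zero, zero_ne_one, OfNat.ofNat_ne_one, OfNat.one_ne_ofNat, if_false, reduceIte] | simp [Function.update_apply])) ?_
  refine FO.imp (by (repeat' (first | exact fo_AX _ | exact fo_ASc _ _ | exact fo_ANb _ | exact fo_AMv _ _ _ | exact fo_ANum _ _ | exact fo_AL0 _ | exact fo_AL1 _ | exact FO.rel2 _ _ _ | exact FO.eq _ _ | exact FO.const _ | exact fo_ADat _ _ _ _ _ _ _ _ _ | refine FO.not ?_ | refine FO.and ?_ ?_ | refine FO.or ?_ ?_ | refine FO.iff ?_ ?_ | refine FO.imp ?_ ?_))) ?_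
  refine ex_of 1 (fun N s a => by (first | exact Iff.rfl | simp only [Function.update_apply, ten0, ten1, ten2, ten3, ten4, ten5, ne_eq, Nat.reduceEqDiff, OfNat.ofNat_ne_zero, OfNat.zero_ne_ofNat, one_ne_zero, zero_ne_one, OfNat.ofNat_ne_one, OfNat.one_ne_ofNat, if_false, reduceIte] | simp [Function.update_apply])) ?_
  (repeat' (first | exact fo_AX _ | exact fo_ASc _ _ | exact fo_ANb _ | exact fo_AMv _ _ _ | exact fo_ANum _ _ | exact fo_AL0 _ | exact fo_AL1 _ | exact FO.rel2 _ _ _ | exact FO.eq _ _ | exact FO.const _ | exact fo_ADat _ _ _ _ _ _ _ _ _ | refine FO.not ?_ | refine FO.and ?_ ?_ | refine FO.or ?_ ?_ | refine FO.iff ?_ ?_ | refine FO.imp ?_ ?_))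

theorem fo_z_ex (M : Mach) (c0 : M.Cfg) : FO (fun N _ => ∃ o, N.R 1 [o, o]) := by
  refine ex_of 0 (fun N s a => by (first | exact Iff.rfl | simp only [Function.update_apply, ten0, ten1, ten2, ten3, ten4, ten5, ne_eq, Nat.reduceEqDiff, OfNat.ofNat_ne_zero, OfNat.zero_ne_ofNat, one_ne_zero, zero_ne_one, OfNat.ofNat_ne_one, OfNat.one_ne_ofNat, if_false, reduceIte] | simp [Function.update_apply])) ?_
  (repeat' (first | exact fo_AX _ | exact fo_ASc _ _ | exact fo_ANb _ | exact fo_AMv _ _ _ | exact fo_ANum _ _ | exact fo_AL0 _ | exact fo_AL1 _ | exact FO.rel2 _ _ _ | exact FO.eq _ _ | exact FO.const _ | exact fo_ADat _ _ _ _ _ _ _ _ _ | refine FO.not ?_ | refine FO.and ?_ ?_ | refine FO.or ?_ ?_ | refine FO.iff ?_ ?_ | refine FO.imp ?_ ?_))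

theorem fo_z_un (M : Mach) (c0 : M.Cfg) : FO (fun N _ => ∀ x y, N.R 1 [x, x] → N.R 1 [y, y] → x = y) := by
  refine all_of 0 (fun N s a => by (first | exact Iff.rfl | simp only [Function.update_apply, ten0, ten1, ten2, ten3, ten4, ten5, ne_eq, Nat.reduceEqDiff, OfNat.ofNat_ne_zero, OfNat.zero_ne_ofNat, one_ne_zero, zero_ne_one, OfNat.ofNat_ne_one, OfNat.one_ne_ofNat, if_false, reduceIte] | simp [Function.update_apply])) ?_
  refine all_of 1 (fun N s a => by (first | exact Iff.rfl | simp only [Function.update_apply, ten0, ten1, ten2, ten3, ten4, ten5, ne_eq, Nat.reduceEqDiff, OfNat.ofNat_ne_zero, OfNat.zero_ne_ofNat, one_ne_zero, zero_ne_one, OfNat.ofNat_ne_one, OfNat.one_ne_ofNat, if_false, reduceIte] | simp [Function.update_apply])) ?_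
  (repeat' (first | exact fo_AX _ | exact fo_ASc _ _ | exact fo_ANb _ | exact fo_AMv _ _ _ | exact fo_ANum _ _ | exact fo_AL0 _ | exact fo_AL1 _ | exact FO.rel2 _ _ _ | exact FO.eq _ _ | exact FO.const _ | exact fo_ADat _ _ _ _ _ _ _ _ _ | refine FO.not ?_ | refine FO.and ?_ ?_ | refine FO.or ?_ ?_ | refine FO.iff ?_ ?_ | refine FO.imp ?_ ?_))

theorem fo_f2 (M : Mach) (c0 : M.Cfg) : FO (fun N _ => ∀ x y z, N.R 2 [x, y] → N.R 2 [x, z] → y = z) := by
  refine all_of 0 (fun N s a => by (first | exact Iff.rfl | simp only [Function.update_apply, ten0, ten1, ten2, ten3, ten4, ten5, ne_eq, Nat.reduceEqDiff, OfNat.ofNat_ne_zero, OfNat.zero_ne_ofNat, one_ne_zero, zero_ne_one, OfNat.ofNat_ne_one, OfNat.one_ne_ofNat, if_false, reduceIte] | simp [Function.update_apply])) ?_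
  refine all_of 1 (fun N s a => by (first | exact Iff.rfl | simp only [Function.update_apply, ten0, ten1, ten2, ten3, ten4, ten5, ne_eq, Nat.reduceEqDiff, OfNat.ofNat_ne_zero, OfNat.zero_ne_ofNat, one_ne_zero, zero_ne_one, OfNat.ofNat_ne_one, OfNat.one_ne_ofNat, if_false, reduceIte] | simp [Function.update_apply])) ?_
  refine all_of 2 (fun N s a => by (first | exact Iff.rfl | simp only [Function.update_apply, ten0, ten1, ten2, ten3, ten4, ten5, ne_eq, Nat.reduceEqDiff, OfNat.ofNat_ne_zero, OfNat.zero_ne_ofNat, one_ne_zero, zero_ne_one, OfNat.ofNat_ne_one, OfNat.one_ne_ofNat, if_false, reduceIte] | simp [Function.update_apply])) ?_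
  (repeat' (first | exact fo_AX _ | exact fo_ASc _ _ | exact fo_ANb _ | exact fo_AMv _ _ _ | exact fo_ANum _ _ | exact fo_AL0 _ | exact fo_AL1 _ | exact FO.rel2 _ _ _ | exact FO.eq _ _ | exact FO.const _ | exact fo_ADat _ _ _ _ _ _ _ _ _ | refine FO.not ?_ | refine FO.and ?_ ?_ | refine FO.or ?_ ?_ | refine FO.iff ?_ ?_ | refine FO.imp ?_ ?_))

theorem fo_i2 (M : Mach) (c0 : M.Cfg) : FO (fun N _ => ∀ x y z, N.R 2 [x, z] → N.R 2 [y, z] → x = y) := by
  refine all_of 0 (fun N s a => by (first | exact Iff.rfl | simp only [Function.update_apply, ten0, ten1, ten2, ten3, ten4, ten5, ne_eq, Nat.reduceEqDiff, OfNat.ofNat_ne_zero, OfNat.zero_ne_ofNat, one_ne_zero, zero_ne_one, OfNat.ofNat_ne_one, OfNat.one_ne_ofNat, if_false, reduceIte] | simp [Function.update_apply])) ?_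
  refine all_of 1 (fun N s a => by (first | exact Iff.rfl | simp only [Function.update_apply, ten0, ten1, ten2, ten3, ten4, ten5, ne_eq, Nat.reduceEqDiff, OfNat.ofNat_ne_zero, OfNat.zero_ne_ofNat, one_ne_zero, zero_ne_one, OfNat.ofNat_ne_one, OfNat.one_ne_ofNat, if_false, reduceIte] | simp [Function.update_apply])) ?_
  refine all_of 2 (fun N s a => by (first | exact Iff.rfl | simp only [Function.update_apply, ten0, ten1, ten2, ten3, ten4, ten5, ne_eq, Nat.reduceEqDiff, OfNat.ofNat_ne_zero, OfNat.zero_ne_ofNat, one_ne_zero, zero_ne_one, OfNat.ofNat_ne_one, OfNat.one_ne_ofNat, if_false, reduceIte] | simp [Function.update_apply])) ?_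
  (repeat' (first | exact fo_AX _ | exact fo_ASc _ _ | exact fo_ANb _ | exact fo_AMv _ _ _ | exact fo_ANum _ _ | exact fo_AL0 _ | exact fo_AL1 _ | exact FO.rel2 _ _ _ | exact FO.eq _ _ | exact FO.const _ | exact fo_ADat _ _ _ _ _ _ _ _ _ | refine FO.not ?_ | refine FO.and ?_ ?_ | refine FO.or ?_ ?_ | refine FO.iff ?_ ?_ | refine FO.imp ?_ ?_))

theorem fo_f3 (M : Mach) (c0 : M.Cfg) : FO (fun N _ => ∀ x y z, N.R 3 [x, y] → N.R 3 [x, z] → y = z) := by
  refine all_of 0 (fun N s a => by (first | exact Iff.rfl | simp only [Function.update_apply, ten0, ten1, ten2, ten3, ten4, ten5, ne_eq, Nat.reduceEqDiff, OfNat.ofNat_ne_zero, OfNat.zero_ne_ofNat, one_ne_zero, zero_ne_one, OfNat.ofNat_ne_one, OfNat.one_ne_ofNat, if_false, reduceIte] | simp [Function.update_apply])) ?_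
  refine all_of 1 (fun N s a => by (first | exact Iff.rfl | simp only [Function.update_apply, ten0, ten1, ten2, ten3, ten4, ten5, ne_eq, Nat.reduceEqDiff, OfNat.ofNat_ne_zero, OfNat.zero_ne_ofNat, one_ne_zero, zero_ne_one, OfNat.ofNat_ne_one, OfNat.one_ne_ofNat, if_false, reduceIte] | simp [Function.update_apply])) ?_
  refine all_of 2 (fun N s a => by (first | exact Iff.rfl | simp only [Function.update_apply, ten0, ten1, ten2, ten3, ten4, ten5, ne_eq, Nat.reduceEqDiff, OfNat.ofNat_ne_zero, OfNat.zero_ne_ofNat, one_ne_zero, zero_ne_one, OfNat.ofNat_ne_one, OfNat.one_ne_ofNat, if_false, reduceIte] | simp [Function.update_apply])) ?_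
  (repeat' (first | exact fo_AX _ | exact fo_ASc _ _ | exact fo_ANb _ | exact fo_AMv _ _ _ | exact fo_ANum _ _ | exact fo_AL0 _ | exact fo_AL1 _ | exact FO.rel2 _ _ _ | exact FO.eq _ _ | exact FO.const _ | exact fo_ADat _ _ _ _ _ _ _ _ _ | refine FO.not ?_ | refine FO.and ?_ ?_ | refine FO.or ?_ ?_ | refine FO.iff ?_ ?_ | refine FO.imp ?_ ?_))

theorem fo_i3 (M : Mach) (c0 : M.Cfg) : FO (fun N _ => ∀ x y z, N.R 3 [x, z] → N.R 3 [y, z] → x = y) := by
  refine all_of 0 (fun N s a => by (first | exact Iff.rfl | simp only [Function.update_apply, ten0, ten1, ten2, ten3, ten4, ten5, ne_eq, Nat.reduceEqDiff, OfNat.ofNat_ne_zero, OfNat.zero_ne_ofNat, one_ne_zero, zero_ne_one, OfNat.ofNat_ne_one, OfNat.one_ne_ofNat, if_false, reduceIte] | simp [Function.update_apply])) ?_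
  refine all_of 1 (fun N s a => by (first | exact Iff.rfl | simp only [Function.update_apply, ten0, ten1, ten2, ten3, ten4, ten5, ne_eq, Nat.reduceEqDiff, OfNat.ofNat_ne_zero, OfNat.zero_ne_ofNat, one_ne_zero, zero_ne_one, OfNat.ofNat_ne_one, OfNat.one_ne_ofNat, if_false, reduceIte] | simp [Function.update_apply])) ?_
  refine all_of 2 (fun N s a => by (first | exact Iff.rfl | simp only [Function.update_apply, ten0, ten1, ten2, ten3, ten4, ten5, ne_eq, Nat.reduceEqDiff, OfNat.ofNat_ne_zero, OfNat.zero_ne_ofNat, one_ne_zero, zero_ne_one, OfNat.ofNat_ne_one, OfNat.one_ne_ofNat, if_false, reduceIte] | simp [Function.update_apply])) ?_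
  (repeat' (first | exact fo_AX _ | exact fo_ASc _ _ | exact fo_ANb _ | exact fo_AMv _ _ _ | exact fo_ANum _ _ | exact fo_AL0 _ | exact fo_AL1 _ | exact FO.rel2 _ _ _ | exact FO.eq _ _ | exact FO.const _ | exact fo_ADat _ _ _ _ _ _ _ _ _ | refine FO.not ?_ | refine FO.and ?_ ?_ | refine FO.or ?_ ?_ | refine FO.iff ?_ ?_ | refine FO.imp ?_ ?_))

theorem fo_t3 (M : Mach) (c0 : M.Cfg) : FO (fun N _ => ∀ x, AX N x → ∃ y, N.R 3 [x, y]) := by
  refine all_of 0 (fun N s a => by (first | exact Iff.rfl | simp only [Function.update_apply, ten0, ten1, ten2, ten3, ten4, ten5, ne_eq, Nat.reduceEqDiff, OfNat.ofNat_ne_zero, OfNat.zero_ne_ofNat, one_ne_zero, zero_ne_one, OfNat.ofNat_ne_one, OfNat.one_ne_ofNat, if_false, reduceIte] | simp [Function.update_apply])) ?_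
  refine FO.imp (by (repeat' (first | exact fo_AX _ | exact fo_ASc _ _ | exact fo_ANb _ | exact fo_AMv _ _ _ | exact fo_ANum _ _ | exact fo_AL0 _ | exact fo_AL1 _ | exact FO.rel2 _ _ _ | exact FO.eq _ _ | exact FO.const _ | exact fo_ADat _ _ _ _ _ _ _ _ _ | refine FO.not ?_ | refine FO.and ?_ ?_ | refine FO.or ?_ ?_ | refine FO.iff ?_ ?_ | refine FO.imp ?_ ?_))) ?_
  refine ex_of 1 (fun N s a => by (first | exact Iff.rfl | simp only [Function.update_apply, ten0, ten1, ten2, ten3, ten4, ten5, ne_eq, Nat.reduceEqDiff, OfNat.ofNat_ne_zero, OfNat.zero_ne_ofNat, one_ne_zero, zero_ne_one, OfNat.ofNat_ne_one, OfNat.one_ne_ofNat, if_false, reduceIte] | simp [Function.update_apply])) ?_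
  (repeat' (first | exact fo_AX _ | exact fo_ASc _ _ | exact fo_ANb _ | exact fo_AMv _ _ _ | exact fo_ANum _ _ | exact fo_AL0 _ | exact fo_AL1 _ | exact FO.rel2 _ _ _ | exact FO.eq _ _ | exact FO.const _ | exact fo_ADat _ _ _ _ _ _ _ _ _ | refine FO.not ?_ | refine FO.and ?_ ?_ | refine FO.or ?_ ?_ | refine FO.iff ?_ ?_ | refine FO.imp ?_ ?_))

theorem fo_r3 (M : Mach) (c0 : M.Cfg) : FO (fun N _ => ∀ y, AX N y → ∃ x, N.R 3 [x, y]) := by
  refine all_of 0 (fun N s a => by (first | exact Iff.rfl | simp only [Function.update_apply, ten0, ten1, ten2, ten3, ten4, ten5, ne_eq, Nat.reduceEqDiff, OfNat.ofNat_ne_zero, OfNat.zero_ne_ofNat, one_ne_zero, zero_ne_one, OfNat.ofNat_ne_one, OfNat.one_ne_ofNat, if_false, reduceIte] | simp [Function.update_apply])) ?_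
  refine FO.imp (by (repeat' (first | exact fo_AX _ | exact fo_ASc _ _ | exact fo_ANb _ | exact fo_AMv _ _ _ | exact fo_ANum _ _ | exact fo_AL0 _ | exact fo_AL1 _ | exact FO.rel2 _ _ _ | exact FO.eq _ _ | exact FO.const _ | exact fo_ADat _ _ _ _ _ _ _ _ _ | refine FO.not ?_ | refine FO.and ?_ ?_ | refine FO.or ?_ ?_ | refine FO.iff ?_ ?_ | refine FO.imp ?_ ?_))) ?_
  refine ex_of 1 (fun N s a => by (first | exact Iff.rfl | simp only [Function.update_apply, ten0, ten1, ten2, ten3, ten4, ten5, ne_eq, Nat.reduceEqDiff, OfNat.ofNat_ne_zero, OfNat.zero_ne_ofNat, one_ne_zero, zero_ne_one, OfNat.ofNat_ne_one, OfNat.one_ne_ofNat, if_false, reduceIte] | simp [Function.update_apply])) ?_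
  (repeat' (first | exact fo_AX _ | exact fo_ASc _ _ | exact fo_ANb _ | exact fo_AMv _ _ _ | exact fo_ANum _ _ | exact fo_AL0 _ | exact fo_AL1 _ | exact FO.rel2 _ _ _ | exact FO.eq _ _ | exact FO.const _ | exact fo_ADat _ _ _ _ _ _ _ _ _ | refine FO.not ?_ | refine FO.and ?_ ?_ | refine FO.or ?_ ?_ | refine FO.iff ?_ ?_ | refine FO.imp ?_ ?_))

theorem fo_fF (M : Mach) (c0 : M.Cfg) : FO (fun N _ => ∀ r, kindF M r → ∀ x y z, N.R r [x, y] → N.R r [x, z] → y = z) := by
  refine kindF_all (fun r => ?_)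
  refine all_of 0 (fun N s a => by (first | exact Iff.rfl | simp only [Function.update_apply, ten0, ten1, ten2, ten3, ten4, ten5, ne_eq, Nat.reduceEqDiff, OfNat.ofNat_ne_zero, OfNat.zero_ne_ofNat, one_ne_zero, zero_ne_one, OfNat.ofNat_ne_one, OfNat.one_ne_ofNat, if_false, reduceIte] | simp [Function.update_apply])) ?_
  refine all_of 1 (fun N s a => by (first | exact Iff.rfl | simp only [Function.update_apply, ten0, ten1, ten2, ten3, ten4, ten5, ne_eq, Nat.reduceEqDiff, OfNat.ofNat_ne_zero, OfNat.zero_ne_ofNat, one_ne_zero, zero_ne_one, OfNat.ofNat_ne_one, OfNat.one_ne_ofNat, if_false, reduceIte] | simp [Function.update_apply])) ?_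
  refine all_of 2 (fun N s a => by (first | exact Iff.rfl | simp only [Function.update_apply, ten0, ten1, ten2, ten3, ten4, ten5, ne_eq, Nat.reduceEqDiff, OfNat.ofNat_ne_zero, OfNat.zero_ne_ofNat, one_ne_zero, zero_ne_one, OfNat.ofNat_ne_one, OfNat.one_ne_ofNat, if_false, reduceIte] | simp [Function.update_apply])) ?_
  (repeat' (first | exact fo_AX _ | exact fo_ASc _ _ | exact fo_ANb _ | exact fo_AMv _ _ _ | exact fo_ANum _ _ | exact fo_AL0 _ | exact fo_AL1 _ | exact FO.rel2 _ _ _ | exact FO.eq _ _ | exact FO.const _ | exact fo_ADat _ _ _ _ _ _ _ _ _ | refine FO.not ?_ | refine FO.and ?_ ?_ | refine FO.or ?_ ?_ | refine FO.iff ?_ ?_ | refine FO.imp ?_ ?_))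

theorem fo_tF (M : Mach) (c0 : M.Cfg) : FO (fun N _ => ∀ r, kindF M r → ∀ x, AX N x → ∃ y, N.R r [x, y]) := by
  refine kindF_all (fun r => ?_)
  refine all_of 0 (fun N s a => by (first | exact Iff.rfl | simp only [Function.update_apply, ten0, ten1, ten2, ten3, ten4, ten5, ne_eq, Nat.reduceEqDiff, OfNat.ofNat_ne_zero, OfNat.zero_ne_ofNat, one_ne_zero, zero_ne_one, OfNat.ofNat_ne_one, OfNat.one_ne_ofNat, if_false, reduceIte] | simp [Function.update_apply])) ?_
  refine FO.imp (by (repeat' (first | exact fo_AX _ | exact fo_ASc _ _ | exact fo_ANb _ | exact fo_AMv _ _ _ | exact fo_ANum _ _ | exact fo_AL0 _ | exact fo_AL1 _ | exact FO.rel2 _ _ _ | exact FO.eq _ _ | exact FO.const _ | exact fo_ADat _ _ _ _ _ _ _ _ _ | refine FO.not ?_ | refine FO.and ?_ ?_ | refine FO.or ?_ ?_ | refine FO.iff ?_ ?_ | refine FO.imp ?_ ?_))) ?_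
  refine ex_of 1 (fun N s a => by (first | exact Iff.rfl | simp only [Function.update_apply, ten0, ten1, ten2, ten3, ten4, ten5, ne_eq, Nat.reduceEqDiff, OfNat.ofNat_ne_zero, OfNat.zero_ne_ofNat, one_ne_zero, zero_ne_one, OfNat.ofNat_ne_one, OfNat.one_ne_ofNat, if_false, reduceIte] | simp [Function.update_apply])) ?_
  (repeat' (first | exact fo_AX _ | exact fo_ASc _ _ | exact fo_ANb _ | exact fo_AMv _ _ _ | exact fo_ANum _ _ | exact fo_AL0 _ | exact fo_AL1 _ | exact FO.rel2 _ _ _ | exact FO.eq _ _ | exact FO.const _ | exact fo_ADat _ _ _ _ _ _ _ _ _ | refine FO.not ?_ | refine FO.and ?_ ?_ | refine FO.or ?_ ?_ | refine FO.iff ?_ ?_ | refine FO.imp ?_ ?_))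

theorem fo_st_ex (M : Mach) (c0 : M.Cfg) : FO (fun N _ => ∀ x, AX N x → ∃ s : Fin M.q, N.R (12 + M.k + s) [x, x]) := by
  refine all_of 0 (fun N s a => by (first | exact Iff.rfl | simp only [Function.update_apply, ten0, ten1, ten2, ten3, ten4, ten5, ne_eq, Nat.reduceEqDiff, OfNat.ofNat_ne_zero, OfNat.zero_ne_ofNat, one_ne_zero, zero_ne_one, OfNat.ofNat_ne_one, OfNat.one_ne_ofNat, if_false, reduceIte] | simp [Function.update_apply])) ?_
  refine FO.imp (by (repeat' (first | exact fo_AX _ | exact fo_ASc _ _ | exact fo_ANb _ | exact fo_AMv _ _ _ | exact fo_ANum _ _ | exact fo_AL0 _ | exact fo_AL1 _ | exact FO.rel2 _ _ _ | exact FO.eq _ _ | exact FO.const _ | exact fo_ADat _ _ _ _ _ _ _ _ _ | refine FO.not ?_ | refine FO.and ?_ ?_ | refine FO.or ?_ ?_ | refine FO.iff ?_ ?_ | refine FO.imp ?_ ?_))) (FO.existsFin fun i => ?_)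
  (repeat' (first | exact fo_AX _ | exact fo_ASc _ _ | exact fo_ANb _ | exact fo_AMv _ _ _ | exact fo_ANum _ _ | exact fo_AL0 _ | exact fo_AL1 _ | exact FO.rel2 _ _ _ | exact FO.eq _ _ | exact FO.const _ | exact fo_ADat _ _ _ _ _ _ _ _ _ | refine FO.not ?_ | refine FO.and ?_ ?_ | refine FO.or ?_ ?_ | refine FO.iff ?_ ?_ | refine FO.imp ?_ ?_))

theorem fo_st_un (M : Mach) (c0 : M.Cfg) : FO (fun N _ => ∀ (s s' : Fin M.q) x, N.R (12 + M.k + s) [x, x] → N.R (12 + M.k + s') [x, x] → s = s') := by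
  refine FO.forallFin fun s0 => FO.forallFin fun s1 => ?_
  refine all_of 0 (fun N s a => by (first | exact Iff.rfl | simp only [Function.update_apply, ten0, ten1, ten2, ten3, ten4, ten5, ne_eq, Nat.reduceEqDiff, OfNat.ofNat_ne_zero, OfNat.zero_ne_ofNat, one_ne_zero, zero_ne_one, OfNat.ofNat_ne_one, OfNat.one_ne_ofNat, if_false, reduceIte] | simp [Function.update_apply])) ?_
  (repeat' (first | exact fo_AX _ | exact fo_ASc _ _ | exact fo_ANb _ | exact fo_AMv _ _ _ | exact fo_ANum _ _ | exact fo_AL0 _ | exact fo_AL1 _ | exact FO.rel2 _ _ _ | exact FO.eq _ _ | exact FO.const _ | exact fo_ADat _ _ _ _ _ _ _ _ _ | refine FO.not ?_ | refine FO.and ?_ ?_ | refine FO.or ?_ ?_ | refine FO.iff ?_ ?_ | refine FO.imp ?_ ?_))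

theorem fo_al_nonneg (M : Mach) (c0 : M.Cfg) : FO (fun N _ => ∀ (i : Fin M.k) o x z, N.R 1 [o, o] → N.R (12 + i) [x, z] → o = z ∨ N.R 0 [o, z]) := by
  refine FO.forallFin fun _ => ?_
  refine all_of 0 (fun N s a => by (first | exact Iff.rfl | simp only [Function.update_apply, ten0, ten1, ten2, ten3, ten4, ten5, ne_eq, Nat.reduceEqDiff, OfNat.ofNat_ne_zero, OfNat.zero_ne_ofNat, one_ne_zero, zero_ne_one, OfNat.ofNat_ne_one, OfNat.one_ne_ofNat, if_false, reduceIte] | simp [Function.update_apply])) ?_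
  refine all_of 1 (fun N s a => by (first | exact Iff.rfl | simp only [Function.update_apply, ten0, ten1, ten2, ten3, ten4, ten5, ne_eq, Nat.reduceEqDiff, OfNat.ofNat_ne_zero, OfNat.zero_ne_ofNat, one_ne_zero, zero_ne_one, OfNat.ofNat_ne_one, OfNat.one_ne_ofNat, if_false, reduceIte] | simp [Function.update_apply])) ?_
  refine all_of 2 (fun N s a => by (first | exact Iff.rfl | simp only [Function.update_apply, ten0, ten1, ten2, ten3, ten4, ten5, ne_eq, Nat.reduceEqDiff, OfNat.ofNat_ne_zero, OfNat.zero_ne_ofNat, one_ne_zero, zero_ne_one, OfNat.ofNat_ne_one, OfNat.one_ne_ofNat, if_false, reduceIte] | simp [Function.update_apply])) ?_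
  (repeat' (first | exact fo_AX _ | exact fo_ASc _ _ | exact fo_ANb _ | exact fo_AMv _ _ _ | exact fo_ANum _ _ | exact fo_AL0 _ | exact fo_AL1 _ | exact FO.rel2 _ _ _ | exact FO.eq _ _ | exact FO.const _ | exact fo_ADat _ _ _ _ _ _ _ _ _ | refine FO.not ?_ | refine FO.and ?_ ?_ | refine FO.or ?_ ?_ | refine FO.iff ?_ ?_ | refine FO.imp ?_ ?_))

theorem fo_dn_sh (M : Mach) (c0 : M.Cfg) : FO (fun N _ => ∀ e f g h, N.R 3 [e, f] → N.R 2 [f, g] → N.R 2 [e, h] → N.R 3 [h, g]) := by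
  refine all_of 0 (fun N s a => by (first | exact Iff.rfl | simp only [Function.update_apply, ten0, ten1, ten2, ten3, ten4, ten5, ne_eq, Nat.reduceEqDiff, OfNat.ofNat_ne_zero, OfNat.zero_ne_ofNat, one_ne_zero, zero_ne_one, OfNat.ofNat_ne_one, OfNat.one_ne_ofNat, if_false, reduceIte] | simp [Function.update_apply])) ?_
  refine all_of 1 (fun N s a => by (first | exact Iff.rfl | simp only [Function.update_apply, ten0, ten1, ten2, ten3, ten4, ten5, ne_eq, Nat.reduceEqDiff, OfNat.ofNat_ne_zero, OfNat.zero_ne_ofNat, one_ne_zero, zero_ne_one, OfNat.ofNat_ne_one, OfNat.one_ne_ofNat, if_false, reduceIte] | simp [Function.update_apply])) ?_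
  refine all_of 2 (fun N s a => by (first | exact Iff.rfl | simp only [Function.update_apply, ten0, ten1, ten2, ten3, ten4, ten5, ne_eq, Nat.reduceEqDiff, OfNat.ofNat_ne_zero, OfNat.zero_ne_ofNat, one_ne_zero, zero_ne_one, OfNat.ofNat_ne_one, OfNat.one_ne_ofNat, if_false, reduceIte] | simp [Function.update_apply])) ?_
  refine all_of 3 (fun N s a => by (first | exact Iff.rfl | simp only [Function.update_apply, ten0, ten1, ten2, ten3, ten4, ten5, ne_eq, Nat.reduceEqDiff, OfNat.ofNat_ne_zero, OfNat.zero_ne_ofNat, one_ne_zero, zero_ne_one, OfNat.ofNat_ne_one, OfNat.one_ne_ofNat, if_false, reduceIte] | simp [Function.update_apply])) ?_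
  (repeat' (first | exact fo_AX _ | exact fo_ASc _ _ | exact fo_ANb _ | exact fo_AMv _ _ _ | exact fo_ANum _ _ | exact fo_AL0 _ | exact fo_AL1 _ | exact FO.rel2 _ _ _ | exact FO.eq _ _ | exact FO.const _ | exact fo_ADat _ _ _ _ _ _ _ _ _ | refine FO.not ?_ | refine FO.and ?_ ?_ | refine FO.or ?_ ?_ | refine FO.iff ?_ ?_ | refine FO.imp ?_ ?_))

theorem fo_step (M : Mach) (c0 : M.Cfg) : FO (fun N _ => ∀ (s : Fin M.q) (b : Fin M.k → Bool) (o e f : N.C), N.R 1 [o, o] → N.R 2 [e, f] → N.R (12 + M.k + s) [e, e] → (∀ i : Fin M.k, (b i = true ↔ ¬ N.R (12 + i) [e, o])) → N.R (12 + M.k + (M.δ s b).1) [f, f] ∧ ∀ (i : Fin M.k) z w, N.R (12 + i) [e, z] → N.R (12 + i) [f, w] → AMv N ((M.δ s b).2 i) z w) := by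
  refine FO.forallFin fun s0 => FO.forallFin fun b => ?_
  refine all_of 0 (fun N s a => by (first | exact Iff.rfl | simp only [Function.update_apply, ten0, ten1, ten2, ten3, ten4, ten5, ne_eq, Nat.reduceEqDiff, OfNat.ofNat_ne_zero, OfNat.zero_ne_ofNat, one_ne_zero, zero_ne_one, OfNat.ofNat_ne_one, OfNat.one_ne_ofNat, if_false, reduceIte] | simp [Function.update_apply])) ?_
  refine all_of 1 (fun N s a => by (first | exact Iff.rfl | simp only [Function.update_apply, ten0, ten1, ten2, ten3, ten4, ten5, ne_eq, Nat.reduceEqDiff, OfNat.ofNat_ne_zero, OfNat.zero_ne_ofNat, one_ne_zero, zero_ne_one, OfNat.ofNat_ne_one, OfNat.one_ne_ofNat, if_false, reduceIte] | simp [Function.update_apply])) ?_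
  refine all_of 2 (fun N s a => by (first | exact Iff.rfl | simp only [Function.update_apply, ten0, ten1, ten2, ten3, ten4, ten5, ne_eq, Nat.reduceEqDiff, OfNat.ofNat_ne_zero, OfNat.zero_ne_ofNat, one_ne_zero, zero_ne_one, OfNat.ofNat_ne_one, OfNat.one_ne_ofNat, if_false, reduceIte] | simp [Function.update_apply])) ?_
  refine FO.imp (by (repeat' (first | exact fo_AX _ | exact fo_ASc _ _ | exact fo_ANb _ | exact fo_AMv _ _ _ | exact fo_ANum _ _ | exact fo_AL0 _ | exact fo_AL1 _ | exact FO.rel2 _ _ _ | exact FO.eq _ _ | exact FO.const _ | exact fo_ADat _ _ _ _ _ _ _ _ _ | refine FO.not ?_ | refine FO.and ?_ ?_ | refine FO.or ?_ ?_ | refine FO.iff ?_ ?_ | refine FO.imp ?_ ?_))) (FO.imp (by (repeat' (first | exact fo_AX _ | exact fo_ASc _ _ | exact fo_ANb _ | exact fo_AMv _ _ _ | exact fo_ANum _ _ | exact fo_AL0 _ | exact fo_AL1 _ | exact FO.rel2 _ _ _ | exact FO.eq _ _ | exact FO.const _ | exact fo_ADat _ _ _ _ _ _ _ _ _ | refine FO.not ?_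 | refine FO.and ?_ ?_ | refine FO.or ?_ ?_ | refine FO.iff ?_ ?_ | refine FO.imp ?_ ?_))) (FO.imp (by (repeat' (first | exact fo_AX _ | exact fo_ASc _ _ | exact fo_ANb _ | exact fo_AMv _ _ _ | exact fo_ANum _ _ | exact fo_AL0 _ | exact fo_AL1 _ | exact FO.rel2 _ _ _ | exact FO.eq _ _ | exact FO.const _ | exact fo_ADat _ _ _ _ _ _ _ _ _ | refine FO.not ?_ | refine FO.and ?_ ?_ | refine FO.or ?_ ?_ | refine FO.iff ?_ ?_ | refine FO.imp ?_ ?_))) (FO.imp
    (FO.forallFin fun i => by (repeat' (first | exact fo_AX _ | exact fo_ASc _ _ | exact fo_ANb _ | exact fo_AMv _ _ _ | exact fo_ANum _ _ | exact fo_AL0 _ | exact fo_AL1 _ | exact FO.rel2 _ _ _ | exact FO.eq _ _ | exact FO.const _ | exact fo_ADat _ _ _ _ _ _ _ _ _ | refine FO.not ?_ | refine FO.and ?_ ?_ | refine FO.or ?_ ?_ | refine FO.iff ?_ ?_ | refine FO.imp ?_ ?_))) (FO.and (by (repeat' (first | exact fo_AX _ | exact fo_ASc _ _ | exact fo_ANb _ | exact fo_AMv _ _ _ | exact fo_ANum _ _ |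 exact fo_AL0 _ | exact fo_AL1 _ | exact FO.rel2 _ _ _ | exact FO.eq _ _ | exact FO.const _ | exact fo_ADat _ _ _ _ _ _ _ _ _ | refine FO.not ?_ | refine FO.and ?_ ?_ | refine FO.or ?_ ?_ | refine FO.iff ?_ ?_ | refine FO.imp ?_ ?_))) (FO.forallFin fun i => ?_)))))
  refine all_of 3 (fun N s a => by (first | exact Iff.rfl | simp only [Function.update_apply, ten0, ten1, ten2, ten3, ten4, ten5, ne_eq, Nat.reduceEqDiff, OfNat.ofNat_ne_zero, OfNat.zero_ne_ofNat, one_ne_zero, zero_ne_one, OfNat.ofNat_ne_one, OfNat.one_ne_ofNat, if_false, reduceIte] | simp [Function.update_apply])) ?_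
  refine all_of 4 (fun N s a => by (first | exact Iff.rfl | simp only [Function.update_apply, ten0, ten1, ten2, ten3, ten4, ten5, ne_eq, Nat.reduceEqDiff, OfNat.ofNat_ne_zero, OfNat.zero_ne_ofNat, one_ne_zero, zero_ne_one, OfNat.ofNat_ne_one, OfNat.one_ne_ofNat, if_false, reduceIte] | simp [Function.update_apply])) ?_
  (repeat' (first | exact fo_AX _ | exact fo_ASc _ _ | exact fo_ANb _ | exact fo_AMv _ _ _ | exact fo_ANum _ _ | exact fo_AL0 _ | exact fo_AL1 _ | exact FO.rel2 _ _ _ | exact FO.eq _ _ | exact FO.const _ | exact fo_ADat _ _ _ _ _ _ _ _ _ | refine FO.not ?_ | refine FO.and ?_ ?_ | refine FO.or ?_ ?_ | refine FO.iff ?_ ?_ | refine FO.imp ?_ ?_))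

theorem fo_st_sh (M : Mach) (c0 : M.Cfg) : FO (fun N _ => ∀ (s : Fin M.q) e f, N.R 3 [e, f] → N.R (12 + M.k + s) [e, e] → N.R (12 + M.k + s) [f, f]) := by
  refine FO.forallFin fun _ => ?_
  refine all_of 0 (fun N s a => by (first | exact Iff.rfl | simp only [Function.update_apply, ten0, ten1, ten2, ten3, ten4, ten5, ne_eq, Nat.reduceEqDiff, OfNat.ofNat_ne_zero, OfNat.zero_ne_ofNat, one_ne_zero, zero_ne_one, OfNat.ofNat_ne_one, OfNat.one_ne_ofNat, if_false, reduceIte] | simp [Function.update_apply])) ?_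
  refine all_of 1 (fun N s a => by (first | exact Iff.rfl | simp only [Function.update_apply, ten0, ten1, ten2, ten3, ten4, ten5, ne_eq, Nat.reduceEqDiff, OfNat.ofNat_ne_zero, OfNat.zero_ne_ofNat, one_ne_zero, zero_ne_one, OfNat.ofNat_ne_one, OfNat.one_ne_ofNat, if_false, reduceIte] | simp [Function.update_apply])) ?_
  (repeat' (first | exact fo_AX _ | exact fo_ASc _ _ | exact fo_ANb _ | exact fo_AMv _ _ _ | exact fo_ANum _ _ | exact fo_AL0 _ | exact fo_AL1 _ | exact FO.rel2 _ _ _ | exact FO.eq _ _ | exact FO.const _ | exact fo_ADat _ _ _ _ _ _ _ _ _ | refine FO.not ?_ | refine FO.and ?_ ?_ | refine FO.or ?_ ?_ | refine FO.iff ?_ ?_ | refine FO.imp ?_ ?_))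

theorem fo_al_sh (M : Mach) (c0 : M.Cfg) : FO (fun N _ => ∀ (i : Fin M.k) e f z, N.R 3 [e, f] → N.R (12 + i) [e, z] → N.R (12 + i) [f, z]) := by
  refine FO.forallFin fun _ => ?_
  refine all_of 0 (fun N s a => by (first | exact Iff.rfl | simp only [Function.update_apply, ten0, ten1, ten2, ten3, ten4, ten5, ne_eq, Nat.reduceEqDiff, OfNat.ofNat_ne_zero, OfNat.zero_ne_ofNat, one_ne_zero, zero_ne_one, OfNat.ofNat_ne_one, OfNat.one_ne_ofNat, if_false, reduceIte] | simp [Function.update_apply])) ?_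
  refine all_of 1 (fun N s a => by (first | exact Iff.rfl | simp only [Function.update_apply, ten0, ten1, ten2, ten3, ten4, ten5, ne_eq, Nat.reduceEqDiff, OfNat.ofNat_ne_zero, OfNat.zero_ne_ofNat, one_ne_zero, zero_ne_one, OfNat.ofNat_ne_one, OfNat.one_ne_ofNat, if_false, reduceIte] | simp [Function.update_apply])) ?_
  refine all_of 2 (fun N s a => by (first | exact Iff.rfl | simp only [Function.update_apply, ten0, ten1, ten2, ten3, ten4, ten5, ne_eq, Nat.reduceEqDiff, OfNat.ofNat_ne_zero, OfNat.zero_ne_ofNat, one_ne_zero, zero_ne_one, OfNat.ofNat_ne_one, OfNat.one_ne_ofNat, if_false, reduceIte] | simp [Function.update_apply])) ?_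
  (repeat' (first | exact fo_AX _ | exact fo_ASc _ _ | exact fo_ANb _ | exact fo_AMv _ _ _ | exact fo_ANum _ _ | exact fo_AL0 _ | exact fo_AL1 _ | exact FO.rel2 _ _ _ | exact FO.eq _ _ | exact FO.const _ | exact fo_ADat _ _ _ _ _ _ _ _ _ | refine FO.not ?_ | refine FO.and ?_ ?_ | refine FO.or ?_ ?_ | refine FO.iff ?_ ?_ | refine FO.imp ?_ ?_))

theorem fo_nu_dn (M : Mach) (c0 : M.Cfg) : FO (fun N _ => ∀ e f z, N.R 2 [e, f] → N.R 4 [e, z] → N.R 4 [f, z]) := by
  refine all_of 0 (fun N s a => by (first | exact Iff.rfl | simp only [Function.update_apply, ten0, ten1, ten2, ten3, ten4, ten5, ne_eq, Nat.reduceEqDiff, OfNat.ofNat_ne_zero, OfNat.zero_ne_ofNat, one_ne_zero, zero_ne_one, OfNat.ofNat_ne_one, OfNat.one_ne_ofNat, if_false, reduceIte] | simp [Function.update_apply])) ?_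
  refine all_of 1 (fun N s a => by (first | exact Iff.rfl | simp only [Function.update_apply, ten0, ten1, ten2, ten3, ten4, ten5, ne_eq, Nat.reduceEqDiff, OfNat.ofNat_ne_zero, OfNat.zero_ne_ofNat, one_ne_zero, zero_ne_one, OfNat.ofNat_ne_one, OfNat.one_ne_ofNat, if_false, reduceIte] | simp [Function.update_apply])) ?_
  refine all_of 2 (fun N s a => by (first | exact Iff.rfl | simp only [Function.update_apply, ten0, ten1, ten2, ten3, ten4, ten5, ne_eq, Nat.reduceEqDiff, OfNat.ofNat_ne_zero, OfNat.zero_ne_ofNat, one_ne_zero, zero_ne_one, OfNat.ofNat_ne_one, OfNat.one_ne_ofNat, if_false, reduceIte] | simp [Function.update_apply])) ?_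
  (repeat' (first | exact fo_AX _ | exact fo_ASc _ _ | exact fo_ANb _ | exact fo_AMv _ _ _ | exact fo_ANum _ _ | exact fo_AL0 _ | exact fo_AL1 _ | exact FO.rel2 _ _ _ | exact FO.eq _ _ | exact FO.const _ | exact fo_ADat _ _ _ _ _ _ _ _ _ | refine FO.not ?_ | refine FO.and ?_ ?_ | refine FO.or ?_ ?_ | refine FO.iff ?_ ?_ | refine FO.imp ?_ ?_))

theorem fo_nu_sh (M : Mach) (c0 : M.Cfg) : FO (fun N _ => ∀ e f z w, N.R 3 [e, f] → N.R 4 [e, z] → N.R 4 [f, w] → ASc N z w) := by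
  refine all_of 0 (fun N s a => by (first | exact Iff.rfl | simp only [Function.update_apply, ten0, ten1, ten2, ten3, ten4, ten5, ne_eq, Nat.reduceEqDiff, OfNat.ofNat_ne_zero, OfNat.zero_ne_ofNat, one_ne_zero, zero_ne_one, OfNat.ofNat_ne_one, OfNat.one_ne_ofNat, if_false, reduceIte] | simp [Function.update_apply])) ?_
  refine all_of 1 (fun N s a => by (first | exact Iff.rfl | simp only [Function.update_apply, ten0, ten1, ten2, ten3, ten4, ten5, ne_eq, Nat.reduceEqDiff, OfNat.ofNat_ne_zero, OfNat.zero_ne_ofNat, one_ne_zero, zero_ne_one, OfNat.ofNat_ne_one, OfNat.one_ne_ofNat, if_false, reduceIte] | simp [Function.update_apply])) ?_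
  refine all_of 2 (fun N s a => by (first | exact Iff.rfl | simp only [Function.update_apply, ten0, ten1, ten2, ten3, ten4, ten5, ne_eq, Nat.reduceEqDiff, OfNat.ofNat_ne_zero, OfNat.zero_ne_ofNat, one_ne_zero, zero_ne_one, OfNat.ofNat_ne_one, OfNat.one_ne_ofNat, if_false, reduceIte] | simp [Function.update_apply])) ?_
  refine all_of 3 (fun N s a => by (first | exact Iff.rfl | simp only [Function.update_apply, ten0, ten1, ten2, ten3, ten4, ten5, ne_eq, Nat.reduceEqDiff, OfNat.ofNat_ne_zero, OfNat.zero_ne_ofNat, one_ne_zero, zero_ne_one, OfNat.ofNat_ne_one, OfNat.one_ne_ofNat, if_false, reduceIte] | simp [Function.update_apply])) ?_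
  (repeat' (first | exact fo_AX _ | exact fo_ASc _ _ | exact fo_ANb _ | exact fo_AMv _ _ _ | exact fo_ANum _ _ | exact fo_AL0 _ | exact fo_AL1 _ | exact FO.rel2 _ _ _ | exact FO.eq _ _ | exact FO.const _ | exact fo_ADat _ _ _ _ _ _ _ _ _ | refine FO.not ?_ | refine FO.and ?_ ?_ | refine FO.or ?_ ?_ | refine FO.iff ?_ ?_ | refine FO.imp ?_ ?_))

theorem fo_la_dn (M : Mach) (c0 : M.Cfg) : FO (fun N _ => ∀ e f z w, N.R 2 [e, f] → N.R 5 [e, z] → N.R 5 [f, w] → ASc N w z) := by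
  refine all_of 0 (fun N s a => by (first | exact Iff.rfl | simp only [Function.update_apply, ten0, ten1, ten2, ten3, ten4, ten5, ne_eq, Nat.reduceEqDiff, OfNat.ofNat_ne_zero, OfNat.zero_ne_ofNat, one_ne_zero, zero_ne_one, OfNat.ofNat_ne_one, OfNat.one_ne_ofNat, if_false, reduceIte] | simp [Function.update_apply])) ?_
  refine all_of 1 (fun N s a => by (first | exact Iff.rfl | simp only [Function.update_apply, ten0, ten1, ten2, ten3, ten4, ten5, ne_eq, Nat.reduceEqDiff, OfNat.ofNat_ne_zero, OfNat.zero_ne_ofNat, one_ne_zero, zero_ne_one, OfNat.ofNat_ne_one, OfNat.one_ne_ofNat, if_false, reduceIte] | simp [Function.update_apply])) ?_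
  refine all_of 2 (fun N s a => by (first | exact Iff.rfl | simp only [Function.update_apply, ten0, ten1, ten2, ten3, ten4, ten5, ne_eq, Nat.reduceEqDiff, OfNat.ofNat_ne_zero, OfNat.zero_ne_ofNat, one_ne_zero, zero_ne_one, OfNat.ofNat_ne_one, OfNat.one_ne_ofNat, if_false, reduceIte] | simp [Function.update_apply])) ?_
  refine all_of 3 (fun N s a => by (first | exact Iff.rfl | simp only [Function.update_apply, ten0, ten1, ten2, ten3, ten4, ten5, ne_eq, Nat.reduceEqDiff, OfNat.ofNat_ne_zero, OfNat.zero_ne_ofNat, one_ne_zero, zero_ne_one, OfNat.ofNat_ne_one, OfNat.one_ne_ofNat, if_false, reduceIte] | simp [Function.update_apply])) ?_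
  (repeat' (first | exact fo_AX _ | exact fo_ASc _ _ | exact fo_ANb _ | exact fo_AMv _ _ _ | exact fo_ANum _ _ | exact fo_AL0 _ | exact fo_AL1 _ | exact FO.rel2 _ _ _ | exact FO.eq _ _ | exact FO.const _ | exact fo_ADat _ _ _ _ _ _ _ _ _ | refine FO.not ?_ | refine FO.and ?_ ?_ | refine FO.or ?_ ?_ | refine FO.iff ?_ ?_ | refine FO.imp ?_ ?_))

theorem fo_la_sh (M : Mach) (c0 : M.Cfg) : FO (fun N _ => ∀ e f z, N.R 3 [e, f] → N.R 5 [e, z] → N.R 5 [f, z]) := by
  refine all_of 0 (fun N s a => by (first | exact Iff.rfl | simp only [Function.update_apply, ten0, ten1, ten2, ten3, ten4, ten5, ne_eq, Nat.reduceEqDiff, OfNat.ofNat_ne_zero, OfNat.zero_ne_ofNat, one_ne_zero, zero_ne_one, OfNat.ofNat_ne_one, OfNat.one_ne_ofNat, if_false, reduceIte] | simp [Function.update_apply])) ?_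
  refine all_of 1 (fun N s a => by (first | exact Iff.rfl | simp only [Function.update_apply, ten0, ten1, ten2, ten3, ten4, ten5, ne_eq, Nat.reduceEqDiff, OfNat.ofNat_ne_zero, OfNat.zero_ne_ofNat, one_ne_zero, zero_ne_one, OfNat.ofNat_ne_one, OfNat.one_ne_ofNat, if_false, reduceIte] | simp [Function.update_apply])) ?_
  refine all_of 2 (fun N s a => by (first | exact Iff.rfl | simp only [Function.update_apply, ten0, ten1, ten2, ten3, ten4, ten5, ne_eq, Nat.reduceEqDiff, OfNat.ofNat_ne_zero, OfNat.zero_ne_ofNat, one_ne_zero, zero_ne_one, OfNat.ofNat_ne_one, OfNat.one_ne_ofNat, if_false, reduceIte] | simp [Function.update_apply])) ?_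
  (repeat' (first | exact fo_AX _ | exact fo_ASc _ _ | exact fo_ANb _ | exact fo_AMv _ _ _ | exact fo_ANum _ _ | exact fo_AL0 _ | exact fo_AL1 _ | exact FO.rel2 _ _ _ | exact FO.eq _ _ | exact FO.const _ | exact fo_ADat _ _ _ _ _ _ _ _ _ | refine FO.not ?_ | refine FO.and ?_ ?_ | refine FO.or ?_ ?_ | refine FO.iff ?_ ?_ | refine FO.imp ?_ ?_))

theorem fo_u0_dn (M : Mach) (c0 : M.Cfg) : FO (fun N _ => ∀ e f, N.R 2 [e, f] → (N.R 8 [f, f] ↔ N.R 8 [e, e])) := by
  refine all_of 0 (fun N s a => by (first | exact Iff.rfl | simp only [Function.update_apply, ten0, ten1, ten2, ten3, ten4, ten5, ne_eq, Nat.reduceEqDiff, OfNat.ofNat_ne_zero, OfNat.zero_ne_ofNat, one_ne_zero, zero_ne_one, OfNat.ofNat_ne_one, OfNat.one_ne_ofNat, if_false, reduceIte] | simp [Function.update_apply])) ?_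
  refine all_of 1 (fun N s a => by (first | exact Iff.rfl | simp only [Function.update_apply, ten0, ten1, ten2, ten3, ten4, ten5, ne_eq, Nat.reduceEqDiff, OfNat.ofNat_ne_zero, OfNat.zero_ne_ofNat, one_ne_zero, zero_ne_one, OfNat.ofNat_ne_one, OfNat.one_ne_ofNat, if_false, reduceIte] | simp [Function.update_apply])) ?_
  (repeat' (first | exact fo_AX _ | exact fo_ASc _ _ | exact fo_ANb _ | exact fo_AMv _ _ _ | exact fo_ANum _ _ | exact fo_AL0 _ | exact fo_AL1 _ | exact FO.rel2 _ _ _ | exact FO.eq _ _ | exact FO.const _ | exact fo_ADat _ _ _ _ _ _ _ _ _ | refine FO.not ?_ | refine FO.and ?_ ?_ | refine FO.or ?_ ?_ | refine FO.iff ?_ ?_ | refine FO.imp ?_ ?_))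

theorem fo_u0_sh (M : Mach) (c0 : M.Cfg) : FO (fun N _ => ∀ e f, N.R 3 [e, f] → N.R 8 [e, e] → N.R 8 [f, f]) := by
  refine all_of 0 (fun N s a => by (first | exact Iff.rfl | simp only [Function.update_apply, ten0, ten1, ten2, ten3, ten4, ten5, ne_eq, Nat.reduceEqDiff, OfNat.ofNat_ne_zero, OfNat.zero_ne_ofNat, one_ne_zero, zero_ne_one, OfNat.ofNat_ne_one, OfNat.one_ne_ofNat, if_false, reduceIte] | simp [Function.update_apply])) ?_
  refine all_of 1 (fun N s a => by (first | exact Iff.rfl | simp only [Function.update_apply, ten0, ten1, ten2, ten3, ten4, ten5, ne_eq, Nat.reduceEqDiff, OfNat.ofNat_ne_zero, OfNat.zero_ne_ofNat, one_ne_zero, zero_ne_one, OfNat.ofNat_ne_one, OfNat.one_ne_ofNat, if_false, reduceIte] | simp [Function.update_apply])) ?_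
  (repeat' (first | exact fo_AX _ | exact fo_ASc _ _ | exact fo_ANb _ | exact fo_AMv _ _ _ | exact fo_ANum _ _ | exact fo_AL0 _ | exact fo_AL1 _ | exact FO.rel2 _ _ _ | exact FO.eq _ _ | exact FO.const _ | exact fo_ADat _ _ _ _ _ _ _ _ _ | refine FO.not ?_ | refine FO.and ?_ ?_ | refine FO.or ?_ ?_ | refine FO.iff ?_ ?_ | refine FO.imp ?_ ?_))

theorem fo_u1_dn (M : Mach) (c0 : M.Cfg) : FO (fun N _ => ∀ e f g, N.R 2 [e, f] → N.R 3 [f, g] → (N.R 9 [g, g] ↔ N.R 9 [e, e])) := by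
  refine all_of 0 (fun N s a => by (first | exact Iff.rfl | simp only [Function.update_apply, ten0, ten1, ten2, ten3, ten4, ten5, ne_eq, Nat.reduceEqDiff, OfNat.ofNat_ne_zero, OfNat.zero_ne_ofNat, one_ne_zero, zero_ne_one, OfNat.ofNat_ne_one, OfNat.one_ne_ofNat, if_false, reduceIte] | simp [Function.update_apply])) ?_
  refine all_of 1 (fun N s a => by (first | exact Iff.rfl | simp only [Function.update_apply, ten0, ten1, ten2, ten3, ten4, ten5, ne_eq, Nat.reduceEqDiff, OfNat.ofNat_ne_zero, OfNat.zero_ne_ofNat, one_ne_zero, zero_ne_one, OfNat.ofNat_ne_one, OfNat.one_ne_ofNat, if_false, reduceIte] | simp [Function.update_apply])) ?_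
  refine all_of 2 (fun N s a => by (first | exact Iff.rfl | simp only [Function.update_apply, ten0, ten1, ten2, ten3, ten4, ten5, ne_eq, Nat.reduceEqDiff, OfNat.ofNat_ne_zero, OfNat.zero_ne_ofNat, one_ne_zero, zero_ne_one, OfNat.ofNat_ne_one, OfNat.one_ne_ofNat, if_false, reduceIte] | simp [Function.update_apply])) ?_
  (repeat' (first | exact fo_AX _ | exact fo_ASc _ _ | exact fo_ANb _ | exact fo_AMv _ _ _ | exact fo_ANum _ _ | exact fo_AL0 _ | exact fo_AL1 _ | exact FO.rel2 _ _ _ | exact FO.eq _ _ | exact FO.const _ | exact fo_ADat _ _ _ _ _ _ _ _ _ | refine FO.not ?_ | refine FO.and ?_ ?_ | refine FO.or ?_ ?_ | refine FO.iff ?_ ?_ | refine FO.imp ?_ ?_))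

theorem fo_u1_sh (M : Mach) (c0 : M.Cfg) : FO (fun N _ => ∀ e f, N.R 3 [e, f] → N.R 9 [e, e] → N.R 9 [f, f]) := by
  refine all_of 0 (fun N s a => by (first | exact Iff.rfl | simp only [Function.update_apply, ten0, ten1, ten2, ten3, ten4, ten5, ne_eq, Nat.reduceEqDiff, OfNat.ofNat_ne_zero, OfNat.zero_ne_ofNat, one_ne_zero, zero_ne_one, OfNat.ofNat_ne_one, OfNat.one_ne_ofNat, if_false, reduceIte] | simp [Function.update_apply])) ?_
  refine all_of 1 (fun N s a => by (first | exact Iff.rfl | simp only [Function.update_apply, ten0, ten1, ten2, ten3, ten4, ten5, ne_eq, Nat.reduceEqDiff, OfNat.ofNat_ne_zero, OfNat.zero_ne_ofNat, one_ne_zero, zero_ne_one, OfNat.ofNat_ne_one, OfNat.one_ne_ofNat, if_false, reduceIte] | simp [Function.update_apply])) ?_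
  (repeat' (first | exact fo_AX _ | exact fo_ASc _ _ | exact fo_ANb _ | exact fo_AMv _ _ _ | exact fo_ANum _ _ | exact fo_AL0 _ | exact fo_AL1 _ | exact FO.rel2 _ _ _ | exact FO.eq _ _ | exact FO.const _ | exact fo_ADat _ _ _ _ _ _ _ _ _ | refine FO.not ?_ | refine FO.and ?_ ?_ | refine FO.or ?_ ?_ | refine FO.iff ?_ ?_ | refine FO.imp ?_ ?_))

theorem fo_ps_sh (M : Mach) (c0 : M.Cfg) : FO (fun N _ => ∀ e f z, ANb N e → N.R 3 [e, f] → N.R 6 [e, z] → N.R 6 [f, z]) := by
  refine all_of 0 (fun N s a => by (first | exact Iff.rfl | simp only [Function.update_apply, ten0, ten1, ten2, ten3, ten4, ten5, ne_eq, Nat.reduceEqDiff, OfNat.ofNat_ne_zero, OfNat.zero_ne_ofNat, one_ne_zero, zero_ne_one, OfNat.ofNat_ne_one, OfNat.one_ne_ofNat, if_false, reduceIte] | simp [Function.update_apply])) ?_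
  refine all_of 1 (fun N s a => by (first | exact Iff.rfl | simp only [Function.update_apply, ten0, ten1, ten2, ten3, ten4, ten5, ne_eq, Nat.reduceEqDiff, OfNat.ofNat_ne_zero, OfNat.zero_ne_ofNat, one_ne_zero, zero_ne_one, OfNat.ofNat_ne_one, OfNat.one_ne_ofNat, if_false, reduceIte] | simp [Function.update_apply])) ?_
  refine all_of 2 (fun N s a => by (first | exact Iff.rfl | simp only [Function.update_apply, ten0, ten1, ten2, ten3, ten4, ten5, ne_eq, Nat.reduceEqDiff, OfNat.ofNat_ne_zero, OfNat.zero_ne_ofNat, one_ne_zero, zero_ne_one, OfNat.ofNat_ne_one, OfNat.one_ne_ofNat, if_false, reduceIte] | simp [Function.update_apply])) ?_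
  (repeat' (first | exact fo_AX _ | exact fo_ASc _ _ | exact fo_ANb _ | exact fo_AMv _ _ _ | exact fo_ANum _ _ | exact fo_AL0 _ | exact fo_AL1 _ | exact FO.rel2 _ _ _ | exact FO.eq _ _ | exact FO.const _ | exact fo_ADat _ _ _ _ _ _ _ _ _ | refine FO.not ?_ | refine FO.and ?_ ?_ | refine FO.or ?_ ?_ | refine FO.iff ?_ ?_ | refine FO.imp ?_ ?_))

theorem fo_rh_sh (M : Mach) (c0 : M.Cfg) : FO (fun N _ => ∀ e f z, ANb N e → N.R 3 [e, f] → N.R 7 [e, z] → N.R 7 [f, z]) := by
  refine all_of 0 (fun N s a => by (first | exact Iff.rfl | simp only [Function.update_apply, ten0, ten1, ten2, ten3, ten4, ten5, ne_eq, Nat.reduceEqDiff, OfNat.ofNat_ne_zero, OfNat.zero_ne_ofNat, one_ne_zero, zero_ne_one, OfNat.ofNat_ne_one, OfNat.one_ne_ofNat, if_false, reduceIte] | simp [Function.update_apply])) ?_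
  refine all_of 1 (fun N s a => by (first | exact Iff.rfl | simp only [Function.update_apply, ten0, ten1, ten2, ten3, ten4, ten5, ne_eq, Nat.reduceEqDiff, OfNat.ofNat_ne_zero, OfNat.zero_ne_ofNat, one_ne_zero, zero_ne_one, OfNat.ofNat_ne_one, OfNat.one_ne_ofNat, if_false, reduceIte] | simp [Function.update_apply])) ?_
  refine all_of 2 (fun N s a => by (first | exact Iff.rfl | simp only [Function.update_apply, ten0, ten1, ten2, ten3, ten4, ten5, ne_eq, Nat.reduceEqDiff, OfNat.ofNat_ne_zero, OfNat.zero_ne_ofNat, one_ne_zero, zero_ne_one, OfNat.ofNat_ne_one, OfNat.one_ne_ofNat, if_false, reduceIte] | simp [Function.update_apply])) ?_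
  (repeat' (first | exact fo_AX _ | exact fo_ASc _ _ | exact fo_ANb _ | exact fo_AMv _ _ _ | exact fo_ANum _ _ | exact fo_AL0 _ | exact fo_AL1 _ | exact FO.rel2 _ _ _ | exact FO.eq _ _ | exact FO.const _ | exact fo_ADat _ _ _ _ _ _ _ _ _ | refine FO.not ?_ | refine FO.and ?_ ?_ | refine FO.or ?_ ?_ | refine FO.iff ?_ ?_ | refine FO.imp ?_ ?_))

theorem fo_ty_sh (M : Mach) (c0 : M.Cfg) : FO (fun N _ => ∀ e f, ANb N e → N.R 3 [e, f] → (N.R 10 [f, f] ↔ N.R 10 [e, e])) := by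
  refine all_of 0 (fun N s a => by (first | exact Iff.rfl | simp only [Function.update_apply, ten0, ten1, ten2, ten3, ten4, ten5, ne_eq, Nat.reduceEqDiff, OfNat.ofNat_ne_zero, OfNat.zero_ne_ofNat, one_ne_zero, zero_ne_one, OfNat.ofNat_ne_one, OfNat.one_ne_ofNat, if_false, reduceIte] | simp [Function.update_apply])) ?_
  refine all_of 1 (fun N s a => by (first | exact Iff.rfl | simp only [Function.update_apply, ten0, ten1, ten2, ten3, ten4, ten5, ne_eq, Nat.reduceEqDiff, OfNat.ofNat_ne_zero, OfNat.zero_ne_ofNat, one_ne_zero, zero_ne_one, OfNat.ofNat_ne_one, OfNat.one_ne_ofNat, if_false, reduceIte] | simp [Function.update_apply])) ?_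
  (repeat' (first | exact fo_AX _ | exact fo_ASc _ _ | exact fo_ANb _ | exact fo_AMv _ _ _ | exact fo_ANum _ _ | exact fo_AL0 _ | exact fo_AL1 _ | exact FO.rel2 _ _ _ | exact FO.eq _ _ | exact FO.const _ | exact fo_ADat _ _ _ _ _ _ _ _ _ | refine FO.not ?_ | refine FO.and ?_ ?_ | refine FO.or ?_ ?_ | refine FO.iff ?_ ?_ | refine FO.imp ?_ ?_))

theorem fo_sd_sh (M : Mach) (c0 : M.Cfg) : FO (fun N _ => ∀ e f, ANb N e → N.R 3 [e, f] → (N.R 11 [f, f] ↔ N.R 11 [e, e])) := by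
  refine all_of 0 (fun N s a => by (first | exact Iff.rfl | simp only [Function.update_apply, ten0, ten1, ten2, ten3, ten4, ten5, ne_eq, Nat.reduceEqDiff, OfNat.ofNat_ne_zero, OfNat.zero_ne_ofNat, one_ne_zero, zero_ne_one, OfNat.ofNat_ne_one, OfNat.one_ne_ofNat, if_false, reduceIte] | simp [Function.update_apply])) ?_
  refine all_of 1 (fun N s a => by (first | exact Iff.rfl | simp only [Function.update_apply, ten0, ten1, ten2, ten3, ten4, ten5, ne_eq, Nat.reduceEqDiff, OfNat.ofNat_ne_zero, OfNat.zero_ne_ofNat, one_ne_zero, zero_ne_one, OfNat.ofNat_ne_one, OfNat.one_ne_ofNat, if_false, reduceIte] | simp [Function.update_apply])) ?_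
  (repeat' (first | exact fo_AX _ | exact fo_ASc _ _ | exact fo_ANb _ | exact fo_AMv _ _ _ | exact fo_ANum _ _ | exact fo_AL0 _ | exact fo_AL1 _ | exact FO.rel2 _ _ _ | exact FO.eq _ _ | exact FO.const _ | exact fo_ADat _ _ _ _ _ _ _ _ _ | refine FO.not ?_ | refine FO.and ?_ ?_ | refine FO.or ?_ ?_ | refine FO.iff ?_ ?_ | refine FO.imp ?_ ?_))

theorem fo_ps_dn (M : Mach) (c0 : M.Cfg) : FO (fun N _ => ∀ e f z, N.R 2 [e, f] → N.R 6 [f, z] → N.R 1 [z, z]) := by
  refine all_of 0 (fun N s a => by (first | exact Iff.rfl | simp only [Function.update_apply, ten0, ten1, ten2, ten3, ten4, ten5, ne_eq, Nat.reduceEqDiff, OfNat.ofNat_ne_zero, OfNat.zero_ne_ofNat, one_ne_zero, zero_ne_one, OfNat.ofNat_ne_one, OfNat.one_ne_ofNat, if_false, reduceIte] | simp [Function.update_apply])) ?_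
  refine all_of 1 (fun N s a => by (first | exact Iff.rfl | simp only [Function.update_apply, ten0, ten1, ten2, ten3, ten4, ten5, ne_eq, Nat.reduceEqDiff, OfNat.ofNat_ne_zero, OfNat.zero_ne_ofNat, one_ne_zero, zero_ne_one, OfNat.ofNat_ne_one, OfNat.one_ne_ofNat, if_false, reduceIte] | simp [Function.update_apply])) ?_
  refine all_of 2 (fun N s a => by (first | exact Iff.rfl | simp only [Function.update_apply, ten0, ten1, ten2, ten3, ten4, ten5, ne_eq, Nat.reduceEqDiff, OfNat.ofNat_ne_zero, OfNat.zero_ne_ofNat, one_ne_zero, zero_ne_one, OfNat.ofNat_ne_one, OfNat.one_ne_ofNat, if_false, reduceIte] | simp [Function.update_apply])) ?_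
  (repeat' (first | exact fo_AX _ | exact fo_ASc _ _ | exact fo_ANb _ | exact fo_AMv _ _ _ | exact fo_ANum _ _ | exact fo_AL0 _ | exact fo_AL1 _ | exact FO.rel2 _ _ _ | exact FO.eq _ _ | exact FO.const _ | exact fo_ADat _ _ _ _ _ _ _ _ _ | refine FO.not ?_ | refine FO.and ?_ ?_ | refine FO.or ?_ ?_ | refine FO.iff ?_ ?_ | refine FO.imp ?_ ?_))

theorem fo_rh_dn (M : Mach) (c0 : M.Cfg) : FO (fun N _ => ∀ e f z, N.R 2 [e, f] → N.R 7 [f, z] → N.R 1 [z, z]) := by
  refine all_of 0 (fun N s a => by (first | exact Iff.rfl | simp only [Function.update_apply, ten0, ten1, ten2, ten3, ten4, ten5, ne_eq, Nat.reduceEqDiff, OfNat.ofNat_ne_zero, OfNat.zero_ne_ofNat, one_ne_zero, zero_ne_one, OfNat.ofNat_ne_one, OfNat.one_ne_ofNat, if_false, reduceIte] | simp [Function.update_apply])) ?_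
  refine all_of 1 (fun N s a => by (first | exact Iff.rfl | simp only [Function.update_apply, ten0, ten1, ten2, ten3, ten4, ten5, ne_eq, Nat.reduceEqDiff, OfNat.ofNat_ne_zero, OfNat.zero_ne_ofNat, one_ne_zero, zero_ne_one, OfNat.ofNat_ne_one, OfNat.one_ne_ofNat, if_false, reduceIte] | simp [Function.update_apply])) ?_
  refine all_of 2 (fun N s a => by (first | exact Iff.rfl | simp only [Function.update_apply, ten0, ten1, ten2, ten3, ten4, ten5, ne_eq, Nat.reduceEqDiff, OfNat.ofNat_ne_zero, OfNat.zero_ne_ofNat, one_ne_zero, zero_ne_one, OfNat.ofNat_ne_one, OfNat.one_ne_ofNat, if_false, reduceIte] | simp [Function.update_apply])) ?_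
  (repeat' (first | exact fo_AX _ | exact fo_ASc _ _ | exact fo_ANb _ | exact fo_AMv _ _ _ | exact fo_ANum _ _ | exact fo_AL0 _ | exact fo_AL1 _ | exact FO.rel2 _ _ _ | exact FO.eq _ _ | exact FO.const _ | exact fo_ADat _ _ _ _ _ _ _ _ _ | refine FO.not ?_ | refine FO.and ?_ ?_ | refine FO.or ?_ ?_ | refine FO.iff ?_ ?_ | refine FO.imp ?_ ?_))

theorem fo_ty_dn (M : Mach) (c0 : M.Cfg) : FO (fun N _ => ∀ e f, N.R 2 [e, f] → ¬ N.R 10 [f, f]) := by
  refine all_of 0 (fun N s a => by (first | exact Iff.rfl | simp only [Function.update_apply, ten0, ten1, ten2, ten3, ten4, ten5, ne_eq, Nat.reduceEqDiff, OfNat.ofNat_ne_zero, OfNat.zero_ne_ofNat, one_ne_zero, zero_ne_one, OfNat.ofNat_ne_one, OfNat.one_ne_ofNat, if_false, reduceIte] | simp [Function.update_apply])) ?_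
  refine all_of 1 (fun N s a => by (first | exact Iff.rfl | simp only [Function.update_apply, ten0, ten1, ten2, ten3, ten4, ten5, ne_eq, Nat.reduceEqDiff, OfNat.ofNat_ne_zero, OfNat.zero_ne_ofNat, one_ne_zero, zero_ne_one, OfNat.ofNat_ne_one, OfNat.one_ne_ofNat, if_false, reduceIte] | simp [Function.update_apply])) ?_
  (repeat' (first | exact fo_AX _ | exact fo_ASc _ _ | exact fo_ANb _ | exact fo_AMv _ _ _ | exact fo_ANum _ _ | exact fo_AL0 _ | exact fo_AL1 _ | exact FO.rel2 _ _ _ | exact FO.eq _ _ | exact FO.const _ | exact fo_ADat _ _ _ _ _ _ _ _ _ | refine FO.not ?_ | refine FO.and ?_ ?_ | refine FO.or ?_ ?_ | refine FO.iff ?_ ?_ | refine FO.imp ?_ ?_))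

theorem fo_sd_dn (M : Mach) (c0 : M.Cfg) : FO (fun N _ => ∀ e f, N.R 2 [e, f] → ¬ N.R 11 [f, f]) := by
  refine all_of 0 (fun N s a => by (first | exact Iff.rfl | simp only [Function.update_apply, ten0, ten1, ten2, ten3, ten4, ten5, ne_eq, Nat.reduceEqDiff, OfNat.ofNat_ne_zero, OfNat.zero_ne_ofNat, one_ne_zero, zero_ne_one, OfNat.ofNat_ne_one, OfNat.one_ne_ofNat, if_false, reduceIte] | simp [Function.update_apply])) ?_
  refine all_of 1 (fun N s a => by (first | exact Iff.rfl | simp only [Function.update_apply, ten0, ten1, ten2, ten3, ten4, ten5, ne_eq, Nat.reduceEqDiff, OfNat.ofNat_ne_zero, OfNat.zero_ne_ofNat, one_ne_zero, zero_ne_one, OfNat.ofNat_ne_one, OfNat.one_ne_ofNat, if_false, reduceIte] | simp [Function.update_apply])) ?_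
  (repeat' (first | exact fo_AX _ | exact fo_ASc _ _ | exact fo_ANb _ | exact fo_AMv _ _ _ | exact fo_ANum _ _ | exact fo_AL0 _ | exact fo_AL1 _ | exact FO.rel2 _ _ _ | exact FO.eq _ _ | exact FO.const _ | exact fo_ADat _ _ _ _ _ _ _ _ _ | refine FO.not ?_ | refine FO.and ?_ ?_ | refine FO.or ?_ ?_ | refine FO.iff ?_ ?_ | refine FO.imp ?_ ?_))

theorem fo_line_f (M : Mach) (c0 : M.Cfg) : FO (fun N _ => ∀ e z w, ANb N e → ¬ N.R 10 [e, e] → N.R 6 [e, z] → N.R 4 [e, w] → (N.R 8 [e, e] ↔ z = w ∨ N.R 0 [z, w]) ∧ (N.R 9 [e, e] ↔ N.R 11 [e, e])) := by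
  refine all_of 0 (fun N s a => by (first | exact Iff.rfl | simp only [Function.update_apply, ten0, ten1, ten2, ten3, ten4, ten5, ne_eq, Nat.reduceEqDiff, OfNat.ofNat_ne_zero, OfNat.zero_ne_ofNat, one_ne_zero, zero_ne_one, OfNat.ofNat_ne_one, OfNat.one_ne_ofNat, if_false, reduceIte] | simp [Function.update_apply])) ?_
  refine all_of 1 (fun N s a => by (first | exact Iff.rfl | simp only [Function.update_apply, ten0, ten1, ten2, ten3, ten4, ten5, ne_eq, Nat.reduceEqDiff, OfNat.ofNat_ne_zero, OfNat.zero_ne_ofNat, one_ne_zero, zero_ne_one, OfNat.ofNat_ne_one, OfNat.one_ne_ofNat, if_false, reduceIte] | simp [Function.update_apply])) ?_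
  refine all_of 2 (fun N s a => by (first | exact Iff.rfl | simp only [Function.update_apply, ten0, ten1, ten2, ten3, ten4, ten5, ne_eq, Nat.reduceEqDiff, OfNat.ofNat_ne_zero, OfNat.zero_ne_ofNat, one_ne_zero, zero_ne_one, OfNat.ofNat_ne_one, OfNat.one_ne_ofNat, if_false, reduceIte] | simp [Function.update_apply])) ?_
  (repeat' (first | exact fo_AX _ | exact fo_ASc _ _ | exact fo_ANb _ | exact fo_AMv _ _ _ | exact fo_ANum _ _ | exact fo_AL0 _ | exact fo_AL1 _ | exact FO.rel2 _ _ _ | exact FO.eq _ _ | exact FO.const _ | exact fo_ADat _ _ _ _ _ _ _ _ _ | refine FO.not ?_ | refine FO.and ?_ ?_ | refine FO.or ?_ ?_ | refine FO.iff ?_ ?_ | refine FO.imp ?_ ?_))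

theorem fo_line_t (M : Mach) (c0 : M.Cfg) : FO (fun N _ => ∀ e z w, ANb N e → N.R 10 [e, e] → N.R 6 [e, z] → N.R 4 [e, w] → (N.R 9 [e, e] ↔ z = w ∨ N.R 0 [z, w]) ∧ (N.R 8 [e, e] ↔ N.R 11 [e, e])) := by
  refine all_of 0 (fun N s a => by (first | exact Iff.rfl | simp only [Function.update_apply, ten0, ten1, ten2, ten3, ten4, ten5, ne_eq, Nat.reduceEqDiff, OfNat.ofNat_ne_zero, OfNat.zero_ne_ofNat, one_ne_zero, zero_ne_one, OfNat.ofNat_ne_one, OfNat.one_ne_ofNat, if_false, reduceIte] | simp [Function.update_apply])) ?_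
  refine all_of 1 (fun N s a => by (first | exact Iff.rfl | simp only [Function.update_apply, ten0, ten1, ten2, ten3, ten4, ten5, ne_eq, Nat.reduceEqDiff, OfNat.ofNat_ne_zero, OfNat.zero_ne_ofNat, one_ne_zero, zero_ne_one, OfNat.ofNat_ne_one, OfNat.one_ne_ofNat, if_false, reduceIte] | simp [Function.update_apply])) ?_
  refine all_of 2 (fun N s a => by (first | exact Iff.rfl | simp only [Function.update_apply, ten0, ten1, ten2, ten3, ten4, ten5, ne_eq, Nat.reduceEqDiff, OfNat.ofNat_ne_zero, OfNat.zero_ne_ofNat, one_ne_zero, zero_ne_one, OfNat.ofNat_ne_one, OfNat.one_ne_ofNat, if_false, reduceIte] | simp [Function.update_apply])) ?_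
  (repeat' (first | exact fo_AX _ | exact fo_ASc _ _ | exact fo_ANb _ | exact fo_AMv _ _ _ | exact fo_ANum _ _ | exact fo_AL0 _ | exact fo_AL1 _ | exact FO.rel2 _ _ _ | exact FO.eq _ _ | exact FO.const _ | exact fo_ADat _ _ _ _ _ _ _ _ _ | refine FO.not ?_ | refine FO.and ?_ ?_ | refine FO.or ?_ ?_ | refine FO.iff ?_ ?_ | refine FO.imp ?_ ?_))

theorem fo_birth_ex (M : Mach) (c0 : M.Cfg) : FO (fun N _ => ∀ (s : Fin M.q) (t d : Bool) (a : Fin M.k → N.C) (o n l p r : N.C), N.R 1 [o, o] → (∀ i, o = a i ∨ N.R 0 [o, a i]) → ¬ AX N n → ¬ AX N l → ¬ AX N p → ¬ AX N r → ∃ e, ADat M N s t d a n l p r e) := by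
  refine FO.forallFin fun s0 => FO.forallFin fun t => FO.forallFin fun d => tup_of ?_
  refine all_of 0 (fun N s a => by (first | exact Iff.rfl | simp only [Function.update_apply, ten0, ten1, ten2, ten3, ten4, ten5, ne_eq, Nat.reduceEqDiff, OfNat.ofNat_ne_zero, OfNat.zero_ne_ofNat, one_ne_zero, zero_ne_one, OfNat.ofNat_ne_one, OfNat.one_ne_ofNat, if_false, reduceIte] | simp [Function.update_apply])) ?_
  refine all_of 1 (fun N s a => by (first | exact Iff.rfl | simp only [Function.update_apply, ten0, ten1, ten2, ten3, ten4, ten5, ne_eq, Nat.reduceEqDiff, OfNat.ofNat_ne_zero, OfNat.zero_ne_ofNat, one_ne_zero, zero_ne_one, OfNat.ofNat_ne_one, OfNat.one_ne_ofNat, if_false, reduceIte] | simp [Function.update_apply])) ?_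
  refine all_of 2 (fun N s a => by (first | exact Iff.rfl | simp only [Function.update_apply, ten0, ten1, ten2, ten3, ten4, ten5, ne_eq, Nat.reduceEqDiff, OfNat.ofNat_ne_zero, OfNat.zero_ne_ofNat, one_ne_zero, zero_ne_one, OfNat.ofNat_ne_one, OfNat.one_ne_ofNat, if_false, reduceIte] | simp [Function.update_apply])) ?_
  refine all_of 3 (fun N s a => by (first | exact Iff.rfl | simp only [Function.update_apply, ten0, ten1, ten2, ten3, ten4, ten5, ne_eq, Nat.reduceEqDiff, OfNat.ofNat_ne_zero, OfNat.zero_ne_ofNat, one_ne_zero, zero_ne_one, OfNat.ofNat_ne_one, OfNat.one_ne_ofNat, if_false, reduceIte] | simp [Function.update_apply])) ?_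
  refine all_of 4 (fun N s a => by (first | exact Iff.rfl | simp only [Function.update_apply, ten0, ten1, ten2, ten3, ten4, ten5, ne_eq, Nat.reduceEqDiff, OfNat.ofNat_ne_zero, OfNat.zero_ne_ofNat, one_ne_zero, zero_ne_one, OfNat.ofNat_ne_one, OfNat.one_ne_ofNat, if_false, reduceIte] | simp [Function.update_apply])) ?_
  refine FO.imp (by (repeat' (first | exact fo_AX _ | exact fo_ASc _ _ | exact fo_ANb _ | exact fo_AMv _ _ _ | exact fo_ANum _ _ | exact fo_AL0 _ | exact fo_AL1 _ | exact FO.rel2 _ _ _ | exact FO.eq _ _ | exact FO.const _ | exact fo_ADat _ _ _ _ _ _ _ _ _ | refine FO.not ?_ | refine FO.and ?_ ?_ | refine FO.or ?_ ?_ | refine FO.iff ?_ ?_ | refine FO.imp ?_ ?_))) (FO.imp (FO.forallFin fun i => by (repeat' (first | exact fo_AX _ | exact fo_ASc _ _ | exact fo_ANb _ | exact fo_AMv _ _ _ | exact fo_ANum _ _ | exact fo_AL0 _ | exact fo_AL1 _ | exact FO.rel2 _ _ _ | exact FO.eq _ _ | exact FO.const _ | exact fo_ADat _ _ _ _ _ _ _ _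 _ | refine FO.not ?_ | refine FO.and ?_ ?_ | refine FO.or ?_ ?_ | refine FO.iff ?_ ?_ | refine FO.imp ?_ ?_))) (FO.imp (by (repeat' (first | exact fo_AX _ | exact fo_ASc _ _ | exact fo_ANb _ | exact fo_AMv _ _ _ | exact fo_ANum _ _ | exact fo_AL0 _ | exact fo_AL1 _ | exact FO.rel2 _ _ _ | exact FO.eq _ _ | exact FO.const _ | exact fo_ADat _ _ _ _ _ _ _ _ _ | refine FO.not ?_ | refine FO.and ?_ ?_ | refine FO.or ?_ ?_ | refine FO.iff ?_ ?_ | refine FO.imp ?_ ?_))) (FO.imp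
    (by (repeat' (first | exact fo_AX _ | exact fo_ASc _ _ | exact fo_ANb _ | exact fo_AMv _ _ _ | exact fo_ANum _ _ | exact fo_AL0 _ | exact fo_AL1 _ | exact FO.rel2 _ _ _ | exact FO.eq _ _ | exact FO.const _ | exact fo_ADat _ _ _ _ _ _ _ _ _ | refine FO.not ?_ | refine FO.and ?_ ?_ | refine FO.or ?_ ?_ | refine FO.iff ?_ ?_ | refine FO.imp ?_ ?_))) (FO.imp (by (repeat' (first | exact fo_AX _ | exact fo_ASc _ _ | exact fo_ANb _ | exact fo_AMv _ _ _ | exact fo_ANum _ _ | exact fo_AL0 _ | exact fo_AL1 _ | exact FO.rel2 _ _ _ | exact FO.eq _ _ | exact FO.const _ | exact fo_ADat _ _ _ _ _ _ _ _ _ | refine FO.not ?_ | refine FO.and ?_ ?_ | refine FO.or ?_ ?_ | refine FO.iff ?_ ?_ | refine FO.imp ?_ ?_))) (FO.imp (by (repeat' (first | exact fo_AX _ | exact fo_ASc _ _ | exact fo_ANb _ | exact fo_AMv _ _ _ | exact fo_ANum _ _ | exact fo_AL0 _ | exact fo_AL1 _ | exact FO.rel2 _ _ _ | exact FO.eq _ _ | exact FO.const _ | exact fo_ADat _ _ _ _ _ _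 _ _ _ | refine FO.not ?_ | refine FO.and ?_ ?_ | refine FO.or ?_ ?_ | refine FO.iff ?_ ?_ | refine FO.imp ?_ ?_))) ?_)))))
  refine ex_of 5 (fun N s a => by (first | exact Iff.rfl | simp only [Function.update_apply, ten0, ten1, ten2, ten3, ten4, ten5, ne_eq, Nat.reduceEqDiff, OfNat.ofNat_ne_zero, OfNat.zero_ne_ofNat, one_ne_zero, zero_ne_one, OfNat.ofNat_ne_one, OfNat.one_ne_ofNat, if_false, reduceIte] | simp [Function.update_apply])) ?_
  (repeat' (first | exact fo_AX _ | exact fo_ASc _ _ | exact fo_ANb _ | exact fo_AMv _ _ _ | exact fo_ANum _ _ | exact fo_AL0 _ | exact fo_AL1 _ | exact FO.rel2 _ _ _ | exact FO.eq _ _ | exact FO.const _ | exact fo_ADat _ _ _ _ _ _ _ _ _ | refine FO.not ?_ | refine FO.and ?_ ?_ | refine FO.or ?_ ?_ | refine FO.iff ?_ ?_ | refine FO.imp ?_ ?_))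

theorem fo_birth_un (M : Mach) (c0 : M.Cfg) : FO (fun N _ => ∀ (s : Fin M.q) (t d : Bool) (a : Fin M.k → N.C) (n l p r e e' : N.C), ADat M N s t d a n l p r e → ADat M N s t d a n l p r e' → e = e') := by
  refine FO.forallFin fun s0 => FO.forallFin fun t => FO.forallFin fun d => tup_of ?_
  refine all_of 0 (fun N s a => by (first | exact Iff.rfl | simp only [Function.update_apply, ten0, ten1, ten2, ten3, ten4, ten5, ne_eq, Nat.reduceEqDiff, OfNat.ofNat_ne_zero, OfNat.zero_ne_ofNat, one_ne_zero, zero_ne_one, OfNat.ofNat_ne_one, OfNat.one_ne_ofNat, if_false, reduceIte] | simp [Function.update_apply])) ?_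
  refine all_of 1 (fun N s a => by (first | exact Iff.rfl | simp only [Function.update_apply, ten0, ten1, ten2, ten3, ten4, ten5, ne_eq, Nat.reduceEqDiff, OfNat.ofNat_ne_zero, OfNat.zero_ne_ofNat, one_ne_zero, zero_ne_one, OfNat.ofNat_ne_one, OfNat.one_ne_ofNat, if_false, reduceIte] | simp [Function.update_apply])) ?_
  refine all_of 2 (fun N s a => by (first | exact Iff.rfl | simp only [Function.update_apply, ten0, ten1, ten2, ten3, ten4, ten5, ne_eq, Nat.reduceEqDiff, OfNat.ofNat_ne_zero, OfNat.zero_ne_ofNat, one_ne_zero, zero_ne_one, OfNat.ofNat_ne_one, OfNat.one_ne_ofNat, if_false, reduceIte] | simp [Function.update_apply])) ?_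
  refine all_of 3 (fun N s a => by (first | exact Iff.rfl | simp only [Function.update_apply, ten0, ten1, ten2, ten3, ten4, ten5, ne_eq, Nat.reduceEqDiff, OfNat.ofNat_ne_zero, OfNat.zero_ne_ofNat, one_ne_zero, zero_ne_one, OfNat.ofNat_ne_one, OfNat.one_ne_ofNat, if_false, reduceIte] | simp [Function.update_apply])) ?_
  refine all_of 4 (fun N s a => by (first | exact Iff.rfl | simp only [Function.update_apply, ten0, ten1, ten2, ten3, ten4, ten5, ne_eq, Nat.reduceEqDiff, OfNat.ofNat_ne_zero, OfNat.zero_ne_ofNat, one_ne_zero, zero_ne_one, OfNat.ofNat_ne_one, OfNat.one_ne_ofNat, if_false, reduceIte] | simp [Function.update_apply])) ?_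
  refine all_of 5 (fun N s a => by (first | exact Iff.rfl | simp only [Function.update_apply, ten0, ten1, ten2, ten3, ten4, ten5, ne_eq, Nat.reduceEqDiff, OfNat.ofNat_ne_zero, OfNat.zero_ne_ofNat, one_ne_zero, zero_ne_one, OfNat.ofNat_ne_one, OfNat.one_ne_ofNat, if_false, reduceIte] | simp [Function.update_apply])) ?_
  (repeat' (first | exact fo_AX _ | exact fo_ASc _ _ | exact fo_ANb _ | exact fo_AMv _ _ _ | exact fo_ANum _ _ | exact fo_AL0 _ | exact fo_AL1 _ | exact FO.rel2 _ _ _ | exact FO.eq _ _ | exact FO.const _ | exact fo_ADat _ _ _ _ _ _ _ _ _ | refine FO.not ?_ | refine FO.and ?_ ?_ | refine FO.or ?_ ?_ | refine FO.iff ?_ ?_ | refine FO.imp ?_ ?_))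

theorem fo_og_ex (M : Mach) (c0 : M.Cfg) : FO (fun N _ => ∃ e, AL0 N e ∧ AL1 N e ∧ N.R (12 + M.k + c0.1) [e, e] ∧ (∀ i : Fin M.k, ∃ z, N.R (12 + i) [e, z] ∧ ANum N (c0.2 i) z) ∧ ∃ o, N.R 1 [o, o] ∧ N.R 4 [e, o] ∧ N.R 5 [e, o]) := by
  refine ex_of 0 (fun N s a => by (first | exact Iff.rfl | simp only [Function.update_apply, ten0, ten1, ten2, ten3, ten4, ten5, ne_eq, Nat.reduceEqDiff, OfNat.ofNat_ne_zero, OfNat.zero_ne_ofNat, one_ne_zero, zero_ne_one, OfNat.ofNat_ne_one, OfNat.one_ne_ofNat, if_false, reduceIte] | simp [Function.update_apply])) ?_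
  refine FO.and (by (repeat' (first | exact fo_AX _ | exact fo_ASc _ _ | exact fo_ANb _ | exact fo_AMv _ _ _ | exact fo_ANum _ _ | exact fo_AL0 _ | exact fo_AL1 _ | exact FO.rel2 _ _ _ | exact FO.eq _ _ | exact FO.const _ | exact fo_ADat _ _ _ _ _ _ _ _ _ | refine FO.not ?_ | refine FO.and ?_ ?_ | refine FO.or ?_ ?_ | refine FO.iff ?_ ?_ | refine FO.imp ?_ ?_))) (FO.and (by (repeat' (first | exact fo_AX _ | exact fo_ASc _ _ | exact fo_ANb _ | exact fo_AMv _ _ _ | exact fo_ANum _ _ | exact fo_AL0 _ | exact fo_AL1 _ | exact FO.rel2 _ _ _ | exact FO.eq _ _ | exact FO.const _ | exact fo_ADat _ _ _ _ _ _ _ _ _ | refine FO.not ?_ | refine FO.and ?_ ?_ | refine FO.or ?_ ?_ | refine FO.iff ?_ ?_ | refine FO.imp ?_ ?_))) (FO.and (by (repeat' (first | exact fo_AX _ | exact fo_ASc _ _ | exact fo_ANb _ | exact fo_AMv _ _ _ | exact fo_ANum _ _ | exact fo_AL0 _ | exact fo_AL1 _ | exact FO.rel2 _ _ _ | exact FO.eq _ _ | exact FO.const _ | exact fo_ADat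 _ _ _ _ _ _ _ _ _ | refine FO.not ?_ | refine FO.and ?_ ?_ | refine FO.or ?_ ?_ | refine FO.iff ?_ ?_ | refine FO.imp ?_ ?_))) (FO.and (FO.forallFin fun i => ?_) ?_)))
  · refine ex_of 1 (fun N s a => by (first | exact Iff.rfl | simp only [Function.update_apply, ten0, ten1, ten2, ten3, ten4, ten5, ne_eq, Nat.reduceEqDiff, OfNat.ofNat_ne_zero, OfNat.zero_ne_ofNat, one_ne_zero, zero_ne_one, OfNat.ofNat_ne_one, OfNat.one_ne_ofNat, if_false, reduceIte] | simp [Function.update_apply])) ?_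
    (repeat' (first | exact fo_AX _ | exact fo_ASc _ _ | exact fo_ANb _ | exact fo_AMv _ _ _ | exact fo_ANum _ _ | exact fo_AL0 _ | exact fo_AL1 _ | exact FO.rel2 _ _ _ | exact FO.eq _ _ | exact FO.const _ | exact fo_ADat _ _ _ _ _ _ _ _ _ | refine FO.not ?_ | refine FO.and ?_ ?_ | refine FO.or ?_ ?_ | refine FO.iff ?_ ?_ | refine FO.imp ?_ ?_))
  · refine ex_of 1 (fun N s a => by (first | exact Iff.rfl | simp only [Function.update_apply, ten0, ten1, ten2, ten3, ten4, ten5, ne_eq, Nat.reduceEqDiff, OfNat.ofNat_ne_zero, OfNat.zero_ne_ofNat, one_ne_zero, zero_ne_one, OfNat.ofNat_ne_one, OfNat.one_ne_ofNat, if_false, reduceIte] | simp [Function.update_apply])) ?_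
    (repeat' (first | exact fo_AX _ | exact fo_ASc _ _ | exact fo_ANb _ | exact fo_AMv _ _ _ | exact fo_ANum _ _ | exact fo_AL0 _ | exact fo_AL1 _ | exact FO.rel2 _ _ _ | exact FO.eq _ _ | exact FO.const _ | exact fo_ADat _ _ _ _ _ _ _ _ _ | refine FO.not ?_ | refine FO.and ?_ ?_ | refine FO.or ?_ ?_ | refine FO.iff ?_ ?_ | refine FO.imp ?_ ?_))

theorem fo_og_un (M : Mach) (c0 : M.Cfg) : FO (fun N _ => ∀ e e', AL0 N e → AL1 N e → AL0 N e' → AL1 N e' → e = e') := by
  refine all_of 0 (fun N s a => by (first | exact Iff.rfl | simp only [Function.update_apply, ten0, ten1, ten2, ten3, ten4, ten5, ne_eq, Nat.reduceEqDiff, OfNat.ofNat_ne_zero, OfNat.zero_ne_ofNat, one_ne_zero, zero_ne_one, OfNat.ofNat_ne_one, OfNat.one_ne_ofNat, if_false, reduceIte] | simp [Function.update_apply])) ?_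
  refine all_of 1 (fun N s a => by (first | exact Iff.rfl | simp only [Function.update_apply, ten0, ten1, ten2, ten3, ten4, ten5, ne_eq, Nat.reduceEqDiff, OfNat.ofNat_ne_zero, OfNat.zero_ne_ofNat, one_ne_zero, zero_ne_one, OfNat.ofNat_ne_one, OfNat.one_ne_ofNat, if_false, reduceIte] | simp [Function.update_apply])) ?_
  (repeat' (first | exact fo_AX _ | exact fo_ASc _ _ | exact fo_ANb _ | exact fo_AMv _ _ _ | exact fo_ANum _ _ | exact fo_AL0 _ | exact fo_AL1 _ | exact FO.rel2 _ _ _ | exact FO.eq _ _ | exact FO.const _ | exact fo_ADat _ _ _ _ _ _ _ _ _ | refine FO.not ?_ | refine FO.and ?_ ?_ | refine FO.or ?_ ?_ | refine FO.iff ?_ ?_ | refine FO.imp ?_ ?_))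

end GAxFoAux

open GAxFoAux in
theorem gax_fo (M : Mach) (c0 : M.Cfg) : FO (fun N _ => GAx M c0 N) := by
  refine FO.congr ((fo_s0 M c0).and ((fo_s1 M c0).and ((fo_s2 M c0).and ((fo_s3 M c0).and ((fo_sF M c0).and ((fo_sU M c0).and ((fo_irr M c0).and ((fo_tr M c0).and ((fo_tot M c0).and ((fo_suc M c0).and ((fo_prd M c0).and ((fo_z_ex M c0).and ((fo_z_un M c0).and ((fo_f2 M c0).and ((fo_i2 M c0).and ((fo_f3 M c0).and ((fo_i3 M c0).and ((fo_t3 M c0).and ((fo_r3 M c0).and ((fo_fF M c0).and ((fo_tF M c0).and ((fo_st_ex M c0).and ((fo_st_un M c0).and ((fo_al_nonneg M c0).and ((fo_dn_sh M c0).and ((fo_step M c0).and ((fo_st_sh M c0).and ((fo_al_sh M c0).and ((fo_nu_dn M c0).and ((fo_nu_sh M c0).and ((fo_la_dn M c0).and ((fo_la_sh M c0).and ((fo_u0_dn M c0).and ((fo_u0_sh M c0).and ((fo_u1_dn M c0).and ((fo_u1_sh M c0).and ((fo_ps_sh M c0).and ((fo_rh_sh M c0).and ((fo_ty_sh M c0).and ((fo_sd_sh M c0).and ((fo_ps_dn M c0).and ((fo_rh_dn M c0).and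 ((fo_ty_dn M c0).and ((fo_sd_dn M c0).and ((fo_line_f M c0).and ((fo_line_t M c0).and ((fo_birth_ex M c0).and ((fo_birth_un M c0).and ((fo_og_ex M c0).and (fo_og_un M c0)))))))))))))))))))))))))))))))))))))))))))))))))) (fun N s => ⟨?_, ?_⟩)
  · rintro ⟨h0, h1, h2, h3, h4, h5, h6, h7, h8, h9, h10, h11, h12, h13, h14, h15, h16, h17, h18, h19, h20, h21, h22, h23, h24, h25, h26, h27, h28, h29, h30, h31, h32, h33, h34, h35, h36, h37, h38, h39, h40, h41, h42, h43, h44, h45, h46, h47, h48, h49⟩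
    exact ⟨h0, h1, h2, h3, h4, h5, h6, h7, h8, h9, h10, h11, h12, h13, h14, h15, h16, h17, h18, h19, h20, h21, h22, h23, h24, h25, h26, h27, h28, h29, h30, h31, h32, h33, h34, h35, h36, h37, h38, h39, h40, h41, h42, h43, h44, h45, h46, h47, h48, h49⟩
  · intro h
    exact ⟨h.s0, h.s1, h.s2, h.s3, h.sF, h.sU, h.irr, h.tr, h.tot, h.suc, h.prd, h.z_ex, h.z_un, h.f2, h.i2, h.f3, h.i3, h.t3, h.r3, h.fF, h.tF, h.st_ex, h.st_un, h.al_nonneg, h.dn_sh, h.step, h.st_sh, h.al_sh, h.nu_dn, h.nu_sh, h.la_dn, h.la_sh, h.u0_dn, h.u0_sh, h.u1_dn, h.u1_sh, h.ps_sh, h.rh_sh, h.ty_sh, h.sd_sh, h.ps_dn, h.rh_dn, h.ty_dn, h.sd_dn, h.line_f, h.line_t, h.birth_ex, h.birth_un, h.og_ex, h.og_un⟩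

end CB
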