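import Pool.Agent.Work.MP_cb528c_lc.GAxDefs

set_option autoImplicit false
set_option linter.all false

/-!
# MP_cb528c_lc, module GAxTo: structures satisfying the axioms are GOOD structures

`Z := {x // ¬ AX N x}`, `X := {x // AX N x}` (both live in `Type`).  Order on `Z`: `x ≤ y := x = y ∨ N.R 0 [x, y]`
(`LinearOrder` with classical decidability); `S`: an `Equiv` from `suc`, `prd` (the successor of `z` is unique by totality; two
elements with the same successor are equal); functions by choice from `tF`, `t3`, ... with uniqueness.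
The bijection `Z ⊕ X ≃ N.C` is `Equiv.sumCompl`-like (first the elements not in `AX`).
For the isomorphism: `N.Ok (ar0 M)` says that all relations hold only for lists of length `2` and symbols `< nrel M`
(`r = 0..11`, `12 + i`, `12 + k + s`), and then the sorts axioms exclude the other cases.
-/

namespace CB

section gaxto

open Classical

variable {M : Mach} {c0 : M.Cfg} {N : Mdl}

private abbrev GZ (N : Mdl) : Type := {x : N.C // ¬ AX N x}
private abbrev GX (N : Mdl) : Type := {x : N.C // AX N x}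

private noncomputable def glo (h : GAx M c0 N) : LinearOrder (GZ N) where
  le x y := x = y ∨ N.R 0 [x.1, y.1]
  lt x y := N.R 0 [x.1, y.1]
  le_refl x := Or.inl rfl
  le_trans := by
    rintro x y z (rfl | h1) (rfl | h2)
    · exact Or.inl rfl
    · exact Or.inr h2
    · exact Or.inr h1
    · exact Or.inr (h.tr _ _ _ h1 h2)
  lt_iff_le_not_ge := by
    intro x y
    constructor
    · intro h1
      refine ⟨Or.inr h1, ?_⟩
      rintro (rfl | h2)
      · exact h.irr _ h1
      · exact h.irr _ (h.tr _ _ _ h1 h2)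
    · rintro ⟨h1 | h1, h2⟩
      · exact absurd (Or.inl h1.symm) h2
      · exact h1
  le_antisymm := by
    rintro x y (h1 | h1) (h2 | h2)
    · exact h1
    · exact h1
    · exact h2.symm
    · exact absurd (h.tr _ _ _ h1 h2) (h.irr _)
  le_total := by
    intro x y
    rcases h.tot x.1 y.1 x.2 y.2 with h1 | h1 | h1
    · exact Or.inl (Or.inr h1)
    · exact Or.inl (Or.inl (Subtype.ext h1))
    · exact Or.inr (Or.inr h1)
  toDecidableLE := Classical.decRel _

private theorem asc_right (h : GAx M c0 N) {z w : N.C} (hzw : ASc N z w) : ¬ AX N w := (h.s0 _ _ hzw.1).2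
private theorem asc_left (h : GAx M c0 N) {z w : N.C} (hzw : ASc N z w) : ¬ AX N z := (h.s0 _ _ hzw.1).1

private theorem asc_un (h : GAx M c0 N) {z w w' : N.C} (h1 : ASc N z w) (h2 : ASc N z w') : w = w' := by
  rcases h1.2 _ h2.1 with e | e
  · exact e
  · rcases h2.2 _ h1.1 with e' | e'
    · exact e'.symm
    · exact absurd (h.tr _ _ _ e e') (h.irr _)

private theorem asc_inj (h : GAx M c0 N) {z z' w : N.C} (h1 : ASc N z w) (h2 : ASc N z' w) : z = z' := by
  rcases h.tot z z' (asc_left h h1) (asc_left h h2) with e | e | e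
  · exfalso
    rcases h1.2 _ e with e' | e'
    · rw [← e'] at h2; exact h.irr _ h2.1
    · exact h.irr _ (h.tr _ _ _ e' h2.1)
  · exact e
  · exfalso
    rcases h2.2 _ e with e' | e'
    · rw [← e'] at h1; exact h.irr _ h1.1
    · exact h.irr _ (h.tr _ _ _ e' h1.1)

private noncomputable def gS (h : GAx M c0 N) : GZ N ≃ GZ N where
  toFun z := ⟨choose (h.suc z.1 z.2), asc_right h (choose_spec (h.suc z.1 z.2))⟩
  invFun w := ⟨choose (h.prd w.1 w.2), asc_left h (choose_spec (h.prd w.1 w.2))⟩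
  left_inv := by
    intro z
    apply Subtype.ext
    exact asc_inj h (choose_spec (h.prd _ (asc_right h (choose_spec (h.suc z.1 z.2))))) (choose_spec (h.suc z.1 z.2))
  right_inv := by
    intro z
    apply Subtype.ext
    exact asc_un h (choose_spec (h.suc _ (asc_left h (choose_spec (h.prd z.1 z.2))))) (choose_spec (h.prd z.1 z.2))

private theorem gS_spec (h : GAx M c0 N) (z : GZ N) : ASc N z.1 (gS h z).1 := choose_spec (h.suc z.1 z.2)

private theorem gS_iff (h : GAx M c0 N) (z w : GZ N) : ASc N z.1 w.1 ↔ w = gS h z := by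
  constructor
  · intro h1
    exact Subtype.ext (asc_un h h1 (gS_spec h z))
  · rintro rfl; exact gS_spec h z

private noncomputable def go (h : GAx M c0 N) : GZ N :=
  ⟨choose h.z_ex, (h.s1 _ _ (choose_spec h.z_ex)).1⟩

private theorem go_spec (h : GAx M c0 N) : N.R 1 [(go h).1, (go h).1] := choose_spec h.z_ex

private theorem go_iff (h : GAx M c0 N) (x : N.C) : N.R 1 [x, x] ↔ x = (go h).1 := by
  constructor
  · intro h1; exact h.z_un _ _ h1 (go_spec h)
  · rintro rfl; exact go_spec h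

private noncomputable def gdn (h : GAx M c0 N) (x : GX N) : GX N :=
  ⟨choose x.2, h.s2 _ _ (choose_spec x.2)⟩

private theorem gdn_spec (h : GAx M c0 N) (x : GX N) : N.R 2 [x.1, (gdn h x).1] := choose_spec x.2

private theorem gdn_iff (h : GAx M c0 N) (x : GX N) (y : N.C) : N.R 2 [x.1, y] ↔ y = (gdn h x).1 := by
  constructor
  · intro h1; exact h.f2 _ _ _ h1 (gdn_spec h x)
  · rintro rfl; exact gdn_spec h x

private noncomputable def gsh (h : GAx M c0 N) : GX N ≃ GX N where
  toFun x := ⟨choose (h.t3 x.1 x.2), (h.s3 _ _ (choose_spec (h.t3 x.1 x.2))).2⟩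
  invFun x := ⟨choose (h.r3 x.1 x.2), (h.s3 _ _ (choose_spec (h.r3 x.1 x.2))).1⟩
  left_inv := by
    intro x
    apply Subtype.ext
    exact h.i3 _ _ _ (choose_spec (h.r3 _ (h.s3 _ _ (choose_spec (h.t3 x.1 x.2))).2)) (choose_spec (h.t3 x.1 x.2))
  right_inv := by
    intro x
    apply Subtype.ext
    exact h.f3 _ _ _ (choose_spec (h.t3 _ (h.s3 _ _ (choose_spec (h.r3 x.1 x.2))).1)) (choose_spec (h.r3 x.1 x.2))

private theorem gsh_spec (h : GAx M c0 N) (x : GX N) : N.R 3 [x.1, (gsh h x).1] := choose_spec (h.t3 x.1 x.2)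

private theorem gsh_iff (h : GAx M c0 N) (x : GX N) (y : N.C) : N.R 3 [x.1, y] ↔ y = (gsh h x).1 := by
  constructor
  · intro h1; exact h.f3 _ _ _ h1 (gsh_spec h x)
  · rintro rfl; exact gsh_spec h x

private noncomputable def gF (h : GAx M c0 N) (r : ℕ) (hr : kindF M r) (x : GX N) : GZ N :=
  ⟨choose (h.tF r hr x.1 x.2), (h.sF r hr _ _ (choose_spec (h.tF r hr x.1 x.2))).2⟩

private theorem gF_spec (h : GAx M c0 N) {r : ℕ} (hr : kindF M r) (x : GX N) : N.R r [x.1, (gF h r hr x).1] :=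
  choose_spec (h.tF r hr x.1 x.2)

private theorem gF_iff (h : GAx M c0 N) {r : ℕ} (hr : kindF M r) (x : GX N) (y : N.C) :
    N.R r [x.1, y] ↔ y = (gF h r hr x).1 := by
  constructor
  · intro h1; exact h.fF r hr _ _ _ h1 (gF_spec h hr x)
  · rintro rfl; exact gF_spec h hr x

private noncomputable def gst (h : GAx M c0 N) (x : GX N) : Fin M.q := choose (h.st_ex x.1 x.2)

private theorem gst_spec (h : GAx M c0 N) (x : GX N) : N.R (12 + M.k + gst h x) [x.1, x.1] :=
  choose_spec (h.st_ex x.1 x.2)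

private theorem gst_iff (h : GAx M c0 N) (x : GX N) (s : Fin M.q) :
    N.R (12 + M.k + s) [x.1, x.1] ↔ gst h x = s := by
  constructor
  · intro h1; exact h.st_un _ _ _ (gst_spec h x) h1
  · rintro rfl; exact gst_spec h x

private theorem kF4 : kindF M 4 := Or.inl rfl
private theorem kF5 : kindF M 5 := Or.inr (Or.inl rfl)
private theorem kF6 : kindF M 6 := Or.inr (Or.inr (Or.inl rfl))
private theorem kF7 : kindF M 7 := Or.inr (Or.inr (Or.inr (Or.inl rfl)))
private theorem kFi (i : Fin M.k) : kindF M (12 + i) := Or.inr (Or.inr (Or.inr (Or.inr ⟨i, rfl⟩)))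
private theorem kU8 : kindU M 8 := Or.inl rfl
private theorem kU9 : kindU M 9 := Or.inr (Or.inl rfl)
private theorem kU10 : kindU M 10 := Or.inr (Or.inr (Or.inl rfl))
private theorem kU11 : kindU M 11 := Or.inr (Or.inr (Or.inr (Or.inl rfl)))
private theorem kUs (s : Fin M.q) : kindU M (12 + M.k + s) := Or.inr (Or.inr (Or.inr (Or.inr ⟨s, rfl⟩)))

private noncomputable def gU (N : Mdl) (r : ℕ) (x : GX N) : Bool := decide (N.R r [x.1, x.1])

private theorem gU_iff (r : ℕ) (x : GX N) : gU N r x = true ↔ N.R r [x.1, x.1] := by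
  unfold gU; exact decide_eq_true_iff

private theorem bool_eq {a b : Bool} (h : a = true ↔ b = true) : a = b := by
  cases a <;> cases b <;> simp_all

private theorem g_birth (h : GAx M c0 N) {e : GX N} (he : ∀ f, gdn h f ≠ e) : ANb N e.1 := by
  refine ⟨e.2, fun f hf => ?_⟩
  have hfX : AX N f := ⟨_, hf⟩
  have h1 := (gdn_iff h ⟨f, hfX⟩ e.1).1 hf
  exact he ⟨f, hfX⟩ (Subtype.ext h1.symm)

private theorem g_birth' (h : GAx M c0 N) {e : GX N} (he : ANb N e.1) (f : GX N) : gdn h f ≠ e := by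
  intro h1
  exact he.2 f.1 ((gdn_iff h f e.1).2 (by rw [h1]))

private theorem g_num (h : GAx M c0 N) : ∀ (n : ℕ) (y : N.C), ANum N n y → y = ((gS h)^[n] (go h)).1
  | 0, y, hy => (go_iff h y).1 hy
  | n + 1, y, hy => by
    obtain ⟨z, hz, hn⟩ := hy
    have e1 := g_num h n z hn
    have hy' : ¬ AX N y := asc_right h hz
    have hz' : ¬ AX N z := asc_left h hz
    rw [Function.iterate_succ_apply']
    have e2 : (⟨z, hz'⟩ : GZ N) = (gS h)^[n] (go h) := Subtype.ext e1
    rw [← e2]
    exact congrArg Subtype.val ((gS_iff h ⟨z, hz'⟩ ⟨y, hy'⟩).1 hz)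

private theorem g_step (h : GAx M c0 N) (e : GX N) (b : Fin M.k → Bool)
    (hb : ∀ i : Fin M.k, b i = true ↔ gF h (12 + i) (kFi i) e ≠ go h) :
    gst h (gdn h e) = (M.δ (gst h e) b).1 ∧ ∀ i : Fin M.k, gF h (12 + i) (kFi i) (gdn h e) =
      ((M.δ (gst h e) b).2 i).appZ (gS h) (gF h (12 + i) (kFi i) e) := by
  have hst := h.step (gst h e) b (go h).1 e.1 (gdn h e).1
    (go_spec h) (gdn_spec h e) (gst_spec h e) (fun i => by
      rw [hb i, gF_iff h (kFi i) e]
      constructor
      · intro h1 h2; exact h1 (Subtype.ext h2.symm)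
      · intro h1 h2; exact h1 (congrArg Subtype.val h2.symm))
  refine ⟨(gst_iff h (gdn h e) _).1 hst.1, fun i => ?_⟩
  have h2 := hst.2 i _ _ (gF_spec h (kFi i) e) (gF_spec h (kFi i) (gdn h e))
  revert h2
  generalize (M.δ (gst h e) b).2 i = m
  intro h2
  cases m with
  | down =>
    have h3 : ASc N (gF h (12 + i) (kFi i) (gdn h e)).1 (gF h (12 + i) (kFi i) e).1 := h2
    have h4 := (gS_iff h _ _).1 h3
    show _ = (gS h).symm _
    rw [h4, Equiv.symm_apply_apply]
  | stay =>
    exact Subtype.ext h2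
  | up =>
    exact (gS_iff h _ _).1 h2

private theorem g_step1 (h : GAx M c0 N) (e : GX N) (b : Fin M.k → Bool)
    (hb : ∀ i : Fin M.k, b i = true ↔ gF h (12 + i) (kFi i) e ≠ go h) :
    gst h (gdn h e) = (M.δ (gst h e) b).1 := (g_step h e b hb).1

private theorem g_step2 (h : GAx M c0 N) (e : GX N) (b : Fin M.k → Bool)
    (hb : ∀ i : Fin M.k, b i = true ↔ gF h (12 + i) (kFi i) e ≠ go h) (i : Fin M.k) :
    gF h (12 + i) (kFi i) (gdn h e) = ((M.δ (gst h e) b).2 i).appZ (gS h) (gF h (12 + i) (kFi i) e) :=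
  (g_step h e b hb).2 i

private theorem dec_true_iff (p : Prop) (ip : Decidable p) : (@decide p ip) = true ↔ p := decide_eq_true_iff

private noncomputable def gG (h : GAx M c0 N) : Good M c0 :=
  letI : LinearOrder (GZ N) := glo h
  { Z := GZ N
    X := GX N
    lo := glo h
    S := gS h
    lt_S := fun z => (gS_spec h z).1
    S_le := by
      intro z w hzw
      rcases (gS_spec h z).2 w.1 hzw with e | e
      · exact Or.inl (Subtype.ext e)
      · exact Or.inr e
    o := go h
    dn := gdn h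
    sh := gsh h
    st := gst h
    al := fun i => gF h (12 + i) (kFi i)
    nu := gF h 4 kF4
    la := gF h 5 kF5
    ps := gF h 6 kF6
    rh := gF h 7 kF7
    u0 := gU N 8
    u1 := gU N 9
    ty := gU N 10
    sd := gU N 11
    al_nonneg := by
      intro i e
      rcases h.al_nonneg i _ _ _ (go_spec h) (gF_spec h (kFi i) e) with e1 | e1
      · exact Or.inl (Subtype.ext e1)
      · exact Or.inr e1
    dn_inj := by
      intro x y hxy
      have h1 := gdn_spec h x
      have h2 := gdn_spec h y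
      rw [hxy] at h1
      exact Subtype.ext (h.i2 _ _ _ h1 h2)
    dn_sh := by
      intro e
      have := h.dn_sh _ _ _ _ (gsh_spec h e) (gdn_spec h (gsh h e)) (gdn_spec h e)
      exact Subtype.ext ((gsh_iff h (gdn h e) _).1 this)
    st_dn := by
      intro e
      refine g_step1 h e _ (fun i => ?_)
      exact dec_true_iff _ _
    al_dn := by
      intro i e
      refine g_step2 h e _ (fun i => ?_) i
      exact dec_true_iff _ _
    st_sh := by
      intro e
      exact (gst_iff h (gsh h e) _).1 (h.st_sh _ _ _ (gsh_spec h e) (gst_spec h e))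
    al_sh := by
      intro i e
      exact Subtype.ext ((gF_iff h (kFi i) (gsh h e) _).1 (h.al_sh i _ _ _ (gsh_spec h e) (gF_spec h (kFi i) e))).symm
    nu_dn := by
      intro e
      exact Subtype.ext ((gF_iff h kF4 (gdn h e) _).1 (h.nu_dn _ _ _ (gdn_spec h e) (gF_spec h kF4 e))).symm
    nu_sh := by
      intro e
      exact (gS_iff h _ _).1 (h.nu_sh _ _ _ _ (gsh_spec h e) (gF_spec h kF4 e) (gF_spec h kF4 (gsh h e)))
    la_dn := by
      intro e
      exact ((gS_iff h _ _).1 (h.la_dn _ _ _ _ (gdn_spec h e) (gF_spec h kF5 e) (gF_spec h kF5 (gdn h e)))).symm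
    la_sh := by
      intro e
      exact Subtype.ext ((gF_iff h kF5 (gsh h e) _).1 (h.la_sh _ _ _ (gsh_spec h e) (gF_spec h kF5 e))).symm
    u0_dn := by
      intro e
      exact bool_eq (by rw [gU_iff, gU_iff]; exact h.u0_dn _ _ (gdn_spec h e))
    u0_sh := by
      intro e
      rw [gU_iff, gU_iff]; exact h.u0_sh _ _ (gsh_spec h e)
    u1_dn := by
      intro e
      exact bool_eq (by rw [gU_iff, gU_iff]; exact h.u1_dn _ _ _ (gdn_spec h e) (gsh_spec h (gdn h e)))
    u1_sh := by
      intro e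
      rw [gU_iff, gU_iff]; exact h.u1_sh _ _ (gsh_spec h e)
    ps_sh := by
      intro e he
      exact Subtype.ext ((gF_iff h kF6 (gsh h e) _).1 (h.ps_sh _ _ _ (g_birth h he) (gsh_spec h e) (gF_spec h kF6 e))).symm
    rh_sh := by
      intro e he
      exact Subtype.ext ((gF_iff h kF7 (gsh h e) _).1 (h.rh_sh _ _ _ (g_birth h he) (gsh_spec h e) (gF_spec h kF7 e))).symm
    ty_sh := by
      intro e he
      exact bool_eq (by rw [gU_iff, gU_iff]; exact h.ty_sh _ _ (g_birth h he) (gsh_spec h e))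
    sd_sh := by
      intro e he
      exact bool_eq (by rw [gU_iff, gU_iff]; exact h.sd_sh _ _ (g_birth h he) (gsh_spec h e))
    ps_dn := by
      intro e
      exact Subtype.ext ((go_iff h _).1 (h.ps_dn _ _ _ (gdn_spec h e) (gF_spec h kF6 (gdn h e))))
    rh_dn := by
      intro e
      exact Subtype.ext ((go_iff h _).1 (h.rh_dn _ _ _ (gdn_spec h e) (gF_spec h kF7 (gdn h e))))
    ty_dn := by
      intro e
      rw [← Bool.not_eq_true, gU_iff]; exact h.ty_dn _ _ (gdn_spec h e)
    sd_dn := by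
      intro e
      rw [← Bool.not_eq_true, gU_iff]; exact h.sd_dn _ _ (gdn_spec h e)
    line_f := by
      intro e he ht
      rw [← Bool.not_eq_true, gU_iff] at ht
      have h1 := h.line_f _ _ _ (g_birth h he) ht (gF_spec h kF6 e) (gF_spec h kF4 e)
      refine ⟨?_, bool_eq (by rw [gU_iff, gU_iff]; exact h1.2)⟩
      rw [gU_iff, h1.1]
      constructor
      · rintro (h2 | h2)
        · exact Or.inl (Subtype.ext h2)
        · exact Or.inr h2
      · rintro (h2 | h2)
        · exact Or.inl (congrArg Subtype.val h2)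
        · exact Or.inr h2
    line_t := by
      intro e he ht
      rw [gU_iff] at ht
      have h1 := h.line_t _ _ _ (g_birth h he) ht (gF_spec h kF6 e) (gF_spec h kF4 e)
      refine ⟨?_, bool_eq (by rw [gU_iff, gU_iff]; exact h1.2)⟩
      rw [gU_iff, h1.1]
      constructor
      · rintro (h2 | h2)
        · exact Or.inl (Subtype.ext h2)
        · exact Or.inr h2
      · rintro (h2 | h2)
        · exact Or.inl (congrArg Subtype.val h2)
        · exact Or.inr h2
    birth_ex := by
      intro s a n l p r t d ha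
      obtain ⟨e, hb, hs, ht, hd, ha', hn, hl, hp, hr⟩ := h.birth_ex s t d (fun i => (a i).1) (go h).1 n.1 l.1 p.1 r.1
        (go_spec h) (fun i => by
          rcases ha i with h1 | h1
          · exact Or.inl (congrArg Subtype.val h1)
          · exact Or.inr h1) n.2 l.2 p.2 r.2
      refine ⟨⟨e, hb.1⟩, g_birth' h hb, (gst_iff h ⟨e, hb.1⟩ s).1 hs, fun i => ?_, ?_, ?_, ?_, ?_, ?_, ?_⟩
      · exact Subtype.ext ((gF_iff h (kFi i) ⟨e, hb.1⟩ _).1 (ha' i)).symm
      · exact Subtype.ext ((gF_iff h kF4 ⟨e, hb.1⟩ _).1 hn).symm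
      · exact Subtype.ext ((gF_iff h kF5 ⟨e, hb.1⟩ _).1 hl).symm
      · exact Subtype.ext ((gF_iff h kF6 ⟨e, hb.1⟩ _).1 hp).symm
      · exact Subtype.ext ((gF_iff h kF7 ⟨e, hb.1⟩ _).1 hr).symm
      · exact bool_eq (by rw [gU_iff]; exact ht)
      · exact bool_eq (by rw [gU_iff]; exact hd)
    birth_un := by
      intro e e' he he' h1 h2 h3 h4 h5 h6 h7 h8
      apply Subtype.ext
      refine h.birth_un (gst h e) (gU N 10 e) (gU N 11 e) (fun i => (gF h (12 + i) (kFi i) e).1) (gF h 4 kF4 e).1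
        (gF h 5 kF5 e).1 (gF h 6 kF6 e).1 (gF h 7 kF7 e).1 e.1 e'.1 ?_ ?_
      · exact ⟨g_birth h he, gst_spec h e, (gU_iff 10 e).symm, (gU_iff 11 e).symm, fun i => gF_spec h (kFi i) e,
          gF_spec h kF4 e, gF_spec h kF5 e, gF_spec h kF6 e, gF_spec h kF7 e⟩
      · refine ⟨g_birth h he', ?_, ?_, ?_, fun i => ?_, ?_, ?_, ?_, ?_⟩
        · rw [h1]; exact gst_spec h e'
        · rw [h7]; exact (gU_iff 10 e').symm
        · rw [h8]; exact (gU_iff 11 e').symm
        · show N.R (12 + i) [e'.1, (gF h (12 + i) (kFi i) e).1]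
          rw [h2 i]; exact gF_spec h (kFi i) e'
        · rw [h3]; exact gF_spec h kF4 e'
        · rw [h4]; exact gF_spec h kF5 e'
        · rw [h5]; exact gF_spec h kF6 e'
        · rw [h6]; exact gF_spec h kF7 e'
    og := ⟨choose h.og_ex, (h.sU 8 kU8 _ _ (choose_spec h.og_ex).1.1).1⟩
    og_line := by
      obtain ⟨⟨h1, f, h2, h3⟩, ⟨h4, f', h5, h6⟩, -⟩ := choose_spec h.og_ex
      refine ⟨(gU_iff 8 _).2 h1, ?_, (gU_iff 9 _).2 h4, ?_⟩
      · have hf : AX N f := (h.s3 _ _ h2).1
        have e1 : gsh h ⟨f, hf⟩ = ⟨choose h.og_ex, (h.sU 8 kU8 _ _ (choose_spec h.og_ex).1.1).1⟩ :=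
          Subtype.ext ((gsh_iff h ⟨f, hf⟩ _).1 h2).symm
        rw [← e1, Equiv.symm_apply_apply, ← Bool.not_eq_true, gU_iff]
        exact h3
      · have hf : AX N f' := (h.s3 _ _ h5).1
        have e1 : gsh h ⟨f', hf⟩ = ⟨choose h.og_ex, (h.sU 8 kU8 _ _ (choose_spec h.og_ex).1.1).1⟩ :=
          Subtype.ext ((gsh_iff h ⟨f', hf⟩ _).1 h5).symm
        rw [← e1, Equiv.symm_apply_apply, ← Bool.not_eq_true, gU_iff]
        exact h6
    og_un := by
      intro e h1 h2 h3 h4
      apply Subtype.ext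
      rw [← Bool.not_eq_true, gU_iff] at h2 h4
      rw [gU_iff] at h1 h3
      have hs : N.R 3 [((gsh h).symm e).1, e.1] := by
        have := gsh_spec h ((gsh h).symm e)
        rwa [Equiv.apply_symm_apply] at this
      exact h.og_un _ _ ⟨h1, _, hs, h2⟩ ⟨h3, _, hs, h4⟩ (choose_spec h.og_ex).1 (choose_spec h.og_ex).2.1
    og_st := (gst_iff h ⟨choose h.og_ex, _⟩ _).1 (choose_spec h.og_ex).2.2.1
    og_al := by
      intro i
      obtain ⟨z, hz, hn⟩ := (choose_spec h.og_ex).2.2.2.1 i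
      have e1 := (gF_iff h (kFi i) ⟨choose h.og_ex, (h.sU 8 kU8 _ _ (choose_spec h.og_ex).1.1).1⟩ z).1 hz
      have e2 := g_num h _ _ hn
      exact Subtype.ext (e1.symm.trans e2)
    og_nu := by
      obtain ⟨o, ho, h4, h5⟩ := (choose_spec h.og_ex).2.2.2.2
      have e1 := (gF_iff h kF4 ⟨choose h.og_ex, (h.sU 8 kU8 _ _ (choose_spec h.og_ex).1.1).1⟩ o).1 h4
      have e2 := (go_iff h o).1 ho
      exact Subtype.ext (e1.symm.trans e2)
    og_la := by
      obtain ⟨o, ho, h4, h5⟩ := (choose_spec h.og_ex).2.2.2.2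
      have e1 := (gF_iff h kF5 ⟨choose h.og_ex, (h.sU 8 kU8 _ _ (choose_spec h.og_ex).1.1).1⟩ o).1 h5
      have e2 := (go_iff h o).1 ho
      exact Subtype.ext (e1.symm.trans e2) }

private noncomputable def gE (N : Mdl) : GZ N ⊕ GX N ≃ N.C :=
  (Equiv.sumComm _ _).trans (Equiv.sumCompl (AX N))

private theorem gE_inl (z : GZ N) : gE N (Sum.inl z) = z.1 := by simp [gE]
private theorem gE_inr (x : GX N) : gE N (Sum.inr x) = x.1 := by simp [gE]

private theorem g_cases {r : ℕ} (hr : r < Good.nrel M) :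
    r = 0 ∨ r = 1 ∨ r = 2 ∨ r = 3 ∨ kindF M r ∨ kindU M r := by
  unfold Good.nrel at hr
  by_cases h1 : r < 12
  · have h2 : r = 0 ∨ r = 1 ∨ r = 2 ∨ r = 3 ∨ r = 4 ∨ r = 5 ∨ r = 6 ∨ r = 7 ∨ r = 8 ∨ r = 9 ∨ r = 10 ∨ r = 11 := by
      omega
    rcases h2 with h | h | h | h | h | h | h | h | h | h | h | h
    · exact Or.inl h
    · exact Or.inr (Or.inl h)
    · exact Or.inr (Or.inr (Or.inl h))
    · exact Or.inr (Or.inr (Or.inr (Or.inl h)))
    · exact Or.inr (Or.inr (Or.inr (Or.inr (Or.inl (h ▸ kF4)))))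
    · exact Or.inr (Or.inr (Or.inr (Or.inr (Or.inl (h ▸ kF5)))))
    · exact Or.inr (Or.inr (Or.inr (Or.inr (Or.inl (h ▸ kF6)))))
    · exact Or.inr (Or.inr (Or.inr (Or.inr (Or.inl (h ▸ kF7)))))
    · exact Or.inr (Or.inr (Or.inr (Or.inr (Or.inr (h ▸ kU8)))))
    · exact Or.inr (Or.inr (Or.inr (Or.inr (Or.inr (h ▸ kU9)))))
    · exact Or.inr (Or.inr (Or.inr (Or.inr (Or.inr (h ▸ kU10)))))
    · exact Or.inr (Or.inr (Or.inr (Or.inr (Or.inr (h ▸ kU11)))))
  · by_cases h2 : r < 12 + M.k
    · refine Or.inr (Or.inr (Or.inr (Or.inr (Or.inl ?_))))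
      exact Or.inr (Or.inr (Or.inr (Or.inr ⟨⟨r - 12, by omega⟩, by show r = 12 + (r - 12); omega⟩)))
    · refine Or.inr (Or.inr (Or.inr (Or.inr (Or.inr ?_))))
      exact Or.inr (Or.inr (Or.inr (Or.inr ⟨⟨r - (12 + M.k), by omega⟩,
        by show r = 12 + M.k + (r - (12 + M.k)); omega⟩)))

private theorem g_B (h : GAx M c0 N) {r : ℕ} (hr : r < Good.nrel M) (x y : GZ N ⊕ GX N) :
    (gG h).B r x y ↔ N.R r [gE N x, gE N y] := by
  constructor
  · intro hB
    rcases x with z | e <;> rcases y with w | f <;> simp only [Good.B] at hB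
    · rw [gE_inl, gE_inl]
      rcases hB with ⟨rfl, h1⟩ | ⟨rfl, rfl, h1⟩
      · exact h1
      · exact (go_iff h _).2 (congrArg Subtype.val h1)
    · rw [gE_inl, gE_inr] at *
      rcases hB with ⟨rfl, h1⟩ | ⟨rfl, h1⟩ | ⟨rfl, h1⟩ | ⟨rfl, h1⟩ | ⟨i, rfl, h1⟩
      · exact (gF_iff h kF4 e _).2 (congrArg Subtype.val h1).symm
      · exact (gF_iff h kF5 e _).2 (congrArg Subtype.val h1).symm
      · exact (gF_iff h kF6 e _).2 (congrArg Subtype.val h1).symm
      · exact (gF_iff h kF7 e _).2 (congrArg Subtype.val h1).symm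
      · exact (gF_iff h (kFi i) e _).2 (congrArg Subtype.val h1).symm
    · rw [gE_inr, gE_inr]
      rcases hB with ⟨rfl, h1⟩ | ⟨rfl, h1⟩ | ⟨rfl, rfl, h1⟩ | ⟨rfl, rfl, h1⟩ | ⟨rfl, rfl, h1⟩ | ⟨rfl, rfl, h1⟩ |
        ⟨s, rfl, rfl, h1⟩
      · exact (gdn_iff h e _).2 (congrArg Subtype.val h1).symm
      · exact (gsh_iff h e _).2 (congrArg Subtype.val h1).symm
      · exact (gU_iff 8 e).1 h1
      · exact (gU_iff 9 e).1 h1
      · exact (gU_iff 10 e).1 h1
      · exact (gU_iff 11 e).1 h1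
      · exact (gst_iff h e s).2 h1
  · intro hR
    rcases g_cases hr with rfl | rfl | rfl | rfl | hk | hk
    · have h1 := h.s0 _ _ hR
      rcases x with z | e <;> rcases y with w | f
      · rw [gE_inl, gE_inl] at hR
        exact Or.inl ⟨rfl, hR⟩
      · rw [gE_inr] at h1; exact absurd f.2 h1.2
      · rw [gE_inr] at h1; exact absurd e.2 h1.1
      · rw [gE_inr] at h1; exact absurd e.2 h1.1
    · have h1 := h.s1 _ _ hR
      rcases x with z | e
      · rcases y with w | f
        · rw [gE_inl, gE_inl] at hR h1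
          rw [← h1.2] at hR
          exact Or.inr ⟨rfl, Subtype.ext h1.2, Subtype.ext ((go_iff h _).1 hR)⟩
        · rw [gE_inl, gE_inr] at h1
          exact absurd (h1.2 ▸ f.2) z.2
      · rw [gE_inr] at h1; exact absurd e.2 h1.1
    · have h1 := h.s2 _ _ hR
      have h0 : AX N (gE N x) := ⟨_, hR⟩
      rcases x with z | e
      · rw [gE_inl] at h0; exact absurd h0 z.2
      · rcases y with w | f
        · rw [gE_inl] at h1; exact absurd h1 w.2
        · rw [gE_inr, gE_inr] at hR
          exact Or.inl ⟨rfl, Subtype.ext ((gdn_iff h e _).1 hR).symm⟩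
    · have h1 := h.s3 _ _ hR
      rcases x with z | e
      · rw [gE_inl] at h1; exact absurd h1.1 z.2
      · rcases y with w | f
        · rw [gE_inl] at h1; exact absurd h1.2 w.2
        · rw [gE_inr, gE_inr] at hR
          exact Or.inr (Or.inl ⟨rfl, Subtype.ext ((gsh_iff h e _).1 hR).symm⟩)
    · have h1 := h.sF r hk _ _ hR
      rcases x with z | e
      · rw [gE_inl] at h1; exact absurd h1.1 z.2
      · rcases y with w | f
        · rw [gE_inl, gE_inr] at *
          have h2 := (gF_iff h hk e w.1).1 hR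
          rcases hk with rfl | rfl | rfl | rfl | ⟨i, rfl⟩
          · exact Or.inl ⟨rfl, Subtype.ext h2.symm⟩
          · exact Or.inr (Or.inl ⟨rfl, Subtype.ext h2.symm⟩)
          · exact Or.inr (Or.inr (Or.inl ⟨rfl, Subtype.ext h2.symm⟩))
          · exact Or.inr (Or.inr (Or.inr (Or.inl ⟨rfl, Subtype.ext h2.symm⟩)))
          · exact Or.inr (Or.inr (Or.inr (Or.inr ⟨i, rfl, Subtype.ext h2.symm⟩)))
        · rw [gE_inr, gE_inr] at h1; exact absurd f.2 h1.2
    · have h1 := h.sU r hk _ _ hR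
      rcases x with z | e
      · rw [gE_inl] at h1; exact absurd h1.1 z.2
      · rcases y with w | f
        · rw [gE_inl, gE_inr] at h1
          exact absurd (h1.2 ▸ e.2) w.2
        · rw [gE_inr, gE_inr] at h1 hR
          have hef : e = f := Subtype.ext h1.2
          subst hef
          rcases hk with rfl | rfl | rfl | rfl | ⟨s, rfl⟩
          · exact Or.inr (Or.inr (Or.inl ⟨rfl, rfl, (gU_iff 8 e).2 hR⟩))
          · exact Or.inr (Or.inr (Or.inr (Or.inl ⟨rfl, rfl, (gU_iff 9 e).2 hR⟩)))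
          · exact Or.inr (Or.inr (Or.inr (Or.inr (Or.inl ⟨rfl, rfl, (gU_iff 10 e).2 hR⟩))))
          · exact Or.inr (Or.inr (Or.inr (Or.inr (Or.inr (Or.inl ⟨rfl, rfl, (gU_iff 11 e).2 hR⟩)))))
          · exact Or.inr (Or.inr (Or.inr (Or.inr (Or.inr (Or.inr ⟨s, rfl, rfl, (gst_iff h e s).1 hR⟩)))))

end gaxto

theorem good_of_gax {M : Mach} {c0 : M.Cfg} {N : Mdl} (hN : N.Ok (Good.ar0 M)) (h : GAx M c0 N) :
    ∃ G : Good M c0, G.mdl.Iso N := by
  refine ⟨gG h, gE N, fun r l => ?_⟩
  constructor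
  · intro hR
    have hok := Good.ok (gG h) r l hR
    have hr : r < Good.nrel M := by
      rw [Good.ar0, List.getElem?_replicate] at hok
      split_ifs at hok with h1
      exact h1
    obtain ⟨x, y, rfl, hB⟩ := hR
    exact (g_B h hr x y).1 hB
  · intro hR
    have hok := hN r _ hR
    rw [Good.ar0, List.getElem?_replicate] at hok
    split_ifs at hok with h1
    simp only [Option.some.injEq, List.length_map] at hok
    match l, hok with
    | [x, y], _ => exact ⟨x, y, rfl, (g_B h h1 x y).2 hR⟩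

end CB
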