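import Pool.Agent.Work.MP_cb528c_lc.SysApi

set_option autoImplicit false
set_option linter.all false

/-!
# MP_cb528c_lc, module GBirth: the spoiler chooses `e` not close to `Q`, below a birth `f` at height `i0 ≤ R`

Let `z : Fin (k+4) → Z` be the points `al j f` (`j < k`), `nu f`, `la f`, `ps f`, `rh f`.  By `ZEq.forth_fin` (precision `prec`) get
`z'` and `P1 := P ∪ range (z, z')` with `ZEq (T + 20 R + 50)` or so.  The new counters are `≥ o'` (compare with `(o, o')`).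
Let `f'` be the birth with the data `z'` and the same `st`, `ty`, `sd` (`birth_ex`), `e' := dn^[i0] f'`, `P' := shf G G' R P1`.

`Loc G G' R P' e e'`: `ex` at height `m`: true iff `m ≤ i0` on both sides (`not_above_birth`).  `st`, `zf`, `al`: `run_match` from
`f`, `f'` (the elements at height `m ≤ i0` are `dn^[i0 - m] f`).  `nu`, `la`: `nu_iter`, `la_iter`.  `bi`: the only birth above `e` is `f`
(`birth_un'`).  `u0`, `u1`: `hidden`, `visible0`, `visible1` on both sides and `ZEq` for the points `ps`, `nu` (shifts at most `2 R`).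

`birth_match` (for members `q` of `Q`): if `h'` is a birth with `dn^[m] h' = q.2`, `m ≤ 2 R + 2`, then there is a birth `h` with
`dn^[m] h = q.1` and the same `st`, `ty`, `sd`, with `(ps h, ps h')`, `(rh h, rh h') ∈ P`, with counters shifted by the same amounts
(at most `m`) from those of `q` (`up_match`), `nu h = nu q.1`, `la h = (S^m) (la q.1)`.
Proof: `Loc.ex` at height `m` gives `h`, at height `m + 1` gives that `h` is a birth; `Loc.bi`, `Loc.st`.

`near` for `q ∈ Q` and the new pair: all relations are false on the side of `G` because `e` is not close to `Q`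
(`CloseTo` with `p := q`).  On the side of `G'`: suppose `q.2 = (sh^j) (dn^[i] e')`; then `h' := (sh^j) f'` is a birth at
height `m = i + i0 ≤ 2 R` above `q.2`; suppose `e' = (sh^j) (dn^[i] q.2)`; if `i > i0` then `f'` would be in the range of `dn`, so
`i ≤ i0` and `h' := (sh^(-j)) f'` is a birth at height `m = i0 - i` above `q.2`.  In both cases `birth_match` gives `h`, and
`h = (sh^(±j)) f` by `birth_un`: the counters (`al j h = (S^n) (al j q.1)`, `al j h' = (S'^n) (al j q.2)`, `al j h' = al j f'`, and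
`(al j q.1, al j q.2) ∈ P`, `(al j f, al j f') ∈ P1`, so `ZEq.eq_iff`), `nu`, `la`, `ps`, `rh` in the same way.  Hence `q.1` is in the
corresponding position to `e`, contradiction with the choice of `e`.
`near` of the new pair with itself: `pos_eq_self`.
-/

namespace CB

variable {M : Mach} {c0 : M.Cfg} {G G' : Good M c0}

private theorem sh_sh (G : Good M c0) (a b : ℤ) (e : G.X) : (G.sh ^ a) ((G.sh ^ b) e) = (G.sh ^ (a + b)) e := by
  rw [zpow_add]; rfl

private theorem sh_eq (G : Good M c0) (a : ℤ) (e f : G.X) : (G.sh ^ a) e = f ↔ e = (G.sh ^ (-a)) f := by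
  constructor
  · rintro rfl
    rw [sh_sh, neg_add_cancel]; rfl
  · rintro rfl
    rw [sh_sh, add_neg_cancel]; rfl

private theorem dn_dn (G : Good M c0) (a b : ℕ) (e : G.X) : G.dn^[a] (G.dn^[b] e) = G.dn^[a + b] e :=
  (Function.iterate_add_apply _ _ _ _).symm

private theorem up_dn' (G : Good M c0) {m i : ℕ} {e f : G.X} (h : G.dn^[m] f = G.dn^[i] e) (him : m ≤ i) :
    f = G.dn^[i - m] e := by
  apply G.iter_inj m
  rw [dn_dn, h, Nat.add_sub_cancel' him]

private theorem mem_shf {c : ℕ} {P : Set (G.Z × G'.Z)} {z : G.Z} {z' : G'.Z} (h : (z, z') ∈ P) {n : ℤ} (hn : |n| ≤ c) :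
    ((G.S ^ n) z, (G'.S ^ n) z') ∈ shf G G' c P :=
  ⟨(z, z'), h, n, hn, rfl⟩

theorem birth_match {R T : ℕ} {P : Set (G.Z × G'.Z)} {e : G.X} {e' : G'.X} (h : Loc G G' R P e e') {m : ℕ} (hm : m ≤ R)
    {f' : G'.X} (hf' : G'.dn^[m] f' = e') (hb : G'.Birth f') :
    ∃ f, G.dn^[m] f = e ∧ G.Birth f ∧ G.st f = G'.st f' ∧ G.ty f = G'.ty f' ∧ G.sd f = G'.sd f' ∧
      (G.ps f, G'.ps f') ∈ P ∧ (G.rh f, G'.rh f') ∈ P ∧
      ∀ j, ∃ n : ℤ, |n| ≤ m ∧ G.al j f = (G.S ^ n) (G.al j e) ∧ G'.al j f' = (G'.S ^ n) (G'.al j e') := by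
  obtain ⟨f, hf⟩ := (h.ex m (by omega)).2 ⟨f', hf'⟩
  have hbf : G.Birth f := by
    intro g hg
    obtain ⟨x, hx⟩ := (h.ex (m + 1) (by omega)).1 ⟨g, by rw [Function.iterate_succ_apply, hg, hf]⟩
    exact G'.not_above_birth hb hf' (Nat.lt_succ_self m) ⟨x, hx⟩
  obtain ⟨h1, h2, h3, h4⟩ := h.bi m hm f f' hf hf' hbf
  exact ⟨f, hf, hbf, h.st m (by omega) f f' hf hf', h3, h4, h1, h2, fun j => up_match h (by omega) hf hf' j⟩

/-- the key step: uniqueness of births is transferred -/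
private theorem key {R T : ℕ} {P P1 : Set (G.Z × G'.Z)} {x : G.X} {x' : G'.X} (h : Loc G G' R P x x') (hPP : P ⊆ P1)
    (hz : ZEq G.S G'.S T P1) {f : G.X} {f' : G'.X} (hf : G.Birth f) (hf' : G'.Birth f')
    (hst : G.st f = G'.st f') (hty : G.ty f = G'.ty f') (hsd : G.sd f = G'.sd f')
    (hal : ∀ j, (G.al j f, G'.al j f') ∈ P1) (hnu : (G.nu f, G'.nu f') ∈ P1) (hla : (G.la f, G'.la f') ∈ P1)
    (hps : (G.ps f, G'.ps f') ∈ P1) (hrh : (G.rh f, G'.rh f') ∈ P1) {m : ℕ} (hm : m ≤ R) (hmT : m ≤ T)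
    {b : ℤ} (hb : |b| ≤ T) (hx : G'.dn^[m] ((G'.sh ^ b) f') = x') : G.dn^[m] ((G.sh ^ b) f) = x := by
  have hbh' : G'.Birth ((G'.sh ^ b) f') := (G'.birth_shz _ _).2 hf'
  obtain ⟨g, hg, hbg, g1, g2, g3, g4, g5, g6⟩ := birth_match (T := 0) h hm hx hbh'
  obtain ⟨b1, b2, b3, b4⟩ := G'.birth_data_shz b f' hf'
  obtain ⟨a1, a2, a3, a4⟩ := G.birth_data_shz b f hf
  rw [b1] at g4
  rw [b2] at g5
  rw [b3] at g2
  rw [b4] at g3
  rw [G'.st_shz] at g1
  have hS := G.succ
  have hS' := G'.succ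
  have e0 : |(0 : ℤ)| ≤ T := by rw [abs_zero]; exact Int.natCast_nonneg T
  have hps' : G.ps g = G.ps f := (hz.eq_iff hS hS' (hPP g4) hps (n := 0) e0).2 rfl
  have hrh' : G.rh g = G.rh f := (hz.eq_iff hS hS' (hPP g5) hrh (n := 0) e0).2 rfl
  have hal' : ∀ j, G.al j g = G.al j f := by
    intro j
    obtain ⟨n, hn, n1, n2⟩ := g6 j
    rw [G'.al_shz] at n2
    rw [n1]
    exact (hz.eq_iff hS hS' (hPP (h.al j)) (hal j) (n := n) (hn.trans (by exact_mod_cast hmT))).2 n2.symm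
  have hnu' : G.nu g = (G.S ^ b) (G.nu f) := by
    have e1 : G.nu g = G.nu x := by rw [← hg, G.nu_iter]
    have e2 : (G'.S ^ b) (G'.nu f') = G'.nu x' := by rw [← hx, G'.nu_iter, G'.nu_shz]
    rw [e1]
    exact ((hz.eq_iff hS hS' hnu (hPP h.nu) (n := b) hb).2 e2).symm
  have hla' : G.la g = G.la f := by
    have e1 : G.la g = (G.S ^ (m : ℤ)) (G.la x) := by rw [← hg]; exact G.la_up m g
    have e2 : (G'.S ^ (m : ℤ)) (G'.la x') = G'.la f' := by
      rw [← hx, ← G'.la_up, G'.la_shz]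
    rw [e1]
    exact (hz.eq_iff hS hS' (hPP h.la) hla (n := (m : ℤ)) (by rw [Nat.abs_cast]; exact_mod_cast hmT)).2 e2
  have hgf : g = (G.sh ^ b) f := by
    apply G.birth_un _ _ hbg ((G.birth_shz _ _).2 hf)
    · rw [G.st_shz, g1, hst]
    · intro i
      rw [G.al_shz, hal' i]
    · rw [G.nu_shz, hnu']
    · rw [G.la_shz, hla']
    · rw [a1, hps']
    · rw [a2, hrh']
    · rw [a3, g2, hty]
    · rw [a4, g3, hsd]
  rw [← hgf, hg]

private theorem loc_birth {R T : ℕ} {P1 : Set (G.Z × G'.Z)} (hz : ZEq G.S G'.S T P1) (hT : 2 * R ≤ T)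
    (ho : (G.o, G'.o) ∈ P1) {f : G.X} {f' : G'.X} (hf : G.Birth f) (hf' : G'.Birth f')
    (hst : G.st f = G'.st f') (hty : G.ty f = G'.ty f') (hsd : G.sd f = G'.sd f')
    (hal : ∀ j, (G.al j f, G'.al j f') ∈ P1) (hnu : (G.nu f, G'.nu f') ∈ P1) (hla : (G.la f, G'.la f') ∈ P1)
    (hps : (G.ps f, G'.ps f') ∈ P1) (hrh : (G.rh f, G'.rh f') ∈ P1) {i0 : ℕ} (hi0 : i0 ≤ R) :
    Loc G G' R (shf G G' R P1) (G.dn^[i0] f) (G'.dn^[i0] f') := by
  have hS := G.succ
  have hS' := G'.succ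
  have hc : ∀ n : ℤ, |n| ≤ 2 * R → (G.ps f ≤ (G.S ^ n) (G.nu f) ↔ G'.ps f' ≤ (G'.S ^ n) (G'.nu f')) := by
    intro n hn
    have h1 := hS.pow_le_iff 0 n (z := G.ps f) (w := G.nu f)
    have h2 := hS'.pow_le_iff 0 n (z := G'.ps f') (w := G'.nu f')
    rw [zpow_zero, Equiv.Perm.one_apply] at h1 h2
    rw [h1, h2]
    exact hz _ hps _ hnu (0 - n) (by rw [zero_sub, abs_neg]; omega)
  refine ⟨?_, ?_, ?_, ?_, ?_, ?_, ?_, ?_, ?_⟩
  · intro m hm
    rcases Nat.lt_or_ge i0 m with him | him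
    · constructor
      · intro hex
        exact absurd hex (G.not_above_birth hf rfl him)
      · intro hex
        exact absurd hex (G'.not_above_birth hf' rfl him)
    · constructor
      · rintro -
        exact ⟨G'.dn^[i0 - m] f', by rw [dn_dn, Nat.add_sub_cancel' him]⟩
      · rintro -
        exact ⟨G.dn^[i0 - m] f, by rw [dn_dn, Nat.add_sub_cancel' him]⟩
  · intro m hm g g' hg hg'
    rcases Nat.lt_or_ge i0 m with him | him
    · exact absurd ⟨g, hg⟩ (G.not_above_birth hf rfl him)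
    · rw [up_dn' G hg him, up_dn' G' hg' him]
      exact (run_match hz ho hst hal (i0 - m) (by omega)).1
  · intro m hm g g' hg hg' j
    rcases Nat.lt_or_ge i0 m with him | him
    · exact absurd ⟨g, hg⟩ (G.not_above_birth hf rfl him)
    · rw [up_dn' G hg him, up_dn' G' hg' him]
      exact ((run_match hz ho hst hal (i0 - m) (by omega)).2 j).2
  · intro j
    obtain ⟨n, hn, h1, h2⟩ := ((run_match hz ho hst hal i0 (by omega)).2 j).1
    rw [h1, h2]
    exact mem_shf (hal j) (hn.trans (by exact_mod_cast hi0))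
  · rw [G.nu_iter, G'.nu_iter]
    exact subset_shf hnu
  · rw [G.la_iter, G'.la_iter]
    exact mem_shf hla (by rw [abs_neg, Nat.abs_cast]; exact_mod_cast hi0)
  · intro m hm g g' hg hg' hb
    obtain ⟨rfl, rfl⟩ := G.birth_un' hb hg hf rfl
    have : g' = f' := G'.iter_inj _ hg'
    subst this
    exact ⟨subset_shf hps, subset_shf hrh, hty, hsd⟩
  · intro j hj
    cases ht : G.ty f with
    | false =>
      have ht' : G'.ty f' = false := by rw [← hty, ht]
      have h1 := G.visible0 hf (rfl : G.dn^[i0] f = _) ht j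
      have h2 := G'.visible0 hf' (rfl : G'.dn^[i0] f' = _) ht' j
      rw [Bool.eq_iff_iff, h1, h2]
      exact hc j (by omega)
    | true =>
      have ht' : G'.ty f' = true := by rw [← hty, ht]
      rw [(G.hidden hf rfl).2 ht j, (G'.hidden hf' rfl).2 ht' j, hsd]
  · intro j hj
    cases ht : G.ty f with
    | false =>
      have ht' : G'.ty f' = false := by rw [← hty, ht]
      rw [(G.hidden hf rfl).1 ht j, (G'.hidden hf' rfl).1 ht' j, hsd]
    | true =>
      have ht' : G'.ty f' = true := by rw [← hty, ht]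
      have h1 := G.visible1 hf (rfl : G.dn^[i0] f = _) ht j
      have h2 := G'.visible1 hf' (rfl : G'.dn^[i0] f' = _) ht' j
      rw [Bool.eq_iff_iff, h1, h2]
      refine hc (j - i0) ?_
      have := abs_sub j (i0 : ℤ)
      rw [Nat.abs_cast] at this
      omega

theorem Sys.birth_step {R T : ℕ} {P : Set (G.Z × G'.Z)} {Q : Set (G.X × G'.X)}
    (h : Sys G G' (rad R) (prec M.k R T) P Q) (e : G.X) (hc : ¬ CloseTo G G' R Q e)
    (hb : ∃ i ≤ R, ∃ f, G.Birth f ∧ G.dn^[i] f = e) :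
    ∃ e' P', P ⊆ P' ∧ Sys G G' R T P' (insert (e, e') Q) := by
  obtain ⟨i0, hi0, f, hf, hfe⟩ := hb
  have hS := G.succ
  have hS' := G'.succ
  set T1 := T + 40 * R + 50 with hT1
  have hprec : 2 ^ (M.k + 4) * (T1 + 2) ≤ prec M.k R T := by
    unfold prec
    exact Nat.mul_le_mul (Nat.pow_le_pow_right (by norm_num) (by omega)) (by omega)
  obtain ⟨z', hz'⟩ := ZEq.forth_fin hS hS' (M.k + 4) h.finP ⟨_, h.o_mem⟩ (h.zeq.mono hprec subset_rfl)
    (Fin.append (fun j => G.al j f) ![G.nu f, G.la f, G.ps f, G.rh f])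
  set z : Fin (M.k + 4) → G.Z := Fin.append (fun j => G.al j f) ![G.nu f, G.la f, G.ps f, G.rh f] with hzdef
  set P1 : Set (G.Z × G'.Z) := P ∪ Set.range (fun i => (z i, z' i)) with hP1
  have hPP1 : P ⊆ P1 := Set.subset_union_left
  have hmem : ∀ i, (z i, z' i) ∈ P1 := fun i => Or.inr ⟨i, rfl⟩
  have hal : ∀ j, (G.al j f, z' (Fin.castAdd 4 j)) ∈ P1 := by
    intro j
    have := hmem (Fin.castAdd 4 j)
    rwa [hzdef, Fin.append_left] at this
  have hr : ∀ i : Fin 4, ((![G.nu f, G.la f, G.ps f, G.rh f] : Fin 4 → G.Z) i, z' (Fin.natAdd M.k i)) ∈ P1 := by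
    intro i
    have := hmem (Fin.natAdd M.k i)
    rwa [hzdef, Fin.append_right] at this
  have hnu : (G.nu f, z' (Fin.natAdd M.k 0)) ∈ P1 := hr 0
  have hla : (G.la f, z' (Fin.natAdd M.k 1)) ∈ P1 := hr 1
  have hps : (G.ps f, z' (Fin.natAdd M.k 2)) ∈ P1 := hr 2
  have hrh : (G.rh f, z' (Fin.natAdd M.k 3)) ∈ P1 := hr 3
  have ho : (G.o, G'.o) ∈ P1 := hPP1 h.o_mem
  have hnn : ∀ j, G'.o ≤ z' (Fin.castAdd 4 j) := by
    intro j
    have := (hz' _ ho _ (hal j) 0 (by rw [abs_zero]; exact Int.natCast_nonneg _)).1 (G.al_nonneg j f)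
    exact this
  obtain ⟨f', hf', f1, f2, f3, f4, f5, f6, f7, f8⟩ := G'.birth_ex (G.st f) (fun j => z' (Fin.castAdd 4 j))
    (z' (Fin.natAdd M.k 0)) (z' (Fin.natAdd M.k 1)) (z' (Fin.natAdd M.k 2)) (z' (Fin.natAdd M.k 3)) (G.ty f) (G.sd f) hnn
  have hfB' : G'.Birth f' := hf'
  simp only [← f2, ← f3, ← f4, ← f5, ← f6] at hal hnu hla hps hrh
  have hz1 : ZEq G.S G'.S (T + 2 * R) P1 := hz'.mono (by omega) subset_rfl
  have hPP' : P ⊆ shf G G' R P1 := hPP1.trans subset_shf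
  have hfin1 : P1.Finite := h.finP.union (Set.finite_range _)
  have hRr : 6 * R + 6 = rad R := rfl
  have hL : Loc G G' R (shf G G' R P1) (G.dn^[i0] f) (G'.dn^[i0] f') :=
    loc_birth hz1 (by omega) ho hf hf' f1.symm f7.symm f8.symm hal hnu hla hps hrh hi0
  subst hfe
  -- the new element is not near the old ones
  have hkey : ∀ q ∈ Q, ∀ m ≤ 2 * R, ∀ b : ℤ, |b| ≤ R → G'.dn^[m] ((G'.sh ^ b) f') = q.2 →
      G.dn^[m] ((G.sh ^ b) f) = q.1 := by
    intro q hq m hm b hb hx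
    exact key (h.loc q hq) hPP1 hz' hf hf' f1.symm f7.symm f8.symm hal hnu hla hps hrh (by omega) (by omega)
      (hb.trans (by exact_mod_cast (by omega : R ≤ T1))) hx
  have hN : ∀ q ∈ Q, ∀ a ≤ R, ∀ b : ℤ, |b| ≤ R →
      (q.1 = (G.sh ^ b) (G.dn^[a] (G.dn^[i0] f)) ↔ q.2 = (G'.sh ^ b) (G'.dn^[a] (G'.dn^[i0] f'))) ∧
      (G.dn^[i0] f = (G.sh ^ b) (G.dn^[a] q.1) ↔ G'.dn^[i0] f' = (G'.sh ^ b) (G'.dn^[a] q.2)) := by
    intro q hq a ha b hb
    have n1 : ¬ q.1 = (G.sh ^ b) (G.dn^[a] (G.dn^[i0] f)) := by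
      intro hh
      exact hc ⟨q, hq, a, by omega, b, by omega, Or.inr hh⟩
    have n2 : ¬ G.dn^[i0] f = (G.sh ^ b) (G.dn^[a] q.1) := by
      intro hh
      exact hc ⟨q, hq, a, by omega, b, by omega, Or.inl hh⟩
    constructor
    · refine ⟨fun hh => absurd hh n1, fun hh => absurd ?_ n1⟩
      have h1 : G'.dn^[a + i0] ((G'.sh ^ b) f') = q.2 := by
        rw [G'.iter_sh, hh, dn_dn]
      have h2 := hkey q hq (a + i0) (by omega) b hb h1
      rw [← h2, G.iter_sh, dn_dn]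
    · refine ⟨fun hh => absurd hh n2, fun hh => absurd ?_ n2⟩
      rcases Nat.lt_or_ge i0 a with hia | hia
      · exfalso
        have h1 : f' = (G'.sh ^ b) (G'.dn^[a - i0] q.2) := by
          apply G'.iter_inj i0
          rw [hh, G'.iter_sh, dn_dn, Nat.add_sub_cancel' hia.le]
        obtain ⟨d, hd⟩ : ∃ d, a - i0 = d + 1 := ⟨a - i0 - 1, by omega⟩
        rw [hd, ← G'.iter_sh, Function.iterate_succ_apply'] at h1
        exact hfB' _ h1.symm
      · have h1 : G'.dn^[i0 - a] ((G'.sh ^ (-b)) f') = q.2 := by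
          apply G'.iter_inj a
          rw [dn_dn, Nat.add_sub_cancel' hia, G'.iter_sh, hh, sh_sh, neg_add_cancel]
          rfl
        have h2 := hkey q hq (i0 - a) (by omega) (-b) (by rw [abs_neg]; exact hb) h1
        rw [← h2, dn_dn, Nat.add_sub_cancel' hia, G.iter_sh, sh_sh, add_neg_cancel]
        rfl
  refine ⟨G'.dn^[i0] f', shf G G' R P1, hPP', shf_finite hfin1, h.finQ.insert _, hPP' h.o_mem, zeq_shf hz1,
    Set.mem_insert_of_mem _ h.og_mem, ?_, ?_⟩
  · rintro p (rfl | hp)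
    · exact hL
    · exact (h.loc p hp).mono (by omega) hPP'
  · rintro p (rfl | hp) q (rfl | hq) i hi j hj
    · dsimp only
      rw [G.pos_eq_self, G'.pos_eq_self]
    · exact (hN q hq i hi j hj).1
    · exact (hN p hp i hi j hj).2
    · exact h.near p hp q hq i (by omega) j (by rw [← hRr]; push_cast; omega)

end CB
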