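import Pool.Agent.Work.MP_cb528c_lc.SysApi

set_option autoImplicit false
set_option linter.all false

/-!
# MP_cb528c_lc, module GFar: the spoiler chooses `e` not close to `Q`, and one can go up `R + 1` steps: `dn^[R+1] g = e`

Let `z : Fin (k+2) → Z` be the points `al j g`, `nu g`, `la g`; by `ZEq.forth_fin` get `z'`, `P1 := P ∪ range (z, z')` with
`ZEq (T + 20 R + 50)` or so.
Windows (`window0`, `window1` at `e`): `u0 ((sh^j) e) ↔ a ≤ j`, `u1 ((sh^j) e) ↔ b ≤ j` for `|j| ≤ R`, `a, b ∈ [-R, R+1]`.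
Not both `-R < a ≤ R` and `-R < b ≤ R`: otherwise both lines are visible, and `cross_down`, `cross_up` (with `i = |a - b|`) show
that `e` is close to `og`, which is a member of `Q` (`og_mem`).
* If `b = -R` or `b = R + 1` (the second line is not visible): `ty' := false`, `sd' := (b = -R)`, `ps' := (S'^a) (nu')`
  where `nu'` is the partner of `nu g`.
* Otherwise (`a = -R` or `a = R + 1`): `ty' := true`, `sd' := (a = -R)`, `ps' := (S'^(b - (R+1))) (nu')`.
`rh'` := a point of `G'.Z` different from `rh h'` for all births `h'` above members `q.2` of `Q` (one birth at most above each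
`q.2`, `birth_un'`, so the set of these values is finite; `Succ.infinite`).
`g'` := the birth with these data and `st g' = st g` (`birth_ex`; the counters are `≥ o'`), `e' := dn^[R+1] g'`,
`P' := shf G G' (R+1) P1`.

`Loc G G' R P' e e'`: `ex`: true on both sides for heights `≤ R + 1`.  `st`, `zf`, `al`: `run_match` from `g`, `g'`; `nu`, `la` as usual.
`bi`: there is no birth at height `≤ R` above `e`, `e'` (`not_above_birth`).
`u0`, `u1`: `hidden`, `visible0`, `visible1` for `e'` and the windows.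
`near` with `q ∈ Q`: false on the side of `G` since `e` is not close to `Q`.  On the side of `G'`: if `q.2 = (sh^j) (dn^[i] e')` then
`(sh^j) g'` is a birth at height `i + R + 1` above `q.2`; if `e' = (sh^j) (dn^[i] q.2)`, `i ≤ R`, then `(sh^(-j)) g'` is a birth at height
`R + 1 - i` above `q.2`; in both cases its `rh` is `rh'` (`birth_data_shz`), contradiction.
`near` of the new pair with itself: `pos_eq_self`.
-/

namespace CB

variable {M : Mach} {c0 : M.Cfg} {G G' : Good M c0}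

private theorem shz_neg (G : Good M c0) (j : ℤ) (x : G.X) : (G.sh ^ (-j)) ((G.sh ^ j) x) = x := by
  rw [← Equiv.Perm.mul_apply, ← zpow_add, neg_add_cancel, zpow_zero, Equiv.Perm.one_apply]

private theorem far_up (G : Good M c0) {g e : G.X} {n i : ℕ} (hg : G.dn^[n] g = e) (hi : i ≤ n) :
    G.dn^[i] (G.dn^[n - i] g) = e := by
  rw [← Function.iterate_add_apply, Nat.add_sub_cancel' hi, hg]

private theorem far_eq (G : Good M c0) {g e f : G.X} {n i : ℕ} (hg : G.dn^[n] g = e) (hi : i ≤ n)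
    (hf : G.dn^[i] f = e) : f = G.dn^[n - i] g :=
  G.iter_inj i (hf.trans (far_up G hg hi).symm)

/-- the data for the new birth -/
private theorem far_data {R T : ℕ} {P : Set (G.Z × G'.Z)} {Q : Set (G.X × G'.X)}
    (h : Sys G G' (rad R) (prec M.k R T) P Q) (e : G.X) (hc : ¬ CloseTo G G' R Q e) (n' : G'.Z) :
    ∃ (ty' sd' : Bool) (ps' : G'.Z), ∀ g' : G'.X, G'.Birth g' → G'.nu g' = n' → G'.ps g' = ps' →
      G'.ty g' = ty' → G'.sd g' = sd' →
      (∀ j : ℤ, |j| ≤ R → G.u0 ((G.sh ^ j) e) = G'.u0 ((G'.sh ^ j) (G'.dn^[R + 1] g'))) ∧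
      (∀ j : ℤ, |j| ≤ R → G.u1 ((G.sh ^ j) e) = G'.u1 ((G'.sh ^ j) (G'.dn^[R + 1] g'))) := by
  obtain ⟨a, ha1, ha2, ha⟩ := G.window0 R e
  obtain ⟨b, hb1, hb2, hb⟩ := G.window1 R e
  have hRR : (0 : ℤ) ≤ R := Int.natCast_nonneg R
  have hb' : ∀ x y : Bool, (x = true ↔ y = true) → x = y := by
    intro x y
    cases x <;> cases y <;> simp
  have hor : (b = -R ∨ b = R + 1) ∨ (a = -R ∨ a = R + 1) := by
    by_contra hcon
    push Not at hcon
    obtain ⟨⟨c1, c2⟩, c3, c4⟩ := hcon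
    have d1 : -(R : ℤ) < a := lt_of_le_of_ne ha1 (Ne.symm c3)
    have d2 : a ≤ R := by
      have := lt_of_le_of_ne ha2 c4
      omega
    have d3 : -(R : ℤ) < b := lt_of_le_of_ne hb1 (Ne.symm c1)
    have d4 : b ≤ R := by
      have := lt_of_le_of_ne hb2 c2
      omega
    have e1 : G.u0 ((G.sh ^ a) e) = true := (ha a (abs_le.2 ⟨by omega, d2⟩)).2 le_rfl
    have e2 : G.u0 ((G.sh ^ (a - 1)) e) = false := by
      rw [← Bool.not_eq_true, ha (a - 1) (abs_le.2 ⟨by omega, by omega⟩)]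
      omega
    have e3 : G.u1 ((G.sh ^ b) e) = true := (hb b (abs_le.2 ⟨by omega, d4⟩)).2 le_rfl
    have e4 : G.u1 ((G.sh ^ (b - 1)) e) = false := by
      rw [← Bool.not_eq_true, hb (b - 1) (abs_le.2 ⟨by omega, by omega⟩)]
      omega
    rcases le_total b a with hab | hab
    · obtain ⟨i, hi⟩ : ∃ i : ℕ, a = b + i := ⟨(a - b).toNat, by omega⟩
      have h1 := G.cross_down hi e1 e2 e3 e4
      refine hc ⟨(G.og, G'.og), h.og_mem, i, by omega, a, ?_, Or.inr h1⟩
      rw [abs_le]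
      constructor <;> push_cast <;> omega
    · obtain ⟨i, hi⟩ : ∃ i : ℕ, b = a + i := ⟨(b - a).toNat, by omega⟩
      have h1 := G.cross_up hi e1 e2 e3 e4
      refine hc ⟨(G.og, G'.og), h.og_mem, i, by omega, -a, ?_, Or.inl h1⟩
      rw [abs_le]
      constructor <;> push_cast <;> omega
  rcases hor with hor | hor
  · refine ⟨false, decide (b = -R), (G'.S ^ a) n', fun g' hbg hnu hps hty hsd => ⟨fun j hj => ?_, fun j hj => ?_⟩⟩
    · refine hb' _ _ ?_
      rw [ha j hj, G'.visible0 hbg rfl hty, hps, hnu, G'.succ.pow_le_pow]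
    · rw [(G'.hidden hbg rfl).1 hty j, hsd]
      refine hb' _ _ ?_
      rw [hb j hj, decide_eq_true_iff]
      have hj' := abs_le.1 hj
      constructor
      · intro h1
        rcases hor with h2 | h2
        · exact h2
        · omega
      · intro h1
        omega
  · refine ⟨true, decide (a = -R), (G'.S ^ (b - ((R + 1 : ℕ) : ℤ))) n',
      fun g' hbg hnu hps hty hsd => ⟨fun j hj => ?_, fun j hj => ?_⟩⟩
    · rw [(G'.hidden hbg rfl).2 hty j, hsd]
      refine hb' _ _ ?_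
      rw [ha j hj, decide_eq_true_iff]
      have hj' := abs_le.1 hj
      constructor
      · intro h1
        rcases hor with h2 | h2
        · exact h2
        · omega
      · intro h1
        omega
    · refine hb' _ _ ?_
      rw [hb j hj, G'.visible1 hbg rfl hty, hps, hnu, G'.succ.pow_le_pow]
      omega

/-- a value of `rh` not used by births above members of `Q` -/
private theorem far_rh {Q : Set (G.X × G'.X)} (hQ : Q.Finite) :
    ∃ r : G'.Z, ∀ q ∈ Q, ∀ (m : ℕ) (h' : G'.X), G'.Birth h' → G'.dn^[m] h' = q.2 → G'.rh h' ≠ r := by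
  have hfin : (⋃ q ∈ Q, {x : G'.Z | ∃ (m : ℕ) (h' : G'.X), G'.Birth h' ∧ G'.dn^[m] h' = q.2 ∧ G'.rh h' = x}).Finite := by
    refine hQ.biUnion fun q hq => Set.Subsingleton.finite ?_
    rintro x ⟨m, h1, hb1, hd1, rfl⟩ y ⟨m', h2, hb2, hd2, rfl⟩
    rw [(G'.birth_un' hb1 hd1 hb2 hd2).2]
  haveI : Nonempty G'.Z := ⟨G'.o⟩
  haveI : Infinite G'.Z := G'.succ.infinite
  obtain ⟨r, hr⟩ := hfin.exists_notMem
  refine ⟨r, fun q hq m h' hb hd hrh => hr ?_⟩
  exact Set.mem_biUnion hq ⟨m, h', hb, hd, hrh⟩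

theorem Sys.far_step {R T : ℕ} {P : Set (G.Z × G'.Z)} {Q : Set (G.X × G'.X)}
    (h : Sys G G' (rad R) (prec M.k R T) P Q) (e : G.X) (hc : ¬ CloseTo G G' R Q e)
    (hg : ∃ g, G.dn^[R + 1] g = e) :
    ∃ e' P', P ⊆ P' ∧ Sys G G' R T P' (insert (e, e') Q) := by
  obtain ⟨g, hg⟩ := hg
  -- the points of `Z`
  let z : Fin (M.k + 2) → G.Z := fun i =>
    if hi : (i : ℕ) < M.k then G.al ⟨i, hi⟩ g else if (i : ℕ) = M.k then G.nu g else G.la g
  have hprec : 2 ^ (M.k + 2) * ((T + 20 * R + 50) + 2) ≤ prec M.k R T := by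
    unfold prec
    have h1 : 2 ^ (M.k + 8) = 2 ^ (M.k + 2) * 64 := by
      rw [show M.k + 8 = (M.k + 2) + 6 by omega, pow_add]
      norm_num
    rw [h1, mul_assoc]
    exact Nat.mul_le_mul_left _ (by omega)
  obtain ⟨z', hz'⟩ := ZEq.forth_fin G.succ G'.succ (M.k + 2) h.finP ⟨_, h.o_mem⟩
    (h.zeq.mono hprec subset_rfl) z
  set P1 : Set (G.Z × G'.Z) := P ∪ Set.range (fun i => (z i, z' i)) with hP1
  have hPP1 : P ⊆ P1 := Set.subset_union_left
  have hP1f : P1.Finite := h.finP.union (Set.finite_range _)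
  have hmem : ∀ i, (z i, z' i) ∈ P1 := fun i => Or.inr ⟨i, rfl⟩
  -- partners
  have hal1 : ∀ j : Fin M.k, ∃ i : Fin (M.k + 2), z i = G.al j g := by
    intro j
    refine ⟨⟨j, by have := j.2; omega⟩, ?_⟩
    simp only [z]
    rw [dif_pos j.2]
  choose ial hial using hal1
  have hnu1 : z ⟨M.k, by omega⟩ = G.nu g := by
    simp only [z]
    rw [dif_neg (lt_irrefl _)]
    simp
  have hla1 : z ⟨M.k + 1, by omega⟩ = G.la g := by
    simp only [z]
    rw [dif_neg (by omega)]
    simp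
  have hal2 : ∀ j, (G.al j g, z' (ial j)) ∈ P1 := fun j => by
    have := hmem (ial j)
    rwa [hial] at this
  have hnu2 : (G.nu g, z' ⟨M.k, by omega⟩) ∈ P1 := by
    have := hmem ⟨M.k, by omega⟩
    rwa [hnu1] at this
  have hla2 : (G.la g, z' ⟨M.k + 1, by omega⟩) ∈ P1 := by
    have := hmem ⟨M.k + 1, by omega⟩
    rwa [hla1] at this
  obtain ⟨ty', sd', ps', hwin⟩ := far_data h e hc (z' ⟨M.k, by omega⟩)
  obtain ⟨r', hr'⟩ := far_rh (G := G) (G' := G') h.finQ
  have hge : ∀ j, G'.o ≤ z' (ial j) := by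
    intro j
    have h1 := hz' _ (hPP1 h.o_mem) _ (hal2 j) 0 (by rw [abs_zero]; exact Int.natCast_nonneg _)
    simp only [zpow_zero, Equiv.Perm.one_apply] at h1
    exact h1.1 (G.al_nonneg j g)
  obtain ⟨g', hbg, hst', hal', hnu', hla', hps', hrh', hty', hsd'⟩ :=
    G'.birth_ex (G.st g) (fun j => z' (ial j)) (z' ⟨M.k, by omega⟩) (z' ⟨M.k + 1, by omega⟩) ps' r' ty' sd' hge
  obtain ⟨hw0, hw1⟩ := hwin g' hbg hnu' hps' hty' hsd'
  have halP : ∀ j, (G.al j g, G'.al j g') ∈ P1 := fun j => by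
    rw [hal']
    exact hal2 j
  have hPP' : P1 ⊆ shf G G' (R + 1) P1 := subset_shf
  have hrun := fun (i : ℕ) (hi : i ≤ T + 20 * R + 50) =>
    run_match hz' (hPP1 h.o_mem) hst'.symm halP i hi
  have hloc : Loc G G' R (shf G G' (R + 1) P1) e (G'.dn^[R + 1] g') := by
    refine ⟨fun i hi => ?_, fun i hi f f' hf hf' => ?_, fun i hi f f' hf hf' j => ?_, fun j => ?_, ?_, ?_,
      fun i hi f f' hf hf' hb => ?_, hw0, hw1⟩
    · exact ⟨fun _ => ⟨_, far_up G' rfl hi⟩, fun _ => ⟨_, far_up G hg hi⟩⟩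
    · rw [far_eq G hg hi hf, far_eq G' rfl hi hf']
      exact (hrun (R + 1 - i) (by omega)).1
    · rw [far_eq G hg hi hf, far_eq G' rfl hi hf']
      exact ((hrun (R + 1 - i) (by omega)).2 j).2
    · obtain ⟨n, hn, e1, e2⟩ := ((hrun (R + 1) (by omega)).2 j).1
      rw [hg] at e1
      exact ⟨_, halP j, n, hn, by rw [e1, e2]⟩
    · refine hPP' ?_
      rw [← hg, G.nu_iter, G'.nu_iter, hnu']
      exact hnu2
    · refine ⟨_, hla2, -((R + 1 : ℕ) : ℤ), by rw [abs_neg, Nat.abs_cast], ?_⟩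
      rw [← hg, G.la_iter, G'.la_iter, hla']
    · exfalso
      have h1 := far_eq G hg (by omega : i ≤ R + 1) hf
      obtain ⟨m, hm⟩ : ∃ m, R + 1 - i = m + 1 := ⟨R - i, by omega⟩
      rw [hm, Function.iterate_succ_apply'] at h1
      exact hb _ h1.symm
  have hR : R ≤ rad R := by unfold rad; omega
  refine ⟨G'.dn^[R + 1] g', shf G G' (R + 1) P1, hPP1.trans hPP', ?_⟩
  refine ⟨shf_finite hP1f, h.finQ.insert _, hPP' (hPP1 h.o_mem), ?_, Set.mem_insert_of_mem _ h.og_mem, ?_, ?_⟩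
  · exact zeq_shf (hz'.mono (by omega) subset_rfl)
  · rintro p (rfl | hp)
    · exact hloc
    · exact (h.loc p hp).mono hR (hPP1.trans hPP')
  · -- the new pair against old ones
    have hn1 : ∀ q ∈ Q, ∀ i ≤ R, ∀ j : ℤ, |j| ≤ R →
        (q.1 = (G.sh ^ j) (G.dn^[i] e) ↔ q.2 = (G'.sh ^ j) (G'.dn^[i] (G'.dn^[R + 1] g'))) := by
      intro q hq i hi j hj
      constructor
      · intro h1
        refine absurd ⟨q, hq, i, by omega, j, hj.trans (by push_cast; linarith), Or.inr h1⟩ hc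
      · intro h1
        exfalso
        rw [← Function.iterate_add_apply, ← G'.iter_sh] at h1
        refine hr' q hq _ _ ((G'.birth_shz j g').2 hbg) h1.symm ?_
        rw [(G'.birth_data_shz j g' hbg).2.1, hrh']
    have hn2 : ∀ q ∈ Q, ∀ i ≤ R, ∀ j : ℤ, |j| ≤ R →
        (e = (G.sh ^ j) (G.dn^[i] q.1) ↔ G'.dn^[R + 1] g' = (G'.sh ^ j) (G'.dn^[i] q.2)) := by
      intro q hq i hi j hj
      constructor
      · intro h1
        refine absurd ⟨q, hq, i, by omega, j, hj.trans (by push_cast; linarith), Or.inl h1⟩ hc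
      · intro h1
        exfalso
        rw [← G'.iter_sh] at h1
        have h2 := far_eq G' rfl (by omega : i ≤ R + 1) h1.symm
        have h3 : q.2 = (G'.sh ^ (-j)) (G'.dn^[R + 1 - i] g') := by
          rw [← h2, shz_neg]
        rw [← G'.iter_sh] at h3
        refine hr' q hq _ _ ((G'.birth_shz (-j) g').2 hbg) h3.symm ?_
        rw [(G'.birth_data_shz (-j) g' hbg).2.1, hrh']
    rintro p (rfl | hp) q (rfl | hq) i hi j hj
    · exact G.pos_eq_self.trans G'.pos_eq_self.symm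
    · exact hn1 q hq i hi j hj
    · exact hn2 p hp i hi j hj
    · exact h.near p hp q hq i (hi.trans hR) j (hj.trans (by exact_mod_cast hR))

end CB
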