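import Pool.Agent.Work.MP_cb528c_lc.SysApi

set_option autoImplicit false
set_option linter.all false

/-!
# MP_cb528c_lc, module GNear: the spoiler chooses an element `e` of `X` close to a member `p = (p1, p2)` of `Q`

Source radius `rad R = 6 R + 6`, target radius `R`.  Put `c = 2 R + 2`, `P' := shf G G' c P` (`zeq_shf`, `shf_finite`; the
precision `prec` is at least `T + 2 c + c`).

Case (A) `e = (sh ^ j) (dn^[i] p1)`, `i ≤ c`, `|j| ≤ c`.  Put `e' := (sh ^ j) (dn^[i] p2)`.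
Case (B) `p1 = (sh ^ j) (dn^[i] e)`.  Then `dn^[i] ((sh^j) e) = p1`, so by `Loc.ex` at `p` there is `g'` with `dn^[i] g' = p2`; put
`e' := (sh ^ (-j)) g'`; then `p2 = (sh ^ j) (dn^[i] e')`.

`Loc G G' R P' e e'`:
* `ex`, height `m ≤ R + 1`.  (A): for `m ≤ i` both true; for `m > i` an element at height `m` above `e` is (up to `sh ^ j`) an
  element at height `m - i` above `p1`.  (B): an element at height `m` above `e` is (up to `sh ^ j`) an element at height
  `m + i ≤ 3 R + 3` above `p1` (injectivity of `dn^[i]`, `iter_sh`).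
* `st`, `zf`: (A), `m > i` and (B): from `Loc` at `p` (`st_shz`, `al_shz`).  (A), `m ≤ i`: the element is `(sh^j) (dn^[i-m] p1)`: use
  `run_match` from `p`.
* `al`: (A) `run_match` (the shifts are at most `i`), (B) `up_match` at `p` (shifts at most `i`).  `nu e = (S ^ j) (nu p1)` in (A),
  `(S ^ (-j)) (nu p1)` in (B); `la e = (S ^ (-i)) (la p1)` in (A), `(S ^ i) (la p1)` in (B), the same on the other side.
* `bi`: a birth `f` at height `m ≤ R` above `e`: (A) `m ≥ i` (otherwise `f` is in the range of `dn`) and `(sh^(-j)) f` is a birth at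
  height `m - i` above `p1`; (B) `(sh^j) f` is a birth at height `m + i` above `p1`.  `birth_data_shz`.
* `u0`, `u1`: (A) `u0 ((sh^m) e) = u0 ((sh^(m+j)) p1)`, `u1 ((sh^m) e) = u1 ((sh^(m+j-i)) p1)` (`u0_iter`, `u1_iter`, `iter_sh`).
  (B) `u0 ((sh^m) e) = u0 ((sh^(m-j)) p1)`, `u1 ((sh^m) e) = u1 ((sh^(m+i-j)) p1)` (`u0_iter`, `u1_up`).

`near` for the pairs `((e, e'), q)`, `(q, (e, e'))`, `((e,e'),(e,e'))`, `a ≤ R`, `|b| ≤ R`:
* `q1 = (sh^b) (dn^[a] e)`: (A) `= (sh^(b+j)) (dn^[a+i] p1)`.  (B) if `i ≤ a`: `= (sh^(b-j)) (dn^[a-i] p1)`; if `a < i`: equivalent (apply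
  `dn^[i-a]`, injective) to `dn^[i-a] q1 = (sh^(b-j)) p1`, i.e. `p1 = (sh^(j-b)) (dn^[i-a] q1)`.  All within `near` of radius `rad R` for
  `(p, q)` or `(q, p)`; the same computation on the other side.
* `e = (sh^b) (dn^[a] q1)`: (A) if `i ≤ a`: equivalent to `p1 = (sh^(b-j)) (dn^[a-i] q1)`; if `a < i`: to `q1 = (sh^(j-b)) (dn^[i-a] p1)`.
  (B) equivalent to `p1 = (sh^(j+b)) (dn^[i+a] q1)`.
* itself: `pos_eq_self` on both sides.
It may help to prove first a lemma with `e`, `e'` abstract and hypotheses (A) or (B) on both sides.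
-/

namespace CB

variable {M : Mach} {c0 : M.Cfg} {G G' : Good M c0}

/-- nearness of two pairs -/
private def NR (G G' : Good M c0) (R : ℕ) (x y : G.X × G'.X) : Prop :=
  ∀ i ≤ R, ∀ j : ℤ, |j| ≤ R →
    (y.1 = (G.sh ^ j) (G.dn^[i] x.1) ↔ y.2 = (G'.sh ^ j) (G'.dn^[i] x.2)) ∧
    (x.1 = (G.sh ^ j) (G.dn^[i] y.1) ↔ x.2 = (G'.sh ^ j) (G'.dn^[i] y.2))

private theorem sh_sh (G : Good M c0) (a b : ℤ) (e : G.X) : (G.sh ^ a) ((G.sh ^ b) e) = (G.sh ^ (a + b)) e := by
  rw [zpow_add]; rfl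

private theorem S_S (G : Good M c0) (a b : ℤ) (e : G.Z) : (G.S ^ a) ((G.S ^ b) e) = (G.S ^ (a + b)) e := by
  rw [zpow_add]; rfl

private theorem sh_eq (G : Good M c0) (a : ℤ) (e f : G.X) : (G.sh ^ a) e = f ↔ e = (G.sh ^ (-a)) f := by
  constructor
  · rintro rfl
    rw [sh_sh, neg_add_cancel]; rfl
  · rintro rfl
    rw [sh_sh, add_neg_cancel]; rfl

private theorem eq_sh (G : Good M c0) (a : ℤ) (e f : G.X) : e = (G.sh ^ a) f ↔ (G.sh ^ (-a)) e = f := by
  rw [sh_eq, neg_neg]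

private theorem dn_dn (G : Good M c0) (a b : ℕ) (e : G.X) : G.dn^[a] (G.dn^[b] e) = G.dn^[a + b] e :=
  (Function.iterate_add_apply _ _ _ _).symm

private theorem up_sh (G : Good M c0) {i : ℕ} {j : ℤ} {e f : G.X} (h : G.dn^[i] f = (G.sh ^ j) e) :
    G.dn^[i] ((G.sh ^ (-j)) f) = e := by
  rw [G.iter_sh, h, sh_sh, neg_add_cancel]; rfl

private theorem up_dn (G : Good M c0) {m i : ℕ} {e f : G.X} (h : G.dn^[m] f = G.dn^[i] e) (him : i ≤ m) :
    G.dn^[m - i] f = e := by
  apply G.iter_inj i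
  rw [dn_dn, ← h]
  congr 1
  congr 1
  omega

private theorem up_dn' (G : Good M c0) {m i : ℕ} {e f : G.X} (h : G.dn^[m] f = G.dn^[i] e) (him : m ≤ i) :
    f = G.dn^[i - m] e := by
  apply G.iter_inj m
  rw [dn_dn, h]
  congr 1
  congr 1
  omega

private theorem mem_shf {c : ℕ} {P : Set (G.Z × G'.Z)} {z : G.Z} {z' : G'.Z} (h : (z, z') ∈ P) {n : ℤ} (hn : |n| ≤ c) :
    ((G.S ^ n) z, (G'.S ^ n) z') ∈ shf G G' c P :=
  ⟨(z, z'), h, n, hn, rfl⟩

private theorem birth_of {R : ℕ} {P : Set (G.Z × G'.Z)} {e : G.X} {e' : G'.X} (h : Loc G G' R P e e') {m : ℕ}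
    (hm : m ≤ R) {f : G.X} {f' : G'.X} (hf : G.dn^[m] f = e) (hf' : G'.dn^[m] f' = e') (hb : G.Birth f) :
    G'.Birth f' := by
  intro g' hg'
  have h1 : ∃ x', G'.dn^[m + 1] x' = e' := ⟨g', by rw [Function.iterate_succ_apply, hg', hf']⟩
  obtain ⟨x, hx⟩ := (h.ex (m + 1) (by omega)).2 h1
  exact G.not_above_birth hb hf (Nat.lt_succ_self m) ⟨x, hx⟩

private theorem loc_sh {R c : ℕ} {P : Set (G.Z × G'.Z)} {e : G.X} {e' : G'.X} (h : Loc G G' (R + c) P e e') {j : ℤ}
    (hj : |j| ≤ c) : Loc G G' R (shf G G' c P) ((G.sh ^ j) e) ((G'.sh ^ j) e') := by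
  refine ⟨?_, ?_, ?_, ?_, ?_, ?_, ?_, ?_, ?_⟩
  · intro i hi
    have key := h.ex i (by omega)
    constructor
    · rintro ⟨f, hf⟩
      obtain ⟨f', hf'⟩ := key.1 ⟨_, up_sh G hf⟩
      exact ⟨(G'.sh ^ j) f', by rw [G'.iter_sh, hf']⟩
    · rintro ⟨f, hf⟩
      obtain ⟨f', hf'⟩ := key.2 ⟨_, up_sh G' hf⟩
      exact ⟨(G.sh ^ j) f', by rw [G.iter_sh, hf']⟩
  · intro i hi f f' hf hf'
    have := h.st i (by omega) _ _ (up_sh G hf) (up_sh G' hf')
    rwa [G.st_shz, G'.st_shz] at this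
  · intro i hi f f' hf hf' a
    have := h.zf i (by omega) _ _ (up_sh G hf) (up_sh G' hf') a
    rwa [G.al_shz, G'.al_shz] at this
  · intro a
    rw [G.al_shz, G'.al_shz]
    exact subset_shf (h.al a)
  · rw [G.nu_shz, G'.nu_shz]
    exact mem_shf h.nu hj
  · rw [G.la_shz, G'.la_shz]
    exact subset_shf h.la
  · intro i hi f f' hf hf' hb
    have hb1 : G.Birth ((G.sh ^ (-j)) f) := (G.birth_shz _ _).2 hb
    obtain ⟨h1, h2, h3, h4⟩ := h.bi i (by omega) _ _ (up_sh G hf) (up_sh G' hf') hb1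
    have hb2 : G'.Birth ((G'.sh ^ (-j)) f') := birth_of h (by omega) (up_sh G hf) (up_sh G' hf') hb1
    have hb' : G'.Birth f' := (G'.birth_shz _ _).1 hb2
    obtain ⟨a1, a2, a3, a4⟩ := G.birth_data_shz (-j) f hb
    obtain ⟨b1, b2, b3, b4⟩ := G'.birth_data_shz (-j) f' hb'
    rw [a1, b1] at h1
    rw [a2, b2] at h2
    rw [a3, b3] at h3
    rw [a4, b4] at h4
    exact ⟨subset_shf h1, subset_shf h2, h3, h4⟩
  · intro m hm
    rw [sh_sh, sh_sh]
    exact h.u0 _ (by have := abs_add_le m j; push_cast; omega)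
  · intro m hm
    rw [sh_sh, sh_sh]
    exact h.u1 _ (by have := abs_add_le m j; push_cast; omega)

private theorem loc_dn {R c T : ℕ} {P : Set (G.Z × G'.Z)} {e : G.X} {e' : G'.X} (h : Loc G G' (R + c) P e e')
    (hz : ZEq G.S G'.S T P) (ho : (G.o, G'.o) ∈ P) {i : ℕ} (hi : i ≤ c) (hT : i ≤ T) :
    Loc G G' R (shf G G' c P) (G.dn^[i] e) (G'.dn^[i] e') := by
  have hst0 : G.st e = G'.st e' := h.st 0 (by omega) e e' rfl rfl
  refine ⟨?_, ?_, ?_, ?_, ?_, ?_, ?_, ?_, ?_⟩
  · intro m hm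
    rcases Nat.lt_or_ge i m with him | him
    · have key := h.ex (m - i) (by omega)
      constructor
      · rintro ⟨f, hf⟩
        obtain ⟨f', hf'⟩ := key.1 ⟨f, up_dn G hf him.le⟩
        refine ⟨f', ?_⟩
        rw [← hf', dn_dn]
        congr 1
        congr 1
        omega
      · rintro ⟨f, hf⟩
        obtain ⟨f', hf'⟩ := key.2 ⟨f, up_dn G' hf him.le⟩
        refine ⟨f', ?_⟩
        rw [← hf', dn_dn]
        congr 1
        congr 1
        omega
    · constructor
      · rintro -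
        refine ⟨G'.dn^[i - m] e', ?_⟩
        rw [dn_dn]
        congr 1
        congr 1
        omega
      · rintro -
        refine ⟨G.dn^[i - m] e, ?_⟩
        rw [dn_dn]
        congr 1
        congr 1
        omega
  · intro m hm f f' hf hf'
    rcases Nat.lt_or_ge i m with him | him
    · exact h.st (m - i) (by omega) f f' (up_dn G hf him.le) (up_dn G' hf' him.le)
    · rw [up_dn' G hf him, up_dn' G' hf' him]
      exact (run_match hz ho hst0 h.al (i - m) (by omega)).1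
  · intro m hm f f' hf hf' j
    rcases Nat.lt_or_ge i m with him | him
    · exact h.zf (m - i) (by omega) f f' (up_dn G hf him.le) (up_dn G' hf' him.le) j
    · rw [up_dn' G hf him, up_dn' G' hf' him]
      exact ((run_match hz ho hst0 h.al (i - m) (by omega)).2 j).2
  · intro j
    obtain ⟨n, hn, h1, h2⟩ := ((run_match hz ho hst0 h.al i hT).2 j).1
    rw [h1, h2]
    exact mem_shf (h.al j) (hn.trans (by exact_mod_cast hi))
  · rw [G.nu_iter, G'.nu_iter]
    exact subset_shf h.nu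
  · rw [G.la_iter, G'.la_iter]
    exact mem_shf h.la (by rw [abs_neg, Nat.abs_cast]; exact_mod_cast hi)
  · intro m hm f f' hf hf' hb
    rcases Nat.lt_or_ge m i with him | him
    · exfalso
      have h1 := up_dn' G hf him.le
      obtain ⟨d, hd⟩ : ∃ d, i - m = d + 1 := ⟨i - m - 1, by omega⟩
      rw [hd, Function.iterate_succ_apply'] at h1
      exact hb _ h1.symm
    · obtain ⟨h1, h2, h3, h4⟩ := h.bi (m - i) (by omega) f f' (up_dn G hf him) (up_dn G' hf' him) hb
      exact ⟨subset_shf h1, subset_shf h2, h3, h4⟩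
  · intro m hm
    rw [← G.iter_sh, ← G'.iter_sh, G.u0_iter, G'.u0_iter]
    exact h.u0 m (by push_cast; omega)
  · intro m hm
    rw [← G.iter_sh, ← G'.iter_sh, G.u1_iter, G'.u1_iter, sh_sh, sh_sh]
    refine h.u1 _ ?_
    have h1 := abs_add_le (-(i : ℤ)) m
    rw [abs_neg, Nat.abs_cast] at h1
    push_cast
    omega

private theorem loc_up {R c : ℕ} {P : Set (G.Z × G'.Z)} {g : G.X} {g' : G'.X} {i : ℕ} (hi : i ≤ c)
    (h : Loc G G' (R + c) P (G.dn^[i] g) (G'.dn^[i] g')) :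
    Loc G G' R (shf G G' c P) g g' := by
  have lift : ∀ m f, G.dn^[m] f = g → G.dn^[m + i] f = G.dn^[i] g := by
    intro m f hf
    rw [← hf, dn_dn, Nat.add_comm]
  have lift' : ∀ m f, G'.dn^[m] f = g' → G'.dn^[m + i] f = G'.dn^[i] g' := by
    intro m f hf
    rw [← hf, dn_dn, Nat.add_comm]
  have down : ∀ m f, G.dn^[m + i] f = G.dn^[i] g → G.dn^[m] f = g := by
    intro m f hf
    have := up_dn G hf (by omega)
    rwa [Nat.add_sub_cancel] at this
  have down' : ∀ m f, G'.dn^[m + i] f = G'.dn^[i] g' → G'.dn^[m] f = g' := by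
    intro m f hf
    have := up_dn G' hf (by omega)
    rwa [Nat.add_sub_cancel] at this
  refine ⟨?_, ?_, ?_, ?_, ?_, ?_, ?_, ?_, ?_⟩
  · intro m hm
    have key := h.ex (m + i) (by omega)
    constructor
    · rintro ⟨f, hf⟩
      obtain ⟨f', hf'⟩ := key.1 ⟨f, lift m f hf⟩
      exact ⟨f', down' m f' hf'⟩
    · rintro ⟨f, hf⟩
      obtain ⟨f', hf'⟩ := key.2 ⟨f, lift' m f hf⟩
      exact ⟨f', down m f' hf'⟩
  · intro m hm f f' hf hf'
    exact h.st (m + i) (by omega) f f' (lift m f hf) (lift' m f' hf')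
  · intro m hm f f' hf hf'
    exact h.zf (m + i) (by omega) f f' (lift m f hf) (lift' m f' hf')
  · intro j
    obtain ⟨n, hn, h1, h2⟩ := up_match h (m := i) (by omega) (f := g) (f' := g') rfl rfl j
    rw [h1, h2]
    exact mem_shf (h.al j) (hn.trans (by exact_mod_cast hi))
  · have := h.nu
    rw [G.nu_iter, G'.nu_iter] at this
    exact subset_shf this
  · rw [G.la_up i g, G'.la_up i g']
    exact mem_shf h.la (by rw [Nat.abs_cast]; exact_mod_cast hi)
  · intro m hm f f' hf hf' hb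
    obtain ⟨h1, h2, h3, h4⟩ := h.bi (m + i) (by omega) f f' (lift m f hf) (lift' m f' hf') hb
    exact ⟨subset_shf h1, subset_shf h2, h3, h4⟩
  · intro m hm
    have := h.u0 m (by push_cast; omega)
    rwa [← G.iter_sh, ← G'.iter_sh, G.u0_iter, G'.u0_iter] at this
  · intro m hm
    rw [G.u1_up i, G'.u1_up i, G.iter_sh, G'.iter_sh, sh_sh, sh_sh]
    refine h.u1 _ ?_
    have h1 := abs_add_le (i : ℤ) m
    rw [Nat.abs_cast] at h1
    push_cast
    omega

private theorem NR.sh {R c : ℕ} {x : G.X} {x' : G'.X} {y : G.X × G'.X} (h : NR G G' (R + c) (x, x') y) {j : ℤ}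
    (hj : |j| ≤ c) : NR G G' R ((G.sh ^ j) x, (G'.sh ^ j) x') y := by
  intro a ha b hb
  have hb' : |b| ≤ (R : ℤ) := hb
  constructor
  · have := (h a (by omega) (b + j) (by have := abs_add_le b j; push_cast; omega)).1
    dsimp only at this ⊢
    rw [G.iter_sh, G'.iter_sh, sh_sh, sh_sh]
    exact this
  · have := (h a (by omega) (-j + b) (by have := abs_add_le (-j) b; rw [abs_neg] at this; push_cast; omega)).2
    dsimp only at this ⊢
    rw [sh_eq, sh_eq, sh_sh, sh_sh]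
    exact this

private theorem dn_eq (G : Good M c0) {a i : ℕ} {b : ℤ} {x y : G.X} (h : i ≤ a) :
    G.dn^[i] x = (G.sh ^ b) (G.dn^[a] y) ↔ x = (G.sh ^ b) (G.dn^[a - i] y) := by
  constructor
  · intro h1
    apply G.iter_inj i
    rw [h1, G.iter_sh, dn_dn]
    congr 3
    omega
  · intro h1
    rw [h1, G.iter_sh, dn_dn]
    congr 3
    omega

private theorem dn_eq' (G : Good M c0) {a i : ℕ} {b : ℤ} {x y : G.X} (h : a ≤ i) :
    G.dn^[i] x = (G.sh ^ b) (G.dn^[a] y) ↔ y = (G.sh ^ (-b)) (G.dn^[i - a] x) := by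
  rw [eq_comm, sh_eq, dn_eq G h]

private theorem NR.dn {R c : ℕ} {x : G.X} {x' : G'.X} {y : G.X × G'.X} (h : NR G G' (R + c) (x, x') y) {i : ℕ}
    (hi : i ≤ c) : NR G G' R (G.dn^[i] x, G'.dn^[i] x') y := by
  intro a ha b hb
  have hb' : |b| ≤ (R : ℤ) := hb
  have hbc : |b| ≤ ((R + c : ℕ) : ℤ) := by push_cast; omega
  constructor
  · have := (h (a + i) (by omega) b hbc).1
    dsimp only at this ⊢
    rw [dn_dn, dn_dn]
    exact this
  · rcases Nat.lt_or_ge i a with hia | hia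
    · have := (h (a - i) (by omega) b hbc).2
      dsimp only at this ⊢
      rw [dn_eq G hia.le, dn_eq G' hia.le]
      exact this
    · have := (h (i - a) (by omega) (-b) (by rw [abs_neg]; exact hbc)).1
      dsimp only at this ⊢
      rw [dn_eq' G hia, dn_eq' G' hia]
      exact this

private theorem NR.up {R c : ℕ} {x : G.X} {x' : G'.X} {y : G.X × G'.X} {i : ℕ} (hi : i ≤ c)
    (h : NR G G' (R + c) (G.dn^[i] x, G'.dn^[i] x') y) : NR G G' R (x, x') y := by
  intro a ha b hb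
  have hb' : |b| ≤ (R : ℤ) := hb
  have hbc : |b| ≤ ((R + c : ℕ) : ℤ) := by push_cast; omega
  have hbn : |-b| ≤ ((R + c : ℕ) : ℤ) := by rw [abs_neg]; exact hbc
  constructor
  · rcases Nat.lt_or_ge i a with hia | hia
    · have := (h (a - i) (by omega) b hbc).1
      dsimp only at this ⊢
      rw [dn_dn, dn_dn, Nat.sub_add_cancel hia.le] at this
      exact this
    · have := (h (i - a) (by omega) (-b) hbn).2
      dsimp only at this ⊢
      rw [dn_eq' G (Nat.sub_le i a), dn_eq' G' (Nat.sub_le i a), Nat.sub_sub_self hia, neg_neg] at this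
      exact this
  · have := (h (a + i) (by omega) b hbc).2
    dsimp only at this ⊢
    rw [dn_eq G (by omega), dn_eq G' (by omega), Nat.add_sub_cancel] at this
    exact this

private theorem finish {R T : ℕ} {P P' : Set (G.Z × G'.Z)} {Q : Set (G.X × G'.X)} {e : G.X} {e' : G'.X}
    (h : Sys G G' (rad R) (prec M.k R T) P Q) (hPP : P ⊆ P') (hfin : P'.Finite) (hz : ZEq G.S G'.S T P')
    (hL : Loc G G' R P' e e') (hN : ∀ q ∈ Q, NR G G' R (e, e') q) : Sys G G' R T P' (insert (e, e') Q) := by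
  have hR : R ≤ rad R := by unfold rad; omega
  refine ⟨hfin, h.finQ.insert _, hPP h.o_mem, hz, Set.mem_insert_of_mem _ h.og_mem, ?_, ?_⟩
  · rintro p (rfl | hp)
    · exact hL
    · exact (h.loc p hp).mono hR hPP
  · rintro p (rfl | hp) q (rfl | hq) i hi j hj
    · dsimp only
      rw [G.pos_eq_self, G'.pos_eq_self]
    · exact (hN q hq i hi j hj).1
    · exact (hN p hp i hi j hj).2
    · exact h.near p hp q hq i (by omega) j (by have : (R : ℤ) ≤ (rad R : ℕ) := by exact_mod_cast hR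
                                                omega)

private theorem prec_ge (k R T : ℕ) : T + 40 * R + 100 ≤ prec k R T := by
  unfold prec
  exact Nat.le_mul_of_pos_left _ (by positivity)

theorem Sys.near_step {R T : ℕ} {P : Set (G.Z × G'.Z)} {Q : Set (G.X × G'.X)}
    (h : Sys G G' (rad R) (prec M.k R T) P Q) (e : G.X) (hc : CloseTo G G' R Q e) :
    ∃ e' P', P ⊆ P' ∧ Sys G G' R T P' (insert (e, e') Q) := by
  obtain ⟨p, hp, i, hi, j, hj, hc⟩ := hc
  have hj' : |j| ≤ ((2 * R + 2 : ℕ) : ℤ) := by push_cast; exact hj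
  set c := 2 * R + 2 with hcdef
  have hrad : R + c + c ≤ rad R := by unfold rad; omega
  have hL : Loc G G' (R + c + c) P p.1 p.2 := (h.loc p hp).mono hrad subset_rfl
  have hN : ∀ q ∈ Q, NR G G' (R + c + c) (p.1, p.2) q := by
    intro q hq a ha b hb
    have hb' : |b| ≤ ((rad R : ℕ) : ℤ) := hb.trans (by exact_mod_cast hrad)
    exact ⟨h.near p hp q hq a (by omega) b hb', h.near q hq p hp a (by omega) b hb'⟩
  have hpr := prec_ge M.k R T
  have hz : ZEq G.S G'.S (T + 2 * c + 2 * c) P := h.zeq.mono (by omega) subset_rfl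
  have hz2 : ZEq G.S G'.S T (shf G G' c (shf G G' c P)) := zeq_shf (zeq_shf hz)
  have hsub : P ⊆ shf G G' c (shf G G' c P) := subset_shf.trans subset_shf
  have hfin : (shf G G' c (shf G G' c P)).Finite := shf_finite (shf_finite h.finP)
  rcases hc with hA | hB
  · refine ⟨(G'.sh ^ j) (G'.dn^[i] p.2), _, hsub, finish h hsub hfin hz2 ?_ ?_⟩
    · rw [hA]
      exact loc_sh (loc_dn hL hz h.o_mem hi (by omega)) hj'
    · intro q hq
      rw [hA]
      exact ((hN q hq).dn hi).sh hj'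
  · have h1 : G.dn^[i] ((G.sh ^ j) e) = p.1 := by rw [G.iter_sh, hB]
    obtain ⟨g', hg'⟩ := (hL.ex i (by omega)).1 ⟨_, h1⟩
    have he : e = (G.sh ^ (-j)) ((G.sh ^ j) e) := by rw [sh_sh, neg_add_cancel]; rfl
    have hjn : |-j| ≤ (c : ℤ) := by rw [abs_neg]; exact hj'
    refine ⟨(G'.sh ^ (-j)) g', _, hsub, finish h hsub hfin hz2 ?_ ?_⟩
    · rw [he]
      refine loc_sh (loc_up (i := i) hi ?_) hjn
      rw [h1, hg']
      exact hL
    · intro q hq
      rw [he]
      refine NR.sh (NR.up (i := i) hi ?_) hjn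
      rw [h1, hg']
      exact hN q hq

end CB
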