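import Pool.Agent.Work.MP_cb528c_lc.GInit
import Pool.Agent.Work.MP_cb528c_lc.GNear
import Pool.Agent.Work.MP_cb528c_lc.GBirth
import Pool.Agent.Work.MP_cb528c_lc.GFar

set_option autoImplicit false
set_option linter.all false

/-!
# MP_cb528c_lc, module GFactB: branches agreeing far enough give elementarily equivalent (up to `n` rounds) structures

* `Sys.stepX`: the three cases `near_step`, `birth_step`, `far_step` (`up_or_birth (R + 1)`).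
* `atomic`: `Sys G G' 1 1 P Q` implies `EF G.mdl G'.mdl 0 S` when every pair of `S` is `(inl z, inl z')` with `(z, z') ∈ P` or
  `(inr e, inr e')` with `(e, e') ∈ Q`: equality by `ZEq.eq_iff` resp. `near` with `i = 0`, `j = 0`; the relations one by one
  (`Good.B`): `0`: `ZEq` (`z < w ↔ ¬ w ≤ z`); `1`: `(o, o') ∈ P`; `2`: `near` `i = 1`, `j = 0`; `3`: `near` `i = 0`, `j = 1`; `4`, `5`, `12 + i`: `Loc.nu`,
  `Loc.la`, `Loc.al` and `ZEq.eq_iff`; `6`, `7`, `10`, `11`: if `e` is a birth (`Loc.ex` at height `1` shows that then `e'` is a birth) use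
  `Loc.bi` at height `0`, otherwise the values are `o`, `o`, `false`, `false` (`ps_dn` ...); `8`, `9`: `Loc.u0`, `Loc.u1` with `j = 0`; states:
  `Loc.st` at height `0`.
* `good_ef`: `EF.of_system` with `C n S := ∃ P Q, Sys G G' (RR n) (TT n) P Q ∧ (every pair of S is in P or Q as above)` where
  `RR 0 = 1`, `TT 0 = 1`, `RR (n+1) = rad (RR n)`, `TT (n+1) = max (prec k (RR n) (TT n)) (2 * TT n + 2)`; `R := RR n + 1`; start with
  `Sys.init`; moves in `Z` by `Sys.addZ` (and `Sys.symm`), moves in `X` by `Sys.stepX`.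
-/

namespace CB

variable {M : Mach} {c0 : M.Cfg} {G G' : Good M c0}

theorem Sys.stepX {R T : ℕ} {P : Set (G.Z × G'.Z)} {Q : Set (G.X × G'.X)}
    (h : Sys G G' (rad R) (prec M.k R T) P Q) (e : G.X) :
    ∃ e' P', P ⊆ P' ∧ Sys G G' R T P' (insert (e, e') Q) := by
  by_cases hc : CloseTo G G' R Q e
  · exact h.near_step e hc
  rcases G.up_or_birth (R + 1) e with hg | ⟨m, hm, f, hf, he⟩
  · exact h.far_step e hc hg
  · exact h.birth_step e hc ⟨m, by omega, f, hf, he⟩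

private theorem eq0 {P : Set (G.Z × G'.Z)} {Q : Set (G.X × G'.X)} (h : Sys G G' 1 1 P Q) {x y : G.Z} {x' y' : G'.Z}
    (hx : (x, x') ∈ P) (hy : (y, y') ∈ P) : x = y ↔ x' = y' := by
  have := ZEq.eq_iff G.succ G'.succ h.zeq hx hy (n := 0) (by simp)
  rw [zpow_zero, zpow_zero] at this
  exact this

private theorem lt0 {P : Set (G.Z × G'.Z)} {Q : Set (G.X × G'.X)} (h : Sys G G' 1 1 P Q) {x y : G.Z} {x' y' : G'.Z}
    (hx : (x, x') ∈ P) (hy : (y, y') ∈ P) : x < y ↔ x' < y' := by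
  have := h.zeq _ hy _ hx 0 (by simp)
  rw [zpow_zero, zpow_zero] at this
  rw [← not_le, ← not_le]
  exact not_congr this

private theorem birth_iff {R : ℕ} {P : Set (G.Z × G'.Z)} {e : G.X} {e' : G'.X} (h : Loc G G' R P e e') :
    G.Birth e ↔ G'.Birth e' := by
  have h1 := h.ex 1 (by omega)
  have a1 : (∃ f, G.dn^[1] f = e) ↔ ¬ G.Birth e := by
    unfold Good.Birth
    push Not
    rfl
  have a2 : (∃ f, G'.dn^[1] f = e') ↔ ¬ G'.Birth e' := by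
    unfold Good.Birth
    push Not
    rfl
  rw [a1, a2] at h1
  exact not_iff_not.1 h1

private theorem data0 {P : Set (G.Z × G'.Z)} {Q : Set (G.X × G'.X)} (h : Sys G G' 1 1 P Q) {e : G.X} {e' : G'.X}
    (he : (e, e') ∈ Q) : (G.ps e, G'.ps e') ∈ P ∧ (G.rh e, G'.rh e') ∈ P ∧ G.ty e = G'.ty e' ∧ G.sd e = G'.sd e' := by
  have hl := h.loc _ he
  by_cases hb : G.Birth e
  · exact hl.bi 0 (by omega) e e' rfl rfl hb
  · have hb' : ¬ G'.Birth e' := fun h' => hb ((birth_iff hl).2 h')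
    unfold Good.Birth at hb hb'
    push Not at hb hb'
    obtain ⟨f, rfl⟩ := hb
    obtain ⟨f', rfl⟩ := hb'
    refine ⟨?_, ?_, ?_, ?_⟩
    · rw [G.ps_dn, G'.ps_dn]
      exact h.o_mem
    · rw [G.rh_dn, G'.rh_dn]
      exact h.o_mem
    · rw [G.ty_dn, G'.ty_dn]
    · rw [G.sd_dn, G'.sd_dn]

private theorem xx {P : Set (G.Z × G'.Z)} {Q : Set (G.X × G'.X)} (h : Sys G G' 1 1 P Q) {e f : G.X} {e' f' : G'.X}
    (he : (e, e') ∈ Q) (hf : (f, f') ∈ Q) :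
    (e = f ↔ e' = f') ∧ (G.dn e = f ↔ G'.dn e' = f') ∧ (G.sh e = f ↔ G'.sh e' = f') := by
  refine ⟨?_, ?_, ?_⟩
  · have := h.near _ he _ hf 0 (by omega) 0 (by simp)
    rw [zpow_zero, zpow_zero] at this
    exact ⟨fun h1 => (this.1 h1.symm).symm, fun h1 => (this.2 h1.symm).symm⟩
  · have := h.near _ he _ hf 1 (by omega) 0 (by simp)
    rw [zpow_zero, zpow_zero] at this
    exact ⟨fun h1 => (this.1 h1.symm).symm, fun h1 => (this.2 h1.symm).symm⟩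
  · have := h.near _ he _ hf 0 (by omega) 1 (by simp)
    rw [zpow_one, zpow_one] at this
    exact ⟨fun h1 => (this.1 h1.symm).symm, fun h1 => (this.2 h1.symm).symm⟩

private theorem B_iff {P : Set (G.Z × G'.Z)} {Q : Set (G.X × G'.X)} (h : Sys G G' 1 1 P Q)
    {p q : (G.Z ⊕ G.X) × (G'.Z ⊕ G'.X)}
    (hp : (∃ z z', (z, z') ∈ P ∧ p = (Sum.inl z, Sum.inl z')) ∨ ∃ e e', (e, e') ∈ Q ∧ p = (Sum.inr e, Sum.inr e'))
    (hq : (∃ z z', (z, z') ∈ P ∧ q = (Sum.inl z, Sum.inl z')) ∨ ∃ e e', (e, e') ∈ Q ∧ q = (Sum.inr e, Sum.inr e'))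
    (r : ℕ) : G.B r p.1 q.1 ↔ G'.B r p.2 q.2 := by
  rcases hp with ⟨z, z', hz, rfl⟩ | ⟨e, e', he, rfl⟩
  · rcases hq with ⟨w, w', hw, rfl⟩ | ⟨f, f', hf, rfl⟩
    · show ((r = 0 ∧ z < w) ∨ (r = 1 ∧ z = w ∧ z = G.o)) ↔ ((r = 0 ∧ z' < w') ∨ (r = 1 ∧ z' = w' ∧ z' = G'.o))
      rw [lt0 h hz hw, eq0 h hz hw, eq0 h hz h.o_mem]
    · exact Iff.rfl
  · have hl := h.loc _ he
    obtain ⟨d1, d2, d3, d4⟩ := data0 h he
    rcases hq with ⟨w, w', hw, rfl⟩ | ⟨f, f', hf, rfl⟩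
    · show ((r = 4 ∧ G.nu e = w) ∨ (r = 5 ∧ G.la e = w) ∨ (r = 6 ∧ G.ps e = w) ∨
        (r = 7 ∧ G.rh e = w) ∨ ∃ i : Fin M.k, r = 12 + i ∧ G.al i e = w) ↔
        ((r = 4 ∧ G'.nu e' = w') ∨ (r = 5 ∧ G'.la e' = w') ∨ (r = 6 ∧ G'.ps e' = w') ∨
        (r = 7 ∧ G'.rh e' = w') ∨ ∃ i : Fin M.k, r = 12 + i ∧ G'.al i e' = w')
      have k1 : G.nu e = w ↔ G'.nu e' = w' := eq0 h hl.nu hw
      have k2 : G.la e = w ↔ G'.la e' = w' := eq0 h hl.la hw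
      have k3 : G.ps e = w ↔ G'.ps e' = w' := eq0 h d1 hw
      have k4 : G.rh e = w ↔ G'.rh e' = w' := eq0 h d2 hw
      have k5 : ∀ i, G.al i e = w ↔ G'.al i e' = w' := fun i => eq0 h (hl.al i) hw
      rw [k1, k2, k3, k4]
      simp only [k5]
    · obtain ⟨x1, x2, x3⟩ := xx h he hf
      show ((r = 2 ∧ G.dn e = f) ∨ (r = 3 ∧ G.sh e = f) ∨ (r = 8 ∧ e = f ∧ G.u0 e = true) ∨
        (r = 9 ∧ e = f ∧ G.u1 e = true) ∨ (r = 10 ∧ e = f ∧ G.ty e = true) ∨ (r = 11 ∧ e = f ∧ G.sd e = true) ∨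
        ∃ s : Fin M.q, r = 12 + M.k + s ∧ e = f ∧ G.st e = s) ↔
        ((r = 2 ∧ G'.dn e' = f') ∨ (r = 3 ∧ G'.sh e' = f') ∨ (r = 8 ∧ e' = f' ∧ G'.u0 e' = true) ∨
        (r = 9 ∧ e' = f' ∧ G'.u1 e' = true) ∨ (r = 10 ∧ e' = f' ∧ G'.ty e' = true) ∨
        (r = 11 ∧ e' = f' ∧ G'.sd e' = true) ∨
        ∃ s : Fin M.q, r = 12 + M.k + s ∧ e' = f' ∧ G'.st e' = s)
      have u0 : G.u0 e = G'.u0 e' := by
        have := hl.u0 0 (by simp)
        rw [zpow_zero, zpow_zero] at this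
        exact this
      have u1 : G.u1 e = G'.u1 e' := by
        have := hl.u1 0 (by simp)
        rw [zpow_zero, zpow_zero] at this
        exact this
      have st : G.st e = G'.st e' := hl.st 0 (by omega) e e' rfl rfl
      rw [x1, x2, x3, u0, u1, st, d3, d4]

theorem atomic {P : Set (G.Z × G'.Z)} {Q : Set (G.X × G'.X)} (h : Sys G G' 1 1 P Q)
    {S : Set (G.mdl.C × G'.mdl.C)}
    (hS : ∀ p ∈ S, (∃ z z', (z, z') ∈ P ∧ p = (Sum.inl z, Sum.inl z')) ∨ ∃ e e', (e, e') ∈ Q ∧ p = (Sum.inr e, Sum.inr e')) :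
    EF G.mdl G'.mdl 0 S := by
  refine ⟨fun p hp q hq => ?_, fun r l hl => ?_⟩
  · rcases hS p hp with ⟨z, z', hz, rfl⟩ | ⟨e, e', he, rfl⟩
    · rcases hS q hq with ⟨w, w', hw, rfl⟩ | ⟨f, f', hf, rfl⟩
      · show (Sum.inl z : G.Z ⊕ G.X) = Sum.inl w ↔ (Sum.inl z' : G'.Z ⊕ G'.X) = Sum.inl w'
        rw [Sum.inl.injEq, Sum.inl.injEq]
        exact eq0 h hz hw
      · show (Sum.inl z : G.Z ⊕ G.X) = Sum.inr f ↔ (Sum.inl z' : G'.Z ⊕ G'.X) = Sum.inr f'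
        simp
    · rcases hS q hq with ⟨w, w', hw, rfl⟩ | ⟨f, f', hf, rfl⟩
      · show (Sum.inr e : G.Z ⊕ G.X) = Sum.inl w ↔ (Sum.inr e' : G'.Z ⊕ G'.X) = Sum.inl w'
        simp
      · show (Sum.inr e : G.Z ⊕ G.X) = Sum.inr f ↔ (Sum.inr e' : G'.Z ⊕ G'.X) = Sum.inr f'
        rw [Sum.inr.injEq, Sum.inr.injEq]
        exact (xx h he hf).1
  · show (∃ x y, l.map Prod.fst = [x, y] ∧ G.B r x y) ↔ ∃ x y, l.map Prod.snd = [x, y] ∧ G'.B r x y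
    rcases l with _ | ⟨p, _ | ⟨q, _ | ⟨t, l⟩⟩⟩
    · simp
    · simp
    · have hp := hS p (hl p (by simp))
      have hq := hS q (hl q (by simp))
      have hB := B_iff h hp hq r
      constructor
      · rintro ⟨x, y, hxy, hb⟩
        simp only [List.map_cons, List.map_nil, List.cons.injEq, and_true] at hxy
        obtain ⟨rfl, rfl⟩ := hxy
        exact ⟨p.2, q.2, rfl, hB.1 hb⟩
      · rintro ⟨x, y, hxy, hb⟩
        simp only [List.map_cons, List.map_nil, List.cons.injEq, and_true] at hxy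
        obtain ⟨rfl, rfl⟩ := hxy
        exact ⟨p.1, q.1, rfl, hB.2 hb⟩
    · simp

private def rt (k : ℕ) : ℕ → ℕ × ℕ
  | 0 => (1, 1)
  | n + 1 => (rad (rt k n).1, max (prec k (rt k n).1 (rt k n).2) (2 * (rt k n).2 + 2))

private theorem le_rad (R : ℕ) : R ≤ rad R := by
  unfold rad
  omega

private def Ok (G G' : Good M c0) (P : Set (G.Z × G'.Z)) (Q : Set (G.X × G'.X)) (S : Set (G.mdl.C × G'.mdl.C)) : Prop :=
  ∀ p ∈ S, (∃ z z', (z, z') ∈ P ∧ p = (Sum.inl z, Sum.inl z')) ∨ ∃ e e', (e, e') ∈ Q ∧ p = (Sum.inr e, Sum.inr e')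

private theorem Ok.insL {P P' : Set (G.Z × G'.Z)} {Q Q' : Set (G.X × G'.X)} {S : Set (G.mdl.C × G'.mdl.C)}
    (h : Ok G G' P Q S) (hP : P ⊆ P') (hQ : Q ⊆ Q') {z : G.Z} {z' : G'.Z} (hz : (z, z') ∈ P') :
    Ok G G' P' Q' (insert (Sum.inl z, Sum.inl z') S) := by
  intro p hp
  rcases Set.mem_insert_iff.1 hp with rfl | hp
  · exact Or.inl ⟨z, z', hz, rfl⟩
  · rcases h p hp with ⟨w, w', hw, rfl⟩ | ⟨f, f', hf, rfl⟩
    · exact Or.inl ⟨w, w', hP hw, rfl⟩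
    · exact Or.inr ⟨f, f', hQ hf, rfl⟩

private theorem Ok.insR {P P' : Set (G.Z × G'.Z)} {Q Q' : Set (G.X × G'.X)} {S : Set (G.mdl.C × G'.mdl.C)}
    (h : Ok G G' P Q S) (hP : P ⊆ P') (hQ : Q ⊆ Q') {z : G.X} {z' : G'.X} (hz : (z, z') ∈ Q') :
    Ok G G' P' Q' (insert (Sum.inr z, Sum.inr z') S) := by
  intro p hp
  rcases Set.mem_insert_iff.1 hp with rfl | hp
  · exact Or.inr ⟨z, z', hz, rfl⟩
  · rcases h p hp with ⟨w, w', hw, rfl⟩ | ⟨f, f', hf, rfl⟩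
    · exact Or.inl ⟨w, w', hP hw, rfl⟩
    · exact Or.inr ⟨f, f', hQ hf, rfl⟩

private theorem swap_sub {α β : Type} {A : Set (α × β)} {B : Set (β × α)} (h : Prod.swap '' A ⊆ B) :
    A ⊆ Prod.swap '' B := fun x hx => ⟨x.swap, h ⟨x, hx, rfl⟩, Prod.swap_swap x⟩

private theorem forthS {k R T : ℕ} (hk : k = M.k) {P : Set (G.Z × G'.Z)} {Q : Set (G.X × G'.X)}
    (h : Sys G G' (rad R) (max (prec k R T) (2 * T + 2)) P Q) (a : G.Z ⊕ G.X) :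
    (∃ z z' P', a = Sum.inl z ∧ P ⊆ P' ∧ (z, z') ∈ P' ∧ Sys G G' R T P' Q) ∨
    ∃ e e' P' Q', a = Sum.inr e ∧ P ⊆ P' ∧ Q ⊆ Q' ∧ (e, e') ∈ Q' ∧ Sys G G' R T P' Q' := by
  subst hk
  rcases a with z | e
  · obtain ⟨z', hz'⟩ := (h.mono (le_rad R) (le_max_right _ _)).addZ z
    exact Or.inl ⟨z, z', _, rfl, Set.subset_insert _ _, Set.mem_insert _ _, hz'⟩
  · obtain ⟨e', P', hP', hs⟩ := (h.mono le_rfl (le_max_left _ _)).stepX e
    exact Or.inr ⟨e, e', P', _, rfl, hP', Set.subset_insert _ _, Set.mem_insert _ _, hs⟩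

theorem good_ef (M : Mach) (c0 : M.Cfg) (n : ℕ) : ∃ R, ∀ (G G' : Good M c0) (c c' : ℕ → M.Cfg), G.IsBr c →
    G'.IsBr c' → (∀ t ≤ R, c t = c' t) → EF G.mdl G'.mdl n ∅ := by
  refine ⟨(rt M.k n).1 + 1, fun G G' c c' hc hc' h => ?_⟩
  refine EF.of_system (fun m S => ∃ P Q, Sys G G' (rt M.k m).1 (rt M.k m).2 P Q ∧ Ok G G' P Q S) ?_ ?_ ?_ n ∅ ?_
  · rintro S ⟨P, Q, hs, hok⟩
    exact atomic hs hok
  · rintro m S ⟨P, Q, hs, hok⟩ a
    rcases forthS rfl hs a with ⟨z, z', P', rfl, hP', hz, hs'⟩ | ⟨e, e', P', Q', rfl, hP', hQ', he, hs'⟩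
    · exact ⟨Sum.inl z', P', Q, hs', hok.insL hP' subset_rfl hz⟩
    · exact ⟨Sum.inr e', P', Q', hs', hok.insR hP' hQ' he⟩
  · rintro m S ⟨P, Q, hs, hok⟩ b
    rcases forthS rfl hs.symm b with ⟨z, z', P', rfl, hP', hz, hs'⟩ | ⟨e, e', P', Q', rfl, hP', hQ', he, hs'⟩
    · refine ⟨Sum.inl z', Prod.swap '' P', Prod.swap '' (Prod.swap '' Q), hs'.symm, ?_⟩
      exact hok.insL (swap_sub hP') (swap_sub subset_rfl) ⟨_, hz, rfl⟩
    · refine ⟨Sum.inr e', Prod.swap '' P', Prod.swap '' Q', hs'.symm, ?_⟩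
      exact hok.insR (swap_sub hP') (swap_sub hQ') ⟨_, he, rfl⟩
  · obtain ⟨P, hP⟩ := Sys.init hc hc' (rt M.k n).1 (rt M.k n).2 h
    exact ⟨P, _, hP, fun p hp => absurd hp (Set.notMem_empty p)⟩

end CB
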