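import Pool.Agent.Work.MP_cb528c_lc.GoodCross

set_option autoImplicit false
set_option linter.all false

/-!
# MP_cb528c_lc, module GReal: every infinite inverse branch is realised by a GOOD structure

`Z := ℤ`, `S` := `+1`, `o := 0`.  `X := (ℤ × ℤ) ⊕ (D × ℕ)` where `D := Fin q × (Fin k → ℕ) × (ℤ × ℤ × ℤ × ℤ) × (Bool × Bool)`
(state, counters, `nu`, `la`, `ps`, `rh`, `ty`, `sd` of a birth).
* crossing component `inl (t, n)`: configuration `C t := c t` for `t ≥ 0` and `M.step^[(-t).toNat] c0` for `t ≤ 0` (so that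
  `M.step (C t) = C (t - 1)` for all integers `t`, from `Inv`), `al` = the counters as integers;
  `dn (t, n) = (t - 1, n)`, `sh (t, n) = (t, n + 1)`, `nu = n`, `la = t`, `u0 = (0 ≤ n)`, `u1 = (0 ≤ n + t)`, `ps = rh = 0`, `ty = sd = false`.
  `og := inl (0, 0)`.  No births here (`dn` is surjective on this component).
* component `inr (d, i)`: configuration `M.step^[i]` of the configuration of `d`; `dn (d, i) = (d, i + 1)`, `sh (d, i) = (d with nu + 1, i)`,
  `nu` = that of `d`, `la` = that of `d` minus `i`; `u0`: if `ty` then `sd` else `ps ≤ nu`; `u1`: if `ty` then `ps + i ≤ nu` else `sd`;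
  `ps`, `rh`, `ty`, `sd`: those of `d` if `i = 0`, else `0`, `0`, `false`, `false`.  The births are the `(d, 0)`.
`al_dn`: `Mv.appZ` on integers agrees with `Mv.app` on the natural number counters because zero counters are never
decremented (`M.ok`).  `og_un`: in the crossing component `u0 e ∧ ¬ u0 (sh.symm e)` says `n = 0` and the other one says
`n + t = 0`; in the other components one of `u0`, `u1` is constant along `sh`.
`IsBr c`: `dn^[t] (inl (t, 0)) = inl (0, 0)`.
(`al_nonneg` etc. by `Int.natCast_nonneg`; counters of a birth `a i ≥ 0` are natural numbers by `Int.toNat`.)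
-/

namespace CB

@[ext]
private structure RD (M : Mach) where
  s : Fin M.q
  a : Fin M.k → ℕ
  n : ℤ
  l : ℤ
  p : ℤ
  r : ℤ
  t : Bool
  d : Bool

private abbrev RX (M : Mach) : Type := (ℤ × ℤ) ⊕ (RD M × ℕ)

private def rS : ℤ ≃ ℤ := ⟨fun z => z + 1, fun z => z - 1, fun z => by simp, fun z => by simp⟩

private theorem rS_app (z : ℤ) : rS z = z + 1 := rfl
private theorem rS_symm (z : ℤ) : rS.symm z = z - 1 := rfl

private def rC (M : Mach) (c0 : M.Cfg) (c : ℕ → M.Cfg) (t : ℤ) : M.Cfg :=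
  if 0 ≤ t then c t.toNat else M.step^[(-t).toNat] c0

private theorem rC_step {M : Mach} {c0 : M.Cfg} {c : ℕ → M.Cfg} (hc : M.Inv c0 c) (t : ℤ) :
    rC M c0 c (t - 1) = M.step (rC M c0 c t) := by
  unfold rC
  by_cases h1 : 1 ≤ t
  · rw [if_pos (by omega), if_pos (by omega)]
    obtain ⟨n, rfl⟩ : ∃ n : ℕ, t = n + 1 := ⟨(t - 1).toNat, by omega⟩
    have e1 : ((n : ℤ) + 1 - 1).toNat = n := by omega
    have e2 : ((n : ℤ) + 1).toNat = n + 1 := by omega
    rw [e1, e2, hc.2 n]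
  · by_cases h0 : t = 0
    · subst h0
      rw [if_neg (by omega), if_pos (by omega)]
      have e1 : (-((0 : ℤ) - 1)).toNat = 1 := by omega
      rw [e1]
      simp [hc.1]
    · rw [if_neg (by omega), if_neg (by omega)]
      have e1 : (-(t - 1)).toNat = (-t).toNat + 1 := by omega
      rw [e1, Function.iterate_succ_apply']

private def rdn {M : Mach} : RX M → RX M
  | Sum.inl (t, n) => Sum.inl (t - 1, n)
  | Sum.inr (d, i) => Sum.inr (d, i + 1)

private def rsh {M : Mach} : RX M ≃ RX M where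
  toFun
    | Sum.inl (t, n) => Sum.inl (t, n + 1)
    | Sum.inr (d, i) => Sum.inr ({ d with n := d.n + 1 }, i)
  invFun
    | Sum.inl (t, n) => Sum.inl (t, n - 1)
    | Sum.inr (d, i) => Sum.inr ({ d with n := d.n - 1 }, i)
  left_inv := by
    rintro (⟨t, n⟩ | ⟨d, i⟩) <;> simp
  right_inv := by
    rintro (⟨t, n⟩ | ⟨d, i⟩) <;> simp

private def rcfg (M : Mach) (c0 : M.Cfg) (c : ℕ → M.Cfg) : RX M → M.Cfg
  | Sum.inl (t, n) => rC M c0 c t
  | Sum.inr (d, i) => M.step^[i] (d.s, d.a)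

private theorem rcfg_dn {M : Mach} {c0 : M.Cfg} {c : ℕ → M.Cfg} (hc : M.Inv c0 c) (e : RX M) :
    rcfg M c0 c (rdn e) = M.step (rcfg M c0 c e) := by
  rcases e with ⟨t, n⟩ | ⟨d, i⟩
  · exact rC_step hc t
  · simp only [rdn, rcfg, Function.iterate_succ_apply']

private theorem rcfg_sh {M : Mach} {c0 : M.Cfg} {c : ℕ → M.Cfg} (e : RX M) :
    rcfg M c0 c (rsh e) = rcfg M c0 c e := by
  rcases e with ⟨t, n⟩ | ⟨d, i⟩ <;> rfl

private theorem r_dec {M : Mach} (C : M.Cfg) :
    (fun i => decide (((C.2 i : ℕ) : ℤ) ≠ 0)) = fun i => decide (C.2 i ≠ 0) := by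
  funext i; simp

private theorem r_app {M : Mach} (C : M.Cfg) (i : Fin M.k) :
    (((M.step C).2 i : ℕ) : ℤ) =
      ((M.δ C.1 (fun i => decide (C.2 i ≠ 0))).2 i).appZ rS ((C.2 i : ℕ) : ℤ) := by
  have hok := M.ok C.1 (fun i => decide (C.2 i ≠ 0)) i
  show ((((M.δ C.1 (fun i => decide (C.2 i ≠ 0))).2 i).app (C.2 i) : ℕ) : ℤ) = _
  revert hok
  generalize (M.δ C.1 (fun i => decide (C.2 i ≠ 0))).2 i = m
  intro hok
  cases m with
  | down =>
    have h0 : C.2 i ≠ 0 := by
      intro h0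
      exact hok (by simp [h0]) rfl
    show ((C.2 i - 1 : ℕ) : ℤ) = (C.2 i : ℤ) - 1
    omega
  | stay => rfl
  | up => show ((C.2 i + 1 : ℕ) : ℤ) = (C.2 i : ℤ) + 1; omega

private def rnu {M : Mach} : RX M → ℤ
  | Sum.inl (_, n) => n
  | Sum.inr (d, _) => d.n
private def rla {M : Mach} : RX M → ℤ
  | Sum.inl (t, _) => t
  | Sum.inr (d, i) => d.l - i
private def rps {M : Mach} : RX M → ℤ
  | Sum.inl (_, _) => 0
  | Sum.inr (d, i) => if i = 0 then d.p else 0
private def rrh {M : Mach} : RX M → ℤ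
  | Sum.inl (_, _) => 0
  | Sum.inr (d, i) => if i = 0 then d.r else 0
private def rty {M : Mach} : RX M → Bool
  | Sum.inl (_, _) => false
  | Sum.inr (d, i) => if i = 0 then d.t else false
private def rsd {M : Mach} : RX M → Bool
  | Sum.inl (_, _) => false
  | Sum.inr (d, i) => if i = 0 then d.d else false
private def ru0 {M : Mach} : RX M → Bool
  | Sum.inl (_, n) => decide (0 ≤ n)
  | Sum.inr (d, _) => if d.t = true then d.d else decide (d.p ≤ d.n)
private def ru1 {M : Mach} : RX M → Bool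
  | Sum.inl (t, n) => decide (0 ≤ n + t)
  | Sum.inr (d, i) => if d.t = true then decide (d.p + i ≤ d.n) else d.d

private theorem r_birth {M : Mach} {e : RX M} (h : ∀ f : RX M, rdn f ≠ e) : ∃ d : RD M, e = Sum.inr (d, 0) := by
  rcases e with ⟨t, n⟩ | ⟨d, i⟩
  · exact absurd (by simp [rdn]) (h (Sum.inl (t + 1, n)))
  · cases i with
    | zero => exact ⟨d, rfl⟩
    | succ i => exact absurd rfl (h (Sum.inr (d, i)))

private theorem r_isbirth {M : Mach} (d : RD M) (f : RX M) : rdn f ≠ Sum.inr (d, 0) := by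
  rcases f with ⟨t, n⟩ | ⟨d', i⟩
  · simp [rdn]
  · simp [rdn]

private theorem rS_iter (n : ℕ) : (rS^[n]) (0 : ℤ) = n := by
  induction n with
  | zero => rfl
  | succ n ih => rw [Function.iterate_succ_apply', ih, rS_app]; push_cast; rfl

private def rG {M : Mach} {c0 : M.Cfg} {c : ℕ → M.Cfg} (hc : M.Inv c0 c) : Good M c0 where
  Z := ℤ
  X := RX M
  lo := inferInstance
  S := rS
  lt_S := fun z => by rw [rS_app]; omega
  S_le := fun z w h => by rw [rS_app]; omega
  o := 0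
  dn := rdn
  sh := rsh
  st := fun e => (rcfg M c0 c e).1
  al := fun i e => (((rcfg M c0 c e).2 i : ℕ) : ℤ)
  nu := rnu
  la := rla
  ps := rps
  rh := rrh
  u0 := ru0
  u1 := ru1
  ty := rty
  sd := rsd
  al_nonneg := fun i e => Int.natCast_nonneg _
  dn_inj := by
    rintro (⟨t, n⟩ | ⟨d, i⟩) (⟨t', n'⟩ | ⟨d', i'⟩) h
    · simp only [rdn, Sum.inl.injEq, Prod.mk.injEq] at h ⊢
      omega
    · simp [rdn] at h
    · simp [rdn] at h
    · simp only [rdn, Sum.inr.injEq, Prod.mk.injEq] at h ⊢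
      exact ⟨h.1, by omega⟩
  dn_sh := by
    rintro (⟨t, n⟩ | ⟨d, i⟩) <;> rfl
  st_dn := fun e => by
    rw [rcfg_dn hc, r_dec]; rfl
  al_dn := fun i e => by
    rw [rcfg_dn hc, r_dec]; exact r_app _ i
  st_sh := fun e => by rw [rcfg_sh]
  al_sh := fun i e => by rw [rcfg_sh]
  nu_dn := by rintro (⟨t, n⟩ | ⟨d, i⟩) <;> rfl
  nu_sh := by rintro (⟨t, n⟩ | ⟨d, i⟩) <;> rfl
  la_dn := by
    rintro (⟨t, n⟩ | ⟨d, i⟩)
    · show t - 1 + 1 = t; omega
    · show d.l - ((i + 1 : ℕ) : ℤ) + 1 = d.l - (i : ℤ); push_cast; omega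
  la_sh := by rintro (⟨t, n⟩ | ⟨d, i⟩) <;> rfl
  u0_dn := by rintro (⟨t, n⟩ | ⟨d, i⟩) <;> rfl
  u0_sh := by
    rintro (⟨t, n⟩ | ⟨d, i⟩) h
    · simp only [ru0, rsh, Equiv.coe_fn_mk, decide_eq_true_eq] at h ⊢
      omega
    · simp only [ru0, rsh, Equiv.coe_fn_mk] at h ⊢
      split_ifs at h ⊢ with ht
      · exact h
      · simp only [decide_eq_true_eq] at h ⊢
        omega
  u1_dn := by
    rintro (⟨t, n⟩ | ⟨d, i⟩)
    · simp only [ru1, rsh, rdn, Equiv.coe_fn_mk, decide_eq_decide]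
      omega
    · simp only [ru1, rsh, rdn, Equiv.coe_fn_mk]
      split_ifs with ht
      · simp only [decide_eq_decide]; push_cast; omega
      · rfl
  u1_sh := by
    rintro (⟨t, n⟩ | ⟨d, i⟩) h
    · simp only [ru1, rsh, Equiv.coe_fn_mk, decide_eq_true_eq] at h ⊢
      omega
    · simp only [ru1, rsh, Equiv.coe_fn_mk] at h ⊢
      split_ifs at h ⊢ with ht
      · simp only [decide_eq_true_eq] at h ⊢
        omega
      · exact h
  ps_sh := by rintro (⟨t, n⟩ | ⟨d, i⟩) _ <;> rfl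
  rh_sh := by rintro (⟨t, n⟩ | ⟨d, i⟩) _ <;> rfl
  ty_sh := by rintro (⟨t, n⟩ | ⟨d, i⟩) _ <;> rfl
  sd_sh := by rintro (⟨t, n⟩ | ⟨d, i⟩) _ <;> rfl
  ps_dn := by rintro (⟨t, n⟩ | ⟨d, i⟩) <;> rfl
  rh_dn := by rintro (⟨t, n⟩ | ⟨d, i⟩) <;> rfl
  ty_dn := by rintro (⟨t, n⟩ | ⟨d, i⟩) <;> rfl
  sd_dn := by rintro (⟨t, n⟩ | ⟨d, i⟩) <;> rfl
  line_f := by
    intro e he ht
    obtain ⟨d, rfl⟩ := r_birth he
    have ht' : d.t = false := ht
    constructor
    · show (if d.t = true then d.d else decide (d.p ≤ d.n)) = true ↔ d.p ≤ d.n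
      rw [ht']; simp
    · show (if d.t = true then decide (d.p + ((0 : ℕ) : ℤ) ≤ d.n) else d.d) = d.d
      rw [ht']; simp
  line_t := by
    intro e he ht
    obtain ⟨d, rfl⟩ := r_birth he
    have ht' : d.t = true := ht
    constructor
    · show (if d.t = true then decide (d.p + ((0 : ℕ) : ℤ) ≤ d.n) else d.d) = true ↔ d.p ≤ d.n
      rw [ht']; simp
    · show (if d.t = true then d.d else decide (d.p ≤ d.n)) = d.d
      rw [ht']; simp
  birth_ex := by
    intro s a n l p r t d ha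
    refine ⟨Sum.inr (⟨s, fun i => (a i).toNat, n, l, p, r, t, d⟩, 0), r_isbirth _, rfl, fun i => ?_, rfl, ?_, rfl, rfl, rfl, rfl⟩
    · show (((a i).toNat : ℕ) : ℤ) = a i
      exact Int.toNat_of_nonneg (ha i)
    · show l - ((0 : ℕ) : ℤ) = l
      simp
  birth_un := by
    intro e e' he he' h1 h2 h3 h4 h5 h6 h7 h8
    obtain ⟨d, rfl⟩ := r_birth he
    obtain ⟨d', rfl⟩ := r_birth he'
    have h1' : d.s = d'.s := h1
    have h2' : d.a = d'.a := by
      funext i
      have : ((d.a i : ℕ) : ℤ) = ((d'.a i : ℕ) : ℤ) := h2 i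
      exact_mod_cast this
    have h3' : d.n = d'.n := h3
    have h4' : d.l = d'.l := by
      have : d.l - ((0 : ℕ) : ℤ) = d'.l - ((0 : ℕ) : ℤ) := h4
      simpa using this
    have h5' : d.p = d'.p := h5
    have h6' : d.r = d'.r := h6
    have h7' : d.t = d'.t := h7
    have h8' : d.d = d'.d := h8
    have : d = d' := by
      ext
      · rw [h1']
      · rw [h2']
      · exact h3'
      · exact h4'
      · exact h5'
      · exact h6'
      · rw [h7']
      · rw [h8']
    rw [this]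
  og := Sum.inl (0, 0)
  og_line := by
    refine ⟨?_, ?_, ?_, ?_⟩
    · simp [ru0]
    · show decide ((0 : ℤ) ≤ 0 - 1) = false
      simp
    · simp [ru1]
    · show decide ((0 : ℤ) ≤ 0 - 1 + 0) = false
      simp
  og_un := by
    rintro (⟨t, n⟩ | ⟨d, i⟩) h1 h2 h3 h4
    · have h1' : decide ((0 : ℤ) ≤ n) = true := h1
      have h2' : decide ((0 : ℤ) ≤ n - 1) = false := h2
      have h3' : decide ((0 : ℤ) ≤ n + t) = true := h3
      have h4' : decide ((0 : ℤ) ≤ n - 1 + t) = false := h4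
      simp only [decide_eq_true_eq, decide_eq_false_iff_not] at h1' h2' h3' h4'
      simp only [Sum.inl.injEq, Prod.mk.injEq]
      omega
    · exfalso
      have h1' : (if d.t = true then d.d else decide (d.p ≤ d.n)) = true := h1
      have h2' : (if d.t = true then d.d else decide (d.p ≤ d.n - 1)) = false := h2
      have h3' : (if d.t = true then decide (d.p + i ≤ d.n) else d.d) = true := h3
      have h4' : (if d.t = true then decide (d.p + i ≤ d.n - 1) else d.d) = false := h4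
      by_cases ht : d.t = true
      · rw [if_pos ht] at h1' h2'
        rw [h1'] at h2'; exact absurd h2' (by simp)
      · rw [if_neg ht] at h3' h4'
        rw [h3'] at h4'; exact absurd h4' (by simp)
  og_st := by
    show (rC M c0 c 0).1 = c0.1
    unfold rC
    rw [if_pos le_rfl]
    show (c (Int.toNat 0)).1 = c0.1
    rw [Int.toNat_zero, hc.1]
  og_al := by
    intro i
    show (((rC M c0 c 0).2 i : ℕ) : ℤ) = _
    unfold rC
    rw [if_pos le_rfl, rS_iter]
    rw [Int.toNat_zero, hc.1]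
  og_nu := rfl
  og_la := rfl

theorem good_real {M : Mach} {c0 : M.Cfg} {c : ℕ → M.Cfg} (hc : M.Inv c0 c) : ∃ G : Good M c0, G.IsBr c := by
  refine ⟨rG hc, fun t => ⟨(Sum.inl ((t : ℤ), (0 : ℤ)) : RX M), ?_, ?_, ?_⟩⟩
  · show rdn^[t] (Sum.inl ((t : ℤ), (0 : ℤ)) : RX M) = Sum.inl (0, 0)
    induction t with
    | zero => rfl
    | succ t ih =>
      rw [Function.iterate_succ_apply]
      have : rdn (Sum.inl (((t + 1 : ℕ) : ℤ), (0 : ℤ)) : RX M) = Sum.inl ((t : ℤ), 0) := by
        show (Sum.inl (((t + 1 : ℕ) : ℤ) - 1, (0 : ℤ)) : RX M) = _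
        push_cast
        simp
      rw [this, ih]
  · show (rC M c0 c t).1 = (c t).1
    unfold rC
    rw [if_pos (Int.natCast_nonneg t), Int.toNat_natCast]
  · intro i
    show (((rC M c0 c t).2 i : ℕ) : ℤ) = (rS^[(c t).2 i]) 0
    unfold rC
    rw [if_pos (Int.natCast_nonneg t), Int.toNat_natCast, rS_iter]

end CB
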