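import Pool.Agent.Work.MP_cb528c_lc.Syntax

set_option autoImplicit false
set_option linter.all false

/-!
# MP_cb528c_lc, module FoApi: first order definable properties

`FO D`: the property `D` of structures with an assignment is defined by a formula.
Lists: `conjL`, `disjL` finite conjunctions and disjunctions.  `FO.tuple`: `∀` over `k`-tuples of elements assigned to the variables
`v0, .., v0 + k - 1` (induction on `k`, or iterate `Fm.all` over `List.range k`).
`FO.closed`: universal closure: iterate `Fm.all` over the list of free variables.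
-/

namespace CB

/-- finite conjunctions -/
def conjL : List Fm → Fm
  | [] => Fm.tru
  | φ :: l => Fm.and φ (conjL l)

/-- finite disjunctions -/
def disjL : List Fm → Fm
  | [] => Fm.neg Fm.tru
  | φ :: l => Fm.or φ (disjL l)

theorem sat_conjL {M : Mdl} {s : ℕ → M.C} {l : List Fm} : Sat M s (conjL l) ↔ ∀ φ ∈ l, Sat M s φ := by
  induction l with
  | nil => simp [conjL, sat_tru]
  | cons a l ih => simp [conjL, sat_and, ih]

theorem sat_disjL {M : Mdl} {s : ℕ → M.C} {l : List Fm} : Sat M s (disjL l) ↔ ∃ φ ∈ l, Sat M s φ := by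
  induction l with
  | nil => simp [disjL, sat_tru, sat_neg]
  | cons a l ih => simp [disjL, sat_or, ih]

theorem fv_conjL {l : List Fm} (i : ℕ) : i ∈ (conjL l).fv ↔ ∃ φ ∈ l, i ∈ φ.fv := by
  induction l with
  | nil => simp [conjL, Fm.tru, Fm.fv]
  | cons a l ih => simp [conjL, Fm.fv, ih]

theorem fv_disjL {l : List Fm} (i : ℕ) : i ∈ (disjL l).fv ↔ ∃ φ ∈ l, i ∈ φ.fv := by
  induction l with
  | nil => simp [disjL, Fm.tru, Fm.fv]
  | cons a l ih => simp [disjL, Fm.or, Fm.fv, ih]

theorem closed_iff {φ : Fm} : φ.Closed ↔ ∀ i, i ∉ φ.fv := by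
  unfold Fm.Closed
  exact List.eq_nil_iff_forall_not_mem

/-- first order definable properties -/
def FO (D : (N : Mdl) → (ℕ → N.C) → Prop) : Prop := ∃ φ : Fm, ∀ (N : Mdl) (s : ℕ → N.C), Sat N s φ ↔ D N s

namespace FO

variable {D D' : (N : Mdl) → (ℕ → N.C) → Prop}

theorem congr (h : FO D) (e : ∀ N s, D N s ↔ D' N s) : FO D' := by
  obtain ⟨φ, hφ⟩ := h
  exact ⟨φ, fun N s => (hφ N s).trans (e N s)⟩

theorem rel2 (r i j : ℕ) : FO (fun N s => N.R r [s i, s j]) := ⟨Fm.rel r [i, j], fun _ _ => Iff.rfl⟩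

theorem eq (i j : ℕ) : FO (fun N s => s i = s j) := ⟨Fm.eq i j, fun _ _ => Iff.rfl⟩

theorem const (p : Prop) : FO (fun _ _ => p) := by
  by_cases h : p
  · exact ⟨Fm.tru, fun N s => by rw [sat_tru]; exact ⟨fun _ => h, fun _ => trivial⟩⟩
  · exact ⟨Fm.neg Fm.tru, fun N s => by
      rw [sat_neg, sat_tru]; exact ⟨fun h' => (h' trivial).elim, fun h' => (h h').elim⟩⟩

theorem not (h : FO D) : FO (fun N s => ¬ D N s) := by
  obtain ⟨φ, hφ⟩ := h
  exact ⟨Fm.neg φ, fun N s => by rw [sat_neg, hφ]⟩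

theorem and (h : FO D) (h' : FO D') : FO (fun N s => D N s ∧ D' N s) := by
  obtain ⟨φ, hφ⟩ := h
  obtain ⟨ψ, hψ⟩ := h'
  exact ⟨Fm.and φ ψ, fun N s => by rw [sat_and, hφ, hψ]⟩

theorem or (h : FO D) (h' : FO D') : FO (fun N s => D N s ∨ D' N s) := by
  obtain ⟨φ, hφ⟩ := h
  obtain ⟨ψ, hψ⟩ := h'
  exact ⟨Fm.or φ ψ, fun N s => by rw [sat_or, hφ, hψ]⟩

theorem imp (h : FO D) (h' : FO D') : FO (fun N s => D N s → D' N s) := by
  obtain ⟨φ, hφ⟩ := h
  obtain ⟨ψ, hψ⟩ := h'
  exact ⟨Fm.imp φ ψ, fun N s => by rw [sat_imp, hφ, hψ]⟩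

theorem iff (h : FO D) (h' : FO D') : FO (fun N s => D N s ↔ D' N s) := by
  obtain ⟨φ, hφ⟩ := h
  obtain ⟨ψ, hψ⟩ := h'
  exact ⟨Fm.iff φ ψ, fun N s => by rw [sat_iff, hφ, hψ]⟩

theorem ex (i : ℕ) (h : FO D) : FO (fun N s => ∃ a, D N (Function.update s i a)) := by
  obtain ⟨φ, hφ⟩ := h
  exact ⟨Fm.ex i φ, fun N s => by rw [sat_ex]; exact exists_congr fun a => hφ _ _⟩

theorem all (i : ℕ) (h : FO D) : FO (fun N s => ∀ a, D N (Function.update s i a)) := by
  obtain ⟨φ, hφ⟩ := h
  exact ⟨Fm.all i φ, fun N s => by rw [sat_all]; exact forall_congr' fun a => hφ _ _⟩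

/-- finite index sets -/
theorem forallFin {ι : Type} [Finite ι] {D : ι → (N : Mdl) → (ℕ → N.C) → Prop} (h : ∀ i, FO (D i)) :
    FO (fun N s => ∀ i, D i N s) := by
  classical
  cases nonempty_fintype ι
  choose φ hφ using h
  refine ⟨conjL ((Finset.univ : Finset ι).toList.map φ), fun N s => ?_⟩
  rw [sat_conjL]
  simp [hφ]

theorem existsFin {ι : Type} [Finite ι] {D : ι → (N : Mdl) → (ℕ → N.C) → Prop} (h : ∀ i, FO (D i)) :
    FO (fun N s => ∃ i, D i N s) := by
  classical
  cases nonempty_fintype ι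
  choose φ hφ using h
  refine ⟨disjL ((Finset.univ : Finset ι).toList.map φ), fun N s => ?_⟩
  rw [sat_disjL]
  simp [hφ]

/-- quantification over tuples -/
theorem tuple (v0 k : ℕ) (h : FO D) : FO (fun N s => ∀ a : Fin k → N.C,
    D N (fun j => if hj : v0 ≤ j ∧ j < v0 + k then a ⟨j - v0, by omega⟩ else s j)) := by
  induction k with
  | zero =>
    refine h.congr fun N s => ?_
    have e : ∀ a : Fin 0 → N.C,
        (fun j => if hj : v0 ≤ j ∧ j < v0 + 0 then a ⟨j - v0, by omega⟩ else s j) = s := by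
      intro a
      funext j
      rw [dif_neg (by omega)]
    constructor
    · intro hs a
      rw [e a]; exact hs
    · intro hs
      have := hs (fun i => i.elim0)
      rwa [e] at this
  | succ k ih =>
    refine (ih.all (v0 + k)).congr fun N s => ?_
    have e : ∀ (b : Fin k → N.C) (x : N.C) (a : Fin (k + 1) → N.C), (∀ i : Fin k, a i.castSucc = b i) →
        a (Fin.last k) = x →
        (fun j => if hj : v0 ≤ j ∧ j < v0 + k then b ⟨j - v0, by omega⟩
          else Function.update s (v0 + k) x j) =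
        (fun j => if hj : v0 ≤ j ∧ j < v0 + (k + 1) then a ⟨j - v0, by omega⟩ else s j) := by
      intro b x a h1 h2
      funext j
      by_cases hj : v0 ≤ j ∧ j < v0 + k
      · rw [dif_pos hj, dif_pos (by omega), ← h1]
        rfl
      · rw [dif_neg hj]
        by_cases hj2 : j = v0 + k
        · subst hj2
          rw [Function.update_self, dif_pos (by omega), ← h2]
          congr 1
          apply Fin.ext
          simp
        · rw [Function.update_of_ne hj2, dif_neg (by omega)]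
    constructor
    · intro hs a
      have := hs (a (Fin.last k)) (fun i => a i.castSucc)
      rwa [e _ _ a (fun _ => rfl) rfl] at this
    · intro hs x b
      rw [e b x (Fin.snoc (α := fun _ => N.C) b x) (fun i => by simp) (by simp)]
      exact hs _

private theorem closure_aux {D : Mdl → Prop} (φ : Fm) (h : ∀ (N : Mdl) (s : ℕ → N.C), Sat N s φ ↔ D N)
    (l : List ℕ) : ∃ b : Fm, (∀ i, i ∈ b.fv → i ∈ φ.fv ∧ i ∉ l) ∧
      ∀ (N : Mdl) (s : ℕ → N.C), Sat N s b ↔ D N := by
  induction l with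
  | nil => exact ⟨φ, fun i hi => ⟨hi, by simp⟩, h⟩
  | cons a l ih =>
    obtain ⟨b, hb1, hb2⟩ := ih
    refine ⟨Fm.all a b, fun i hi => ?_, fun N s => ?_⟩
    · simp only [Fm.all, Fm.fv, List.mem_filter, decide_eq_true_eq] at hi
      obtain ⟨h1, h2⟩ := hb1 i hi.1
      refine ⟨h1, ?_⟩
      simp only [List.mem_cons, not_or]
      exact ⟨by simpa using hi.2, h2⟩
    · rw [sat_all]
      obtain ⟨x⟩ := N.ne
      exact ⟨fun hh => (hb2 _ _).1 (hh x), fun hh _ => (hb2 _ _).2 hh⟩

/-- a definable property of structures is defined by a closed formula -/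
theorem closed {D : Mdl → Prop} (h : FO (fun N _ => D N)) : ∃ b : Fm, b.Closed ∧ ∀ N, b ∈ Th N ↔ D N := by
  obtain ⟨φ, hφ⟩ := h
  obtain ⟨b, hb1, hb2⟩ := closure_aux φ hφ φ.fv
  have hc : b.Closed := closed_iff.2 fun i hi => (hb1 i hi).2 (hb1 i hi).1
  refine ⟨b, hc, fun N => ?_⟩
  obtain ⟨x⟩ := N.ne
  rw [mem_th_iff hc (fun _ => x)]
  exact hb2 _ _

end FO

end CB
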