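import Pool.Agent.Work.MP_cb528c_lc.GoodDefs
import Pool.Agent.Work.MP_cb528c_lc.FoApi
import Pool.Agent.Work.MP_cb528c_lc.FmPrim

set_option autoImplicit false
set_option linter.all false

/-!
# MP_cb528c_lc, module GTheta: the sentence saying that the element at height `t` above the crossing point has
configuration `D`

Variables: `0, 1` for elements of `X` (alternating), `2, 3` for elements of `Z` (alternating), `4` auxiliary.
* `sc v w := and (rel 0 [v, w]) (neg (ex 4 (and (rel 0 [v, 4]) (rel 0 [4, w]))))`: `w = S v`.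
* `num 0 v := rel 1 [v, v]`, `num (n+1) v := ex (5 - v) (and (sc (5 - v) v) (num n (5 - v)))` for `v = 2, 3`:
  in `G.mdl`: `s v = inl (S^[n] o)`.
* `ogF v := and (and (rel 8 [v, v]) (ex 4 (and (rel 3 [4, v]) (neg (rel 8 [4, 4]))))) (same with 9)`: `s v = inr og` (`og_line`, `og_un`).
* `up 0 v := ogF v`, `up (t+1) v := ex (1 - v) (and (rel 2 [v, 1 - v]) (up t (1 - v)))` for `v = 0, 1`:
  `∃ e, s v = inr e ∧ dn^[t] e = og`.
* `θ (t, (st, al)) := ex 0 (and (up t 0) (and (rel (12 + k + st) [0, 0]) (conjunction over i < k of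
  ex 2 (and (rel (12 + i) [0, 2]) (num (al i) 2)))))`.
`Primrec`: `Nat.rec` with a step in which the variable alternates: e.g. compute the pair `(num n 2, num n 3)` by
`Primrec.nat_rec`; the conjunction over `i < k` is a fold over the fixed list `List.finRange k` (induction on the list).
-/

namespace CB

namespace ThetaAux

/-- `w = S v` -/
def scF (v w : ℕ) : Fm :=
  Fm.and (Fm.rel 0 [v, w]) (Fm.neg (Fm.ex 4 (Fm.and (Fm.rel 0 [v, 4]) (Fm.rel 0 [4, w]))))

def numStep (p : Fm × Fm) : Fm × Fm :=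
  (Fm.ex 3 (Fm.and (scF 3 2) p.2), Fm.ex 2 (Fm.and (scF 2 3) p.1))

def numP (n : ℕ) : Fm × Fm :=
  Nat.rec (Fm.rel 1 [2, 2], Fm.rel 1 [3, 3]) (fun _ p => numStep p) n

def ogF (v : ℕ) : Fm :=
  Fm.and (Fm.and (Fm.rel 8 [v, v]) (Fm.ex 4 (Fm.and (Fm.rel 3 [4, v]) (Fm.neg (Fm.rel 8 [4, 4])))))
    (Fm.and (Fm.rel 9 [v, v]) (Fm.ex 4 (Fm.and (Fm.rel 3 [4, v]) (Fm.neg (Fm.rel 9 [4, 4])))))

def upStep (p : Fm × Fm) : Fm × Fm :=
  (Fm.ex 1 (Fm.and (Fm.rel 2 [0, 1]) p.2), Fm.ex 0 (Fm.and (Fm.rel 2 [1, 0]) p.1))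

def upP (n : ℕ) : Fm × Fm :=
  Nat.rec (ogF 0, ogF 1) (fun _ p => upStep p) n

def cj {k : ℕ} (al : Fin k → ℕ) : List (Fin k) → Fm
  | [] => Fm.tru
  | i :: l => Fm.and (Fm.ex 2 (Fm.and (Fm.rel (12 + (i : ℕ)) [0, 2]) (numP (al i)).1)) (cj al l)

def th (M : Mach) (x : ℕ × M.Cfg) : Fm :=
  Fm.ex 0 (Fm.and (upP x.1).1 (Fm.and (Fm.rel (12 + M.k + (x.2.1 : ℕ)) [0, 0])
    (cj x.2.2 (List.finRange M.k))))

/-! ### free variables -/

theorem fv_scF (v w : ℕ) (hv : v ≠ 4) (hw : w ≠ 4) : ∀ i ∈ (scF v w).fv, i = v ∨ i = w := by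
  intro i hi
  simp only [scF, Fm.fv, List.mem_append, List.mem_filter, List.mem_cons, List.not_mem_nil, or_false,
    decide_eq_true_eq] at hi
  omega

theorem fv_numP (n : ℕ) : (∀ i ∈ (numP n).1.fv, i = 2) ∧ (∀ i ∈ (numP n).2.fv, i = 3) := by
  induction n with
  | zero =>
    constructor
    · intro i hi
      have : i ∈ ([2, 2] : List ℕ) := hi
      simpa using this
    · intro i hi
      have : i ∈ ([3, 3] : List ℕ) := hi
      simpa using this
  | succ n ih =>
    constructor
    · intro i hi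
      have h1 : i ∈ ((scF 3 2).fv ++ (numP n).2.fv).filter (fun j => j ≠ 3) := hi
      rw [List.mem_filter, List.mem_append] at h1
      obtain ⟨h1, h2⟩ := h1
      have h2 : i ≠ 3 := by simpa using h2
      rcases h1 with h1 | h1
      · rcases fv_scF 3 2 (by norm_num) (by norm_num) i h1 with h | h <;> omega
      · have := ih.2 i h1
        omega
    · intro i hi
      have h1 : i ∈ ((scF 2 3).fv ++ (numP n).1.fv).filter (fun j => j ≠ 2) := hi
      rw [List.mem_filter, List.mem_append] at h1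
      obtain ⟨h1, h2⟩ := h1
      have h2 : i ≠ 2 := by simpa using h2
      rcases h1 with h1 | h1
      · rcases fv_scF 2 3 (by norm_num) (by norm_num) i h1 with h | h <;> omega
      · have := ih.1 i h1
        omega

theorem fv_ogF (v : ℕ) (hv : v ≠ 4) : ∀ i ∈ (ogF v).fv, i = v := by
  intro i hi
  simp only [ogF, Fm.fv, List.mem_append, List.mem_filter, List.mem_cons, List.not_mem_nil, or_false,
    decide_eq_true_eq] at hi
  omega

theorem fv_upP (n : ℕ) : (∀ i ∈ (upP n).1.fv, i = 0) ∧ (∀ i ∈ (upP n).2.fv, i = 1) := by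
  induction n with
  | zero => exact ⟨fv_ogF 0 (by norm_num), fv_ogF 1 (by norm_num)⟩
  | succ n ih =>
    constructor
    · intro i hi
      have h1 : i ∈ (([0, 1] : List ℕ) ++ (upP n).2.fv).filter (fun j => j ≠ 1) := hi
      rw [List.mem_filter, List.mem_append] at h1
      obtain ⟨h1, h2⟩ := h1
      have h2 : i ≠ 1 := by simpa using h2
      rcases h1 with h1 | h1
      · have : i = 0 ∨ i = 1 := by simpa using h1
        omega
      · have := ih.2 i h1
        omega
    · intro i hi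
      have h1 : i ∈ (([1, 0] : List ℕ) ++ (upP n).1.fv).filter (fun j => j ≠ 0) := hi
      rw [List.mem_filter, List.mem_append] at h1
      obtain ⟨h1, h2⟩ := h1
      have h2 : i ≠ 0 := by simpa using h2
      rcases h1 with h1 | h1
      · have : i = 1 ∨ i = 0 := by simpa using h1
        omega
      · have := ih.1 i h1
        omega

theorem fv_cj {k : ℕ} (al : Fin k → ℕ) (l : List (Fin k)) : ∀ i ∈ (cj al l).fv, i = 0 := by
  induction l with
  | nil =>
    intro i hi
    have h1 : i ∈ (([0, 0] : List ℕ)).filter (fun j => j ≠ 0) := hi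
    rw [List.mem_filter] at h1
    obtain ⟨h1, h2⟩ := h1
    simpa using h1
  | cons a l ih =>
    intro i hi
    have h1 : i ∈ (([0, 2] : List ℕ) ++ (numP (al a)).1.fv).filter (fun j => j ≠ 2) ++ (cj al l).fv := hi
    rcases List.mem_append.1 h1 with h2 | h2
    · rw [List.mem_filter, List.mem_append] at h2
      obtain ⟨h2, h3⟩ := h2
      have h3 : i ≠ 2 := by simpa using h3
      rcases h2 with h2 | h2
      · have : i = 0 ∨ i = 2 := by simpa using h2
        omega
      · have := (fv_numP (al a)).1 i h2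
        omega
    · exact ih i h2

theorem closed_th (M : Mach) (x : ℕ × M.Cfg) : (th M x).Closed := by
  show (th M x).fv = []
  have h1 : (th M x).fv = ((upP x.1).1.fv ++ ([0, 0] ++ (cj x.2.2 (List.finRange M.k)).fv)).filter
      (fun j => j ≠ 0) := rfl
  rw [h1, List.filter_eq_nil_iff]
  intro i hi
  have h2 : i = 0 := by
    rcases List.mem_append.1 hi with h | h
    · exact (fv_upP _).1 i h
    · rcases List.mem_append.1 h with h | h
      · simpa using h
      · exact fv_cj _ _ i h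
  simp [h2]

/-! ### primitive recursion -/

theorem primrec_numP : Primrec numP := by
  have h2 : Primrec₂ (fun (_ : ℕ) (p : Fm × Fm) => numStep p) := by
    have hp : Primrec (fun x : ℕ × (Fm × Fm) => x.2) := Primrec.snd
    have h1 : Primrec (fun x : ℕ × (Fm × Fm) => x.2.1) := Primrec.fst.comp hp
    have h2 : Primrec (fun x : ℕ × (Fm × Fm) => x.2.2) := Primrec.snd.comp hp
    exact Primrec.pair
      (Fm.primrec_ex.comp (Primrec.const 3) (Fm.primrec_and.comp (Primrec.const (scF 3 2)) h2))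
      (Fm.primrec_ex.comp (Primrec.const 2) (Fm.primrec_and.comp (Primrec.const (scF 2 3)) h1))
  exact Primrec.nat_rec₁ _ h2

theorem primrec_upP : Primrec upP := by
  have h2 : Primrec₂ (fun (_ : ℕ) (p : Fm × Fm) => upStep p) := by
    have hp : Primrec (fun x : ℕ × (Fm × Fm) => x.2) := Primrec.snd
    have h1 : Primrec (fun x : ℕ × (Fm × Fm) => x.2.1) := Primrec.fst.comp hp
    have h2 : Primrec (fun x : ℕ × (Fm × Fm) => x.2.2) := Primrec.snd.comp hp
    exact Primrec.pair
      (Fm.primrec_ex.comp (Primrec.const 1) (Fm.primrec_and.comp (Primrec.const (Fm.rel 2 [0, 1])) h2))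
      (Fm.primrec_ex.comp (Primrec.const 0) (Fm.primrec_and.comp (Primrec.const (Fm.rel 2 [1, 0])) h1))
  exact Primrec.nat_rec₁ _ h2

theorem primrec_cj (k : ℕ) (l : List (Fin k)) : Primrec (fun al : Fin k → ℕ => cj al l) := by
  induction l with
  | nil => exact Primrec.const Fm.tru
  | cons i l ih =>
    have h1 : Primrec (fun al : Fin k → ℕ => al i) :=
      Primrec.fin_app.comp Primrec.id (Primrec.const i)
    have h2 : Primrec (fun al : Fin k → ℕ => (numP (al i)).1) :=
      Primrec.fst.comp (primrec_numP.comp h1)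
    exact Fm.primrec_and.comp (Fm.primrec_ex.comp (Primrec.const 2)
      (Fm.primrec_and.comp (Primrec.const (Fm.rel (12 + (i : ℕ)) [0, 2])) h2)) ih

theorem primrec_th (M : Mach) : Primrec (th M) := by
  have h1 : Primrec (fun x : ℕ × M.Cfg => (upP x.1).1) :=
    Primrec.fst.comp (primrec_upP.comp Primrec.fst)
  have h2 : Primrec (fun x : ℕ × M.Cfg => 12 + M.k + (x.2.1 : ℕ)) :=
    Primrec.nat_add.comp (Primrec.const (12 + M.k))
      (Primrec.fin_val.comp (Primrec.fst.comp Primrec.snd))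
  have h3 : Primrec (fun x : ℕ × M.Cfg => cj x.2.2 (List.finRange M.k)) :=
    (primrec_cj M.k (List.finRange M.k)).comp (Primrec.snd.comp Primrec.snd)
  exact Fm.primrec_ex.comp (Primrec.const 0) (Fm.primrec_and.comp h1 (Fm.primrec_and.comp
    (Fm.primrec_rel.comp h2 (Primrec.const [0, 0])) h3))

/-! ### satisfaction -/

section sat
variable {M : Mach} {c0 : M.Cfg} (G : Good M c0)

theorem mdl_rel (r : ℕ) (x y : G.Z ⊕ G.X) : G.mdl.R r [x, y] ↔ G.B r x y := by
  constructor
  · rintro ⟨x', y', h, hb⟩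
    have h1 : x = x' := (List.cons.inj h).1
    have h2 : y = y' := (List.cons.inj (List.cons.inj h).2).1
    rw [h1, h2]
    exact hb
  · intro h
    exact ⟨x, y, rfl, h⟩

theorem rel_zero (x y : G.Z ⊕ G.X) : G.mdl.R 0 [x, y] ↔ ∃ z w, x = Sum.inl z ∧ y = Sum.inl w ∧ z < w := by
  rw [mdl_rel]
  rcases x with z | e <;> rcases y with w | f
  · simp [Good.B]
  · simp [Good.B]
  · have : ∀ i : Fin M.k, 0 ≠ 12 + (i : ℕ) := by intro i; omega
    simp [Good.B, this]
  · have : ∀ s : Fin M.q, 0 ≠ 12 + M.k + (s : ℕ) := by intro i; omega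
    simp [Good.B, this]

theorem rel_one (x y : G.Z ⊕ G.X) : G.mdl.R 1 [x, y] ↔ x = Sum.inl G.o ∧ y = Sum.inl G.o := by
  rw [mdl_rel]
  rcases x with z | e <;> rcases y with w | f
  · simp only [Good.B]
    constructor
    · rintro (h | ⟨-, h1, h2⟩)
      · exact absurd h.1 (by norm_num)
      · exact ⟨by rw [h2], by rw [← h1, h2]⟩
    · rintro ⟨h1, h2⟩
      have h3 : z = G.o := Sum.inl_injective h1
      have h4 : w = G.o := Sum.inl_injective h2
      exact Or.inr ⟨trivial, by rw [h3, h4], h3⟩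
  · simp [Good.B]
  · have : ∀ i : Fin M.k, 1 ≠ 12 + (i : ℕ) := by intro i; omega
    simp [Good.B, this]
  · have : ∀ s : Fin M.q, 1 ≠ 12 + M.k + (s : ℕ) := by intro i; omega
    simp [Good.B, this]

theorem rel_two (x y : G.Z ⊕ G.X) : G.mdl.R 2 [x, y] ↔ ∃ e, x = Sum.inr e ∧ y = Sum.inr (G.dn e) := by
  rw [mdl_rel]
  rcases x with z | e <;> rcases y with w | f
  · simp [Good.B]
  · simp [Good.B]
  · have : ∀ i : Fin M.k, 2 ≠ 12 + (i : ℕ) := by intro i; omega
    simp [Good.B, this]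
  · have : ∀ s : Fin M.q, 2 ≠ 12 + M.k + (s : ℕ) := by intro i; omega
    simp only [Good.B, this]
    constructor
    · intro h
      have h1 : G.dn e = f := by simpa using h
      exact ⟨e, rfl, by rw [h1]⟩
    · rintro ⟨g, h1, h2⟩
      have e1 : e = g := Sum.inr_injective h1
      have e2 : f = G.dn g := Sum.inr_injective h2
      exact Or.inl ⟨trivial, by rw [e1, e2]⟩

theorem rel_three (x y : G.Z ⊕ G.X) : G.mdl.R 3 [x, y] ↔ ∃ e, x = Sum.inr e ∧ y = Sum.inr (G.sh e) := by
  rw [mdl_rel]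
  rcases x with z | e <;> rcases y with w | f
  · simp [Good.B]
  · simp [Good.B]
  · have : ∀ i : Fin M.k, 3 ≠ 12 + (i : ℕ) := by intro i; omega
    simp [Good.B, this]
  · have : ∀ s : Fin M.q, 3 ≠ 12 + M.k + (s : ℕ) := by intro i; omega
    simp only [Good.B, this]
    constructor
    · intro h
      have h1 : G.sh e = f := by simpa using h
      exact ⟨e, rfl, by rw [h1]⟩
    · rintro ⟨g, h1, h2⟩
      have e1 : e = g := Sum.inr_injective h1
      have e2 : f = G.sh g := Sum.inr_injective h2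
      exact Or.inr (Or.inl ⟨trivial, by rw [e1, e2]⟩)

theorem rel_eight (x y : G.Z ⊕ G.X) :
    G.mdl.R 8 [x, y] ↔ ∃ e, x = Sum.inr e ∧ y = Sum.inr e ∧ G.u0 e = true := by
  rw [mdl_rel]
  rcases x with z | e <;> rcases y with w | f
  · simp [Good.B]
  · simp [Good.B]
  · have : ∀ i : Fin M.k, 8 ≠ 12 + (i : ℕ) := by intro i; omega
    simp [Good.B, this]
  · have : ∀ s : Fin M.q, 8 ≠ 12 + M.k + (s : ℕ) := by intro i; omega
    simp only [Good.B, this]
    constructor
    · intro h
      have h1 : e = f ∧ G.u0 e = true := by simpa using h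
      exact ⟨e, rfl, by rw [h1.1], h1.2⟩
    · rintro ⟨g, h1, h2, h3⟩
      have e1 : e = g := Sum.inr_injective h1
      have e2 : f = g := Sum.inr_injective h2
      subst e1
      subst e2
      simp [h3]

theorem rel_nine (x y : G.Z ⊕ G.X) :
    G.mdl.R 9 [x, y] ↔ ∃ e, x = Sum.inr e ∧ y = Sum.inr e ∧ G.u1 e = true := by
  rw [mdl_rel]
  rcases x with z | e <;> rcases y with w | f
  · simp [Good.B]
  · simp [Good.B]
  · have : ∀ i : Fin M.k, 9 ≠ 12 + (i : ℕ) := by intro i; omega
    simp [Good.B, this]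
  · have : ∀ s : Fin M.q, 9 ≠ 12 + M.k + (s : ℕ) := by intro i; omega
    simp only [Good.B, this]
    constructor
    · intro h
      have h1 : e = f ∧ G.u1 e = true := by simpa using h
      exact ⟨e, rfl, by rw [h1.1], h1.2⟩
    · rintro ⟨g, h1, h2, h3⟩
      have e1 : e = g := Sum.inr_injective h1
      have e2 : f = g := Sum.inr_injective h2
      subst e1
      subst e2
      simp [h3]

theorem rel_st (s : Fin M.q) (e : G.X) :
    G.mdl.R (12 + M.k + (s : ℕ)) [Sum.inr e, Sum.inr e] ↔ G.st e = s := by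
  rw [mdl_rel]
  have h2 : 12 + M.k + (s : ℕ) ≠ 2 := by omega
  have h3 : 12 + M.k + (s : ℕ) ≠ 3 := by omega
  have h8 : 12 + M.k + (s : ℕ) ≠ 8 := by omega
  have h9 : 12 + M.k + (s : ℕ) ≠ 9 := by omega
  have h10 : 12 + M.k + (s : ℕ) ≠ 10 := by omega
  have h11 : 12 + M.k + (s : ℕ) ≠ 11 := by omega
  simp only [Good.B]
  constructor
  · rintro (h | h | h | h | h | h | ⟨s', h, -, h'⟩)
    · exact absurd h.1 h2
    · exact absurd h.1 h3
    · exact absurd h.1 h8
    · exact absurd h.1 h9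
    · exact absurd h.1 h10
    · exact absurd h.1 h11
    · have : s = s' := Fin.ext (by omega)
      rw [this]
      exact h'
  · intro h
    exact Or.inr (Or.inr (Or.inr (Or.inr (Or.inr (Or.inr ⟨s, rfl, trivial, h⟩)))))

theorem rel_al (i : Fin M.k) (e : G.X) (x : G.Z ⊕ G.X) :
    G.mdl.R (12 + (i : ℕ)) [Sum.inr e, x] → x = Sum.inl (G.al i e) ∨ ∃ f, x = Sum.inr f := by
  rw [mdl_rel]
  rcases x with w | f
  · simp only [Good.B]
    rintro (h | h | h | h | ⟨i', h, h'⟩)
    · omega
    · omega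
    · omega
    · omega
    · have : i = i' := Fin.ext (by omega)
      rw [this, h']
      exact Or.inl rfl
  · intro _
    exact Or.inr ⟨f, rfl⟩

theorem rel_al' (i : Fin M.k) (e : G.X) :
    G.mdl.R (12 + (i : ℕ)) [Sum.inr e, Sum.inl (G.al i e)] := by
  rw [mdl_rel]
  exact Or.inr (Or.inr (Or.inr (Or.inr ⟨i, rfl, rfl⟩)))

/-- the successor relation -/
theorem succ_iff (z w : G.Z) : (z < w ∧ ¬ ∃ u, z < u ∧ u < w) ↔ w = G.S z := by
  constructor
  · rintro ⟨h1, h2⟩
    have h3 := G.S_le z w h1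
    rcases h3.lt_or_eq with h4 | h4
    · exact absurd ⟨G.S z, G.lt_S z, h4⟩ h2
    · exact h4.symm
  · rintro rfl
    refine ⟨G.lt_S z, ?_⟩
    rintro ⟨u, h1, h2⟩
    exact absurd (G.S_le z u h1) (not_le.2 h2)

theorem sat_scF (s : ℕ → G.mdl.C) (v w : ℕ) (hv : v ≠ 4) (hw : w ≠ 4) :
    Sat G.mdl s (scF v w) ↔ ∃ z, s v = Sum.inl z ∧ s w = Sum.inl (G.S z) := by
  have e1 : Sat G.mdl s (scF v w) ↔ (G.mdl.R 0 [s v, s w] ∧
      ¬ ∃ a, G.mdl.R 0 [Function.update s 4 a v, Function.update s 4 a 4] ∧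
        G.mdl.R 0 [Function.update s 4 a 4, Function.update s 4 a w]) := Iff.rfl
  rw [e1]
  simp only [Function.update_self, Function.update_of_ne hv, Function.update_of_ne hw]
  constructor
  · rintro ⟨h1, h2⟩
    obtain ⟨z, w', hz, hw', hlt⟩ := (rel_zero G _ _).1 h1
    refine ⟨z, hz, ?_⟩
    rw [hw']
    congr 1
    refine (succ_iff G z w').1 ⟨hlt, ?_⟩
    rintro ⟨u, hu1, hu2⟩
    apply h2
    exact ⟨Sum.inl u, (rel_zero G _ _).2 ⟨z, u, hz, rfl, hu1⟩,
      (rel_zero G _ _).2 ⟨u, w', rfl, hw', hu2⟩⟩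
  · rintro ⟨z, hz, hw'⟩
    refine ⟨(rel_zero G _ _).2 ⟨z, _, hz, hw', G.lt_S z⟩, ?_⟩
    rintro ⟨a, h1, h2⟩
    obtain ⟨z', u, hz', hu, h3⟩ := (rel_zero G _ _).1 h1
    obtain ⟨u', w', hu', hw'', h4⟩ := (rel_zero G _ _).1 h2
    have e2 : z' = z := by
      have : (Sum.inl z' : G.Z ⊕ G.X) = Sum.inl z := by rw [← hz', ← hz]
      exact Sum.inl_injective this
    have e3 : u' = u := by
      have : (Sum.inl u' : G.Z ⊕ G.X) = Sum.inl u := by rw [← hu', ← hu]
      exact Sum.inl_injective this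
    have e4 : w' = G.S z := by
      have : (Sum.inl w' : G.Z ⊕ G.X) = Sum.inl (G.S z) := by rw [← hw'', ← hw']
      exact Sum.inl_injective this
    subst e2
    subst e3
    subst e4
    exact absurd (G.S_le z' u' h3) (not_le.2 h4)

theorem sat_numP (n : ℕ) : (∀ s : ℕ → G.mdl.C, Sat G.mdl s (numP n).1 ↔ s 2 = Sum.inl (G.S^[n] G.o)) ∧
    (∀ s : ℕ → G.mdl.C, Sat G.mdl s (numP n).2 ↔ s 3 = Sum.inl (G.S^[n] G.o)) := by
  induction n with
  | zero =>
    constructor
    · intro s
      have e1 : Sat G.mdl s (numP 0).1 ↔ G.mdl.R 1 [s 2, s 2] := Iff.rfl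
      rw [e1, rel_one, and_self_iff]
      rfl
    · intro s
      have e1 : Sat G.mdl s (numP 0).2 ↔ G.mdl.R 1 [s 3, s 3] := Iff.rfl
      rw [e1, rel_one, and_self_iff]
      rfl
  | succ n ih =>
    constructor
    · intro s
      have e1 : Sat G.mdl s (numP (n + 1)).1 ↔ ∃ a, Sat G.mdl (Function.update s 3 a) (scF 3 2) ∧
          Sat G.mdl (Function.update s 3 a) (numP n).2 := Iff.rfl
      rw [e1]
      constructor
      · rintro ⟨a, h1, h2⟩
        rw [sat_scF G _ _ _ (by norm_num) (by norm_num)] at h1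
        obtain ⟨z, h3, h4⟩ := h1
        rw [ih.2, h3] at h2
        have h5 : z = G.S^[n] G.o := Sum.inl_injective h2
        rw [Function.update_of_ne (by norm_num)] at h4
        rw [h4, h5, Function.iterate_succ_apply']
      · intro h
        refine ⟨Sum.inl (G.S^[n] G.o), ?_, ?_⟩
        · rw [sat_scF G _ _ _ (by norm_num) (by norm_num)]
          refine ⟨_, Function.update_self _ _ _, ?_⟩
          rw [Function.update_of_ne (by norm_num), h, Function.iterate_succ_apply']
        · rw [ih.2, Function.update_self]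
    · intro s
      have e1 : Sat G.mdl s (numP (n + 1)).2 ↔ ∃ a, Sat G.mdl (Function.update s 2 a) (scF 2 3) ∧
          Sat G.mdl (Function.update s 2 a) (numP n).1 := Iff.rfl
      rw [e1]
      constructor
      · rintro ⟨a, h1, h2⟩
        rw [sat_scF G _ _ _ (by norm_num) (by norm_num)] at h1
        obtain ⟨z, h3, h4⟩ := h1
        rw [ih.1, h3] at h2
        have h5 : z = G.S^[n] G.o := Sum.inl_injective h2
        rw [Function.update_of_ne (by norm_num)] at h4
        rw [h4, h5, Function.iterate_succ_apply']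
      · intro h
        refine ⟨Sum.inl (G.S^[n] G.o), ?_, ?_⟩
        · rw [sat_scF G _ _ _ (by norm_num) (by norm_num)]
          refine ⟨_, Function.update_self _ _ _, ?_⟩
          rw [Function.update_of_ne (by norm_num), h, Function.iterate_succ_apply']
        · rw [ih.1, Function.update_self]

theorem sat_ogF (s : ℕ → G.mdl.C) (v : ℕ) (hv : v ≠ 4) :
    Sat G.mdl s (ogF v) ↔ s v = Sum.inr G.og := by
  have e1 : Sat G.mdl s (ogF v) ↔ ((G.mdl.R 8 [s v, s v] ∧
      ∃ a, G.mdl.R 3 [Function.update s 4 a 4, Function.update s 4 a v] ∧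
        ¬ G.mdl.R 8 [Function.update s 4 a 4, Function.update s 4 a 4]) ∧
      (G.mdl.R 9 [s v, s v] ∧
      ∃ a, G.mdl.R 3 [Function.update s 4 a 4, Function.update s 4 a v] ∧
        ¬ G.mdl.R 9 [Function.update s 4 a 4, Function.update s 4 a 4])) := Iff.rfl
  rw [e1]
  simp only [Function.update_self, Function.update_of_ne hv]
  constructor
  · rintro ⟨⟨h1, a, h2, h3⟩, ⟨h4, b, h5, h6⟩⟩
    obtain ⟨e, he, -, hu0⟩ := (rel_eight G _ _).1 h1
    obtain ⟨e', he', -, hu1⟩ := (rel_nine G _ _).1 h4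
    have e2 : e' = e := by
      have : (Sum.inr e' : G.Z ⊕ G.X) = Sum.inr e := by rw [← he', ← he]
      exact Sum.inr_injective this
    subst e2
    obtain ⟨f, hf, hf'⟩ := (rel_three G _ _).1 h2
    obtain ⟨g, hg, hg'⟩ := (rel_three G _ _).1 h5
    have e3 : G.sh f = e' := by
      have : (Sum.inr (G.sh f) : G.Z ⊕ G.X) = Sum.inr e' := by rw [← hf', ← he]
      exact Sum.inr_injective this
    have e4 : G.sh g = e' := by
      have : (Sum.inr (G.sh g) : G.Z ⊕ G.X) = Sum.inr e' := by rw [← hg', ← he]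
      exact Sum.inr_injective this
    have e5 : f = G.sh.symm e' := by rw [← e3, Equiv.symm_apply_apply]
    have e6 : g = G.sh.symm e' := by rw [← e4, Equiv.symm_apply_apply]
    have h7 : G.u0 (G.sh.symm e') = false := by
      rw [Bool.eq_false_iff]
      intro hh
      apply h3
      exact (rel_eight G _ _).2 ⟨f, hf, hf, by rw [e5]; exact hh⟩
    have h8 : G.u1 (G.sh.symm e') = false := by
      rw [Bool.eq_false_iff]
      intro hh
      apply h6
      exact (rel_nine G _ _).2 ⟨g, hg, hg, by rw [e6]; exact hh⟩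
    rw [he, G.og_un e' hu0 h7 hu1 h8]
  · intro h
    obtain ⟨g1, g2, g3, g4⟩ := G.og_line
    refine ⟨⟨(rel_eight G _ _).2 ⟨G.og, h, h, g1⟩, Sum.inr (G.sh.symm G.og), ?_, ?_⟩,
      ⟨(rel_nine G _ _).2 ⟨G.og, h, h, g3⟩, Sum.inr (G.sh.symm G.og), ?_, ?_⟩⟩
    · exact (rel_three G _ _).2 ⟨G.sh.symm G.og, rfl, by rw [h, Equiv.apply_symm_apply]⟩
    · intro hh
      obtain ⟨e, he, -, hu⟩ := (rel_eight G _ _).1 hh
      have : G.sh.symm G.og = e := Sum.inr_injective he
      rw [← this, g2] at hu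
      exact absurd hu (by simp)
    · exact (rel_three G _ _).2 ⟨G.sh.symm G.og, rfl, by rw [h, Equiv.apply_symm_apply]⟩
    · intro hh
      obtain ⟨e, he, -, hu⟩ := (rel_nine G _ _).1 hh
      have : G.sh.symm G.og = e := Sum.inr_injective he
      rw [← this, g4] at hu
      exact absurd hu (by simp)

theorem sat_upP (n : ℕ) :
    (∀ s : ℕ → G.mdl.C, Sat G.mdl s (upP n).1 ↔ ∃ e, s 0 = Sum.inr e ∧ G.dn^[n] e = G.og) ∧
    (∀ s : ℕ → G.mdl.C, Sat G.mdl s (upP n).2 ↔ ∃ e, s 1 = Sum.inr e ∧ G.dn^[n] e = G.og) := by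
  induction n with
  | zero =>
    constructor
    · intro s
      have e1 : Sat G.mdl s (upP 0).1 ↔ Sat G.mdl s (ogF 0) := Iff.rfl
      rw [e1, sat_ogF G _ _ (by norm_num)]
      constructor
      · intro h
        exact ⟨_, h, rfl⟩
      · rintro ⟨e, h1, h2⟩
        rw [h1, ← h2]
        rfl
    · intro s
      have e1 : Sat G.mdl s (upP 0).2 ↔ Sat G.mdl s (ogF 1) := Iff.rfl
      rw [e1, sat_ogF G _ _ (by norm_num)]
      constructor
      · intro h
        exact ⟨_, h, rfl⟩
      · rintro ⟨e, h1, h2⟩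
        rw [h1, ← h2]
        rfl
  | succ n ih =>
    constructor
    · intro s
      have e1 : Sat G.mdl s (upP (n + 1)).1 ↔ ∃ a, G.mdl.R 2 [Function.update s 1 a 0,
          Function.update s 1 a 1] ∧ Sat G.mdl (Function.update s 1 a) (upP n).2 := Iff.rfl
      rw [e1]
      simp only [ih.2, Function.update_self, ne_eq, Nat.zero_ne_one, not_false_eq_true,
        Function.update_of_ne]
      constructor
      · rintro ⟨a, h1, f, h2, h3⟩
        obtain ⟨e, he, he'⟩ := (rel_two G _ _).1 h1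
        refine ⟨e, he, ?_⟩
        rw [Function.iterate_succ_apply]
        have : f = G.dn e := by
          have : (Sum.inr f : G.Z ⊕ G.X) = Sum.inr (G.dn e) := by rw [← h2, ← he']
          exact Sum.inr_injective this
        rw [← this, h3]
      · rintro ⟨e, he, he'⟩
        refine ⟨Sum.inr (G.dn e), (rel_two G _ _).2 ⟨e, he, rfl⟩, G.dn e, rfl, ?_⟩
        rw [← Function.iterate_succ_apply]
        exact he'
    · intro s
      have e1 : Sat G.mdl s (upP (n + 1)).2 ↔ ∃ a, G.mdl.R 2 [Function.update s 0 a 1,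
          Function.update s 0 a 0] ∧ Sat G.mdl (Function.update s 0 a) (upP n).1 := Iff.rfl
      rw [e1]
      simp only [ih.1, Function.update_self, ne_eq, one_ne_zero, not_false_eq_true,
        Function.update_of_ne]
      constructor
      · rintro ⟨a, h1, f, h2, h3⟩
        obtain ⟨e, he, he'⟩ := (rel_two G _ _).1 h1
        refine ⟨e, he, ?_⟩
        rw [Function.iterate_succ_apply]
        have : f = G.dn e := by
          have : (Sum.inr f : G.Z ⊕ G.X) = Sum.inr (G.dn e) := by rw [← h2, ← he']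
          exact Sum.inr_injective this
        rw [← this, h3]
      · rintro ⟨e, he, he'⟩
        refine ⟨Sum.inr (G.dn e), (rel_two G _ _).2 ⟨e, he, rfl⟩, G.dn e, rfl, ?_⟩
        rw [← Function.iterate_succ_apply]
        exact he'

theorem sat_cj (al : Fin M.k → ℕ) (l : List (Fin M.k)) (s : ℕ → G.mdl.C) (e : G.X)
    (he : s 0 = Sum.inr e) :
    Sat G.mdl s (cj al l) ↔ ∀ i ∈ l, G.al i e = (G.S^[al i]) G.o := by
  induction l with
  | nil =>
    constructor
    · intro _ i hi
      simp at hi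
    · intro _
      exact sat_tru.2 trivial
  | cons i l ih =>
    have e1 : Sat G.mdl s (cj al (i :: l)) ↔ ((∃ a, G.mdl.R (12 + (i : ℕ)) [Function.update s 2 a 0,
          Function.update s 2 a 2] ∧ Sat G.mdl (Function.update s 2 a) (numP (al i)).1) ∧
          Sat G.mdl s (cj al l)) := Iff.rfl
    rw [e1, ih]
    simp only [(sat_numP G _).1, Function.update_self, ne_eq, OfNat.zero_ne_ofNat,
      not_false_eq_true, Function.update_of_ne, he]
    constructor
    · rintro ⟨⟨a, h1, h2⟩, h3⟩ j hj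
      rcases List.mem_cons.1 hj with rfl | hj
      · rcases rel_al G j e a h1 with h4 | ⟨f, h4⟩
        · rw [h2] at h4
          exact (Sum.inl_injective h4).symm
        · rw [h2] at h4
          exact absurd h4 (by simp)
      · exact h3 j hj
    · intro h
      refine ⟨⟨Sum.inl (G.al i e), rel_al' G i e, ?_⟩, fun j hj => h j (List.mem_cons_of_mem _ hj)⟩
      rw [h i List.mem_cons_self]

end sat

end ThetaAux

open ThetaAux in
theorem exists_theta (M : Mach) : ∃ θ : ℕ × M.Cfg → Fm, Primrec θ ∧ (∀ x, (θ x).Closed) ∧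
    ∀ (c0 : M.Cfg) (G : Good M c0) (t : ℕ) (D : M.Cfg), θ (t, D) ∈ Th G.mdl ↔ ∃ e, G.dn^[t] e = G.og ∧ G.Conf e D := by
  refine ⟨th M, primrec_th M, closed_th M, ?_⟩
  intro c0 G t D
  obtain ⟨a0⟩ := G.mdl.ne
  rw [mem_th_iff (closed_th M _) (fun _ => a0)]
  set s0 : ℕ → G.mdl.C := fun _ => a0 with hs0
  have e1 : Sat G.mdl s0 (th M (t, D)) ↔ ∃ a, Sat G.mdl (Function.update s0 0 a) (upP t).1 ∧
      G.mdl.R (12 + M.k + (D.1 : ℕ)) [Function.update s0 0 a 0, Function.update s0 0 a 0] ∧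
      Sat G.mdl (Function.update s0 0 a) (cj D.2 (List.finRange M.k)) := Iff.rfl
  rw [e1]
  constructor
  · rintro ⟨a, h1, h2, h3⟩
    rw [(sat_upP G t).1] at h1
    obtain ⟨e, he, he'⟩ := h1
    refine ⟨e, he', ?_, ?_⟩
    · rw [he] at h2
      exact (rel_st G _ _).1 h2
    · intro i
      exact (sat_cj G D.2 _ _ e he).1 h3 i (List.mem_finRange i)
  · rintro ⟨e, he, h1, h2⟩
    have h0 : Function.update s0 0 (Sum.inr e : G.mdl.C) 0 = Sum.inr e := Function.update_self _ _ _
    refine ⟨Sum.inr e, ?_, ?_, ?_⟩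
    · rw [(sat_upP G t).1]
      exact ⟨e, h0, he⟩
    · rw [h0]
      exact (rel_st G _ _).2 h1
    · rw [sat_cj G D.2 _ _ e h0]
      intro i _
      exact h2 i

end CB
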