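import Pool.Agent.Work.MP_cb528c_lc.GAxOf
import Pool.Agent.Work.MP_cb528c_lc.GAxTo
import Pool.Agent.Work.MP_cb528c_lc.GAxFo
import Pool.Agent.Work.MP_cb528c_lc.GTheta
import Pool.Agent.Work.MP_cb528c_lc.GFactB
import Pool.Agent.Work.MP_cb528c_lc.GReal

set_option autoImplicit false
set_option linter.all false

/-!
# MP_cb528c_lc, module GMain: summary of block H

`b` from `gax_fo` and `FO.closed`; `θ` from `exists_theta`.  For `N` with `b ∈ Th N`: `good_of_gax` gives `G` with `G.mdl.Iso N`, so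
`Th N = Th G.mdl` (`th_iso`); the branch from `Good.exists_br`; `θ (t, D) ∈ Th N ↔ c t = D` since the element at height `t` is
unique and has configuration `c t` and `S^[n] o` is injective in `n` (`Conf e D ∧ Conf e D' → D = D'`).
Last part: `good_ef` and `EF.iso_empty`; the hypothesis gives `c t = c' t` for `t ≤ R` (take `D = c t`).
-/

namespace CB

theorem good_main (M : Mach) (c0 : M.Cfg) : ∃ (b : Fm) (θ : ℕ × M.Cfg → Fm), b.Closed ∧ Primrec θ ∧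
    (∀ x, (θ x).Closed) ∧
    (∀ N : Mdl, N.Ok (Good.ar0 M) → b ∈ Th N → ∃ c, M.Inv c0 c ∧ ∀ t D, θ (t, D) ∈ Th N ↔ c t = D) ∧
    (∀ c, M.Inv c0 c → ∃ N : Mdl, N.Ok (Good.ar0 M) ∧ b ∈ Th N ∧ ∀ t D, θ (t, D) ∈ Th N ↔ c t = D) ∧
    ∀ n, ∃ R, ∀ N N' : Mdl, N.Ok (Good.ar0 M) → N'.Ok (Good.ar0 M) → b ∈ Th N → b ∈ Th N' →
      (∀ t ≤ R, ∀ D, θ (t, D) ∈ Th N ↔ θ (t, D) ∈ Th N') → EF N N' n ∅ := by
  obtain ⟨b, hb, hbN⟩ := (gax_fo M c0).closed
  obtain ⟨θ, hθp, hθc, hθ⟩ := exists_theta M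
  have hconf : ∀ (G : Good M c0) (e : G.X) (D D' : M.Cfg), G.Conf e D → G.Conf e D' → D = D' := by
    intro G e D D' h h'
    refine Prod.ext (h.1.symm.trans h'.1) (funext fun i => ?_)
    have h1 : (G.S^[D.2 i]) G.o = (G.S^[D'.2 i]) G.o := (h.2 i).symm.trans (h'.2 i)
    have h2 := (G.succ.pow_inj (D.2 i : ℤ) (D'.2 i : ℤ) G.o).1 (by
      rw [zpow_natCast, zpow_natCast]
      rw [← Equiv.Perm.iterate_eq_pow, ← Equiv.Perm.iterate_eq_pow]
      exact h1)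
    exact_mod_cast h2
  have hG : ∀ (G : Good M c0) (c : ℕ → M.Cfg), G.IsBr c → ∀ t D, θ (t, D) ∈ Th G.mdl ↔ c t = D := by
    intro G c hc t D
    rw [hθ]
    constructor
    · rintro ⟨e, he, hD⟩
      obtain ⟨e', he', hD'⟩ := hc t
      have h1 : e = e' := G.iter_inj t (he.trans he'.symm)
      subst h1
      exact hconf G e _ _ hD' hD
    · rintro rfl
      exact hc t
  have hN : ∀ N : Mdl, N.Ok (Good.ar0 M) → b ∈ Th N → ∃ G : Good M c0, G.mdl.Iso N :=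
    fun N hN h => good_of_gax hN ((hbN N).1 h)
  refine ⟨b, θ, hb, hθp, hθc, ?_, ?_, ?_⟩
  · intro N hok hbN'
    obtain ⟨G, hG'⟩ := hN N hok hbN'
    obtain ⟨c, hc, hbr⟩ := G.exists_br
    refine ⟨c, hc, fun t D => ?_⟩
    rw [← th_iso hG']
    exact hG G c hbr t D
  · intro c hc
    obtain ⟨G, hbr⟩ := good_real hc
    exact ⟨G.mdl, G.ok, (hbN _).2 (gax_of_good G), hG G c hbr⟩
  · intro n
    obtain ⟨R, hR⟩ := good_ef M c0 n
    refine ⟨R, fun N N' h1 h2 h3 h4 h5 => ?_⟩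
    obtain ⟨G, hG1⟩ := hN N h1 h3
    obtain ⟨G', hG2⟩ := hN N' h2 h4
    obtain ⟨c, hc, hbr⟩ := G.exists_br
    obtain ⟨c', hc', hbr'⟩ := G'.exists_br
    refine EF.iso_empty hG1 hG2 (hR G G' c c' hbr hbr' fun t ht => ?_)
    have h6 := (h5 t ht (c t))
    rw [← th_iso hG1, ← th_iso hG2, hG G c hbr, hG G' c' hbr'] at h6
    exact (h6.1 rfl).symm

end CB
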