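import Pool.Agent.Work.MP_cb528c_lc.LoopM
import Pool.Agent.Work.MP_cb528c_lc.BaDefs

set_option autoImplicit false
set_option linter.all false

/-!
# MP_cb528c_lc, module MachMain: a deterministic machine whose inverse branches are the points of a Pi_1 class

Code 0-1 sequences by numbers with leading bit 1: `code [] = 1`, `code (s ++ [b]) = 2 code s + b`, inverse `dl` (primitive recursive),
`F m b := if f (dl (2 m + b)) && f [] then 2 m + b else 0` (`b` as `0` or `1`), `M, Hm, T, L'` from `exists_loopM`, `c0 := Hm 1 0`.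
For `s : List Bool` fold: `(m, L, t)` starting with `(1, 0, 0)`, with the bit `b`: `(F m b, L' m b L, t + T m b L)`;
`E s := some (t, Hm m L)` if all the `m` on the way (also the last) are `≠ 0`, else `none`.  (Computable: recursion on the length with
`getD`.)  If `E s` is defined then `m = code s` and `f` accepts all prefixes of `s`, and conversely (given `f [] = true`).
* `s.length ≤ t` since `T ≥ 1`.
* Let `χ` be an inverse branch of `c0`.  By the last property of `exists_loopM` applied successively to the shifted branches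
  `t ↦ χ (t + t_n)` we get bits `b_n`, `m_0 = 1`, `m_{n+1} = F m_n b_n ≠ 0`, `L_n`, `t_n` with `χ t_n = Hm m_n L_n`.  Put `y n := b_n`.  Then
  `E (restr y n) = some (t_n, χ t_n)`, and `f (restr y n) = true` for all `n` (for `n = 0` because `m_1 ≠ 0`).
* Conversely for `y ∈ PC f` the `m_n = code (restr y n)`, `L_n`, `t_n` are defined and `χ t := M.step^[t_n - t] (Hm m_n L_n)` for any `n` with
  `t_n ≥ t` is well defined (use `n = t`) and an inverse branch.
* Last part: if `χ t = Hm m L` then `t = t_n` for some `n` (for `t_n < t < t_{n+1}` it is excluded; `t_n ≥ n`), so `m = m_n` is the code of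
  a sequence of length `n`.  If `E s = some (t, χ t)` then `χ t = Hm (code s) L`, so `n = s.length` and `code s = m_n`.  Hence `s = s'`.
-/

namespace CB

/-- codes of finite sequences -/
private def cd (s : List Bool) : ℕ := Encodable.encode s + 1

private theorem cd_inj {s s' : List Bool} (h : cd s = cd s') : s = s' :=
  Encodable.encode_injective (Nat.succ_injective h)

/-- the function iterated by the machine -/
private def FF (f : List Bool → Bool) (m : ℕ) (b : Bool) : ℕ :=
  if m = 0 then 0 else ((Encodable.decode (m - 1) : Option (List Bool)).map fun s =>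
    bif (f (s ++ [b]) && f []) then cd (s ++ [b]) else 0).getD 0

private theorem primrec_FF (f : List Bool → Bool) (hf : Primrec f) : Primrec₂ (FF f) := by
  have hc : Primrec (fun y : (ℕ × Bool) × List Bool => y.2 ++ [y.1.2]) :=
    Primrec.list_concat.comp Primrec.snd (Primrec.snd.comp Primrec.fst)
  have h1 : Primrec₂ (fun (x : ℕ × Bool) (s : List Bool) =>
      bif (f (s ++ [x.2]) && f []) then cd (s ++ [x.2]) else 0) :=
    Primrec.cond (Primrec.and.comp (hf.comp hc) (Primrec.const (f [])))
      (Primrec.succ.comp (Primrec.encode.comp hc)) (Primrec.const 0)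
  exact Primrec.ite (Primrec.eq.comp Primrec.fst (Primrec.const 0)) (Primrec.const 0)
    (Primrec.option_getD.comp (Primrec.option_map
      (Primrec.decode.comp (Primrec.nat_sub.comp Primrec.fst (Primrec.const 1))) h1)
      (Primrec.const 0))

private theorem FF_zero (f : List Bool → Bool) (b : Bool) : FF f 0 b = 0 := if_pos rfl

private theorem FF_cd (f : List Bool → Bool) (s : List Bool) (b : Bool) :
    FF f (cd s) b = bif (f (s ++ [b]) && f []) then cd (s ++ [b]) else 0 := by
  unfold FF
  rw [if_neg (show cd s ≠ 0 from Nat.succ_ne_zero _)]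
  have h : cd s - 1 = Encodable.encode s := rfl
  rw [h, Encodable.encodek]
  rfl

/-- the state (code, log, time) after `n` choices -/
private def RR (f : List Bool → Bool) (T L' : ℕ → Bool → ℕ → ℕ) (y : ℕ → Bool) (n : ℕ) :
    ℕ × ℕ × ℕ :=
  Nat.rec (motive := fun _ => ℕ × ℕ × ℕ) (cd [], 0, 0) (fun i r =>
    (FF f r.1 (y i), L' r.1 (y i) r.2.1, r.2.2 + T r.1 (y i) r.2.1)) n

section RR

variable (f : List Bool → Bool) (T L' : ℕ → Bool → ℕ → ℕ)

private theorem RR_succ (y : ℕ → Bool) (n : ℕ) : RR f T L' y (n + 1) =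
    (FF f (RR f T L' y n).1 (y n), L' (RR f T L' y n).1 (y n) (RR f T L' y n).2.1,
      (RR f T L' y n).2.2 + T (RR f T L' y n).1 (y n) (RR f T L' y n).2.1) := rfl

private theorem RR_congr {y y' : ℕ → Bool} {n : ℕ} (h : ∀ i < n, y i = y' i) :
    RR f T L' y n = RR f T L' y' n := by
  induction n with
  | zero => rfl
  | succ n ih =>
    rw [RR_succ, RR_succ, ih fun i hi => h i (by omega), h n (by omega)]

private theorem RR_spec (y : ℕ → Bool) (n : ℕ) (h : (RR f T L' y n).1 ≠ 0) :
    (RR f T L' y n).1 = cd (restr y n) ∧ ∀ k, k + 1 = n →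
      (RR f T L' y k).1 ≠ 0 ∧ f (restr y n) = true ∧ f [] = true := by
  induction n with
  | zero => exact ⟨rfl, fun k hk => absurd hk (by omega)⟩
  | succ n ih =>
    have h0 : (RR f T L' y n).1 ≠ 0 := fun h' => h (by
      change FF f (RR f T L' y n).1 (y n) = 0
      rw [h', FF_zero])
    have h1 : (RR f T L' y (n + 1)).1 =
        bif (f (restr y n ++ [y n]) && f []) then cd (restr y n ++ [y n]) else 0 := by
      change FF f (RR f T L' y n).1 (y n) = _
      rw [(ih h0).1, FF_cd]
    rw [← restr_succ] at h1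
    have h2 : (f (restr y (n + 1)) && f []) = true := by
      by_contra hne
      rw [Bool.not_eq_true] at hne
      rw [hne] at h1
      exact h h1
    rw [h2] at h1
    rw [Bool.and_eq_true] at h2
    refine ⟨h1, fun k hk => ?_⟩
    obtain rfl : k = n := by omega
    exact ⟨h0, h2.1, h2.2⟩

private theorem RR_pc (y : ℕ → Bool) (hy : y ∈ PC f) (n : ℕ) : (RR f T L' y n).1 ≠ 0 := by
  induction n with
  | zero => exact Nat.succ_ne_zero _
  | succ n ih =>
    change FF f (RR f T L' y n).1 (y n) ≠ 0
    rw [(RR_spec f T L' y n ih).1, FF_cd, ← restr_succ, hy (n + 1)]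
    have : f [] = true := hy 0
    rw [this]
    exact Nat.succ_ne_zero _

private theorem RR_lt (hT : ∀ m b L, m ≠ 0 → 0 < T m b L) (y : ℕ → Bool) (n : ℕ)
    (h : (RR f T L' y n).1 ≠ 0) : (RR f T L' y n).2.2 < (RR f T L' y (n + 1)).2.2 :=
  Nat.lt_add_of_pos_right (hT _ _ _ h)

private theorem RR_le (hT : ∀ m b L, m ≠ 0 → 0 < T m b L) (y : ℕ → Bool) (n : ℕ)
    (h : (RR f T L' y n).1 ≠ 0) : n ≤ (RR f T L' y n).2.2 := by
  induction n with
  | zero => exact Nat.zero_le _
  | succ n ih =>
    have h0 := ((RR_spec f T L' y (n + 1) h).2 n rfl).1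
    have h1 := RR_lt f T L' hT y n h0
    have h2 := ih h0
    omega

/-- a finite sequence as an infinite one -/
private def ex (s : List Bool) : ℕ → Bool := fun i => s.getD i false

private theorem restr_ex (s : List Bool) : restr (ex s) s.length = s := by
  apply List.ext_getElem
  · rw [restr_length]
  · intro i h1 h2
    unfold restr ex
    rw [List.getElem_map, List.getElem_range, List.getD_eq_getElem?_getD,
      List.getElem?_eq_getElem h2]
    rfl

private theorem ex_restr (y : ℕ → Bool) (n i : ℕ) (hi : i < n) : ex (restr y n) i = y i := by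
  unfold ex restr
  rw [List.getD_eq_getElem?_getD, List.getElem?_eq_getElem (by simpa using hi),
    List.getElem_map, List.getElem_range]
  rfl

/-- the state of a finite sequence -/
private def rr (s : List Bool) : ℕ × ℕ × ℕ := RR f T L' (ex s) s.length

private theorem rr_restr (y : ℕ → Bool) (n : ℕ) : rr f T L' (restr y n) = RR f T L' y n := by
  unfold rr
  rw [restr_length]
  exact RR_congr f T L' fun i hi => ex_restr y n i hi

variable {M : Mach} (Hm : ℕ → ℕ → M.Cfg)

private def EE (s : List Bool) : Option (ℕ × M.Cfg) :=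
  bif decide ((rr f T L' s).1 = 0) then none
    else some ((rr f T L' s).2.2, Hm (rr f T L' s).1 (rr f T L' s).2.1)

private theorem EE_some (s : List Bool) (t : ℕ) (D : M.Cfg) (h : EE f T L' Hm s = some (t, D)) :
    (rr f T L' s).1 ≠ 0 ∧ (rr f T L' s).2.2 = t ∧
      Hm (rr f T L' s).1 (rr f T L' s).2.1 = D := by
  unfold EE at h
  by_cases h0 : (rr f T L' s).1 = 0
  · rw [decide_eq_true h0] at h
    exact absurd h (by simp)
  · rw [decide_eq_false h0] at h
    simp only [cond_false, Option.some.injEq, Prod.mk.injEq] at h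
    exact ⟨h0, h.1, h.2⟩

private theorem EE_restr (y : ℕ → Bool) (n : ℕ) (h : (RR f T L' y n).1 ≠ 0) :
    EE f T L' Hm (restr y n) =
      some ((RR f T L' y n).2.2, Hm (RR f T L' y n).1 (RR f T L' y n).2.1) := by
  unfold EE
  rw [rr_restr, decide_eq_false h]
  rfl

private theorem computable_rr (hF : Primrec₂ (FF f))
    (hT : Computable (fun x : ℕ × Bool × ℕ => T x.1 x.2.1 x.2.2))
    (hL : Computable (fun x : ℕ × Bool × ℕ => L' x.1 x.2.1 x.2.2)) :
    Computable (rr f T L') := by
  have hb : Computable (fun x : List Bool × ℕ × ℕ × ℕ × ℕ => x.1.getD x.2.1 false) :=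
    (Primrec.list_getD false).to_comp.comp Computable.fst (Computable.fst.comp Computable.snd)
  have hm : Computable (fun x : List Bool × ℕ × ℕ × ℕ × ℕ => x.2.2.1) :=
    Computable.fst.comp (Computable.snd.comp Computable.snd)
  have hl : Computable (fun x : List Bool × ℕ × ℕ × ℕ × ℕ => x.2.2.2.1) :=
    Computable.fst.comp (Computable.snd.comp (Computable.snd.comp Computable.snd))
  have ht : Computable (fun x : List Bool × ℕ × ℕ × ℕ × ℕ => x.2.2.2.2) :=
    Computable.snd.comp (Computable.snd.comp (Computable.snd.comp Computable.snd))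
  have hx : Computable (fun x : List Bool × ℕ × ℕ × ℕ × ℕ =>
      ((x.2.2.1, x.1.getD x.2.1 false, x.2.2.2.1) : ℕ × Bool × ℕ)) :=
    Computable.pair hm (Computable.pair hb hl)
  have hh : Computable₂ (fun (s : List Bool) (p : ℕ × ℕ × ℕ × ℕ) =>
      ((FF f p.2.1 (s.getD p.1 false), L' p.2.1 (s.getD p.1 false) p.2.2.1,
        p.2.2.2 + T p.2.1 (s.getD p.1 false) p.2.2.1) : ℕ × ℕ × ℕ)) :=
    Computable.pair (hF.to_comp.comp hm hb) (Computable.pair (hL.comp hx)
      (Primrec.nat_add.to_comp.comp ht (hT.comp hx)))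
  exact Computable.nat_rec Computable.list_length (Computable.const ((cd [], 0, 0) : ℕ × ℕ × ℕ)) hh

private theorem computable_EE (hF : Primrec₂ (FF f)) (hH : Computable₂ Hm)
    (hT : Computable (fun x : ℕ × Bool × ℕ => T x.1 x.2.1 x.2.2))
    (hL : Computable (fun x : ℕ × Bool × ℕ => L' x.1 x.2.1 x.2.2)) :
    Computable (EE f T L' Hm) := by
  have h := computable_rr f T L' hF hT hL
  refine Computable.cond ?_ (Computable.const none) ?_
  · exact (Primrec.eq.decide.to_comp.comp (Computable.fst.comp h) (Computable.const 0))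
  · exact Computable.option_some.comp (Computable.pair
      (Computable.snd.comp (Computable.snd.comp h))
      (hH.comp (Computable.fst.comp h) (Computable.fst.comp (Computable.snd.comp h))))

/-- analysis of an inverse branch -/
private theorem branch (hlast : ∀ m L (χ : ℕ → M.Cfg), χ 0 = Hm m L →
      (∀ t, M.step (χ (t + 1)) = χ t) → m ≠ 0 ∧ ∃ b, χ (T m b L) = Hm (FF f m b) (L' m b L) ∧
        ∀ t, 0 < t → t < T m b L → ∀ m' L1, χ t ≠ Hm m' L1)
    (χ : ℕ → M.Cfg) (hχ : M.Inv (Hm (cd []) 0) χ) :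
    ∃ y : ℕ → Bool, ∀ n, (RR f T L' y n).1 ≠ 0 ∧
      χ (RR f T L' y n).2.2 = Hm (RR f T L' y n).1 (RR f T L' y n).2.1 ∧
      ∀ t, (RR f T L' y n).2.2 < t → t < (RR f T L' y (n + 1)).2.2 →
        ∀ m' L1, χ t ≠ Hm m' L1 := by
  have key : ∀ r : ℕ × ℕ × ℕ, ∃ b : Bool, χ r.2.2 = Hm r.1 r.2.1 → r.1 ≠ 0 ∧
      χ (r.2.2 + T r.1 b r.2.1) = Hm (FF f r.1 b) (L' r.1 b r.2.1) ∧
      ∀ t, 0 < t → t < T r.1 b r.2.1 → ∀ m' L1, χ (r.2.2 + t) ≠ Hm m' L1 := by
    intro r
    by_cases h : χ r.2.2 = Hm r.1 r.2.1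
    · obtain ⟨h0, b, h1, h2⟩ := hlast r.1 r.2.1 (fun t => χ (r.2.2 + t)) h
        (fun t => hχ.2 (r.2.2 + t))
      exact ⟨b, fun _ => ⟨h0, h1, h2⟩⟩
    · exact ⟨false, fun h' => absurd h' h⟩
  choose bch hb using key
  let Z : ℕ → ℕ × ℕ × ℕ := fun n => Nat.rec (motive := fun _ => ℕ × ℕ × ℕ) (cd [], 0, 0)
    (fun _ r => (FF f r.1 (bch r), L' r.1 (bch r) r.2.1, r.2.2 + T r.1 (bch r) r.2.1)) n
  let y : ℕ → Bool := fun n => bch (Z n)
  have hZ : ∀ n, RR f T L' y n = Z n := by
    intro n
    induction n with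
    | zero => rfl
    | succ n ih =>
      rw [RR_succ, ih]
  have hχZ : ∀ n, χ (Z n).2.2 = Hm (Z n).1 (Z n).2.1 := by
    intro n
    induction n with
    | zero => exact hχ.1
    | succ n ih => exact (hb (Z n) ih).2.1
  refine ⟨y, fun n => ?_⟩
  rw [hZ, hZ]
  obtain ⟨h0, h1, h2⟩ := hb (Z n) (hχZ n)
  refine ⟨h0, hχZ n, fun t ht ht' m' L1 => ?_⟩
  have h3 : t < (Z n).2.2 + T (Z n).1 (bch (Z n)) (Z n).2.1 := ht'
  obtain ⟨d, rfl⟩ := Nat.exists_eq_add_of_lt ht
  rw [Nat.add_assoc]
  exact h2 (d + 1) (by omega) (by omega) m' L1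

end RR

theorem mach_main (f : List Bool → Bool) (hf : Primrec f) :
    ∃ (M : Mach) (c0 : M.Cfg) (E : List Bool → Option (ℕ × M.Cfg)), Computable E ∧
      (∀ s t D, E s = some (t, D) → s.length ≤ t) ∧
      (∀ χ, M.Inv c0 χ → ∃ y ∈ PC f, ∀ n, ∃ t, E (restr y n) = some (t, χ t)) ∧
      (∀ y ∈ PC f, ∃ χ, M.Inv c0 χ ∧ ∀ n, ∃ t, E (restr y n) = some (t, χ t)) ∧
      ∀ χ, M.Inv c0 χ → ∀ s s' t t', s.length = s'.length → E s = some (t, χ t) → E s' = some (t', χ t') → s = s' := by
  obtain ⟨M, Hm, T, L', hH, hTc, hLc, hinj, hstep, hlast⟩ := exists_loopM (FF f) (primrec_FF f hf)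
  have hT : ∀ m b L, m ≠ 0 → 0 < T m b L := fun m b L h => (hstep m b L h).1
  refine ⟨M, Hm (cd []) 0, EE f T L' Hm, computable_EE f T L' Hm (primrec_FF f hf) hH hTc hLc,
    ?_, ?_, ?_, ?_⟩
  · intro s t D h
    obtain ⟨h0, h1, -⟩ := EE_some f T L' Hm s t D h
    rw [← h1]
    exact RR_le f T L' hT (ex s) s.length h0
  · intro χ hχ
    obtain ⟨y, hy⟩ := branch f T L' Hm hlast χ hχ
    refine ⟨y, ?_, fun n => ⟨(RR f T L' y n).2.2, ?_⟩⟩
    · intro n
      rcases n with _ | n
      · exact ((RR_spec f T L' y 1 (hy 1).1).2 0 rfl).2.2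
      · exact ((RR_spec f T L' y (n + 1) (hy (n + 1)).1).2 n rfl).2.1
    · rw [EE_restr f T L' Hm y n (hy n).1, (hy n).2.1]
  · intro y hy
    have h0 := RR_pc f T L' y hy
    have hle := fun n => RR_le f T L' hT y n (h0 n)
    let D : ℕ → M.Cfg := fun n => Hm (RR f T L' y n).1 (RR f T L' y n).2.1
    let τ : ℕ → ℕ := fun n => (RR f T L' y n).2.2
    have hτ : ∀ n, τ n < τ (n + 1) := fun n => RR_lt f T L' hT y n (h0 n)
    have hτm : StrictMono τ := strictMono_nat_of_lt_succ hτ
    have hD1 : ∀ n, M.step^[τ (n + 1) - τ n] (D (n + 1)) = D n := by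
      intro n
      have h1 := (hstep (RR f T L' y n).1 (y n) (RR f T L' y n).2.1 (h0 n)).2
      have h2 : τ (n + 1) - τ n = T (RR f T L' y n).1 (y n) (RR f T L' y n).2.1 := by
        change (RR f T L' y n).2.2 + T (RR f T L' y n).1 (y n) (RR f T L' y n).2.1 -
          (RR f T L' y n).2.2 = _
        omega
      rw [h2]
      exact h1
    have hD : ∀ n k, M.step^[τ (n + k) - τ n] (D (n + k)) = D n := by
      intro n k
      induction k with
      | zero => simp
      | succ k ih =>
        have h1 : τ n ≤ τ (n + k) := hτm.monotone (by omega)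
        have h2 := hτ (n + k)
        have h3 : τ (n + (k + 1)) - τ n = (τ (n + k) - τ n) + (τ (n + k + 1) - τ (n + k)) := by
          have : n + (k + 1) = n + k + 1 := rfl
          rw [this]
          omega
        rw [h3, Function.iterate_add_apply]
        have h4 := hD1 (n + k)
        have h5 : n + (k + 1) = n + k + 1 := rfl
        rw [h5, h4]
        exact ih
    have hDD : ∀ n n' t, n ≤ n' → t ≤ τ n → M.step^[τ n' - t] (D n') = M.step^[τ n - t] (D n) := by
      intro n n' t hn ht
      obtain ⟨k, rfl⟩ := Nat.exists_eq_add_of_le hn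
      have h1 : τ n ≤ τ (n + k) := hτm.monotone (by omega)
      have h2 : τ (n + k) - t = (τ n - t) + (τ (n + k) - τ n) := by omega
      rw [h2, Function.iterate_add_apply, hD]
    refine ⟨fun t => M.step^[τ t - t] (D t), ⟨?_, fun t => ?_⟩, fun n => ⟨τ n, ?_⟩⟩
    · rfl
    · have h1 : t + 1 ≤ τ (t + 1) := hle (t + 1)
      change M.step (M.step^[τ (t + 1) - (t + 1)] (D (t + 1))) = M.step^[τ t - t] (D t)
      rw [← Function.iterate_succ_apply' M.step,
        ← hDD t (t + 1) t (by omega) (hle t)]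
      congr 2
      omega
    · rw [EE_restr f T L' Hm y n (h0 n)]
      refine congrArg some (Prod.ext rfl ?_)
      change D n = M.step^[τ (τ n) - τ n] (D (τ n))
      rw [hDD n (τ n) (τ n) (hle n) le_rfl, Nat.sub_self]
      rfl
  · intro χ hχ
    obtain ⟨y, hy⟩ := branch f T L' Hm hlast χ hχ
    have hmain : ∀ s t, EE f T L' Hm s = some (t, χ t) → s = restr y s.length := by
      intro s t h
      obtain ⟨h0, h1, h2⟩ := EE_some f T L' Hm s t _ h
      have h3 : (rr f T L' s).1 = cd s := by
        have := (RR_spec f T L' (ex s) s.length h0).1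
        rw [restr_ex] at this
        exact this
      have hex : ∃ k, t < (RR f T L' y (k + 1)).2.2 :=
        ⟨t, Nat.lt_of_lt_of_le (Nat.lt_succ_self t) (RR_le f T L' hT y (t + 1) (hy (t + 1)).1)⟩
      classical
      have hk := Nat.find_spec hex
      have hk' : (RR f T L' y (Nat.find hex)).2.2 ≤ t := by
        rcases hj : Nat.find hex with _ | j
        · exact Nat.zero_le _
        · have := Nat.find_min hex (m := j) (by omega)
          omega
      rcases Nat.lt_or_ge (RR f T L' y (Nat.find hex)).2.2 t with h4 | h4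
      · exact absurd h2.symm ((hy (Nat.find hex)).2.2 t h4 hk _ _)
      · have h5 : (RR f T L' y (Nat.find hex)).2.2 = t := le_antisymm hk' h4
        have h6 := (hy (Nat.find hex)).2.1
        rw [h5, ← h2] at h6
        have h7 := (hinj _ _ _ _ h6).1
        rw [h3, (RR_spec f T L' y _ (hy (Nat.find hex)).1).1] at h7
        have h8 := cd_inj h7
        have h9 : s.length = Nat.find hex := by
          conv_lhs => rw [h8]
          exact restr_length y _
        rw [h9]
        exact h8
    intro s s' t t' hl h h'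
    rw [hmain s t h, hmain s' t' h', hl]

end CB
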