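import Pool.Agent.Work.MP_cb528c_lc.PtDefs
import Pool.Agent.Work.MP_cb528c_lc.GMain
import Pool.Agent.Work.MP_cb528c_lc.MachMain

set_option autoImplicit false
set_option linter.all false

/-!
# MP_cb528c_lc, module HanfBase: Hanf pairs in structures with binary relations

`M, c0, E` from `mach_main f`, `b, θ'` from `good_main M c0`.  `θ n := ` the disjunction over the 0-1 sequences `s` of length `n + 1` with last
entry `true` of `θ' (t, D)` where `E s = some (t, D)` (nothing if `E s = none`); `disjL` of the list; `2^n` sequences `s = u ++ [true]`, `u` of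
length `n` (list of all 0-1 sequences of length `n` by recursion).  Computable.
* `pt`: for `N` with `b ∈ Th N` with branch `χ` and `y ∈ PC f` from `mach_main`: `θ n ∈ Th N` iff there are `s = u ++ [true]` and `t` with
  `E s = some (t, χ t)` iff `restr y (n+1) = u ++ [true]` for some `u` (by the last property of `mach_main` and
  `E (restr y (n+1)) = some (_, χ _)`) iff `y n = true`.
* `real`: similar.
* `ef`: given `n`, `R0` from `good_main`; `R := R0`: if `N`, `N'` have points `y`, `y'` which agree below `R0` then `restr y R0 = restr y' R0 =: s`,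
  `E s = some (t, χ t)` and `E s = some (t', χ' t')`, so `t = t'`, `χ t = χ' t`, `t ≥ R0`, hence `χ i = χ' i` for `i ≤ R0` (apply `M.step^[t - i]`), so the
  sentences `θ' (i, D)`, `i ≤ R0` agree.
-/

namespace CB

/-- all 0-1 sequences of length `n` -/
private def allS (n : ℕ) : List (List Bool) :=
  Nat.rec (motive := fun _ => List (List Bool)) [[]]
    (fun _ IH => IH.map (fun s => s ++ [false]) ++ IH.map (fun s => s ++ [true])) n

private theorem mem_allS (n : ℕ) : ∀ s : List Bool, s ∈ allS n ↔ s.length = n := by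
  induction n with
  | zero =>
    intro s
    change s ∈ [[]] ↔ _
    rw [List.mem_singleton, List.length_eq_zero_iff]
  | succ n ih =>
    intro s
    change s ∈ (allS n).map (fun s => s ++ [false]) ++ (allS n).map (fun s => s ++ [true]) ↔ _
    rw [List.mem_append, List.mem_map, List.mem_map]
    constructor
    · rintro (⟨u, hu, rfl⟩ | ⟨u, hu, rfl⟩)
      · rw [List.length_append, (ih u).1 hu]; rfl
      · rw [List.length_append, (ih u).1 hu]; rfl
    · intro h
      rcases List.eq_nil_or_concat s with rfl | ⟨u, a, rfl⟩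
      · simp at h
      · have h1 : u.length = n := by simpa using h
        rw [List.concat_eq_append]
        cases a
        · exact Or.inl ⟨u, (ih u).2 h1, rfl⟩
        · exact Or.inr ⟨u, (ih u).2 h1, rfl⟩

private theorem allS_prim : Primrec allS := by
  refine Primrec.nat_rec' (f := fun n : ℕ => n) (g := fun _ => [[]])
    (h := fun (_ : ℕ) (p : ℕ × List (List Bool)) =>
      p.2.map (fun s => s ++ [false]) ++ p.2.map (fun s => s ++ [true])) Primrec.id
    (Primrec.const _) ?_
  have h1 : Primrec (fun x : ℕ × ℕ × List (List Bool) => x.2.2) := Primrec.snd.comp Primrec.snd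
  have h2 : ∀ c : Bool, Primrec (fun x : ℕ × ℕ × List (List Bool) => x.2.2.map (fun s => s ++ [c])) := by
    intro c
    refine Primrec.list_map h1 ?_
    exact Primrec.list_concat.comp Primrec.snd (Primrec.const c)
  exact Primrec.list_append.comp (h2 false) (h2 true)

/-- falsity -/
private def fls : Fm := Fm.neg Fm.tru

private theorem tru_mem (N : Mdl) : Fm.tru ∈ Th N := ⟨rfl, fun s => sat_tru.2 trivial⟩

private theorem fls_closed : fls.Closed := rfl

private theorem fls_not_mem (N : Mdl) : fls ∉ Th N := by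
  intro h
  obtain ⟨a⟩ := N.ne
  exact (h.2 (fun _ => a)) (sat_tru.2 trivial)

private theorem or_closed {φ ψ : Fm} (h : φ.Closed) (h' : ψ.Closed) : (Fm.or φ ψ).Closed := by
  unfold Fm.Closed at *
  change Fm.fv φ ++ Fm.fv ψ = []
  rw [h, h']
  rfl

private theorem or_mem {N : Mdl} {φ ψ : Fm} (h : φ.Closed) (h' : ψ.Closed) :
    Fm.or φ ψ ∈ Th N ↔ φ ∈ Th N ∨ ψ ∈ Th N := by
  obtain ⟨a⟩ := N.ne
  rw [mem_th_iff (or_closed h h') (fun _ => a), mem_th_iff h (fun _ => a),
    mem_th_iff h' (fun _ => a), sat_or]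

/-- finite disjunctions -/
private def dis (g : ℕ → Fm) (m : ℕ) : Fm :=
  Nat.rec (motive := fun _ => Fm) fls (fun i IH => Fm.or (g i) IH) m

private theorem dis_closed {g : ℕ → Fm} (hg : ∀ i, (g i).Closed) (m : ℕ) : (dis g m).Closed := by
  induction m with
  | zero => exact fls_closed
  | succ m ih => exact or_closed (hg m) ih

private theorem dis_mem {N : Mdl} {g : ℕ → Fm} (hg : ∀ i, (g i).Closed) (m : ℕ) :
    dis g m ∈ Th N ↔ ∃ i < m, g i ∈ Th N := by
  induction m with
  | zero =>
    constructor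
    · intro h
      exact absurd h (fls_not_mem N)
    · rintro ⟨i, hi, _⟩
      exact absurd hi (Nat.not_lt_zero i)
  | succ m ih =>
    change Fm.or (g m) (dis g m) ∈ Th N ↔ _
    rw [or_mem (hg m) (dis_closed hg m), ih]
    constructor
    · rintro (h | ⟨i, hi, h⟩)
      · exact ⟨m, Nat.lt_succ_self m, h⟩
      · exact ⟨i, Nat.lt_succ_of_lt hi, h⟩
    · rintro ⟨i, hi, h⟩
      rcases Nat.lt_succ_iff_lt_or_eq.1 hi with h1 | h1
      · exact Or.inr ⟨i, h1, h⟩
      · rw [h1] at h
        exact Or.inl h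

theorem hanf_base (f : List Bool → Bool) (hf : Primrec f) : ∃ L, Hanf (List.replicate L 2) Fm.tru (PC f) := by
  obtain ⟨M, c0, E, hE, hlen, hA, hB, huniq⟩ := mach_main f hf
  obtain ⟨b, θ', hb, hθp, hθc, hN, hreal, hef⟩ := good_main M c0
  let lit : List Bool → Fm := fun s => Option.casesOn (E s) fls (fun x => θ' x)
  have hlit : Computable lit :=
    Computable.option_casesOn (f := fun _ : List Bool => fls)
      (g := fun (_ : List Bool) (x : ℕ × M.Cfg) => θ' x) hE (Computable.const fls)
      (hθp.to_comp.comp Computable.snd)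
  have hlitc : ∀ s, (lit s).Closed := by
    intro s
    change (Option.casesOn (E s) fls (fun x => θ' x) : Fm).Closed
    cases E s with
    | none => exact fls_closed
    | some x => exact hθc x
  have hlitm : ∀ (N : Mdl) (χ : ℕ → M.Cfg), (∀ t D, θ' (t, D) ∈ Th N ↔ χ t = D) →
      ∀ s, lit s ∈ Th N ↔ ∃ t, E s = some (t, χ t) := by
    intro N χ hχ s
    change (Option.casesOn (E s) fls (fun x => θ' x) : Fm) ∈ Th N ↔ _
    cases E s with
    | none =>
      constructor
      · intro h
        exact absurd h (fls_not_mem N)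
      · rintro ⟨t, ht⟩
        exact absurd ht (by simp)
    | some x =>
      obtain ⟨t, D⟩ := x
      change θ' (t, D) ∈ Th N ↔ _
      rw [hχ]
      constructor
      · rintro rfl
        exact ⟨t, rfl⟩
      · rintro ⟨t', ht'⟩
        have h1 := Option.some.inj ht'
        obtain ⟨h2, h3⟩ := Prod.mk.inj h1
        rw [h2, h3]
  let g : ℕ → ℕ → Fm := fun n i => lit (((allS n)[i]?).getD [] ++ [true])
  have hg : Computable₂ g := by
    have h1 : Computable (fun x : ℕ × ℕ => (allS x.1)[x.2]?) :=
      Primrec.list_getElem?.to_comp.comp (allS_prim.to_comp.comp Computable.fst) Computable.snd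
    have h2 : Computable (fun x : ℕ × ℕ => ((allS x.1)[x.2]?).getD []) :=
      Primrec.option_getD.to_comp.comp h1 (Computable.const [])
    have h3 : Computable (fun x : ℕ × ℕ => ((allS x.1)[x.2]?).getD [] ++ [true]) :=
      Computable.list_concat.comp h2 (Computable.const true)
    exact hlit.comp h3
  let θ : ℕ → Fm := fun n => dis (g n) (allS n).length
  have hθ : Computable θ := by
    have h1 : Computable (fun n : ℕ => Nat.rec (motive := fun _ => Fm) fls
        (fun i IH => Fm.or (g n i) IH) (allS n).length) := by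
      refine Computable.nat_rec (σ := Fm) (h := fun (n : ℕ) (p : ℕ × Fm) => Fm.or (g n p.1) p.2)
        (Computable.list_length.comp allS_prim.to_comp) (Computable.const fls) ?_
      exact Fm.primrec_or.to_comp.comp
        (hg.comp Computable.fst (Computable.fst.comp Computable.snd))
        (Computable.snd.comp Computable.snd)
    exact h1
  have hθc' : ∀ n, (θ n).Closed := fun n => dis_closed (fun i => hlitc _) _
  have hθm : ∀ (N : Mdl) (χ : ℕ → M.Cfg), (∀ t D, θ' (t, D) ∈ Th N ↔ χ t = D) →
      ∀ n, θ n ∈ Th N ↔ ∃ u : List Bool, u.length = n ∧ ∃ t, E (u ++ [true]) = some (t, χ t) := by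
    intro N χ hχ n
    change dis (g n) (allS n).length ∈ Th N ↔ _
    rw [dis_mem (fun i => hlitc _)]
    constructor
    · rintro ⟨i, hi, h⟩
      refine ⟨((allS n)[i]?).getD [], ?_, (hlitm N χ hχ _).1 h⟩
      rw [List.getElem?_eq_getElem hi]
      exact (mem_allS n _).1 (List.getElem_mem hi)
    · rintro ⟨u, hu, h⟩
      obtain ⟨i, hi, rfl⟩ := List.mem_iff_getElem.1 ((mem_allS n u).2 hu)
      refine ⟨i, hi, (hlitm N χ hχ _).2 ?_⟩
      rw [List.getElem?_eq_getElem hi]
      exact h
  have key : ∀ (N : Mdl) (χ : ℕ → M.Cfg), M.Inv c0 χ → (∀ t D, θ' (t, D) ∈ Th N ↔ χ t = D) →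
      ∀ y : ℕ → Bool, (∀ n, ∃ t, E (restr y n) = some (t, χ t)) →
      ∀ n, θ n ∈ Th N ↔ y n = true := by
    intro N χ hχ1 hχ y hy n
    rw [hθm N χ hχ]
    constructor
    · rintro ⟨u, hu, t, ht⟩
      obtain ⟨t', ht'⟩ := hy (n + 1)
      have h1 := huniq χ hχ1 (u ++ [true]) (restr y (n + 1)) t t' (by
        rw [restr_length, List.length_append, hu]; rfl) ht ht'
      rw [restr_succ] at h1
      have h2 := (List.append_inj' h1 rfl).2
      exact (List.cons.inj h2).1.symm
    · intro h
      obtain ⟨t', ht'⟩ := hy (n + 1)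
      rw [restr_succ, h] at ht'
      exact ⟨restr y n, restr_length y n, t', ht'⟩
  refine ⟨Good.nrel M, b, θ, hb, hθ, hθc', ?_, ?_, ?_⟩
  · intro N hok hbN
    obtain ⟨χ, hχ1, hχ⟩ := hN N hok hbN
    obtain ⟨y, hy, hyE⟩ := hA χ hχ1
    exact ⟨tru_mem N, y, hy, key N χ hχ1 hχ y hyE⟩
  · intro y hy
    obtain ⟨χ, hχ1, hyE⟩ := hB y hy
    obtain ⟨N, hok, hbN, hχ⟩ := hreal χ hχ1
    exact ⟨N, hok, hbN, key N χ hχ1 hχ y hyE⟩
  · intro n
    obtain ⟨R, hR⟩ := hef n
    refine ⟨R, fun N N' hok hok' hbN hbN' hag => hR N N' hok hok' hbN hbN' ?_⟩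
    obtain ⟨χ, hχ1, hχ⟩ := hN N hok hbN
    obtain ⟨χ', hχ1', hχ'⟩ := hN N' hok' hbN'
    obtain ⟨y, hy, hyE⟩ := hA χ hχ1
    obtain ⟨y', hy', hyE'⟩ := hA χ' hχ1'
    have hr : restr y R = restr y' R := by
      unfold restr
      refine List.map_congr_left fun i hi => ?_
      have h1 := hag i (List.mem_range.1 hi)
      rw [key N χ hχ1 hχ y hyE, key N' χ' hχ1' hχ' y' hyE'] at h1
      cases h2 : y i <;> cases h3 : y' i <;> simp_all
    obtain ⟨t, ht⟩ := hyE R
    obtain ⟨t', ht'⟩ := hyE' R
    rw [← hr, ht] at ht'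
    obtain ⟨h2, h3⟩ := Prod.mk.inj (Option.some.inj ht')
    rw [← h2] at h3
    have hRt : R ≤ t := by
      have h4 := hlen _ _ _ ht
      rwa [restr_length] at h4
    have hback : ∀ (ψ : ℕ → M.Cfg), M.Inv c0 ψ → ∀ j i, M.step^[j] (ψ (i + j)) = ψ i := by
      intro ψ hψ j
      induction j with
      | zero => intro i; rfl
      | succ j ih =>
        intro i
        rw [Function.iterate_succ_apply, ← add_assoc, hψ.2]
        exact ih i
    intro i hi D
    have h5 := hback χ hχ1 (t - i) i
    have h6 := hback χ' hχ1' (t - i) i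
    have h7 : i + (t - i) = t := by omega
    rw [h7] at h5 h6
    rw [hχ, hχ', ← h5, ← h6, h3]

end CB
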