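import Pool.Agent.Work.MP_cb528c_lc.PtDefs
import Pool.Agent.Work.MP_cb528c_lc.SigDefs
import Pool.Agent.Work.MP_cb528c_lc.FoApi

set_option autoImplicit false
set_option linter.all false

/-!
# MP_cb528c_lc, module HanfSig: Hanf pairs are transported by interpretations

* `hanf_interp`: `b' := Fm.and Dm (tr b)`, `θ' n := tr (θ n)`.
* `isFun_fo`: the property `IsFun σ` is first order: for each of the finitely many function symbols, of arity `n`, the relation symbol
  `r = σ.rel.length + f` and the variables `0, .., n - 1`, `n`, `n + 1`: `∀ x_0..x_{n-1} ∃ x_n, R_r(x_0..x_n)` and uniqueness with `x_{n+1}`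
  (`FO.tuple`, or quantify a list of variables; `FO` of `N.R r (list of values)` is `Fm.rel r (List.range (n+1))`).
-/

namespace CB

private theorem and_closed {φ ψ : Fm} : (Fm.and φ ψ).Closed ↔ φ.Closed ∧ ψ.Closed := by
  unfold Fm.Closed
  show Fm.fv φ ++ Fm.fv ψ = [] ↔ _
  exact List.append_eq_nil_iff

private theorem and_mem_th {M : Mdl} {φ ψ : Fm} : Fm.and φ ψ ∈ Th M ↔ φ ∈ Th M ∧ ψ ∈ Th M := by
  constructor
  · rintro ⟨h1, h2⟩
    obtain ⟨h3, h4⟩ := and_closed.1 h1
    exact ⟨⟨h3, fun s => (h2 s).1⟩, ⟨h4, fun s => (h2 s).2⟩⟩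
  · rintro ⟨⟨h1, h2⟩, ⟨h3, h4⟩⟩
    exact ⟨and_closed.2 ⟨h1, h3⟩, fun s => ⟨h2 s, h4 s⟩⟩

theorem hanf_interp {ar0 ar : List ℕ} {Φ : Mdl → Prop} {P : Set (ℕ → Bool)} (h : Hanf ar0 Fm.tru P)
    (hI : Interp ar0 ar Φ) {F : Fm} (hF : ∀ N, N.Ok ar → (F ∈ Th N ↔ Φ N)) : Hanf ar F P := by
  obtain ⟨b, θ, h⟩ := h
  obtain ⟨Dm, tr, Γ, hDc, hcomp, hcl, hint, hreal, hef⟩ := hI
  refine ⟨Fm.and Dm (tr b), fun n => tr (θ n), ?_⟩
  refine ⟨and_closed.2 ⟨hDc, hcl b h.b_closed⟩, hcomp.comp h.comp, fun n => hcl _ (h.closed n), ?_, ?_, ?_⟩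
  · intro M hM hb
    obtain ⟨hD, hb'⟩ := and_mem_th.1 hb
    obtain ⟨hΦ, hok, htr⟩ := hint M hM hD
    have hbb := (htr b h.b_closed).1 hb'
    obtain ⟨-, y, hy, hyn⟩ := h.pt (Γ M) hok hbb
    exact ⟨(hF M hM).2 hΦ, y, hy, fun n => (htr _ (h.closed n)).trans (hyn n)⟩
  · intro y hy
    obtain ⟨M, hM, hbM, hyM⟩ := h.real y hy
    obtain ⟨N, hN, hDN, hTh⟩ := hreal M hM
    obtain ⟨-, -, htr⟩ := hint N hN hDN
    refine ⟨N, hN, and_mem_th.2 ⟨hDN, (htr b h.b_closed).2 (by rw [hTh]; exact hbM)⟩, fun n => ?_⟩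
    rw [htr _ (h.closed n), hTh]
    exact hyM n
  · intro n
    obtain ⟨m, hm⟩ := hef n
    obtain ⟨R, hR⟩ := h.ef m
    refine ⟨R, fun M N hM hN hbM hbN hi => ?_⟩
    obtain ⟨hDM, hbM'⟩ := and_mem_th.1 hbM
    obtain ⟨hDN, hbN'⟩ := and_mem_th.1 hbN
    obtain ⟨-, hokM, htrM⟩ := hint M hM hDM
    obtain ⟨-, hokN, htrN⟩ := hint N hN hDN
    refine hm M N hM hN hDM hDN (hR (Γ M) (Γ N) hokM hokN ((htrM b h.b_closed).1 hbM')
      ((htrN b h.b_closed).1 hbN') fun i hiR => ?_)
    rw [← htrM _ (h.closed i), ← htrN _ (h.closed i)]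
    exact hi i hiR

private theorem fo_one (r n : ℕ) : FO (fun N _ => ∀ l : List N.C, l.length = n → ∃! y : N.C, N.R r (l ++ [y])) := by
  have h1 : FO (fun N s => N.R r ((List.range n ++ [n]).map s)) :=
    ⟨Fm.rel r (List.range n ++ [n]), fun _ _ => Iff.rfl⟩
  have h2 : FO (fun N s => N.R r ((List.range n ++ [n + 1]).map s)) :=
    ⟨Fm.rel r (List.range n ++ [n + 1]), fun _ _ => Iff.rfl⟩
  have h3 : FO (fun N s => s (n + 1) = s n) := FO.eq (n + 1) n
  have h4 := ((h1.and ((h2.imp h3).all (n + 1))).ex n).tuple 0 n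
  refine h4.congr fun N s => ?_
  have key : ∀ (a : Fin n → N.C) (t : ℕ → N.C) (m : ℕ) (y : N.C), (∀ i : Fin n, t i = a i) → t m = y →
      (List.range n ++ [m]).map t = List.ofFn a ++ [y] := by
    intro a t m y ht hy
    rw [List.map_append]
    congr 1
    · apply List.ext_getElem
      · simp
      · intro i hi1 hi2
        simp only [List.getElem_map, List.getElem_range, List.getElem_ofFn]
        simp only [List.length_map, List.length_range] at hi1
        exact ht ⟨i, hi1⟩
    · simp [hy]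
  constructor
  · intro h l hl
    subst hl
    obtain ⟨y, hy1, hy2⟩ := h (fun i => l.get i)
    have e1 : List.ofFn (fun i => l.get i) = l := List.ofFn_get l
    refine ⟨y, ?_, fun z hz => ?_⟩
    · rw [key (fun i => l.get i) _ l.length y ?_ ?_, e1] at hy1
      · exact hy1
      · intro i
        rw [Function.update_of_ne (by have := i.2; omega), dif_pos (by have := i.2; omega)]
        rfl
      · rw [Function.update_self]
    · have h5 := hy2 z
      rw [key (fun i => l.get i) _ (l.length + 1) z ?_ ?_, e1, Function.update_self,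
        Function.update_of_ne (by omega), Function.update_self] at h5
      · exact h5 hz
      · intro i
        rw [Function.update_of_ne (by have := i.2; omega), Function.update_of_ne (by have := i.2; omega),
          dif_pos (by have := i.2; omega)]
        rfl
      · rw [Function.update_self]
  · intro h a
    obtain ⟨y, hy1, hy2⟩ := h (List.ofFn a) (by simp)
    refine ⟨y, ?_, fun z hz => ?_⟩
    · rw [key a _ n y ?_ ?_]
      · exact hy1
      · intro i
        rw [Function.update_of_ne (by have := i.2; omega), dif_pos (by have := i.2; omega)]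
        rfl
      · rw [Function.update_self]
    · rw [key a _ (n + 1) z ?_ ?_] at hz
      · rw [Function.update_self, Function.update_of_ne (by omega), Function.update_self]
        exact hy2 z hz
      · intro i
        rw [Function.update_of_ne (by have := i.2; omega), Function.update_of_ne (by have := i.2; omega),
          dif_pos (by have := i.2; omega)]
        rfl
      · rw [Function.update_self]

theorem isFun_fo (σ : Sig) : ∃ F : Fm, F.Closed ∧ ∀ N, F ∈ Th N ↔ IsFun σ N := by
  have h : FO (fun N _ => IsFun σ N) := by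
    have h1 : FO (fun N _ => ∀ f : Fin σ.fn.length, ∀ l : List N.C, l.length = σ.fn[f] →
        ∃! y : N.C, N.R (σ.rel.length + f) (l ++ [y])) :=
      FO.forallFin fun f => fo_one _ _
    refine h1.congr fun N s => ?_
    constructor
    · intro h f n hf
      obtain ⟨h2, h3⟩ := List.getElem?_eq_some_iff.1 hf
      subst h3
      exact h ⟨f, h2⟩
    · intro h f
      exact h f _ (List.getElem?_eq_some_iff.2 ⟨f.2, rfl⟩)
  exact h.closed

end CB
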