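import Pool.Agent.Work.MP_cb528c_lc.NfTree
import Pool.Agent.Work.MP_cb528c_lc.BlkPts
import Pool.Agent.Work.MP_cb528c_lc.BlkCert

set_option autoImplicit false
set_option linter.all false

/-!
# MP_cb528c_lc: normal form: every Pi_4 algebra is the algebra of traces of clopen sets on the computable non isolated
points of a Pi_1 class (proved from the stubs)
-/

namespace CB

theorem nf_main {B : Type} [BooleanAlgebra B] {ν : ℕ → B} (h : IsPiAlg 4 ν) :
    ∃ f : List Bool → Bool, Primrec f ∧ Nonempty (B ≃o TA (CN (PC f))) := by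
  obtain ⟨D, h3, hp, ⟨e1⟩⟩ := nf_tree h
  obtain ⟨V, f, hf, hV, hPV⟩ := exists_valid h3 hp
  obtain ⟨e2⟩ := valid_class hV
  rw [hPV] at e2
  exact ⟨f, hf, ⟨e1.trans e2⟩⟩

end CB
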