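import Pool.Agent.Work.MP_cb528c_lc.BaDefs
import Pool.Agent.Work.MP_cb528c_lc.HierComp

set_option autoImplicit false
set_option linter.all false

/-!
# MP_cb528c_lc, module WpowPi: the weak power of a Pi_n algebra is a Pi_n algebra

`n ≥ 1`.  `μ k := ` the sequence with entries `ν (l_i)` for `i < l.length` and `⊥` or `⊤` afterwards according to the bit `b`, where
`(b, l) : Bool × List ℕ` is decoded from `k` (`Denumerable` or `decode` with default).  Join: pad both lists to the same
length with an index `i0` of `⊥` resp. `i1` of `⊤` (constants, `ν` is surjective), `List.zipWith f`; the bit is `b || b'`.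
Computability of `List.zipWith f` for a computable `f`: by recursion (`Computable.nat_rec` over the index, building the list)
as `Computable` has no list library; alternatively `Computable.list_ofFn`-free: recursion on the length with `getD`.
Equality: if `B` is trivial (`⊥ = ⊤`), always true.  Otherwise `μ k = μ k'` iff `b = b'` and for all `i < max` of the
lengths `ν (l.getD i pad) = ν (l'.getD i pad')`: this is Pi_n (`arN_pi_iff`, `Pg.and`, `Pg.ball`, `Pg.comp`).
-/

namespace CB

private abbrev BL : Type := Bool × List ℕ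

/-- the index of the `i`-th entry -/
private def vl (i0 i1 : ℕ) (p : BL) (i : ℕ) : ℕ := (p.2[i]?).getD (cond p.1 i1 i0)

private theorem vl_prim (i0 i1 : ℕ) : Primrec₂ (vl i0 i1) := by
  have h1 : Primrec (fun x : BL × ℕ => x.1.2[x.2]?) :=
    Primrec.list_getElem?.comp (Primrec.snd.comp Primrec.fst) Primrec.snd
  have h2 : Primrec (fun x : BL × ℕ => cond x.1.1 i1 i0) :=
    Primrec.cond (Primrec.fst.comp Primrec.fst) (Primrec.const _) (Primrec.const _)
  exact Primrec.option_getD.comp h1 h2

private def dc (k : ℕ) : BL := (Encodable.decode (α := BL) k).getD (false, [])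

private theorem dc_prim : Primrec dc :=
  Primrec.option_getD.comp Primrec.decode (Primrec.const _)

private theorem dc_enc (p : BL) : dc (Encodable.encode p) = p := by
  unfold dc
  rw [Encodable.encodek]
  rfl

private theorem range_map {α : Type} [Primcodable α] {g : α → ℕ → ℕ} (hg : Computable₂ g)
    {m : α → ℕ} (hm : Computable m) : Computable (fun a => (List.range (m a)).map (g a)) := by
  have h1 : Computable (fun a => Nat.rec (motive := fun _ => List ℕ) []
      (fun y IH => IH ++ [g a y]) (m a)) := by
    refine Computable.nat_rec (σ := List ℕ) (h := fun a (p : ℕ × List ℕ) => p.2 ++ [g a p.1]) hm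
      (Computable.const []) ?_
    exact Computable.list_concat.comp (Computable.snd.comp Computable.snd)
      (hg.comp Computable.fst (Computable.fst.comp Computable.snd))
  refine h1.of_eq fun a => ?_
  induction m a with
  | zero => rfl
  | succ k ih =>
    rw [List.range_succ, List.map_append, List.map_singleton, ← ih]

/-- length -/
private theorem vl_of_le (i0 i1 : ℕ) (p : BL) (i : ℕ) (h : p.2.length ≤ i) :
    vl i0 i1 p i = cond p.1 i1 i0 := by
  unfold vl
  rw [List.getElem?_eq_none h]
  rfl

private theorem vl_range (i0 i1 : ℕ) (b : Bool) (m : ℕ) (g : ℕ → ℕ) (i : ℕ) :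
    vl i0 i1 (b, (List.range m).map g) i = if i < m then g i else cond b i1 i0 := by
  unfold vl
  by_cases h : i < m
  · rw [if_pos h]
    simp [h]
  · rw [if_neg h, List.getElem?_eq_none (by simpa using h)]
    rfl

theorem wpow_pi {n : ℕ} {B : Type} [BooleanAlgebra B] {ν : ℕ → B} (h : IsPiAlg (n + 1) ν) :
    ∃ μ : ℕ → wpow B, IsPiAlg (n + 1) μ := by
  obtain ⟨hs, ⟨fs, hfs, hfs'⟩, ⟨fi, hfi, hfi'⟩, ⟨fc, hfc, hfc'⟩, he⟩ := h
  obtain ⟨i0, h0⟩ := hs ⊥
  obtain ⟨i1, h1⟩ := hs ⊤
  have hmem : ∀ p : BL, (fun i => ν (vl i0 i1 p i)) ∈ wpow B := by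
    rintro ⟨b, l⟩
    cases b
    · exact Or.inl ⟨l.length, fun m hm => by
        change ν (vl i0 i1 (false, l) m) = ⊥
        rw [vl_of_le i0 i1 (false, l) m hm]
        exact h0⟩
    · exact Or.inr ⟨l.length, fun m hm => by
        change ν (vl i0 i1 (true, l) m) = ⊤
        rw [vl_of_le i0 i1 (true, l) m hm]
        exact h1⟩
  let μ : ℕ → wpow B := fun k => ⟨fun i => ν (vl i0 i1 (dc k) i), hmem (dc k)⟩
  -- binary operations
  have hbin : ∀ (f : ℕ → ℕ → ℕ) (op : B → B → B) (bop : Bool → Bool → Bool), Computable₂ f →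
      Computable₂ bop →
      (∀ i j, ν (f i j) = op (ν i) (ν j)) →
      (∀ b b', ν (cond (bop b b') i1 i0) = op (ν (cond b i1 i0)) (ν (cond b' i1 i0))) →
      ∃ F : ℕ → ℕ → ℕ, Computable₂ F ∧ ∀ k k' i, ν (vl i0 i1 (dc (F k k')) i) =
        op (ν (vl i0 i1 (dc k) i)) (ν (vl i0 i1 (dc k') i)) := by
    intro f op bop hf hb hop hbop
    refine ⟨fun k k' => Encodable.encode (bop (dc k).1 (dc k').1,
      (List.range (max (dc k).2.length (dc k').2.length)).map
        (fun i => f (vl i0 i1 (dc k) i) (vl i0 i1 (dc k') i))), ?_, ?_⟩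
    · have c1 : Computable (fun x : ℕ × ℕ => dc x.1) := dc_prim.to_comp.comp Computable.fst
      have c2 : Computable (fun x : ℕ × ℕ => dc x.2) := dc_prim.to_comp.comp Computable.snd
      refine Computable.encode.comp (Computable.pair ?_ ?_)
      · exact hb.comp (Computable.fst.comp c1) (Computable.fst.comp c2)
      · refine range_map (g := fun (x : ℕ × ℕ) i => f (vl i0 i1 (dc x.1) i) (vl i0 i1 (dc x.2) i))
          ?_ ?_
        · exact hf.comp ((vl_prim i0 i1).to_comp.comp (c1.comp Computable.fst) Computable.snd)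
            ((vl_prim i0 i1).to_comp.comp (c2.comp Computable.fst) Computable.snd)
        · have hm : Primrec₂ (fun a b : ℕ => max a b) := Primrec.nat_max
          exact hm.to_comp.comp (Computable.list_length.comp (Computable.snd.comp c1))
            (Computable.list_length.comp (Computable.snd.comp c2))
    · intro k k' i
      rw [dc_enc, vl_range]
      split_ifs with hi
      · exact hop _ _
      · have h2 := not_lt.1 hi
        rw [hbop, vl_of_le i0 i1 (dc k) i (le_trans (le_max_left _ _) h2),
          vl_of_le i0 i1 (dc k') i (le_trans (le_max_right _ _) h2)]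
  refine ⟨μ, ?_, ?_, ?_, ?_, ?_⟩
  · rintro ⟨f, hf⟩
    choose g hg using fun i => hs (f i)
    rcases hf with ⟨m, hm⟩ | ⟨m, hm⟩
    · refine ⟨Encodable.encode ((false, (List.range m).map g) : BL), Subtype.ext (funext fun i => ?_)⟩
      change ν (vl i0 i1 (dc (Encodable.encode ((false, (List.range m).map g) : BL))) i) = f i
      rw [dc_enc, vl_range]
      split_ifs with hi
      · exact hg i
      · exact h0.trans (hm i (not_lt.1 hi)).symm
    · refine ⟨Encodable.encode ((true, (List.range m).map g) : BL), Subtype.ext (funext fun i => ?_)⟩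
      change ν (vl i0 i1 (dc (Encodable.encode ((true, (List.range m).map g) : BL))) i) = f i
      rw [dc_enc, vl_range]
      split_ifs with hi
      · exact hg i
      · exact h1.trans (hm i (not_lt.1 hi)).symm
  · obtain ⟨F, hF, hF'⟩ := hbin fs (fun a b => a ⊔ b) or hfs Primrec.or.to_comp hfs' (by
      intro b b'
      cases b <;> cases b' <;> simp [h0, h1])
    exact ⟨F, hF, fun k k' => Subtype.ext (funext fun i => hF' k k' i)⟩
  · obtain ⟨F, hF, hF'⟩ := hbin fi (fun a b => a ⊓ b) and hfi Primrec.and.to_comp hfi' (by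
      intro b b'
      cases b <;> cases b' <;> simp [h0, h1])
    exact ⟨F, hF, fun k k' => Subtype.ext (funext fun i => hF' k k' i)⟩
  · obtain ⟨F, hF, hF'⟩ := hbin (fun i _ => fc i) (fun a _ => aᶜ) (fun b _ => !b)
      (hfc.comp Computable.fst) (Primrec.not.to_comp.comp Computable.fst) (fun i j => hfc' i) (by
      intro b b'
      cases b <;> cases b' <;> simp [h0, h1])
    refine ⟨fun k => F k k, hF.comp Computable.id Computable.id, fun k => Subtype.ext (funext fun i => hF' k k i)⟩
  · rw [arN_pi_iff] at he ⊢
    have h2 : Pg (n + 1) (fun x : ℕ × ℕ => ν (vl i0 i1 (dc x.1.unpair.1) x.2) =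
        ν (vl i0 i1 (dc x.1.unpair.2) x.2)) := by
      have hp : Primrec (fun x : ℕ × ℕ => Nat.pair (vl i0 i1 (dc x.1.unpair.1) x.2)
          (vl i0 i1 (dc x.1.unpair.2) x.2)) := by
        have hu : Primrec (fun x : ℕ × ℕ => x.1.unpair) := Primrec.unpair.comp Primrec.fst
        exact Primrec₂.natPair.comp
          ((vl_prim i0 i1).comp (dc_prim.comp (Primrec.fst.comp hu)) Primrec.snd)
          ((vl_prim i0 i1).comp (dc_prim.comp (Primrec.snd.comp hu)) Primrec.snd)
      refine (he.comp hp).congr fun x => ?_
      simp only [Nat.unpair_pair]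
    refine (Pg.all (p := fun (x : ℕ) (i : ℕ) => ν (vl i0 i1 (dc x.unpair.1) i) =
        ν (vl i0 i1 (dc x.unpair.2) i)) h2).congr fun x => ?_
    constructor
    · intro h3
      exact Subtype.ext (funext h3)
    · intro h3 i
      exact congrFun (congrArg Subtype.val h3) i

end CB
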