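import Pool.Agent.Work.MP_cb528c_lc.BaApi
import Pool.Agent.Work.MP_cb528c_lc.WpowPi

set_option autoImplicit false
set_option linter.all false

/-!
# MP_cb528c_lc, module WuIso: weakly universal algebras are isomorphic

* `iso_prod_iic`: `b ↦ (b ⊓ a, b ⊓ aᶜ)`.
* `wpow_iso`: `f ↦ (f 0, fun n => f (n + 1))`.
* `absorb`: `wpow B` is a Pi_n algebra (`wpow_pi`), so it is isomorphic to `Iic a` for some `a : A`;
  `A ≃o Iic a × Iic aᶜ ≃o wpow B × Y ≃o (B × wpow B) × Y ≃o B × (wpow B × Y) ≃o B × A`.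
* `wu_iso`: `A ≃o B × A ≃o A × B ≃o B`.
(`OrderIso.prodComm`, `OrderIso.prodAssoc`, `OrderIso.prodCongr` where available.)
-/

namespace CB

theorem iso_prod_iic {B : Type} [BooleanAlgebra B] (a : B) : Nonempty (B ≃o Set.Iic a × Set.Iic aᶜ) := by
  refine ⟨RelIso.ofSurjective (OrderEmbedding.ofMapLEIff
    (fun b : B => ((⟨b ⊓ a, inf_le_right⟩, ⟨b ⊓ aᶜ, inf_le_right⟩) : Set.Iic a × Set.Iic aᶜ)) ?_) ?_⟩
  · intro b c
    constructor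
    · rintro ⟨h1, h2⟩
      have h1' : b ⊓ a ≤ c ⊓ a := h1
      have h2' : b ⊓ aᶜ ≤ c ⊓ aᶜ := h2
      calc b = (b ⊓ a) ⊔ (b ⊓ aᶜ) := by rw [← inf_sup_left, sup_compl_eq_top, inf_top_eq]
        _ ≤ c := sup_le (h1'.trans inf_le_left) (h2'.trans inf_le_left)
    · intro h
      exact ⟨inf_le_inf_right a h, inf_le_inf_right aᶜ h⟩
  · rintro ⟨⟨x, hx⟩, ⟨y, hy⟩⟩
    rw [Set.mem_Iic] at hx hy
    have h1 : y ⊓ a = ⊥ := disjoint_iff.1 ((disjoint_compl_left).mono_left hy)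
    have h2 : x ⊓ aᶜ = ⊥ := disjoint_iff.1 ((disjoint_compl_right).mono_left hx)
    refine ⟨x ⊔ y, Prod.ext (Subtype.ext ?_) (Subtype.ext ?_)⟩
    · show (x ⊔ y) ⊓ a = x
      rw [inf_sup_right, h1, sup_bot_eq, inf_eq_left.2 hx]
    · show (x ⊔ y) ⊓ aᶜ = y
      rw [inf_sup_right, h2, bot_sup_eq, inf_eq_left.2 hy]

theorem wpow_iso (B : Type) [BooleanAlgebra B] : Nonempty (wpow B ≃o B × wpow B) := by
  have hs : ∀ f : ℕ → B, f ∈ wpow B → (fun n => f (n + 1)) ∈ wpow B := by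
    rintro f (⟨n, hf⟩ | ⟨n, hf⟩)
    · exact Or.inl ⟨n, fun m hm => hf _ (by omega)⟩
    · exact Or.inr ⟨n, fun m hm => hf _ (by omega)⟩
  have hs' : ∀ (b : B) (f : ℕ → B), f ∈ wpow B → (fun n => Nat.casesOn n b f : ℕ → B) ∈ wpow B := by
    rintro b f (⟨n, hf⟩ | ⟨n, hf⟩)
    · refine Or.inl ⟨n + 1, fun m hm => ?_⟩
      obtain ⟨m, rfl⟩ : ∃ k, m = k + 1 := ⟨m - 1, by omega⟩
      exact hf m (by omega)
    · refine Or.inr ⟨n + 1, fun m hm => ?_⟩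
      obtain ⟨m, rfl⟩ : ∃ k, m = k + 1 := ⟨m - 1, by omega⟩
      exact hf m (by omega)
  refine ⟨RelIso.ofSurjective (OrderEmbedding.ofMapLEIff
    (fun f : wpow B => ((f.1 0, ⟨fun n => f.1 (n + 1), hs f.1 f.2⟩) : B × wpow B)) ?_) ?_⟩
  · intro f g
    constructor
    · rintro ⟨h1, h2⟩ n
      rcases n with _ | n
      · exact h1
      · exact h2 n
    · intro h
      exact ⟨h 0, fun n => h (n + 1)⟩
  · rintro ⟨b, ⟨f, hf⟩⟩
    exact ⟨⟨fun n => Nat.casesOn n b f, hs' b f hf⟩, rfl⟩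

private def prc {A B C D : Type} [LE A] [LE B] [LE C] [LE D] (e : A ≃o B) (f : C ≃o D) :
    A × C ≃o B × D where
  toEquiv := e.toEquiv.prodCongr f.toEquiv
  map_rel_iff' := by
    rintro ⟨a, c⟩ ⟨a', c'⟩
    show (e a ≤ e a' ∧ f c ≤ f c') ↔ (a ≤ a' ∧ c ≤ c')
    rw [e.le_iff_le, f.le_iff_le]

theorem absorb {n : ℕ} {A B : Type} [BooleanAlgebra A] [BooleanAlgebra B] {α : ℕ → A} {ν : ℕ → B}
    (hA : WU (n + 1) α) (hB : IsPiAlg (n + 1) ν) : Nonempty (A ≃o B × A) := by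
  obtain ⟨μ, hμ⟩ := wpow_pi hB
  obtain ⟨a, ⟨e⟩⟩ := hA.2 (wpow B) _ μ hμ
  obtain ⟨e1⟩ := iso_prod_iic a
  obtain ⟨e2⟩ := wpow_iso B
  have e3 : A ≃o wpow B × Set.Iic aᶜ := e1.trans (prc e.symm (OrderIso.refl _))
  exact ⟨e3.trans ((prc e2 (OrderIso.refl _)).trans ((OrderIso.prodAssoc _ _ _).trans
    (prc (OrderIso.refl B) e3.symm)))⟩

theorem wu_iso {n : ℕ} {A B : Type} [BooleanAlgebra A] [BooleanAlgebra B] {α : ℕ → A} {β : ℕ → B}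
    (hA : WU (n + 1) α) (hB : WU (n + 1) β) : Nonempty (A ≃o B) := by
  obtain ⟨e1⟩ := absorb hA hB.1
  obtain ⟨e2⟩ := absorb hB hA.1
  exact ⟨e1.trans (OrderIso.prodComm.trans e2.symm)⟩

end CB
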