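import Pool.Agent.Work.MP_cb528c_lc.LncPi
import Pool.Agent.Work.MP_cb528c_lc.WuIso
import Pool.Agent.Work.MP_cb528c_lc.NfMain
import Pool.Agent.Work.MP_cb528c_lc.HanfBase
import Pool.Agent.Work.MP_cb528c_lc.HanfSig
import Pool.Agent.Work.MP_cb528c_lc.HPts

set_option autoImplicit false
set_option linter.all false

/-!
# MP_cb528c_lc: final assembly
-/

namespace CB

theorem lnc_wu (hI : ∀ (L : ℕ) (σ : Sig), σ.Rich → Interp (List.replicate L 2) σ.ar (IsFun σ)) (σ : Sig)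
    (h : σ.Rich) : WU 4 (gnum σ) := by
  obtain ⟨F, hFc, hF⟩ := isFun_fo σ
  refine ⟨gnum_pi σ, fun C _ μ hμ => ?_⟩
  obtain ⟨f, hf, ⟨e1⟩⟩ := nf_main hμ
  obtain ⟨L, hL⟩ := hanf_base f hf
  have hH : Hanf σ.ar F (PC f) := hanf_interp hL (hI L σ h) (fun N _ => hF N)
  obtain ⟨a, ⟨e2⟩⟩ := hanf_iic hH
  obtain ⟨e3⟩ := lnc_iso (σ := σ) hF
  obtain ⟨e4⟩ := iic_congr e3.symm a
  exact ⟨e3.symm a, ⟨(e1.trans e2).trans e4⟩⟩

theorem lnc_unique (hI : ∀ (L : ℕ) (σ : Sig), σ.Rich → Interp (List.replicate L 2) σ.ar (IsFun σ)) (σ : Sig)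
    (h : σ.Rich) {B : Type} [BooleanAlgebra B] {ν : ℕ → B} (hB : WU 4 ν) : Nonempty (LNC σ ≃o B) :=
  wu_iso (n := 3) (lnc_wu hI σ h) hB

end CB
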