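import Pool.Agent.Work.MP_cb528c_lc.GoodDefs
import Pool.Agent.Work.MP_cb528c_lc.FoApi

set_option autoImplicit false
set_option linter.all false

/-!
# MP_cb528c_lc: first order axioms for GOOD structures (definitions)
-/

namespace CB

/-- `x` is an element of the sort `X`: it has an image under `dn` -/
def AX (N : Mdl) (x : N.C) : Prop := ∃ y, N.R 2 [x, y]

/-- `w` is the successor of `z` in the order -/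
def ASc (N : Mdl) (z w : N.C) : Prop := N.R 0 [z, w] ∧ ∀ u, N.R 0 [z, u] → w = u ∨ N.R 0 [w, u]

/-- `e` is a birth -/
def ANb (N : Mdl) (e : N.C) : Prop := AX N e ∧ ∀ f, ¬ N.R 2 [f, e]

/-- relation symbols from `X` to `Z` -/
def kindF (M : Mach) (r : ℕ) : Prop := r = 4 ∨ r = 5 ∨ r = 6 ∨ r = 7 ∨ ∃ i : Fin M.k, r = 12 + i

/-- relation symbols coding unary predicates on `X` -/
def kindU (M : Mach) (r : ℕ) : Prop := r = 8 ∨ r = 9 ∨ r = 10 ∨ r = 11 ∨ ∃ s : Fin M.q, r = 12 + M.k + s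

/-- the shift from `z` to `w` is as prescribed by the move -/
def AMv (N : Mdl) (m : Mv) (z w : N.C) : Prop :=
  match m with
  | Mv.down => ASc N w z
  | Mv.stay => w = z
  | Mv.up => ASc N z w

/-- `y` is the `n`-th successor of the zero -/
def ANum (N : Mdl) : ℕ → N.C → Prop
  | 0, y => N.R 1 [y, y]
  | n + 1, y => ∃ z, ASc N z y ∧ ANum N n z

/-- the first line passes through `e` -/
def AL0 (N : Mdl) (e : N.C) : Prop := N.R 8 [e, e] ∧ ∃ f, N.R 3 [f, e] ∧ ¬ N.R 8 [f, f]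

/-- the second line passes through `e` -/
def AL1 (N : Mdl) (e : N.C) : Prop := N.R 9 [e, e] ∧ ∃ f, N.R 3 [f, e] ∧ ¬ N.R 9 [f, f]

/-- the data of the birth `e`: state `s`, counters `a`, values `n l p r` of `nu la ps rh`, bits `t d` of `ty sd` -/
def ADat (M : Mach) (N : Mdl) (s : Fin M.q) (t d : Bool) (a : Fin M.k → N.C) (n l p r e : N.C) : Prop :=
  ANb N e ∧ N.R (12 + M.k + s) [e, e] ∧ (N.R 10 [e, e] ↔ t = true) ∧ (N.R 11 [e, e] ↔ d = true) ∧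
    (∀ i : Fin M.k, N.R (12 + i) [e, a i]) ∧ N.R 4 [e, n] ∧ N.R 5 [e, l] ∧ N.R 6 [e, p] ∧ N.R 7 [e, r]

/-- the axioms -/
structure GAx (M : Mach) (c0 : M.Cfg) (N : Mdl) : Prop where
  -- sorts
  s0 : ∀ x y, N.R 0 [x, y] → ¬ AX N x ∧ ¬ AX N y
  s1 : ∀ x y, N.R 1 [x, y] → ¬ AX N x ∧ x = y
  s2 : ∀ x y, N.R 2 [x, y] → AX N y
  s3 : ∀ x y, N.R 3 [x, y] → AX N x ∧ AX N y
  sF : ∀ r, kindF M r → ∀ x y, N.R r [x, y] → AX N x ∧ ¬ AX N y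
  sU : ∀ r, kindU M r → ∀ x y, N.R r [x, y] → AX N x ∧ x = y
  -- the order
  irr : ∀ x, ¬ N.R 0 [x, x]
  tr : ∀ x y z, N.R 0 [x, y] → N.R 0 [y, z] → N.R 0 [x, z]
  tot : ∀ x y, ¬ AX N x → ¬ AX N y → N.R 0 [x, y] ∨ x = y ∨ N.R 0 [y, x]
  suc : ∀ z, ¬ AX N z → ∃ w, ASc N z w
  prd : ∀ w, ¬ AX N w → ∃ z, ASc N z w
  z_ex : ∃ o, N.R 1 [o, o]
  z_un : ∀ x y, N.R 1 [x, x] → N.R 1 [y, y] → x = y
  -- functions
  f2 : ∀ x y z, N.R 2 [x, y] → N.R 2 [x, z] → y = z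
  i2 : ∀ x y z, N.R 2 [x, z] → N.R 2 [y, z] → x = y
  f3 : ∀ x y z, N.R 3 [x, y] → N.R 3 [x, z] → y = z
  i3 : ∀ x y z, N.R 3 [x, z] → N.R 3 [y, z] → x = y
  t3 : ∀ x, AX N x → ∃ y, N.R 3 [x, y]
  r3 : ∀ y, AX N y → ∃ x, N.R 3 [x, y]
  fF : ∀ r, kindF M r → ∀ x y z, N.R r [x, y] → N.R r [x, z] → y = z
  tF : ∀ r, kindF M r → ∀ x, AX N x → ∃ y, N.R r [x, y]
  st_ex : ∀ x, AX N x → ∃ s : Fin M.q, N.R (12 + M.k + s) [x, x]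
  st_un : ∀ (s s' : Fin M.q) x, N.R (12 + M.k + s) [x, x] → N.R (12 + M.k + s') [x, x] → s = s'
  al_nonneg : ∀ (i : Fin M.k) o x z, N.R 1 [o, o] → N.R (12 + i) [x, z] → o = z ∨ N.R 0 [o, z]
  dn_sh : ∀ e f g h, N.R 3 [e, f] → N.R 2 [f, g] → N.R 2 [e, h] → N.R 3 [h, g]
  -- the machine step
  step : ∀ (s : Fin M.q) (b : Fin M.k → Bool) (o e f : N.C), N.R 1 [o, o] → N.R 2 [e, f] → N.R (12 + M.k + s) [e, e] →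
    (∀ i : Fin M.k, (b i = true ↔ ¬ N.R (12 + i) [e, o])) →
    N.R (12 + M.k + (M.δ s b).1) [f, f] ∧
      ∀ (i : Fin M.k) z w, N.R (12 + i) [e, z] → N.R (12 + i) [f, w] → AMv N ((M.δ s b).2 i) z w
  st_sh : ∀ (s : Fin M.q) e f, N.R 3 [e, f] → N.R (12 + M.k + s) [e, e] → N.R (12 + M.k + s) [f, f]
  al_sh : ∀ (i : Fin M.k) e f z, N.R 3 [e, f] → N.R (12 + i) [e, z] → N.R (12 + i) [f, z]
  nu_dn : ∀ e f z, N.R 2 [e, f] → N.R 4 [e, z] → N.R 4 [f, z]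
  nu_sh : ∀ e f z w, N.R 3 [e, f] → N.R 4 [e, z] → N.R 4 [f, w] → ASc N z w
  la_dn : ∀ e f z w, N.R 2 [e, f] → N.R 5 [e, z] → N.R 5 [f, w] → ASc N w z
  la_sh : ∀ e f z, N.R 3 [e, f] → N.R 5 [e, z] → N.R 5 [f, z]
  u0_dn : ∀ e f, N.R 2 [e, f] → (N.R 8 [f, f] ↔ N.R 8 [e, e])
  u0_sh : ∀ e f, N.R 3 [e, f] → N.R 8 [e, e] → N.R 8 [f, f]
  u1_dn : ∀ e f g, N.R 2 [e, f] → N.R 3 [f, g] → (N.R 9 [g, g] ↔ N.R 9 [e, e])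
  u1_sh : ∀ e f, N.R 3 [e, f] → N.R 9 [e, e] → N.R 9 [f, f]
  ps_sh : ∀ e f z, ANb N e → N.R 3 [e, f] → N.R 6 [e, z] → N.R 6 [f, z]
  rh_sh : ∀ e f z, ANb N e → N.R 3 [e, f] → N.R 7 [e, z] → N.R 7 [f, z]
  ty_sh : ∀ e f, ANb N e → N.R 3 [e, f] → (N.R 10 [f, f] ↔ N.R 10 [e, e])
  sd_sh : ∀ e f, ANb N e → N.R 3 [e, f] → (N.R 11 [f, f] ↔ N.R 11 [e, e])
  ps_dn : ∀ e f z, N.R 2 [e, f] → N.R 6 [f, z] → N.R 1 [z, z]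
  rh_dn : ∀ e f z, N.R 2 [e, f] → N.R 7 [f, z] → N.R 1 [z, z]
  ty_dn : ∀ e f, N.R 2 [e, f] → ¬ N.R 10 [f, f]
  sd_dn : ∀ e f, N.R 2 [e, f] → ¬ N.R 11 [f, f]
  line_f : ∀ e z w, ANb N e → ¬ N.R 10 [e, e] → N.R 6 [e, z] → N.R 4 [e, w] →
    (N.R 8 [e, e] ↔ z = w ∨ N.R 0 [z, w]) ∧ (N.R 9 [e, e] ↔ N.R 11 [e, e])
  line_t : ∀ e z w, ANb N e → N.R 10 [e, e] → N.R 6 [e, z] → N.R 4 [e, w] →
    (N.R 9 [e, e] ↔ z = w ∨ N.R 0 [z, w]) ∧ (N.R 8 [e, e] ↔ N.R 11 [e, e])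
  birth_ex : ∀ (s : Fin M.q) (t d : Bool) (a : Fin M.k → N.C) (o n l p r : N.C), N.R 1 [o, o] →
    (∀ i, o = a i ∨ N.R 0 [o, a i]) → ¬ AX N n → ¬ AX N l → ¬ AX N p → ¬ AX N r →
    ∃ e, ADat M N s t d a n l p r e
  birth_un : ∀ (s : Fin M.q) (t d : Bool) (a : Fin M.k → N.C) (n l p r e e' : N.C),
    ADat M N s t d a n l p r e → ADat M N s t d a n l p r e' → e = e'
  og_ex : ∃ e, AL0 N e ∧ AL1 N e ∧ N.R (12 + M.k + c0.1) [e, e] ∧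
    (∀ i : Fin M.k, ∃ z, N.R (12 + i) [e, z] ∧ ANum N (c0.2 i) z) ∧
    ∃ o, N.R 1 [o, o] ∧ N.R 4 [e, o] ∧ N.R 5 [e, o]
  og_un : ∀ e e', AL0 N e → AL1 N e → AL0 N e' → AL1 N e' → e = e'

end CB
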