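import Pool.Agent.Work.MP_cb528c_lc.GAxDefs

set_option autoImplicit false
set_option linter.all false

/-!
# MP_cb528c_lc, module GAxOf: GOOD structures satisfy the axioms

First compute: `G.mdl.R r [x, y] ↔ G.B r x y` (`List.cons.injEq`), then for each relation symbol and each pair of sorts
(`Good.B`; the arithmetic of the symbols by `omega`); `AX G.mdl (Sum.inr e)` and `¬ AX G.mdl (Sum.inl z)`;
`ASc G.mdl (inl z) (inl w) ↔ w = S z`; `ANb G.mdl (inr e) ↔ G.Birth e`; `ANum G.mdl n (inl z) ↔ z = S^[n] o`.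
Then the fields one by one.
-/

namespace CB

namespace GAxOfAux

variable {M : Mach} {c0 : M.Cfg} (G : Good M c0)

private theorem hR (r : ℕ) (x y : G.mdl.C) : G.mdl.R r [x, y] ↔ G.B r x y := by
  constructor
  · rintro ⟨x', y', h, hB⟩
    have h1 : x = x' := (List.cons.inj h).1
    have h2 : y = y' := (List.cons.inj (List.cons.inj h).2).1
    rw [h1, h2]
    exact hB
  · intro h
    exact ⟨x, y, rfl, h⟩

private theorem r0 (x y : G.mdl.C) : G.mdl.R 0 [x, y] ↔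
    ∃ z w : G.Z, x = Sum.inl z ∧ y = Sum.inl w ∧ z < w := by
  rw [hR]
  rcases x with z | e <;> rcases y with w | f
  · constructor
    · rintro (⟨-, h⟩ | ⟨h, -⟩)
      · exact ⟨z, w, rfl, rfl, h⟩
      · omega
    · rintro ⟨z', w', h1, h2, h⟩
      cases h1; cases h2
      exact Or.inl ⟨rfl, h⟩
  · constructor
    · intro h; exact h.elim
    · rintro ⟨z', w', h1, h2, h⟩
      cases h2
  · constructor
    · rintro (⟨h, -⟩ | ⟨h, -⟩ | ⟨h, -⟩ | ⟨h, -⟩ | ⟨i, h, -⟩) <;> omega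
    · rintro ⟨z', w', h1, h2, h⟩
      cases h1
  · constructor
    · rintro (⟨h, -⟩ | ⟨h, -⟩ | ⟨h, -⟩ | ⟨h, -⟩ | ⟨h, -⟩ | ⟨h, -⟩ | ⟨i, h, -⟩) <;> omega
    · rintro ⟨z', w', h1, h2, h⟩
      cases h1

private theorem r1 (x y : G.mdl.C) : G.mdl.R 1 [x, y] ↔ x = Sum.inl G.o ∧ y = Sum.inl G.o := by
  rw [hR]
  rcases x with z | e <;> rcases y with w | f
  · constructor
    · rintro (⟨h, -⟩ | ⟨-, h, h'⟩)
      · omega
      · subst h; subst h'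
        exact ⟨rfl, rfl⟩
    · rintro ⟨h1, h2⟩
      cases h1; cases h2
      exact Or.inr ⟨rfl, rfl, rfl⟩
  · constructor
    · intro h; exact h.elim
    · rintro ⟨h1, h2⟩
      cases h2
  · constructor
    · rintro (⟨h, -⟩ | ⟨h, -⟩ | ⟨h, -⟩ | ⟨h, -⟩ | ⟨i, h, -⟩) <;> omega
    · rintro ⟨h1, h2⟩
      cases h1
  · constructor
    · rintro (⟨h, -⟩ | ⟨h, -⟩ | ⟨h, -⟩ | ⟨h, -⟩ | ⟨h, -⟩ | ⟨h, -⟩ | ⟨i, h, -⟩) <;> omega
    · rintro ⟨h1, h2⟩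
      cases h1

/-- relations from `X` to `X` -/
private theorem rXX (r : ℕ) (hr : r ≠ 0) (hr' : r ≠ 1) (hF : r ≠ 4 ∧ r ≠ 5 ∧ r ≠ 6 ∧ r ≠ 7 ∧ ∀ i : Fin M.k, r ≠ 12 + i)
    (x y : G.mdl.C) : G.mdl.R r [x, y] ↔
    ∃ e f : G.X, x = Sum.inr e ∧ y = Sum.inr f ∧ G.B r (Sum.inr e) (Sum.inr f) := by
  rw [hR]
  rcases x with z | e <;> rcases y with w | f
  · constructor
    · rintro (⟨h, -⟩ | ⟨h, -⟩)
      · exact absurd h hr
      · exact absurd h hr'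
    · rintro ⟨e, f, h1, -⟩
      cases h1
  · constructor
    · intro h; exact h.elim
    · rintro ⟨e, f, h1, -⟩
      cases h1
  · constructor
    · rintro (⟨h, -⟩ | ⟨h, -⟩ | ⟨h, -⟩ | ⟨h, -⟩ | ⟨i, h, -⟩)
      · exact absurd h hF.1
      · exact absurd h hF.2.1
      · exact absurd h hF.2.2.1
      · exact absurd h hF.2.2.2.1
      · exact absurd h (hF.2.2.2.2 i)
    · rintro ⟨e, f, h1, h2, -⟩
      cases h2
  · constructor
    · intro h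
      exact ⟨e, f, rfl, rfl, h⟩
    · rintro ⟨e', f', h1, h2, h⟩
      cases h1; cases h2
      exact h

/-- relations from `X` to `Z` -/
private theorem rXZ (r : ℕ) (hr : r ≠ 0) (hr' : r ≠ 1)
    (hF : r ≠ 2 ∧ r ≠ 3 ∧ r ≠ 8 ∧ r ≠ 9 ∧ r ≠ 10 ∧ r ≠ 11 ∧ ∀ s : Fin M.q, r ≠ 12 + M.k + s)
    (x y : G.mdl.C) : G.mdl.R r [x, y] ↔
    ∃ (e : G.X) (z : G.Z), x = Sum.inr e ∧ y = Sum.inl z ∧ G.B r (Sum.inr e) (Sum.inl z) := by
  rw [hR]
  rcases x with z | e <;> rcases y with w | f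
  · constructor
    · rintro (⟨h, -⟩ | ⟨h, -⟩)
      · exact absurd h hr
      · exact absurd h hr'
    · rintro ⟨e, f, h1, -⟩
      cases h1
  · constructor
    · intro h; exact h.elim
    · rintro ⟨e, f, h1, -⟩
      cases h1
  · constructor
    · intro h
      exact ⟨e, w, rfl, rfl, h⟩
    · rintro ⟨e', f', h1, h2, h⟩
      cases h1; cases h2
      exact h
  · constructor
    · rintro (⟨h, -⟩ | ⟨h, -⟩ | ⟨h, -⟩ | ⟨h, -⟩ | ⟨h, -⟩ | ⟨h, -⟩ | ⟨i, h, -⟩)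
      · exact absurd h hF.1
      · exact absurd h hF.2.1
      · exact absurd h hF.2.2.1
      · exact absurd h hF.2.2.2.1
      · exact absurd h hF.2.2.2.2.1
      · exact absurd h hF.2.2.2.2.2.1
      · exact absurd h (hF.2.2.2.2.2.2 i)
    · rintro ⟨e, f, h1, h2, -⟩
      cases h2

private theorem r2 (x y : G.mdl.C) : G.mdl.R 2 [x, y] ↔
    ∃ e : G.X, x = Sum.inr e ∧ y = Sum.inr (G.dn e) := by
  rw [rXX G 2 (by omega) (by omega) (by refine ⟨by omega, by omega, by omega, by omega, fun i => by omega⟩)]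
  constructor
  · rintro ⟨e, f, rfl, rfl, (⟨-, h⟩ | ⟨h, -⟩ | ⟨h, -⟩ | ⟨h, -⟩ | ⟨h, -⟩ | ⟨h, -⟩ | ⟨i, h, -⟩)⟩
    · exact ⟨e, rfl, by rw [h]⟩
    all_goals omega
  · rintro ⟨e, rfl, rfl⟩
    exact ⟨e, _, rfl, rfl, Or.inl ⟨rfl, rfl⟩⟩

private theorem r3 (x y : G.mdl.C) : G.mdl.R 3 [x, y] ↔
    ∃ e : G.X, x = Sum.inr e ∧ y = Sum.inr (G.sh e) := by
  rw [rXX G 3 (by omega) (by omega) (by refine ⟨by omega, by omega, by omega, by omega, fun i => by omega⟩)]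
  constructor
  · rintro ⟨e, f, rfl, rfl, (⟨h, -⟩ | ⟨-, h⟩ | ⟨h, -⟩ | ⟨h, -⟩ | ⟨h, -⟩ | ⟨h, -⟩ | ⟨i, h, -⟩)⟩
    · omega
    · exact ⟨e, rfl, by rw [h]⟩
    all_goals omega
  · rintro ⟨e, rfl, rfl⟩
    exact ⟨e, _, rfl, rfl, Or.inr (Or.inl ⟨rfl, rfl⟩)⟩

private theorem r8 (x y : G.mdl.C) : G.mdl.R 8 [x, y] ↔
    ∃ e : G.X, x = Sum.inr e ∧ y = Sum.inr e ∧ G.u0 e = true := by
  rw [rXX G 8 (by omega) (by omega) (by refine ⟨by omega, by omega, by omega, by omega, fun i => by omega⟩)]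
  constructor
  · rintro ⟨e, f, rfl, rfl, (⟨h, -⟩ | ⟨h, -⟩ | ⟨-, h, h'⟩ | ⟨h, -⟩ | ⟨h, -⟩ | ⟨h, -⟩ | ⟨i, h, -⟩)⟩
    · omega
    · omega
    · exact ⟨e, rfl, by rw [h], h'⟩
    all_goals omega
  · rintro ⟨e, rfl, rfl, h⟩
    exact ⟨e, _, rfl, rfl, Or.inr (Or.inr (Or.inl ⟨rfl, rfl, h⟩))⟩

private theorem r9 (x y : G.mdl.C) : G.mdl.R 9 [x, y] ↔
    ∃ e : G.X, x = Sum.inr e ∧ y = Sum.inr e ∧ G.u1 e = true := by
  rw [rXX G 9 (by omega) (by omega) (by refine ⟨by omega, by omega, by omega, by omega, fun i => by omega⟩)]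
  constructor
  · rintro ⟨e, f, rfl, rfl, (⟨h, -⟩ | ⟨h, -⟩ | ⟨h, -⟩ | ⟨-, h, h'⟩ | ⟨h, -⟩ | ⟨h, -⟩ | ⟨i, h, -⟩)⟩
    · omega
    · omega
    · omega
    · exact ⟨e, rfl, by rw [h], h'⟩
    all_goals omega
  · rintro ⟨e, rfl, rfl, h⟩
    exact ⟨e, _, rfl, rfl, Or.inr (Or.inr (Or.inr (Or.inl ⟨rfl, rfl, h⟩)))⟩

private theorem r10 (x y : G.mdl.C) : G.mdl.R 10 [x, y] ↔
    ∃ e : G.X, x = Sum.inr e ∧ y = Sum.inr e ∧ G.ty e = true := by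
  rw [rXX G 10 (by omega) (by omega) (by refine ⟨by omega, by omega, by omega, by omega, fun i => by omega⟩)]
  constructor
  · rintro ⟨e, f, rfl, rfl, (⟨h, -⟩ | ⟨h, -⟩ | ⟨h, -⟩ | ⟨h, -⟩ | ⟨-, h, h'⟩ | ⟨h, -⟩ | ⟨i, h, -⟩)⟩
    · omega
    · omega
    · omega
    · omega
    · exact ⟨e, rfl, by rw [h], h'⟩
    all_goals omega
  · rintro ⟨e, rfl, rfl, h⟩
    exact ⟨e, _, rfl, rfl, Or.inr (Or.inr (Or.inr (Or.inr (Or.inl ⟨rfl, rfl, h⟩))))⟩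

private theorem r11 (x y : G.mdl.C) : G.mdl.R 11 [x, y] ↔
    ∃ e : G.X, x = Sum.inr e ∧ y = Sum.inr e ∧ G.sd e = true := by
  rw [rXX G 11 (by omega) (by omega) (by refine ⟨by omega, by omega, by omega, by omega, fun i => by omega⟩)]
  constructor
  · rintro ⟨e, f, rfl, rfl, (⟨h, -⟩ | ⟨h, -⟩ | ⟨h, -⟩ | ⟨h, -⟩ | ⟨h, -⟩ | ⟨-, h, h'⟩ | ⟨i, h, -⟩)⟩
    · omega
    · omega
    · omega
    · omega
    · omega
    · exact ⟨e, rfl, by rw [h], h'⟩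
    all_goals omega
  · rintro ⟨e, rfl, rfl, h⟩
    exact ⟨e, _, rfl, rfl, Or.inr (Or.inr (Or.inr (Or.inr (Or.inr (Or.inl ⟨rfl, rfl, h⟩)))))⟩

private theorem rst (s : Fin M.q) (x y : G.mdl.C) : G.mdl.R (12 + M.k + s) [x, y] ↔
    ∃ e : G.X, x = Sum.inr e ∧ y = Sum.inr e ∧ G.st e = s := by
  rw [rXX G (12 + M.k + s) (by omega) (by omega)
    (by refine ⟨by omega, by omega, by omega, by omega, fun i => by have := i.2; omega⟩)]
  constructor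
  · rintro ⟨e, f, rfl, rfl, (⟨h, -⟩ | ⟨h, -⟩ | ⟨h, -⟩ | ⟨h, -⟩ | ⟨h, -⟩ | ⟨h, -⟩ | ⟨i, h, h', h''⟩)⟩
    · omega
    · omega
    · omega
    · omega
    · omega
    · omega
    · have h1 : i = s := Fin.ext (by omega)
      exact ⟨e, rfl, by rw [h'], by rw [h'', h1]⟩
  · rintro ⟨e, rfl, rfl, h⟩
    exact ⟨e, _, rfl, rfl, Or.inr (Or.inr (Or.inr (Or.inr (Or.inr (Or.inr ⟨s, rfl, rfl, h⟩)))))⟩

private theorem r4 (x y : G.mdl.C) : G.mdl.R 4 [x, y] ↔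
    ∃ e : G.X, x = Sum.inr e ∧ y = Sum.inl (G.nu e) := by
  rw [rXZ G 4 (by omega) (by omega)
    (by refine ⟨by omega, by omega, by omega, by omega, by omega, by omega, fun i => by omega⟩)]
  constructor
  · rintro ⟨e, z, rfl, rfl, (⟨-, h⟩ | ⟨h, -⟩ | ⟨h, -⟩ | ⟨h, -⟩ | ⟨i, h, -⟩)⟩
    · exact ⟨e, rfl, by rw [h]⟩
    all_goals omega
  · rintro ⟨e, rfl, rfl⟩
    exact ⟨e, _, rfl, rfl, Or.inl ⟨rfl, rfl⟩⟩

private theorem r5 (x y : G.mdl.C) : G.mdl.R 5 [x, y] ↔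
    ∃ e : G.X, x = Sum.inr e ∧ y = Sum.inl (G.la e) := by
  rw [rXZ G 5 (by omega) (by omega)
    (by refine ⟨by omega, by omega, by omega, by omega, by omega, by omega, fun i => by omega⟩)]
  constructor
  · rintro ⟨e, z, rfl, rfl, (⟨h, -⟩ | ⟨-, h⟩ | ⟨h, -⟩ | ⟨h, -⟩ | ⟨i, h, -⟩)⟩
    · omega
    · exact ⟨e, rfl, by rw [h]⟩
    all_goals omega
  · rintro ⟨e, rfl, rfl⟩
    exact ⟨e, _, rfl, rfl, Or.inr (Or.inl ⟨rfl, rfl⟩)⟩

private theorem r6 (x y : G.mdl.C) : G.mdl.R 6 [x, y] ↔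
    ∃ e : G.X, x = Sum.inr e ∧ y = Sum.inl (G.ps e) := by
  rw [rXZ G 6 (by omega) (by omega)
    (by refine ⟨by omega, by omega, by omega, by omega, by omega, by omega, fun i => by omega⟩)]
  constructor
  · rintro ⟨e, z, rfl, rfl, (⟨h, -⟩ | ⟨h, -⟩ | ⟨-, h⟩ | ⟨h, -⟩ | ⟨i, h, -⟩)⟩
    · omega
    · omega
    · exact ⟨e, rfl, by rw [h]⟩
    all_goals omega
  · rintro ⟨e, rfl, rfl⟩
    exact ⟨e, _, rfl, rfl, Or.inr (Or.inr (Or.inl ⟨rfl, rfl⟩))⟩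

private theorem r7 (x y : G.mdl.C) : G.mdl.R 7 [x, y] ↔
    ∃ e : G.X, x = Sum.inr e ∧ y = Sum.inl (G.rh e) := by
  rw [rXZ G 7 (by omega) (by omega)
    (by refine ⟨by omega, by omega, by omega, by omega, by omega, by omega, fun i => by omega⟩)]
  constructor
  · rintro ⟨e, z, rfl, rfl, (⟨h, -⟩ | ⟨h, -⟩ | ⟨h, -⟩ | ⟨-, h⟩ | ⟨i, h, -⟩)⟩
    · omega
    · omega
    · omega
    · exact ⟨e, rfl, by rw [h]⟩
    · omega
  · rintro ⟨e, rfl, rfl⟩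
    exact ⟨e, _, rfl, rfl, Or.inr (Or.inr (Or.inr (Or.inl ⟨rfl, rfl⟩)))⟩

private theorem ral (i : Fin M.k) (x y : G.mdl.C) : G.mdl.R (12 + i) [x, y] ↔
    ∃ e : G.X, x = Sum.inr e ∧ y = Sum.inl (G.al i e) := by
  rw [rXZ G (12 + i) (by omega) (by omega)
    (by refine ⟨by omega, by omega, by omega, by omega, by omega, by omega,
          fun s => by have := i.2; omega⟩)]
  constructor
  · rintro ⟨e, z, rfl, rfl, (⟨h, -⟩ | ⟨h, -⟩ | ⟨h, -⟩ | ⟨h, -⟩ | ⟨j, h, h'⟩)⟩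
    · omega
    · omega
    · omega
    · omega
    · have h1 : j = i := Fin.ext (by omega)
      subst h1
      exact ⟨e, rfl, by rw [h']⟩
  · rintro ⟨e, rfl, rfl⟩
    exact ⟨e, _, rfl, rfl, Or.inr (Or.inr (Or.inr (Or.inr ⟨i, rfl, rfl⟩)))⟩

private theorem rF (r : ℕ) (h : kindF M r) : ∃ F : G.X → G.Z, ∀ x y : G.mdl.C, G.mdl.R r [x, y] ↔
    ∃ e : G.X, x = Sum.inr e ∧ y = Sum.inl (F e) := by
  rcases h with rfl | rfl | rfl | rfl | ⟨i, rfl⟩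
  · exact ⟨_, r4 G⟩
  · exact ⟨_, r5 G⟩
  · exact ⟨_, r6 G⟩
  · exact ⟨_, r7 G⟩
  · exact ⟨_, ral G i⟩

private theorem rU (r : ℕ) (h : kindU M r) : ∃ F : G.X → Prop, ∀ x y : G.mdl.C, G.mdl.R r [x, y] ↔
    ∃ e : G.X, x = Sum.inr e ∧ y = Sum.inr e ∧ F e := by
  rcases h with rfl | rfl | rfl | rfl | ⟨i, rfl⟩
  · exact ⟨_, r8 G⟩
  · exact ⟨_, r9 G⟩
  · exact ⟨_, r10 G⟩
  · exact ⟨_, r11 G⟩
  · exact ⟨_, rst G i⟩

private theorem ax_inr (e : G.X) : AX G.mdl (Sum.inr e : G.Z ⊕ G.X) :=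
  ⟨(Sum.inr (G.dn e) : G.Z ⊕ G.X), (r2 G _ _).2 ⟨e, rfl, rfl⟩⟩

private theorem ax_inl (z : G.Z) : ¬ AX G.mdl (Sum.inl z : G.Z ⊕ G.X) := by
  rintro ⟨y, h⟩
  obtain ⟨e, h1, -⟩ := (r2 G _ _).1 h
  cases h1

private theorem ax_iff (x : G.mdl.C) : AX G.mdl x ↔ ∃ e : G.X, x = Sum.inr e := by
  constructor
  · rintro ⟨y, h⟩
    obtain ⟨e, h1, -⟩ := (r2 G _ _).1 h
    exact ⟨e, h1⟩
  · rintro ⟨e, rfl⟩
    exact ax_inr G e

private theorem nax_iff (x : G.mdl.C) : ¬ AX G.mdl x ↔ ∃ z : G.Z, x = Sum.inl z := by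
  constructor
  · intro h
    rcases x with z | e
    · exact ⟨z, rfl⟩
    · exact absurd (ax_inr G e) h
  · rintro ⟨z, rfl⟩
    exact ax_inl G z

private theorem asc_iff (x y : G.mdl.C) : ASc G.mdl x y ↔
    ∃ z : G.Z, x = Sum.inl z ∧ y = Sum.inl (G.S z) := by
  constructor
  · rintro ⟨h1, h2⟩
    obtain ⟨z, w, rfl, rfl, hzw⟩ := (r0 G _ _).1 h1
    refine ⟨z, rfl, ?_⟩
    have h3 := h2 (Sum.inl (G.S z) : G.Z ⊕ G.X) ((r0 G _ _).2 ⟨z, G.S z, rfl, rfl, G.lt_S z⟩)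
    rcases h3 with h3 | h3
    · exact h3
    · obtain ⟨w', z', h4, h5, h6⟩ := (r0 G _ _).1 h3
      cases h4; cases h5
      exact absurd h6 (not_lt.2 (G.S_le z w hzw))
  · rintro ⟨z, rfl, rfl⟩
    refine ⟨(r0 G _ _).2 ⟨z, G.S z, rfl, rfl, G.lt_S z⟩, fun u hu => ?_⟩
    obtain ⟨z', v, h4, h5, h6⟩ := (r0 G _ _).1 hu
    cases h4; subst h5
    rcases (G.S_le z v h6).eq_or_lt with h7 | h7
    · left
      rw [h7]
    · right
      exact (r0 G _ _).2 ⟨_, _, rfl, rfl, h7⟩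

private theorem anb_iff (x : G.mdl.C) : ANb G.mdl x ↔
    ∃ e : G.X, x = Sum.inr e ∧ ∀ f, G.dn f ≠ e := by
  constructor
  · rintro ⟨h1, h2⟩
    obtain ⟨e, rfl⟩ := (ax_iff G _).1 h1
    refine ⟨e, rfl, fun f hf => h2 (Sum.inr f : G.Z ⊕ G.X) ((r2 G _ _).2 ⟨f, rfl, by rw [hf]⟩)⟩
  · rintro ⟨e, rfl, h⟩
    refine ⟨ax_inr G e, fun f hf => ?_⟩
    obtain ⟨e', h1, h2⟩ := (r2 G _ _).1 hf
    have h3 := Sum.inr_injective h2
    exact h e' h3.symm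

private theorem anum_iff (n : ℕ) (y : G.mdl.C) : ANum G.mdl n y ↔ y = Sum.inl (G.S^[n] G.o) := by
  induction n generalizing y with
  | zero =>
    constructor
    · intro h
      exact ((r1 G _ _).1 h).1
    · rintro rfl
      exact (r1 G _ _).2 ⟨rfl, rfl⟩
  | succ n ih =>
    constructor
    · rintro ⟨z, h1, h2⟩
      rw [ih] at h2
      subst h2
      obtain ⟨z', h3, h4⟩ := (asc_iff G _ _).1 h1
      have h5 := Sum.inl_injective h3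
      rw [h4, ← h5, Function.iterate_succ_apply']
    · rintro rfl
      refine ⟨_, (asc_iff G _ _).2 ⟨G.S^[n] G.o, rfl, ?_⟩, (ih _).2 rfl⟩
      rw [Function.iterate_succ_apply']

private theorem al0_iff (x : G.mdl.C) : AL0 G.mdl x ↔
    ∃ e : G.X, x = Sum.inr e ∧ G.u0 e = true ∧ G.u0 (G.sh.symm e) = false := by
  constructor
  · rintro ⟨h1, f, h2, h3⟩
    obtain ⟨e, rfl, -, h4⟩ := (r8 G _ _).1 h1
    obtain ⟨e', rfl, h5⟩ := (r3 G _ _).1 h2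
    have h6 := Sum.inr_injective h5
    refine ⟨e, rfl, h4, ?_⟩
    rw [h6, Equiv.symm_apply_apply]
    by_contra h7
    rw [Bool.not_eq_false] at h7
    exact h3 ((r8 G _ _).2 ⟨e', rfl, rfl, h7⟩)
  · rintro ⟨e, rfl, h1, h2⟩
    refine ⟨(r8 G _ _).2 ⟨e, rfl, rfl, h1⟩, (Sum.inr (G.sh.symm e) : G.Z ⊕ G.X),
      (r3 G _ _).2 ⟨_, rfl, by rw [Equiv.apply_symm_apply]⟩, fun h3 => ?_⟩
    obtain ⟨e', h4, -, h5⟩ := (r8 G _ _).1 h3
    have h6 := Sum.inr_injective h4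
    rw [← h6, h2] at h5
    exact Bool.noConfusion h5

private theorem al1_iff (x : G.mdl.C) : AL1 G.mdl x ↔
    ∃ e : G.X, x = Sum.inr e ∧ G.u1 e = true ∧ G.u1 (G.sh.symm e) = false := by
  constructor
  · rintro ⟨h1, f, h2, h3⟩
    obtain ⟨e, rfl, -, h4⟩ := (r9 G _ _).1 h1
    obtain ⟨e', rfl, h5⟩ := (r3 G _ _).1 h2
    have h6 := Sum.inr_injective h5
    refine ⟨e, rfl, h4, ?_⟩
    rw [h6, Equiv.symm_apply_apply]
    by_contra h7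
    rw [Bool.not_eq_false] at h7
    exact h3 ((r9 G _ _).2 ⟨e', rfl, rfl, h7⟩)
  · rintro ⟨e, rfl, h1, h2⟩
    refine ⟨(r9 G _ _).2 ⟨e, rfl, rfl, h1⟩, (Sum.inr (G.sh.symm e) : G.Z ⊕ G.X),
      (r3 G _ _).2 ⟨_, rfl, by rw [Equiv.apply_symm_apply]⟩, fun h3 => ?_⟩
    obtain ⟨e', h4, -, h5⟩ := (r9 G _ _).1 h3
    have h6 := Sum.inr_injective h4
    rw [← h6, h2] at h5
    exact Bool.noConfusion h5

private theorem bool_iff (b t : Bool) : (b = true ↔ t = true) ↔ b = t := by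
  cases b <;> cases t <;> simp

private theorem t8 (e : G.X) : G.mdl.R 8 [(Sum.inr e : G.Z ⊕ G.X), (Sum.inr e : G.Z ⊕ G.X)] ↔ G.u0 e = true := by
  constructor
  · intro h
    obtain ⟨e', h1, -, h2⟩ := (r8 G _ _).1 h
    rw [Sum.inr_injective h1]
    exact h2
  · intro h
    exact (r8 G _ _).2 ⟨e, rfl, rfl, h⟩

private theorem t9 (e : G.X) : G.mdl.R 9 [(Sum.inr e : G.Z ⊕ G.X), (Sum.inr e : G.Z ⊕ G.X)] ↔ G.u1 e = true := by
  constructor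
  · intro h
    obtain ⟨e', h1, -, h2⟩ := (r9 G _ _).1 h
    rw [Sum.inr_injective h1]
    exact h2
  · intro h
    exact (r9 G _ _).2 ⟨e, rfl, rfl, h⟩

private theorem t10 (e : G.X) : G.mdl.R 10 [(Sum.inr e : G.Z ⊕ G.X), (Sum.inr e : G.Z ⊕ G.X)] ↔ G.ty e = true := by
  constructor
  · intro h
    obtain ⟨e', h1, -, h2⟩ := (r10 G _ _).1 h
    rw [Sum.inr_injective h1]
    exact h2
  · intro h
    exact (r10 G _ _).2 ⟨e, rfl, rfl, h⟩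

private theorem t11 (e : G.X) : G.mdl.R 11 [(Sum.inr e : G.Z ⊕ G.X), (Sum.inr e : G.Z ⊕ G.X)] ↔ G.sd e = true := by
  constructor
  · intro h
    obtain ⟨e', h1, -, h2⟩ := (r11 G _ _).1 h
    rw [Sum.inr_injective h1]
    exact h2
  · intro h
    exact (r11 G _ _).2 ⟨e, rfl, rfl, h⟩

private theorem tst (s : Fin M.q) (e : G.X) :
    G.mdl.R (12 + M.k + s) [(Sum.inr e : G.Z ⊕ G.X), (Sum.inr e : G.Z ⊕ G.X)] ↔ G.st e = s := by
  constructor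
  · intro h
    obtain ⟨e', h1, -, h2⟩ := (rst G s _ _).1 h
    rw [Sum.inr_injective h1]
    exact h2
  · intro h
    exact (rst G s _ _).2 ⟨e, rfl, rfl, h⟩

private theorem t0 (z w : G.Z) :
    G.mdl.R 0 [(Sum.inl z : G.Z ⊕ G.X), (Sum.inl w : G.Z ⊕ G.X)] ↔ z < w := by
  constructor
  · intro h
    obtain ⟨z', w', h1, h2, h3⟩ := (r0 G _ _).1 h
    rw [Sum.inl_injective h1, Sum.inl_injective h2]
    exact h3
  · intro h
    exact (r0 G _ _).2 ⟨z, w, rfl, rfl, h⟩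

private theorem tasc (z w : G.Z) :
    ASc G.mdl (Sum.inl z : G.Z ⊕ G.X) (Sum.inl w : G.Z ⊕ G.X) ↔ w = G.S z := by
  constructor
  · intro h
    obtain ⟨z', h1, h2⟩ := (asc_iff G _ _).1 h
    rw [Sum.inl_injective h1]
    exact Sum.inl_injective h2
  · intro h
    exact (asc_iff G _ _).2 ⟨z, rfl, by rw [h]⟩

private theorem tle (z w : G.Z) :
    ((Sum.inl z : G.Z ⊕ G.X) = Sum.inl w ∨ G.mdl.R 0 [(Sum.inl z : G.Z ⊕ G.X), (Sum.inl w : G.Z ⊕ G.X)]) ↔ z ≤ w := by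
  rw [t0, le_iff_eq_or_lt]
  constructor
  · rintro (h | h)
    · exact Or.inl (Sum.inl_injective h)
    · exact Or.inr h
  · rintro (h | h)
    · exact Or.inl (by rw [h])
    · exact Or.inr h

private theorem adat_iff (s : Fin M.q) (t d : Bool) (a : Fin M.k → G.mdl.C) (n l p r x : G.mdl.C) :
    ADat M G.mdl s t d a n l p r x ↔ ∃ e : G.X, x = Sum.inr e ∧ (∀ f, G.dn f ≠ e) ∧ G.st e = s ∧ G.ty e = t ∧
      G.sd e = d ∧ (∀ i, a i = Sum.inl (G.al i e)) ∧ n = Sum.inl (G.nu e) ∧ l = Sum.inl (G.la e) ∧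
      p = Sum.inl (G.ps e) ∧ r = Sum.inl (G.rh e) := by
  constructor
  · rintro ⟨h1, h2, h3, h4, h5, h6, h7, h8, h9⟩
    obtain ⟨e, rfl, hb⟩ := (anb_iff G _).1 h1
    refine ⟨e, rfl, hb, (tst G s e).1 h2, (bool_iff _ _).1 ((t10 G e).symm.trans h3),
      (bool_iff _ _).1 ((t11 G e).symm.trans h4), fun i => ?_, ?_, ?_, ?_, ?_⟩
    · obtain ⟨e', h, h'⟩ := (ral G i _ _).1 (h5 i)
      rw [h', Sum.inr_injective h]
    · obtain ⟨e', h, h'⟩ := (r4 G _ _).1 h6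
      rw [h', Sum.inr_injective h]
    · obtain ⟨e', h, h'⟩ := (r5 G _ _).1 h7
      rw [h', Sum.inr_injective h]
    · obtain ⟨e', h, h'⟩ := (r6 G _ _).1 h8
      rw [h', Sum.inr_injective h]
    · obtain ⟨e', h, h'⟩ := (r7 G _ _).1 h9
      rw [h', Sum.inr_injective h]
  · rintro ⟨e, rfl, hb, h2, h3, h4, h5, h6, h7, h8, h9⟩
    exact ⟨(anb_iff G _).2 ⟨e, rfl, hb⟩, (tst G s e).2 h2, (t10 G e).trans ((bool_iff _ _).2 h3),
      (t11 G e).trans ((bool_iff _ _).2 h4), fun i => (ral G i _ _).2 ⟨e, rfl, h5 i⟩,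
      (r4 G _ _).2 ⟨e, rfl, h6⟩, (r5 G _ _).2 ⟨e, rfl, h7⟩, (r6 G _ _).2 ⟨e, rfl, h8⟩,
      (r7 G _ _).2 ⟨e, rfl, h9⟩⟩

private theorem main : GAx M c0 G.mdl where
  s0 := by
    intro x y h
    obtain ⟨z, w, rfl, rfl, -⟩ := (r0 G _ _).1 h
    exact ⟨ax_inl G z, ax_inl G w⟩
  s1 := by
    intro x y h
    obtain ⟨rfl, rfl⟩ := (r1 G _ _).1 h
    exact ⟨ax_inl G _, rfl⟩
  s2 := by
    intro x y h
    obtain ⟨e, rfl, rfl⟩ := (r2 G _ _).1 h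
    exact ax_inr G _
  s3 := by
    intro x y h
    obtain ⟨e, rfl, rfl⟩ := (r3 G _ _).1 h
    exact ⟨ax_inr G _, ax_inr G _⟩
  sF := by
    intro r hr x y h
    obtain ⟨F, hF⟩ := rF G r hr
    obtain ⟨e, rfl, rfl⟩ := (hF _ _).1 h
    exact ⟨ax_inr G _, ax_inl G _⟩
  sU := by
    intro r hr x y h
    obtain ⟨F, hF⟩ := rU G r hr
    obtain ⟨e, rfl, rfl, -⟩ := (hF _ _).1 h
    exact ⟨ax_inr G _, rfl⟩
  irr := by
    intro x h
    obtain ⟨z, w, h1, h2, h3⟩ := (r0 G _ _).1 h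
    rw [h1] at h2
    rw [Sum.inl_injective h2] at h3
    exact lt_irrefl _ h3
  tr := by
    intro x y u h h'
    obtain ⟨z, w, rfl, rfl, h1⟩ := (r0 G _ _).1 h
    obtain ⟨w', v, h2, rfl, h3⟩ := (r0 G _ _).1 h'
    have h4 := Sum.inl_injective h2
    subst h4
    exact (t0 G _ _).2 (h1.trans h3)
  tot := by
    intro x y hx hy
    obtain ⟨z, rfl⟩ := (nax_iff G _).1 hx
    obtain ⟨w, rfl⟩ := (nax_iff G _).1 hy
    rcases lt_trichotomy z w with h | h | h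
    · exact Or.inl ((t0 G _ _).2 h)
    · exact Or.inr (Or.inl (by rw [h]))
    · exact Or.inr (Or.inr ((t0 G _ _).2 h))
  suc := by
    intro x hx
    obtain ⟨z, rfl⟩ := (nax_iff G _).1 hx
    exact ⟨(Sum.inl (G.S z) : G.Z ⊕ G.X), (tasc G _ _).2 rfl⟩
  prd := by
    intro x hx
    obtain ⟨z, rfl⟩ := (nax_iff G _).1 hx
    exact ⟨(Sum.inl (G.S.symm z) : G.Z ⊕ G.X), (tasc G _ _).2 (by rw [Equiv.apply_symm_apply])⟩
  z_ex := ⟨(Sum.inl G.o : G.Z ⊕ G.X), (r1 G _ _).2 ⟨rfl, rfl⟩⟩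
  z_un := by
    intro x y hx hy
    rw [((r1 G _ _).1 hx).1, ((r1 G _ _).1 hy).1]
  f2 := by
    intro x y z h h'
    obtain ⟨e, rfl, rfl⟩ := (r2 G _ _).1 h
    obtain ⟨f, h1, rfl⟩ := (r2 G _ _).1 h'
    rw [Sum.inr_injective h1]
  i2 := by
    intro x y z h h'
    obtain ⟨e, rfl, rfl⟩ := (r2 G _ _).1 h
    obtain ⟨f, rfl, h1⟩ := (r2 G _ _).1 h'
    rw [G.dn_inj (Sum.inr_injective h1)]
  f3 := by
    intro x y z h h'
    obtain ⟨e, rfl, rfl⟩ := (r3 G _ _).1 h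
    obtain ⟨f, h1, rfl⟩ := (r3 G _ _).1 h'
    rw [Sum.inr_injective h1]
  i3 := by
    intro x y z h h'
    obtain ⟨e, rfl, rfl⟩ := (r3 G _ _).1 h
    obtain ⟨f, rfl, h1⟩ := (r3 G _ _).1 h'
    rw [G.sh.injective (Sum.inr_injective h1)]
  t3 := by
    intro x hx
    obtain ⟨e, rfl⟩ := (ax_iff G _).1 hx
    exact ⟨(Sum.inr (G.sh e) : G.Z ⊕ G.X), (r3 G _ _).2 ⟨e, rfl, rfl⟩⟩
  r3 := by
    intro x hx
    obtain ⟨e, rfl⟩ := (ax_iff G _).1 hx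
    exact ⟨(Sum.inr (G.sh.symm e) : G.Z ⊕ G.X),
      (r3 G _ _).2 ⟨_, rfl, by rw [Equiv.apply_symm_apply]⟩⟩
  fF := by
    intro r hr x y z h h'
    obtain ⟨F, hF⟩ := rF G r hr
    obtain ⟨e, rfl, rfl⟩ := (hF _ _).1 h
    obtain ⟨f, h1, rfl⟩ := (hF _ _).1 h'
    rw [Sum.inr_injective h1]
  tF := by
    intro r hr x hx
    obtain ⟨F, hF⟩ := rF G r hr
    obtain ⟨e, rfl⟩ := (ax_iff G _).1 hx
    exact ⟨(Sum.inl (F e) : G.Z ⊕ G.X), (hF _ _).2 ⟨e, rfl, rfl⟩⟩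
  st_ex := by
    intro x hx
    obtain ⟨e, rfl⟩ := (ax_iff G _).1 hx
    exact ⟨G.st e, (tst G _ e).2 rfl⟩
  st_un := by
    intro s s' x h h'
    obtain ⟨e, rfl, -, h1⟩ := (rst G s _ _).1 h
    rw [← h1, ← (tst G s' e).1 h']
  al_nonneg := by
    intro i o x z ho h
    obtain ⟨e, rfl, rfl⟩ := (ral G i _ _).1 h
    rw [((r1 G _ _).1 ho).1]
    exact (tle G _ _).2 (G.al_nonneg i e)
  dn_sh := by
    intro e f g h h1 h2 h3
    obtain ⟨e, rfl, rfl⟩ := (r3 G _ _).1 h1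
    obtain ⟨e', h4, rfl⟩ := (r2 G _ _).1 h2
    obtain ⟨e'', h5, rfl⟩ := (r2 G _ _).1 h3
    rw [← Sum.inr_injective h4, ← Sum.inr_injective h5]
    exact (r3 G _ _).2 ⟨_, rfl, by rw [G.dn_sh]⟩
  step := by
    intro s b o e f ho h1 h2 hb
    obtain ⟨e, rfl, rfl⟩ := (r2 G _ _).1 h1
    have h3 := (tst G s e).1 h2
    have ho' := ((r1 G _ _).1 ho).1
    subst ho'
    have h4 : (fun i => decide (G.al i e ≠ G.o)) = b := by
      funext i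
      rw [← bool_iff, decide_eq_true_iff, hb i, not_iff_not]
      refine Iff.trans ?_ (ral G i _ _).symm
      constructor
      · intro h
        exact ⟨e, rfl, by rw [h]⟩
      · rintro ⟨e', h5, h6⟩
        rw [Sum.inr_injective h5, Sum.inl_injective h6]
    refine ⟨(tst G _ _).2 ?_, fun i z w hz hw => ?_⟩
    · rw [G.st_dn, h4, h3]
    · obtain ⟨e', h5, rfl⟩ := (ral G i _ _).1 hz
      obtain ⟨e'', h6, rfl⟩ := (ral G i _ _).1 hw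
      rw [← Sum.inr_injective h5, ← Sum.inr_injective h6]
      have h7 := G.al_dn i e
      rw [h4, h3] at h7
      revert h7
      cases ((M.δ s b).2 i) with
      | down =>
        intro h7
        refine (tasc G _ _).2 ?_
        rw [h7]
        exact (G.S.apply_symm_apply _).symm
      | stay =>
        intro h7
        show (Sum.inl _ : G.Z ⊕ G.X) = Sum.inl _
        rw [h7]
        rfl
      | up =>
        intro h7
        exact (tasc G _ _).2 h7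
  st_sh := by
    intro s e f h h'
    obtain ⟨e, rfl, rfl⟩ := (r3 G _ _).1 h
    rw [tst] at h'
    exact (tst G _ _).2 (by rw [G.st_sh, h'])
  al_sh := by
    intro i e f z h h'
    obtain ⟨e, rfl, rfl⟩ := (r3 G _ _).1 h
    obtain ⟨e', h1, rfl⟩ := (ral G i _ _).1 h'
    rw [← Sum.inr_injective h1]
    exact (ral G i _ _).2 ⟨_, rfl, by rw [G.al_sh]⟩
  nu_dn := by
    intro e f z h h'
    obtain ⟨e, rfl, rfl⟩ := (r2 G _ _).1 h
    obtain ⟨e', h1, rfl⟩ := (r4 G _ _).1 h'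
    rw [← Sum.inr_injective h1]
    exact (r4 G _ _).2 ⟨_, rfl, by rw [G.nu_dn]⟩
  nu_sh := by
    intro e f z w h h1 h2
    obtain ⟨e, rfl, rfl⟩ := (r3 G _ _).1 h
    obtain ⟨e', h3, rfl⟩ := (r4 G _ _).1 h1
    obtain ⟨e'', h4, rfl⟩ := (r4 G _ _).1 h2
    rw [← Sum.inr_injective h3, ← Sum.inr_injective h4]
    exact (tasc G _ _).2 (G.nu_sh e)
  la_dn := by
    intro e f z w h h1 h2
    obtain ⟨e, rfl, rfl⟩ := (r2 G _ _).1 h
    obtain ⟨e', h3, rfl⟩ := (r5 G _ _).1 h1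
    obtain ⟨e'', h4, rfl⟩ := (r5 G _ _).1 h2
    rw [← Sum.inr_injective h3, ← Sum.inr_injective h4]
    exact (tasc G _ _).2 (G.la_dn e).symm
  la_sh := by
    intro e f z h h'
    obtain ⟨e, rfl, rfl⟩ := (r3 G _ _).1 h
    obtain ⟨e', h1, rfl⟩ := (r5 G _ _).1 h'
    rw [← Sum.inr_injective h1]
    exact (r5 G _ _).2 ⟨_, rfl, by rw [G.la_sh]⟩
  u0_dn := by
    intro e f h
    obtain ⟨e, rfl, rfl⟩ := (r2 G _ _).1 h
    rw [t8, t8, G.u0_dn]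
  u0_sh := by
    intro e f h h'
    obtain ⟨e, rfl, rfl⟩ := (r3 G _ _).1 h
    rw [t8] at h' ⊢
    exact G.u0_sh e h'
  u1_dn := by
    intro e f g h h'
    obtain ⟨e, rfl, rfl⟩ := (r2 G _ _).1 h
    obtain ⟨e', h1, rfl⟩ := (r3 G _ _).1 h'
    rw [← Sum.inr_injective h1, t9, t9, G.u1_dn]
  u1_sh := by
    intro e f h h'
    obtain ⟨e, rfl, rfl⟩ := (r3 G _ _).1 h
    rw [t9] at h' ⊢
    exact G.u1_sh e h'
  ps_sh := by
    intro e f z hb h h'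
    obtain ⟨e, rfl, hb'⟩ := (anb_iff G _).1 hb
    obtain ⟨e0, h0, rfl⟩ := (r3 G _ _).1 h
    obtain ⟨e', h1, rfl⟩ := (r6 G _ _).1 h'
    rw [← Sum.inr_injective h0, ← Sum.inr_injective h1]
    exact (r6 G _ _).2 ⟨_, rfl, by rw [G.ps_sh e hb']⟩
  rh_sh := by
    intro e f z hb h h'
    obtain ⟨e, rfl, hb'⟩ := (anb_iff G _).1 hb
    obtain ⟨e0, h0, rfl⟩ := (r3 G _ _).1 h
    obtain ⟨e', h1, rfl⟩ := (r7 G _ _).1 h'
    rw [← Sum.inr_injective h0, ← Sum.inr_injective h1]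
    exact (r7 G _ _).2 ⟨_, rfl, by rw [G.rh_sh e hb']⟩
  ty_sh := by
    intro e f hb h
    obtain ⟨e, rfl, hb'⟩ := (anb_iff G _).1 hb
    obtain ⟨e0, h0, rfl⟩ := (r3 G _ _).1 h
    rw [← Sum.inr_injective h0, t10, t10, G.ty_sh e hb']
  sd_sh := by
    intro e f hb h
    obtain ⟨e, rfl, hb'⟩ := (anb_iff G _).1 hb
    obtain ⟨e0, h0, rfl⟩ := (r3 G _ _).1 h
    rw [← Sum.inr_injective h0, t11, t11, G.sd_sh e hb']
  ps_dn := by
    intro e f z h h'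
    obtain ⟨e, rfl, rfl⟩ := (r2 G _ _).1 h
    obtain ⟨e', h1, rfl⟩ := (r6 G _ _).1 h'
    rw [← Sum.inr_injective h1, G.ps_dn]
    exact (r1 G _ _).2 ⟨rfl, rfl⟩
  rh_dn := by
    intro e f z h h'
    obtain ⟨e, rfl, rfl⟩ := (r2 G _ _).1 h
    obtain ⟨e', h1, rfl⟩ := (r7 G _ _).1 h'
    rw [← Sum.inr_injective h1, G.rh_dn]
    exact (r1 G _ _).2 ⟨rfl, rfl⟩
  ty_dn := by
    intro e f h
    obtain ⟨e, rfl, rfl⟩ := (r2 G _ _).1 h
    rw [t10, G.ty_dn]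
    exact Bool.false_ne_true
  sd_dn := by
    intro e f h
    obtain ⟨e, rfl, rfl⟩ := (r2 G _ _).1 h
    rw [t11, G.sd_dn]
    exact Bool.false_ne_true
  line_f := by
    intro e z w hb ht hz hw
    obtain ⟨e, rfl, hb'⟩ := (anb_iff G _).1 hb
    obtain ⟨e', h1, rfl⟩ := (r6 G _ _).1 hz
    obtain ⟨e'', h2, rfl⟩ := (r4 G _ _).1 hw
    rw [← Sum.inr_injective h1, ← Sum.inr_injective h2]
    rw [t10, Bool.not_eq_true] at ht
    obtain ⟨h3, h4⟩ := G.line_f e hb' ht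
    exact ⟨(t8 G e).trans (h3.trans (tle G _ _).symm), by rw [t9, t11, h4]⟩
  line_t := by
    intro e z w hb ht hz hw
    obtain ⟨e, rfl, hb'⟩ := (anb_iff G _).1 hb
    obtain ⟨e', h1, rfl⟩ := (r6 G _ _).1 hz
    obtain ⟨e'', h2, rfl⟩ := (r4 G _ _).1 hw
    rw [← Sum.inr_injective h1, ← Sum.inr_injective h2]
    rw [t10] at ht
    obtain ⟨h3, h4⟩ := G.line_t e hb' ht
    exact ⟨(t9 G e).trans (h3.trans (tle G _ _).symm), by rw [t8, t11, h4]⟩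
  birth_ex := by
    intro s t d a o n l p r ho ha hn hl hp hr
    have ho' := ((r1 G _ _).1 ho).1
    subst ho'
    obtain ⟨n, rfl⟩ := (nax_iff G _).1 hn
    obtain ⟨l, rfl⟩ := (nax_iff G _).1 hl
    obtain ⟨p, rfl⟩ := (nax_iff G _).1 hp
    obtain ⟨r, rfl⟩ := (nax_iff G _).1 hr
    have h1 : ∀ i, ∃ z : G.Z, a i = Sum.inl z ∧ G.o ≤ z := by
      intro i
      rcases ha i with h | h
      · exact ⟨G.o, h.symm, le_rfl⟩
      · obtain ⟨z, w, h2, h3, h4⟩ := (r0 G _ _).1 h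
        refine ⟨w, h3, ?_⟩
        rw [Sum.inl_injective h2]
        exact h4.le
    choose a' ha1 ha2 using h1
    obtain ⟨e, hb, h2, h3, h4, h5, h6, h7, h8, h9⟩ := G.birth_ex s a' n l p r t d ha2
    refine ⟨(Sum.inr e : G.Z ⊕ G.X), (adat_iff G s t d a _ _ _ _ _).2
      ⟨e, rfl, hb, h2, h8, h9, fun i => ?_, ?_, ?_, ?_, ?_⟩⟩
    · rw [ha1, h3]
    · rw [h4]
    · rw [h5]
    · rw [h6]
    · rw [h7]
  birth_un := by
    intro s t d a n l p r x x' h h'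
    obtain ⟨e, rfl, hb, h2, h3, h4, h5, h6, h7, h8, h9⟩ := (adat_iff G s t d a _ _ _ _ _).1 h
    obtain ⟨e', rfl, hb', k2, k3, k4, k5, k6, k7, k8, k9⟩ := (adat_iff G s t d a _ _ _ _ _).1 h'
    have := G.birth_un e e' hb hb' (h2.trans k2.symm)
      (fun i => Sum.inl_injective ((h5 i).symm.trans (k5 i)))
      (Sum.inl_injective (h6.symm.trans k6)) (Sum.inl_injective (h7.symm.trans k7))
      (Sum.inl_injective (h8.symm.trans k8)) (Sum.inl_injective (h9.symm.trans k9))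
      (h3.trans k3.symm) (h4.trans k4.symm)
    rw [this]
  og_ex := by
    obtain ⟨h1, h2, h3, h4⟩ := G.og_line
    refine ⟨(Sum.inr G.og : G.Z ⊕ G.X), (al0_iff G _).2 ⟨_, rfl, h1, h2⟩,
      (al1_iff G _).2 ⟨_, rfl, h3, h4⟩, (tst G _ _).2 G.og_st, fun i => ?_, ?_⟩
    · exact ⟨(Sum.inl (G.al i G.og) : G.Z ⊕ G.X), (ral G i _ _).2 ⟨_, rfl, rfl⟩,
        (anum_iff G _ _).2 (by rw [G.og_al])⟩
    · exact ⟨(Sum.inl G.o : G.Z ⊕ G.X), (r1 G _ _).2 ⟨rfl, rfl⟩,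
        (r4 G _ _).2 ⟨_, rfl, by rw [G.og_nu]⟩, (r5 G _ _).2 ⟨_, rfl, by rw [G.og_la]⟩⟩
  og_un := by
    intro x y h1 h2 h3 h4
    obtain ⟨e, rfl, h5, h6⟩ := (al0_iff G _).1 h1
    obtain ⟨e', h7, h8, h9⟩ := (al1_iff G _).1 h2
    have h10 := Sum.inr_injective h7
    subst h10
    obtain ⟨f, rfl, k5, k6⟩ := (al0_iff G _).1 h3
    obtain ⟨f', k7, k8, k9⟩ := (al1_iff G _).1 h4
    have k10 := Sum.inr_injective k7
    subst k10
    rw [G.og_un e h5 h6 h8 h9, G.og_un f k5 k6 k8 k9]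

end GAxOfAux

theorem gax_of_good {M : Mach} {c0 : M.Cfg} (G : Good M c0) : GAx M c0 G.mdl := GAxOfAux.main G

end CB
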