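import Pool.Agent.Work.MP_cb528c_lc.SysApi

set_option autoImplicit false
set_option linter.all false

/-!
# MP_cb528c_lc, module GInit: the initial position

`P := insert (o, o') (range of j ↦ (al j og, al j og'))`, `Q := {(og, og')}`.
`ZEq` for any `T`: all points are `(S^[n] o, S'^[n] o')` with natural numbers `n` (`og_al`), so both sides of every
comparison are the same statement on integers (`Succ.pow_le_pow`).
`Loc`: `ex`: `og_up` on both sides.  `st`, `zf` at height `i ≤ R + 1`: the elements at height `i` have the configurations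
`c i = c' i` (`Conf`; the element above `og` at height `i` is unique as `dn` is injective; `S^[n] o = o ↔ n = 0`).
`al`, `nu`, `la`: `og_nu`, `og_la`.  `bi`: no births above `og` (`og_up`, `not_above_birth`).
`u0`, `u1`: at `(sh ^ j) og` both are `true` iff `0 ≤ j` (`og_line`, `u0_mono`, `u1_mono`).
`near`: `pos_eq_self`.
-/

namespace CB

variable {M : Mach} {c0 : M.Cfg} {G G' : Good M c0}

private theorem iter_zpow (G : Good M c0) (n : ℕ) (z : G.Z) : (G.S^[n]) z = (G.S ^ (n : ℤ)) z := by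
  rw [Equiv.Perm.iterate_eq_pow, zpow_natCast]

private theorem iter_o (G : Good M c0) (n : ℕ) : (G.S^[n]) G.o = G.o ↔ n = 0 := by
  rw [iter_zpow]
  have h1 := G.succ.pow_inj (n : ℤ) 0 G.o
  rw [zpow_zero, Equiv.Perm.one_apply] at h1
  rw [h1]
  omega

private theorem u0_og (G : Good M c0) (j : ℤ) : G.u0 ((G.sh ^ j) G.og) = decide (0 ≤ j) := by
  by_cases hj : 0 ≤ j
  · rw [decide_eq_true hj]
    refine G.u0_mono hj G.og ?_
    rw [zpow_zero, Equiv.Perm.one_apply]
    exact G.og_line.1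
  · rw [decide_eq_false hj]
    by_contra h1
    have h2 : G.u0 ((G.sh ^ j) G.og) = true := by
      cases hb : G.u0 ((G.sh ^ j) G.og)
      · exact (h1 hb).elim
      · rfl
    have h3 := G.u0_mono (show j ≤ -1 by omega) G.og h2
    rw [zpow_neg_one] at h3
    have h4 : G.u0 (G.sh.symm G.og) = true := h3
    rw [G.og_line.2.1] at h4
    exact Bool.noConfusion h4

private theorem u1_og (G : Good M c0) (j : ℤ) : G.u1 ((G.sh ^ j) G.og) = decide (0 ≤ j) := by
  by_cases hj : 0 ≤ j
  · rw [decide_eq_true hj]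
    refine G.u1_mono hj G.og ?_
    rw [zpow_zero, Equiv.Perm.one_apply]
    exact G.og_line.2.2.1
  · rw [decide_eq_false hj]
    by_contra h1
    have h2 : G.u1 ((G.sh ^ j) G.og) = true := by
      cases hb : G.u1 ((G.sh ^ j) G.og)
      · exact (h1 hb).elim
      · rfl
    have h3 := G.u1_mono (show j ≤ -1 by omega) G.og h2
    rw [zpow_neg_one] at h3
    have h4 : G.u1 (G.sh.symm G.og) = true := h3
    rw [G.og_line.2.2.2] at h4
    exact Bool.noConfusion h4

private theorem br_conf (G : Good M c0) {c : ℕ → M.Cfg} (hc : G.IsBr c) {i : ℕ} {f : G.X} (hf : G.dn^[i] f = G.og) :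
    G.Conf f (c i) := by
  obtain ⟨e, he1, he2⟩ := hc i
  have h1 : f = e := G.iter_inj i (hf.trans he1.symm)
  rw [h1]
  exact he2

theorem Sys.init {c c' : ℕ → M.Cfg} (hc : G.IsBr c) (hc' : G'.IsBr c') (R T : ℕ) (h : ∀ t ≤ R + 1, c t = c' t) :
    ∃ P, Sys G G' R T P {(G.og, G'.og)} := by
  refine ⟨insert (G.o, G'.o) (Set.range fun j => (G.al j G.og, G'.al j G'.og)), ?_⟩
  have hform : ∀ p ∈ insert (G.o, G'.o) (Set.range fun j => (G.al j G.og, G'.al j G'.og)),
      ∃ n : ℤ, p.1 = (G.S ^ n) G.o ∧ p.2 = (G'.S ^ n) G'.o := by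
    intro p hp
    rcases Set.mem_insert_iff.1 hp with rfl | ⟨j, rfl⟩
    · exact ⟨0, by rw [zpow_zero, Equiv.Perm.one_apply], by rw [zpow_zero, Equiv.Perm.one_apply]⟩
    · refine ⟨(c0.2 j : ℤ), ?_, ?_⟩
      · show G.al j G.og = _
        rw [G.og_al, iter_zpow]
      · show G'.al j G'.og = _
        rw [G'.og_al, iter_zpow]
  have hloc : Loc G G' R (insert (G.o, G'.o) (Set.range fun j => (G.al j G.og, G'.al j G'.og))) G.og G'.og := by
    refine ⟨?_, ?_, ?_, ?_, ?_, ?_, ?_, ?_, ?_⟩
    · intro i _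
      exact iff_of_true (G.og_up i) (G'.og_up i)
    · intro i hi f f' hf hf'
      rw [(br_conf G hc hf).1, (br_conf G' hc' hf').1, h i hi]
    · intro i hi f f' hf hf' j
      rw [(br_conf G hc hf).2 j, (br_conf G' hc' hf').2 j, h i hi, iter_o, iter_o]
    · intro j
      exact Set.mem_insert_of_mem _ ⟨j, rfl⟩
    · rw [G.og_nu, G'.og_nu]
      exact Set.mem_insert _ _
    · rw [G.og_la, G'.og_la]
      exact Set.mem_insert _ _
    · intro i hi f f' hf hf' hb
      exact (G.not_above_birth hb hf (Nat.lt_succ_self i) (G.og_up (i + 1))).elim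
    · intro j _
      rw [u0_og, u0_og]
    · intro j _
      rw [u1_og, u1_og]
  refine ⟨?_, Set.finite_singleton _, Set.mem_insert _ _, ?_, rfl, ?_, ?_⟩
  · exact (Set.finite_range _).insert _
  · intro p hp q hq n _
    obtain ⟨a, ha1, ha2⟩ := hform p hp
    obtain ⟨b, hb1, hb2⟩ := hform q hq
    rw [ha1, ha2, hb1, hb2]
    have e1 : (G.S ^ n) ((G.S ^ a) G.o) = (G.S ^ (n + a)) G.o := by
      rw [zpow_add, Equiv.Perm.mul_apply]
    have e2 : (G'.S ^ n) ((G'.S ^ a) G'.o) = (G'.S ^ (n + a)) G'.o := by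
      rw [zpow_add, Equiv.Perm.mul_apply]
    rw [e1, e2, G.succ.pow_le_pow, G'.succ.pow_le_pow]
  · intro p hp
    rw [Set.mem_singleton_iff.1 hp]
    exact hloc
  · intro p hp q hq i _ j _
    rw [Set.mem_singleton_iff.1 hp, Set.mem_singleton_iff.1 hq]
    exact G.pos_eq_self.trans G'.pos_eq_self.symm

end CB
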