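import Pool.Agent.Work.MP_cb528c_lc.GoodEf

set_option autoImplicit false
set_option linter.all false

/-!
# MP_cb528c_lc, module GoodBasic: elementary facts on GOOD structures

`up` means: an element `f` with `dn^[n] f = e`.  All statements are short inductions from the fields of `Good`
(use `zpow` induction `Int.induction_on`, or first the forms for `sh` and `sh.symm`).
`up_or_birth`: induction on `n`.  `birth_un'`: injectivity of `dn`.  `pos_eq_self`: compare `la` and `nu`, `Succ.pow_inj`.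
-/

namespace CB

namespace Good

private theorem api {X : Type} (s : Equiv.Perm X) (e : X) : s (s⁻¹ e) = e := s.apply_symm_apply e

private theorem zinv {X Y : Type} (s : Equiv.Perm X) (g : X → Y) (h : ∀ e, g (s e) = g e) (j : ℤ) (e : X) :
    g ((s ^ j) e) = g e := by
  induction j using Int.induction_on generalizing e with
  | zero => rfl
  | succ n ih => rw [zpow_add_one, Equiv.Perm.mul_apply, ih, h]
  | pred n ih =>
    rw [zpow_sub_one, Equiv.Perm.mul_apply, ih]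
    have h1 := h (s⁻¹ e)
    rw [api] at h1
    exact h1.symm

private theorem zequi {X Y : Type} (s : Equiv.Perm X) (t : Equiv.Perm Y) (g : X → Y)
    (h : ∀ e, g (s e) = t (g e)) (j : ℤ) (e : X) : g ((s ^ j) e) = (t ^ j) (g e) := by
  induction j using Int.induction_on generalizing e with
  | zero => rfl
  | succ n ih => rw [zpow_add_one, Equiv.Perm.mul_apply, ih, h, zpow_add_one, Equiv.Perm.mul_apply]
  | pred n ih =>
    rw [zpow_sub_one, Equiv.Perm.mul_apply, ih, zpow_sub_one, Equiv.Perm.mul_apply]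
    congr 1
    have h1 := h (s⁻¹ e)
    rw [api] at h1
    rw [h1]
    exact (t.symm_apply_apply _).symm

variable {M : Mach} {c0 : M.Cfg} (G : Good M c0)

theorem iter_sh (i : ℕ) (j : ℤ) (e : G.X) : G.dn^[i] ((G.sh ^ j) e) = (G.sh ^ j) (G.dn^[i] e) := by
  refine zequi G.sh G.sh (G.dn^[i]) (fun e => ?_) j e
  induction i generalizing e with
  | zero => rfl
  | succ n ih => rw [Function.iterate_succ_apply, Function.iterate_succ_apply, G.dn_sh, ih]

theorem iter_inj (i : ℕ) : Function.Injective (G.dn^[i]) := G.dn_inj.iterate i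

theorem birth_shz (j : ℤ) (e : G.X) : G.Birth ((G.sh ^ j) e) ↔ G.Birth e := by
  have key : ∀ (j : ℤ) (e : G.X), G.Birth ((G.sh ^ j) e) → G.Birth e := by
    intro j e h f hf
    refine h ((G.sh ^ j) f) ?_
    have h1 := G.iter_sh 1 j f
    simp only [Function.iterate_one] at h1
    rw [h1, hf]
  refine ⟨key j e, fun h => key (-j) _ ?_⟩
  rw [← Equiv.Perm.mul_apply, ← zpow_add, neg_add_cancel, zpow_zero]
  exact h

theorem st_shz (j : ℤ) (e : G.X) : G.st ((G.sh ^ j) e) = G.st e :=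
  zinv G.sh G.st G.st_sh j e

theorem al_shz (i : Fin M.k) (j : ℤ) (e : G.X) : G.al i ((G.sh ^ j) e) = G.al i e :=
  zinv G.sh (G.al i) (G.al_sh i) j e

theorem la_shz (j : ℤ) (e : G.X) : G.la ((G.sh ^ j) e) = G.la e :=
  zinv G.sh G.la G.la_sh j e

theorem nu_shz (j : ℤ) (e : G.X) : G.nu ((G.sh ^ j) e) = (G.S ^ j) (G.nu e) :=
  zequi G.sh G.S G.nu G.nu_sh j e

theorem nu_iter (i : ℕ) (e : G.X) : G.nu (G.dn^[i] e) = G.nu e := by
  induction i generalizing e with
  | zero => rfl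
  | succ n ih => rw [Function.iterate_succ_apply, ih, G.nu_dn]

private theorem la_dn' (e : G.X) : G.la (G.dn e) = (G.S ^ (-1 : ℤ)) (G.la e) := by
  rw [zpow_neg_one, Equiv.Perm.eq_inv_iff_eq]
  exact G.la_dn e

theorem la_iter (i : ℕ) (e : G.X) : G.la (G.dn^[i] e) = (G.S ^ (-(i : ℤ))) (G.la e) := by
  induction i generalizing e with
  | zero => simp
  | succ n ih =>
    rw [Function.iterate_succ_apply, ih, la_dn', ← Equiv.Perm.mul_apply, ← zpow_add]
    congr 2
    push_cast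
    ring

theorem la_up (i : ℕ) (e : G.X) : G.la e = (G.S ^ (i : ℤ)) (G.la (G.dn^[i] e)) := by
  rw [la_iter, ← Equiv.Perm.mul_apply, ← zpow_add, add_neg_cancel, zpow_zero, Equiv.Perm.one_apply]

theorem u0_iter (i : ℕ) (e : G.X) : G.u0 (G.dn^[i] e) = G.u0 e := by
  induction i generalizing e with
  | zero => rfl
  | succ n ih => rw [Function.iterate_succ_apply, ih, G.u0_dn]

private theorem u1_dn' (e : G.X) : G.u1 (G.dn e) = G.u1 ((G.sh ^ (-1 : ℤ)) e) := by
  rw [← G.u1_dn ((G.sh ^ (-1 : ℤ)) e)]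
  congr 1
  have h1 := G.iter_sh 1 (-1) e
  simp only [Function.iterate_one] at h1
  rw [h1, zpow_neg_one, api]

theorem u1_iter (i : ℕ) (e : G.X) : G.u1 (G.dn^[i] e) = G.u1 ((G.sh ^ (-(i : ℤ))) e) := by
  induction i generalizing e with
  | zero => simp
  | succ n ih =>
    have h1 := G.iter_sh 1 (-(n : ℤ)) e
    simp only [Function.iterate_one] at h1
    rw [Function.iterate_succ_apply, ih, ← h1, u1_dn', ← Equiv.Perm.mul_apply, ← zpow_add]
    congr 3
    push_cast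
    ring

theorem u1_up (i : ℕ) (e : G.X) : G.u1 e = G.u1 ((G.sh ^ (i : ℤ)) (G.dn^[i] e)) := by
  rw [← iter_sh, u1_iter, ← Equiv.Perm.mul_apply, ← zpow_add, neg_add_cancel, zpow_zero,
    Equiv.Perm.one_apply]

private theorem mono_aux (u : G.X → Bool) (hs : ∀ e, u e = true → u (G.sh e) = true) {j j' : ℤ}
    (h : j ≤ j') (e : G.X) (hu : u ((G.sh ^ j) e) = true) : u ((G.sh ^ j') e) = true := by
  obtain ⟨n, rfl⟩ := Int.le.dest h
  clear h
  induction n with
  | zero => simpa using hu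
  | succ n ih =>
    have h1 := hs _ ih
    rw [← Equiv.Perm.mul_apply, ← zpow_one_add] at h1
    have h2 : (1 : ℤ) + (j + (n : ℤ)) = j + ((n + 1 : ℕ) : ℤ) := by
      push_cast
      ring
    rwa [h2] at h1

theorem u0_mono {j j' : ℤ} (h : j ≤ j') (e : G.X) (hu : G.u0 ((G.sh ^ j) e) = true) :
    G.u0 ((G.sh ^ j') e) = true := mono_aux G G.u0 G.u0_sh h e hu

theorem u1_mono {j j' : ℤ} (h : j ≤ j') (e : G.X) (hu : G.u1 ((G.sh ^ j) e) = true) :
    G.u1 ((G.sh ^ j') e) = true := mono_aux G G.u1 G.u1_sh h e hu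

theorem birth_data_shz (j : ℤ) (e : G.X) (h : G.Birth e) : G.ps ((G.sh ^ j) e) = G.ps e ∧
    G.rh ((G.sh ^ j) e) = G.rh e ∧ G.ty ((G.sh ^ j) e) = G.ty e ∧ G.sd ((G.sh ^ j) e) = G.sd e := by
  have key : ∀ {Y : Type} (g : G.X → Y), (∀ e, (∀ f, G.dn f ≠ e) → g (G.sh e) = g e) →
      g ((G.sh ^ j) e) = g e := by
    intro Y g hg
    clear * - hg h
    induction j using Int.induction_on with
    | zero => rfl
    | succ n ih =>
      rw [add_comm, zpow_one_add, Equiv.Perm.mul_apply, hg _ ((birth_shz G _ e).2 h), ih]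
    | pred n ih =>
      have h1 := hg ((G.sh ^ (-(n : ℤ) - 1)) e) ((birth_shz G _ e).2 h)
      rw [← Equiv.Perm.mul_apply, ← zpow_one_add, add_sub_cancel] at h1
      rw [← h1, ih]
  exact ⟨key G.ps G.ps_sh, key G.rh G.rh_sh, key G.ty G.ty_sh, key G.sd G.sd_sh⟩

/-- either one can go up `n` steps or there is a birth within less than `n` steps -/
theorem up_or_birth (n : ℕ) (e : G.X) :
    (∃ f, G.dn^[n] f = e) ∨ ∃ m < n, ∃ f, G.Birth f ∧ G.dn^[m] f = e := by
  induction n with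
  | zero => exact Or.inl ⟨e, rfl⟩
  | succ n ih =>
    rcases ih with ⟨f, hf⟩ | ⟨m, hm, f, h1, h2⟩
    · by_cases h : ∃ g, G.dn g = f
      · obtain ⟨g, rfl⟩ := h
        exact Or.inl ⟨g, hf⟩
      · exact Or.inr ⟨n, Nat.lt_succ_self n, f, fun g hg => h ⟨g, hg⟩, hf⟩
    · exact Or.inr ⟨m, Nat.lt_succ_of_lt hm, f, h1, h2⟩

theorem not_above_birth {m n : ℕ} {e f : G.X} (hf : G.Birth f) (he : G.dn^[m] f = e) (hmn : m < n) :
    ¬ ∃ g, G.dn^[n] g = e := by
  rintro ⟨g, hg⟩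
  obtain ⟨k, rfl⟩ := Nat.exists_eq_add_of_lt hmn
  have h1 : G.dn^[m] (G.dn^[k + 1] g) = G.dn^[m] f := by
    rw [← Function.iterate_add_apply, he, ← hg]
    rfl
  have h2 := G.iter_inj m h1
  rw [Function.iterate_succ_apply'] at h2
  exact hf _ h2

theorem birth_un' {m m' : ℕ} {e f f' : G.X} (hf : G.Birth f) (he : G.dn^[m] f = e) (hf' : G.Birth f')
    (he' : G.dn^[m'] f' = e) : m = m' ∧ f = f' := by
  have h1 : m = m' := by
    rcases lt_trichotomy m m' with h | h | h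
    · exact absurd ⟨f', he'⟩ (G.not_above_birth hf he h)
    · exact h
    · exact absurd ⟨f, he⟩ (G.not_above_birth hf' he' h)
  subst h1
  exact ⟨rfl, G.iter_inj m (he.trans he'.symm)⟩

/-- an element is only in position `(0, 0)` of itself -/
theorem pos_eq_self {i : ℕ} {j : ℤ} {e : G.X} : e = (G.sh ^ j) (G.dn^[i] e) ↔ i = 0 ∧ j = 0 := by
  constructor
  · intro h
    have h1 := congrArg G.la h
    rw [la_shz, la_iter] at h1
    have h2 := (G.succ.pow_inj 0 (-(i : ℤ)) (G.la e)).1 (by rw [zpow_zero]; exact h1)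
    have h3 : i = 0 := by omega
    subst h3
    have h4 := congrArg G.nu h
    rw [nu_shz, nu_iter] at h4
    have h5 := (G.succ.pow_inj 0 j (G.nu e)).1 (by rw [zpow_zero]; exact h4)
    exact ⟨rfl, h5.symm⟩
  · rintro ⟨rfl, rfl⟩
    rfl

/-- values of the counters one step down -/
theorem al_dn_shift (i : Fin M.k) (e : G.X) :
    G.al i (G.dn e) = (G.S ^ (match (M.δ (G.st e) (fun i => decide (G.al i e ≠ G.o))).2 i with
      | Mv.down => (-1 : ℤ) | Mv.stay => 0 | Mv.up => 1)) (G.al i e) := by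
  rw [G.al_dn]
  generalize (M.δ (G.st e) (fun i => decide (G.al i e ≠ G.o))).2 i = v
  cases v
  · show G.S.symm (G.al i e) = (G.S ^ (-1 : ℤ)) (G.al i e)
    rw [zpow_neg_one]
    rfl
  · rfl
  · show G.S (G.al i e) = (G.S ^ (1 : ℤ)) (G.al i e)
    rw [zpow_one]

/-- in the part below a birth one of the two lines is hidden -/
theorem hidden {m : ℕ} {e f : G.X} (hf : G.Birth f) (he : G.dn^[m] f = e) :
    (G.ty f = false → ∀ j : ℤ, G.u1 ((G.sh ^ j) e) = G.sd f) ∧
    (G.ty f = true → ∀ j : ℤ, G.u0 ((G.sh ^ j) e) = G.sd f) := by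
  subst he
  constructor
  · intro ht j
    rw [← iter_sh, u1_iter, ← Equiv.Perm.mul_apply, ← zpow_add]
    obtain ⟨h1, h2, h3, h4⟩ := G.birth_data_shz (-(m : ℤ) + j) f hf
    rw [(G.line_f _ ((G.birth_shz _ f).2 hf) (h3.trans ht)).2, h4]
  · intro ht j
    rw [← iter_sh, u0_iter]
    obtain ⟨h1, h2, h3, h4⟩ := G.birth_data_shz j f hf
    rw [(G.line_t _ ((G.birth_shz _ f).2 hf) (h3.trans ht)).2, h4]

/-- the visible line below a birth: `u0` if `ty f = false` -/
theorem visible0 {m : ℕ} {e f : G.X} (hf : G.Birth f) (he : G.dn^[m] f = e) (ht : G.ty f = false) (j : ℤ) :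
    G.u0 ((G.sh ^ j) e) = true ↔ G.ps f ≤ (G.S ^ j) (G.nu f) := by
  subst he
  obtain ⟨h1, h2, h3, h4⟩ := G.birth_data_shz j f hf
  rw [← iter_sh, u0_iter, (G.line_f _ ((G.birth_shz _ f).2 hf) (h3.trans ht)).1, h1, nu_shz]

/-- the visible line below a birth: `u1` if `ty f = true` -/
theorem visible1 {m : ℕ} {e f : G.X} (hf : G.Birth f) (he : G.dn^[m] f = e) (ht : G.ty f = true) (j : ℤ) :
    G.u1 ((G.sh ^ j) e) = true ↔ G.ps f ≤ (G.S ^ (j - m)) (G.nu f) := by
  subst he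
  obtain ⟨h1, h2, h3, h4⟩ := G.birth_data_shz (j - m) f hf
  rw [← iter_sh, u1_iter, ← Equiv.Perm.mul_apply, ← zpow_add, neg_add_eq_sub,
    (G.line_t _ ((G.birth_shz _ f).2 hf) (h3.trans ht)).1, h1, nu_shz]

private theorem window (u : G.X → Bool)
    (hm : ∀ {j j' : ℤ}, j ≤ j' → ∀ e, u ((G.sh ^ j) e) = true → u ((G.sh ^ j') e) = true) (R : ℕ) (e : G.X) :
    ∃ a : ℤ, -(R : ℤ) ≤ a ∧ a ≤ R + 1 ∧ ∀ j : ℤ, |j| ≤ R → (u ((G.sh ^ j) e) = true ↔ a ≤ j) := by
  classical
  have hex : ∃ n : ℕ, u ((G.sh ^ (-(R : ℤ) + n)) e) = true ∨ n = 2 * R + 1 := ⟨2 * R + 1, Or.inr rfl⟩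
  have h1 := Nat.find_spec hex
  have h2 : ∀ n : ℕ, (u ((G.sh ^ (-(R : ℤ) + n)) e) = true ∨ n = 2 * R + 1) → Nat.find hex ≤ n :=
    fun n hn => Nat.find_min' hex hn
  set N := Nat.find hex
  have h3 : N ≤ 2 * R + 1 := h2 _ (Or.inr rfl)
  refine ⟨-(R : ℤ) + N, by omega, by omega, fun j hj => ?_⟩
  rw [abs_le] at hj
  constructor
  · intro h
    have h4 := h2 (j + R).toNat (Or.inl (by
      have h5 : -(R : ℤ) + ((j + R).toNat : ℤ) = j := by omega
      rw [h5]
      exact h))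
    omega
  · intro h
    rcases h1 with h1 | h1
    · exact hm h e h1
    · omega

/-- the pattern of `u0` in a window is a threshold -/
theorem window0 (R : ℕ) (e : G.X) : ∃ a : ℤ, -(R : ℤ) ≤ a ∧ a ≤ R + 1 ∧
    ∀ j : ℤ, |j| ≤ R → (G.u0 ((G.sh ^ j) e) = true ↔ a ≤ j) :=
  window G G.u0 (fun h e => G.u0_mono h e) R e

/-- the pattern of `u1` in a window is a threshold -/
theorem window1 (R : ℕ) (e : G.X) : ∃ a : ℤ, -(R : ℤ) ≤ a ∧ a ≤ R + 1 ∧
    ∀ j : ℤ, |j| ≤ R → (G.u1 ((G.sh ^ j) e) = true ↔ a ≤ j) :=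
  window G G.u1 (fun h e => G.u1_mono h e) R e

end Good

end CB
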