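import Pool.Agent.Work.MP_cb528c_lc.GoodBasic

set_option autoImplicit false
set_option linter.all false

/-!
# MP_cb528c_lc, module GoodCross: the crossing point; the branch of a GOOD structure

* `cross_down`: `y := (sh ^ a) (dn^[i] e)` with `a = b + i`.  By `iter_sh`, `u0_iter`, `u1_iter`: `u0 y = u0 (sh^a e)`,
  `u0 (sh.symm y) = u0 (sh^(a-1) e)`, `u1 y = u1 (sh^(a-i) e) = u1 (sh^b e)`, `u1 (sh.symm y) = u1 (sh^(b-1) e)`, so `y = og` by
  `og_un`.
* `no_birth`: if both lines are visible in the orbit of `e` under `sh` then there is no birth above `e`: by `hidden` one of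
  `u0`, `u1` would be constant.  Hence by `up_or_birth` one can go up arbitrarily.
* `cross_up`: take `g` with `dn^[i] g = e` and `y := (sh ^ a) g`, `b = a + i`; again `y = og` by `og_un`.
* `og_up`: `og` has no birth above (both lines are visible at `og`).
* `exists_br`: let `e t` be the element with `dn^[t] (e t) = og` (unique, `dn (e (t+1)) = e t`).  By induction on `t`,
  `al i (e t) = S^[n] o` for a natural number `n`: `al i (e (t+1))` is `al i (e t)` shifted by `-1`, `0` or `1` (`al_dn_shift`), and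
  it is `≥ o` (`al_nonneg`).  Put `c t = (st (e t), these n)`.  `M.step (c (t+1)) = c t` by `st_dn`, `al_dn` (the zero flags are the
  right ones because `S^[n] o = o ↔ n = 0`; `Mv.app` on natural numbers corresponds to `Mv.appZ` as a zero counter is
  never decremented, `M.ok`), and `S^[n] o = S^[m] o → n = m` by `Succ.pow_inj`.
* `br_unique`: two branches of `G` agree (`dn` injective, `S^[n] o` injective in `n`).
-/

namespace CB

namespace Good

variable {M : Mach} {c0 : M.Cfg} (G : Good M c0)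

private theorem symm_zpow (a : ℤ) (e : G.X) : G.sh.symm ((G.sh ^ a) e) = (G.sh ^ (a - 1)) e := by
  have h1 : (G.sh ^ a) e = G.sh ((G.sh ^ (a - 1)) e) := by
    rw [← Equiv.Perm.mul_apply, ← zpow_one_add]
    congr 2
    ring
  rw [h1, Equiv.symm_apply_apply]

theorem cross_down {e : G.X} {a b : ℤ} {i : ℕ} (hab : a = b + i)
    (h1 : G.u0 ((G.sh ^ a) e) = true) (h2 : G.u0 ((G.sh ^ (a - 1)) e) = false)
    (h3 : G.u1 ((G.sh ^ b) e) = true) (h4 : G.u1 ((G.sh ^ (b - 1)) e) = false) :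
    G.og = (G.sh ^ a) (G.dn^[i] e) := by
  subst hab
  have e1 : ∀ c : ℤ, -(i : ℤ) + c = c - i := fun c => by ring
  symm
  apply G.og_un
  · rw [← iter_sh, u0_iter, h1]
  · rw [symm_zpow, ← iter_sh, u0_iter, h2]
  · rw [← iter_sh, u1_iter, ← Equiv.Perm.mul_apply, ← zpow_add, e1, add_sub_cancel_right, h3]
  · rw [symm_zpow, ← iter_sh, u1_iter, ← Equiv.Perm.mul_apply, ← zpow_add, e1]
    have e2 : b + (i : ℤ) - 1 - i = b - 1 := by ring
    rw [e2, h4]

theorem no_birth {e : G.X} {a b : ℤ}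
    (h1 : G.u0 ((G.sh ^ a) e) = true) (h2 : G.u0 ((G.sh ^ (a - 1)) e) = false)
    (h3 : G.u1 ((G.sh ^ b) e) = true) (h4 : G.u1 ((G.sh ^ (b - 1)) e) = false) (n : ℕ) :
    ∃ f, G.dn^[n] f = e := by
  rcases G.up_or_birth n e with h | ⟨m, -, f, hf, he⟩
  · exact h
  · obtain ⟨k1, k2⟩ := G.hidden hf he
    rcases Bool.eq_false_or_eq_true (G.ty f) with ht | ht
    · have a1 := k2 ht a
      have a2 := k2 ht (a - 1)
      rw [h1] at a1
      rw [h2, ← a1] at a2
      exact absurd a2 (by decide)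
    · have a1 := k1 ht b
      have a2 := k1 ht (b - 1)
      rw [h3] at a1
      rw [h4, ← a1] at a2
      exact absurd a2 (by decide)

theorem cross_up {e : G.X} {a b : ℤ} {i : ℕ} (hab : b = a + i)
    (h1 : G.u0 ((G.sh ^ a) e) = true) (h2 : G.u0 ((G.sh ^ (a - 1)) e) = false)
    (h3 : G.u1 ((G.sh ^ b) e) = true) (h4 : G.u1 ((G.sh ^ (b - 1)) e) = false) :
    e = (G.sh ^ (-a)) (G.dn^[i] G.og) := by
  obtain ⟨g, rfl⟩ := G.no_birth h1 h2 h3 h4 i
  subst hab
  have e1 : ∀ c : ℤ, -(i : ℤ) + c = c - i := fun c => by ring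
  have hy : (G.sh ^ a) g = G.og := by
    apply G.og_un
    · rwa [← iter_sh, u0_iter] at h1
    · rw [symm_zpow]
      rwa [← iter_sh, u0_iter] at h2
    · rwa [← iter_sh, u1_iter, ← Equiv.Perm.mul_apply, ← zpow_add, e1, add_sub_cancel_right] at h3
    · rw [symm_zpow]
      rw [← iter_sh, u1_iter, ← Equiv.Perm.mul_apply, ← zpow_add, e1] at h4
      have e2 : a + (i : ℤ) - 1 - i = a - 1 := by ring
      rwa [e2] at h4
  rw [← hy, iter_sh, ← Equiv.Perm.mul_apply, ← zpow_add, neg_add_cancel, zpow_zero, Equiv.Perm.one_apply]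

theorem og_up (n : ℕ) : ∃ f, G.dn^[n] f = G.og := by
  obtain ⟨h1, h2, h3, h4⟩ := G.og_line
  have e0 : (G.sh ^ ((0 : ℤ) - 1)) G.og = G.sh.symm G.og := by
    rw [← symm_zpow, zpow_zero, Equiv.Perm.one_apply]
  exact G.no_birth (a := 0) (b := 0) (by rw [zpow_zero]; exact h1) (by rw [e0]; exact h2)
    (by rw [zpow_zero]; exact h3) (by rw [e0]; exact h4) n

private theorem iter_pow (n : ℕ) (z : G.Z) : (G.S^[n]) z = (G.S ^ (n : ℤ)) z := by
  rw [zpow_natCast, ← Equiv.Perm.iterate_eq_pow]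

private theorem iter_S_inj {n m : ℕ} (h : (G.S^[n]) G.o = (G.S^[m]) G.o) : n = m := by
  rw [iter_pow, iter_pow, G.succ.pow_inj] at h
  exact_mod_cast h

private theorem zero_iff {n : ℕ} : (G.S^[n]) G.o = G.o ↔ n = 0 :=
  ⟨fun h => G.iter_S_inj (m := 0) h, fun h => by subst h; rfl⟩

/-- a standard configuration goes to a standard configuration -/
private theorem conf_dn {e : G.X} {D : M.Cfg} (h : G.Conf e D) : G.Conf (G.dn e) (M.step D) := by
  obtain ⟨h1, h2⟩ := h
  have hz : (fun i => decide (G.al i e ≠ G.o)) = fun i => decide (D.2 i ≠ 0) := by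
    funext i
    rw [decide_eq_decide, h2 i, ne_eq, zero_iff]
  refine ⟨?_, fun i => ?_⟩
  · rw [G.st_dn, h1, hz]
    rfl
  · rw [G.al_dn, h1, hz]
    show _ = (G.S^[((M.δ D.1 (fun i => decide (D.2 i ≠ 0))).2 i).app (D.2 i)]) G.o
    have hok := M.ok D.1 (fun i => decide (D.2 i ≠ 0)) i
    rw [h2 i]
    generalize hv : (M.δ D.1 (fun i => decide (D.2 i ≠ 0))).2 i = v at hok ⊢
    cases v
    · have hne : D.2 i ≠ 0 := by
        intro h0
        exact hok (by simp [h0]) rfl
      obtain ⟨n, hn⟩ := Nat.exists_eq_succ_of_ne_zero hne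
      rw [hn]
      show G.S.symm ((G.S^[n + 1]) G.o) = (G.S^[n + 1 - 1]) G.o
      rw [Function.iterate_succ_apply', Equiv.symm_apply_apply, Nat.add_sub_cancel]
    · rfl
    · show G.S ((G.S^[D.2 i]) G.o) = (G.S^[D.2 i + 1]) G.o
      rw [Function.iterate_succ_apply']

/-- if the configuration one step down is standard then so is the one above -/
private theorem conf_up {e : G.X} {D : M.Cfg} (h : G.Conf (G.dn e) D) : ∃ D', G.Conf e D' := by
  have key : ∀ i, ∃ n : ℕ, G.al i e = (G.S^[n]) G.o := by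
    intro i
    obtain ⟨c, h1⟩ : ∃ c : ℤ, G.al i (G.dn e) = (G.S ^ c) (G.al i e) := ⟨_, G.al_dn_shift i e⟩
    rw [h.2 i, iter_pow] at h1
    have h2 : G.al i e = (G.S ^ ((D.2 i : ℤ) - c)) G.o := by
      have h3 := congrArg (G.S ^ (-c)) h1
      rw [← Equiv.Perm.mul_apply, ← Equiv.Perm.mul_apply, ← zpow_add, ← zpow_add, neg_add_cancel,
        zpow_zero, Equiv.Perm.one_apply] at h3
      rw [← h3]
      congr 2
      ring
    have h4 := G.al_nonneg i e
    rw [h2] at h4
    have h5 : 0 ≤ (D.2 i : ℤ) - c := by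
      have := (G.succ.pow_le_pow 0 ((D.2 i : ℤ) - c) G.o).1 (by rw [zpow_zero]; exact h4)
      exact this
    obtain ⟨n, hn⟩ := Int.eq_ofNat_of_zero_le h5
    exact ⟨n, by rw [h2, hn, iter_pow]⟩
  choose n hn using key
  exact ⟨(G.st e, n), rfl, hn⟩

private theorem conf_un {e : G.X} {D D' : M.Cfg} (h : G.Conf e D) (h' : G.Conf e D') : D = D' :=
  Prod.ext (h.1.symm.trans h'.1) (funext fun i => G.iter_S_inj ((h.2 i).symm.trans (h'.2 i)))

theorem exists_br : ∃ c : ℕ → M.Cfg, M.Inv c0 c ∧ G.IsBr c := by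
  choose e he using G.og_up
  have hdn : ∀ t, G.dn (e (t + 1)) = e t := by
    intro t
    apply G.iter_inj t
    rw [he t, ← Function.iterate_succ_apply]
    exact he (t + 1)
  have h0 : e 0 = G.og := he 0
  have hconf0 : G.Conf (e 0) c0 := by
    rw [h0]
    exact ⟨G.og_st, G.og_al⟩
  have hconf : ∀ t, ∃ D, G.Conf (e t) D := by
    intro t
    induction t with
    | zero => exact ⟨c0, hconf0⟩
    | succ t ih =>
      obtain ⟨D, hD⟩ := ih
      rw [← hdn t] at hD
      exact G.conf_up hD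
  choose c hc using hconf
  refine ⟨c, ⟨G.conf_un (hc 0) hconf0, fun t => ?_⟩, fun t => ⟨e t, he t, hc t⟩⟩
  have h1 := G.conf_dn (hc (t + 1))
  rw [hdn t] at h1
  exact G.conf_un h1 (hc t)

theorem br_unique {c c' : ℕ → M.Cfg} (h : G.IsBr c) (h' : G.IsBr c') (t : ℕ) : c t = c' t := by
  obtain ⟨e, he, h1⟩ := h t
  obtain ⟨e', he', h2⟩ := h' t
  have h3 : e = e' := G.iter_inj t (he.trans he'.symm)
  subst h3
  exact G.conf_un h1 h2

end Good

end CB
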