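import Pool.Agent.Work.MP_cb528c_lc.Syntax

set_option autoImplicit false
set_option linter.all false

/-!
# MP_cb528c_lc: deterministic vector counter machines and GOOD structures
-/

namespace CB

/-- change of a counter -/
inductive Mv : Type
  | down : Mv
  | stay : Mv
  | up : Mv
  deriving DecidableEq

/-- deterministic machines with `q` states and `k` counters; the step depends on the state and on which counters are
nonzero (`z i = true` iff counter `i` is nonzero); a zero counter is never decremented -/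
structure Mach where
  q : ℕ
  k : ℕ
  δ : Fin q → (Fin k → Bool) → Fin q × (Fin k → Mv)
  ok : ∀ s z i, z i = false → (δ s z).2 i ≠ Mv.down

/-- apply a move to a natural number -/
def Mv.app : Mv → ℕ → ℕ
  | Mv.down, n => n - 1
  | Mv.stay, n => n
  | Mv.up, n => n + 1

/-- configurations -/
abbrev Mach.Cfg (M : Mach) : Type := Fin M.q × (Fin M.k → ℕ)

/-- one step -/
def Mach.step (M : Mach) (c : M.Cfg) : M.Cfg :=
  ((M.δ c.1 (fun i => decide (c.2 i ≠ 0))).1, fun i => ((M.δ c.1 (fun i => decide (c.2 i ≠ 0))).2 i).app (c.2 i))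

/-- infinite inverse branches from `c0` -/
def Mach.Inv (M : Mach) (c0 : M.Cfg) (c : ℕ → M.Cfg) : Prop := c 0 = c0 ∧ ∀ t, M.step (c (t + 1)) = c t

/-- apply a move in a type with a successor permutation -/
def Mv.appZ {Z : Type} (S : Z ≃ Z) : Mv → Z → Z
  | Mv.down, z => S.symm z
  | Mv.stay, z => z
  | Mv.up, z => S z

/-- GOOD structures for the machine `M` and the configuration `c0`.
`Z`: discrete linear order without end points, with a point `o` (zero) and successor `S`.
`X`: elements carry a configuration (state `st`, counters `al i ≥ o`), `nu`, `la`, and on births `ps`, `rh`, `ty`, `sd`. -/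
structure Good (M : Mach) (c0 : M.Cfg) where
  Z : Type
  X : Type
  lo : LinearOrder Z
  S : Z ≃ Z
  lt_S : ∀ z : Z, z < S z
  S_le : ∀ z w : Z, z < w → S z ≤ w
  o : Z
  dn : X → X
  sh : X ≃ X
  st : X → Fin M.q
  al : Fin M.k → X → Z
  nu : X → Z
  la : X → Z
  ps : X → Z
  rh : X → Z
  u0 : X → Bool
  u1 : X → Bool
  ty : X → Bool
  sd : X → Bool
  al_nonneg : ∀ i e, o ≤ al i e
  dn_inj : Function.Injective dn
  dn_sh : ∀ e, dn (sh e) = sh (dn e)
  -- the machine step
  st_dn : ∀ e, st (dn e) = (M.δ (st e) (fun i => decide (al i e ≠ o))).1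
  al_dn : ∀ i e, al i (dn e) = ((M.δ (st e) (fun i => decide (al i e ≠ o))).2 i).appZ S (al i e)
  st_sh : ∀ e, st (sh e) = st e
  al_sh : ∀ i e, al i (sh e) = al i e
  nu_dn : ∀ e, nu (dn e) = nu e
  nu_sh : ∀ e, nu (sh e) = S (nu e)
  la_dn : ∀ e, S (la (dn e)) = la e
  la_sh : ∀ e, la (sh e) = la e
  -- the two hidden lines
  u0_dn : ∀ e, u0 (dn e) = u0 e
  u0_sh : ∀ e, u0 e = true → u0 (sh e) = true
  u1_dn : ∀ e, u1 (sh (dn e)) = u1 e
  u1_sh : ∀ e, u1 e = true → u1 (sh e) = true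
  -- data of births
  ps_sh : ∀ e, (∀ f, dn f ≠ e) → ps (sh e) = ps e
  rh_sh : ∀ e, (∀ f, dn f ≠ e) → rh (sh e) = rh e
  ty_sh : ∀ e, (∀ f, dn f ≠ e) → ty (sh e) = ty e
  sd_sh : ∀ e, (∀ f, dn f ≠ e) → sd (sh e) = sd e
  -- default values at non births
  ps_dn : ∀ e, ps (dn e) = o
  rh_dn : ∀ e, rh (dn e) = o
  ty_dn : ∀ e, ty (dn e) = false
  sd_dn : ∀ e, sd (dn e) = false
  -- lines at births
  line_f : ∀ e, (∀ f, dn f ≠ e) → ty e = false → (u0 e = true ↔ ps e ≤ nu e) ∧ u1 e = sd e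
  line_t : ∀ e, (∀ f, dn f ≠ e) → ty e = true → (u1 e = true ↔ ps e ≤ nu e) ∧ u0 e = sd e
  -- births exist and are unique
  birth_ex : ∀ (s : Fin M.q) (a : Fin M.k → Z) (n l p r : Z) (t d : Bool), (∀ i, o ≤ a i) →
    ∃ e, (∀ f, dn f ≠ e) ∧ st e = s ∧ (∀ i, al i e = a i) ∧ nu e = n ∧ la e = l ∧ ps e = p ∧ rh e = r ∧
      ty e = t ∧ sd e = d
  birth_un : ∀ e e' : X, (∀ f, dn f ≠ e) → (∀ f, dn f ≠ e') → st e = st e' → (∀ i, al i e = al i e') →
    nu e = nu e' → la e = la e' → ps e = ps e' → rh e = rh e' → ty e = ty e' → sd e = sd e' → e = e'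
  -- the crossing point of the two lines
  og : X
  og_line : u0 og = true ∧ u0 (sh.symm og) = false ∧ u1 og = true ∧ u1 (sh.symm og) = false
  og_un : ∀ e, u0 e = true → u0 (sh.symm e) = false → u1 e = true → u1 (sh.symm e) = false → e = og
  og_st : st og = c0.1
  og_al : ∀ i, al i og = (S^[c0.2 i]) o
  og_nu : nu og = o
  og_la : la og = o

attribute [instance] Good.lo

namespace Good

variable {M : Mach} {c0 : M.Cfg}

/-- `e` is a birth -/
def Birth (G : Good M c0) (e : G.X) : Prop := ∀ f, G.dn f ≠ e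

/-- integer shifts of `Z` -/
def add (G : Good M c0) (z : G.Z) (n : ℤ) : G.Z := (G.S ^ n) z

/-- number of binary relations used -/
def nrel (M : Mach) : ℕ := 12 + M.k + M.q

/-- the relations of a GOOD structure: `0` order, `1` zero, `2` dn, `3` sh, `4` nu, `5` la, `6` ps, `7` rh, `8` u0, `9` u1,
`10` ty, `11` sd (unary predicates are coded on the diagonal), `12 + i` counters, `12 + k + s` states -/
def B (G : Good M c0) (r : ℕ) : G.Z ⊕ G.X → G.Z ⊕ G.X → Prop
  | Sum.inl z, Sum.inl w => (r = 0 ∧ z < w) ∨ (r = 1 ∧ z = w ∧ z = G.o)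
  | Sum.inl _, Sum.inr _ => False
  | Sum.inr e, Sum.inl z => (r = 4 ∧ G.nu e = z) ∨ (r = 5 ∧ G.la e = z) ∨ (r = 6 ∧ G.ps e = z) ∨
      (r = 7 ∧ G.rh e = z) ∨ ∃ i : Fin M.k, r = 12 + i ∧ G.al i e = z
  | Sum.inr e, Sum.inr f => (r = 2 ∧ G.dn e = f) ∨ (r = 3 ∧ G.sh e = f) ∨ (r = 8 ∧ e = f ∧ G.u0 e = true) ∨
      (r = 9 ∧ e = f ∧ G.u1 e = true) ∨ (r = 10 ∧ e = f ∧ G.ty e = true) ∨ (r = 11 ∧ e = f ∧ G.sd e = true) ∨
      ∃ s : Fin M.q, r = 12 + M.k + s ∧ e = f ∧ G.st e = s

/-- the relational structure of a GOOD structure -/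
def mdl (G : Good M c0) : Mdl where
  C := G.Z ⊕ G.X
  ne := ⟨Sum.inl G.o⟩
  R r l := ∃ x y, l = [x, y] ∧ G.B r x y

/-- the arities: all binary -/
def ar0 (M : Mach) : List ℕ := List.replicate (nrel M) 2

theorem ok (G : Good M c0) : G.mdl.Ok (ar0 M) := by
  rintro r l ⟨x, y, rfl, h⟩
  have hr : r < nrel M := by
    unfold nrel
    rcases x with z | e <;> rcases y with w | f <;> simp only [B] at h
    · omega
    · rcases h with h | h | h | h | ⟨i, h, -⟩
      · omega
      · omega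
      · omega
      · omega
      · have := i.2; omega
    · rcases h with h | h | h | h | h | h | ⟨i, h, -⟩
      · omega
      · omega
      · omega
      · omega
      · omega
      · omega
      · have := i.2; omega
  rw [ar0, List.getElem?_replicate, if_pos hr]; rfl

/-- the element `e` has the (standard) configuration `D` -/
def Conf (G : Good M c0) (e : G.X) (D : M.Cfg) : Prop := G.st e = D.1 ∧ ∀ i, G.al i e = (G.S^[D.2 i]) G.o

/-- `c` is the sequence of configurations above the crossing point `og` -/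
def IsBr (G : Good M c0) (c : ℕ → M.Cfg) : Prop := ∀ t, ∃ e, G.dn^[t] e = G.og ∧ G.Conf e (c t)

end Good

end CB
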