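import Mathlib

set_option autoImplicit false
set_option linter.all false

/-!
# MP_cb528c_lc, module ZOrd: back and forth for discrete linear orders without end points

`S : Z ≃ Z` is the successor: `z < S z` and `z < w → S z ≤ w`.  `(S ^ n) z` for `n : ℤ` is the shift by `n`
(`S : Equiv.Perm Z`, group power).
`ZEq S S' T P`: all the statements `z + n ≤ w`, `|n| ≤ T`, agree on the pairs in `P`.
-/

namespace CB

variable {Z Z' : Type} [LinearOrder Z] [LinearOrder Z']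

/-- `S` is a successor permutation -/
structure Succ (S : Z ≃ Z) : Prop where
  lt_S : ∀ z : Z, z < S z
  S_le : ∀ z w : Z, z < w → S z ≤ w

def ZEq (S : Equiv.Perm Z) (S' : Equiv.Perm Z') (T : ℕ) (P : Set (Z × Z')) : Prop :=
  ∀ p ∈ P, ∀ q ∈ P, ∀ n : ℤ, |n| ≤ T → ((S ^ n) p.1 ≤ q.1 ↔ (S' ^ n) p.2 ≤ q.2)

namespace Succ

variable {S : Equiv.Perm Z} {S' : Equiv.Perm Z'}

private theorem S_lt (h : Succ S) {z w : Z} (hzw : z < w) : S z < S w :=
  lt_of_le_of_lt (h.S_le z w hzw) (h.lt_S w)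

private theorem S_le_iff (h : Succ S) {z w : Z} : S z ≤ S w ↔ z ≤ w := by
  constructor
  · intro h1
    by_contra h2
    exact absurd h1 (not_le.2 (S_lt h (not_le.1 h2)))
  · intro h1
    rcases h1.lt_or_eq with h2 | h2
    · exact (S_lt h h2).le
    · rw [h2]

private theorem npow_mono (h : Succ S) (n : ℕ) {z w : Z} : (S ^ n) z ≤ (S ^ n) w ↔ z ≤ w := by
  induction n with
  | zero => simp
  | succ n ih => rw [pow_succ', Equiv.Perm.mul_apply, Equiv.Perm.mul_apply, S_le_iff h, ih]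

theorem pow_mono (h : Succ S) (n : ℤ) {z w : Z} : (S ^ n) z ≤ (S ^ n) w ↔ z ≤ w := by
  obtain ⟨m, rfl | rfl⟩ := n.eq_nat_or_neg
  · rw [zpow_natCast]
    exact npow_mono h m
  · have h1 := npow_mono h m (z := (S ^ (-(m : ℤ))) z) (w := (S ^ (-(m : ℤ))) w)
    have h2 : ∀ x : Z, (S ^ m) ((S ^ (-(m : ℤ))) x) = x := by
      intro x
      rw [← zpow_natCast, ← Equiv.Perm.mul_apply, ← zpow_add, add_neg_cancel, zpow_zero,
        Equiv.Perm.one_apply]
    rw [h2, h2] at h1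
    exact h1.symm

theorem pow_le_iff (h : Succ S) (n m : ℤ) {z w : Z} : (S ^ n) z ≤ (S ^ m) w ↔ (S ^ (n - m)) z ≤ w := by
  rw [← h.pow_mono m (z := (S ^ (n - m)) z), ← Equiv.Perm.mul_apply, ← zpow_add]
  rw [add_sub_cancel]

private theorem le_npow (h : Succ S) (n : ℕ) (z : Z) : z ≤ (S ^ n) z := by
  induction n with
  | zero => simp
  | succ n ih =>
    rw [pow_succ', Equiv.Perm.mul_apply]
    exact ih.trans (h.lt_S _).le

private theorem lt_npow (h : Succ S) (n : ℕ) (z : Z) : z < (S ^ (n + 1)) z := by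
  rw [pow_succ', Equiv.Perm.mul_apply]
  exact lt_of_le_of_lt (le_npow h n z) (h.lt_S _)

theorem pow_le_self (h : Succ S) (n : ℤ) (z : Z) : (S ^ n) z ≤ z ↔ n ≤ 0 := by
  constructor
  · intro h1
    by_contra h2
    obtain ⟨m, hm⟩ : ∃ m : ℕ, n = (m + 1 : ℕ) := ⟨n.toNat - 1, by omega⟩
    rw [hm, zpow_natCast] at h1
    exact absurd h1 (not_le.2 (lt_npow h m z))
  · intro h1
    obtain ⟨m, hm⟩ : ∃ m : ℕ, n = -(m : ℤ) := ⟨(-n).toNat, by omega⟩
    have h2 := le_npow h m ((S ^ n) z)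
    rw [← zpow_natCast, ← Equiv.Perm.mul_apply, ← zpow_add, hm, add_neg_cancel, zpow_zero,
      Equiv.Perm.one_apply] at h2
    rw [hm]
    exact h2

theorem pow_le_pow (h : Succ S) (n m : ℤ) (z : Z) : (S ^ n) z ≤ (S ^ m) z ↔ n ≤ m := by
  rw [h.pow_le_iff, h.pow_le_self]
  omega

theorem pow_inj (h : Succ S) (n m : ℤ) (z : Z) : (S ^ n) z = (S ^ m) z ↔ n = m := by
  rw [le_antisymm_iff, h.pow_le_pow, h.pow_le_pow]
  omega

/-- `z ≤ w` fails iff `S w ≤ z` -/
theorem not_le_iff (h : Succ S) (z w : Z) : ¬ z ≤ w ↔ S w ≤ z := by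
  rw [not_le]
  exact ⟨fun h1 => h.S_le w z h1, fun h1 => lt_of_lt_of_le (h.lt_S w) h1⟩

theorem eq_iff_le (h : Succ S) (z w : Z) : z = w ↔ z ≤ w ∧ ¬ S z ≤ w := by
  constructor
  · rintro rfl
    exact ⟨le_rfl, not_le.2 (h.lt_S z)⟩
  · rintro ⟨h1, h2⟩
    rcases h1.lt_or_eq with h3 | h3
    · exact absurd (h.S_le z w h3) h2
    · exact h3

theorem infinite (h : Succ S) [Nonempty Z] : Infinite Z := by
  obtain ⟨z⟩ := ‹Nonempty Z›
  exact Infinite.of_injective (fun n : ℤ => (S ^ n) z) fun n m hnm => (h.pow_inj n m z).1 hnm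

end Succ

variable {S : Equiv.Perm Z} {S' : Equiv.Perm Z'}

theorem ZEq.mono {T T' : ℕ} {P P' : Set (Z × Z')} (h : ZEq S S' T P) (hT : T' ≤ T) (hP : P' ⊆ P) :
    ZEq S S' T' P' := by
  intro p hp q hq n hn
  exact h p (hP hp) q (hP hq) n (hn.trans (by exact_mod_cast hT))

theorem ZEq.swap {T : ℕ} {P : Set (Z × Z')} (h : ZEq S S' T P) : ZEq S' S T (Prod.swap '' P) := by
  rintro _ ⟨p, hp, rfl⟩ _ ⟨q, hq, rfl⟩ n hn
  exact (h p hp q hq n hn).symm

/-- equalities up to shifts are preserved -/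
theorem ZEq.eq_iff (hS : Succ S) (hS' : Succ S') {T : ℕ} {P : Set (Z × Z')} (h : ZEq S S' T P) {p q : Z × Z'} (hp : p ∈ P)
    (hq : q ∈ P) {n : ℤ} (hn : |n| ≤ T) : (S ^ n) p.1 = q.1 ↔ (S' ^ n) p.2 = q.2 := by
  have h1 := h p hp q hq n hn
  have h2 := h q hq p hp (-n) (by rw [abs_neg]; exact hn)
  have e1 : (S ^ (-n)) q.1 ≤ p.1 ↔ q.1 ≤ (S ^ n) p.1 := by
    have := hS.pow_le_iff 0 n (z := q.1) (w := p.1)
    rw [zero_sub, zpow_zero, Equiv.Perm.one_apply] at this
    exact this.symm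
  have e2 : (S' ^ (-n)) q.2 ≤ p.2 ↔ q.2 ≤ (S' ^ n) p.2 := by
    have := hS'.pow_le_iff 0 n (z := q.2) (w := p.2)
    rw [zero_sub, zpow_zero, Equiv.Perm.one_apply] at this
    exact this.symm
  rw [e1, e2] at h2
  rw [le_antisymm_iff, le_antisymm_iff, h1, h2]

/-- one may add all shifts by at most `R` -/
theorem ZEq.shifts (hS : Succ S) (hS' : Succ S') {T R : ℕ} {P : Set (Z × Z')} (h : ZEq S S' (T + 2 * R) P) :
    ZEq S S' T {x | ∃ p ∈ P, ∃ c : ℤ, |c| ≤ R ∧ x = ((S ^ c) p.1, (S' ^ c) p.2)} := by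
  rintro _ ⟨p, hp, c, hc, rfl⟩ _ ⟨q, hq, d, hd, rfl⟩ n hn
  show (S ^ n) ((S ^ c) p.1) ≤ (S ^ d) q.1 ↔ (S' ^ n) ((S' ^ c) p.2) ≤ (S' ^ d) q.2
  rw [← Equiv.Perm.mul_apply, ← Equiv.Perm.mul_apply, ← zpow_add, ← zpow_add, hS.pow_le_iff,
    hS'.pow_le_iff]
  refine h p hp q hq _ ?_
  push_cast
  rw [abs_le] at hc hd hn ⊢
  constructor <;> linarith [hc.1, hc.2, hd.1, hd.2, hn.1, hn.2]

private theorem zeq_sep (hS : Succ S) (hS' : Succ S') {T : ℕ} {P : Set (Z × Z')}
    (h : ZEq S S' T P) (z : Z) (z' : Z')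
    (hsep : ∀ q ∈ P, ((S ^ (T : ℤ)) q.1 < z ∧ (S' ^ (T : ℤ)) q.2 < z') ∨
      ((S ^ (T : ℤ)) z < q.1 ∧ (S' ^ (T : ℤ)) z' < q.2)) : ZEq S S' T (insert (z, z') P) := by
  intro p hp q hq n hn
  have hn' := abs_le.1 hn
  rcases Set.mem_insert_iff.1 hp with rfl | hp
  · rcases Set.mem_insert_iff.1 hq with rfl | hq
    · show (S ^ n) z ≤ z ↔ (S' ^ n) z' ≤ z'
      rw [hS.pow_le_self, hS'.pow_le_self]
    · show (S ^ n) z ≤ q.1 ↔ (S' ^ n) z' ≤ q.2
      rcases hsep q hq with ⟨h1, h2⟩ | ⟨h1, h2⟩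
      · -- both false
        have f1 : ¬ (S ^ n) z ≤ q.1 := by
          intro h3
          have h4 : z ≤ (S ^ (-n)) q.1 := by
            have := hS.pow_le_iff 0 (-n) (z := z) (w := q.1)
            rw [zero_sub, neg_neg, zpow_zero, Equiv.Perm.one_apply] at this
            exact this.2 h3
          have h5 : (S ^ (-n)) q.1 ≤ (S ^ (T : ℤ)) q.1 := (hS.pow_le_pow _ _ _).2 (by linarith)
          exact absurd (h4.trans h5) (not_le.2 h1)
        have f2 : ¬ (S' ^ n) z' ≤ q.2 := by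
          intro h3
          have h4 : z' ≤ (S' ^ (-n)) q.2 := by
            have := hS'.pow_le_iff 0 (-n) (z := z') (w := q.2)
            rw [zero_sub, neg_neg, zpow_zero, Equiv.Perm.one_apply] at this
            exact this.2 h3
          have h5 : (S' ^ (-n)) q.2 ≤ (S' ^ (T : ℤ)) q.2 := (hS'.pow_le_pow _ _ _).2 (by linarith)
          exact absurd (h4.trans h5) (not_le.2 h2)
        exact iff_of_false f1 f2
      · exact iff_of_true (((hS.pow_le_pow n T z).2 hn'.2).trans h1.le)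
          (((hS'.pow_le_pow n T z').2 hn'.2).trans h2.le)
  · rcases Set.mem_insert_iff.1 hq with rfl | hq
    · show (S ^ n) p.1 ≤ z ↔ (S' ^ n) p.2 ≤ z'
      rcases hsep p hp with ⟨h1, h2⟩ | ⟨h1, h2⟩
      · exact iff_of_true (((hS.pow_le_pow n T p.1).2 hn'.2).trans h1.le)
          (((hS'.pow_le_pow n T p.2).2 hn'.2).trans h2.le)
      · have f1 : ¬ (S ^ n) p.1 ≤ z := by
          intro h3
          have h4 : p.1 ≤ (S ^ (-n)) z := by
            have := hS.pow_le_iff 0 (-n) (z := p.1) (w := z)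
            rw [zero_sub, neg_neg, zpow_zero, Equiv.Perm.one_apply] at this
            exact this.2 h3
          have h5 : (S ^ (-n)) z ≤ (S ^ (T : ℤ)) z := (hS.pow_le_pow _ _ _).2 (by linarith)
          exact absurd (h4.trans h5) (not_le.2 h1)
        have f2 : ¬ (S' ^ n) p.2 ≤ z' := by
          intro h3
          have h4 : p.2 ≤ (S' ^ (-n)) z' := by
            have := hS'.pow_le_iff 0 (-n) (z := p.2) (w := z')
            rw [zero_sub, neg_neg, zpow_zero, Equiv.Perm.one_apply] at this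
            exact this.2 h3
          have h5 : (S' ^ (-n)) z' ≤ (S' ^ (T : ℤ)) z' := (hS'.pow_le_pow _ _ _).2 (by linarith)
          exact absurd (h4.trans h5) (not_le.2 h2)
        exact iff_of_false f1 f2
    · exact h p hp q hq n hn

private theorem far_up (hS : Succ S) {z w : Z} (hzw : z < w) (T : ℕ)
    (hne : ∀ c : ℤ, |c| ≤ T → w ≠ (S ^ c) z) : (S ^ (T : ℤ)) z < w := by
  induction T with
  | zero => simpa using hzw
  | succ T ih =>
    have h1 : (S ^ (T : ℤ)) z < w := ih fun c hc => hne c (by push_cast; linarith)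
    have h2 := hS.S_le _ _ h1
    have h3 : S ((S ^ (T : ℤ)) z) = (S ^ ((T + 1 : ℕ) : ℤ)) z := by
      push_cast
      rw [add_comm, zpow_add, zpow_one, Equiv.Perm.mul_apply]
    rw [h3] at h2
    exact lt_of_le_of_ne h2 fun h4 => hne ((T + 1 : ℕ) : ℤ) (by rw [Nat.abs_cast]) h4.symm

private theorem far_down (hS : Succ S) {z w : Z} (hzw : w < z) (T : ℕ)
    (hne : ∀ c : ℤ, |c| ≤ T → w ≠ (S ^ c) z) : (S ^ (T : ℤ)) w < z := by
  apply far_up hS hzw T
  intro c hc h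
  apply hne (-c) (by rw [abs_neg]; exact hc)
  rw [h, ← Equiv.Perm.mul_apply, ← zpow_add, neg_add_cancel, zpow_zero, Equiv.Perm.one_apply]

/-- forth: if `z` is at distance `≤ T` from some point of `P`, take the same shift; otherwise it lies in a long gap -/
theorem ZEq.forth (hS : Succ S) (hS' : Succ S') {T : ℕ} {P : Set (Z × Z')} (hP : P.Finite) (hne : P.Nonempty)
    (h : ZEq S S' (2 * T + 2) P) (z : Z) : ∃ z', ZEq S S' T (insert (z, z') P) := by
  have hT : ZEq S S' T P := h.mono (by omega) subset_rfl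
  by_cases hA : ∃ p ∈ P, ∃ c : ℤ, |c| ≤ T ∧ z = (S ^ c) p.1
  · obtain ⟨p, hp, c, hc, rfl⟩ := hA
    refine ⟨(S' ^ c) p.2, ?_⟩
    have hcc := abs_le.1 hc
    intro x hx y hy n hn
    have hnn := abs_le.1 hn
    rcases Set.mem_insert_iff.1 hx with rfl | hx
    · rcases Set.mem_insert_iff.1 hy with rfl | hy
      · show (S ^ n) ((S ^ c) p.1) ≤ (S ^ c) p.1 ↔ (S' ^ n) ((S' ^ c) p.2) ≤ (S' ^ c) p.2
        rw [hS.pow_le_self, hS'.pow_le_self]
      · show (S ^ n) ((S ^ c) p.1) ≤ y.1 ↔ (S' ^ n) ((S' ^ c) p.2) ≤ y.2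
        rw [← Equiv.Perm.mul_apply, ← Equiv.Perm.mul_apply, ← zpow_add, ← zpow_add]
        refine h p hp y hy _ ?_
        push_cast
        rw [abs_le]
        constructor <;> linarith
    · rcases Set.mem_insert_iff.1 hy with rfl | hy
      · show (S ^ n) x.1 ≤ (S ^ c) p.1 ↔ (S' ^ n) x.2 ≤ (S' ^ c) p.2
        rw [hS.pow_le_iff, hS'.pow_le_iff]
        refine h x hx p hp _ ?_
        push_cast
        rw [abs_le]
        constructor <;> linarith
      · exact hT x hx y hy n hn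
  · push Not at hA
    have hne' : ∀ q ∈ P, z ≠ q.1 := by
      intro q hq
      have := hA q hq 0 (by simp)
      simpa using this
    have hup : ∀ q ∈ P, q.1 < z → (S ^ (T : ℤ)) q.1 < z := fun q hq hqz =>
      far_up hS hqz T fun c hc => hA q hq c hc
    have hdown : ∀ q ∈ P, z < q.1 → (S ^ (T : ℤ)) z < q.1 := fun q hq hqz =>
      far_down hS hqz T fun c hc => hA q hq c hc
    have hzero : ∀ p ∈ P, ∀ q ∈ P, p.1 ≤ q.1 → p.2 ≤ q.2 := by
      intro p hp q hq hpq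
      have := h p hp q hq 0 (by simp; positivity)
      simp only [zpow_zero, Equiv.Perm.one_apply] at this
      exact this.1 hpq
    by_cases hL : ∃ p ∈ P, p.1 < z
    · have hLf : (P ∩ {p | p.1 < z}).Finite := hP.subset Set.inter_subset_left
      obtain ⟨p, hp, hmax⟩ := Set.exists_max_image (P ∩ {p | p.1 < z}) Prod.fst hLf (by
        obtain ⟨p, hp, hpz⟩ := hL
        exact ⟨p, hp, hpz⟩)
      refine ⟨(S' ^ ((T : ℤ) + 1)) p.2, zeq_sep hS hS' hT z _ fun q hq => ?_⟩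
      rcases lt_or_gt_of_ne (hne' q hq).symm with hqz | hqz
      · left
        refine ⟨hup q hq hqz, ?_⟩
        have h1 : q.2 ≤ p.2 := hzero q hq p hp.1 (hmax q ⟨hq, hqz⟩)
        have h2 : (S' ^ (T : ℤ)) q.2 ≤ (S' ^ (T : ℤ)) p.2 := (hS'.pow_mono _).2 h1
        refine lt_of_le_of_lt h2 ?_
        rw [← not_le, hS'.pow_le_pow]
        omega
      · right
        refine ⟨hdown q hq hqz, ?_⟩
        -- the gap
        have h1 : (S ^ (T : ℤ)) p.1 < z := hup p hp.1 hp.2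
        have h2 : (S ^ ((T : ℤ) + 1)) p.1 ≤ z := by
          have := hS.S_le _ _ h1
          rw [add_comm, zpow_add, zpow_one, Equiv.Perm.mul_apply]
          exact this
        have h3 : (S ^ (T : ℤ)) z < q.1 := hdown q hq hqz
        have h4 : (S ^ ((T : ℤ) + 1)) z ≤ q.1 := by
          have := hS.S_le _ _ h3
          rw [add_comm, zpow_add, zpow_one, Equiv.Perm.mul_apply]
          exact this
        have h5 : (S ^ (2 * (T : ℤ) + 2)) p.1 ≤ q.1 := by
          have e1 : (2 * (T : ℤ) + 2) = ((T : ℤ) + 1) + ((T : ℤ) + 1) := by ring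
          rw [e1, zpow_add, Equiv.Perm.mul_apply]
          exact ((hS.pow_mono _).2 h2).trans h4
        have h6 : (S' ^ (2 * (T : ℤ) + 2)) p.2 ≤ q.2 := by
          refine (h p hp.1 q hq _ ?_).1 h5
          push_cast
          rw [abs_of_nonneg (by positivity)]
        refine lt_of_lt_of_le ?_ h6
        rw [← Equiv.Perm.mul_apply, ← zpow_add, ← not_le, hS'.pow_le_pow]
        omega
    · push Not at hL
      have hall : ∀ q ∈ P, z < q.1 := fun q hq => lt_of_le_of_ne (hL q hq) (hne' q hq)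
      obtain ⟨p, hp, hmin⟩ := Set.exists_min_image P Prod.fst hP hne
      refine ⟨(S' ^ (-((T : ℤ) + 1))) p.2, zeq_sep hS hS' hT z _ fun q hq => Or.inr ?_⟩
      refine ⟨hdown q hq (hall q hq), ?_⟩
      have h1 : p.2 ≤ q.2 := hzero p hp q hq (hmin q hq)
      refine lt_of_lt_of_le ?_ h1
      rw [← Equiv.Perm.mul_apply, ← zpow_add, ← not_le]
      intro h2
      have h3 := (hS'.pow_le_iff 0 ((T : ℤ) + -((T : ℤ) + 1)) (z := p.2) (w := p.2)).1 (by
        rw [zpow_zero, Equiv.Perm.one_apply]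
        exact h2)
      rw [hS'.pow_le_self] at h3
      omega

private theorem forth_fin_aux (hS : Succ S) (hS' : Succ S') (m : ℕ) {T : ℕ} :
    ∀ {P : Set (Z × Z')}, P.Finite → P.Nonempty → ZEq S S' (2 ^ m * (T + 2) - 2) P →
      ∀ z : Fin m → Z, ∃ z' : Fin m → Z', ZEq S S' T (P ∪ Set.range (fun i => (z i, z' i))) := by
  induction m with
  | zero =>
    intro P hP hne h z
    refine ⟨fun i => i.elim0, ?_⟩
    rw [Set.range_eq_empty, Set.union_empty]
    exact h.mono (by omega) subset_rfl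
  | succ m ih =>
    intro P hP hne h z
    have h2 : 1 ≤ 2 ^ m := Nat.one_le_two_pow
    have h3 : 2 ^ (m + 1) * (T + 2) - 2 = 2 * (2 ^ m * (T + 2) - 2) + 2 := by
      have e1 : T + 2 ≤ 2 ^ m * (T + 2) := Nat.le_mul_of_pos_left _ h2
      have e2 : 2 ^ (m + 1) * (T + 2) = 2 * (2 ^ m * (T + 2)) := by ring
      omega
    rw [h3] at h
    obtain ⟨z₀, hz₀⟩ := ZEq.forth hS hS' hP hne h (z (Fin.last m))
    obtain ⟨z₁, hz₁⟩ := ih (hP.insert _) (Set.insert_nonempty _ _) hz₀ (fun i => z i.castSucc)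
    refine ⟨Fin.snoc z₁ z₀, hz₁.mono le_rfl ?_⟩
    rintro x (hx | ⟨i, rfl⟩)
    · exact Or.inl (Set.mem_insert_of_mem _ hx)
    · refine Fin.lastCases ?_ (fun i => ?_) i
      · left
        simp
      · right
        exact ⟨i, by simp⟩

/-- forth for `m` new points -/
theorem ZEq.forth_fin (hS : Succ S) (hS' : Succ S') (m : ℕ) {T : ℕ} {P : Set (Z × Z')} (hP : P.Finite) (hne : P.Nonempty)
    (h : ZEq S S' (2 ^ m * (T + 2)) P) (z : Fin m → Z) :
    ∃ z' : Fin m → Z', ZEq S S' T (P ∪ Set.range (fun i => (z i, z' i))) := by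
  exact forth_fin_aux hS hS' m hP hne (h.mono (Nat.sub_le _ _) subset_rfl) z

end CB
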