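import Pool.Agent.Work.MP_cb528c_lc.GoodDefs
import Pool.Agent.Work.MP_cb528c_lc.ZOrd
import Pool.Agent.Work.MP_cb528c_lc.Ef

set_option autoImplicit false
set_option linter.all false

/-!
# MP_cb528c_lc: the back and forth system between two GOOD structures (definitions)
-/

namespace CB

variable {M : Mach} {c0 : M.Cfg}

theorem Good.succ (G : Good M c0) : Succ G.S := ⟨G.lt_S, G.S_le⟩

/-- local agreement of `e` and `e'` up to radius `R`, with exact data paired by `P` -/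
structure Loc (G G' : Good M c0) (R : ℕ) (P : Set (G.Z × G'.Z)) (e : G.X) (e' : G'.X) : Prop where
  ex : ∀ i ≤ R + 1, (∃ f, G.dn^[i] f = e) ↔ ∃ f', G'.dn^[i] f' = e'
  st : ∀ i ≤ R + 1, ∀ f f', G.dn^[i] f = e → G'.dn^[i] f' = e' → G.st f = G'.st f'
  zf : ∀ i ≤ R + 1, ∀ f f', G.dn^[i] f = e → G'.dn^[i] f' = e' → ∀ j, (G.al j f = G.o ↔ G'.al j f' = G'.o)
  al : ∀ j, (G.al j e, G'.al j e') ∈ P
  nu : (G.nu e, G'.nu e') ∈ P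
  la : (G.la e, G'.la e') ∈ P
  bi : ∀ i ≤ R, ∀ f f', G.dn^[i] f = e → G'.dn^[i] f' = e' → G.Birth f →
    (G.ps f, G'.ps f') ∈ P ∧ (G.rh f, G'.rh f') ∈ P ∧ G.ty f = G'.ty f' ∧ G.sd f = G'.sd f'
  u0 : ∀ j : ℤ, |j| ≤ R → G.u0 ((G.sh ^ j) e) = G'.u0 ((G'.sh ^ j) e')
  u1 : ∀ j : ℤ, |j| ≤ R → G.u1 ((G.sh ^ j) e) = G'.u1 ((G'.sh ^ j) e')

/-- the back and forth system with radius `R` and order precision `T` -/
structure Sys (G G' : Good M c0) (R T : ℕ) (P : Set (G.Z × G'.Z)) (Q : Set (G.X × G'.X)) : Prop where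
  finP : P.Finite
  finQ : Q.Finite
  o_mem : (G.o, G'.o) ∈ P
  zeq : ZEq G.S G'.S T P
  og_mem : (G.og, G'.og) ∈ Q
  loc : ∀ p ∈ Q, Loc G G' R P p.1 p.2
  near : ∀ p ∈ Q, ∀ q ∈ Q, ∀ i ≤ R, ∀ j : ℤ, |j| ≤ R →
    (q.1 = (G.sh ^ j) (G.dn^[i] p.1) ↔ q.2 = (G'.sh ^ j) (G'.dn^[i] p.2))

/-- radius needed before a move in `X` -/
def rad (R : ℕ) : ℕ := 6 * R + 6

/-- precision needed before a move in `X` -/
def prec (k R T : ℕ) : ℕ := 2 ^ (k + 8) * (T + 40 * R + 100)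

/-- `e` is close to a member of `Q` -/
def CloseTo (G G' : Good M c0) (R : ℕ) (Q : Set (G.X × G'.X)) (e : G.X) : Prop :=
  ∃ p ∈ Q, ∃ i ≤ 2 * R + 2, ∃ j : ℤ, |j| ≤ 2 * R + 2 ∧
    (e = (G.sh ^ j) (G.dn^[i] p.1) ∨ p.1 = (G.sh ^ j) (G.dn^[i] e))

end CB
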