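import Pool.Agent.Work.MP_cb528c_lc.PtDefs
import Pool.Agent.Work.MP_cb528c_lc.SatPi
import Pool.Agent.Work.MP_cb528c_lc.HierComp

set_option autoImplicit false
set_option linter.all false

/-!
# MP_cb528c_lc, module HDec: the models of a Hanf sentence

* `sgn_closed`, `mem_sgn`: `sgn θ b y n ∈ Th M` iff `b ∈ Th M` and `θ i ∈ Th M ↔ y i = true` for `i < n`  (for a closed formula `φ`:
  `Fm.neg φ ∈ Th M ↔ φ ∉ Th M`, `mem_th_iff`).
* `th_eq_of_pt`: two models with the same point have the same theory (`EF.th` with `n = qr φ`).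
* `hanf_decides`: if `φ ∈ Th M`, `φ` closed, then for some `R` every model of `sgn θ b y R` satisfies `φ` (`ef` with `n = φ.qr`).
* `hanf_dec`: for computable `y` the theory of `M` is decidable: for closed `φ`: `φ ∈ Th M` iff for some `R` the formula
  `(sgn θ b y R) ∧ ¬ φ` has no model of arities `ar`: this is Sigma_1 (`sat_pi`, `Pg.not`, `Sg.compC`, `Sg.ex`), and
  `φ ∉ Th M` iff `φ` is not closed or `Fm.neg φ ∈ Th M`, also Sigma_1; a set which is Sigma_1 with its complement is decidable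
  (`re_of_sg_one`, `ComputablePred.computable_iff_re_compl_re`).
* `hanf_isolated`: if the point `y` of `M` is isolated in `P` then `Th M` is `FAx` (axiom `sgn θ b y n`); conversely if `Th M` is
  `FAx` by `ψ`, let `R` be as in `ef` for `n = ψ.qr`: every `z ∈ P` which agrees with `y` below `R` is the point of some `N` (`real`), `ψ ∈ Th N`,
  so `Th N = Th M` and `z = y`.
-/

namespace CB

variable {ar : List ℕ} {F b : Fm} {θ : ℕ → Fm} {P : Set (ℕ → Bool)}

private theorem closed_neg {φ : Fm} (h : φ.Closed) : (Fm.neg φ).Closed := h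

private theorem closed_and {φ ψ : Fm} (h : φ.Closed) (h' : ψ.Closed) : (Fm.and φ ψ).Closed := by
  unfold Fm.Closed at *
  change Fm.fv φ ++ Fm.fv ψ = []
  rw [h, h']
  rfl

theorem neg_mem_th {M : Mdl} {φ : Fm} (h : φ.Closed) : Fm.neg φ ∈ Th M ↔ φ ∉ Th M := by
  obtain ⟨a⟩ := M.ne
  rw [mem_th_iff (closed_neg h) (fun _ => a), mem_th_iff h (fun _ => a), sat_neg]

theorem and_mem_th {M : Mdl} {φ ψ : Fm} (h : φ.Closed) (h' : ψ.Closed) :
    Fm.and φ ψ ∈ Th M ↔ φ ∈ Th M ∧ ψ ∈ Th M := by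
  obtain ⟨a⟩ := M.ne
  rw [mem_th_iff (closed_and h h') (fun _ => a), mem_th_iff h (fun _ => a),
    mem_th_iff h' (fun _ => a), sat_and]

theorem sgn_closed (h : HanfP ar F P b θ) (y : ℕ → Bool) (n : ℕ) : (sgn θ b y n).Closed := by
  induction n with
  | zero => exact h.b_closed
  | succ n ih =>
    refine closed_and ?_ ih
    split_ifs
    · exact h.closed n
    · exact closed_neg (h.closed n)

theorem computable_sgn (h : HanfP ar F P b θ) {y : ℕ → Bool} (hy : Computable y) : Computable (sgn θ b y) := by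
  have h1 : Computable (fun n : ℕ => Nat.rec (motive := fun _ => Fm) b
      (fun n IH => Fm.and (cond (y n) (θ n) (Fm.neg (θ n))) IH) n) := by
    refine Computable.nat_rec (σ := Fm) (h := fun (_ : ℕ) (p : ℕ × Fm) =>
      Fm.and (cond (y p.1) (θ p.1) (Fm.neg (θ p.1))) p.2) Computable.id (Computable.const b) ?_
    have c1 : Computable (fun x : ℕ × ℕ × Fm => x.2.1) := Computable.fst.comp Computable.snd
    exact Fm.primrec_and.to_comp.comp
      (Computable.cond (hy.comp c1) (h.comp.comp c1) (Fm.primrec_neg.to_comp.comp (h.comp.comp c1)))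
      (Computable.snd.comp Computable.snd)
  refine h1.of_eq fun n => ?_
  induction n with
  | zero => rfl
  | succ n ih =>
    change Fm.and (cond (y n) (θ n) (Fm.neg (θ n))) _ = Fm.and (if y n = true then θ n else Fm.neg (θ n)) _
    rw [ih]
    cases y n <;> rfl

theorem mem_sgn (h : HanfP ar F P b θ) (y : ℕ → Bool) (n : ℕ) (M : Mdl) :
    sgn θ b y n ∈ Th M ↔ b ∈ Th M ∧ ∀ i < n, (θ i ∈ Th M ↔ y i = true) := by
  induction n with
  | zero =>
    change b ∈ Th M ↔ _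
    simp
  | succ n ih =>
    have h1 : (if y n = true then θ n else Fm.neg (θ n)).Closed := by
      split_ifs
      · exact h.closed n
      · exact closed_neg (h.closed n)
    have h2 : sgn θ b y (n + 1) = Fm.and (if y n = true then θ n else Fm.neg (θ n)) (sgn θ b y n) := rfl
    have h3 : ((if y n = true then θ n else Fm.neg (θ n)) ∈ Th M) ↔ (θ n ∈ Th M ↔ y n = true) := by
      by_cases hy : y n = true
      · rw [if_pos hy]
        exact ⟨fun h => ⟨fun _ => hy, fun _ => h⟩, fun h => h.2 hy⟩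
      · rw [if_neg hy, neg_mem_th (h.closed n)]
        exact ⟨fun h => ⟨fun k => absurd k h, fun k => absurd k hy⟩, fun h k => hy (h.1 k)⟩
    rw [h2, and_mem_th h1 (sgn_closed h y n), ih, h3]
    constructor
    · rintro ⟨h4, h5, h6⟩
      refine ⟨h5, fun i hi => ?_⟩
      rcases Nat.lt_succ_iff_lt_or_eq.1 hi with h7 | h7
      · exact h6 i h7
      · rw [h7]
        exact h4
    · rintro ⟨h4, h5⟩
      exact ⟨h5 n (Nat.lt_succ_self n), h4, fun i hi => h5 i (Nat.lt_succ_of_lt hi)⟩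

private theorem ef_th {M N : Mdl} {φ : Fm} (hφ : φ.Closed) (h : EF M N φ.qr ∅) :
    φ ∈ Th M ↔ φ ∈ Th N := by
  obtain ⟨a⟩ := M.ne
  obtain ⟨c⟩ := N.ne
  rw [mem_th_iff hφ (fun _ => a), mem_th_iff hφ (fun _ => c)]
  refine h.sat le_rfl fun i hi => ?_
  rw [hφ] at hi
  simp at hi

private theorem hanf_decides (h : HanfP ar F P b θ) {M : Mdl} (hM : M.Ok ar) (hb : b ∈ Th M)
    {y : ℕ → Bool} (hMy : ∀ n, (θ n ∈ Th M ↔ y n = true)) {φ : Fm} (hφ : φ ∈ Th M) :
    ∃ R, ∀ N : Mdl, N.Ok ar → sgn θ b y R ∈ Th N → φ ∈ Th N := by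
  obtain ⟨R, hR⟩ := h.ef φ.qr
  refine ⟨R, fun N hN hs => ?_⟩
  obtain ⟨h1, h2⟩ := (mem_sgn h y R N).1 hs
  exact (ef_th hφ.1 (hR M N hM hN hb h1 fun i hi => (hMy i).trans (h2 i hi).symm)).1 hφ

theorem th_eq_of_pt (h : HanfP ar F P b θ) {M N : Mdl} (hM : M.Ok ar) (hN : N.Ok ar) (h1 : b ∈ Th M) (h2 : b ∈ Th N)
    (h3 : ∀ n, (θ n ∈ Th M ↔ θ n ∈ Th N)) : Th M = Th N := by
  ext φ
  by_cases hφ : φ.Closed
  · obtain ⟨R, hR⟩ := h.ef φ.qr
    exact ef_th hφ (hR M N hM hN h1 h2 fun i _ => h3 i)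
  · exact ⟨fun k => absurd k.1 hφ, fun k => absurd k.1 hφ⟩

theorem hanf_dec (h : HanfP ar F P b θ) {M : Mdl} (hM : M.Ok ar) (hb : b ∈ Th M) {y : ℕ → Bool} (hy : Computable y)
    (hMy : ∀ n, (θ n ∈ Th M ↔ y n = true)) : ComputablePred (fun φ : Fm => φ ∈ Th M) := by
  classical
  have hQ := sat_pi ar
  have hf : Computable (fun x : Fm × ℕ => Fm.and (sgn θ b y x.2) (Fm.neg x.1)) :=
    Fm.primrec_and.to_comp.comp ((computable_sgn h hy).comp Computable.snd)
      (Fm.primrec_neg.to_comp.comp Computable.fst)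
  have h1 : Sg 1 (fun x : Fm × ℕ => ¬ ((Fm.and (sgn θ b y x.2) (Fm.neg x.1)).Closed ∧
      ∃ N : Mdl, N.Ok ar ∧ Fm.and (sgn θ b y x.2) (Fm.neg x.1) ∈ Th N)) :=
    Sg.compC (n := 0) hQ.not hf
  have h2 : Sg 1 (fun φ : Fm => ∃ R : ℕ, ¬ ((Fm.and (sgn θ b y R) (Fm.neg φ)).Closed ∧
      ∃ N : Mdl, N.Ok ar ∧ Fm.and (sgn θ b y R) (Fm.neg φ) ∈ Th N)) :=
    Sg.ex (n := 0) (p := fun (φ : Fm) (R : ℕ) => ¬ ((Fm.and (sgn θ b y R) (Fm.neg φ)).Closed ∧
      ∃ N : Mdl, N.Ok ar ∧ Fm.and (sgn θ b y R) (Fm.neg φ) ∈ Th N)) h1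
  have h3 : Sg 1 (fun φ : Fm => φ.Closed) := Sg.of_primrec Fm.primrec_closed (fun φ => by rw [decide_eq_true_iff]) 1
  have h4 : Sg 1 (fun φ : Fm => φ ∈ Th M) := by
    refine (h3.and h2).congr fun φ => ?_
    constructor
    · rintro ⟨hφ, R, hR⟩
      by_contra hcon
      apply hR
      have h5 : sgn θ b y R ∈ Th M := (mem_sgn h y R M).2 ⟨hb, fun i _ => hMy i⟩
      have h6 : Fm.and (sgn θ b y R) (Fm.neg φ) ∈ Th M :=
        (and_mem_th (sgn_closed h y R) (closed_neg hφ)).2 ⟨h5, (neg_mem_th hφ).2 hcon⟩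
      exact ⟨h6.1, M, hM, h6⟩
    · intro hφ
      obtain ⟨R, hR⟩ := hanf_decides h hM hb hMy hφ
      refine ⟨hφ.1, R, ?_⟩
      rintro ⟨_, N, hN, h7⟩
      obtain ⟨h8, h9⟩ := (and_mem_th (sgn_closed h y R) (closed_neg hφ.1)).1 h7
      exact (neg_mem_th hφ.1).1 h9 (hR N hN h8)
  have h5 : Sg 1 (fun φ : Fm => ¬ φ ∈ Th M) := by
    have h6 : Sg 1 (fun φ : Fm => ¬ φ.Closed) := 
      (Pg.of_primrec Fm.primrec_closed (fun φ => by rw [decide_eq_true_iff]) 1).not
    refine (h6.or (h4.comp Fm.primrec_neg)).congr fun φ => ?_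
    by_cases hφ : φ.Closed
    · rw [neg_mem_th hφ]
      exact ⟨fun k => k.resolve_left fun k' => k' hφ, Or.inr⟩
    · exact ⟨fun _ k => hφ k.1, fun _ => Or.inl hφ⟩
  exact ComputablePred.computable_iff_re_compl_re'.2 ⟨re_of_sg_one h4, re_of_sg_one h5⟩

theorem hanf_isolated (h : HanfP ar F P b θ) {M : Mdl} (hM : M.Ok ar) (hb : b ∈ Th M) {y : ℕ → Bool}
    (hMy : ∀ n, (θ n ∈ Th M ↔ y n = true)) :
    FAx ar (Th M) ↔ ∃ n, ∀ z ∈ P, restr z n = restr y n → z = y := by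
  have hrestr : ∀ (z : ℕ → Bool) (n : ℕ), restr z n = restr y n ↔ ∀ i < n, z i = y i := by
    intro z n
    unfold restr
    rw [List.map_inj_left]
    exact ⟨fun k i hi => k i (List.mem_range.2 hi), fun k i hi => k i (List.mem_range.1 hi)⟩
  constructor
  · rintro ⟨ψ, hψ, hax⟩
    obtain ⟨R, hR⟩ := hanf_decides h hM hb hMy hψ
    refine ⟨R, fun z hz he => ?_⟩
    rw [hrestr] at he
    obtain ⟨N, hN, hbN, hNz⟩ := h.real z hz
    have h1 : sgn θ b y R ∈ Th N := (mem_sgn h y R N).2 ⟨hbN, fun i hi => by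
      rw [hNz i, he i hi]⟩
    have h2 := hax N hN (hR N hN h1)
    funext n
    have h3 := hNz n
    rw [h2, hMy n] at h3
    cases h4 : z n <;> cases h5 : y n <;> simp_all
  · rintro ⟨n, hn⟩
    have h1 : sgn θ b y n ∈ Th M := (mem_sgn h y n M).2 ⟨hb, fun i _ => hMy i⟩
    refine ⟨sgn θ b y n, h1, fun N hN hs => ?_⟩
    obtain ⟨h2, h3⟩ := (mem_sgn h y n N).1 hs
    obtain ⟨_, z, hz, hzN⟩ := h.pt N hN h2
    have h4 : restr z n = restr y n := by
      rw [hrestr]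
      intro i hi
      have h5 := h3 i hi
      rw [hzN i] at h5
      cases h6 : z i <;> cases h7 : y i <;> simp_all
    have h8 := hn z hz h4
    refine th_eq_of_pt h hN hM h2 hb fun k => ?_
    rw [hzN k, h8, hMy k]

end CB
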