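import Pool.Agent.Work.MP_cb528c_lc.Syntax

set_option autoImplicit false
set_option linter.all false

/-!
# MP_cb528c_lc: Henkin diagrams

Instances are pairs `(ψ, e)`: a formula and a finite environment `e : List ℕ` (variable `i` denotes the constant
`asg e i`, default `0`).  `wit i ψ e` is the witnessing constant for `∃ x_i ψ` in the environment `e`; it is larger than
all entries of `e`.  `H : ℕ → Bool` gives the truth value of the instance with code `encode (ψ, e)`.
-/

namespace CB

/-- value of the variable `i` in the environment `e` -/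
def asg (e : List ℕ) (i : ℕ) : ℕ := e.getD i 0

/-- update of an environment -/
def upd (e : List ℕ) (i k : ℕ) : List ℕ := (e ++ List.replicate (i + 1 - e.length) 0).set i k

theorem asg_upd (e : List ℕ) (i k : ℕ) : asg (upd e i k) = Function.update (asg e) i k := by
  funext j
  unfold asg upd
  by_cases h : j = i
  · subst h
    rw [Function.update_self, List.getD_eq_getElem?_getD, List.getElem?_set_self (by
      simp only [List.length_append, List.length_replicate]; omega)]
    rfl
  · rw [Function.update_of_ne h, List.getD_eq_getElem?_getD, List.getElem?_set_ne (by omega),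
      List.getD_eq_getElem?_getD]
    by_cases h2 : j < e.length
    · rw [List.getElem?_append_left h2]
    · rw [List.getElem?_append_right (by omega), List.getElem?_eq_none (by omega : e.length ≤ j)]
      by_cases h3 : j - e.length < i + 1 - e.length
      · rw [List.getElem?_replicate_of_lt h3]; rfl
      · rw [List.getElem?_eq_none (by rw [List.length_replicate]; omega)]

/-- the witnessing constant -/
def wit (i : ℕ) (ψ : Fm) (e : List ℕ) : ℕ := Encodable.encode (i, ψ, e) + 1

theorem lt_encode_of_mem {e : List ℕ} {x : ℕ} (h : x ∈ e) : x < Encodable.encode e := by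
  induction e with
  | nil => simp at h
  | cons a l ih =>
    rw [Encodable.encode_list_cons]
    have h1 := Nat.left_le_pair (Encodable.encode a) (Encodable.encode l)
    have h2 := Nat.right_le_pair (Encodable.encode a) (Encodable.encode l)
    have h3 : Encodable.encode a = a := rfl
    rcases List.mem_cons.1 h with h | h
    · subst h; rw [h3] at h1; exact Nat.lt_succ_of_le h1
    · have := ih h; exact lt_of_lt_of_le this (by simpa using Nat.le_succ_of_le h2)

theorem asg_le_encode (e : List ℕ) (i : ℕ) : asg e i ≤ Encodable.encode e := by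
  unfold asg
  rw [List.getD_eq_getElem?_getD]
  by_cases h : i < e.length
  · rw [List.getElem?_eq_getElem h]
    exact (lt_encode_of_mem (List.getElem_mem h)).le
  · rw [List.getElem?_eq_none (by omega)]; exact Nat.zero_le _

/-- the witnessing constant is larger than all constants of the environment -/
theorem asg_lt_wit (i : ℕ) (ψ : Fm) (e : List ℕ) (j : ℕ) : asg e j < wit i ψ e := by
  unfold wit
  have h1 := asg_le_encode e j
  have h2 : Encodable.encode (i, ψ, e) = Nat.pair i (Nat.pair (Encodable.encode ψ) (Encodable.encode e)) := rfl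
  have h3 := Nat.right_le_pair i (Nat.pair (Encodable.encode ψ) (Encodable.encode e))
  have h4 := Nat.right_le_pair (Encodable.encode ψ) (Encodable.encode e)
  omega

theorem wit_inj {i i' : ℕ} {ψ ψ' : Fm} {e e' : List ℕ} (h : wit i ψ e = wit i' ψ' e') :
    i = i' ∧ ψ = ψ' ∧ e = e' := by
  unfold wit at h
  have := Encodable.encode_injective (Nat.succ_injective h)
  simpa using this

/-- the truth value of an instance in `H` -/
def ins (H : ℕ → Bool) (ψ : Fm) (e : List ℕ) : Bool := H (Encodable.encode (ψ, e))

/-- the instance with number `n` -/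
def insDec (n : ℕ) : Fm × List ℕ := (Fm.dec n.unpair.1, Denumerable.ofNat (List ℕ) n.unpair.2)

theorem encode_insDec (n : ℕ) : Encodable.encode (insDec n) = n := by
  unfold insDec
  change Nat.pair (Fm.enc (Fm.dec n.unpair.1)) (Encodable.encode (Denumerable.ofNat (List ℕ) n.unpair.2)) = n
  rw [Fm.enc_dec, Denumerable.encode_ofNat, Nat.pair_unpair]

theorem insDec_encode (ψ : Fm) (e : List ℕ) : insDec (Encodable.encode (ψ, e)) = (ψ, e) := by
  unfold insDec
  have : Encodable.encode (ψ, e) = Nat.pair (Fm.enc ψ) (Encodable.encode e) := rfl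
  rw [this, Nat.unpair_pair, Fm.dec_enc, Denumerable.ofNat_encode]

/-- equality of constants in `H` -/
def eqc (H : ℕ → Bool) (k l : ℕ) : Prop := ins H (Fm.eq 0 1) [k, l] = true

/-- Henkin diagrams (of structures with relations of the arities `ar`) -/
structure HD (ar : List ℕ) (H : ℕ → Bool) : Prop where
  neg : ∀ ψ e, ins H (Fm.neg ψ) e = !(ins H ψ e)
  and : ∀ ψ χ e, ins H (Fm.and ψ χ) e = (ins H ψ e && ins H χ e)
  wit : ∀ i ψ e, ins H (Fm.ex i ψ) e = true → ins H ψ (upd e i (wit i ψ e)) = true
  ex : ∀ i ψ e k, ins H ψ (upd e i k) = true → ins H (Fm.ex i ψ) e = true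
  eq : ∀ i j e, ins H (Fm.eq i j) e = ins H (Fm.eq 0 1) [asg e i, asg e j]
  refl : ∀ k, eqc H k k
  symm : ∀ k l, eqc H k l → eqc H l k
  trans : ∀ k l m, eqc H k l → eqc H l m → eqc H k m
  rel : ∀ r v e, ins H (Fm.rel r v) e = ins H (Fm.rel r (List.range v.length)) (v.map (asg e))
  congr : ∀ r (l l' : List ℕ), l.length = l'.length → (∀ i < l.length, eqc H (l.getD i 0) (l'.getD i 0)) →
    ins H (Fm.rel r (List.range l.length)) l = ins H (Fm.rel r (List.range l'.length)) l'
  ar : ∀ r v e, ins H (Fm.rel r v) e = true → ar[r]? = some v.length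

/-- the witness condition for the assignment `m` of the constants below `K` in the structure `M` -/
def WC (M : Mdl) (m : ℕ → M.C) (K : ℕ) : Prop :=
  ∀ i ψ e, wit i ψ e < K → Sat M (fun j => m (asg e j)) (Fm.ex i ψ) →
    Sat M (fun j => m (asg (upd e i (wit i ψ e)) j)) ψ

end CB
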