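import Pool.Agent.Work.MP_cb528c_lc.SigL

set_option autoImplicit false
set_option linter.all false

/-!
# MP_cb528c_lc, module HdEff: effective Henkin theorem

If the theory of `M` is decidable, there is a computable Henkin diagram with the same theory.
Proof: `sigL` from `exists_sigL`.  Define `H` greedily: `H n = decide (sigL (restr H n ++ [true]) ∈ Th M)`; as a function of the list of
the previous values this is computable (`Computable.nat_strong_rec`, or `Computable.nat_rec` building the list).
Invariant: `sigL (restr H n) ∈ Th M` for all `n`: if `m` witnesses `sigL l` then it extends (`wc_extend` from `l.length + 1`) to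
`m'` with all witness conditions, and `m'` witnesses `sigL (l ++ [b])` for `b` = the truth value of instance `l.length`
(the instance number `l.length` only involves constants `≤ l.length`).
Then `H` is a Henkin diagram: every clause of `HD` involves finitely many instances, choose `n` larger than all of them; the
witness `m` of `sigL (restr H n)`, extended by `wc_extend`, gives by `hd_of_wc` a Henkin diagram `H'` which agrees with
`H` below `n`.  For closed `φ`: `ins H φ [] = true ↔ φ ∈ Th M` in the same way (`mem_th_iff`).
-/

namespace CB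

private theorem asg_insDec_le' (j i : ℕ) : asg (insDec j).2 i ≤ j := by
  have h1 := asg_le_encode (insDec j).2 i
  have h2 : Encodable.encode (insDec j) =
      Nat.pair (Encodable.encode (insDec j).1) (Encodable.encode (insDec j).2) := rfl
  rw [encode_insDec] at h2
  have h3 := Nat.right_le_pair (Encodable.encode (insDec j).1) (Encodable.encode (insDec j).2)
  omega

private def LL (t : Fm → Bool) (sigL : List Bool → Fm) (n : ℕ) : List Bool :=
  Nat.rec [] (fun _ IH => IH ++ [t (sigL (IH ++ [true]))]) n

private theorem LL_succ (t : Fm → Bool) (sigL : List Bool → Fm) (n : ℕ) :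
    LL t sigL (n + 1) = LL t sigL n ++ [t (sigL (LL t sigL n ++ [true]))] := rfl

private theorem LL_length (t : Fm → Bool) (sigL : List Bool → Fm) (n : ℕ) :
    (LL t sigL n).length = n := by
  induction n with
  | zero => rfl
  | succ n ih => rw [LL_succ, List.length_append, ih]; rfl

private theorem LL_getD (t : Fm → Bool) (sigL : List Bool → Fm) (n j : ℕ) (h : j < n) :
    (LL t sigL n).getD j false = t (sigL (LL t sigL j ++ [true])) := by
  induction n with
  | zero => omega
  | succ n ih =>
    rw [LL_succ]
    by_cases hj : j < n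
    · rw [List.getD_append _ _ _ _ (by rw [LL_length]; exact hj), ih hj]
    · have : j = n := by omega
      subst this
      rw [List.getD_append_right _ _ _ _ (by rw [LL_length]), LL_length]
      simp

theorem hd_eff {ar : List ℕ} {M : Mdl} (hM : M.Ok ar) (hd : ComputablePred (fun φ : Fm => φ ∈ Th M)) :
    ∃ H : ℕ → Bool, Computable H ∧ HD ar H ∧ ∀ φ : Fm, φ.Closed → (ins H φ [] = true ↔ φ ∈ Th M) := by
  classical
  obtain ⟨sigL, hpr, hcl, hsig⟩ := exists_sigL
  obtain ⟨t, ht, htt⟩ : ∃ t : Fm → Bool, Computable t ∧ ∀ φ, t φ = true ↔ φ ∈ Th M := by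
    obtain ⟨hdec, hc⟩ := hd
    exact ⟨_, hc, fun φ => by simp⟩
  have hstep : Computable (fun l : List Bool => t (sigL (l ++ [true]))) :=
    ht.comp (hpr.to_comp.comp (Computable.list_append.comp Computable.id (Computable.const _)))
  have hLc : Computable (LL t sigL) := by
    unfold LL
    refine Computable.nat_rec (f := fun n : ℕ => n) (g := fun _ => ([] : List Bool))
      (h := fun _ p => p.2 ++ [t (sigL (p.2 ++ [true]))]) Computable.id (Computable.const _) ?_
    have h1 : Computable (fun p : ℕ × ℕ × List Bool => p.2.2) :=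
      Computable.snd.comp Computable.snd
    have h2 : Computable (fun p : ℕ × ℕ × List Bool =>
        [t (sigL (p.2.2 ++ [true]))]) :=
      Computable.list_cons.comp (hstep.comp h1) (Computable.const [])
    exact (Computable.list_append.comp h1 h2).to₂
  have hext : ∀ l : List Bool, sigL l ∈ Th M → ∃ b : Bool, sigL (l ++ [b]) ∈ Th M := by
    intro l hl
    obtain ⟨m, hm1, hm2⟩ := (hsig M l).1 hl
    obtain ⟨m', hm'1, hm'2⟩ := wc_extend m (l.length + 1) hm1
    refine ⟨decide (Sat M (fun i => m' (asg (insDec l.length).2 i)) (insDec l.length).1), ?_⟩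
    rw [hsig]
    refine ⟨m', hm'2 _, ?_⟩
    intro j hj
    rw [List.length_append, List.length_singleton] at hj
    by_cases hj2 : j < l.length
    · rw [List.getD_append _ _ _ _ hj2, hm2 j hj2]
      have : (fun i => m' (asg (insDec j).2 i)) = fun i => m (asg (insDec j).2 i) := by
        funext i
        apply hm'1
        have := asg_insDec_le' j i
        omega
      rw [this]
    · have : j = l.length := by omega
      subst this
      rw [List.getD_append_right _ _ _ _ le_rfl]
      simp
  have hinv : ∀ n, sigL (LL t sigL n) ∈ Th M := by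
    intro n
    induction n with
    | zero =>
      rw [hsig]
      obtain ⟨a0⟩ := M.ne
      refine ⟨fun _ => a0, ?_, ?_⟩
      · intro i ψ e hw
        exfalso
        have : wit i ψ e < 1 := hw
        unfold wit at this
        omega
      · intro j hj
        exact absurd hj (Nat.not_lt_zero _)
    | succ n ih =>
      rw [LL_succ]
      cases hb : t (sigL (LL t sigL n ++ [true]))
      · obtain ⟨b, hb2⟩ := hext _ ih
        cases b
        · exact hb2
        · rw [(htt _).2 hb2] at hb
          exact absurd hb (by simp)
      · exact (htt _).1 hb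
  set H : ℕ → Bool := fun n => t (sigL (LL t sigL n ++ [true])) with hH
  have happ : ∀ N, ∃ H' : ℕ → Bool, HD ar H' ∧
      (∀ ψ e, Encodable.encode (ψ, e) < N → ins H ψ e = ins H' ψ e) ∧
      ∀ φ : Fm, φ.Closed → (ins H' φ [] = true ↔ φ ∈ Th M) := by
    intro N
    obtain ⟨m, hm1, hm2⟩ := (hsig M _).1 (hinv N)
    obtain ⟨m', hm'1, hm'2⟩ := wc_extend m _ hm1
    obtain ⟨H', hH'1, hH'2⟩ := hd_of_wc hM m' hm'2
    refine ⟨H', hH'1, ?_, ?_⟩
    · intro ψ e hN
      rw [Bool.eq_iff_iff, hH'2]
      have h1 := hm2 (Encodable.encode (ψ, e)) (by rw [LL_length]; exact hN)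
      rw [LL_getD _ _ _ _ hN, insDec_encode] at h1
      have h2 : (fun i => m' (asg e i)) = fun i => m (asg e i) := by
        funext i
        apply hm'1
        rw [LL_length]
        have h3 := asg_le_encode e i
        have h4 : Encodable.encode (ψ, e) =
          Nat.pair (Encodable.encode ψ) (Encodable.encode e) := rfl
        have h5 := Nat.right_le_pair (Encodable.encode ψ) (Encodable.encode e)
        omega
      rw [h2]
      exact h1
    · intro φ hφ
      rw [hH'2, mem_th_iff hφ]
  refine ⟨H, hstep.comp hLc, ?_, ?_⟩
  · constructor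
    · intro ψ e
      obtain ⟨H', h1, h2, -⟩ := happ (Encodable.encode (Fm.neg ψ, e) +
        Encodable.encode (ψ, e) + 1)
      rw [h2 _ _ (by omega), h2 _ _ (by omega)]
      exact h1.neg ψ e
    · intro ψ χ e
      obtain ⟨H', h1, h2, -⟩ := happ (Encodable.encode (Fm.and ψ χ, e) +
        Encodable.encode (ψ, e) + Encodable.encode (χ, e) + 1)
      rw [h2 _ _ (by omega), h2 _ _ (by omega), h2 _ _ (by omega)]
      exact h1.and ψ χ e
    · intro i ψ e
      obtain ⟨H', h1, h2, -⟩ := happ (Encodable.encode (Fm.ex i ψ, e) +
        Encodable.encode (ψ, upd e i (wit i ψ e)) + 1)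
      rw [h2 _ _ (by omega), h2 _ _ (by omega)]
      exact h1.wit i ψ e
    · intro i ψ e k
      obtain ⟨H', h1, h2, -⟩ := happ (Encodable.encode (Fm.ex i ψ, e) +
        Encodable.encode (ψ, upd e i k) + 1)
      rw [h2 _ _ (by omega), h2 _ _ (by omega)]
      exact h1.ex i ψ e k
    · intro i j e
      obtain ⟨H', h1, h2, -⟩ := happ (Encodable.encode (Fm.eq i j, e) +
        Encodable.encode (Fm.eq 0 1, [asg e i, asg e j]) + 1)
      rw [h2 _ _ (by omega), h2 _ _ (by omega)]
      exact h1.eq i j e
    · intro k
      unfold eqc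
      obtain ⟨H', h1, h2, -⟩ := happ (Encodable.encode (Fm.eq 0 1, [k, k]) + 1)
      rw [h2 _ _ (by omega)]
      exact h1.refl k
    · intro k l
      unfold eqc
      obtain ⟨H', h1, h2, -⟩ := happ (Encodable.encode (Fm.eq 0 1, [k, l]) +
        Encodable.encode (Fm.eq 0 1, [l, k]) + 1)
      rw [h2 _ _ (by omega), h2 _ _ (by omega)]
      exact h1.symm k l
    · intro k l m
      unfold eqc
      obtain ⟨H', h1, h2, -⟩ := happ (Encodable.encode (Fm.eq 0 1, [k, l]) +
        Encodable.encode (Fm.eq 0 1, [l, m]) + Encodable.encode (Fm.eq 0 1, [k, m]) + 1)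
      rw [h2 _ _ (by omega), h2 _ _ (by omega), h2 _ _ (by omega)]
      exact h1.trans k l m
    · intro r v e
      obtain ⟨H', h1, h2, -⟩ := happ (Encodable.encode (Fm.rel r v, e) +
        Encodable.encode (Fm.rel r (List.range v.length), v.map (asg e)) + 1)
      rw [h2 _ _ (by omega), h2 _ _ (by omega)]
      exact h1.rel r v e
    · intro r l l' hll
      unfold eqc
      obtain ⟨H', h1, h2, -⟩ := happ (Encodable.encode (Fm.rel r (List.range l.length), l) +
        Encodable.encode (Fm.rel r (List.range l'.length), l') +
        (∑ i ∈ Finset.range l.length,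
          Encodable.encode (Fm.eq 0 1, [l.getD i 0, l'.getD i 0])) + 1)
      rw [h2 _ _ (by omega), h2 _ _ (by omega)]
      intro hi
      refine h1.congr r l l' hll ?_
      intro i hil
      unfold eqc
      have h3 := Finset.single_le_sum (f := fun i =>
        Encodable.encode (Fm.eq 0 1, [l.getD i 0, l'.getD i 0]))
        (fun _ _ => Nat.zero_le _) (Finset.mem_range.2 hil)
      change Encodable.encode (Fm.eq 0 1, [l.getD i 0, l'.getD i 0]) ≤ _ at h3
      rw [← h2 _ _ (by omega)]
      exact hi i hil
    · intro r v e
      obtain ⟨H', h1, h2, -⟩ := happ (Encodable.encode (Fm.rel r v, e) + 1)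
      rw [h2 _ _ (by omega)]
      exact h1.ar r v e
  · intro φ hφ
    obtain ⟨H', -, h2, h3⟩ := happ (Encodable.encode (φ, ([] : List ℕ)) + 1)
    rw [h2 _ _ (by omega)]
    exact h3 φ hφ

end CB
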