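import Pool.Agent.Work.MP_cb528c_lc.HdDefs

set_option autoImplicit false
set_option linter.all false

/-!
# MP_cb528c_lc, module HdMdl: the structure of a Henkin diagram

Carrier: `Quotient` of `ℕ` by `eqc H` (`refl`, `symm`, `trans`), `m k = [k]` (surjective).
`R r l := ins H (rel r (List.range l.length)) (l.map Quotient.out) = true`; independent of the representatives by `congr`.
Truth lemma by induction on `ψ` for all `e`; for `ex` use `asg_upd` (the assignment `fun j => m (asg (upd e i k) j)` is the
update of `fun j => m (asg e j)` at `i` with `m k`), `wit` and `ex`.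
-/

namespace CB

private theorem upd_asg {α : Type} (m : ℕ → α) (e : List ℕ) (i k : ℕ) :
    (fun j => m (asg (upd e i k) j)) = Function.update (fun j => m (asg e j)) i (m k) := by
  funext j
  rw [asg_upd]
  by_cases h : j = i
  · subst h; simp
  · rw [Function.update_of_ne h, Function.update_of_ne h]

theorem mdl_of_hd {ar : List ℕ} {H : ℕ → Bool} (h : HD ar H) :
    ∃ (M : Mdl) (m : ℕ → M.C), M.Ok ar ∧ Function.Surjective m ∧ (∀ k l, m k = m l ↔ eqc H k l) ∧
      ∀ ψ e, Sat M (fun i => m (asg e i)) ψ ↔ ins H ψ e = true := by
  let S : Setoid ℕ := ⟨eqc H, h.refl, fun h1 => h.symm _ _ h1, fun h1 h2 => h.trans _ _ _ h1 h2⟩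
  let M : Mdl :=
    { C := Quotient S
      ne := ⟨Quotient.mk S 0⟩
      R := fun r l => ins H (Fm.rel r (List.range l.length)) (l.map Quotient.out) = true }
  let m : ℕ → M.C := fun k => Quotient.mk S k
  have hm : ∀ k l, m k = m l ↔ eqc H k l := fun k l => Quotient.eq (r := S)
  have hsurj : Function.Surjective m := fun a => Quotient.exists_rep a
  have hout : ∀ k, eqc H (Quotient.out (m k)) k := fun k => Quotient.mk_out (s := S) k
  refine ⟨M, m, ?_, hsurj, hm, ?_⟩
  · intro r l hl
    have := h.ar r _ _ hl
    rwa [List.length_range] at this
  · intro ψ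
    induction ψ with
    | rel r v =>
      intro e
      rw [sat_rel, h.rel r v e]
      change ins H (Fm.rel r (List.range (v.map (fun i => m (asg e i))).length))
        ((v.map (fun i => m (asg e i))).map Quotient.out) = true ↔ _
      have hc := h.congr r ((v.map (fun i => m (asg e i))).map Quotient.out) (v.map (asg e))
        (by simp) (by
          intro i hi
          have hi' : i < v.length := by simpa using hi
          rw [List.getD_eq_getElem?_getD, List.getD_eq_getElem?_getD, List.getElem?_eq_getElem hi,
            List.getElem?_eq_getElem (by simpa using hi')]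
          simp only [Option.getD_some, List.getElem_map]
          exact hout _)
      simp only [List.length_map] at hc ⊢
      rw [hc]
    | eq i j =>
      intro e
      rw [sat_eq, h.eq i j e, hm]
      rfl
    | neg φ ih =>
      intro e
      rw [sat_neg, ih, h.neg]
      simp
    | and φ ψ ih1 ih2 =>
      intro e
      rw [sat_and, ih1, ih2, h.and]
      simp
    | ex i φ ih =>
      intro e
      rw [sat_ex]
      constructor
      · rintro ⟨a, ha⟩
        obtain ⟨k, rfl⟩ := hsurj a
        refine h.ex i φ e k ?_
        rw [← ih, upd_asg]
        exact ha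
      · intro h1
        have h2 := h.wit i φ e h1
        rw [← ih, upd_asg] at h2
        exact ⟨_, h2⟩

end CB
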