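import Mathlib

set_option autoImplicit false
set_option linter.all false

/-!
# MP_cb528c_lc: the arithmetical hierarchy over primitive recursive matrices

`HiN true n` = Sigma^0_n, `HiN false n` = Pi^0_n, for predicates on `ℕ` (level 0 = primitive recursive).
-/

namespace CB

/-- `HiN true n p`: `p` is Sigma^0_n, `HiN false n p`: `p` is Pi^0_n (level `0`: primitive recursive) -/
def HiN : Bool → ℕ → (ℕ → Prop) → Prop
  | _, 0, p => ∃ f : ℕ → Bool, Primrec f ∧ ∀ x, p x ↔ f x = true
  | true, n + 1, p => ∃ q, HiN false n q ∧ ∀ x, p x ↔ ∃ k, q (Nat.pair x k)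
  | false, n + 1, p => ∃ q, HiN true n q ∧ ∀ x, p x ↔ ∀ k, q (Nat.pair x k)

/-- Sigma^0_n predicates on a `Primcodable` type -/
def Sg {α : Type} [Primcodable α] (n : ℕ) (p : α → Prop) : Prop :=
  ∃ q : ℕ → Prop, HiN true n q ∧ ∀ a, p a ↔ q (Encodable.encode a)

/-- Pi^0_n predicates on a `Primcodable` type -/
def Pg {α : Type} [Primcodable α] (n : ℕ) (p : α → Prop) : Prop :=
  ∃ q : ℕ → Prop, HiN false n q ∧ ∀ a, p a ↔ q (Encodable.encode a)

end CB
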