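import Pool.Agent.Work.MP_cb528c_lc.Hier

set_option autoImplicit false
set_option linter.all false

/-!
# MP_cb528c_lc, module HierApi: closure properties of the hierarchy `Sg n`, `Pg n`

Everything is by induction on `n` for `HiN` on `ℕ` first (closure under primitive recursive substitution: if
`HiN b n p` and `f : ℕ → ℕ` primitive recursive then `HiN b n (fun x => p (f x))`, with `Nat.pair`, `Nat.unpair` to merge
quantifiers of the same kind), and then transfer to `Primcodable` types by `encode`/`decode`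
(`f : α → β` primitive recursive is `fun n => (decode n).map f` on codes; a junk code may be mapped to anything).
The lemmas `Sg.ex`, `Pg.all`: `∃ b : β` is `∃ k : ℕ, ∃ b, decode k = some b ∧ ...`, i.e. `(decode k).casesOn False ..`.
-/

namespace CB

/-! ### predicates on `ℕ` -/

private theorem HiN.congr {b : Bool} {n : ℕ} {p q : ℕ → Prop} (h : HiN b n p) (e : ∀ x, p x ↔ q x) :
    HiN b n q := by
  have : p = q := funext fun x => propext (e x)
  rwa [this] at h

private theorem HiN.comp {b : Bool} {n : ℕ} {p : ℕ → Prop} (h : HiN b n p) {f : ℕ → ℕ}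
    (hf : Primrec f) : HiN b n (fun x => p (f x)) := by
  induction n generalizing b p f with
  | zero =>
    have h0 : ∀ b, HiN b 0 p → HiN b 0 (fun x => p (f x)) := by
      intro b h
      have h' : ∃ g : ℕ → Bool, Primrec g ∧ ∀ x, p x ↔ g x = true := by
        cases b <;> exact h
      obtain ⟨g, hg, hp⟩ := h'
      have h2 : ∃ g : ℕ → Bool, Primrec g ∧ ∀ x, p (f x) ↔ g x = true :=
        ⟨fun x => g (f x), hg.comp hf, fun x => hp (f x)⟩
      cases b <;> exact h2
    exact h0 b h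
  | succ n ih =>
    have hpr : Primrec (fun m : ℕ => Nat.pair (f m.unpair.1) m.unpair.2) :=
      Primrec₂.natPair.comp (hf.comp (Primrec.fst.comp Primrec.unpair))
        (Primrec.snd.comp Primrec.unpair)
    cases b
    · obtain ⟨q, hq, hp⟩ := h
      refine ⟨_, ih hq hpr, fun x => ?_⟩
      refine (hp _).trans ?_
      refine forall_congr' fun k => ?_
      simp only [Nat.unpair_pair]
    · obtain ⟨q, hq, hp⟩ := h
      refine ⟨_, ih hq hpr, fun x => ?_⟩
      refine (hp _).trans ?_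
      refine exists_congr fun k => ?_
      simp only [Nat.unpair_pair]

private theorem HiN.not {b : Bool} {n : ℕ} {p : ℕ → Prop} (h : HiN b n p) :
    HiN (!b) n (fun x => ¬ p x) := by
  induction n generalizing b p with
  | zero =>
    have h' : ∃ g : ℕ → Bool, Primrec g ∧ ∀ x, p x ↔ g x = true := by
      cases b <;> exact h
    obtain ⟨g, hg, hp⟩ := h'
    have h2 : ∃ g : ℕ → Bool, Primrec g ∧ ∀ x, (¬ p x) ↔ g x = true := by
      refine ⟨fun x => !(g x), Primrec.not.comp hg, fun x => ?_⟩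
      refine (not_congr (hp x)).trans ?_
      rw [Bool.not_eq_true, Bool.not_eq_true']
    cases b <;> exact h2
  | succ n ih =>
    cases b
    · obtain ⟨q, hq, hp⟩ := h
      refine ⟨_, ih hq, fun x => ?_⟩
      exact (not_congr (hp x)).trans not_forall
    · obtain ⟨q, hq, hp⟩ := h
      refine ⟨_, ih hq, fun x => ?_⟩
      exact (not_congr (hp x)).trans not_exists

private theorem HiN.of_primrec {p : ℕ → Prop} {g : ℕ → Bool} (hg : Primrec g)
    (hp : ∀ x, p x ↔ g x = true) (b : Bool) (n : ℕ) : HiN b n p := by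
  induction n generalizing b p g with
  | zero =>
    have h2 : ∃ g : ℕ → Bool, Primrec g ∧ ∀ x, p x ↔ g x = true := ⟨g, hg, hp⟩
    cases b <;> exact h2
  | succ n ih =>
    have h3 : ∀ b, HiN b n (fun m => p m.unpair.1) := fun b =>
      ih (hg.comp (Primrec.fst.comp Primrec.unpair)) (fun x => hp _) b
    cases b
    · refine ⟨_, h3 true, fun x => ?_⟩
      simp only [Nat.unpair_pair]
      exact ⟨fun h _ => h, fun h => h 0⟩
    · refine ⟨_, h3 false, fun x => ?_⟩
      simp only [Nat.unpair_pair]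
      exact ⟨fun h => ⟨0, h⟩, fun ⟨_, h⟩ => h⟩

private theorem HiN.lift {b : Bool} {n : ℕ} {p : ℕ → Prop} (h : HiN b n p) : HiN (!b) (n + 1) p := by
  have h3 : HiN b n (fun m => p m.unpair.1) := h.comp (Primrec.fst.comp Primrec.unpair)
  cases b
  · refine ⟨_, h3, fun x => ?_⟩
    simp only [Nat.unpair_pair]
    exact ⟨fun h => ⟨0, h⟩, fun ⟨_, h⟩ => h⟩
  · refine ⟨_, h3, fun x => ?_⟩
    simp only [Nat.unpair_pair]
    exact ⟨fun h _ => h, fun h => h 0⟩

private theorem HiN.up {b : Bool} {n : ℕ} {p : ℕ → Prop} (h : HiN b n p) : HiN b (n + 1) p := by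
  induction n generalizing b p with
  | zero =>
    have h' : ∃ g : ℕ → Bool, Primrec g ∧ ∀ x, p x ↔ g x = true := by
      cases b <;> exact h
    obtain ⟨g, hg, hp⟩ := h'
    exact HiN.of_primrec hg hp b 1
  | succ n ih =>
    cases b
    · obtain ⟨q, hq, hp⟩ := h
      exact ⟨q, ih hq, hp⟩
    · obtain ⟨q, hq, hp⟩ := h
      exact ⟨q, ih hq, hp⟩

private theorem HiN.mono {b : Bool} {n m : ℕ} (hnm : n ≤ m) {p : ℕ → Prop} (h : HiN b n p) :
    HiN b m p := by
  induction hnm with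
  | refl => exact h
  | step _ ih => exact ih.up

private theorem HiN.and {b : Bool} {n : ℕ} {p q : ℕ → Prop} (hp : HiN b n p) (hq : HiN b n q) :
    HiN b n (fun x => p x ∧ q x) := by
  induction n generalizing b p q with
  | zero =>
    have hp' : ∃ g : ℕ → Bool, Primrec g ∧ ∀ x, p x ↔ g x = true := by
      cases b <;> exact hp
    have hq' : ∃ g : ℕ → Bool, Primrec g ∧ ∀ x, q x ↔ g x = true := by
      cases b <;> exact hq
    obtain ⟨g, hg, hp⟩ := hp'
    obtain ⟨g', hg', hq⟩ := hq'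
    have h2 : ∃ g : ℕ → Bool, Primrec g ∧ ∀ x, (p x ∧ q x) ↔ g x = true := by
      refine ⟨fun x => g x && g' x, Primrec.and.comp hg hg', fun x => ?_⟩
      refine (and_congr (hp x) (hq x)).trans ?_
      rw [Bool.and_eq_true]
    cases b <;> exact h2
  | succ n ih =>
    cases b
    · obtain ⟨p', hp', hp⟩ := hp
      obtain ⟨q', hq', hq⟩ := hq
      refine ⟨_, ih hp' hq', fun x => ?_⟩
      refine (and_congr (hp x) (hq x)).trans ?_
      exact ⟨fun h k => ⟨h.1 k, h.2 k⟩, fun h => ⟨fun k => (h k).1, fun k => (h k).2⟩⟩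
    · obtain ⟨p', hp', hp⟩ := hp
      obtain ⟨q', hq', hq⟩ := hq
      have e1 : Primrec (fun m : ℕ => Nat.pair m.unpair.1 m.unpair.2.unpair.1) :=
        Primrec₂.natPair.comp (Primrec.fst.comp Primrec.unpair)
          (Primrec.fst.comp (Primrec.unpair.comp (Primrec.snd.comp Primrec.unpair)))
      have e2 : Primrec (fun m : ℕ => Nat.pair m.unpair.1 m.unpair.2.unpair.2) :=
        Primrec₂.natPair.comp (Primrec.fst.comp Primrec.unpair)
          (Primrec.snd.comp (Primrec.unpair.comp (Primrec.snd.comp Primrec.unpair)))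
      refine ⟨_, ih (hp'.comp e1) (hq'.comp e2), fun x => ?_⟩
      refine (and_congr (hp x) (hq x)).trans ?_
      constructor
      · rintro ⟨⟨k, hk⟩, l, hl⟩
        refine ⟨Nat.pair k l, ?_⟩
        simp only [Nat.unpair_pair]
        exact ⟨hk, hl⟩
      · rintro ⟨k, h1, h2⟩
        simp only [Nat.unpair_pair] at h1 h2
        exact ⟨⟨_, h1⟩, _, h2⟩

private theorem HiN.or {b : Bool} {n : ℕ} {p q : ℕ → Prop} (hp : HiN b n p) (hq : HiN b n q) :
    HiN b n (fun x => p x ∨ q x) := by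
  have h := (HiN.and hp.not hq.not).not
  rw [Bool.not_not] at h
  refine h.congr fun x => ?_
  tauto

private theorem HiN.ex {n : ℕ} {p : ℕ → Prop} (h : HiN true (n + 1) p) :
    HiN true (n + 1) (fun x => ∃ k, p (Nat.pair x k)) := by
  obtain ⟨q, hq, hp⟩ := h
  have e1 : Primrec (fun m : ℕ =>
      Nat.pair (Nat.pair m.unpair.1 m.unpair.2.unpair.1) m.unpair.2.unpair.2) :=
    Primrec₂.natPair.comp (Primrec₂.natPair.comp (Primrec.fst.comp Primrec.unpair)
      (Primrec.fst.comp (Primrec.unpair.comp (Primrec.snd.comp Primrec.unpair))))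
      (Primrec.snd.comp (Primrec.unpair.comp (Primrec.snd.comp Primrec.unpair)))
  refine ⟨_, hq.comp e1, fun x => ?_⟩
  constructor
  · rintro ⟨k, hk⟩
    obtain ⟨l, hl⟩ := (hp _).1 hk
    refine ⟨Nat.pair k l, ?_⟩
    simp only [Nat.unpair_pair]
    exact hl
  · rintro ⟨j, hj⟩
    simp only [Nat.unpair_pair] at hj
    exact ⟨j.unpair.1, (hp _).2 ⟨_, hj⟩⟩

/-! ### predicates on `Primcodable` types -/

variable {α β γ : Type} [Primcodable α] [Primcodable β] [Primcodable γ]

theorem Sg.congr {n : ℕ} {p q : α → Prop} (h : Sg n p) (e : ∀ a, p a ↔ q a) : Sg n q := by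
  obtain ⟨r, h1, h2⟩ := h
  exact ⟨r, h1, fun a => (e a).symm.trans (h2 a)⟩

theorem Pg.congr {n : ℕ} {p q : α → Prop} (h : Pg n p) (e : ∀ a, p a ↔ q a) : Pg n q := by
  obtain ⟨r, h1, h2⟩ := h
  exact ⟨r, h1, fun a => (e a).symm.trans (h2 a)⟩

private theorem code_fun {f : α → β} (hf : Primrec f) : ∃ g : ℕ → ℕ, Primrec g ∧
    ∀ a, g (Encodable.encode a) = Encodable.encode (f a) := by
  refine ⟨fun n => (Encodable.encode ((Encodable.decode (α := α) n).map f)).pred,
    Primrec.pred.comp (Primrec.nat_iff.2 hf), fun a => ?_⟩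
  simp

theorem Sg.comp {n : ℕ} {p : β → Prop} (h : Sg n p) {f : α → β} (hf : Primrec f) :
    Sg n (fun a => p (f a)) := by
  obtain ⟨q, hq, hp⟩ := h
  obtain ⟨g, hg, hgf⟩ := code_fun hf
  refine ⟨_, hq.comp hg, fun a => ?_⟩
  refine (hp _).trans ?_
  simp only [hgf]

theorem Pg.comp {n : ℕ} {p : β → Prop} (h : Pg n p) {f : α → β} (hf : Primrec f) :
    Pg n (fun a => p (f a)) := by
  obtain ⟨q, hq, hp⟩ := h
  obtain ⟨g, hg, hgf⟩ := code_fun hf
  refine ⟨_, hq.comp hg, fun a => ?_⟩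
  refine (hp _).trans ?_
  simp only [hgf]

theorem Sg.not {n : ℕ} {p : α → Prop} (h : Sg n p) : Pg n (fun a => ¬ p a) := by
  obtain ⟨q, hq, hp⟩ := h
  exact ⟨_, hq.not, fun a => not_congr (hp a)⟩

theorem Pg.not {n : ℕ} {p : α → Prop} (h : Pg n p) : Sg n (fun a => ¬ p a) := by
  obtain ⟨q, hq, hp⟩ := h
  exact ⟨_, hq.not, fun a => not_congr (hp a)⟩

private theorem prim_one : Primrec (fun m : ℕ => decide (m = 1)) := by
  have h := (Primrec.eq (α := ℕ)).comp Primrec.id (Primrec.const 1)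
  exact h.decide

private theorem encode_bool_iff (b : Bool) : b = true ↔ decide (Encodable.encode b = 1) = true := by
  cases b <;> simp

/-- primitive recursive predicates belong to all levels -/
theorem Sg.of_primrec {p : α → Prop} {f : α → Bool} (hf : Primrec f) (h : ∀ a, p a ↔ f a = true) (n : ℕ) :
    Sg n p := by
  have h1 : Sg n (fun b : Bool => b = true) :=
    ⟨_, HiN.of_primrec prim_one (fun x => Iff.rfl) true n, encode_bool_iff⟩
  exact (h1.comp hf).congr fun a => (h a).symm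

theorem Pg.of_primrec {p : α → Prop} {f : α → Bool} (hf : Primrec f) (h : ∀ a, p a ↔ f a = true) (n : ℕ) :
    Pg n p := by
  have h1 : Pg n (fun b : Bool => b = true) :=
    ⟨_, HiN.of_primrec prim_one (fun x => Iff.rfl) false n, encode_bool_iff⟩
  exact (h1.comp hf).congr fun a => (h a).symm

theorem Sg.of_pg {n : ℕ} {p : α → Prop} (h : Pg n p) : Sg (n + 1) p := by
  obtain ⟨q, hq, hp⟩ := h
  exact ⟨q, hq.lift, hp⟩

theorem Pg.of_sg {n : ℕ} {p : α → Prop} (h : Sg n p) : Pg (n + 1) p := by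
  obtain ⟨q, hq, hp⟩ := h
  exact ⟨q, hq.lift, hp⟩

theorem Sg.mono {n m : ℕ} (hnm : n ≤ m) {p : α → Prop} (h : Sg n p) : Sg m p := by
  obtain ⟨q, hq, hp⟩ := h
  exact ⟨q, hq.mono hnm, hp⟩

theorem Pg.mono {n m : ℕ} (hnm : n ≤ m) {p : α → Prop} (h : Pg n p) : Pg m p := by
  obtain ⟨q, hq, hp⟩ := h
  exact ⟨q, hq.mono hnm, hp⟩

theorem Sg.and {n : ℕ} {p q : α → Prop} (hp : Sg n p) (hq : Sg n q) : Sg n (fun a => p a ∧ q a) := by
  obtain ⟨p', hp', hp⟩ := hp
  obtain ⟨q', hq', hq⟩ := hq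
  exact ⟨_, hp'.and hq', fun a => and_congr (hp a) (hq a)⟩

theorem Pg.and {n : ℕ} {p q : α → Prop} (hp : Pg n p) (hq : Pg n q) : Pg n (fun a => p a ∧ q a) := by
  obtain ⟨p', hp', hp⟩ := hp
  obtain ⟨q', hq', hq⟩ := hq
  exact ⟨_, hp'.and hq', fun a => and_congr (hp a) (hq a)⟩

theorem Sg.or {n : ℕ} {p q : α → Prop} (hp : Sg n p) (hq : Sg n q) : Sg n (fun a => p a ∨ q a) := by
  obtain ⟨p', hp', hp⟩ := hp
  obtain ⟨q', hq', hq⟩ := hq
  exact ⟨_, hp'.or hq', fun a => or_congr (hp a) (hq a)⟩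

theorem Pg.or {n : ℕ} {p q : α → Prop} (hp : Pg n p) (hq : Pg n q) : Pg n (fun a => p a ∨ q a) := by
  obtain ⟨p', hp', hp⟩ := hp
  obtain ⟨q', hq', hq⟩ := hq
  exact ⟨_, hp'.or hq', fun a => or_congr (hp a) (hq a)⟩

theorem Sg.imp {n : ℕ} {p q : α → Prop} (hp : Pg n p) (hq : Sg n q) : Sg n (fun a => p a → q a) :=
  (Sg.or hp.not hq).congr fun _ => imp_iff_not_or.symm

theorem Pg.imp {n : ℕ} {p q : α → Prop} (hp : Sg n p) (hq : Pg n q) : Pg n (fun a => p a → q a) :=
  (Pg.or hp.not hq).congr fun _ => imp_iff_not_or.symm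

/-- existential quantifiers are absorbed -/
theorem Sg.ex {n : ℕ} {p : α → β → Prop} (h : Sg (n + 1) (fun x : α × β => p x.1 x.2)) :
    Sg (n + 1) (fun a => ∃ b, p a b) := by
  obtain ⟨q, hq, hp⟩ := h
  have hprim : Primrec (fun m : ℕ =>
      decide (Encodable.encode (Encodable.decode (α := β) m.unpair.2) = m.unpair.2 + 1)) := by
    have h1 : Primrec (fun n : ℕ => Encodable.encode (Encodable.decode (α := β) n)) :=
      Primrec.nat_iff.2 (Primcodable.prim β)
    have h2 : Primrec (fun m : ℕ => m.unpair.2) := Primrec.snd.comp Primrec.unpair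
    exact ((Primrec.eq (α := ℕ)).comp (h1.comp h2) (Primrec.succ.comp h2)).decide
  have hgood : HiN true (n + 1) (fun m : ℕ =>
      Encodable.encode (Encodable.decode (α := β) m.unpair.2) = m.unpair.2 + 1) :=
    HiN.of_primrec hprim (fun x => by rw [decide_eq_true_iff]) true (n + 1)
  refine ⟨_, (hgood.and hq).ex, fun a => ?_⟩
  constructor
  · rintro ⟨b, hb⟩
    refine ⟨Encodable.encode b, ?_, (hp (a, b)).1 hb⟩
    simp
  · rintro ⟨k, h1, h2⟩
    simp only [Nat.unpair_pair] at h1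
    cases hd : Encodable.decode (α := β) k with
    | none => rw [hd] at h1; simp at h1
    | some b =>
      rw [hd, Encodable.encode_some] at h1
      have h3 : Encodable.encode b = k := Nat.succ_injective h1
      refine ⟨b, (hp (a, b)).2 ?_⟩
      show q (Nat.pair (Encodable.encode a) (Encodable.encode b))
      rw [h3]
      exact h2

theorem Pg.all {n : ℕ} {p : α → β → Prop} (h : Pg (n + 1) (fun x : α × β => p x.1 x.2)) :
    Pg (n + 1) (fun a => ∀ b, p a b) := by
  have h1 : Sg (n + 1) (fun x : α × β => (fun a b => ¬ p a b) x.1 x.2) := h.not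
  refine (Sg.ex (p := fun a b => ¬ p a b) h1).not.congr fun a => ?_
  rw [not_exists]
  exact forall_congr' fun b => not_not

/-- `∃` over a Pi^0_n predicate -/
theorem Pg.ex {n : ℕ} {p : α → β → Prop} (h : Pg n (fun x : α × β => p x.1 x.2)) :
    Sg (n + 1) (fun a => ∃ b, p a b) :=
  Sg.ex (Sg.of_pg h)

/-- `∀` over a Sigma^0_n predicate -/
theorem Sg.all {n : ℕ} {p : α → β → Prop} (h : Sg n (fun x : α × β => p x.1 x.2)) :
    Pg (n + 1) (fun a => ∀ b, p a b) :=
  Pg.all (Pg.of_sg h)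

/-- bounded universal quantifiers are absorbed in Pi^0_{n+1} -/
theorem Pg.ball {n : ℕ} {p : α → ℕ → Prop} (h : Pg (n + 1) (fun x : α × ℕ => p x.1 x.2)) {f : α → ℕ}
    (hf : Primrec f) : Pg (n + 1) (fun a => ∀ i < f a, p a i) := by
  have h1 : Primrec (fun x : α × ℕ => decide (x.2 < f x.1)) :=
    (Primrec.nat_lt.comp Primrec.snd (hf.comp Primrec.fst)).decide
  have h2 : Sg (n + 1) (fun x : α × ℕ => x.2 < f x.1) :=
    Sg.of_primrec h1 (fun x => by rw [decide_eq_true_iff]) (n + 1)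
  have h3 : Pg (n + 1) (fun x : α × ℕ => (fun a i => i < f a → p a i) x.1 x.2) := Pg.imp h2 h
  exact Pg.all h3

/-- a Sigma^0_{n+1} predicate on `ℕ` written with the matrix -/
theorem sg_succ_iff {n : ℕ} {p : α → Prop} :
    Sg (n + 1) p ↔ ∃ q : α → ℕ → Prop, Pg n (fun x : α × ℕ => q x.1 x.2) ∧ ∀ a, p a ↔ ∃ k, q a k := by
  constructor
  · rintro ⟨r, ⟨s, hs, hr⟩, hp⟩
    exact ⟨fun a k => s (Nat.pair (Encodable.encode a) k), ⟨s, hs, fun x => Iff.rfl⟩,
      fun a => (hp a).trans (hr _)⟩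
  · rintro ⟨q, hq, hp⟩
    exact (Pg.ex hq).congr fun a => (hp a).symm

theorem pg_succ_iff {n : ℕ} {p : α → Prop} :
    Pg (n + 1) p ↔ ∃ q : α → ℕ → Prop, Sg n (fun x : α × ℕ => q x.1 x.2) ∧ ∀ a, p a ↔ ∀ k, q a k := by
  constructor
  · rintro ⟨r, ⟨s, hs, hr⟩, hp⟩
    exact ⟨fun a k => s (Nat.pair (Encodable.encode a) k), ⟨s, hs, fun x => Iff.rfl⟩,
      fun a => (hp a).trans (hr _)⟩
  · rintro ⟨q, hq, hp⟩
    exact (Sg.all hq).congr fun a => (hp a).symm

end CB
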