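import Pool.Agent.Work.MP_cb528c_lc.SigDefs
import Pool.Agent.Work.MP_cb528c_lc.FoApi
import Pool.Agent.Work.MP_cb528c_lc.FmPrim

set_option autoImplicit false
set_option linter.all false

/-!
# MP_cb528c_lc, block I (coding of binary relations in rich signatures): definitions

* `IntR`: as `Interp`, only for structures with the property `Ψ`.
* Digraphs: `E G x y`: edge; `Snk`: no out-edge; `Isl`: isolated point; `Dom`: no out-edge and an in-edge.
  `Dig G`: no loops, exactly one isolated point, every point has at most one out-neighbour which is a sink and at most one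
  which is not a sink.
* `Gr L M`: the digraph which codes the binary relations `R 0, .., R (L-1)` of `M`: points `z` (isolated), `el x` for
  `x : M.C`, `pt j x y` for `x y : M.C`, `j < L + 2`; edges `pt 0 x y → el x`; `pt 1 x y → pt 0 x y, el y`;
  `pt (i+2) x y → pt (i+1) x y`, and `→ el x` iff `M.R i [x, y]`.
* `NN G j v x y`: in a digraph `G`, `v` is the point `pt j x y` (first order definition).
* `DmP L G`: the first order property of a digraph which says that it is of the form `Gr L M`; `GI L G`: this `M`.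
* `IsSub L N M P R e`: `M` is the structure with carrier `{v // P v}` (via `e`) and the binary relations `R r`, `r < L`.
* `dgM P N`: the digraph on the carrier of `N` with edge relation `P N`; `expM ar D G`: the expansion of a digraph `G` by the
  relations `D r G` (of arity `ar[r]`).
-/

namespace CB.IC

/-- as `Interp`, for structures with the property `Ψ` -/
def IntR (ar0 : List ℕ) (Ψ : Mdl → Prop) (ar : List ℕ) (Φ : Mdl → Prop) : Prop :=
  ∃ (Dm : Fm) (tr : Fm → Fm) (Γ : Mdl → Mdl), Dm.Closed ∧ Computable tr ∧ (∀ φ, φ.Closed → (tr φ).Closed) ∧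
    (∀ N, N.Ok ar → Dm ∈ Th N → Φ N ∧ (Γ N).Ok ar0 ∧ Ψ (Γ N) ∧
      ∀ φ, φ.Closed → (tr φ ∈ Th N ↔ φ ∈ Th (Γ N))) ∧
    (∀ M, M.Ok ar0 → Ψ M → ∃ N, N.Ok ar ∧ Dm ∈ Th N ∧ Th (Γ N) = Th M) ∧
    ∀ n, ∃ m, ∀ N N', N.Ok ar → N'.Ok ar → Dm ∈ Th N → Dm ∈ Th N' → EF (Γ N) (Γ N') m ∅ → EF N N' n ∅

/-- edges -/
def E (G : Mdl) (x y : G.C) : Prop := G.R 0 [x, y]

/-- sinks -/
def Snk (G : Mdl) (x : G.C) : Prop := ∀ y, ¬ E G x y

/-- isolated points -/
def Isl (G : Mdl) (x : G.C) : Prop := Snk G x ∧ ∀ y, ¬ E G y x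

/-- sinks which are not isolated -/
def Dom (G : Mdl) (x : G.C) : Prop := Snk G x ∧ ∃ y, E G y x

/-- the digraphs which occur -/
structure Dig (G : Mdl) : Prop where
  irr : ∀ x, ¬ E G x x
  isl : ∃! x, Isl G x
  u1 : ∀ v w w', E G v w → E G v w' → Snk G w → Snk G w' → w = w'
  u2 : ∀ v w w', E G v w → E G v w' → ¬ Snk G w → ¬ Snk G w' → w = w'

/-- points of the coding digraph -/
inductive Nd (C : Type) (L : ℕ) : Type
  | z : Nd C L
  | el (x : C) : Nd C L
  | pt (j : Fin (L + 2)) (x y : C) : Nd C L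

/-- edges of the coding digraph -/
def ge (L : ℕ) (M : Mdl) : Nd M.C L → Nd M.C L → Prop
  | Nd.pt j x y, Nd.el w => (j.1 = 0 ∧ w = x) ∨ (j.1 = 1 ∧ w = y) ∨ ∃ i, j.1 = i + 2 ∧ w = x ∧ M.R i [x, y]
  | Nd.pt j x y, Nd.pt j' x' y' => j.1 = j'.1 + 1 ∧ x' = x ∧ y' = y
  | _, _ => False

/-- the coding digraph -/
def Gr (L : ℕ) (M : Mdl) : Mdl := ⟨Nd M.C L, ⟨Nd.z⟩, fun r l => r = 0 ∧ ∃ v w, l = [v, w] ∧ ge L M v w⟩

/-- the out-neighbours of `v` are exactly `x` -/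
def Out1 (G : Mdl) (v x : G.C) : Prop := ∀ w, E G v w ↔ w = x

/-- the out-neighbours of `v` are exactly `x`, `y` -/
def Out2 (G : Mdl) (v x y : G.C) : Prop := ∀ w, E G v w ↔ w = x ∨ w = y

/-- `v` is the point `pt j x y` -/
def NN (G : Mdl) : ℕ → G.C → G.C → G.C → Prop
  | 0, v, x, y => Out1 G v x ∧ ∃ w, Out2 G w v y
  | 1, w, x, y => ∃ v, Out1 G v x ∧ Out2 G w v y
  | (j + 2), v, x, y => ∃ u, NN G (j + 1) u x y ∧ E G v u ∧ ∀ w, E G v w → w = u ∨ w = x

/-- `G` is a coding digraph -/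
structure DmP (L : ℕ) (G : Mdl) : Prop where
  isl : ∃! x, Isl G x
  ne : ∃ x, Dom G x
  ex : ∀ j : Fin (L + 2), ∀ x y, Dom G x → Dom G y → ∃! v, NN G j.1 v x y
  cov : ∀ v, ¬ Snk G v → ∃ j : Fin (L + 2), ∃ x y, Dom G x ∧ Dom G y ∧ NN G j.1 v x y
  inj : ∀ j j' : Fin (L + 2), ∀ v x y x' y', Dom G x → Dom G y → Dom G x' → Dom G y' →
    NN G j.1 v x y → NN G j'.1 v x' y' → j = j' ∧ x = x' ∧ y = y'

/-- the relation number `r` coded in a digraph -/
def RI (r : ℕ) (G : Mdl) (x y : G.C) : Prop := ∃ v, NN G (r + 2) v x y ∧ E G v x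

open Classical in
/-- the structure coded in a digraph -/
noncomputable def GI (L : ℕ) (G : Mdl) : Mdl :=
  if h : Nonempty {v // Dom G v} then
    ⟨{v // Dom G v}, h, fun r l => r < L ∧ ∃ x y : {v // Dom G v}, l = [x, y] ∧ RI r G x.1 y.1⟩
  else ⟨Unit, ⟨()⟩, fun _ _ => False⟩

/-- `M` is (via `e`) the structure with carrier `{v // P v}` and the binary relations `R r`, `r < L` -/
structure IsSub (L : ℕ) (N M : Mdl) (P : N.C → Prop) (R : ℕ → N.C → N.C → Prop) (e : M.C → N.C) : Prop where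
  inj : Function.Injective e
  rng : ∀ v, P v ↔ ∃ x, e x = v
  rel : ∀ r l, M.R r l ↔ r < L ∧ ∃ x y, l = [x, y] ∧ R r (e x) (e y)

/-- digraph on the same carrier -/
def dgM (P : (N : Mdl) → N.C → N.C → Prop) (N : Mdl) : Mdl :=
  ⟨N.C, N.ne, fun r l => r = 0 ∧ ∃ x y, l = [x, y] ∧ P N x y⟩

/-- the assignment given by a list -/
noncomputable def asg (N : Mdl) (l : List N.C) : ℕ → N.C := fun i => l.getD i (Classical.choice N.ne)

/-- expansion of a digraph -/
def expM (ar : List ℕ) (D : ℕ → (G : Mdl) → (ℕ → G.C) → Prop) (G : Mdl) : Mdl :=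
  ⟨G.C, G.ne, fun r l => ar[r]? = some l.length ∧ D r G (asg G l)⟩

/-- default interpretation of the symbol number `r` of the signature `σ`: relations are empty, constants are the isolated
point, other functions are the first projection -/
def D0 (σ : Sig) (r : ℕ) (G : Mdl) (s : ℕ → G.C) : Prop :=
  σ.rel.length ≤ r ∧ ((σ.ar.getD r 0 = 1 ∧ Isl G (s 0)) ∨ (2 ≤ σ.ar.getD r 0 ∧ s (σ.ar.getD r 0 - 1) = s 0))

theorem ok_gr (L : ℕ) (M : Mdl) : (Gr L M).Ok [2] := by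
  rintro r l ⟨rfl, v, w, rfl, -⟩
  rfl

theorem ok_dgM (P : (N : Mdl) → N.C → N.C → Prop) (N : Mdl) : (dgM P N).Ok [2] := by
  rintro r l ⟨rfl, v, w, rfl, -⟩
  rfl

theorem ok_expM (ar : List ℕ) (D : ℕ → (G : Mdl) → (ℕ → G.C) → Prop) (G : Mdl) : (expM ar D G).Ok ar :=
  fun _ _ h => h.1

theorem e_gr {L : ℕ} {M : Mdl} {v w : Nd M.C L} : E (Gr L M) v w ↔ ge L M v w := by
  constructor
  · rintro ⟨-, v', w', h, h'⟩
    obtain ⟨h1, h2⟩ := List.cons.inj h
    obtain ⟨h2, -⟩ := List.cons.inj h2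
    subst h1 h2
    exact h'
  · intro h
    exact ⟨rfl, v, w, rfl, h⟩

theorem e_dgM {P : (N : Mdl) → N.C → N.C → Prop} {N : Mdl} {x y : N.C} : E (dgM P N) x y ↔ P N x y := by
  constructor
  · rintro ⟨-, v', w', h, h'⟩
    obtain ⟨h1, h2⟩ := List.cons.inj h
    obtain ⟨h2, -⟩ := List.cons.inj h2
    subst h1 h2
    exact h'
  · intro h
    exact ⟨rfl, x, y, rfl, h⟩

theorem isSub_dgM (P : (N : Mdl) → N.C → N.C → Prop) (N : Mdl) :
    IsSub 1 N (dgM P N) (fun _ => True) (fun _ => P N) id where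
  inj := fun _ _ h => h
  rng := fun v => ⟨fun _ => ⟨v, rfl⟩, fun _ => trivial⟩
  rel := fun r l => by
    constructor
    · rintro ⟨rfl, x, y, rfl, h⟩
      exact ⟨Nat.one_pos, x, y, rfl, h⟩
    · rintro ⟨h, x, y, rfl, h'⟩
      exact ⟨by omega, x, y, rfl, h'⟩

theorem ok_GI (L : ℕ) (G : Mdl) : (GI L G).Ok (List.replicate L 2) := by
  unfold GI
  split_ifs with h
  · rintro r l ⟨hr, x, y, rfl, -⟩
    simp [List.getElem?_replicate, hr]
  · intro r l h
    exact h.elim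

theorem GI_eq {L : ℕ} {G : Mdl} (h : Nonempty {v // Dom G v}) : GI L G =
    ⟨{v // Dom G v}, h, fun r l => r < L ∧ ∃ x y : {v // Dom G v}, l = [x, y] ∧ RI r G x.1 y.1⟩ := by
  unfold GI
  rw [dif_pos h]

theorem isSub_GI {L : ℕ} {G : Mdl} (h : ∃ v, Dom G v) : ∃ e : (GI L G).C → G.C,
    IsSub L G (GI L G) (Dom G) (fun r => RI r G) e := by
  have h' : Nonempty {v // Dom G v} := by
    obtain ⟨v, hv⟩ := h
    exact ⟨⟨v, hv⟩⟩
  rw [GI_eq h']
  exact ⟨Subtype.val, Subtype.val_injective, fun v => ⟨fun hv => ⟨⟨v, hv⟩, rfl⟩, fun ⟨x, hx⟩ => hx ▸ x.2⟩,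
    fun r l => Iff.rfl⟩

end CB.IC
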