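import Pool.Agent.Work.MP_cb528c_lc.IDefs

set_option autoImplicit false
set_option linter.all false

/-!
# MP_cb528c_lc, module IGrDig (S-M): the coding digraph

Case analysis on the constructors of `Nd` with `e_gr`. Every `pt j x y` has an out-neighbour: `pt 0 → el x`, `pt (j+1) → pt j`;
`el x`, `z` have none. In-edges: `pt 0 x x → el x`; none into `z`.
`u1`: the sinks among the out-neighbours of `pt j x y` are `el w` with `w = x` (`j = 0`), `w = y` (`j = 1`), `w = x` (`j ≥ 2`).
`Dig.iso`: transport along `e : G.C ≃ G'.C` with `E G x y ↔ E G' (e x) (e y)`.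
-/

namespace CB.IC

theorem snk_gr {L : ℕ} {M : Mdl} {v : Nd M.C L} : Snk (Gr L M) v ↔ ∀ j x y, v ≠ Nd.pt j x y := by
  constructor
  · rintro h j x y rfl
    by_cases hj : j.1 = 0
    · exact h (Nd.el x : Nd M.C L) (e_gr.2 (Or.inl ⟨hj, rfl⟩))
    · exact h (Nd.pt ⟨j.1 - 1, by omega⟩ x y : Nd M.C L)
        (e_gr.2 ⟨show j.1 = j.1 - 1 + 1 by omega, rfl, rfl⟩)
  · intro h w hw
    have hw' : ge L M v w := e_gr.1 hw
    cases v with
    | z => exact hw'.elim
    | el x => exact hw'.elim
    | pt j x y => exact h j x y rfl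

theorem isl_gr {L : ℕ} {M : Mdl} {v : Nd M.C L} : Isl (Gr L M) v ↔ v = Nd.z := by
  constructor
  · rintro ⟨h1, h2⟩
    rw [snk_gr] at h1
    cases v with
    | z => rfl
    | el x =>
      exact (h2 (Nd.pt ⟨0, by omega⟩ x x : Nd M.C L) (e_gr.2 (Or.inl ⟨rfl, rfl⟩))).elim
    | pt j x y => exact (h1 j x y rfl).elim
  · rintro rfl
    refine ⟨snk_gr.2 fun j x y h => (by cases h), fun w hw => ?_⟩
    have hw' : ge L M w Nd.z := e_gr.1 hw
    cases w with
    | z => exact hw'.elim
    | el x => exact hw'.elim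
    | pt j x y => exact hw'.elim

theorem dom_gr {L : ℕ} {M : Mdl} {v : Nd M.C L} : Dom (Gr L M) v ↔ ∃ x, v = Nd.el x := by
  constructor
  · rintro ⟨h1, w, hw⟩
    cases v with
    | z => exact ((isl_gr.2 rfl).2 w hw).elim
    | el x => exact ⟨x, rfl⟩
    | pt j x y => exact (snk_gr.1 h1 j x y rfl).elim
  · rintro ⟨x, rfl⟩
    refine ⟨snk_gr.2 fun j x y h => (by cases h), (Nd.pt ⟨0, by omega⟩ x x : Nd M.C L), ?_⟩
    exact e_gr.2 (Or.inl ⟨rfl, rfl⟩)

theorem dig_gr (L : ℕ) (M : Mdl) : Dig (Gr L M) where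
  irr := fun (x : Nd M.C L) h => by
    have h' : ge L M x x := e_gr.1 h
    cases x with
    | z => exact h'.elim
    | el x => exact h'.elim
    | pt j x y =>
      have := h'.1
      omega
  isl := ⟨Nd.z, isl_gr.2 rfl, fun y hy => isl_gr.1 hy⟩
  u1 := fun (v w w' : Nd M.C L) h h' hw hw' => by
    have h1 : ge L M v w := e_gr.1 h
    have h2 : ge L M v w' := e_gr.1 h'
    rw [snk_gr] at hw hw'
    cases v with
    | z => exact h1.elim
    | el x => exact h1.elim
    | pt j x y =>
      cases w with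
      | z => exact h1.elim
      | pt j1 x1 y1 => exact (hw j1 x1 y1 rfl).elim
      | el a =>
        cases w' with
        | z => exact h2.elim
        | pt j1 x1 y1 => exact (hw' j1 x1 y1 rfl).elim
        | el b =>
          have h3 : a = b := by
            rcases h1 with ⟨e1, e2⟩ | ⟨e1, e2⟩ | ⟨i, e1, e2, -⟩ <;>
            rcases h2 with ⟨f1, f2⟩ | ⟨f1, f2⟩ | ⟨i', f1, f2, -⟩ <;>
            first | exact e2.trans f2.symm | (exfalso; omega)
          rw [h3]
  u2 := fun (v w w' : Nd M.C L) h h' hw hw' => by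
    have h1 : ge L M v w := e_gr.1 h
    have h2 : ge L M v w' := e_gr.1 h'
    rw [snk_gr] at hw hw'
    cases v with
    | z => exact h1.elim
    | el x => exact h1.elim
    | pt j x y =>
      cases w with
      | z => exact h1.elim
      | el a => exact (hw fun j x y h => by cases h).elim
      | pt j1 x1 y1 =>
        cases w' with
        | z => exact h2.elim
        | el b => exact (hw' fun j x y h => by cases h).elim
        | pt j2 x2 y2 =>
          obtain ⟨e1, rfl, rfl⟩ := h1
          obtain ⟨f1, rfl, rfl⟩ := h2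
          have h3 : j1 = j2 := Fin.ext (by omega)
          rw [h3]

theorem Dig.iso {G G' : Mdl} (h : G.Iso G') (hG : Dig G) : Dig G' := by
  obtain ⟨e, he⟩ := h
  have hE : ∀ x y, E G x y ↔ E G' (e x) (e y) := fun x y => he 0 [x, y]
  have hE' : ∀ x y, E G' x y ↔ E G (e.symm x) (e.symm y) := fun x y => by
    rw [hE, e.apply_symm_apply, e.apply_symm_apply]
  have hS : ∀ x, Snk G' x ↔ Snk G (e.symm x) := fun x => by
    constructor
    · intro h y hy
      refine h (e y) ((hE' _ _).2 ?_)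
      rwa [e.symm_apply_apply]
    · intro h y hy
      exact h (e.symm y) ((hE' _ _).1 hy)
  have hI : ∀ x, Isl G' x ↔ Isl G (e.symm x) := fun x => by
    refine and_congr (hS x) ?_
    constructor
    · intro h y hy
      refine h (e y) ((hE' _ _).2 ?_)
      rwa [e.symm_apply_apply]
    · intro h y hy
      exact h (e.symm y) ((hE' _ _).1 hy)
  refine ⟨fun x hx => hG.irr _ ((hE' _ _).1 hx), ?_, fun v w w' h1 h2 h3 h4 => ?_,
    fun v w w' h1 h2 h3 h4 => ?_⟩
  · obtain ⟨x, hx, hx2⟩ := hG.isl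
    refine ⟨e x, (hI _).2 (by rwa [e.symm_apply_apply]), fun y hy => ?_⟩
    have h1 := hx2 (e.symm y) ((hI y).1 hy)
    rw [← h1, e.apply_symm_apply]
  · exact e.symm.injective (hG.u1 _ _ _ ((hE' _ _).1 h1) ((hE' _ _).1 h2) ((hS _).1 h3)
      ((hS _).1 h4))
  · exact e.symm.injective (hG.u2 _ _ _ ((hE' _ _).1 h1) ((hE' _ _).1 h2)
      (fun h => h3 ((hS _).2 h)) (fun h => h4 ((hS _).2 h)))

end CB.IC
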