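import Pool.Agent.Work.MP_cb528c_lc.IGrDig

set_option autoImplicit false
set_option linter.all false

/-!
# MP_cb528c_lc, module INnGr (M): the decoding of the coding digraph

`nn_gr` by induction on `j` (strong, cases `0`, `1`, `j + 2`).
`0`: `Out1 v (el a)`: `v = pt i a' b'` with out-neighbours exactly `el a`; for `i ≥ 1` there is the out-neighbour `pt (i-1) a' b'`, so
`i = 0`, `a' = a`. `Out2 w v (el b)` with `v = pt 0 a b'`: `w → pt 0 a b'` means `w = pt 1 a b'`, and `w → el c` iff `c = b'`; so `b = b'`.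
Conversely `w = pt 1 a b`.
`1`: `v = pt 0 a b'` as before, `w = pt 1 a b'`, `b' = b`.
`j + 2`: `u = pt (j+1) a b`, `v → u` means `v = pt (j+2) a b` (in particular `j + 2 < L + 2`); its out-neighbours are `u` and
possibly `el a`. Conversely for `j + 2 < L + 2`.
-/

namespace CB.IC

private theorem out1_gr {L : ℕ} {M : Mdl} (v : Nd M.C L) (a : M.C) :
    Out1 (Gr L M) v (Nd.el a) ↔ ∃ b, v = Nd.pt ⟨0, Nat.succ_pos _⟩ a b := by
  constructor
  · intro h
    have h1 : ge L M v (Nd.el a) := e_gr.1 ((h (Nd.el a)).2 rfl)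
    match v, h, h1 with
    | Nd.pt ⟨0, hi⟩ a' b', h, h1 =>
      refine ⟨b', ?_⟩
      rcases h1 with ⟨_, h2⟩ | ⟨h2, _⟩ | ⟨i, h2, _⟩
      · rw [h2]
      · exact absurd (show (0 : ℕ) = 1 from h2) (by decide)
      · exact absurd (show (0 : ℕ) = i + 2 from h2) (by omega)
    | Nd.pt ⟨i + 1, hi⟩ a' b', h, h1 =>
      exfalso
      have h2 : ge L M (Nd.pt ⟨i + 1, hi⟩ a' b') (Nd.pt ⟨i, by omega⟩ a' b') := ⟨rfl, rfl, rfl⟩
      have h3 := (h _).1 (e_gr.2 h2)
      cases h3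
  · rintro ⟨b, rfl⟩ w
    rw [e_gr]
    match w with
    | Nd.z => exact ⟨fun h => h.elim, fun h => by cases h⟩
    | Nd.el c =>
      constructor
      · rintro (⟨_, h2⟩ | ⟨h2, _⟩ | ⟨i, h2, _⟩)
        · rw [h2]
        · exact absurd (show (0 : ℕ) = 1 from h2) (by decide)
        · exact absurd (show (0 : ℕ) = i + 2 from h2) (by omega)
      · intro h
        cases h
        exact Or.inl ⟨rfl, rfl⟩
    | Nd.pt j x y =>
      constructor
      · rintro ⟨h, _⟩
        exact absurd (show (0 : ℕ) = j.1 + 1 from h) (by omega)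
      · intro h
        cases h

private theorem out2_gr {L : ℕ} {M : Mdl} (w : Nd M.C L) (a b b' : M.C) :
    Out2 (Gr L M) w (Nd.pt ⟨0, Nat.succ_pos _⟩ a b') (Nd.el b) ↔
      w = Nd.pt ⟨1, by omega⟩ a b' ∧ b = b' := by
  constructor
  · intro h
    have h1 : ge L M w (Nd.pt ⟨0, Nat.succ_pos _⟩ a b') := e_gr.1 ((h _).2 (Or.inl rfl))
    have h2 : ge L M w (Nd.el b) := e_gr.1 ((h _).2 (Or.inr rfl))
    match w, h1, h2 with
    | Nd.pt ⟨i, hi⟩ a'' b'', h1, h2 =>
      obtain ⟨h3, h4, h5⟩ := h1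
      have h3 : i = 1 := h3
      subst h3 h4 h5
      refine ⟨rfl, ?_⟩
      rcases h2 with ⟨h2, _⟩ | ⟨_, h2⟩ | ⟨i, h2, _⟩
      · exact absurd (show (1 : ℕ) = 0 from h2) (by decide)
      · exact h2
      · exact absurd (show (1 : ℕ) = i + 2 from h2) (by omega)
  · rintro ⟨rfl, rfl⟩ u
    rw [e_gr]
    match u with
    | Nd.z => exact ⟨fun h => h.elim, fun h => by rcases h with h | h <;> cases h⟩
    | Nd.el c =>
      constructor
      · rintro (⟨h2, _⟩ | ⟨_, h2⟩ | ⟨i, h2, _⟩)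
        · exact absurd (show (1 : ℕ) = 0 from h2) (by decide)
        · rw [h2]
          exact Or.inr rfl
        · exact absurd (show (1 : ℕ) = i + 2 from h2) (by omega)
      · intro h
        rcases h with h | h
        · cases h
        · cases h
          exact Or.inr (Or.inl ⟨rfl, rfl⟩)
    | Nd.pt ⟨j, hj⟩ x y =>
      constructor
      · rintro ⟨h, rfl, rfl⟩
        have h : 1 = j + 1 := h
        have h' : j = 0 := by omega
        subst h'
        exact Or.inl rfl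
      · intro h
        rcases h with h | h
        · cases h
          exact ⟨rfl, rfl, rfl⟩
        · cases h

theorem nn_gr {L : ℕ} {M : Mdl} (j : ℕ) (v : Nd M.C L) (a b : M.C) :
    NN (Gr L M) j v (Nd.el a) (Nd.el b) ↔ ∃ h : j < L + 2, v = Nd.pt ⟨j, h⟩ a b := by
  induction j using Nat.twoStepInduction generalizing v with
  | zero =>
    constructor
    · rintro ⟨h1, w, h2⟩
      obtain ⟨b', rfl⟩ := (out1_gr v a).1 h1
      obtain ⟨_, rfl⟩ := (out2_gr w a b b').1 h2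
      exact ⟨Nat.succ_pos _, rfl⟩
    · rintro ⟨h, rfl⟩
      exact ⟨(out1_gr _ a).2 ⟨b, rfl⟩, Nd.pt ⟨1, by omega⟩ a b, (out2_gr _ a b b).2 ⟨rfl, rfl⟩⟩
  | one =>
    constructor
    · rintro ⟨w, h1, h2⟩
      obtain ⟨b', rfl⟩ := (out1_gr w a).1 h1
      obtain ⟨rfl, rfl⟩ := (out2_gr v a b b').1 h2
      exact ⟨by omega, rfl⟩
    · rintro ⟨h, rfl⟩
      exact ⟨Nd.pt ⟨0, Nat.succ_pos _⟩ a b, (out1_gr _ a).2 ⟨b, rfl⟩, (out2_gr _ a b b).2 ⟨rfl, rfl⟩⟩
  | more j _ ih =>
    constructor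
    · rintro ⟨u, h1, h2, h3⟩
      obtain ⟨hj, rfl⟩ := (ih u).1 h1
      have h2 := e_gr.1 h2
      match v, h2 with
      | Nd.pt ⟨i, hi⟩ a' b', h2 =>
        obtain ⟨h4, rfl, rfl⟩ := h2
        have h4 : i = j + 1 + 1 := h4
        subst h4
        exact ⟨hi, rfl⟩
    · rintro ⟨h, rfl⟩
      refine ⟨Nd.pt ⟨j + 1, by omega⟩ a b, (ih _).2 ⟨by omega, rfl⟩, e_gr.2 ⟨rfl, rfl, rfl⟩, fun w hw => ?_⟩
      have hw := e_gr.1 hw
      match w, hw with
      | Nd.el c, hw =>
        rcases hw with ⟨h2, _⟩ | ⟨h2, _⟩ | ⟨i, _, h2, _⟩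
        · exact absurd (show j + 2 = 0 from h2) (by omega)
        · exact absurd (show j + 2 = 1 from h2) (by omega)
        · rw [h2]
          exact Or.inr rfl
      | Nd.pt ⟨i, hi⟩ x y, hw =>
        obtain ⟨h2, rfl, rfl⟩ := hw
        have h2 : j + 2 = i + 1 := h2
        have h3 : i = j + 1 := by omega
        subst h3
        exact Or.inl rfl

end CB.IC
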