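import Pool.Agent.Work.MP_cb528c_lc.IDefs

set_option autoImplicit false
set_option linter.all false

/-!
# MP_cb528c_lc, module IRes (S): removing superfluous free variables

If `D` depends only on the variables in `V` it is defined by a formula with free variables in `V`: take the universal closure of
`φ` over the free variables not in `V`. Same proof as the private lemma `closure_aux` in `FoApi.lean`: by induction on a list
`l` of variables with no member in `V`: there is `b` with `i ∈ b.fv → i ∈ φ.fv ∧ i ∉ l` and `Sat N s b ↔ D N s` (in the step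
`Sat N s (Fm.all a b) ↔ ∀ x, D N (update s a x) ↔ D N s` by `hV`, `N.ne`). Use it for `l = φ.fv.filter (· ∉ V)`.
-/

namespace CB.IC

private theorem res_aux {D : (N : Mdl) → (ℕ → N.C) → Prop} (φ : Fm)
    (h : ∀ (N : Mdl) (s : ℕ → N.C), Sat N s φ ↔ D N s) (V : List ℕ)
    (hV : ∀ (N : Mdl) (s t : ℕ → N.C), (∀ i ∈ V, s i = t i) → (D N s ↔ D N t))
    (l : List ℕ) (hl : ∀ i ∈ l, i ∉ V) : ∃ b : Fm, (∀ i, i ∈ b.fv → i ∈ φ.fv ∧ i ∉ l) ∧
      ∀ (N : Mdl) (s : ℕ → N.C), Sat N s b ↔ D N s := by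
  induction l with
  | nil => exact ⟨φ, fun i hi => ⟨hi, by simp⟩, h⟩
  | cons a l ih =>
    obtain ⟨b, hb1, hb2⟩ := ih fun i hi => hl i (List.mem_cons_of_mem _ hi)
    refine ⟨Fm.all a b, fun i hi => ?_, fun N s => ?_⟩
    · simp only [Fm.all, Fm.fv, List.mem_filter, decide_eq_true_eq] at hi
      obtain ⟨h1, h2⟩ := hb1 i hi.1
      refine ⟨h1, ?_⟩
      simp only [List.mem_cons, not_or]
      exact ⟨by simpa using hi.2, h2⟩
    · rw [sat_all]
      obtain ⟨x⟩ := N.ne
      have key : ∀ y : N.C, D N (Function.update s a y) ↔ D N s := by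
        intro y
        refine hV N _ _ fun i hi => ?_
        have hia : i ≠ a := by
          rintro rfl
          exact hl i List.mem_cons_self hi
        rw [Function.update_of_ne hia]
      exact ⟨fun hh => (key x).1 ((hb2 _ _).1 (hh x)), fun hh y => (hb2 _ _).2 ((key y).2 hh)⟩

theorem fo_restrict {D : (N : Mdl) → (ℕ → N.C) → Prop} (h : FO D) (V : List ℕ)
    (hV : ∀ (N : Mdl) (s t : ℕ → N.C), (∀ i ∈ V, s i = t i) → (D N s ↔ D N t)) :
    ∃ β : Fm, (∀ i ∈ β.fv, i ∈ V) ∧ ∀ (N : Mdl) (s : ℕ → N.C), Sat N s β ↔ D N s := by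
  obtain ⟨φ, hφ⟩ := h
  obtain ⟨b, hb1, hb2⟩ := res_aux φ hφ V hV (φ.fv.filter (fun i => decide (i ∉ V))) (by
    intro i hi
    simpa using (List.mem_filter.1 hi).2)
  refine ⟨b, fun i hi => ?_, hb2⟩
  obtain ⟨h1, h2⟩ := hb1 i hi
  by_contra h3
  exact h2 (List.mem_filter.2 ⟨h1, by simpa using h3⟩)

end CB.IC
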