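import Pool.Agent.Work.MP_cb528c_lc.ITr

/-!
# MP_cb528c_lc, module ISame (M-L): interpretations with the same carrier

`Γ N = dgM P N`. `tr` from `tr_exists` with `L = 1`, `P' = True`, `R r = P` and `isSub_dgM`. It gives for every formula `ψ`:
`Sat N s (tr ψ) ↔ Sat (dgM P N) (fun i => s (2 * i)) ψ`.
* For `r < ar.length`, `ar[r]? = some k`, the property
  `A r N := ∀ l : List N.C, l.length = k → (N.R r l ↔ D r (dgM P N) (asg (dgM P N) l))` is `FO`: by `FO.tuple 0 (2 * k)` applied to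
  `fun N s => N.R r ((List.range k).map fun i => s (2 * i)) ↔ D r (dgM P N) (fun i => s (2 * i))` (the left side is the formula
  `Fm.rel r ((List.range k).map (2 * ·))`, the right side `tr ψ` for `ψ` defining `D r`); a list `l` of length `k` corresponds to
  the tuples `a` with `a (2 i) = l[i]`; by `hloc` the values of the assignment at `i ≥ k` do not matter.
  `Ψ (dgM P N)` is `FO` in `N` in the same way. So `Dm` closed (`FO.closed`, `FO.forallFin` over `Fin ar.length`, `FO.and`) with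
  `Dm ∈ Th N ↔ (∀ r < ar.length, A r N) ∧ Ψ (dgM P N)`.
* For `N.Ok ar` with `Dm`: `N = expM ar D (dgM P N)` (the relations agree by `Ok` and `A r`; `funext`, `propext`; structure eta,
  e.g. `cases N`). So `Φ N` by `hΦ` for `G = dgM P N` (`ok_dgM`).
* existence: `M.Ok [2]`, `Ψ M`: `N = expM ar D M`; `dgM P N = M` by `hrec` and `M.Ok [2]` (a list `l` with `M.R r l` has `r = 0`
  and length 2; again `funext`, `propext`, `cases M`), so `Dm ∈ Th N` and `Th (Γ N) = Th M`.
* EF: let `ψ r` define `D r`, `c` = the maximum of the quantifier ranks of `ψ r`, `r < ar.length`; `m = n + c + 1`. Show by induction on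
  `n`: `EF (dgM P N) (dgM P N') (n + (c + 1)) S → EF N N' n S`. `n = 0`: equality from `EF.le` to `0`. Relations: `l` a list of
  pairs in `S`, `N.R r (l.map Prod.fst) ↔ ar[r]? = some l.length ∧ D r (dgM P N) (asg _ (l.map fst))`; choose a pair `(a, b)` with
  `EF _ _ c (insert (a, b) S)` and the assignments `s i = (l.map fst).getD i a`, `t i = (l.map snd).getD i b` (so all
  `(s i, t i)` are in `insert (a, b) S`); by `hloc` `D r _ (asg ..) ↔ D r _ s`; then `EF.sat` for `ψ r`.
-/

set_option autoImplicit false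
set_option linter.all false

/-!
# MP_cb528c_lc, module ISame (M-L): interpretations with the same carrier

`Γ N = dgM P N`. `tr` from `tr_exists` with `L = 1`, `P' = True`, `R r = P` and `isSub_dgM`. It gives for every formula `ψ`:
`Sat N s (tr ψ) ↔ Sat (dgM P N) (fun i => s (2 * i)) ψ`.
* For `r < ar.length`, `ar[r]? = some k`, the property
  `A r N := ∀ l : List N.C, l.length = k → (N.R r l ↔ D r (dgM P N) (asg (dgM P N) l))` is `FO`: by `FO.tuple 0 (2 * k)` applied to
  `fun N s => N.R r ((List.range k).map fun i => s (2 * i)) ↔ D r (dgM P N) (fun i => s (2 * i))` (the left side is the formula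
  `Fm.rel r ((List.range k).map (2 * ·))`, the right side `tr ψ` for `ψ` defining `D r`); a list `l` of length `k` corresponds to
  the tuples `a` with `a (2 i) = l[i]`; by `hloc` the values of the assignment at `i ≥ k` do not matter.
  `Ψ (dgM P N)` is `FO` in `N` in the same way. So `Dm` closed (`FO.closed`, `FO.forallFin` over `Fin ar.length`, `FO.and`) with
  `Dm ∈ Th N ↔ (∀ r < ar.length, A r N) ∧ Ψ (dgM P N)`.
* For `N.Ok ar` with `Dm`: `N = expM ar D (dgM P N)` (the relations agree by `Ok` and `A r`; `funext`, `propext`; structure eta,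
  e.g. `cases N`). So `Φ N` by `hΦ` for `G = dgM P N` (`ok_dgM`).
* existence: `M.Ok [2]`, `Ψ M`: `N = expM ar D M`; `dgM P N = M` by `hrec` and `M.Ok [2]` (a list `l` with `M.R r l` has `r = 0`
  and length 2; again `funext`, `propext`, `cases M`), so `Dm ∈ Th N` and `Th (Γ N) = Th M`.
* EF: let `ψ r` define `D r`, `c` = the maximum of the quantifier ranks of `ψ r`, `r < ar.length`; `m = n + c + 1`. Show by induction on
  `n`: `EF (dgM P N) (dgM P N') (n + (c + 1)) S → EF N N' n S`. `n = 0`: equality from `EF.le` to `0`. Relations: `l` a list of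
  pairs in `S`, `N.R r (l.map Prod.fst) ↔ ar[r]? = some l.length ∧ D r (dgM P N) (asg _ (l.map fst))`; choose a pair `(a, b)` with
  `EF _ _ c (insert (a, b) S)` and the assignments `s i = (l.map fst).getD i a`, `t i = (l.map snd).getD i b` (so all
  `(s i, t i)` are in `insert (a, b) S`); by `hloc` `D r _ (asg ..) ↔ D r _ s`; then `EF.sat` for `ψ r`.
-/

namespace CB.IC

private def AxR (P : (N : Mdl) → N.C → N.C → Prop) (D : ℕ → (G : Mdl) → (ℕ → G.C) → Prop) (r k : ℕ)
    (N : Mdl) : Prop :=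
  ∀ l : List N.C, l.length = k → (N.R r l ↔ D r (dgM P N) (asg (dgM P N) l))

private theorem tup_aux {C : Type} (l : List C) (k : ℕ) (hl : l.length = k) (s : ℕ → C) (d : C) :
    (∀ i, i < k → (fun j => if hj : 0 ≤ j ∧ j < 0 + 2 * k then
        (fun j : Fin (2 * k) => l.getD (j.1 / 2) d) ⟨j - 0, by omega⟩ else s j) (2 * i) = l.getD i d) ∧
    ((List.range k).map fun i => (fun j => if hj : 0 ≤ j ∧ j < 0 + 2 * k then
        (fun j : Fin (2 * k) => l.getD (j.1 / 2) d) ⟨j - 0, by omega⟩ else s j) (2 * i)) = l := by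
  have e1 : ∀ i, i < k → (fun j => if hj : 0 ≤ j ∧ j < 0 + 2 * k then
        (fun j : Fin (2 * k) => l.getD (j.1 / 2) d) ⟨j - 0, by omega⟩ else s j) (2 * i) =
        l.getD i d := by
    intro i hi
    simp only
    rw [dif_pos (by omega)]
    congr 1
    omega
  refine ⟨e1, ?_⟩
  apply List.ext_getElem
  · rw [List.length_map, List.length_range, hl]
  · intro i hi1 hi2
    rw [List.getElem_map, List.getElem_range, e1 i (by omega), List.getD_eq_getElem _ _ hi2]

private theorem tup_aux2 {C : Type} (v : ℕ → C) (k : ℕ) (d : C) (i : ℕ) (hi : i < k) :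
    ((List.range k).map fun i => v (2 * i)).getD i d = v (2 * i) := by
  rw [List.getD_eq_getElem _ _ (by rw [List.length_map, List.length_range]; exact hi), List.getElem_map,
    List.getElem_range]

private theorem fo_axR {P : (N : Mdl) → N.C → N.C → Prop} {D : ℕ → (G : Mdl) → (ℕ → G.C) → Prop}
    {r k : ℕ} (h1 : FO (fun N s => D r (dgM P N) (fun i => s (2 * i))))
    (hloc : ∀ (G : Mdl) (s t : ℕ → G.C), (∀ i < k, s i = t i) → (D r G s ↔ D r G t)) :
    FO (fun N _ => AxR P D r k N) := by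
  have h2 : FO (fun N s => N.R r ((List.range k).map fun i => s (2 * i))) :=
    ⟨Fm.rel r ((List.range k).map (2 * ·)), fun N s => by rw [sat_rel, List.map_map]; rfl⟩
  refine ((h2.iff h1).tuple 0 (2 * k)).congr fun N s => ?_
  constructor
  · intro h l hl
    have h3 := h (fun j => l.getD (j.1 / 2) (Classical.choice N.ne))
    obtain ⟨e1, e2⟩ := tup_aux l k hl s (Classical.choice N.ne)
    have h4 := hloc (dgM P N) _ (asg (dgM P N) l) e1
    have h5 := congrArg (N.R r) e2
    exact (iff_of_eq h5).symm.trans (h3.trans h4)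
  · intro h a
    have hl : ((List.range k).map fun i => (fun j => if hj : 0 ≤ j ∧ j < 0 + 2 * k then
        a ⟨j - 0, by omega⟩ else s j) (2 * i)).length = k := by
      rw [List.length_map, List.length_range]
    refine (h _ hl).trans (hloc (dgM P N) _ _ fun i hi => ?_)
    exact tup_aux2 (fun j => if hj : 0 ≤ j ∧ j < 0 + 2 * k then
        a ⟨j - 0, by omega⟩ else s j) k (Classical.choice N.ne) i hi

private theorem getD_any {C : Type} (l : List C) (i : ℕ) (hi : i < l.length) (d d' : C) :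
    l.getD i d = l.getD i d' := by
  rw [List.getD_eq_getElem _ _ hi, List.getD_eq_getElem _ _ hi]

private theorem pair_mem {C C' : Type} (l : List (C × C')) (S : Set (C × C')) (hl : ∀ p ∈ l, p ∈ S) (a : C)
    (b : C') (i : ℕ) : ((l.map Prod.fst).getD i a, (l.map Prod.snd).getD i b) ∈ insert (a, b) S := by
  by_cases hi : i < l.length
  · rw [List.getD_eq_getElem _ _ (by rw [List.length_map]; exact hi), List.getElem_map,
      List.getD_eq_getElem _ _ (by rw [List.length_map]; exact hi), List.getElem_map]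
    exact Set.mem_insert_of_mem _ (hl _ (List.getElem_mem hi))
  · rw [List.getD_eq_default _ _ (by rw [List.length_map]; omega),
      List.getD_eq_default _ _ (by rw [List.length_map]; omega)]
    exact Set.mem_insert _ _

private theorem rel_iff {ar : List ℕ} {P : (N : Mdl) → N.C → N.C → Prop}
    {D : ℕ → (G : Mdl) → (ℕ → G.C) → Prop} {N : Mdl} (hN : N.Ok ar)
    (hA : ∀ r : Fin ar.length, AxR P D r.1 ar[r] N) (r : ℕ) (l : List N.C) :
    N.R r l ↔ ar[r]? = some l.length ∧ D r (dgM P N) (asg (dgM P N) l) := by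
  constructor
  · intro h
    have h1 := hN r l h
    obtain ⟨h2, h3⟩ := List.getElem?_eq_some_iff.1 h1
    exact ⟨h1, (hA ⟨r, h2⟩ l h3.symm).1 h⟩
  · rintro ⟨h1, h⟩
    obtain ⟨h2, h3⟩ := List.getElem?_eq_some_iff.1 h1
    exact (hA ⟨r, h2⟩ l h3.symm).2 h

private theorem eq_expM {ar : List ℕ} {P : (N : Mdl) → N.C → N.C → Prop}
    {D : ℕ → (G : Mdl) → (ℕ → G.C) → Prop} {N : Mdl} (hN : N.Ok ar)
    (hA : ∀ r : Fin ar.length, AxR P D r.1 ar[r] N) : N = expM ar D (dgM P N) := by
  have h := rel_iff hN hA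
  have e : N.R = (expM ar D (dgM P N)).R := by
    funext r l
    exact propext (h r l)
  obtain ⟨C, ne, R⟩ := N
  show Mdl.mk C ne R = Mdl.mk C ne (expM ar D (dgM P ⟨C, ne, R⟩)).R
  rw [← e]

private theorem dgM_R {ar : List ℕ} {P : (N : Mdl) → N.C → N.C → Prop}
    {D : ℕ → (G : Mdl) → (ℕ → G.C) → Prop} {M : Mdl} (hM : M.Ok [2])
    (hrec : ∀ x y : M.C, P (expM ar D M) x y ↔ E M x y) : (dgM P (expM ar D M)).R = M.R := by
  funext r l
  apply propext
  constructor
  · rintro ⟨rfl, x, y, rfl, h⟩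
    exact (hrec x y).1 h
  · intro h
    have h1 := hM r l h
    have h2 : r = 0 := by
      rcases r with _ | r
      · rfl
      · simp at h1
    subst h2
    have h3 : l.length = 2 := by
      simp at h1
      exact h1.symm
    obtain ⟨x, y, rfl⟩ := List.length_eq_two.1 h3
    exact ⟨rfl, x, y, rfl, (hrec x y).2 h⟩

private theorem ef_same {ar : List ℕ} {P : (N : Mdl) → N.C → N.C → Prop}
    {D : ℕ → (G : Mdl) → (ℕ → G.C) → Prop}
    (hloc : ∀ r k, ar[r]? = some k → ∀ (G : Mdl) (s t : ℕ → G.C), (∀ i < k, s i = t i) → (D r G s ↔ D r G t))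
    (ψ : ℕ → Fm) (hψ : ∀ r (G : Mdl) (s : ℕ → G.C), Sat G s (ψ r) ↔ D r G s) (c : ℕ)
    (hc : ∀ r < ar.length, (ψ r).qr ≤ c) {N N' : Mdl} (hN : N.Ok ar) (hN' : N'.Ok ar)
    (hA : ∀ r : Fin ar.length, AxR P D r.1 ar[r] N) (hA' : ∀ r : Fin ar.length, AxR P D r.1 ar[r] N')
    (n : ℕ) : ∀ S : Set (N.C × N'.C), EF (dgM P N) (dgM P N') (n + (c + 1)) S → EF N N' n S := by
  induction n with
  | zero =>
    intro S h
    refine ⟨(h.le (Nat.zero_le _)).1, fun r l hl => ?_⟩
    rw [rel_iff hN hA, rel_iff hN' hA', List.length_map, List.length_map]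
    refine and_congr_right fun hk => ?_
    have hr : r < ar.length := (List.getElem?_eq_some_iff.1 hk).1
    have h' : EF (dgM P N) (dgM P N') (c + 1) S := by
      rw [Nat.zero_add] at h
      exact h
    obtain ⟨a⟩ := N.ne
    obtain ⟨b, hab⟩ : ∃ b : N'.C, EF (dgM P N) (dgM P N') c (insert (a, b) S) := h'.1 a
    let s : ℕ → (dgM P N).C := fun i => (l.map Prod.fst).getD i a
    let t : ℕ → (dgM P N').C := fun i => (l.map Prod.snd).getD i b
    have hst : ∀ i, (s i, t i) ∈ insert (a, b) S := fun i => pair_mem l S hl a b i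
    have h1 := hab.sat (hc r hr) (s := s) (t := t) (fun i _ => hst i)
    rw [hψ, hψ] at h1
    have h2 : D r (dgM P N) (asg (dgM P N) (l.map Prod.fst)) ↔ D r (dgM P N) s := by
      refine hloc r _ hk _ _ _ fun i hi => ?_
      exact getD_any (l.map Prod.fst) i (by rw [List.length_map]; exact hi) _ _
    have h3 : D r (dgM P N') (asg (dgM P N') (l.map Prod.snd)) ↔ D r (dgM P N') t := by
      refine hloc r _ hk _ _ _ fun i hi => ?_
      exact getD_any (l.map Prod.snd) i (by rw [List.length_map]; exact hi) _ _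
    exact h2.trans (h1.trans h3.symm)
  | succ n ih =>
    intro S h
    have h' : EF (dgM P N) (dgM P N') ((n + (c + 1)) + 1) S := by
      have e : n + 1 + (c + 1) = (n + (c + 1)) + 1 := by omega
      rw [e] at h
      exact h
    refine ⟨fun a => ?_, fun b => ?_⟩
    · obtain ⟨b, hb⟩ := h'.1 a
      exact ⟨b, ih _ hb⟩
    · obtain ⟨a, ha⟩ := h'.2 b
      exact ⟨a, ih _ ha⟩

theorem intR_same (ar : List ℕ) (Ψ Φ : Mdl → Prop) (P : (N : Mdl) → N.C → N.C → Prop)
    (D : ℕ → (G : Mdl) → (ℕ → G.C) → Prop) (hP : FO (fun N s => P N (s 1) (s 3))) (hD : ∀ r, FO (D r))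
    (hloc : ∀ r k, ar[r]? = some k → ∀ (G : Mdl) (s t : ℕ → G.C), (∀ i < k, s i = t i) → (D r G s ↔ D r G t))
    (hΨ : FO (fun N _ => Ψ N))
    (hrec : ∀ G : Mdl, G.Ok [2] → Ψ G → ∀ x y : G.C, P (expM ar D G) x y ↔ E G x y)
    (hΦ : ∀ G : Mdl, G.Ok [2] → Ψ G → Φ (expM ar D G)) : IntR [2] Ψ ar Φ := by
  obtain ⟨tr, htc, htcl, htr⟩ := tr_exists 1 (fun _ _ => True) (fun _ => P) (FO.const True) (fun _ => hP)
  have hopen : ∀ (N : Mdl) (s : ℕ → N.C) (φ : Fm),
      Sat N s (tr φ) ↔ Sat (dgM P N) (fun i => s (2 * i)) φ := fun N s φ =>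
    (htr N (dgM P N) id (isSub_dgM P N)).1 φ s (fun i => s (2 * i)) (fun _ => rfl)
  have hcl : ∀ (N : Mdl) (φ : Fm), φ.Closed → (tr φ ∈ Th N ↔ φ ∈ Th (dgM P N)) := fun N =>
    (htr N (dgM P N) id (isSub_dgM P N)).2
  have hD' : ∀ r, FO (fun N s => D r (dgM P N) (fun i => s (2 * i))) := by
    intro r
    obtain ⟨ψ, hψ⟩ := hD r
    exact ⟨tr ψ, fun N s => (hopen N s ψ).trans (hψ _ _)⟩
  have hΨ' : FO (fun N _ => Ψ (dgM P N)) := by
    obtain ⟨ψ, hψ⟩ := hΨ
    exact ⟨tr ψ, fun N s => (hopen N s ψ).trans (hψ _ _)⟩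
  have hax : ∀ r : Fin ar.length, FO (fun N _ => AxR P D r.1 ar[r] N) := fun r =>
    fo_axR (hD' r.1) (hloc r.1 ar[r] (by simp))
  have hall : FO (fun N _ => (∀ r : Fin ar.length, AxR P D r.1 ar[r] N) ∧ Ψ (dgM P N)) :=
    FO.and (D := fun N _ => ∀ r : Fin ar.length, AxR P D r.1 ar[r] N) (D' := fun N _ => Ψ (dgM P N))
      (FO.forallFin hax) hΨ'
  obtain ⟨Dm, hDc, hDm⟩ := FO.closed (D := fun N => (∀ r : Fin ar.length, AxR P D r.1 ar[r] N) ∧ Ψ (dgM P N)) hall
  choose ψ hψ using hD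
  refine ⟨Dm, tr, dgM P, hDc, htc, htcl, ?_, ?_, ?_⟩
  · intro N hN hD
    obtain ⟨h1, h2⟩ := (hDm N).1 hD
    refine ⟨?_, ok_dgM P N, h2, hcl N⟩
    have h3 := hΦ (dgM P N) (ok_dgM P N) h2
    rwa [← eq_expM hN h1] at h3
  · intro M hM hΨM
    have hR := dgM_R (P := P) (D := D) (ar := ar) hM (hrec M hM hΨM)
    refine ⟨expM ar D M, ok_expM ar D M, (hDm _).2 ⟨?_, ?_⟩, ?_⟩
    · intro r l hl
      obtain ⟨C, ne, R⟩ := M
      have key : ∀ R' : ℕ → List C → Prop, R' = R →
          (D r.1 ⟨C, ne, R'⟩ (asg ⟨C, ne, R'⟩ l) ↔ D r.1 ⟨C, ne, R⟩ (asg ⟨C, ne, R⟩ l)) := by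
        rintro _ rfl
        exact Iff.rfl
      refine Iff.trans ?_ (key _ hR).symm
      constructor
      · exact fun h => h.2
      · intro h
        refine ⟨?_, h⟩
        rw [List.getElem?_eq_some_iff]
        exact ⟨r.2, hl.symm⟩
    · obtain ⟨C, ne, R⟩ := M
      have key : ∀ R' : ℕ → List C → Prop, R' = R → (Ψ ⟨C, ne, R'⟩ ↔ Ψ ⟨C, ne, R⟩) := by
        rintro _ rfl
        exact Iff.rfl
      exact (key _ hR).2 hΨM
    · obtain ⟨C, ne, R⟩ := M
      have key : ∀ R' : ℕ → List C → Prop, R' = R → Th ⟨C, ne, R'⟩ = Th ⟨C, ne, R⟩ := by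
        rintro _ rfl
        rfl
      exact key _ hR
  · intro n
    refine ⟨n + ((Finset.range ar.length).sup (fun r => (ψ r).qr) + 1), fun N N' hN hN' hD hD' h => ?_⟩
    obtain ⟨h1, -⟩ := (hDm N).1 hD
    obtain ⟨h1', -⟩ := (hDm N').1 hD'
    exact ef_same hloc ψ hψ _ (fun r hr => Finset.le_sup (f := fun r => (ψ r).qr) (Finset.mem_range.2 hr))
      hN hN' h1 h1' n ∅ h

end CB.IC
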