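import Pool.Agent.Work.MP_cb528c_lc.IRes

set_option autoImplicit false
set_option linter.all false

/-!
# MP_cb528c_lc, module ITr (M): the translation of formulas for an interpretation by binary relations

By `fo_restrict` there are `γ` with `fv ⊆ [1]` defining `P N (s 1)` and `β r` with `fv ⊆ [1, 3]` defining `R r N (s 1) (s 3)`.
As only `s 1`, `s 3` matter in `γ`, `β r`, their bound variables are irrelevant. Put
`Pf i := ex 1 (and (eq 1 (2 * i)) γ)` (holds iff `P N (s (2 i))`, `fv ⊆ [2 i]`; note `2 i ≠ 1`),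
`Rf r i j := ex 1 (and (eq 1 (2 * i)) (ex 3 (and (eq 3 (2 * j)) (β r))))` (holds iff `R r N (s (2 i)) (s (2 j))`, `fv ⊆ [2 i, 2 j]`),
and define `tr` by structural recursion:
`tr (rel r v) = if r < L and v = [i, j] then Rf r i j else neg tru`, `tr (eq i j) = eq (2 * i) (2 * j)`, `tr (neg φ) = neg (tr φ)`,
`tr (and φ ψ) = and (tr φ) (tr ψ)`, `tr (ex i φ) = ex (2 * i) (and (Pf i) (tr φ))`.
* Primitive recursive by `Fm.primrec_rec` (with `α = Unit`, or any), `Fm.primrec_ex, primrec_and, primrec_eq`. For `rel`: for fixed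
  `r < L` the formula is primitive recursive in `v` (`v.length = 2`, `v.headI`, `v.tail.headI` or `v[0]?`); the finitely many `r < L`
  by nested `if r = 0 then .. else if r = 1 ..` (induction on `L`: `Primrec.ite`), or `List.getD` of the list of the
  `L` constants `β r`: `(List.map β (List.range L)).getD r tru` is `Primrec` in `r` (`Primrec.list_getD`), so
  `Rf` = `ex 1 (and (eq 1 (2 i)) (ex 3 (and (eq 3 (2 j)) (constList.getD r tru))))`.
* `fv (tr φ) ⊆ {2 i : i ∈ fv φ}` by induction; hence closed formulas go to closed formulas.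
* `Sat N s (tr φ) ↔ Sat M t φ` for `s (2 i) = e (t i)`, all `i`, by induction on `φ`. For `ex i φ`: `a : M.C` corresponds to `e a`,
  `Function.update s (2 i) (e a)` at `2 j` is `e (Function.update t i a j)`; every `b : N.C` with `P N b` is some `e a` (`rng`).
* for closed `φ`: choose `t` constant, `s i = e (t i)`, `mem_th_iff`.
-/

namespace CB.IC

/-- the relation formula -/
private def Rf (cl : List Fm) (r i j : ℕ) : Fm :=
  Fm.ex 1 (Fm.and (Fm.eq 1 (2 * i)) (Fm.ex 3 (Fm.and (Fm.eq 3 (2 * j)) (cl.getD r Fm.tru))))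

private def Pf (γ : Fm) (i : ℕ) : Fm := Fm.ex 1 (Fm.and (Fm.eq 1 (2 * i)) γ)

private def trRel (L : ℕ) (cl : List Fm) (r : ℕ) (v : List ℕ) : Fm :=
  if r < L ∧ v.length = 2 then Rf cl r (v.getD 0 0) (v.getD 1 0) else Fm.neg Fm.tru

private def tr (L : ℕ) (cl : List Fm) (γ : Fm) : Fm → Fm
  | Fm.rel r v => trRel L cl r v
  | Fm.eq i j => Fm.eq (2 * i) (2 * j)
  | Fm.neg φ => Fm.neg (tr L cl γ φ)
  | Fm.and φ ψ => Fm.and (tr L cl γ φ) (tr L cl γ ψ)
  | Fm.ex i φ => Fm.ex (2 * i) (Fm.and (Pf γ i) (tr L cl γ φ))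

private theorem prim_two {α : Type} [Primcodable α] {f : α → ℕ} (hf : Primrec f) :
    Primrec (fun a => 2 * f a) := Primrec.nat_mul.comp (Primrec.const 2) hf

private theorem prim_eq' {α : Type} [Primcodable α] (c : ℕ) {f : α → ℕ} (hf : Primrec f) :
    Primrec (fun a => Fm.eq c (2 * f a)) := Fm.primrec_eq.comp (Primrec.const c) (prim_two hf)

private theorem tr_prim (L : ℕ) (cl : List Fm) (γ : Fm) : Primrec (tr L cl γ) := by
  have h := Fm.primrec_rec (α := Unit) (σ := Fm) (f := fun _ φ => tr L cl γ φ)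
    (frel := fun _ r v => trRel L cl r v) (by
      have hr : Primrec (fun x : Unit × ℕ × List ℕ => x.2.1) := Primrec.fst.comp Primrec.snd
      have hv : Primrec (fun x : Unit × ℕ × List ℕ => x.2.2) := Primrec.snd.comp Primrec.snd
      have hi : Primrec (fun x : Unit × ℕ × List ℕ => x.2.2.getD 0 0) :=
        (Primrec.list_getD 0).comp hv (Primrec.const 0)
      have hj : Primrec (fun x : Unit × ℕ × List ℕ => x.2.2.getD 1 0) :=
        (Primrec.list_getD 0).comp hv (Primrec.const 1)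
      have hc : PrimrecPred (fun x : Unit × ℕ × List ℕ => x.2.1 < L ∧ x.2.2.length = 2) :=
        (Primrec.nat_lt.comp hr (Primrec.const L)).and
          (Primrec.eq.comp (Primrec.list_length.comp hv) (Primrec.const 2))
      have hb : Primrec (fun x : Unit × ℕ × List ℕ => cl.getD x.2.1 Fm.tru) :=
        (Primrec.list_getD Fm.tru).comp (Primrec.const cl) hr
      have hR : Primrec (fun x : Unit × ℕ × List ℕ => Rf cl x.2.1 (x.2.2.getD 0 0) (x.2.2.getD 1 0)) :=
        Fm.primrec_ex.comp (Primrec.const 1) (Fm.primrec_and.comp (prim_eq' 1 hi)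
          (Fm.primrec_ex.comp (Primrec.const 3) (Fm.primrec_and.comp (prim_eq' 3 hj) hb)))
      exact Primrec.ite hc hR (Primrec.const _))
    (feq := fun _ i j => Fm.eq (2 * i) (2 * j))
    (Fm.primrec_eq.comp (prim_two (Primrec.fst.comp Primrec.snd))
      (prim_two (Primrec.snd.comp Primrec.snd)))
    (fneg := fun _ _ s => Fm.neg s) (Fm.primrec_neg.comp (Primrec.snd.comp Primrec.snd))
    (fand := fun _ _ _ s t => Fm.and s t)
    (Fm.primrec_and.comp (Primrec.fst.comp (Primrec.snd.comp (Primrec.snd.comp Primrec.snd)))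
      (Primrec.snd.comp (Primrec.snd.comp (Primrec.snd.comp Primrec.snd))))
    (fex := fun _ i _ s => Fm.ex (2 * i) (Fm.and (Pf γ i) s))
    (by
      have hi : Primrec (fun x : Unit × ℕ × Fm × Fm => x.2.1) := Primrec.fst.comp Primrec.snd
      exact Fm.primrec_ex.comp (prim_two hi) (Fm.primrec_and.comp
        (Fm.primrec_ex.comp (Primrec.const 1) (Fm.primrec_and.comp (prim_eq' 1 hi) (Primrec.const γ)))
        (Primrec.snd.comp (Primrec.snd.comp Primrec.snd))))
    (fun _ _ _ => rfl) (fun _ _ _ => rfl) (fun _ _ => rfl) (fun _ _ _ => rfl) (fun _ _ _ => rfl)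
  exact h.comp (Primrec.const ()) Primrec.id

private theorem mem_fv_ex {i k : ℕ} {φ : Fm} : k ∈ (Fm.ex i φ).fv ↔ k ∈ φ.fv ∧ k ≠ i := by
  simp [Fm.fv]

private theorem mem_fv_and {k : ℕ} {φ ψ : Fm} : k ∈ (Fm.and φ ψ).fv ↔ k ∈ φ.fv ∨ k ∈ ψ.fv := by
  simp [Fm.fv]

private theorem mem_fv_eq {k i j : ℕ} : k ∈ (Fm.eq i j).fv ↔ k = i ∨ k = j := by
  simp [Fm.fv]

private theorem Pf_fv {γ : Fm} (hγ : ∀ i ∈ γ.fv, i ∈ [1]) (i k : ℕ) (hk : k ∈ (Pf γ i).fv) :
    k = 2 * i := by
  unfold Pf at hk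
  rw [mem_fv_ex, mem_fv_and, mem_fv_eq] at hk
  obtain ⟨(h | h) | h, h1⟩ := hk
  · exact absurd h h1
  · exact h
  · exact absurd (List.mem_singleton.1 (hγ k h)) h1

private theorem Rf_fv {cl : List Fm} {r : ℕ} (hcl : ∀ i ∈ (cl.getD r Fm.tru).fv, i ∈ [1, 3])
    (i j k : ℕ) (hk : k ∈ (Rf cl r i j).fv) : k = 2 * i ∨ k = 2 * j := by
  unfold Rf at hk
  rw [mem_fv_ex, mem_fv_and, mem_fv_eq, mem_fv_ex, mem_fv_and, mem_fv_eq] at hk
  obtain ⟨(h | h) | ⟨(h | h) | h, h2⟩, h1⟩ := hk
  · exact absurd h h1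
  · exact Or.inl h
  · exact absurd h h2
  · exact Or.inr h
  · have h3 := hcl k h
    simp only [List.mem_cons, List.mem_nil_iff, or_false] at h3
    rcases h3 with h3 | h3
    · exact absurd h3 h1
    · exact absurd h3 h2

private theorem tr_fv {L : ℕ} {cl : List Fm} {γ : Fm} (hγ : ∀ i ∈ γ.fv, i ∈ [1])
    (hcl : ∀ r < L, ∀ i ∈ (cl.getD r Fm.tru).fv, i ∈ [1, 3]) (φ : Fm) :
    ∀ k ∈ (tr L cl γ φ).fv, ∃ i ∈ φ.fv, k = 2 * i := by
  induction φ with
  | rel r v =>
    intro k hk
    change k ∈ (trRel L cl r v).fv at hk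
    unfold trRel at hk
    split_ifs at hk with h
    · obtain ⟨h1, h2⟩ := h
      match v, h2 with
      | [a, b], _ =>
        rcases Rf_fv (hcl r h1) _ _ k hk with h3 | h3
        · exact ⟨a, by simp [Fm.fv], h3⟩
        · exact ⟨b, by simp [Fm.fv], h3⟩
    · exact absurd hk (by simp [Fm.fv, Fm.tru])
  | eq i j =>
    intro k hk
    change k ∈ (Fm.eq (2 * i) (2 * j)).fv at hk
    rw [mem_fv_eq] at hk
    rcases hk with h | h
    · exact ⟨i, by simp [Fm.fv], h⟩
    · exact ⟨j, by simp [Fm.fv], h⟩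
  | neg φ ih => exact ih
  | and φ ψ ih1 ih2 =>
    intro k hk
    change k ∈ (Fm.and (tr L cl γ φ) (tr L cl γ ψ)).fv at hk
    rw [mem_fv_and] at hk
    rcases hk with h | h
    · obtain ⟨i, hi, e⟩ := ih1 k h
      exact ⟨i, mem_fv_and.2 (Or.inl hi), e⟩
    · obtain ⟨i, hi, e⟩ := ih2 k h
      exact ⟨i, mem_fv_and.2 (Or.inr hi), e⟩
  | ex i φ ih =>
    intro k hk
    change k ∈ (Fm.ex (2 * i) (Fm.and (Pf γ i) (tr L cl γ φ))).fv at hk
    rw [mem_fv_ex, mem_fv_and] at hk
    obtain ⟨h | h, h1⟩ := hk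
    · exact absurd (Pf_fv hγ i k h) h1
    · obtain ⟨j, hj, e⟩ := ih k h
      refine ⟨j, mem_fv_ex.2 ⟨hj, fun hji => h1 ?_⟩, e⟩
      rw [e, hji]

theorem tr_exists (L : ℕ) (P : (N : Mdl) → N.C → Prop) (R : ℕ → (N : Mdl) → N.C → N.C → Prop)
    (hP : FO (fun N s => P N (s 1))) (hR : ∀ r, FO (fun N s => R r N (s 1) (s 3))) :
    ∃ tr : Fm → Fm, Computable tr ∧ (∀ φ, φ.Closed → (tr φ).Closed) ∧
      ∀ (N M : Mdl) (e : M.C → N.C), IsSub L N M (P N) (fun r => R r N) e →
        (∀ φ (s : ℕ → N.C) (t : ℕ → M.C), (∀ i, s (2 * i) = e (t i)) → (Sat N s (tr φ) ↔ Sat M t φ)) ∧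
        ∀ φ, φ.Closed → (tr φ ∈ Th N ↔ φ ∈ Th M) := by
  obtain ⟨γ, hγ1, hγ2⟩ := fo_restrict hP [1] (fun N s t h => by rw [h 1 (by simp)])
  have hR' : ∀ r, ∃ β : Fm, (∀ i ∈ β.fv, i ∈ [1, 3]) ∧ ∀ (N : Mdl) (s : ℕ → N.C), Sat N s β ↔
      R r N (s 1) (s 3) := fun r => fo_restrict (hR r) [1, 3] (fun N s t h => by
    rw [h 1 (by simp), h 3 (by simp)])
  choose β hβ1 hβ2 using hR'
  set cl : List Fm := (List.range L).map β with hcl
  have hget : ∀ r < L, cl.getD r Fm.tru = β r := by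
    intro r hr
    rw [hcl, List.getD_eq_getElem?_getD, List.getElem?_map, List.getElem?_range hr]
    rfl
  have hPf : ∀ (N : Mdl) (s : ℕ → N.C) (i : ℕ), Sat N s (Pf γ i) ↔ P N (s (2 * i)) := by
    intro N s i
    have h1 : (2 * i : ℕ) ≠ 1 := by omega
    unfold Pf
    rw [sat_ex]
    simp only [sat_and, sat_eq, hγ2, Function.update_self, Function.update_of_ne h1]
    constructor
    · rintro ⟨a, rfl, h⟩
      exact h
    · intro h
      exact ⟨_, rfl, h⟩
  have hRf : ∀ (N : Mdl) (s : ℕ → N.C) (r i j : ℕ), r < L →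
      (Sat N s (Rf cl r i j) ↔ R r N (s (2 * i)) (s (2 * j))) := by
    intro N s r i j hr
    have h1 : (2 * i : ℕ) ≠ 1 := by omega
    have h2 : (2 * j : ℕ) ≠ 1 := by omega
    have h3 : (2 * j : ℕ) ≠ 3 := by omega
    have h4 : (1 : ℕ) ≠ 3 := by omega
    unfold Rf
    rw [hget r hr, sat_ex]
    simp only [sat_and, sat_eq, sat_ex, hβ2, Function.update_self, Function.update_of_ne h1,
      Function.update_of_ne h2, Function.update_of_ne h3, Function.update_of_ne h4]
    constructor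
    · rintro ⟨a, rfl, b, rfl, h⟩
      exact h
    · intro h
      exact ⟨_, rfl, _, rfl, h⟩
  have hclosed : ∀ φ : Fm, φ.Closed → (tr L cl γ φ).Closed := by
    intro φ hφ
    rw [closed_iff]
    intro k hk
    obtain ⟨i, hi, -⟩ := tr_fv hγ1 (fun r hr i hi => by
      rw [hget r hr] at hi
      exact hβ1 r i hi) φ k hk
    exact closed_iff.1 hφ i hi
  refine ⟨tr L cl γ, (tr_prim L cl γ).to_comp, hclosed, fun N M e he => ?_⟩
  have main : ∀ φ (s : ℕ → N.C) (t : ℕ → M.C), (∀ i, s (2 * i) = e (t i)) →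
      (Sat N s (tr L cl γ φ) ↔ Sat M t φ) := by
    intro φ
    induction φ with
    | rel r v =>
      intro s t hst
      change Sat N s (trRel L cl r v) ↔ _
      rw [sat_rel, he.rel]
      unfold trRel
      by_cases h : r < L ∧ v.length = 2
      · rw [if_pos h, hRf N s r _ _ h.1]
        obtain ⟨h1, h2⟩ := h
        match v, h2 with
        | [a, b], _ =>
          change R r N (s (2 * a)) (s (2 * b)) ↔ _
          rw [hst a, hst b]
          constructor
          · intro h3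
            exact ⟨h1, t a, t b, rfl, h3⟩
          · rintro ⟨-, x, y, h3, h4⟩
            have h5 : [t a, t b] = [x, y] := h3
            obtain ⟨h6, h7⟩ := List.cons.inj h5
            obtain ⟨h7, -⟩ := List.cons.inj h7
            rw [h6, h7]
            exact h4
      · rw [if_neg h, sat_neg, sat_tru]
        constructor
        · intro h3
          exact absurd trivial h3
        · rintro ⟨h3, x, y, h4, -⟩
          exact absurd ⟨h3, by
            have h5 := congrArg List.length h4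
            rw [List.length_map] at h5
            exact h5⟩ h
    | eq i j =>
      intro s t hst
      change Sat N s (Fm.eq (2 * i) (2 * j)) ↔ _
      rw [sat_eq, sat_eq, hst, hst]
      exact he.inj.eq_iff
    | neg φ ih =>
      intro s t hst
      change Sat N s (Fm.neg (tr L cl γ φ)) ↔ _
      rw [sat_neg, sat_neg, ih s t hst]
    | and φ ψ ih1 ih2 =>
      intro s t hst
      change Sat N s (Fm.and (tr L cl γ φ) (tr L cl γ ψ)) ↔ _
      rw [sat_and, sat_and, ih1 s t hst, ih2 s t hst]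
    | ex i φ ih =>
      intro s t hst
      change Sat N s (Fm.ex (2 * i) (Fm.and (Pf γ i) (tr L cl γ φ))) ↔ _
      rw [sat_ex, sat_ex]
      have hup : ∀ a : M.C, ∀ j, Function.update s (2 * i) (e a) (2 * j) =
          e (Function.update t i a j) := by
        intro a j
        by_cases hji : j = i
        · subst hji
          rw [Function.update_self, Function.update_self]
        · rw [Function.update_of_ne hji, Function.update_of_ne (by omega), hst]
      constructor
      · rintro ⟨b, hb⟩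
        rw [sat_and, hPf, Function.update_self] at hb
        obtain ⟨a, rfl⟩ := (he.rng b).1 hb.1
        exact ⟨a, (ih _ _ (hup a)).1 hb.2⟩
      · rintro ⟨a, ha⟩
        refine ⟨e a, ?_⟩
        rw [sat_and, hPf, Function.update_self]
        exact ⟨(he.rng _).2 ⟨a, rfl⟩, (ih _ _ (hup a)).2 ha⟩
  refine ⟨main, fun φ hφ => ?_⟩
  obtain ⟨a⟩ := M.ne
  rw [mem_th_iff (hclosed φ hφ) (fun _ => e a), mem_th_iff hφ (fun _ => a)]
  exact main φ _ _ fun i => rfl

end CB.IC
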