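import Pool.Agent.Work.MP_cb528c_lc.IDefs

set_option autoImplicit false
set_option linter.all false

/-!
# MP_cb528c_lc, module ITrans (S): composition of interpretations

`Γ = Γ1 ∘ Γ2`, `tr = tr2 ∘ tr1` (`Computable.comp`), `Dm = and Dm2 (tr2 Dm1)` (closed: `fv` of `and` is the append; membership
in `Th N`: `mem_th_iff` and `sat_and`, `N.ne` gives an assignment).
* `N` with `Dm`: `Dm2 ∈ Th N`, `tr2 Dm1 ∈ Th N`, so `Dm1 ∈ Th (Γ2 N)`, `Γ2 N` is `Ok ar1`; apply the property of `Γ1` to `Γ2 N`.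
* existence: `M`, then `N1` with `Dm1 ∈ Th N1`, `Th (Γ1 N1) = Th M`; the property of `Γ1` gives `Ψ N1`; then `N2` with
  `Dm2 ∈ Th N2`, `Th (Γ2 N2) = Th N1`; `Dm1 ∈ Th (Γ2 N2)`, so `tr2 Dm1 ∈ Th N2`. `Th (Γ1 (Γ2 N2)) = Th (Γ1 N1)`: for closed
  `φ` (members of `Th` are closed): `φ ∈ Th (Γ1 (Γ2 N2)) ↔ tr1 φ ∈ Th (Γ2 N2) = Th N1 ↔ φ ∈ Th (Γ1 N1)`.
* EF: `n ↦ m2` (for `Γ2`) `↦ m1` (for `Γ1`).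
-/

namespace CB.IC

private theorem and_cl {φ ψ : Fm} : (Fm.and φ ψ).Closed ↔ φ.Closed ∧ ψ.Closed := by
  unfold Fm.Closed
  show Fm.fv φ ++ Fm.fv ψ = [] ↔ _
  exact List.append_eq_nil_iff

private theorem and_mem {M : Mdl} {φ ψ : Fm} : Fm.and φ ψ ∈ Th M ↔ φ ∈ Th M ∧ ψ ∈ Th M := by
  constructor
  · rintro ⟨h1, h2⟩
    obtain ⟨h3, h4⟩ := and_cl.1 h1
    exact ⟨⟨h3, fun s => (h2 s).1⟩, ⟨h4, fun s => (h2 s).2⟩⟩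
  · rintro ⟨⟨h1, h2⟩, ⟨h3, h4⟩⟩
    exact ⟨and_cl.2 ⟨h1, h3⟩, fun s => ⟨h2 s, h4 s⟩⟩

theorem interp_trans {ar0 ar1 ar2 : List ℕ} {Ψ Φ : Mdl → Prop} (h1 : Interp ar0 ar1 Ψ) (h2 : IntR ar1 Ψ ar2 Φ) :
    Interp ar0 ar2 Φ := by
  obtain ⟨Dm1, tr1, Γ1, hc1, hcomp1, hcl1, hp1, hr1, he1⟩ := h1
  obtain ⟨Dm2, tr2, Γ2, hc2, hcomp2, hcl2, hp2, hr2, he2⟩ := h2
  refine ⟨Fm.and Dm2 (tr2 Dm1), fun φ => tr2 (tr1 φ), fun N => Γ1 (Γ2 N), and_cl.2 ⟨hc2, hcl2 _ hc1⟩,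
    hcomp2.comp hcomp1, fun φ hφ => hcl2 _ (hcl1 _ hφ), ?_, ?_, ?_⟩
  · intro N hN hD
    obtain ⟨hD2, hD1⟩ := and_mem.1 hD
    obtain ⟨hΦ, hok, hΨ, htr⟩ := hp2 N hN hD2
    obtain ⟨-, hok1, htr1⟩ := hp1 (Γ2 N) hok ((htr _ hc1).1 hD1)
    exact ⟨hΦ, hok1, fun φ hφ => (htr _ (hcl1 _ hφ)).trans (htr1 φ hφ)⟩
  · intro M hM
    obtain ⟨N1, hN1, hD1, hT1⟩ := hr1 M hM
    obtain ⟨hΨ1, hok1, htr1⟩ := hp1 N1 hN1 hD1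
    obtain ⟨N2, hN2, hD2, hT2⟩ := hr2 N1 hN1 hΨ1
    obtain ⟨hΦ, hok, hΨ, htr⟩ := hp2 N2 hN2 hD2
    have hD12 : Dm1 ∈ Th (Γ2 N2) := by rw [hT2]; exact hD1
    refine ⟨N2, hN2, and_mem.2 ⟨hD2, (htr _ hc1).2 hD12⟩, ?_⟩
    obtain ⟨-, -, htr12⟩ := hp1 (Γ2 N2) hok hD12
    rw [← hT1]
    ext φ
    by_cases hφ : φ.Closed
    · rw [← htr12 φ hφ, hT2, htr1 φ hφ]
    · exact ⟨fun k => absurd k.1 hφ, fun k => absurd k.1 hφ⟩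
  · intro n
    obtain ⟨m2, hm2⟩ := he2 n
    obtain ⟨m1, hm1⟩ := he1 m2
    refine ⟨m1, fun N N' hN hN' hD hD' hE => ?_⟩
    obtain ⟨hD2, hD1⟩ := and_mem.1 hD
    obtain ⟨hD2', hD1'⟩ := and_mem.1 hD'
    obtain ⟨-, hok, -, htr⟩ := hp2 N hN hD2
    obtain ⟨-, hok', -, htr'⟩ := hp2 N' hN' hD2'
    exact hm2 N N' hN hN' hD2 hD2'
      (hm1 (Γ2 N) (Γ2 N') hok hok' ((htr _ hc1).1 hD1) ((htr' _ hc1).1 hD1') hE)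

end CB.IC
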