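import Pool.Agent.Work.MP_cb528c_lc.HdClass

set_option autoImplicit false
set_option linter.all false

/-!
# MP_cb528c_lc, module InstF: instances as formulas

The constant `k` is represented by the variable `2 k + 1`; the variables of `ψ` are doubled.
`instF ψ e` says: `ψ` holds when variable `i` has the value of the constant `asg e i`.
-/

namespace CB

/-- rename the variable `i` to `2 i` -/
def Fm.dbl : Fm → Fm
  | Fm.rel r v => Fm.rel r (v.map (fun i => 2 * i))
  | Fm.eq i j => Fm.eq (2 * i) (2 * j)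
  | Fm.neg φ => Fm.neg (dbl φ)
  | Fm.and φ ψ => Fm.and (dbl φ) (dbl ψ)
  | Fm.ex i φ => Fm.ex (2 * i) (dbl φ)

/-- the instance `(ψ, e)` as a formula in the variables `2 k + 1` -/
def instF (ψ : Fm) (e : List ℕ) : Fm :=
  ψ.fv.foldr (fun i φ => Fm.ex (2 * i) (Fm.and (Fm.eq (2 * i) (2 * asg e i + 1)) φ)) ψ.dbl

/-- close by existential quantifiers over the constants below `K` -/
def exC : ℕ → Fm → Fm
  | 0, φ => φ
  | K + 1, φ => exC K (Fm.ex (2 * K + 1) φ)

theorem sat_dbl {M : Mdl} (ψ : Fm) (s : ℕ → M.C) : Sat M s ψ.dbl ↔ Sat M (fun i => s (2 * i)) ψ := by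
  induction ψ generalizing s with
  | rel r v =>
    show M.R r ((v.map fun i => 2 * i).map s) ↔ M.R r (v.map fun i => s (2 * i))
    rw [List.map_map]
    rfl
  | eq i j => exact Iff.rfl
  | neg φ ih =>
    show ¬ Sat M s φ.dbl ↔ ¬ Sat M _ φ
    rw [ih]
  | and φ ψ ih1 ih2 =>
    show Sat M s φ.dbl ∧ Sat M s ψ.dbl ↔ Sat M _ φ ∧ Sat M _ ψ
    rw [ih1, ih2]
  | ex i φ ih =>
    show (∃ a, Sat M (Function.update s (2 * i) a) φ.dbl) ↔
      ∃ a, Sat M (Function.update (fun i => s (2 * i)) i a) φ
    refine exists_congr fun a => ?_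
    rw [ih]
    have e1 : (fun j => Function.update s (2 * i) a (2 * j)) =
        Function.update (fun i => s (2 * i)) i a := by
      funext j
      by_cases hj : j = i
      · subst hj
        simp
      · rw [Function.update_of_ne hj, Function.update_of_ne (by omega)]
    rw [e1]

theorem fv_dbl (ψ : Fm) : ψ.dbl.fv = ψ.fv.map (fun i => 2 * i) := by
  induction ψ with
  | rel r v => rfl
  | eq i j => rfl
  | neg φ ih => exact ih
  | and φ ψ ih1 ih2 =>
    show φ.dbl.fv ++ ψ.dbl.fv = (φ.fv ++ ψ.fv).map _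
    rw [ih1, ih2, List.map_append]
  | ex i φ ih =>
    show φ.dbl.fv.filter (fun j => j ≠ 2 * i) = (φ.fv.filter (fun j => j ≠ i)).map _
    rw [ih, List.filter_map]
    congr 1
    apply List.filter_congr
    intro j _
    simp

private def fold (e : List ℕ) (l : List ℕ) (φ : Fm) : Fm :=
  l.foldr (fun i φ => Fm.ex (2 * i) (Fm.and (Fm.eq (2 * i) (2 * asg e i + 1)) φ)) φ

private theorem sat_fold {M : Mdl} (e : List ℕ) (l : List ℕ) (φ : Fm) (s : ℕ → M.C) :
    Sat M s (fold e l φ) ↔ Sat M (fun j => if j % 2 = 0 ∧ j / 2 ∈ l then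
      s (2 * asg e (j / 2) + 1) else s j) φ := by
  classical
  induction l generalizing s with
  | nil =>
    have e1 : (fun j => if j % 2 = 0 ∧ j / 2 ∈ ([] : List ℕ) then
      s (2 * asg e (j / 2) + 1) else s j) = s := by
      funext j
      simp
    rw [e1]
    rfl
  | cons i l ih =>
    show (∃ a, Function.update s (2 * i) a (2 * i) =
      Function.update s (2 * i) a (2 * asg e i + 1) ∧
      Sat M (Function.update s (2 * i) a) (fold e l φ)) ↔ _
    have e1 : ∀ a, Function.update s (2 * i) a (2 * asg e i + 1) = s (2 * asg e i + 1) := by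
      intro a
      rw [Function.update_of_ne (by omega)]
    have e2 : (∃ a, Function.update s (2 * i) a (2 * i) =
      Function.update s (2 * i) a (2 * asg e i + 1) ∧
      Sat M (Function.update s (2 * i) a) (fold e l φ)) ↔
      Sat M (Function.update s (2 * i) (s (2 * asg e i + 1))) (fold e l φ) := by
      constructor
      · rintro ⟨a, h1, h2⟩
        rw [Function.update_self, e1] at h1
        rw [← h1]
        exact h2
      · intro h
        exact ⟨_, by rw [Function.update_self, e1], h⟩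
    rw [e2, ih]
    have e3 : (fun j => if j % 2 = 0 ∧ j / 2 ∈ l then
        Function.update s (2 * i) (s (2 * asg e i + 1)) (2 * asg e (j / 2) + 1)
        else Function.update s (2 * i) (s (2 * asg e i + 1)) j) =
        (fun j => if j % 2 = 0 ∧ j / 2 ∈ i :: l then s (2 * asg e (j / 2) + 1) else s j) := by
      funext j
      by_cases h1 : j % 2 = 0 ∧ j / 2 ∈ l
      · rw [if_pos h1, if_pos ⟨h1.1, List.mem_cons_of_mem _ h1.2⟩,
          Function.update_of_ne (by omega)]
      · rw [if_neg h1]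
        by_cases h2 : j = 2 * i
        · subst h2
          have h3 : 2 * i / 2 = i := by omega
          rw [if_pos ⟨by omega, by rw [h3]; exact List.mem_cons_self⟩, Function.update_self, h3]
        · rw [Function.update_of_ne h2, if_neg]
          rintro ⟨h3, h4⟩
          rcases List.mem_cons.1 h4 with h5 | h5
          · omega
          · exact h1 ⟨h3, h5⟩
    rw [e3]

private theorem fv_fold (e : List ℕ) (l : List ℕ) (φ : Fm) :
    ∀ j ∈ (fold e l φ).fv, (∃ i ∈ l, j = 2 * asg e i + 1) ∨ (j ∈ φ.fv ∧ ∀ i ∈ l, j ≠ 2 * i) := by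
  induction l with
  | nil =>
    intro j hj
    exact Or.inr ⟨hj, by simp⟩
  | cons i l ih =>
    intro j hj
    have hj' : j ∈ (([2 * i, 2 * asg e i + 1] ++ (fold e l φ).fv).filter
        (fun j => j ≠ 2 * i)) := hj
    rw [List.mem_filter] at hj'
    obtain ⟨h1, h2⟩ := hj'
    have h2' : j ≠ 2 * i := by simpa using h2
    rcases List.mem_append.1 h1 with h3 | h3
    · have h4 : j = 2 * i ∨ j = 2 * asg e i + 1 := by simpa using h3
      rcases h4 with h4 | h4
      · exact absurd h4 h2'
      · exact Or.inl ⟨i, List.mem_cons_self, h4⟩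
    · rcases ih j h3 with ⟨k, hk, h4⟩ | ⟨h4, h5⟩
      · exact Or.inl ⟨k, List.mem_cons_of_mem _ hk, h4⟩
      · refine Or.inr ⟨h4, fun k hk => ?_⟩
        rcases List.mem_cons.1 hk with rfl | hk
        · exact h2'
        · exact h5 k hk

theorem sat_instF {M : Mdl} (ψ : Fm) (e : List ℕ) (s : ℕ → M.C) :
    Sat M s (instF ψ e) ↔ Sat M (fun i => s (2 * asg e i + 1)) ψ := by
  show Sat M s (fold e ψ.fv ψ.dbl) ↔ _
  rw [sat_fold, sat_dbl]
  refine sat_congr fun i hi => ?_
  have h1 : 2 * i / 2 = i := by omega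
  show (if 2 * i % 2 = 0 ∧ 2 * i / 2 ∈ ψ.fv then s (2 * asg e (2 * i / 2) + 1) else s (2 * i)) = _
  rw [if_pos ⟨by omega, by rw [h1]; exact hi⟩, h1]

theorem fv_instF (ψ : Fm) (e : List ℕ) : ∀ j ∈ (instF ψ e).fv, ∃ i ∈ ψ.fv, j = 2 * asg e i + 1 := by
  intro j hj
  rcases fv_fold e ψ.fv ψ.dbl j hj with h | ⟨h1, h2⟩
  · exact h
  · rw [fv_dbl] at h1
    obtain ⟨i, hi, rfl⟩ := List.mem_map.1 h1
    exact absurd rfl (h2 i hi)

theorem sat_exC {M : Mdl} (K : ℕ) (φ : Fm) (s : ℕ → M.C) :
    Sat M s (exC K φ) ↔ ∃ m : ℕ → M.C, Sat M (fun j => if j % 2 = 1 ∧ j / 2 < K then m (j / 2) else s j) φ := by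
  induction K generalizing φ with
  | zero =>
    obtain ⟨a⟩ := M.ne
    have e1 : ∀ m : ℕ → M.C, (fun j => if j % 2 = 1 ∧ j / 2 < 0 then m (j / 2) else s j) = s := by
      intro m
      funext j
      simp
    constructor
    · intro h
      exact ⟨fun _ => a, (congrArg (fun t => Sat M t φ) (e1 (fun _ => a))).mpr h⟩
    · rintro ⟨m, h⟩
      exact (congrArg (fun t => Sat M t φ) (e1 m)).mp h
  | succ K ih =>
    show Sat M s (exC K (Fm.ex (2 * K + 1) φ)) ↔ _
    rw [ih]
    constructor
    · rintro ⟨m, a, h⟩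
      refine ⟨Function.update m K a, ?_⟩
      have e1 : (fun j => if j % 2 = 1 ∧ j / 2 < K + 1 then Function.update m K a (j / 2) else s j) =
          Function.update (fun j => if j % 2 = 1 ∧ j / 2 < K then m (j / 2) else s j)
            (2 * K + 1) a := by
        funext j
        by_cases hj : j = 2 * K + 1
        · subst hj
          have h1 : (2 * K + 1) / 2 = K := by omega
          rw [Function.update_self, if_pos ⟨by omega, by omega⟩, h1, Function.update_self]
        · rw [Function.update_of_ne hj]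
          by_cases h2 : j % 2 = 1 ∧ j / 2 < K
          · rw [if_pos h2, if_pos ⟨h2.1, by omega⟩, Function.update_of_ne (by omega)]
          · rw [if_neg h2, if_neg (by omega)]
      rw [e1]
      exact h
    · rintro ⟨m, h⟩
      refine ⟨m, m K, ?_⟩
      have e1 : (fun j => if j % 2 = 1 ∧ j / 2 < K + 1 then m (j / 2) else s j) =
          Function.update (fun j => if j % 2 = 1 ∧ j / 2 < K then m (j / 2) else s j)
            (2 * K + 1) (m K) := by
        funext j
        by_cases hj : j = 2 * K + 1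
        · subst hj
          have h1 : (2 * K + 1) / 2 = K := by omega
          rw [Function.update_self, if_pos ⟨by omega, by omega⟩, h1]
        · rw [Function.update_of_ne hj]
          by_cases h2 : j % 2 = 1 ∧ j / 2 < K
          · rw [if_pos h2, if_pos ⟨h2.1, by omega⟩]
          · rw [if_neg h2, if_neg (by omega)]
      rw [e1] at h
      exact h

theorem fv_exC (K : ℕ) (φ : Fm) : ∀ j ∈ (exC K φ).fv, j ∈ φ.fv ∧ ¬ (j % 2 = 1 ∧ j / 2 < K) := by
  induction K generalizing φ with
  | zero =>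
    intro j hj
    exact ⟨hj, by omega⟩
  | succ K ih =>
    intro j hj
    obtain ⟨h1, h2⟩ := ih (Fm.ex (2 * K + 1) φ) j hj
    have h3 : j ∈ φ.fv.filter (fun j => j ≠ 2 * K + 1) := h1
    rw [List.mem_filter] at h3
    have h4 : j ≠ 2 * K + 1 := by simpa using h3.2
    exact ⟨h3.1, by omega⟩

theorem primrec_dbl : Primrec Fm.dbl := by
  have hd : Primrec (fun n : ℕ => 2 * n) := Primrec.nat_mul.comp (Primrec.const 2) Primrec.id
  have h := Fm.primrec_rec (α := ℕ) (σ := Fm) (f := fun _ φ => φ.dbl)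
    (frel := fun _ r v => Fm.rel r (v.map (fun i => 2 * i)))
    (Fm.primrec_rel.comp (Primrec.fst.comp Primrec.snd)
      (Primrec.list_map (Primrec.snd.comp Primrec.snd) (hd.comp Primrec.snd).to₂))
    (feq := fun _ i j => Fm.eq (2 * i) (2 * j))
    (Fm.primrec_eq.comp (hd.comp (Primrec.fst.comp Primrec.snd))
      (hd.comp (Primrec.snd.comp Primrec.snd)))
    (fneg := fun _ _ s => Fm.neg s)
    (Fm.primrec_neg.comp (Primrec.snd.comp Primrec.snd))
    (fand := fun _ _ _ s t => Fm.and s t)
    (Fm.primrec_and.comp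
      (Primrec.fst.comp (Primrec.snd.comp (Primrec.snd.comp Primrec.snd)))
      (Primrec.snd.comp (Primrec.snd.comp (Primrec.snd.comp Primrec.snd))))
    (fex := fun _ i _ s => Fm.ex (2 * i) s)
    (Fm.primrec_ex.comp (hd.comp (Primrec.fst.comp Primrec.snd))
      (Primrec.snd.comp (Primrec.snd.comp Primrec.snd)))
    (fun _ _ _ => rfl) (fun _ _ _ => rfl) (fun _ _ => rfl) (fun _ _ _ => rfl) (fun _ _ _ => rfl)
  exact h.comp (Primrec.const 0) Primrec.id

theorem primrec_instF : Primrec₂ instF := by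
  have hd : Primrec (fun n : ℕ => 2 * n) := Primrec.nat_mul.comp (Primrec.const 2) Primrec.id
  unfold Primrec₂ instF
  refine Primrec.list_foldr (α := Fm × List ℕ) (β := ℕ) (σ := Fm) (f := fun x => x.1.fv)
    (g := fun x => x.1.dbl)
    (h := fun x y => Fm.ex (2 * y.1) (Fm.and (Fm.eq (2 * y.1) (2 * asg x.2 y.1 + 1)) y.2))
    (Fm.primrec_fv.comp Primrec.fst) (primrec_dbl.comp Primrec.fst) ?_
  -- the step
  have hi : Primrec (fun x : (Fm × List ℕ) × (ℕ × Fm) => x.2.1) := Primrec.fst.comp Primrec.snd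
  have he : Primrec (fun x : (Fm × List ℕ) × (ℕ × Fm) => x.1.2) := Primrec.snd.comp Primrec.fst
  have hφ : Primrec (fun x : (Fm × List ℕ) × (ℕ × Fm) => x.2.2) := Primrec.snd.comp Primrec.snd
  have h2i := hd.comp hi
  have ha : Primrec (fun x : (Fm × List ℕ) × (ℕ × Fm) => 2 * asg x.1.2 x.2.1 + 1) :=
    Primrec.succ.comp (hd.comp (primrec_asg.comp he hi))
  exact Fm.primrec_ex.comp h2i (Fm.primrec_and.comp (Fm.primrec_eq.comp h2i ha) hφ)

theorem primrec_exC : Primrec₂ exC := by
  have hd : Primrec (fun n : ℕ => 2 * n) := Primrec.nat_mul.comp (Primrec.const 2) Primrec.id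
  have e1 : ∀ (K : ℕ) (φ : Fm), exC K φ =
      (List.range K).foldr (fun k φ => Fm.ex (2 * k + 1) φ) φ := by
    intro K
    induction K with
    | zero =>
      intro φ
      rfl
    | succ K ih =>
      intro φ
      rw [List.range_succ, List.foldr_append]
      exact ih _
  have e2 : exC = fun K φ => (List.range K).foldr (fun k φ => Fm.ex (2 * k + 1) φ) φ := by
    funext K φ
    exact e1 K φ
  rw [e2]
  unfold Primrec₂
  refine Primrec.list_foldr (α := ℕ × Fm) (β := ℕ) (σ := Fm) (f := fun x => List.range x.1)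
    (g := fun x => x.2) (h := fun _ y => Fm.ex (2 * y.1 + 1) y.2)
    (Primrec.list_range.comp Primrec.fst) Primrec.snd ?_
  exact Fm.primrec_ex.comp (Primrec.succ.comp (hd.comp (Primrec.fst.comp Primrec.snd)))
    (Primrec.snd.comp Primrec.snd)

end CB
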