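import Pool.Agent.Work.Helper86.Machine

set_option autoImplicit false
set_option linter.all false

/-!
# MP_cb528c_lc, module ProgF: while programs for primitive recursive functions of two variables

`Primrec₂ F` gives `Nat.Primrec'` for `fun v : List.Vector ℕ 2 => F v.head v.tail.head` (`Nat.Primrec'.of_prim` or
`Nat.Primrec'.prim_iff₂`), `comp_of_primrec` with inputs in the registers `0`, `1` and output in register `2`; then
`clr 0`, `clr 1`, `mv 2 0` (`Runs.clr`, `Runs.mv`, `Runs.seq`).  See the end of `universal_prog` in Helper86/Machine.lean for the style.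
-/

namespace CB

open Pool.Agent.Work.Helper86

theorem prog_of_primrec (F : ℕ → ℕ → ℕ) (hF : Primrec₂ F) :
    ∃ p : Prog, ∀ m b : ℕ, Runs p (ini m b) (ini (F m b) 0) := by
  have hf : Primrec (fun v : List.Vector ℕ 2 => F (v.get 0) (v.get 1)) :=
    hF.comp (Primrec.vector_get.comp .id (Primrec.const 0))
      (Primrec.vector_get.comp .id (Primrec.const 1))
  obtain ⟨P, hP⟩ := comp_of_primrec (Nat.Primrec'.of_prim hf) (fun i => (i : ℕ)) 2 3
    (fun i => by have := i.2; omega) (by omega) (fun i => by have := i.2; omega)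
  refine ⟨Prog.seq P (Prog.seq (clr 0) (Prog.seq (clr 1) (mv 2 0))), fun m b => ?_⟩
  have h1 := hP (ini m b) (by
    intro r hr
    simp only [ini]
    split_ifs <;> first | rfl | omega) rfl
  refine (Runs.seq h1 (Runs.seq (Runs.clr 0 _) (Runs.seq (Runs.clr 1 _)
    (Runs.mv 2 0 (by omega) _)))).congr ?_
  have hv : (fun v : List.Vector ℕ 2 => F (v.get 0) (v.get 1))
      (List.Vector.ofFn fun i : Fin 2 => ini m b (i : ℕ)) = F m b := rfl
  rw [hv]
  funext x
  rcases x with _ | _ | _ | x <;> simp [ini, Function.update_apply]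

end CB
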