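import Pool.Agent.Work.MP_cb528c_lc.NmDefs
import Pool.Agent.Work.MP_cb528c_lc.ProgF

set_option autoImplicit false
set_option linter.all false

/-!
# MP_cb528c_lc, module KLoop: a machine with choices iterating a primitive recursive function

Let `p` be the program of `prog_of_primrec` for `F' m b := F m (b ≠ 0)`, `C := toCM p 2` (states `C.Q`, finite; registers `Fin C.B`, `C.B ≥ 2`).
States of `K`: `Option (Bool ⊕ C.Q)`, numbered by `Fintype.equivFin`: hub `none`, `some (inl b)`, `some (inr x)`.
* hub: tests register `0`; if nonzero, choice `b` leads to `some (inl b)`, no change (if zero: no step).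
* `some (inl b)`: tests register `1`; only choice `false`: leads to `some (inr start)`, `start = [p]`, register `1` is increased if `b = true`.
* `some (inr x)`, `x` not the halting state: only choice `false`: step of `C` (`Op` translated to `Mv`; `op_ok`); `x` halting: to the hub,
  no change.
`H m := (hub, registers (m, 0, 0, ..))`.  `K.kstep b (H 0) = none`.  For `m ≠ 0`: from `H m` with `b` to `some (inl b)`, then to
`some (inr start)` with registers `ini m b`, then the run of `p` (`toCM_iterate`, `Runs p` with continuation `[]`), until the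
halting state is reached for the first time (the state `[]` is a fixed point of `stp`, so at the first time the
registers are already the final ones) with registers `ini (F m b) 0`, then the hub: `H (F m b)`.
`π m b i`: for `i = 0`: `H m`; for `i ≥ 1` the configuration after `i` steps (`kstep` with the first choice `b`, then `false`; where `kstep` is `none`
stay), as an iteration it is primitive recursive: all functions on the finite types are (`Primrec.of_finite`-like: `Primrec.dom_fintype`
/ `Primrec.dom_finite`), the update of the registers is a function of `Fin B → ℕ`.  `N m b` := the least `i ≥ 1` with `π m b i` at the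
hub, for `m ≠ 0` (`Nat.rfind`, computable), and `1` for `m = 0`.
-/

namespace CB

open Pool.Agent.Work.Helper86

/-! ### computability of the step -/

private theorem primrec_kstep (K : NM) : Primrec (fun x : Bool × K.Cfg => K.kstep x.1 x.2) := by
  have hs : Primrec (fun x : Bool × K.Cfg => x.2.1) := Primrec.fst.comp Primrec.snd
  have hr : Primrec (fun x : Bool × K.Cfg => x.2.2) := Primrec.snd.comp Primrec.snd
  have hreg : Primrec (fun x : Bool × K.Cfg => K.reg x.2.1) :=
    (Primrec.dom_finite K.reg).comp hs
  have hv : Primrec (fun x : Bool × K.Cfg => x.2.2 (K.reg x.2.1)) := Primrec.fin_app.comp hr hreg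
  have hf : Primrec (fun x : Bool × K.Cfg => K.flag x.2) :=
    ((Primrec.eq.comp hv (Primrec.const 0)).not).decide
  have hnx : Primrec (fun x : Bool × K.Cfg => K.nx x.2.1 (K.flag x.2) x.1) :=
    (Primrec.dom_finite (fun y : Fin K.q × Bool × Bool => K.nx y.1 y.2.1 y.2.2)).comp
      (Primrec.pair hs (Primrec.pair hf Primrec.fst))
  have hup : Primrec (fun x : Bool × K.Cfg => decide (K.op x.2.1 (K.flag x.2) = Mv.up)) :=
    (Primrec.dom_finite (fun y : Fin K.q × Bool => decide (K.op y.1 y.2 = Mv.up))).comp
      (Primrec.pair hs hf)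
  have hdn : Primrec (fun x : Bool × K.Cfg => decide (K.op x.2.1 (K.flag x.2) = Mv.down)) :=
    (Primrec.dom_finite (fun y : Fin K.q × Bool => decide (K.op y.1 y.2 = Mv.down))).comp
      (Primrec.pair hs hf)
  have hval : Primrec (fun x : Bool × K.Cfg =>
      (K.op x.2.1 (K.flag x.2)).app (x.2.2 (K.reg x.2.1))) := by
    refine (Primrec.cond hup (Primrec.succ.comp hv)
      (Primrec.cond hdn (Primrec.nat_sub.comp hv (Primrec.const 1)) hv)).of_eq fun x => ?_
    cases K.op x.2.1 (K.flag x.2) <;> simp [Mv.app]
  have hupd : Primrec (fun x : Bool × K.Cfg => Function.update x.2.2 (K.reg x.2.1)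
      ((K.op x.2.1 (K.flag x.2)).app (x.2.2 (K.reg x.2.1)))) := by
    refine Primrec.fin_curry.2 ?_
    refine (Primrec.ite (Primrec.eq.comp Primrec.snd (hreg.comp Primrec.fst))
      (hval.comp Primrec.fst)
      (Primrec.fin_app.comp (hr.comp Primrec.fst) Primrec.snd)).of_eq fun x => ?_
    exact (Function.update_apply _ _ _ _).symm
  exact Primrec.option_map hnx (Primrec.pair Primrec.snd (hupd.comp Primrec.fst))

private def st (K : NM) (b : Bool) (c : K.Cfg) : K.Cfg := (K.kstep b c).getD c

private theorem st_ne {K : NM} {b : Bool} {c : K.Cfg} (h : K.kstep b c ≠ none) :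
    K.kstep b c = some (st K b c) := by
  obtain ⟨d, hd⟩ := Option.ne_none_iff_exists'.1 h
  unfold st
  rw [hd]
  rfl

private theorem primrec_st (K : NM) : Primrec (fun x : Bool × K.Cfg => st K x.1 x.2) :=
  Primrec.option_getD.comp (primrec_kstep K) Primrec.snd

private theorem computable_find {α : Type} [Primcodable α] (q : α → ℕ → Bool)
    (hq : Computable₂ q) (hex : ∀ a, ∃ i, q a i = true) :
    Computable (fun a => Nat.find (hex a)) := by
  have h := Partrec.rfind (p := fun a i => (Part.some (q a i) : Part Bool)) hq.partrec₂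
  refine h.of_eq fun a => Part.eq_some_iff.2 ?_
  rw [Nat.mem_rfind]
  refine ⟨?_, fun {m} hm => ?_⟩
  · rw [Part.mem_some_iff]
    exact (Nat.find_spec (hex a)).symm
  · rw [Part.mem_some_iff]
    have := Nat.find_min (hex a) hm
    simpa using this

/-- the abstract loop -/
private theorem loop_aux (F : ℕ → Bool → ℕ) (K : NM) (H : ℕ → K.Cfg) (hub : Fin K.q)
    (hH : Primrec H) (hinj : Function.Injective H) (hH1 : ∀ m, (H m).1 = hub)
    (h0 : ∀ b, K.kstep b (H 0) = none)
    (hk : ∀ c : K.Cfg, c.1 ≠ hub → K.kstep false c ≠ none ∧ K.kstep true c = none)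
    (hs : ∀ m b, m ≠ 0 → K.kstep b (H m) ≠ none)
    (hl : ∀ m b, m ≠ 0 → ∃ n, (st K false)^[n] (st K b (H m)) = H (F m b) ∧
      ∀ i, i < n → ((st K false)^[i] (st K b (H m))).1 ≠ hub) :
    ∃ (H : ℕ → K.Cfg) (N : ℕ → Bool → ℕ) (π : ℕ → Bool → ℕ → K.Cfg), Computable H ∧
      Computable₂ N ∧
      Computable (fun x : ℕ × Bool × ℕ => π x.1 x.2.1 x.2.2) ∧ Function.Injective H ∧
      (∀ b, K.kstep b (H 0) = none) ∧
      ∀ m b, m ≠ 0 → 0 < N m b ∧ π m b 0 = H m ∧ π m b (N m b) = H (F m b) ∧
        K.kstep b (π m b 0) = some (π m b 1) ∧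
        ∀ i, 0 < i → i < N m b → K.kstep false (π m b i) = some (π m b (i + 1)) ∧
          K.kstep true (π m b i) = none ∧ ∀ m', π m b i ≠ H m' := by
  classical
  have hit : Primrec (fun x : (ℕ × Bool) × ℕ =>
      (st K false)^[x.2] (st K x.1.2 (H x.1.1))) := by
    refine Primrec.nat_iterate Primrec.snd ?_ ?_
    · exact (primrec_st K).comp (Primrec.pair (Primrec.snd.comp Primrec.fst)
        (hH.comp (Primrec.fst.comp Primrec.fst)))
    · exact (primrec_st K).comp (Primrec.pair (Primrec.const false) Primrec.snd)
  let q : ℕ × Bool → ℕ → Bool := fun x i =>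
    decide (x.1 = 0) || decide (((st K false)^[i] (st K x.2 (H x.1))).1 = hub)
  have hq : Computable₂ q := by
    refine Primrec₂.to_comp ?_
    refine Primrec.or.comp ?_ ?_
    · exact (Primrec.eq.comp (Primrec.fst.comp Primrec.fst) (Primrec.const 0)).decide
    · exact (Primrec.eq.comp (Primrec.fst.comp hit) (Primrec.const hub)).decide
  have hex : ∀ x, ∃ i, q x i = true := by
    rintro ⟨m, b⟩
    by_cases hm : m = 0
    · exact ⟨0, by simp [q, hm]⟩
    · obtain ⟨n, hn, -⟩ := hl m b hm
      refine ⟨n, ?_⟩
      have : ((st K false)^[n] (st K b (H m))).1 = hub := by rw [hn, hH1]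
      simp [q, this]
  refine ⟨H, fun m b => Nat.find (hex (m, b)) + 1,
    fun m b i => if i = 0 then H m else (st K false)^[i - 1] (st K b (H m)), hH.to_comp, ?_, ?_,
    hinj, h0, ?_⟩
  · exact Computable.succ.comp (computable_find q hq hex)
  · refine Primrec.to_comp ?_
    refine Primrec.ite (Primrec.eq.comp (Primrec.snd.comp Primrec.snd) (Primrec.const 0))
      (hH.comp Primrec.fst) ?_
    exact hit.comp (Primrec.pair (Primrec.pair Primrec.fst (Primrec.fst.comp Primrec.snd))
      (Primrec.nat_sub.comp (Primrec.snd.comp Primrec.snd) (Primrec.const 1)))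
  · intro m b hm
    obtain ⟨n, hn, hlt⟩ := hl m b hm
    have hN : Nat.find (hex (m, b)) = n := by
      rw [Nat.find_eq_iff]
      refine ⟨?_, fun i hi => ?_⟩
      · have : ((st K false)^[n] (st K b (H m))).1 = hub := by rw [hn, hH1]
        simp [q, this]
      · have := hlt i hi
        simp [q, hm, this]
    have hsome : K.kstep b (H m) = some (st K b (H m)) := st_ne (hs m b hm)
    refine ⟨Nat.succ_pos _, rfl, ?_, hsome, fun i hi hiN => ?_⟩
    · beta_reduce
      rw [if_neg (Nat.succ_ne_zero _), Nat.add_sub_cancel, hN, hn]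
    · obtain ⟨j, rfl⟩ : ∃ j, i = j + 1 := ⟨i - 1, by omega⟩
      have hj : j < n := by
        have : j + 1 < Nat.find (hex (m, b)) + 1 := hiN
        omega
      have hne := hlt j hj
      beta_reduce
      rw [if_neg (Nat.succ_ne_zero _), if_neg (Nat.succ_ne_zero _), Nat.add_sub_cancel,
        Nat.add_sub_cancel, Function.iterate_succ_apply']
      refine ⟨st_ne (hk _ hne).1, (hk _ hne).2, fun m' h => hne ?_⟩
      rw [h, hH1]

/-! ### the machine -/

/-- translation of the operations -/
private def tm : Op → Mv
  | Op.nop => Mv.stay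
  | Op.inc => Mv.up
  | Op.dec => Mv.down

private theorem tm_app (o : Op) (n : ℕ) : (tm o).app n = o.app n := by cases o <;> rfl

private theorem tm_ne {o : Op} (h : o ≠ Op.dec) : tm o ≠ Mv.down := by
  cases o
  · simp [tm]
  · simp [tm]
  · exact absurd rfl h

section machine

variable (p : Prog)

/-- states of the program -/
private abbrev PQ : Type := {l : List Prog // l ∈ insert ([] : List Prog) (conts p [])}

/-- states of the loop machine -/
private abbrev SQ : Type := Option (Bool ⊕ PQ p)

private abbrev BB : ℕ := (toCM p 2).B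

private theorem two_le : 2 ≤ BB p := le_max_left _ _

private def z0 : Fin (BB p) := ⟨0, by have := two_le p; omega⟩

private def z1 : Fin (BB p) := ⟨1, by have := two_le p; omega⟩

private def strt : PQ p := ⟨[p], Finset.mem_insert_of_mem (mem_conts_self p [])⟩

private def reg0 : SQ p → Fin (BB p)
  | none => z0 p
  | some (Sum.inl _) => z1 p
  | some (Sum.inr x) => (toCM p 2).reg x

private def nx0 : SQ p → Bool → Bool → Option (SQ p)
  | none, z, b => if z = true then some (some (Sum.inl b)) else none
  | some (Sum.inl _), _, c => if c = true then none else some (some (Sum.inr (strt p)))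
  | some (Sum.inr x), z, c => if c = true then none else
      if x.1 = [] then some none else some (some (Sum.inr ((toCM p 2).nxt x z)))

private def op0 : SQ p → Bool → Mv
  | none, _ => Mv.stay
  | some (Sum.inl b), _ => if b = true then Mv.up else Mv.stay
  | some (Sum.inr x), z => if x.1 = [] then Mv.stay else tm ((toCM p 2).op x z)

private theorem op0_ok (s : SQ p) : op0 p s false ≠ Mv.down := by
  match s with
  | none => simp [op0]
  | some (Sum.inl b) => cases b <;> simp [op0]
  | some (Sum.inr x) =>
    simp only [op0]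
    split_ifs
    · simp
    · exact tm_ne ((toCM p 2).op_ok x)

private noncomputable def en : SQ p ≃ Fin (Fintype.card (SQ p)) := Fintype.equivFin _

private noncomputable def KK : NM where
  q := Fintype.card (SQ p)
  B := BB p
  reg s := reg0 p ((en p).symm s)
  nx s z b := (nx0 p ((en p).symm s) z b).map (en p)
  op s z := op0 p ((en p).symm s) z
  ok s := op0_ok p _

/-- configurations before numbering of the states -/
private abbrev CF : Type := SQ p × (Fin (BB p) → ℕ)

private noncomputable def tr (c : CF p) : (KK p).Cfg := (en p c.1, c.2)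

private def ks (b : Bool) (c : CF p) : Option (CF p) :=
  (nx0 p c.1 (decide (c.2 (reg0 p c.1) ≠ 0)) b).map fun s => (s, Function.update c.2 (reg0 p c.1)
    ((op0 p c.1 (decide (c.2 (reg0 p c.1) ≠ 0))).app (c.2 (reg0 p c.1))))

private theorem ks_tr (b : Bool) (c : CF p) :
    (KK p).kstep b (tr p c) = (ks p b c).map (tr p) := by
  obtain ⟨s, r⟩ := c
  unfold NM.kstep NM.flag ks tr KK
  simp only [Equiv.symm_apply_apply]
  cases nx0 p s _ b <;> rfl

private theorem st_tr (b : Bool) (c c' : CF p) (h : ks p b c = some c') :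
    st (KK p) b (tr p c) = tr p c' := by
  unfold st
  rw [ks_tr, h]
  rfl

private theorem tr_surj (c : (KK p).Cfg) : ∃ c', tr p c' = c :=
  ⟨((en p).symm c.1, c.2), by unfold tr; simp⟩

/-- registers -/
private def rs (s : St) : Fin (BB p) → ℕ := fun i => s i

private theorem ks_inr (x : PQ p) (r : Fin (BB p) → ℕ) (hx : x.1 ≠ []) :
    ks p false (some (Sum.inr x), r) =
      some (some (Sum.inr ((toCM p 2).step (x, r)).1), ((toCM p 2).step (x, r)).2) := by
  unfold ks nx0 op0 CM.step
  simp only [Bool.false_eq_true, if_false, if_neg hx, Option.map_some, tm_app]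
  rfl

private theorem ks_inr_nil (x : PQ p) (r : Fin (BB p) → ℕ) (hx : x.1 = []) :
    ks p false (some (Sum.inr x), r) = some (none, r) := by
  unfold ks nx0 op0
  simp only [Bool.false_eq_true, if_false, if_pos hx, Option.map_some, Mv.app]
  rw [Function.update_eq_self]

private theorem ks_none (b : Bool) (r : Fin (BB p) → ℕ) (h : r (z0 p) ≠ 0) :
    ks p b (none, r) = some (some (Sum.inl b), r) := by
  have h1 : decide (r (reg0 p none) ≠ 0) = true := by simpa [reg0] using h
  unfold ks
  simp only [h1]
  unfold nx0 op0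
  simp only [if_true, Option.map_some, Mv.app]
  rw [Function.update_eq_self]

private theorem ks_inl (b : Bool) (m : ℕ) : ks p false (some (Sum.inl b), rs p (ini m 0)) =
    some (some (Sum.inr (strt p)), rs p (ini m (if b = true then 1 else 0))) := by
  unfold ks nx0 op0
  simp only [Bool.false_eq_true, if_false, Option.map_some]
  refine congrArg some (Prod.ext rfl ?_)
  funext i
  simp only [reg0, Function.update_apply]
  by_cases hi : i = z1 p
  · subst hi
    cases b <;> simp [z1, rs, ini, Mv.app]
  · rw [if_neg hi]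
    have hi' : (i : ℕ) ≠ 1 := fun h => hi (Fin.ext h)
    simp [rs, ini, hi']

/-- iterating the machine as long as the program is not finished -/
private theorem iter_inr (s : St) (j : ℕ) (hj : ∀ i, i < j → (stp^[i] ([p], s)).1 ≠ []) :
    ∃ x : PQ p, x.1 = (stp^[j] ([p], s)).1 ∧
      (st (KK p) false)^[j] (tr p (some (Sum.inr (strt p)), rs p s)) =
        tr p (some (Sum.inr x), rs p (stp^[j] ([p], s)).2) := by
  induction j with
  | zero => exact ⟨strt p, rfl, rfl⟩
  | succ j ih =>
    obtain ⟨x, hx, hx'⟩ := ih fun i hi => hj i (by omega)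
    have hne : x.1 ≠ [] := by
      rw [hx]
      exact hj j (by omega)
    obtain ⟨h1, h2⟩ := toCM_step p 2 x (stp^[j] ([p], s)).2
    have h3 : (x.1, (stp^[j] ([p], s)).2) = stp^[j] ([p], s) := Prod.ext hx rfl
    rw [h3, ← Function.iterate_succ_apply' stp] at h1 h2
    refine ⟨_, h1, ?_⟩
    rw [Function.iterate_succ_apply', hx']
    refine st_tr p false _ _ ?_
    rw [ks_inr p x _ hne]
    refine congrArg some (Prod.ext rfl ?_)
    exact h2

private theorem ini_F {F : ℕ → Bool → ℕ}
    (hp : ∀ m b : ℕ, Runs p (ini m b) (ini (F m (decide (b ≠ 0))) 0)) (m : ℕ) (b : Bool) :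
    ∃ n, (stp^[n] ([p], ini m (if b = true then 1 else 0))) = ([], ini (F m b) 0) ∧
      ∀ i, i < n → (stp^[i] ([p], ini m (if b = true then 1 else 0))).1 ≠ [] := by
  classical
  obtain ⟨n1, -, h1⟩ := hp m (if b = true then 1 else 0) []
  have hb : decide ((if b = true then 1 else 0) ≠ 0) = b := by cases b <;> rfl
  rw [hb] at h1
  have hex : ∃ n, (stp^[n] ([p], ini m (if b = true then 1 else 0))).1 = [] :=
    ⟨n1, by rw [h1]⟩
  refine ⟨Nat.find hex, ?_, fun i hi => Nat.find_min hex hi⟩
  have h2 : Nat.find hex ≤ n1 := Nat.find_min' hex (by rw [h1])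
  obtain ⟨d, hd⟩ := Nat.exists_eq_add_of_le h2
  have h3 : stp^[Nat.find hex] ([p], ini m (if b = true then 1 else 0)) =
      ([], (stp^[Nat.find hex] ([p], ini m (if b = true then 1 else 0))).2) :=
    Prod.ext (Nat.find_spec hex) rfl
  rw [hd, add_comm, Function.iterate_add_apply, h3, stp_nil] at h1
  rw [h3]
  exact h1

end machine

theorem exists_loop (F : ℕ → Bool → ℕ) (hF : Primrec₂ F) :
    ∃ (K : NM) (H : ℕ → K.Cfg) (N : ℕ → Bool → ℕ) (π : ℕ → Bool → ℕ → K.Cfg), Computable H ∧ Computable₂ N ∧
      Computable (fun x : ℕ × Bool × ℕ => π x.1 x.2.1 x.2.2) ∧ Function.Injective H ∧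
      (∀ b, K.kstep b (H 0) = none) ∧
      ∀ m b, m ≠ 0 → 0 < N m b ∧ π m b 0 = H m ∧ π m b (N m b) = H (F m b) ∧
        K.kstep b (π m b 0) = some (π m b 1) ∧
        ∀ i, 0 < i → i < N m b → K.kstep false (π m b i) = some (π m b (i + 1)) ∧ K.kstep true (π m b i) = none ∧
          ∀ m', π m b i ≠ H m' := by
  have hF' : Primrec₂ (fun m b : ℕ => F m (decide (b ≠ 0))) :=
    hF.comp Primrec.fst ((Primrec.eq.comp Primrec.snd (Primrec.const 0)).not).decide
  obtain ⟨p, hp⟩ := prog_of_primrec _ hF'
  refine ⟨KK p, loop_aux F (KK p) (fun m => tr p (none, rs p (ini m 0))) (en p none) ?_ ?_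
    (fun m => rfl) ?_ ?_ ?_ ?_⟩
  · refine Primrec.pair (Primrec.const (en p none)) ?_
    refine Primrec.fin_curry.2 ?_
    refine (Primrec.ite (Primrec.eq.comp (Primrec.fin_val.comp Primrec.snd) (Primrec.const 0))
      Primrec.fst (Primrec.const 0)).of_eq fun x => ?_
    obtain ⟨m, i⟩ := x
    simp [rs, ini]
  · intro m m' h
    have h1 := congrFun (congrArg Prod.snd h) (z0 p)
    exact h1
  · intro b
    rw [ks_tr]
    have h1 : decide (rs p (ini 0 0) (reg0 p none) ≠ 0) = false := by simp [reg0, rs, z0, ini]
    have h2 : ks p b (none, rs p (ini 0 0)) = none := by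
      unfold ks
      simp only [h1]
      rfl
    rw [h2]
    rfl
  · intro c hc
    obtain ⟨⟨x, r⟩, rfl⟩ := tr_surj p c
    have hx : x ≠ none := fun h => hc (by rw [h]; rfl)
    rw [ks_tr, ks_tr]
    match x, hx with
    | some (Sum.inl b), _ => exact ⟨by simp [ks, nx0], by simp [ks, nx0]⟩
    | some (Sum.inr x), _ =>
      refine ⟨?_, by simp [ks, nx0]⟩
      by_cases h : x.1 = []
      · rw [ks_inr_nil p x r h]
        simp
      · rw [ks_inr p x r h]
        simp
  · intro m b hm
    rw [ks_tr, ks_none p b _ (by exact hm)]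
    simp
  · intro m b hm
    obtain ⟨n, hn, hlt⟩ := ini_F p hp m b
    have e0 : st (KK p) b (tr p (none, rs p (ini m 0))) =
        tr p (some (Sum.inl b), rs p (ini m 0)) := st_tr p b _ _ (ks_none p b _ (by exact hm))
    have e1 : st (KK p) false (tr p (some (Sum.inl b), rs p (ini m 0))) =
        tr p (some (Sum.inr (strt p)), rs p (ini m (if b = true then 1 else 0))) :=
      st_tr p false _ _ (ks_inl p b m)
    refine ⟨n + 1 + 1, ?_, ?_⟩
    · rw [e0, Function.iterate_succ_apply, e1, Function.iterate_succ_apply']
      obtain ⟨x, hx, hx'⟩ := iter_inr p (ini m (if b = true then 1 else 0)) n hlt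
      rw [hx']
      refine st_tr p false _ _ ?_
      rw [ks_inr_nil p x _ (by rw [hx, hn]), hn]
    · intro i hi
      rw [e0]
      rcases i with _ | i
      · intro h
        have := (en p).injective (show en p (some (Sum.inl b)) = en p none from h)
        exact absurd this (by simp)
      · rw [Function.iterate_succ_apply, e1]
        obtain ⟨x, hx, hx'⟩ := iter_inr p (ini m (if b = true then 1 else 0)) i
          fun j hj => hlt j (by omega)
        rw [hx']
        intro h
        have := (en p).injective (show en p (some (Sum.inr x)) = en p none from h)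
        exact absurd this (by simp)

end CB
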