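import Pool.Agent.Work.MP_cb528c_lc.CondTh

set_option autoImplicit false
set_option linter.all false

/-!
# MP_cb528c_lc, module LaPi: equality in the Lindenbaum algebra is Pi_4

By `exists_codeC` and `computable_tc`: `∀ T ∈ Pt ar F, (φ ∈ T ↔ ψ ∈ T)` iff for all `e`: (`e` decides a complete theory (Pi_2) and `F ∈ TC e`
(Sigma_1) and not `FAx` (Pi_3)) implies (`φ ∈ TC e ↔ ψ ∈ TC e`) (Sigma_1 combinations, so Pi_2 and Sigma_2).  So it is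
`∀ e, (Pi_3 → Sigma_3)`: Pi_4.
-/

namespace CB

theorem la_pi (ar : List ℕ) (F : Fm) :
    Pg 4 (fun x : Fm × Fm => ∀ T ∈ Pt ar F, (x.1 ∈ T ↔ x.2 ∈ T)) := by
  obtain ⟨pT, hpT, hT⟩ := pg_isTh ar
  obtain ⟨pF, hpF, hF⟩ := sg_fax ar
  have hcode : Primrec (fun z : (Fm × Fm) × Nat.Partrec.Code => z.2) := Primrec.snd
  have h1 : Pg 3 (fun z : (Fm × Fm) × Nat.Partrec.Code => pT z.2) :=
    (hpT.mono (by omega : 2 ≤ 3)).comp hcode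
  have h2 : Pg 3 (fun z : (Fm × Fm) × Nat.Partrec.Code => F ∈ TC z.2) :=
    ((Pg.of_sg sg_tc).mono (by omega : 1 + 1 ≤ 3)).comp (hcode.pair (Primrec.const F))
  have h3 : Pg 3 (fun z : (Fm × Fm) × Nat.Partrec.Code => ¬ pF z.2) := (hpF.not).comp hcode
  have hf1 : Primrec (fun z : (Fm × Fm) × Nat.Partrec.Code => (z.2, z.1.1)) :=
    Primrec.snd.pair (Primrec.fst.comp Primrec.fst)
  have hf2 : Primrec (fun z : (Fm × Fm) × Nat.Partrec.Code => (z.2, z.1.2)) :=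
    Primrec.snd.pair (Primrec.snd.comp Primrec.fst)
  have a1 : Sg 3 (fun z : (Fm × Fm) × Nat.Partrec.Code => z.1.1 ∈ TC z.2) :=
    (sg_tc.mono (by omega : 1 ≤ 3)).comp hf1
  have a2 : Sg 3 (fun z : (Fm × Fm) × Nat.Partrec.Code => z.1.2 ∈ TC z.2) :=
    (sg_tc.mono (by omega : 1 ≤ 3)).comp hf2
  have b1 : Pg 3 (fun z : (Fm × Fm) × Nat.Partrec.Code => z.1.1 ∈ TC z.2) :=
    ((Pg.of_sg sg_tc).mono (by omega : 1 + 1 ≤ 3)).comp hf1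
  have b2 : Pg 3 (fun z : (Fm × Fm) × Nat.Partrec.Code => z.1.2 ∈ TC z.2) :=
    ((Pg.of_sg sg_tc).mono (by omega : 1 + 1 ≤ 3)).comp hf2
  have h4 : Sg 3 (fun z : (Fm × Fm) × Nat.Partrec.Code =>
      (z.1.1 ∈ TC z.2 → z.1.2 ∈ TC z.2) ∧ (z.1.2 ∈ TC z.2 → z.1.1 ∈ TC z.2)) :=
    (Sg.imp b1 a2).and (Sg.imp b2 a1)
  have h5 : Sg 3 (fun z : (Fm × Fm) × Nat.Partrec.Code =>
      (pT z.2 ∧ F ∈ TC z.2 ∧ ¬ pF z.2) →
      ((z.1.1 ∈ TC z.2 → z.1.2 ∈ TC z.2) ∧ (z.1.2 ∈ TC z.2 → z.1.1 ∈ TC z.2))) :=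
    Sg.imp (h1.and (h2.and h3)) h4
  have h6 : Pg 4 (fun x : Fm × Fm => ∀ e : Nat.Partrec.Code,
      (pT e ∧ F ∈ TC e ∧ ¬ pF e) → ((x.1 ∈ TC e → x.2 ∈ TC e) ∧ (x.2 ∈ TC e → x.1 ∈ TC e))) :=
    Sg.all (p := fun (x : Fm × Fm) (e : Nat.Partrec.Code) =>
      (pT e ∧ F ∈ TC e ∧ ¬ pF e) → ((x.1 ∈ TC e → x.2 ∈ TC e) ∧ (x.2 ∈ TC e → x.1 ∈ TC e))) h5
  refine h6.congr fun x => ?_
  constructor
  · intro h T hT'
    obtain ⟨⟨M, hM, rfl⟩, hFT, hc, hfax⟩ := hT'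
    obtain ⟨e, he, heT⟩ := exists_codeC hc
    have hpe : pT e := (hT e).2 ⟨he, M, hM, heT⟩
    have hnf : ¬ pF e := by
      rw [hF e he ⟨M, hM, heT⟩, heT]
      exact hfax
    have hFe : F ∈ TC e := by
      rw [heT]
      exact hFT
    have := h e ⟨hpe, hFe, hnf⟩
    rw [heT] at this
    exact ⟨this.1, this.2⟩
  · rintro h e ⟨hpe, hFe, hnf⟩
    obtain ⟨he, M, hM, heT⟩ := (hT e).1 hpe
    have hmem : TC e ∈ Pt ar F := by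
      refine ⟨⟨M, hM, heT⟩, hFe, computable_tc he, ?_⟩
      rw [← hF e he ⟨M, hM, heT⟩]
      exact hnf
    have := h (TC e) hmem
    exact ⟨this.1, this.2⟩

end CB
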