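import Pool.Agent.Work.MP_cb528c_lc.StrDec
import Pool.Agent.Work.MP_cb528c_lc.BaApi

set_option autoImplicit false
set_option linter.all false

/-!
# MP_cb528c_lc, module LncIso: the Lindenbaum algebra of the question is the algebra `LA σ.ar F`

`F` with `F.Closed`, `F ∈ Th N ↔ IsFun σ N` (`isFun_fo`).
* `pt_iff`: `T ∈ Pt σ.ar F` iff `T = Th A.toMdl` for some strongly constructivizable `A` with `¬ A.FinAx` (`dec_of_strongC`, `strongC_of_dec`,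
  `finAx_iff`, `toMdl_ok`, `toMdl_isFun`).
* `mk_eq_iff`: `mk φ = mk ψ` iff the sentence expressing `φ ↔ ψ` belongs to `ThNC σ` (all structures of the class are models of
  `ThNC σ`; the converse is trivial) iff `φ`, `ψ` agree in all structures of the class iff `T1 φ.code ∈ T ↔ T1 ψ.code ∈ T` for all `T ∈ Pt σ.ar F`.
* `lnc_iso`: the map `mk φ ↦ {T | T1 φ.code ∈ T}` is well defined and injective, compatible with `⊓` and complement; its image is all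
  of `LA σ.ar F`: use `fb_of_hom` with `g := fun ψ : Fm => mk (the sentence with code T2 ψ)` (for non closed `ψ`: `⊥`).
-/

namespace CB

variable {σ : Sig}

theorem pt_iff {F : Fm} (hF : ∀ N, F ∈ Th N ↔ IsFun σ N) (T : Set Fm) :
    T ∈ Pt σ.ar F ↔ ∃ A : Str σ, A.StrongC ∧ ¬ A.FinAx ∧ T = Th A.toMdl := by
  constructor
  · rintro ⟨⟨M, hM, rfl⟩, hFM, hd, hax⟩
    obtain ⟨A, hA, hT⟩ := strongC_of_dec hM ((hF M).1 hFM) hd
    refine ⟨A, hA, fun h => hax ?_, hT.symm⟩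
    rw [← hT]
    exact (finAx_iff A).1 h
  · rintro ⟨A, hA, hax, rfl⟩
    exact ⟨⟨A.toMdl, A.toMdl_ok, rfl⟩, (hF _).2 A.toMdl_isFun, dec_of_strongC hA,
      fun h => hax ((finAx_iff A).2 h)⟩

theorem mk_eq_iff {F : Fm} (hF : ∀ N, F ∈ Th N ↔ IsFun σ N) {T1 : ℕ → Fm}
    (hT : ∀ (φ : Sen σ) (A : Str σ), T1 φ.1.code ∈ Th A.toMdl ↔ A.Mod φ) (φ ψ : Sen σ) :
    Lind.mk (ThNC σ) φ = Lind.mk (ThNC σ) ψ ↔ ∀ T ∈ Pt σ.ar F, (T1 φ.1.code ∈ T ↔ T1 ψ.1.code ∈ T) := by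
  constructor
  · intro h T hTP
    obtain ⟨A, hA, hax, rfl⟩ := (pt_iff hF T).1 hTP
    have h1 : (eqv (ThNC σ)).r φ ψ := Quotient.exact (s := eqv (ThNC σ)) h
    have h2 : A.Mod φ ↔ A.Mod ψ := h1 A fun χ hχ => hχ A hA hax
    rw [hT, hT]
    exact h2
  · intro h
    refine Quotient.sound (s := eqv (ThNC σ)) (fun A hA => ?_)
    have h1 : (φ.and ψ).or (φ.neg.and ψ.neg) ∈ ThNC σ := by
      intro B hB hax
      have h2 := h _ ((pt_iff hF _).2 ⟨B, hB, hax, rfl⟩)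
      rw [hT, hT] at h2
      rw [B.mod_or, B.mod_and, B.mod_and, B.mod_neg, B.mod_neg]
      tauto
    have h3 := hA _ h1
    rw [A.mod_or, A.mod_and, A.mod_and, A.mod_neg, A.mod_neg] at h3
    tauto

theorem lnc_iso {F : Fm} (hF : ∀ N, F ∈ Th N ↔ IsFun σ N) : Nonempty (LNC σ ≃o LA σ.ar F) := by
  classical
  obtain ⟨T1, T2, -, -, h1, h2⟩ := exists_trs σ
  have hT : ∀ (φ : Sen σ) (A : Str σ), T1 φ.1.code ∈ Th A.toMdl ↔ A.Mod φ := fun φ => (h1 φ).2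
  let h : LNC σ → Set (Pt σ.ar F) := Quotient.lift
    (fun φ : Sen σ => {T : Pt σ.ar F | T1 φ.1.code ∈ T.1})
    (fun φ ψ (e : (eqv (ThNC σ)).r φ ψ) => Set.ext fun T =>
      (mk_eq_iff hF hT φ ψ).1 (Quotient.sound (s := eqv (ThNC σ)) e) T.1 T.2)
  have hmk : ∀ φ : Sen σ, h (Lind.mk (ThNC σ) φ) = {T : Pt σ.ar F | T1 φ.1.code ∈ T.1} :=
    fun φ => rfl
  have hA : ∀ T : Pt σ.ar F, ∃ A : Str σ, T.1 = Th A.toMdl := by
    intro T
    obtain ⟨A, -, -, hA⟩ := (pt_iff hF T.1).1 T.2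
    exact ⟨A, hA⟩
  choose g0 hg0 hg0' using h2
  let g : Fm → LNC σ := fun ψ => if hψ : ψ.Closed then Lind.mk (ThNC σ) (g0 ψ hψ) else ⊥
  have hbot : h ⊥ = ∅ := by
    change {T : Pt σ.ar F | T1 (Sen.tru.neg : Sen σ).1.code ∈ T.1} = ∅
    ext T
    obtain ⟨A, hA⟩ := hA T
    change T1 (Sen.tru.neg : Sen σ).1.code ∈ T.1 ↔ False
    rw [hA, hT, A.mod_neg]
    exact ⟨fun h => h A.mod_tru, fun h => h.elim⟩
  have hg : ∀ ψ, h (g ψ) = {T : Pt σ.ar F | ψ ∈ T.1} := by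
    intro ψ
    ext T
    obtain ⟨A, hA⟩ := hA T
    by_cases hψ : ψ.Closed
    · have e : g ψ = Lind.mk (ThNC σ) (g0 ψ hψ) := dif_pos hψ
      rw [e, hmk]
      change T1 (g0 ψ hψ).1.code ∈ T.1 ↔ ψ ∈ T.1
      rw [hA, hT]
      exact hg0' ψ hψ A
    · have e : g ψ = ⊥ := dif_neg hψ
      rw [e, hbot]
      change False ↔ ψ ∈ T.1
      rw [hA]
      exact ⟨fun h => h.elim, fun h => hψ h.1⟩
  have hLA : LA σ.ar F = FB (fun ψ => h (g ψ)) := by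
    unfold LA
    congr 1
    funext ψ
    exact (hg ψ).symm
  rw [hLA]
  refine fb_of_hom h ?_ ?_ ?_ g ?_
  · rintro ⟨φ⟩ ⟨ψ⟩
    change {T : Pt σ.ar F | T1 (φ.and ψ).1.code ∈ T.1} =
      {T : Pt σ.ar F | T1 φ.1.code ∈ T.1} ∩ {T : Pt σ.ar F | T1 ψ.1.code ∈ T.1}
    ext T
    obtain ⟨A, hA⟩ := hA T
    change T1 (φ.and ψ).1.code ∈ T.1 ↔ T1 φ.1.code ∈ T.1 ∧ T1 ψ.1.code ∈ T.1
    rw [hA, hT, hT, hT, A.mod_and]
  · rintro ⟨φ⟩
    change {T : Pt σ.ar F | T1 φ.neg.1.code ∈ T.1} = {T : Pt σ.ar F | T1 φ.1.code ∈ T.1}ᶜ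
    ext T
    obtain ⟨A, hA⟩ := hA T
    change T1 φ.neg.1.code ∈ T.1 ↔ ¬ T1 φ.1.code ∈ T.1
    rw [hA, hT, hT, A.mod_neg]
  · rintro ⟨φ⟩ h0
    change {T : Pt σ.ar F | T1 φ.1.code ∈ T.1} = ∅ at h0
    change Lind.mk (ThNC σ) φ = Lind.mk (ThNC σ) Sen.tru.neg
    refine (mk_eq_iff hF hT _ _).2 fun T hTP => ?_
    have e1 : ¬ T1 φ.1.code ∈ T := fun h' => by
      have : (⟨T, hTP⟩ : Pt σ.ar F) ∈ ({T : Pt σ.ar F | T1 φ.1.code ∈ T.1} : Set (Pt σ.ar F)) := h'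
      rw [h0] at this
      exact this
    have e2 : ¬ T1 (Sen.tru.neg : Sen σ).1.code ∈ T := fun h' => by
      have h3 : (⟨T, hTP⟩ : Pt σ.ar F) ∈ h ⊥ := h'
      rw [hbot] at h3
      exact h3
    exact ⟨fun h' => absurd h' e1, fun h' => absurd h' e2⟩
  · rintro ⟨φ⟩
    have e : h (Quotient.mk (eqv (ThNC σ)) φ) = h (g (T1 φ.1.code)) := by
      rw [hg]
      rfl
    change Det (fun i => h (g i)) (h (Quotient.mk (eqv (ThNC σ)) φ))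
    rw [e]
    exact Det.self (fun i => h (g i)) (T1 φ.1.code)

end CB
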