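import Pool.Agent.Work.MP_cb528c_lc.LncIso
import Pool.Agent.Work.MP_cb528c_lc.LaPi
import Pool.Agent.Work.MP_cb528c_lc.HierComp

set_option autoImplicit false
set_option linter.all false

/-!
# MP_cb528c_lc, module LncPi: the Lindenbaum algebra with its Goedel numeration is a Pi_4 algebra

Surjective: `godel_code`.  Operations: the code of the sentence `godel σ n` is `n` if `n` is the code of a sentence (`computable_sen`),
otherwise the code of `Sen.tru`; this function `c` is computable; `join i j := ` the code of `or` of the sentences with codes `c i`, `c j`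
(`Nat.pair 2 (Nat.pair 3 (Nat.pair (Nat.pair 2 (c i)) (Nat.pair 2 (c j))))`), etc.
Equality: `mk_eq_iff`, `la_pi`, `Pg.compC` with the computable function `n ↦ T1 (c n)`, `arN_pi_iff`.
-/

namespace CB

private theorem exists_code (σ : Sig) : ∃ c : ℕ → ℕ, Computable c ∧
    ∀ n, (godel σ n).1.code = c n := by
  classical
  obtain ⟨hd, hc⟩ := computable_sen σ
  refine ⟨fun n => bif @decide (∃ φ : Sen σ, φ.1.code = n) (hd n) then n
    else (Sen.tru : Sen σ).1.code, Computable.cond hc Computable.id (Computable.const _), ?_⟩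
  intro n
  by_cases h : ∃ φ : Sen σ, φ.1.code = n
  · have e : @decide (∃ φ : Sen σ, φ.1.code = n) (hd n) = true := by
      simpa using h
    obtain ⟨φ, hφ⟩ := h
    change _ = bif @decide (∃ φ : Sen σ, φ.1.code = n) (hd n) then n
      else (Sen.tru : Sen σ).1.code
    rw [e]
    have := godel_code φ
    rw [hφ] at this
    rw [this, hφ]
    rfl
  · have e : @decide (∃ φ : Sen σ, φ.1.code = n) (hd n) = false := by
      simpa using h
    change _ = bif @decide (∃ φ : Sen σ, φ.1.code = n) (hd n) then n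
      else (Sen.tru : Sen σ).1.code
    rw [e]
    have : godel σ n = Sen.tru := by
      unfold godel
      rw [dif_neg h]
    rw [this]
    rfl

theorem gnum_pi (σ : Sig) : IsPiAlg 4 (gnum σ) := by
  obtain ⟨F, hFc, hF⟩ := isFun_fo σ
  obtain ⟨T1, T2, hT1, -, h1, -⟩ := exists_trs σ
  have hT : ∀ (φ : Sen σ) (A : Str σ), T1 φ.1.code ∈ Th A.toMdl ↔ A.Mod φ := fun φ => (h1 φ).2
  obtain ⟨c, hc, hcg⟩ := exists_code σ
  have hp : ∀ f g : ℕ × ℕ → ℕ, Computable f → Computable g →
      Computable (fun x => Nat.pair (f x) (g x)) := fun f g hf hg =>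
    Primrec₂.natPair.to_comp.comp hf hg
  have c1 : Computable (fun x : ℕ × ℕ => c x.1) := hc.comp Computable.fst
  have c2 : Computable (fun x : ℕ × ℕ => c x.2) := hc.comp Computable.snd
  refine ⟨?_, ⟨fun i j => Nat.pair 2 (Nat.pair 3 (Nat.pair (Nat.pair 2 (c i)) (Nat.pair 2 (c j)))),
    ?_, fun i j => ?_⟩, ⟨fun i j => Nat.pair 3 (Nat.pair (c i) (c j)), ?_, fun i j => ?_⟩,
    ⟨fun i => Nat.pair 2 (c i), ?_, fun i => ?_⟩, ?_⟩
  · rintro ⟨φ⟩
    refine ⟨φ.1.code, ?_⟩
    unfold gnum
    rw [godel_code]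
    rfl
  · exact hp _ _ (Computable.const 2) (hp _ _ (Computable.const 3)
      (hp _ _ (hp _ _ (Computable.const 2) c1) (hp _ _ (Computable.const 2) c2)))
  · have e : Nat.pair 2 (Nat.pair 3 (Nat.pair (Nat.pair 2 (c i)) (Nat.pair 2 (c j)))) =
        ((godel σ i).or (godel σ j)).1.code := by
      rw [← hcg, ← hcg]
      rfl
    unfold gnum
    beta_reduce
    rw [e, godel_code]
    rfl
  · exact hp _ _ (Computable.const 3) (hp _ _ c1 c2)
  · have e : Nat.pair 3 (Nat.pair (c i) (c j)) = ((godel σ i).and (godel σ j)).1.code := by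
      rw [← hcg, ← hcg]
      rfl
    unfold gnum
    beta_reduce
    rw [e, godel_code]
    rfl
  · exact Primrec₂.natPair.to_comp.comp (Computable.const 2) hc
  · have e : Nat.pair 2 (c i) = (godel σ i).neg.1.code := by
      rw [← hcg]
      rfl
    unfold gnum
    beta_reduce
    rw [e, godel_code]
    rfl
  · have hl := la_pi σ.ar F
    have hf : Computable (fun x : ℕ => ((T1 (c x.unpair.1), T1 (c x.unpair.2)) : Fm × Fm)) :=
      Computable.pair (hT1.comp (hc.comp (Computable.fst.comp Computable.unpair)))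
        (hT1.comp (hc.comp (Computable.snd.comp Computable.unpair)))
    rw [arN_pi_iff]
    refine (Pg.compC hl hf).congr fun x => ?_
    unfold gnum
    rw [mk_eq_iff hF hT, hcg, hcg]

end CB
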