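import Pool.Agent.Work.MP_cb528c_lc.NmDefs

/-!
# MP_cb528c_lc, module UndoBwd: inverse branches of the undo machine follow steps of `K`

Write a configuration as `(state, r, L, T)`, `D(s, i) = some (0, s, i)`, `R(s, i) = some (1, s, i)`, `U = some (2, ..)`, `W = some (3, ..)`.
Preimages under `undo.step`:
* of `(D(s, 0), r, L, 0)`: only `(W(s, i), r, L, 0)` with `i ≠ 0`, `src i = s`, flag of `r` at `reg s` equal to `lfl i` (`D(s, 4q)` would
  give `T ≥ 1`).
* of `(W(s, i), r, L, T)` with `src i = s` and flag `lfl i` at `reg s` in `r`: only `(U(s', i), r', L, T)` with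
  `K.nx s (lfl i) (lbt i) = some s'`, `r' = r` changed at `reg s` by `(op s (lfl i)).app` (for `op = down` the flag is `true`).
* of `(U(s, i), r, L, T)`: only `(R(s, i), r, L, 0)`, and `T = 0`.
* of `(R(s, i), r, L, T)`: `(R(s, i), r, L - 1, T + 1)` with `L ≥ 1`, or `(D(s, i), r, 0, T)` if `L = 0`.
* of `(D(s, i), r, L, T)` with `i ≠ 0`: only `(D(s, i - 1), r, L + 1, T)`.
* of `(D(s, 0), r, L, T)` with `T ≥ 1`: only `(D(s, 4q), r, L + 1, T - 1)`.
Hence from `χ 0 = uemb c L = (D(s,0), r, L, 0)`: `χ 1 = (W(s, i), r, L, 0)`, `χ 2 = (U(s', i), r', L, 0)` with `b := lbt i`,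
`i = lab s z b`, `z = flag c`, `c' = (s', r')`, `kstep b c = some c'`; `χ (3 + m) = (R(s', i), r', L - m, m)` for `m ≤ L`;
`χ (4 + L + m) = (D(s', j), r', m, T)` with `m = (i - j) + (4q+1) (L - T)`, i.e. the dividing phase read backwards: for `m ≤ nl c b L`,
`j = (nl c b L - m) % (4q+1)`, `T = (nl c b L - m) / (4q+1)`; for `m = nl c b L` this is `uemb c' (nl c b L)`, at time
`4 + L + nl c b L = len c b L`.  For `0 < t < len` the configuration `χ t` is not `(D(s, 0), r, L, 0)`.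
-/

set_option autoImplicit false
set_option linter.all false

/-!
# MP_cb528c_lc, module UndoBwd: inverse branches of the undo machine follow steps of `K`

Write a configuration as `(state, r, L, T)`, `D(s, i) = some (0, s, i)`, `R(s, i) = some (1, s, i)`, `U = some (2, ..)`, `W = some (3, ..)`.
Preimages under `undo.step`:
* of `(D(s, 0), r, L, 0)`: only `(W(s, i), r, L, 0)` with `i ≠ 0`, `src i = s`, flag of `r` at `reg s` equal to `lfl i` (`D(s, 4q)` would
  give `T ≥ 1`).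
* of `(W(s, i), r, L, T)` with `src i = s` and flag `lfl i` at `reg s` in `r`: only `(U(s', i), r', L, T)` with
  `K.nx s (lfl i) (lbt i) = some s'`, `r' = r` changed at `reg s` by `(op s (lfl i)).app` (for `op = down` the flag is `true`).
* of `(U(s, i), r, L, T)`: only `(R(s, i), r, L, 0)`, and `T = 0`.
* of `(R(s, i), r, L, T)`: `(R(s, i), r, L - 1, T + 1)` with `L ≥ 1`, or `(D(s, i), r, 0, T)` if `L = 0`.
* of `(D(s, i), r, L, T)` with `i ≠ 0`: only `(D(s, i - 1), r, L + 1, T)`.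
* of `(D(s, 0), r, L, T)` with `T ≥ 1`: only `(D(s, 4q), r, L + 1, T - 1)`.
Hence from `χ 0 = uemb c L = (D(s,0), r, L, 0)`: `χ 1 = (W(s, i), r, L, 0)`, `χ 2 = (U(s', i), r', L, 0)` with `b := lbt i`,
`i = lab s z b`, `z = flag c`, `c' = (s', r')`, `kstep b c = some c'`; `χ (3 + m) = (R(s', i), r', L - m, m)` for `m ≤ L`;
`χ (4 + L + m) = (D(s', j), r', m, T)` with `m = (i - j) + (4q+1) (L - T)`, i.e. the dividing phase read backwards: for `m ≤ nl c b L`,
`j = (nl c b L - m) % (4q+1)`, `T = (nl c b L - m) / (4q+1)`; for `m = nl c b L` this is `uemb c' (nl c b L)`, at time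
`4 + L + nl c b L = len c b L`.  For `0 < t < len` the configuration `χ t` is not `(D(s, 0), r, L, 0)`.
-/

namespace CB

namespace NM

private def cf (K : NM) (st : K.US) (r : Fin K.B → ℕ) (L T : ℕ) : K.undo.Cfg :=
  (st, Fin.append r ![L, T])

private theorem ri_ne_Lx (K : NM) (i : Fin K.B) : K.ri i ≠ K.Lx := by
  intro h
  have h1 := congrArg Fin.val h
  simp only [ri, Lx, Fin.val_castAdd, Fin.val_natAdd] at h1
  have := i.2
  omega

private theorem ri_ne_Tx (K : NM) (i : Fin K.B) : K.ri i ≠ K.Tx := by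
  intro h
  have h1 := congrArg Fin.val h
  simp only [ri, Tx, Fin.val_castAdd, Fin.val_natAdd] at h1
  have := i.2
  omega

private theorem ri_inj (K : NM) (i j : Fin K.B) : K.ri i = K.ri j ↔ i = j := by
  constructor
  · intro h
    have h1 := congrArg Fin.val h
    simp only [ri, Fin.val_castAdd] at h1
    exact Fin.ext h1
  · rintro rfl
    rfl

private theorem app_ri (K : NM) (r : Fin K.B → ℕ) (L T : ℕ) (i : Fin K.B) :
    (Fin.append r ![L, T] : Fin (K.B + 2) → ℕ) (K.ri i) = r i := by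
  unfold ri
  rw [Fin.append_left]

private theorem app_Lx (K : NM) (r : Fin K.B → ℕ) (L T : ℕ) :
    (Fin.append r ![L, T] : Fin (K.B + 2) → ℕ) K.Lx = L := by
  unfold Lx
  rw [Fin.append_right]
  rfl

private theorem app_Tx (K : NM) (r : Fin K.B → ℕ) (L T : ℕ) :
    (Fin.append r ![L, T] : Fin (K.B + 2) → ℕ) K.Tx = T := by
  unfold Tx
  rw [Fin.append_right]
  rfl

private theorem cf_surj (K : NM) (c : K.undo.Cfg) : ∃ p r L T, c = K.cf p r L T := by
  obtain ⟨p, v⟩ := c
  change Fin (K.B + 2) → ℕ at v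
  refine ⟨p, fun i => v (K.ri i), v K.Lx, v K.Tx, ?_⟩
  unfold cf
  refine Prod.ext rfl ?_
  funext j
  change v j = (Fin.append (fun i => v (K.ri i)) ![v K.Lx, v K.Tx] : Fin (K.B + 2) → ℕ) j
  refine Fin.addCases (fun i => ?_) (fun i => ?_) j
  · rw [Fin.append_left]
    rfl
  · rw [Fin.append_right]
    match i with
    | 0 => rfl
    | 1 => rfl

private theorem cf_inj (K : NM) {p p' : K.US} {r r' : Fin K.B → ℕ} {L L' T T' : ℕ}
    (h : K.cf p r L T = K.cf p' r' L' T') : p = p' ∧ r = r' ∧ L = L' ∧ T = T' := by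
  unfold cf at h
  have h1 : p = p' := congrArg Prod.fst h
  have h2 : (Fin.append r ![L, T] : Fin (K.B + 2) → ℕ) = Fin.append r' ![L', T'] :=
    congrArg Prod.snd h
  refine ⟨h1, ?_, ?_, ?_⟩
  · funext i
    rw [← app_ri K r L T i, h2, app_ri]
  · rw [← app_Lx K r L T, h2, app_Lx]
  · rw [← app_Tx K r L T, h2, app_Tx]

private theorem cf_inv (K : NM) {p q : K.US} {r1 r : Fin K.B → ℕ} {L1 T1 L T : ℕ}
    (h : K.undo.step (K.cf p r1 L1 T1) = K.cf q r L T) :
    ∃ z : Fin (K.B + 2) → Bool, z K.Lx = decide (L1 ≠ 0) ∧ z K.Tx = decide (T1 ≠ 0) ∧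
      (∀ i, z (K.ri i) = decide (r1 i ≠ 0)) ∧ (K.uδ p z).1 = q ∧
      (∀ i, ((K.uδ p z).2 (K.ri i)).app (r1 i) = r i) ∧ ((K.uδ p z).2 K.Lx).app L1 = L ∧
      ((K.uδ p z).2 K.Tx).app T1 = T := by
  unfold cf at h
  have h1 : (K.uδ p (fun i => decide ((Fin.append r1 ![L1, T1] : Fin (K.B + 2) → ℕ) i ≠ 0))).1 = q :=
    congrArg Prod.fst h
  have h2 : (fun i => ((K.uδ p (fun i => decide ((Fin.append r1 ![L1, T1] :
      Fin (K.B + 2) → ℕ) i ≠ 0))).2 i).app ((Fin.append r1 ![L1, T1] : Fin (K.B + 2) → ℕ) i)) =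
      (Fin.append r ![L, T] : Fin (K.B + 2) → ℕ) := congrArg Prod.snd h
  refine ⟨fun i => decide ((Fin.append r1 ![L1, T1] : Fin (K.B + 2) → ℕ) i ≠ 0), ?_, ?_, ?_, h1,
    ?_, ?_, ?_⟩
  · simp only [app_Lx]
  · simp only [app_Tx]
  · intro i
    simp only [app_ri]
  · intro i
    have h3 := congrFun h2 (K.ri i)
    simp only [app_ri] at h3
    exact h3
  · have h3 := congrFun h2 K.Lx
    simp only [app_Lx] at h3
    exact h3
  · have h3 := congrFun h2 K.Tx
    simp only [app_Tx] at h3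
    exact h3

/-- what a step from phase 0 does -/
private theorem ph0 (K : NM) {s : Fin K.q} {i : Fin (4 * K.q + 1)} {q : K.US}
    {r1 r : Fin K.B → ℕ} {L1 T1 L T : ℕ}
    (h : K.undo.step (K.cf (some (0, s, i)) r1 L1 T1) = K.cf q r L T) :
    (L1 = 0 ∧ q = some (1, s, i) ∧ r = r1 ∧ L = 0 ∧ T = T1) ∨
    (∃ h : i.1 + 1 < 4 * K.q + 1, L1 = L + 1 ∧ q = some (0, s, ⟨i.1 + 1, h⟩) ∧ r = r1 ∧ T = T1) ∨
    (i.1 = 4 * K.q ∧ L1 = L + 1 ∧ q = some (0, s, 0) ∧ r = r1 ∧ T = T1 + 1) := by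
  obtain ⟨z, zL, zT, zr, e1, e2, e3, e4⟩ := K.cf_inv h
  simp only [uδ, if_true, if_pos, uD] at e1 e2 e3 e4
  by_cases hL : L1 = 0
  · left
    have hz : z K.Lx = false := by rw [zL, hL]; rfl
    simp only [hz, if_true] at e1 e2 e3 e4
    refine ⟨hL, e1.symm, ?_, ?_, ?_⟩
    · funext j
      exact (e2 j).symm
    · rw [← e3, hL]
      rfl
    · rw [← e4]
      rfl
  · right
    have hz : z K.Lx = true := by rw [zL]; exact decide_eq_true hL
    by_cases hi : i.1 + 1 < 4 * K.q + 1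
    · left
      simp only [hz, Bool.true_eq_false, if_false, dif_pos hi] at e1 e2 e3 e4
      simp only [mv1, if_true] at e2 e3 e4
      rw [if_neg K.Lx_ne_Tx.symm] at e4
      refine ⟨hi, ?_, e1.symm, ?_, ?_⟩
      · simp only [Mv.app] at e3
        omega
      · funext j
        have := e2 j
        rw [if_neg (K.ri_ne_Lx j)] at this
        exact this.symm
      · rw [← e4]
        rfl
    · right
      simp only [hz, Bool.true_eq_false, if_false, dif_neg hi] at e1 e2 e3 e4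
      simp only [if_true] at e2 e3 e4
      rw [if_neg K.Lx_ne_Tx.symm] at e4
      refine ⟨by have := i.2; omega, ?_, e1.symm, ?_, ?_⟩
      · simp only [Mv.app] at e3
        omega
      · funext j
        have := e2 j
        rw [if_neg (K.ri_ne_Lx j), if_neg (K.ri_ne_Tx j)] at this
        exact this.symm
      · rw [← e4]
        rfl

/-- what a step from phase 1 does -/
private theorem ph1 (K : NM) {s : Fin K.q} {i : Fin (4 * K.q + 1)} {q : K.US}
    {r1 r : Fin K.B → ℕ} {L1 T1 L T : ℕ}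
    (h : K.undo.step (K.cf (some (1, s, i)) r1 L1 T1) = K.cf q r L T) :
    (T1 = 0 ∧ q = some (2, s, i) ∧ r = r1 ∧ L = L1 ∧ T = 0) ∨
    (q = some (1, s, i) ∧ r = r1 ∧ L = L1 + 1 ∧ T1 = T + 1) := by
  obtain ⟨z, zL, zT, zr, e1, e2, e3, e4⟩ := K.cf_inv h
  have h10 : ¬ ((1 : Fin 4) = 0) := by decide
  simp only [uδ, if_true, if_neg h10, uR] at e1 e2 e3 e4
  by_cases hT : T1 = 0
  · left
    have hz : z K.Tx = false := by rw [zT, hT]; rfl
    simp only [hz, if_true] at e1 e2 e3 e4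
    refine ⟨hT, e1.symm, ?_, ?_, ?_⟩
    · funext j
      exact (e2 j).symm
    · rw [← e3]
      rfl
    · rw [← e4, hT]
      rfl
  · right
    have hz : z K.Tx = true := by rw [zT]; exact decide_eq_true hT
    simp only [hz, Bool.true_eq_false, if_false] at e1 e2 e3 e4
    simp only [if_true] at e2 e3 e4
    rw [if_neg K.Lx_ne_Tx] at e3
    refine ⟨e1.symm, ?_, ?_, ?_⟩
    · funext j
      have := e2 j
      rw [if_neg (K.ri_ne_Tx j), if_neg (K.ri_ne_Lx j)] at this
      exact this.symm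
    · rw [← e3]
      rfl
    · simp only [Mv.app] at e4
      omega

/-- what a step from phase 2 does -/
private theorem ph2 (K : NM) {s : Fin K.q} {i : Fin (4 * K.q + 1)} {q : K.US}
    {r1 r : Fin K.B → ℕ} {L1 T1 L T : ℕ}
    (h : K.undo.step (K.cf (some (2, s, i)) r1 L1 T1) = K.cf q r L T) :
    q = none ∨ ∃ hi : i.1 ≠ 0, K.nx (K.src i hi) (K.lfl i) (K.lbt i) = some s ∧
      q = some (3, K.src i hi, i) ∧ L = L1 ∧ T = T1 ∧
      r1 = Function.update r (K.reg (K.src i hi))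
        ((K.op (K.src i hi) (K.lfl i)).app (r (K.reg (K.src i hi)))) := by
  obtain ⟨z, zL, zT, zr, e1, e2, e3, e4⟩ := K.cf_inv h
  have h20 : ¬ ((2 : Fin 4) = 0) := by decide
  have h21 : ¬ ((2 : Fin 4) = 1) := by decide
  simp only [uδ, if_true, if_neg h20, if_neg h21, uU] at e1 e2 e3 e4
  by_cases hi : i.1 ≠ 0
  · simp only [dif_pos hi] at e1 e2 e3 e4
    by_cases hn : K.nx (K.src i hi) (K.lfl i) (K.lbt i) = some s
    · simp only [if_pos hn] at e1 e2 e3 e4
      unfold uO at e1 e2 e3 e4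
      cases hm : K.op (K.src i hi) (K.lfl i) with
      | stay =>
        simp only [hm] at e1 e2 e3 e4
        right
        refine ⟨hi, hn, e1.symm, ?_, ?_, ?_⟩
        · rw [← e3]; rfl
        · rw [← e4]; rfl
        · funext j
          have h3 : r1 j = r j := by
            rw [← e2 j]; rfl
          rw [h3]
          by_cases hj : j = K.reg (K.src i hi)
          · rw [hj, Function.update_self, hm]
            rfl
          · rw [Function.update_of_ne hj]
      | down =>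
        simp only [hm] at e1 e2 e3 e4
        right
        simp only [mv1] at e2 e3 e4
        rw [if_neg (K.ri_ne_Lx _).symm] at e3
        rw [if_neg (K.ri_ne_Tx _).symm] at e4
        refine ⟨hi, hn, e1.symm, ?_, ?_, ?_⟩
        · rw [← e3]; rfl
        · rw [← e4]; rfl
        · funext j
          have h3 := e2 j
          by_cases hj : j = K.reg (K.src i hi)
          · rw [if_pos (by rw [hj])] at h3
            rw [hj, Function.update_self, hm]
            rw [hj] at h3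
            rw [← h3]
            simp only [Mv.app]
            omega
          · rw [if_neg (by rw [K.ri_inj]; exact hj)] at h3
            rw [Function.update_of_ne hj, ← h3]
            rfl
      | up =>
        simp only [hm] at e1 e2 e3 e4
        by_cases hz : z (K.ri (K.reg (K.src i hi))) = false
        · left
          simp only [if_pos hz] at e1
          exact e1.symm
        · right
          simp only [if_neg hz] at e1 e2 e3 e4
          simp only [mv1] at e2 e3 e4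
          rw [if_neg (K.ri_ne_Lx _).symm] at e3
          rw [if_neg (K.ri_ne_Tx _).symm] at e4
          have hnz : r1 (K.reg (K.src i hi)) ≠ 0 := by
            intro h0
            apply hz
            rw [zr, h0]
            rfl
          refine ⟨hi, hn, e1.symm, ?_, ?_, ?_⟩
          · rw [← e3]; rfl
          · rw [← e4]; rfl
          · funext j
            have h3 := e2 j
            by_cases hj : j = K.reg (K.src i hi)
            · rw [if_pos (by rw [hj])] at h3
              rw [hj, Function.update_self, hm]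
              rw [hj] at h3
              rw [← h3]
              simp only [Mv.app]
              omega
            · rw [if_neg (by rw [K.ri_inj]; exact hj)] at h3
              rw [Function.update_of_ne hj, ← h3]
              rfl
    · left
      simp only [if_neg hn] at e1
      exact e1.symm
  · left
    simp only [dif_neg hi] at e1
    exact e1.symm

/-- what a step from phase 3 does -/
private theorem ph3 (K : NM) {s : Fin K.q} {i : Fin (4 * K.q + 1)} {q : K.US}
    {r1 r : Fin K.B → ℕ} {L1 T1 L T : ℕ}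
    (h : K.undo.step (K.cf (some (3, s, i)) r1 L1 T1) = K.cf q r L T) :
    q = none ∨ ∃ hi : i.1 ≠ 0, K.src i hi = s ∧ decide (r1 (K.reg s) ≠ 0) = K.lfl i ∧ T1 = 0 ∧
      q = some (0, s, 0) ∧ r = r1 ∧ L = L1 ∧ T = 0 := by
  obtain ⟨z, zL, zT, zr, e1, e2, e3, e4⟩ := K.cf_inv h
  have h30 : ¬ ((3 : Fin 4) = 0) := by decide
  have h31 : ¬ ((3 : Fin 4) = 1) := by decide
  have h32 : ¬ ((3 : Fin 4) = 2) := by decide
  simp only [uδ, if_neg h30, if_neg h31, if_neg h32, uW] at e1 e2 e3 e4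
  by_cases hi : i.1 ≠ 0
  · simp only [dif_pos hi] at e1 e2 e3 e4
    by_cases hn : K.src i hi = s ∧ z (K.ri (K.reg s)) = K.lfl i ∧ z K.Tx = false
    · simp only [if_pos hn] at e1 e2 e3 e4
      right
      have hT : T1 = 0 := by
        have h3 := hn.2.2
        rw [zT] at h3
        by_contra hcon
        rw [decide_eq_true hcon] at h3
        exact Bool.noConfusion h3
      refine ⟨hi, hn.1, ?_, hT, e1.symm, ?_, ?_, ?_⟩
      · rw [← zr]
        exact hn.2.1
      · funext j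
        exact (e2 j).symm
      · rw [← e3]; rfl
      · rw [← e4, hT]; rfl
    · left
      simp only [if_neg hn] at e1
      exact e1.symm
  · left
    simp only [dif_neg hi] at e1
    exact e1.symm

private theorem phn (K : NM) {q : K.US}
    {r1 r : Fin K.B → ℕ} {L1 T1 L T : ℕ}
    (h : K.undo.step (K.cf none r1 L1 T1) = K.cf q r L T) : q = none := by
  obtain ⟨z, zL, zT, zr, e1, e2, e3, e4⟩ := K.cf_inv h
  exact e1.symm

/-- the step from some state of phase `p` -/
private theorem phases (K : NM) {p q : K.US} {r1 r : Fin K.B → ℕ} {L1 T1 L T : ℕ}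
    (h : K.undo.step (K.cf p r1 L1 T1) = K.cf q r L T) (hq : q ≠ none) :
    (∃ s i, p = some (0, s, i) ∧ ((L1 = 0 ∧ q = some (1, s, i) ∧ r = r1 ∧ L = 0 ∧ T = T1) ∨
    (∃ h : i.1 + 1 < 4 * K.q + 1, L1 = L + 1 ∧ q = some (0, s, ⟨i.1 + 1, h⟩) ∧ r = r1 ∧ T = T1) ∨
    (i.1 = 4 * K.q ∧ L1 = L + 1 ∧ q = some (0, s, 0) ∧ r = r1 ∧ T = T1 + 1))) ∨
    (∃ s i, p = some (1, s, i) ∧ ((T1 = 0 ∧ q = some (2, s, i) ∧ r = r1 ∧ L = L1 ∧ T = 0) ∨
    (q = some (1, s, i) ∧ r = r1 ∧ L = L1 + 1 ∧ T1 = T + 1))) ∨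
    (∃ s i, p = some (2, s, i) ∧ ∃ hi : i.1 ≠ 0,
      K.nx (K.src i hi) (K.lfl i) (K.lbt i) = some s ∧
      q = some (3, K.src i hi, i) ∧ L = L1 ∧ T = T1 ∧
      r1 = Function.update r (K.reg (K.src i hi))
        ((K.op (K.src i hi) (K.lfl i)).app (r (K.reg (K.src i hi))))) ∨
    (∃ s i, p = some (3, s, i) ∧ ∃ hi : i.1 ≠ 0, K.src i hi = s ∧
      decide (r1 (K.reg s) ≠ 0) = K.lfl i ∧ T1 = 0 ∧
      q = some (0, s, 0) ∧ r = r1 ∧ L = L1 ∧ T = 0) := by
  match p with
  | none => exact absurd (K.phn h) hq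
  | some (0, s, i) => exact Or.inl ⟨s, i, rfl, K.ph0 h⟩
  | some (1, s, i) => exact Or.inr (Or.inl ⟨s, i, rfl, K.ph1 h⟩)
  | some (2, s, i) =>
    rcases K.ph2 h with h' | h'
    · exact absurd h' hq
    · exact Or.inr (Or.inr (Or.inl ⟨s, i, rfl, h'⟩))
  | some (3, s, i) =>
    rcases K.ph3 h with h' | h'
    · exact absurd h' hq
    · exact Or.inr (Or.inr (Or.inr ⟨s, i, rfl, h'⟩))

private theorem preD00 (K : NM) {c1 : K.undo.Cfg} {s : Fin K.q} {r : Fin K.B → ℕ} {L : ℕ}
    (h : K.undo.step c1 = K.cf (some (0, s, 0)) r L 0) :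
    ∃ (i : Fin (4 * K.q + 1)) (hi : i.1 ≠ 0), K.src i hi = s ∧
      decide (r (K.reg s) ≠ 0) = K.lfl i ∧ c1 = K.cf (some (3, s, i)) r L 0 := by
  obtain ⟨p, r1, L1, T1, rfl⟩ := K.cf_surj c1
  rcases K.phases h (by simp) with ⟨s1, i1, rfl, h1 | ⟨h0, h1⟩ | h1⟩ | ⟨s1, i1, rfl, h1 | h1⟩ |
    ⟨s1, i1, rfl, hi, h1⟩ | ⟨s1, i1, rfl, hi, h1⟩
  · have := h1.2.1
    simp at this
  · have := h1.2.1
    simp only [Option.some.injEq, Prod.mk.injEq, true_and] at this
    have h2 := congrArg Fin.val this.2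
    simp at h2
  · have := h1.2.2.2.2
    omega
  · have := h1.2.1
    simp at this
  · have := h1.1
    simp at this
  · have := h1.2.1
    simp at this
  · obtain ⟨h2, h3, h4, h5, h6, h7, -⟩ := h1
    simp only [Option.some.injEq, Prod.mk.injEq, true_and, and_true] at h5
    subst h5 h6 h7 h4
    exact ⟨i1, hi, h2, h3, rfl⟩

private theorem preW (K : NM) {c1 : K.undo.Cfg} {s : Fin K.q} {i : Fin (4 * K.q + 1)}
    {r : Fin K.B → ℕ} {L T : ℕ}
    (h : K.undo.step c1 = K.cf (some (3, s, i)) r L T) :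
    ∃ (s' : Fin K.q), (∃ hi : i.1 ≠ 0, K.src i hi = s) ∧ K.nx s (K.lfl i) (K.lbt i) = some s' ∧
      c1 = K.cf (some (2, s', i)) (Function.update r (K.reg s)
        ((K.op s (K.lfl i)).app (r (K.reg s)))) L T := by
  obtain ⟨p, r1, L1, T1, rfl⟩ := K.cf_surj c1
  rcases K.phases h (by simp) with ⟨s1, i1, rfl, h1 | ⟨h0, h1⟩ | h1⟩ | ⟨s1, i1, rfl, h1 | h1⟩ |
    ⟨s1, i1, rfl, hi, h1⟩ | ⟨s1, i1, rfl, hi, h1⟩
  · have := h1.2.1
    simp at this
  · have := h1.2.1
    simp at this
  · have := h1.2.2.1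
    simp at this
  · have := h1.2.1
    simp at this
  · have := h1.1
    simp at this
  · obtain ⟨h2, h3, h4, h5, h6⟩ := h1
    simp only [Option.some.injEq, Prod.mk.injEq, true_and] at h3
    obtain ⟨h7, h8⟩ := h3
    subst h8
    subst h7
    subst h4 h5
    exact ⟨s1, ⟨hi, rfl⟩, h2, by rw [← h6]⟩
  · have := h1.2.2.2.1
    simp at this

private theorem preU (K : NM) {c1 : K.undo.Cfg} {s : Fin K.q} {i : Fin (4 * K.q + 1)}
    {r : Fin K.B → ℕ} {L T : ℕ}
    (h : K.undo.step c1 = K.cf (some (2, s, i)) r L T) :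
    c1 = K.cf (some (1, s, i)) r L 0 ∧ T = 0 := by
  obtain ⟨p, r1, L1, T1, rfl⟩ := K.cf_surj c1
  rcases K.phases h (by simp) with ⟨s1, i1, rfl, h1 | ⟨h0, h1⟩ | h1⟩ | ⟨s1, i1, rfl, h1 | h1⟩ |
    ⟨s1, i1, rfl, hi, h1⟩ | ⟨s1, i1, rfl, hi, h1⟩
  · have := h1.2.1
    simp at this
  · have := h1.2.1
    simp at this
  · have := h1.2.2.1
    simp at this
  · obtain ⟨h2, h3, h4, h5, h6⟩ := h1
    simp only [Option.some.injEq, Prod.mk.injEq, true_and] at h3
    obtain ⟨h7, h8⟩ := h3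
    subst h7 h8 h4 h5 h2 h6
    exact ⟨rfl, rfl⟩
  · have := h1.1
    simp at this
  · have := h1.2.1
    simp at this
  · have := h1.2.2.2.1
    simp at this

private theorem preR (K : NM) {c1 : K.undo.Cfg} {s : Fin K.q} {i : Fin (4 * K.q + 1)}
    {r : Fin K.B → ℕ} {L T : ℕ}
    (h : K.undo.step c1 = K.cf (some (1, s, i)) r L T) :
    (L ≠ 0 ∧ c1 = K.cf (some (1, s, i)) r (L - 1) (T + 1)) ∨
    (L = 0 ∧ c1 = K.cf (some (0, s, i)) r 0 T) := by
  obtain ⟨p, r1, L1, T1, rfl⟩ := K.cf_surj c1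
  rcases K.phases h (by simp) with ⟨s1, i1, rfl, h1 | ⟨h0, h1⟩ | h1⟩ | ⟨s1, i1, rfl, h1 | h1⟩ |
    ⟨s1, i1, rfl, hi, h1⟩ | ⟨s1, i1, rfl, hi, h1⟩
  · obtain ⟨h2, h3, h4, h5, h6⟩ := h1
    simp only [Option.some.injEq, Prod.mk.injEq, true_and] at h3
    obtain ⟨h7, h8⟩ := h3
    subst h7 h8 h4 h5 h2 h6
    exact Or.inr ⟨rfl, rfl⟩
  · have := h1.2.1
    simp at this
  · have := h1.2.2.1
    simp at this
  · have := h1.2.1
    simp at this
  · obtain ⟨h3, h4, h5, h6⟩ := h1
    simp only [Option.some.injEq, Prod.mk.injEq, true_and] at h3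
    obtain ⟨h7, h8⟩ := h3
    subst h7 h8 h4 h5 h6
    exact Or.inl ⟨by omega, by rw [Nat.add_sub_cancel]⟩
  · have := h1.2.1
    simp at this
  · have := h1.2.2.2.1
    simp at this

private theorem preD (K : NM) {c1 : K.undo.Cfg} {s : Fin K.q} {i : Fin (4 * K.q + 1)}
    {r : Fin K.B → ℕ} {L T : ℕ} (hi : i.1 ≠ 0)
    (h : K.undo.step c1 = K.cf (some (0, s, i)) r L T) :
    c1 = K.cf (some (0, s, ⟨i.1 - 1, by have := i.2; omega⟩)) r (L + 1) T := by
  obtain ⟨p, r1, L1, T1, rfl⟩ := K.cf_surj c1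
  rcases K.phases h (by simp) with ⟨s1, i1, rfl, h1 | ⟨h0, h1⟩ | h1⟩ | ⟨s1, i1, rfl, h1 | h1⟩ |
    ⟨s1, i1, rfl, hi', h1⟩ | ⟨s1, i1, rfl, hi', h1⟩
  · have := h1.2.1
    simp at this
  · obtain ⟨h2, h3, h4, h5⟩ := h1
    simp only [Option.some.injEq, Prod.mk.injEq, true_and] at h3
    obtain ⟨h7, h8⟩ := h3
    subst h7 h4 h5 h2
    have h9 : i1 = ⟨i.1 - 1, by have := i.2; omega⟩ := by
      apply Fin.ext
      have := congrArg Fin.val h8
      simp only at this
      simp only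
      omega
    rw [h9]
  · have := h1.2.2.1
    simp only [Option.some.injEq, Prod.mk.injEq, true_and] at this
    rw [this.2] at hi
    exact absurd rfl hi
  · have := h1.2.1
    simp at this
  · have := h1.1
    simp at this
  · have := h1.2.1
    simp at this
  · have := h1.2.2.2.1
    simp only [Option.some.injEq, Prod.mk.injEq, true_and] at this
    rw [this.2] at hi
    exact absurd rfl hi

private theorem preDT (K : NM) {c1 : K.undo.Cfg} {s : Fin K.q}
    {r : Fin K.B → ℕ} {L T : ℕ}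
    (h : K.undo.step c1 = K.cf (some (0, s, 0)) r L (T + 1)) :
    c1 = K.cf (some (0, s, ⟨4 * K.q, by omega⟩)) r (L + 1) T := by
  obtain ⟨p, r1, L1, T1, rfl⟩ := K.cf_surj c1
  rcases K.phases h (by simp) with ⟨s1, i1, rfl, h1 | ⟨h0, h1⟩ | h1⟩ | ⟨s1, i1, rfl, h1 | h1⟩ |
    ⟨s1, i1, rfl, hi', h1⟩ | ⟨s1, i1, rfl, hi', h1⟩
  · have := h1.2.1
    simp at this
  · have := h1.2.1
    simp only [Option.some.injEq, Prod.mk.injEq, true_and] at this
    have h2 := congrArg Fin.val this.2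
    simp at h2
  · obtain ⟨h0, h2, h3, h4, h5⟩ := h1
    simp only [Option.some.injEq, Prod.mk.injEq, true_and, and_true] at h3
    have h6 : T1 = T := by omega
    subst h3 h4 h2 h6
    have h9 : i1 = ⟨4 * K.q, by omega⟩ := Fin.ext h0
    rw [h9]
  · have := h1.2.1
    simp at this
  · have := h1.1
    simp at this
  · have := h1.2.1
    simp at this
  · have := h1.2.2.2.2.2.2
    omega

private theorem lab_eq (K : NM) (i : Fin (4 * K.q + 1)) (hi : i.1 ≠ 0) :
    K.lab (K.src i hi) (K.lfl i) (K.lbt i) = i.1 := by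
  unfold lab src lfl lbt
  simp only
  have h1 : (decide ((i.1 - 1) / 2 % 2 = 1)).toNat = (i.1 - 1) / 2 % 2 := by
    by_cases h : (i.1 - 1) / 2 % 2 = 1
    · rw [decide_eq_true h, h]
      rfl
    · rw [decide_eq_false h]
      show 0 = _
      omega
  have h2 : (decide ((i.1 - 1) % 2 = 1)).toNat = (i.1 - 1) % 2 := by
    by_cases h : (i.1 - 1) % 2 = 1
    · rw [decide_eq_true h, h]
      rfl
    · rw [decide_eq_false h]
      show 0 = _
      omega
  rw [h1, h2]
  omega

/-- the dividing phase read backwards -/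
private theorem dphase (K : NM) (χ : ℕ → K.undo.Cfg) (h1 : ∀ t, K.undo.step (χ (t + 1)) = χ t)
    (s : Fin K.q) (r : Fin K.B → ℕ) (N t0 : ℕ)
    (h0 : χ t0 = K.cf (some (0, s, ⟨N % (4 * K.q + 1), Nat.mod_lt _ (by omega)⟩)) r 0
      (N / (4 * K.q + 1))) :
    ∀ m, m ≤ N → χ (t0 + m) =
      K.cf (some (0, s, ⟨(N - m) % (4 * K.q + 1), Nat.mod_lt _ (by omega)⟩)) r m
      ((N - m) / (4 * K.q + 1)) := by
  intro m
  induction m with
  | zero => intro _; exact h0
  | succ m ih =>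
    intro hm
    have h2 := ih (by omega)
    have h3 := h1 (t0 + m)
    rw [h2] at h3
    by_cases hj : (N - m) % (4 * K.q + 1) = 0
    · have hk : ∃ k, N - m = (4 * K.q + 1) * (k + 1) := by
        obtain ⟨k, hk⟩ := Nat.dvd_of_mod_eq_zero hj
        rcases k with _ | k
        · rw [mul_zero] at hk
          omega
        · exact ⟨k, hk⟩
      obtain ⟨k, hk⟩ := hk
      have e1 : (⟨(N - m) % (4 * K.q + 1), Nat.mod_lt _ (by omega)⟩ : Fin (4 * K.q + 1)) = 0 :=
        Fin.ext hj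
      have e2 : (N - m) / (4 * K.q + 1) = k + 1 := by
        rw [hk]
        exact Nat.mul_div_cancel_left _ (by omega)
      rw [e1, e2] at h3
      have h4 := K.preDT h3
      have e3 : N - (m + 1) = 4 * K.q + (4 * K.q + 1) * k := by
        have : (4 * K.q + 1) * (k + 1) = (4 * K.q + 1) * k + (4 * K.q + 1) := by ring
        omega
      have e4 : (N - (m + 1)) % (4 * K.q + 1) = 4 * K.q := by
        rw [e3, Nat.add_mul_mod_self_left, Nat.mod_eq_of_lt (by omega)]
      have e5 : (N - (m + 1)) / (4 * K.q + 1) = k := by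
        rw [e3, Nat.add_mul_div_left _ _ (by omega), Nat.div_eq_of_lt (by omega), zero_add]
      rw [e5]
      have e6 : (⟨(N - (m + 1)) % (4 * K.q + 1), Nat.mod_lt _ (by omega)⟩ :
          Fin (4 * K.q + 1)) = ⟨4 * K.q, by omega⟩ := Fin.ext e4
      rw [e6]
      exact h4
    · have h4 := K.preD hj h3
      have hd := Nat.div_add_mod (N - m) (4 * K.q + 1)
      set j := (N - m) % (4 * K.q + 1) with hjd
      set k := (N - m) / (4 * K.q + 1) with hkd
      have hjl : j < 4 * K.q + 1 := Nat.mod_lt _ (by omega)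
      have e3 : N - (m + 1) = (j - 1) + (4 * K.q + 1) * k := by omega
      have e4 : (N - (m + 1)) % (4 * K.q + 1) = j - 1 := by
        rw [e3, Nat.add_mul_mod_self_left, Nat.mod_eq_of_lt (by omega)]
      have e5 : (N - (m + 1)) / (4 * K.q + 1) = k := by
        rw [e3, Nat.add_mul_div_left _ _ (by omega), Nat.div_eq_of_lt (by omega), zero_add]
      rw [e5]
      have e6 : (⟨(N - (m + 1)) % (4 * K.q + 1), Nat.mod_lt _ (by omega)⟩ :
          Fin (4 * K.q + 1)) = ⟨j - 1, by omega⟩ := Fin.ext e4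
      rw [e6]
      exact h4

/-- moving back, read backwards -/
private theorem rphase (K : NM) (χ : ℕ → K.undo.Cfg) (h1 : ∀ t, K.undo.step (χ (t + 1)) = χ t)
    (s : Fin K.q) (i : Fin (4 * K.q + 1)) (r : Fin K.B → ℕ) (L t0 : ℕ)
    (h0 : χ t0 = K.cf (some (1, s, i)) r L 0) :
    ∀ m, m ≤ L → χ (t0 + m) = K.cf (some (1, s, i)) r (L - m) m := by
  intro m
  induction m with
  | zero => intro _; exact h0
  | succ m ih =>
    intro hm
    have h2 := ih (by omega)
    have h3 := h1 (t0 + m)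
    rw [h2] at h3
    rcases K.preR h3 with ⟨-, h4⟩ | ⟨h4, -⟩
    · rw [show t0 + (m + 1) = t0 + m + 1 from rfl, h4]
      congr 1
    · omega

theorem undo_bwd (K : NM) (c : K.Cfg) (L : ℕ) (χ : ℕ → K.undo.Cfg) (h0 : χ 0 = K.uemb c L)
    (h1 : ∀ t, K.undo.step (χ (t + 1)) = χ t) :
    ∃ b c', K.kstep b c = some c' ∧ χ (K.len c b L) = K.uemb c' (K.nl c b L) ∧
      ∀ t, 0 < t → t < K.len c b L → ∀ c'' L'', χ t ≠ K.uemb c'' L'' := by
  obtain ⟨s, r⟩ := c
  have e0 : K.undo.step (χ 1) = K.cf (some (0, s, 0)) r L 0 := by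
    rw [h1 0, h0]
    rfl
  obtain ⟨i, hi, hs, hf, e1⟩ := K.preD00 e0
  have e1' : K.undo.step (χ 2) = K.cf (some (3, s, i)) r L 0 := by
    rw [h1 1, e1]
  obtain ⟨s', -, hnx, e2⟩ := K.preW e1'
  set r' := Function.update r (K.reg s) ((K.op s (K.lfl i)).app (r (K.reg s))) with hr'
  have e2' : K.undo.step (χ 3) = K.cf (some (2, s', i)) r' L 0 := by
    rw [h1 2, e2]
  obtain ⟨e3, -⟩ := K.preU e2'
  have e4 := K.rphase χ h1 s' i r' L 3 e3
  have e5 : K.undo.step (χ (3 + L + 1)) = K.cf (some (1, s', i)) r' 0 L := by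
    rw [h1 (3 + L), e4 L le_rfl, Nat.sub_self]
  have e6 : χ (3 + L + 1) = K.cf (some (0, s', i)) r' 0 L := by
    rcases K.preR e5 with ⟨h, -⟩ | ⟨-, h⟩
    · exact absurd rfl h
    · exact h
  have hflag : K.flag (s, r) = K.lfl i := hf
  have hlab : K.lab s (K.flag (s, r)) (K.lbt i) = i.1 := by
    rw [hflag]
    have := K.lab_eq i hi
    rw [hs] at this
    exact this
  have hN : K.nl (s, r) (K.lbt i) L = i.1 + (4 * K.q + 1) * L := by
    unfold nl
    simp only
    rw [hlab]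
    ring
  have hil := i.2
  have hNm : K.nl (s, r) (K.lbt i) L % (4 * K.q + 1) = i.1 := by
    rw [hN, Nat.add_mul_mod_self_left, Nat.mod_eq_of_lt hil]
  have hNd : K.nl (s, r) (K.lbt i) L / (4 * K.q + 1) = L := by
    rw [hN, Nat.add_mul_div_left _ _ (by omega), Nat.div_eq_of_lt hil, zero_add]
  have e7 := K.dphase χ h1 s' r' (K.nl (s, r) (K.lbt i) L) (3 + L + 1) (by
    rw [e6]
    congr 1
    · congr 2
      · congr 1
        exact Fin.ext hNm.symm
    · exact hNd.symm)
  have hlen : K.len (s, r) (K.lbt i) L = 3 + L + 1 + K.nl (s, r) (K.lbt i) L := by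
    unfold len
    omega
  refine ⟨K.lbt i, (s', r'), ?_, ?_, ?_⟩
  · unfold kstep
    simp only
    rw [hflag, hnx]
    rfl
  · rw [hlen, e7 _ le_rfl]
    unfold uemb cf
    simp only [Nat.sub_self, Nat.zero_div]
    rfl
  · intro t ht0 htl c'' L'' hcon
    have hu : K.uemb c'' L'' = K.cf (some (0, c''.1, 0)) c''.2 L'' 0 := rfl
    rw [hu] at hcon
    rw [hlen] at htl
    rcases Nat.lt_or_ge t (3 + L + 1) with h | h
    · rcases Nat.lt_or_ge t 3 with h3 | h3
      · interval_cases t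
        · rw [e1] at hcon
          have := (K.cf_inj hcon).1
          simp at this
        · rw [e2] at hcon
          have := (K.cf_inj hcon).1
          simp at this
      · obtain ⟨m, rfl⟩ := Nat.exists_eq_add_of_le h3
        rw [e4 m (by omega)] at hcon
        have := (K.cf_inj hcon).1
        simp at this
    · obtain ⟨m, rfl⟩ := Nat.exists_eq_add_of_le h
      rw [e7 m (by omega)] at hcon
      obtain ⟨h5, -, -, h6⟩ := K.cf_inj hcon
      simp only [Option.some.injEq, Prod.mk.injEq, true_and] at h5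
      have h7 := congrArg Fin.val h5.2
      simp only [Fin.val_zero] at h7
      have h8 := Nat.div_add_mod (K.nl (s, r) (K.lbt i) L - m) (4 * K.q + 1)
      rw [h7, h6] at h8
      omega

end NM

end CB
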