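import Pool.Agent.Work.MP_cb528c_lc.UndoFwd
import Pool.Agent.Work.MP_cb528c_lc.UndoBwd
import Pool.Agent.Work.MP_cb528c_lc.KLoop

set_option autoImplicit false
set_option linter.all false

/-!
# MP_cb528c_lc, module LoopM: deterministic machine whose inverse branches iterate `F` with free choice of the bits

`M := K.undo.toMach`, `Hm m L := K.undo.tr (K.uemb (H m) L)`.  Along the path `π m b 0, .., π m b (N m b)` define the logs
`L_0 = L`, `L_{i+1} = K.nl (π m b i) (choice) L_i` and times `T_0 = 0`, `T_{i+1} = T_i + K.len (π m b i) (choice) L_i` (choice `b` for `i = 0`, then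
`false`), `L' m b L := L_{N m b}`, `T m b L := T_{N m b}` (computable: `Computable.nat_rec`; `nl`, `len`, `flag`, `lab` are computable on
`K.Cfg = Fin q × (Fin B → ℕ)`).
First statement: `undo_fwd` along the path, composed.  Second: `undo_bwd` repeatedly: at `H m` it gives a choice `b` and the
next configuration of `K`, which is `π m b 1`; at `π m b i`, `0 < i < N`, only the choice `false` is possible and gives `π m b (i+1)`;
`m = 0` is impossible as `kstep` is `none`.  Inside these times no configuration `Hm m' L'` occurs: between by `undo_bwd`, at the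
intermediate `uemb (π m b i) L_i` because `π m b i ≠ H m'` (`uemb` is injective).
Transfer from `K.undo` to `M` by `GM.tr_step`, `GM.tr_bij`.  `Hm` computable: the state is constant, the registers are
`Fin.append r ![L, 0]`, a function of `Fin (B+2) → ℕ`.
-/

namespace CB

open Primrec in
private theorem loopm_lab (K : NM) : Primrec (fun x : K.Cfg × Bool => K.lab x.1.1 (K.flag x.1) x.2) := by
  have h1 : Primrec (fun x : K.Cfg × Bool => (x.1.1 : Fin K.q)) := Primrec.fst.comp Primrec.fst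
  have h2 : Primrec (fun x : K.Cfg × Bool => x.1.2 (K.reg x.1.1)) :=
    Primrec.fin_app.comp (Primrec.snd.comp Primrec.fst) ((Primrec.dom_finite K.reg).comp h1)
  have h3 : Primrec (fun n : ℕ => decide (n ≠ 0)) := by
    have : Primrec (fun n : ℕ => (Nat.casesOn n false (fun _ => true) : Bool)) :=
      Primrec.nat_casesOn Primrec.id (Primrec.const _) (Primrec₂.const _)
    refine this.of_eq ?_
    intro n
    cases n with
    | zero => rfl
    | succ n => simp
  have h4 : Primrec (fun x : K.Cfg × Bool => K.flag x.1) := h3.comp h2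
  have h5 : Primrec (fun y : (Fin K.q × Bool) × Bool => K.lab y.1.1 y.1.2 y.2) := Primrec.dom_finite _
  exact h5.comp (Primrec.pair (Primrec.pair h1 h4) Primrec.snd)

private theorem loopm_nl (K : NM) : Primrec (fun x : (K.Cfg × Bool) × ℕ => K.nl x.1.1 x.1.2 x.2) := by
  unfold NM.nl
  exact Primrec.nat_add.comp (Primrec.nat_mul.comp (Primrec.const _) Primrec.snd)
    ((loopm_lab K).comp Primrec.fst)

private theorem loopm_len (K : NM) : Primrec (fun x : (K.Cfg × Bool) × ℕ => K.len x.1.1 x.1.2 x.2) := by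
  unfold NM.len
  exact Primrec.nat_add.comp (Primrec.nat_add.comp (loopm_nl K) Primrec.snd) (Primrec.const 4)

/-- choices: `b` first, then `false` -/
private def loopm_ch (b : Bool) (i : ℕ) : Bool := Nat.casesOn i b (fun _ => false)

/-- logs and times along the path -/
private def loopm_lt (K : NM) (π : ℕ → Bool → ℕ → K.Cfg) (m : ℕ) (b : Bool) (L : ℕ) (i : ℕ) : ℕ × ℕ :=
  Nat.rec (motive := fun _ => ℕ × ℕ) (L, 0)
    (fun i p => (K.nl (π m b i) (loopm_ch b i) p.1, p.2 + K.len (π m b i) (loopm_ch b i) p.1)) i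

private theorem loopm_lt_zero (K : NM) (π : ℕ → Bool → ℕ → K.Cfg) (m : ℕ) (b : Bool) (L : ℕ) :
    loopm_lt K π m b L 0 = (L, 0) := rfl

private theorem loopm_lt_succ (K : NM) (π : ℕ → Bool → ℕ → K.Cfg) (m : ℕ) (b : Bool) (L i : ℕ) :
    loopm_lt K π m b L (i + 1) = (K.nl (π m b i) (loopm_ch b i) (loopm_lt K π m b L i).1,
      (loopm_lt K π m b L i).2 + K.len (π m b i) (loopm_ch b i) (loopm_lt K π m b L i).1) := rfl

private theorem loopm_gen {C : Type} [Primcodable C] (u v : (C × Bool) × ℕ → ℕ) (hu : Computable u)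
    (hv : Computable v) (π : ℕ → Bool → ℕ → C) (N : ℕ → Bool → ℕ) (hN : Computable₂ N)
    (hπ : Computable (fun x : ℕ × Bool × ℕ => π x.1 x.2.1 x.2.2)) :
    Computable (fun x : ℕ × Bool × ℕ => (Nat.rec (motive := fun _ => ℕ × ℕ) (x.2.2, 0)
      (fun i p => (u ((π x.1 x.2.1 i, loopm_ch x.2.1 i), p.1),
        p.2 + v ((π x.1 x.2.1 i, loopm_ch x.2.1 i), p.1))) (N x.1 x.2.1) : ℕ × ℕ)) := by
  have a1 : Computable (fun x : ℕ × Bool × ℕ => N x.1 x.2.1) :=
    hN.comp Computable.fst (Computable.fst.comp Computable.snd)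
  have a2 : Computable (fun x : ℕ × Bool × ℕ => ((x.2.2, 0) : ℕ × ℕ)) :=
    Computable.pair (Computable.snd.comp Computable.snd) (Computable.const 0)
  have cπ : Computable (fun y : (ℕ × Bool × ℕ) × (ℕ × (ℕ × ℕ)) => π y.1.1 y.1.2.1 y.2.1) :=
    hπ.comp (Computable.pair (Computable.fst.comp Computable.fst) (Computable.pair
      (Computable.fst.comp (Computable.snd.comp Computable.fst)) (Computable.fst.comp Computable.snd)))
  have cch : Computable (fun y : (ℕ × Bool × ℕ) × (ℕ × (ℕ × ℕ)) => loopm_ch y.1.2.1 y.2.1) := by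
    unfold loopm_ch
    exact Computable.nat_casesOn (f := fun y : (ℕ × Bool × ℕ) × (ℕ × (ℕ × ℕ)) => y.2.1)
      (g := fun y : (ℕ × Bool × ℕ) × (ℕ × (ℕ × ℕ)) => y.1.2.1) (h := fun _ _ => false)
      (Computable.fst.comp Computable.snd)
      (Computable.fst.comp (Computable.snd.comp Computable.fst)) (Computable.const false)
  have cL : Computable (fun y : (ℕ × Bool × ℕ) × (ℕ × (ℕ × ℕ)) => y.2.2.1) :=
    Computable.fst.comp (Computable.snd.comp Computable.snd)
  have cT : Computable (fun y : (ℕ × Bool × ℕ) × (ℕ × (ℕ × ℕ)) => y.2.2.2) :=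
    Computable.snd.comp (Computable.snd.comp Computable.snd)
  have c1 : Computable (fun y : (ℕ × Bool × ℕ) × (ℕ × (ℕ × ℕ)) =>
      u ((π y.1.1 y.1.2.1 y.2.1, loopm_ch y.1.2.1 y.2.1), y.2.2.1)) :=
    hu.comp (Computable.pair (Computable.pair cπ cch) cL)
  have c2 : Computable (fun y : (ℕ × Bool × ℕ) × (ℕ × (ℕ × ℕ)) =>
      v ((π y.1.1 y.1.2.1 y.2.1, loopm_ch y.1.2.1 y.2.1), y.2.2.1)) :=
    hv.comp (Computable.pair (Computable.pair cπ cch) cL)
  have c4 : Computable (fun y : (ℕ × Bool × ℕ) × (ℕ × (ℕ × ℕ)) =>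
      y.2.2.2 + v ((π y.1.1 y.1.2.1 y.2.1, loopm_ch y.1.2.1 y.2.1), y.2.2.1)) :=
    Primrec.nat_add.to_comp.comp cT c2
  have c3 : Computable₂ (fun (x : ℕ × Bool × ℕ) (z : ℕ × (ℕ × ℕ)) =>
      ((u ((π x.1 x.2.1 z.1, loopm_ch x.2.1 z.1), z.2.1),
        z.2.2 + v ((π x.1 x.2.1 z.1, loopm_ch x.2.1 z.1), z.2.1)) : ℕ × ℕ)) :=
    Computable.pair c1 c4
  exact Computable.nat_rec a1 a2 c3

private theorem loopm_ltc (K : NM) (π : ℕ → Bool → ℕ → K.Cfg) (N : ℕ → Bool → ℕ) (hN : Computable₂ N)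
    (hπ : Computable (fun x : ℕ × Bool × ℕ => π x.1 x.2.1 x.2.2)) :
    Computable (fun x : ℕ × Bool × ℕ => loopm_lt K π x.1 x.2.1 x.2.2 (N x.1 x.2.1)) :=
  loopm_gen (fun x : (K.Cfg × Bool) × ℕ => K.nl x.1.1 x.1.2 x.2)
    (fun x : (K.Cfg × Bool) × ℕ => K.len x.1.1 x.1.2 x.2) (loopm_nl K).to_comp (loopm_len K).to_comp
    π N hN hπ

private theorem loopm_uemb_inj (K : NM) (c c' : K.Cfg) (L L' : ℕ) (h : K.uemb c L = K.uemb c' L') :
    c = c' ∧ L = L' := by
  unfold NM.uemb at h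
  have h1 := congrArg Prod.fst h
  have h2 : (Fin.append c.2 ![L, 0] : Fin (K.B + 2) → ℕ) = Fin.append c'.2 ![L', 0] := congrArg Prod.snd h
  have h4 : ((0, c.1, 0) : Fin 4 × Fin K.q × Fin (4 * K.q + 1)) = (0, c'.1, 0) := Option.some.inj h1
  have h5 : c.1 = c'.1 := congrArg (fun x : Fin 4 × Fin K.q × Fin (4 * K.q + 1) => x.2.1) h4
  refine ⟨Prod.ext h5 ?_, ?_⟩
  · funext i
    have h3 := congrFun h2 (Fin.castAdd 2 i)
    rw [Fin.append_left, Fin.append_left] at h3
    exact h3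
  · have h3 := congrFun h2 (Fin.natAdd K.B 0)
    rw [Fin.append_right, Fin.append_right] at h3
    exact h3

private theorem loopm_emb (K : NM) (e : Fin K.q → Fin K.undo.toMach.q) :
    Primrec (fun x : K.Cfg × ℕ => ((e x.1.1, (Fin.append x.1.2 ![x.2, 0] : Fin (K.B + 2) → ℕ)) :
      Fin K.undo.toMach.q × (Fin (K.B + 2) → ℕ))) := by
  refine Primrec.pair ((Primrec.dom_finite e).comp (Primrec.fst.comp Primrec.fst)) ?_
  refine Primrec.fin_curry.2 ?_
  refine Primrec₂.swap (f := fun (i : Fin (K.B + 2)) (x : K.Cfg × ℕ) =>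
    (Fin.append x.1.2 ![x.2, 0] : Fin (K.B + 2) → ℕ) i) ?_
  refine Primrec.fin_curry₁.2 ?_
  intro i
  refine Fin.addCases (fun j => ?_) (fun j => ?_) i
  · simp only [Fin.append_left]
    exact Primrec.fin_app.comp (Primrec.snd.comp Primrec.fst) (Primrec.const j)
  · simp only [Fin.append_right]
    match j with
    | 0 => exact Primrec.snd
    | 1 => exact Primrec.const 0

private theorem loopm_fwd (K : NM) (π : ℕ → Bool → ℕ → K.Cfg) (m : ℕ) (b : Bool) (L n : ℕ)
    (h : ∀ i, i < n → K.kstep (loopm_ch b i) (π m b i) = some (π m b (i + 1))) :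
    ∀ i, i ≤ n → K.undo.step^[(loopm_lt K π m b L i).2] (K.uemb (π m b i) (loopm_lt K π m b L i).1) =
      K.uemb (π m b 0) L := by
  intro i
  induction i with
  | zero => intro _; rfl
  | succ i ih =>
    intro hi
    rw [loopm_lt_succ]
    simp only
    rw [Function.iterate_add_apply, K.undo_fwd _ _ _ _ (h i (by omega))]
    exact ih (by omega)

private theorem loopm_bwd (K : NM) (H : ℕ → K.Cfg) (π : ℕ → Bool → ℕ → K.Cfg) (m : ℕ) (b : Bool) (L n : ℕ)
    (χ : ℕ → K.undo.Cfg) (h0 : ∀ t, K.undo.step (χ (t + 1)) = χ t)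
    (h1 : χ (loopm_lt K π m b L 1).2 = K.uemb (π m b 1) (loopm_lt K π m b L 1).1)
    (h2 : ∀ t, 0 < t → t < (loopm_lt K π m b L 1).2 → ∀ m' L1, χ t ≠ K.uemb (H m') L1)
    (h : ∀ i, 0 < i → i < n → K.kstep false (π m b i) = some (π m b (i + 1)) ∧
      K.kstep true (π m b i) = none ∧ ∀ m', π m b i ≠ H m') :
    ∀ i, i + 1 ≤ n → χ (loopm_lt K π m b L (i + 1)).2 =
      K.uemb (π m b (i + 1)) (loopm_lt K π m b L (i + 1)).1 ∧
      ∀ t, 0 < t → t < (loopm_lt K π m b L (i + 1)).2 → ∀ m' L1, χ t ≠ K.uemb (H m') L1 := by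
  intro i
  induction i with
  | zero => intro _; exact ⟨h1, h2⟩
  | succ i ih =>
    intro hi
    obtain ⟨e1, e2⟩ := ih (by omega)
    obtain ⟨k1, k2, k3⟩ := h (i + 1) (by omega) (by omega)
    obtain ⟨b', c', f1, f2, f3⟩ := K.undo_bwd (π m b (i + 1)) (loopm_lt K π m b L (i + 1)).1
      (fun t => χ ((loopm_lt K π m b L (i + 1)).2 + t)) e1 (fun t => h0 _)
    have hb : b' = false := by
      cases b' with
      | false => rfl
      | true => rw [k2] at f1; cases f1
    subst hb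
    rw [k1] at f1
    have hc : π m b (i + 1 + 1) = c' := Option.some.inj f1
    subst hc
    have hl := loopm_lt_succ K π m b L (i + 1)
    have hch : loopm_ch b (i + 1) = false := rfl
    rw [hch] at hl
    rw [hl]
    refine ⟨f2, ?_⟩
    intro t ht ht' m' L1
    simp only at ht'
    rcases Nat.lt_trichotomy t (loopm_lt K π m b L (i + 1)).2 with h4 | h4 | h4
    · exact e2 t ht h4 m' L1
    · rw [h4, e1]
      intro h5
      exact k3 m' (loopm_uemb_inj K _ _ _ _ h5).1
    · obtain ⟨s, rfl⟩ := Nat.exists_eq_add_of_lt h4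
      have h5 := f3 (s + 1) (by omega) (by omega) (H m') L1
      rw [show (loopm_lt K π m b L (i + 1)).2 + s + 1 = (loopm_lt K π m b L (i + 1)).2 + (s + 1) by ring]
      exact h5

theorem exists_loopM (F : ℕ → Bool → ℕ) (hF : Primrec₂ F) :
    ∃ (M : Mach) (Hm : ℕ → ℕ → M.Cfg) (T L' : ℕ → Bool → ℕ → ℕ), Computable₂ Hm ∧
      Computable (fun x : ℕ × Bool × ℕ => T x.1 x.2.1 x.2.2) ∧ Computable (fun x : ℕ × Bool × ℕ => L' x.1 x.2.1 x.2.2) ∧
      (∀ m L m' L1, Hm m L = Hm m' L1 → m = m' ∧ L = L1) ∧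
      (∀ m b L, m ≠ 0 → 0 < T m b L ∧ M.step^[T m b L] (Hm (F m b) (L' m b L)) = Hm m L) ∧
      ∀ m L (χ : ℕ → M.Cfg), χ 0 = Hm m L → (∀ t, M.step (χ (t + 1)) = χ t) →
        m ≠ 0 ∧ ∃ b, χ (T m b L) = Hm (F m b) (L' m b L) ∧ ∀ t, 0 < t → t < T m b L → ∀ m' L1, χ t ≠ Hm m' L1 := by
  obtain ⟨K, H, N, π, hH, hN, hπ, hinj, hH0, hP⟩ := exists_loop F hF
  have hltc := loopm_ltc K π N hN hπ
  refine ⟨K.undo.toMach, fun m L => K.undo.tr (K.uemb (H m) L),
    fun m b L => (loopm_lt K π m b L (N m b)).2, fun m b L => (loopm_lt K π m b L (N m b)).1, ?_,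
    Computable.snd.comp hltc, Computable.fst.comp hltc, ?_, ?_, ?_⟩
  · have h1 := (loopm_emb K (fun s => K.undo.num (some (0, s, 0)))).to_comp
    exact h1.comp (Computable.pair (hH.comp Computable.fst) Computable.snd)
  · intro m L m' L1 h
    have h1 := loopm_uemb_inj K _ _ _ _ (K.undo.tr_bij.1 h)
    exact ⟨hinj h1.1, h1.2⟩
  · intro m b L hm
    obtain ⟨p1, p2, p3, p4, p5⟩ := hP m b hm
    constructor
    · obtain ⟨n, hn⟩ := Nat.exists_eq_succ_of_ne_zero p1.ne'
      simp only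
      rw [hn, Nat.succ_eq_add_one, loopm_lt_succ]
      simp only [NM.len]
      omega
    · have h1 := loopm_fwd K π m b L (N m b) (by
        intro i hi
        cases i with
        | zero => exact p4
        | succ i => exact (p5 (i + 1) (by omega) hi).1) (N m b) le_rfl
      rw [p3, p2] at h1
      have h2 : ∀ (n : ℕ) (c : K.undo.Cfg), K.undo.toMach.step^[n] (K.undo.tr c) =
          K.undo.tr (K.undo.step^[n] c) := by
        intro n
        induction n with
        | zero => intro c; rfl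
        | succ n ih =>
          intro c
          rw [Function.iterate_succ_apply, Function.iterate_succ_apply, K.undo.tr_step, ih]
      simp only
      rw [h2, h1]
  · intro m L χ hχ0 hχ
    have hbij := K.undo.tr_bij
    obtain ⟨ψ, hψ⟩ : ∃ ψ : ℕ → K.undo.Cfg, ∀ t, K.undo.tr (ψ t) = χ t :=
      ⟨fun t => (hbij.2 (χ t)).choose, fun t => (hbij.2 (χ t)).choose_spec⟩
    have g0 : ψ 0 = K.uemb (H m) L := hbij.1 (by rw [hψ, hχ0])
    have g1 : ∀ t, K.undo.step (ψ (t + 1)) = ψ t := by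
      intro t
      apply hbij.1
      rw [← K.undo.tr_step, hψ, hψ, hχ]
    obtain ⟨b, c', f1, f2, f3⟩ := K.undo_bwd (H m) L ψ g0 g1
    have hm : m ≠ 0 := by
      rintro rfl
      rw [hH0 b] at f1
      cases f1
    obtain ⟨p1, p2, p3, p4, p5⟩ := hP m b hm
    refine ⟨hm, b, ?_⟩
    rw [p2, f1] at p4
    have hc : c' = π m b 1 := Option.some.inj p4
    subst hc
    have hl : loopm_lt K π m b L 1 = (K.nl (H m) b L, K.len (H m) b L) := by
      rw [show (1 : ℕ) = 0 + 1 from rfl, loopm_lt_succ, loopm_lt_zero, p2]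
      show (K.nl (H m) b L, 0 + K.len (H m) b L) = _
      rw [zero_add]
    obtain ⟨n, hn⟩ := Nat.exists_eq_succ_of_ne_zero p1.ne'
    have h1 := loopm_bwd K H π m b L (N m b) ψ g1 (by rw [hl]; exact f2)
      (by
        rw [hl]
        intro t h1 h2 m' L1
        exact f3 t h1 h2 (H m') L1) p5 n (by rw [hn])
    rw [← Nat.succ_eq_add_one, ← hn] at h1
    obtain ⟨e1, e2⟩ := h1
    rw [p3] at e1
    refine ⟨?_, ?_⟩
    · simp only
      rw [← hψ, e1]
    · intro t ht ht' m' L1 h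
      rw [← hψ] at h
      exact e2 t ht ht' m' L1 (hbij.1 h)

end CB
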