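import Pool.Agent.Work.MP_cb528c_lc.SegDefs
import Pool.Agent.Work.MP_cb528c_lc.HierUniq

set_option autoImplicit false
set_option linter.all false

/-!
# MP_cb528c_lc, module SegCert: a Sigma_4 tree has a Pi_3 segment system

By `Sg.uniq` write `N τ ↔ ∃ k, Q τ k`, `Q` in Pi_3, at most one `k`; and `¬ Q τ k ↔ ∃ e, r τ k e`, `r` in Pi_2, at most one `e`
(`Pg.not`, `Sg.uniq`).  For a node `τ` and a bit `b` let the weight of the child `τ ++ [b]` be its witness `k`.
Order pairs: `(k', b') < (k, b)` iff `k' < k` or (`k' = k`, `b' = false`, `b = true`).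
`df τ := ` the bit `b` for which the child `τ ++ [b]` is in `N` and `(k, b)` is smallest (classical choice; `false` if no child is in `N`).
Let `lim b k := if b then k + 1 else k` (the number of `k'` with `(k', !b) < (k, b)`).
A code `c` of a segment from `τ` is (a number coding) a nonempty list of step data `(b, k, l)`, `b : Bool`, `k : ℕ`, `l : List ℕ`:
`ρ c` := the list of the bits.  Validity for the `i`-th entry, with node `τ' := τ ++ (first i bits)`:
* not last (default step): `Q (τ' ++ [b]) k`, `l.length = lim b k`, and `r (τ' ++ [!b]) k' (l.getD k' 0)` for all `k' < lim b k`;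
* last (non default step): `Q (τ' ++ [b]) k`, `l = [k']` with `k' < lim b k` and `Q (τ' ++ [!b]) k'`.
Use a type like `List (Bool × ℕ × List ℕ)`, `Primcodable`, `decode c` (a code is valid only if it decodes), and `encode` to get
uniqueness.  `D d := N [] ∧ ` every entry of `d` is a valid code of a segment from the node of the preceding entries.
`D` is in Pi_3: bounded quantifiers (`Pg.ball`), `Pg.and`, `Pg.comp`, `Pg.mono`; `N []` is a constant.
A valid default step is a step to the default child and a valid non default step is not; conversely the data of a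
step are determined by `τ'` and `b` (uniqueness of `k`, of the `e`, of `k'`) and exist: this gives `seg` and `ex`.
-/

namespace CB

private def limB (b : Bool) (k : ℕ) : ℕ := if b then k + 1 else k

/-- default step -/
private def DStp (Q : List Bool → ℕ → Prop) (r : List Bool × ℕ → ℕ → Prop) (τ : List Bool) (s : ℕ × List ℕ) :
    Prop :=
  Q (τ ++ [s.1.bodd]) s.1.div2 ∧ s.2.length = limB s.1.bodd s.1.div2 ∧
    ∀ k' < limB s.1.bodd s.1.div2, r (τ ++ [!s.1.bodd], k') (s.2.getD k' 0)

/-- non default step -/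
private def NStp (Q : List Bool → ℕ → Prop) (τ : List Bool) (s : ℕ × List ℕ) : Prop :=
  Q (τ ++ [s.1.bodd]) s.1.div2 ∧ s.2.length = 1 ∧ s.2.getD 0 0 < limB s.1.bodd s.1.div2 ∧
    Q (τ ++ [!s.1.bodd]) (s.2.getD 0 0)

private def bitsL (L : List (ℕ × List ℕ)) : List Bool := L.map (fun s => s.1.bodd)

private def VL (Q : List Bool → ℕ → Prop) (r : List Bool × ℕ → ℕ → Prop) (τ : List Bool)
    (L : List (ℕ × List ℕ)) : Prop :=
  0 < L.length ∧ ∀ i < L.length, (i + 1 < L.length → DStp Q r (τ ++ bitsL (L.take i)) (L.getD i (0, []))) ∧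
    (i + 1 = L.length → NStp Q (τ ++ bitsL (L.take i)) (L.getD i (0, [])))

private def PP (Q : List Bool → ℕ → Prop) (τ : List Bool) (b : Bool) : Prop :=
  ∃ k, Q (τ ++ [b]) k ∧ ∀ k' < limB b k, ¬ Q (τ ++ [!b]) k'

private theorem PP_uniq {Q : List Bool → ℕ → Prop} {τ : List Bool} (h1 : PP Q τ true) (h2 : PP Q τ false) :
    False := by
  obtain ⟨k1, h1, h1'⟩ := h1
  obtain ⟨k2, h2, h2'⟩ := h2
  simp only [limB, if_true, Bool.not_true, Bool.not_false, Bool.false_eq_true, if_false] at *
  by_cases h : k1 < k2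
  · exact h2' _ h h1
  · exact h1' _ (by omega) h2

private theorem PP_ex {Q : List Bool → ℕ → Prop} {τ : List Bool}
    (hu : ∀ τ k k', Q τ k → Q τ k' → k = k') {b : Bool} {k : ℕ} (h : Q (τ ++ [b]) k) : PP Q τ true ∨ PP Q τ false := by
  by_cases h2 : ∃ k', k' < limB b k ∧ Q (τ ++ [!b]) k'
  · obtain ⟨k', h3, h4⟩ := h2
    have : PP Q τ (!b) := by
      refine ⟨k', h4, fun k2 h5 h6 => ?_⟩
      rw [Bool.not_not] at h6
      have := hu _ _ _ h h6
      subst this
      cases b <;> simp [limB] at h3 h5 <;> omega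
    cases b
    · exact Or.inl this
    · exact Or.inr this
  · have : PP Q τ b := ⟨k, h, fun k' h3 h4 => h2 ⟨k', h3, h4⟩⟩
    cases b
    · exact Or.inr this
    · exact Or.inl this

private theorem bitsL_length (L : List (ℕ × List ℕ)) : (bitsL L).length = L.length := by
  simp [bitsL]

private theorem bitsL_take (L : List (ℕ × List ℕ)) (i : ℕ) : bitsL (L.take i) = (bitsL L).take i := by
  simp [bitsL, List.map_take]

private theorem bitsL_getD (L : List (ℕ × List ℕ)) (i : ℕ) (h : i < L.length) (d : Bool) :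
    (bitsL L).getD i d = (L.getD i (0, [])).1.bodd := by
  rw [List.getD_eq_getElem _ _ h, List.getD_eq_getElem _ _ (by rw [bitsL_length]; exact h)]
  simp [bitsL]

private theorem take_snoc {α : Type} (l : List α) (i : ℕ) (h : i < l.length) (d : α) :
    l.take (i + 1) = l.take i ++ [l.getD i d] := by
  rw [List.getD_eq_getElem _ _ h, List.take_add_one, List.getElem?_eq_getElem h]
  rfl

private theorem pr_bits : Primrec (fun L : List (ℕ × List ℕ) => bitsL L) :=
  Primrec.list_map Primrec.id (Primrec.nat_bodd.comp (Primrec.fst.comp Primrec.snd)).to₂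

private theorem pr_lim : Primrec (fun s : ℕ × List ℕ => limB s.1.bodd s.1.div2) := by
  have h1 : Primrec (fun s : ℕ × List ℕ => s.1.bodd) := Primrec.nat_bodd.comp Primrec.fst
  have h2 : Primrec (fun s : ℕ × List ℕ => s.1.div2) := Primrec.nat_div2.comp Primrec.fst
  refine (Primrec.cond h1 (Primrec.succ.comp h2) h2).of_eq fun s => ?_
  unfold limB
  cases s.1.bodd <;> rfl

private theorem pg_DStp {Q : List Bool → ℕ → Prop} {r : List Bool × ℕ → ℕ → Prop}
    (hQ : Pg 3 (fun x : List Bool × ℕ => Q x.1 x.2)) (hr : Pg 2 (fun x : (List Bool × ℕ) × ℕ => r x.1 x.2)) :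
    Pg 3 (fun x : List Bool × (ℕ × List ℕ) => DStp Q r x.1 x.2) := by
  have hb : Primrec (fun x : List Bool × (ℕ × List ℕ) => x.2.1.bodd) :=
    Primrec.nat_bodd.comp (Primrec.fst.comp Primrec.snd)
  have h1 : Pg 3 (fun x : List Bool × (ℕ × List ℕ) => Q (x.1 ++ [x.2.1.bodd]) x.2.1.div2) :=
    hQ.comp ((Primrec.list_concat.comp Primrec.fst hb).pair
      (Primrec.nat_div2.comp (Primrec.fst.comp Primrec.snd)))
  have h2 : Pg 3 (fun x : List Bool × (ℕ × List ℕ) => x.2.2.length = limB x.2.1.bodd x.2.1.div2) := by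
    have h := (Primrec.eq (α := ℕ)).comp (Primrec.list_length.comp (Primrec.snd.comp
      (Primrec.snd (α := List Bool) (β := ℕ × List ℕ)))) (pr_lim.comp Primrec.snd)
    exact Pg.of_primrec h.decide (fun x => by rw [decide_eq_true_iff]) 3
  have h3 : Pg 3 (fun y : (List Bool × (ℕ × List ℕ)) × ℕ =>
      r (y.1.1 ++ [!y.1.2.1.bodd], y.2) (y.1.2.2.getD y.2 0)) := by
    have h5 : Primrec (fun y : (List Bool × (ℕ × List ℕ)) × ℕ =>
        (((y.1.1 ++ [!y.1.2.1.bodd], y.2), (y.1.2.2.getD y.2 0)) : (List Bool × ℕ) × ℕ)) :=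
      ((Primrec.list_concat.comp (Primrec.fst.comp Primrec.fst)
        (Primrec.not.comp (hb.comp Primrec.fst))).pair Primrec.snd).pair
        ((Primrec.list_getD 0).comp (Primrec.snd.comp (Primrec.snd.comp Primrec.fst)) Primrec.snd)
    exact (Pg.mono (by omega) hr).comp h5
  have h4 : Pg 3 (fun x : List Bool × (ℕ × List ℕ) => ∀ k' < limB x.2.1.bodd x.2.1.div2,
      r (x.1 ++ [!x.2.1.bodd], k') (x.2.2.getD k' 0)) :=
    Pg.ball (p := fun (x : List Bool × (ℕ × List ℕ)) (k' : ℕ) =>
      r (x.1 ++ [!x.2.1.bodd], k') (x.2.2.getD k' 0)) h3 (pr_lim.comp Primrec.snd)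
  exact h1.and (h2.and h4)

private theorem pg_NStp {Q : List Bool → ℕ → Prop}
    (hQ : Pg 3 (fun x : List Bool × ℕ => Q x.1 x.2)) :
    Pg 3 (fun x : List Bool × (ℕ × List ℕ) => NStp Q x.1 x.2) := by
  have hb : Primrec (fun x : List Bool × (ℕ × List ℕ) => x.2.1.bodd) :=
    Primrec.nat_bodd.comp (Primrec.fst.comp Primrec.snd)
  have hg : Primrec (fun x : List Bool × (ℕ × List ℕ) => x.2.2.getD 0 0) :=
    (Primrec.list_getD 0).comp (Primrec.snd.comp Primrec.snd) (Primrec.const 0)
  have h1 : Pg 3 (fun x : List Bool × (ℕ × List ℕ) => Q (x.1 ++ [x.2.1.bodd]) x.2.1.div2) :=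
    hQ.comp ((Primrec.list_concat.comp Primrec.fst hb).pair
      (Primrec.nat_div2.comp (Primrec.fst.comp Primrec.snd)))
  have h2 : Pg 3 (fun x : List Bool × (ℕ × List ℕ) => x.2.2.length = 1) := by
    have h := (Primrec.eq (α := ℕ)).comp (Primrec.list_length.comp (Primrec.snd.comp
      (Primrec.snd (α := List Bool) (β := ℕ × List ℕ)))) (Primrec.const 1)
    exact Pg.of_primrec h.decide (fun x => by rw [decide_eq_true_iff]) 3
  have h3 : Pg 3 (fun x : List Bool × (ℕ × List ℕ) => x.2.2.getD 0 0 < limB x.2.1.bodd x.2.1.div2) := by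
    have h := Primrec.nat_lt.comp hg (pr_lim.comp Primrec.snd)
    exact Pg.of_primrec h.decide (fun x => by rw [decide_eq_true_iff]) 3
  have h4 : Pg 3 (fun x : List Bool × (ℕ × List ℕ) => Q (x.1 ++ [!x.2.1.bodd]) (x.2.2.getD 0 0)) :=
    hQ.comp ((Primrec.list_concat.comp Primrec.fst (Primrec.not.comp hb)).pair hg)
  exact h1.and (h2.and (h3.and h4))

private theorem pg_VL {Q : List Bool → ℕ → Prop} {r : List Bool × ℕ → ℕ → Prop}
    (hQ : Pg 3 (fun x : List Bool × ℕ => Q x.1 x.2)) (hr : Pg 2 (fun x : (List Bool × ℕ) × ℕ => r x.1 x.2)) :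
    Pg 3 (fun x : List Bool × List (ℕ × List ℕ) => VL Q r x.1 x.2) := by
  have hlen : Primrec (fun x : List Bool × List (ℕ × List ℕ) => x.2.length) :=
    Primrec.list_length.comp Primrec.snd
  have h1 : Pg 3 (fun x : List Bool × List (ℕ × List ℕ) => 0 < x.2.length) := by
    have h := Primrec.nat_lt.comp (Primrec.const 0) hlen
    exact Pg.of_primrec h.decide (fun x => by rw [decide_eq_true_iff]) 3
  have hi : Primrec (fun y : (List Bool × List (ℕ × List ℕ)) × ℕ => y.2) := Primrec.snd
  have hL : Primrec (fun y : (List Bool × List (ℕ × List ℕ)) × ℕ => y.1.2) :=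
    Primrec.snd.comp Primrec.fst
  have hpr : Primrec (fun y : (List Bool × List (ℕ × List ℕ)) × ℕ =>
      (y.1.1 ++ bitsL (y.1.2.take y.2), y.1.2.getD y.2 (0, []))) :=
    (Primrec.list_append.comp (Primrec.fst.comp Primrec.fst)
      (pr_bits.comp (Primrec.list_take.comp hi hL))).pair ((Primrec.list_getD (0, [])).comp hL hi)
  have h2 : Sg 3 (fun y : (List Bool × List (ℕ × List ℕ)) × ℕ => y.2 + 1 < y.1.2.length) := by
    have h := Primrec.nat_lt.comp (Primrec.succ.comp hi) (Primrec.list_length.comp hL)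
    exact Sg.of_primrec h.decide (fun x => by rw [decide_eq_true_iff]) 3
  have h3 : Sg 3 (fun y : (List Bool × List (ℕ × List ℕ)) × ℕ => y.2 + 1 = y.1.2.length) := by
    have h := (Primrec.eq (α := ℕ)).comp (Primrec.succ.comp hi) (Primrec.list_length.comp hL)
    exact Sg.of_primrec h.decide (fun x => by rw [decide_eq_true_iff]) 3
  have h4 := (Pg.imp h2 ((pg_DStp hQ hr).comp hpr)).and (Pg.imp h3 ((pg_NStp hQ).comp hpr))
  exact h1.and (Pg.ball (p := fun (x : List Bool × List (ℕ × List ℕ)) (i : ℕ) =>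
    (i + 1 < x.2.length → DStp Q r (x.1 ++ bitsL (x.2.take i)) (x.2.getD i (0, []))) ∧
    (i + 1 = x.2.length → NStp Q (x.1 ++ bitsL (x.2.take i)) (x.2.getD i (0, [])))) h4 hlen)

private theorem pair_ext {s s' : ℕ × List ℕ} (h1 : s.1.bodd = s'.1.bodd) (h2 : s.1.div2 = s'.1.div2)
    (h3 : s.2 = s'.2) : s = s' := by
  refine Prod.ext ?_ h3
  rw [← Nat.bit_bodd_div2 s.1, ← Nat.bit_bodd_div2 s'.1, h1, h2]

private theorem DStp_uniq {Q : List Bool → ℕ → Prop} {r : List Bool × ℕ → ℕ → Prop}
    (hu : ∀ τ k k', Q τ k → Q τ k' → k = k') (hv : ∀ a k k', r a k → r a k' → k = k')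
    {τ : List Bool} {s s' : ℕ × List ℕ} (h : DStp Q r τ s) (h' : DStp Q r τ s')
    (hb : s.1.bodd = s'.1.bodd) : s = s' := by
  obtain ⟨h1, h2, h3⟩ := h
  obtain ⟨h1', h2', h3'⟩ := h'
  rw [← hb] at h1' h2' h3'
  have hd := hu _ _ _ h1 h1'
  rw [← hd] at h2' h3'
  refine pair_ext hb hd (List.ext_getElem (by rw [h2, h2']) fun i hi hi' => ?_)
  have e1 := h3 i (by rw [← h2]; exact hi)
  have e2 := h3' i (by rw [← h2']; exact hi')
  rw [List.getD_eq_getElem _ _ hi] at e1
  rw [List.getD_eq_getElem _ _ hi'] at e2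
  exact hv _ _ _ e1 e2

private theorem NStp_uniq {Q : List Bool → ℕ → Prop}
    (hu : ∀ τ k k', Q τ k → Q τ k' → k = k')
    {τ : List Bool} {s s' : ℕ × List ℕ} (h : NStp Q τ s) (h' : NStp Q τ s')
    (hb : s.1.bodd = s'.1.bodd) : s = s' := by
  obtain ⟨h1, h2, h3, h4⟩ := h
  obtain ⟨h1', h2', h3', h4'⟩ := h'
  rw [← hb] at h1' h4'
  have hd := hu _ _ _ h1 h1'
  have he := hu _ _ _ h4 h4'
  refine pair_ext hb hd (List.ext_getElem (by rw [h2, h2']) fun i hi hi' => ?_)
  have hi0 : i = 0 := by omega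
  subst hi0
  rwa [List.getD_eq_getElem _ _ hi, List.getD_eq_getElem _ _ hi'] at he

theorem exists_segSys {N : List Bool → Prop} (h4 : Sg 4 N) (hN : ∀ τ b, N (τ ++ [b]) → N τ)
    (hd : ∀ τ, N τ → ∃ b, N (τ ++ [b])) :
    ∃ (df : List Bool → Bool) (D : List ℕ → Prop) (ρ : ℕ → List Bool), Pg 3 D ∧ (∀ τ, N τ → N (τ ++ [df τ])) ∧
      SegSys N df D ρ := by
  classical
  obtain ⟨Q, hQ, hNQ, hu⟩ := Sg.uniq h4
  obtain ⟨r, hr, hqr, hv⟩ := Sg.uniq (n := 2) (p := fun x : List Bool × ℕ => ¬ Q x.1 x.2) hQ.not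
  have hpre : ∀ (τ w : List Bool), N (τ ++ w) → N τ := by
    intro τ w
    induction w using List.reverseRecOn with
    | nil => intro h; simpa using h
    | append_singleton w b ih =>
      intro h
      rw [← List.append_assoc] at h
      exact ih (hN _ _ h)
  set df : List Bool → Bool := fun τ => if PP Q τ true then true else false with hdf
  have hdf1 : ∀ τ b, PP Q τ b → b = df τ := by
    intro τ b h
    cases b
    · have : ¬ PP Q τ true := fun h2 => PP_uniq h2 h
      simp [hdf, this]
    · simp [hdf, h]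
  have hdf2 : ∀ τ, N τ → PP Q τ (df τ) := by
    intro τ h
    obtain ⟨b, hb⟩ := hd τ h
    obtain ⟨k, hk⟩ := (hNQ _).1 hb
    rcases PP_ex hu hk with h1 | h1
    · rwa [← hdf1 τ _ h1]
    · rwa [← hdf1 τ _ h1]
  have exD : ∀ τ, N τ → ∃ s : ℕ × List ℕ, s.1.bodd = df τ ∧ DStp Q r τ s := by
    intro τ h
    obtain ⟨k, hk, hk'⟩ := hdf2 τ h
    have hmin : ∀ i, ∃ e, i < limB (df τ) k → r (τ ++ [!df τ], i) e := by
      intro i
      by_cases hi : i < limB (df τ) k
      · obtain ⟨e, he⟩ := (hqr (τ ++ [!df τ], i)).1 (hk' i hi)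
        exact ⟨e, fun _ => he⟩
      · exact ⟨0, fun h => absurd h hi⟩
    choose e he using hmin
    refine ⟨(Nat.bit (df τ) k, (List.range (limB (df τ) k)).map e), by simp, ?_⟩
    unfold DStp
    simp only [Nat.bodd_bit, Nat.div2_bit]
    refine ⟨hk, by simp, fun i hi => ?_⟩
    have h7 : ((List.range (limB (df τ) k)).map e).getD i 0 = e i := by
      rw [List.getD_eq_getElem _ _ (by simpa using hi)]
      simp
    rw [h7]
    exact he i hi
  have exN : ∀ τ b, N (τ ++ [b]) → b ≠ df τ → ∃ s : ℕ × List ℕ, s.1.bodd = b ∧ NStp Q τ s := by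
    intro τ b h hb
    obtain ⟨k, hk⟩ := (hNQ _).1 h
    have h1 : ¬ PP Q τ b := fun h1 => hb (hdf1 τ b h1)
    unfold PP at h1
    push Not at h1
    obtain ⟨k', hk', hk2⟩ := h1 k hk
    refine ⟨(Nat.bit b k, [k']), by simp, ?_⟩
    unfold NStp
    simp only [Nat.bodd_bit, Nat.div2_bit]
    exact ⟨hk, rfl, hk', hk2⟩
  have DStp_df : ∀ τ s, DStp Q r τ s → s.1.bodd = df τ := by
    intro τ s h
    refine hdf1 τ _ ⟨s.1.div2, h.1, fun k' hk' => ?_⟩
    exact (hqr (τ ++ [!s.1.bodd], k')).2 ⟨_, h.2.2 k' hk'⟩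
  have NStp_df : ∀ τ s, NStp Q τ s → s.1.bodd ≠ df τ := by
    intro τ s h hb
    have h1 : N (τ ++ [s.1.bodd]) := (hNQ _).2 ⟨_, h.1⟩
    obtain ⟨k, hk, hk'⟩ := hdf2 τ (hN _ _ h1)
    rw [← hb] at hk hk'
    have := hu _ _ _ h.1 hk
    subst this
    exact hk' _ h.2.2.1 h.2.2.2
  set ρ : ℕ → List Bool := fun c => bitsL (Denumerable.ofNat (List (ℕ × List ℕ)) c) with hρ
  set D : List ℕ → Prop := fun d => N [] ∧ ∀ j < d.length,
    VL Q r (nodeOf ρ (d.take j)) (Denumerable.ofNat (List (ℕ × List ℕ)) (d.getD j 0)) with hD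
  have hDs : ∀ d c, D (d ++ [c]) ↔ D d ∧ VL Q r (nodeOf ρ d) (Denumerable.ofNat (List (ℕ × List ℕ)) c) := by
    intro d c
    have e1 : ∀ j < d.length, (d ++ [c]).take j = d.take j := fun j hj =>
      List.take_append_of_le_length hj.le
    have e2 : ∀ j < d.length, (d ++ [c]).getD j 0 = d.getD j 0 := fun j hj =>
      List.getD_append _ _ _ _ hj
    have e3 : (d ++ [c]).take d.length = d := by simp
    have e4 : (d ++ [c]).getD d.length 0 = c := by simp
    constructor
    · rintro ⟨h0, h1⟩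
      refine ⟨⟨h0, fun j hj => ?_⟩, ?_⟩
      · have := h1 j (by simp; omega)
        rwa [e1 j hj, e2 j hj] at this
      · have := h1 d.length (by simp)
        rwa [e3, e4] at this
    · rintro ⟨⟨h0, h1⟩, h2⟩
      refine ⟨h0, fun j hj => ?_⟩
      rw [List.length_append, List.length_singleton] at hj
      rcases Nat.lt_succ_iff_lt_or_eq.1 hj with h | h
      · rw [e1 j h, e2 j h]
        exact h1 j h
      · subst h
        rw [e3, e4]
        exact h2
  have hlen : ∀ {τ : List Bool} {L : List (ℕ × List ℕ)}, VL Q r τ L → ∃ m, L.length = m + 1 :=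
    fun h => ⟨_, (Nat.succ_pred_eq_of_pos h.1).symm⟩
  refine ⟨df, D, ρ, ?_, ?_, ?_, ?_, ?_, ?_⟩
  · -- complexity
    have h0 : Pg 3 (fun _ : List ℕ => N []) := by
      by_cases h : N []
      · exact Pg.of_primrec (f := fun _ => true) (Primrec.const true) (fun _ => by simp [h]) 3
      · exact Pg.of_primrec (f := fun _ => false) (Primrec.const false) (fun _ => by simp [h]) 3
    have hof : Primrec (fun m : ℕ => Denumerable.ofNat (List (ℕ × List ℕ)) m) :=
      Primrec.ofNat _
    have hρp : Primrec ρ := pr_bits.comp hof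
    have hno : Primrec (fun d : List ℕ => nodeOf ρ d) :=
      Primrec.list_flatMap Primrec.id (hρp.comp Primrec.snd).to₂
    have hpr : Primrec (fun y : List ℕ × ℕ =>
        (nodeOf ρ (y.1.take y.2), Denumerable.ofNat (List (ℕ × List ℕ)) (y.1.getD y.2 0))) :=
      (hno.comp (Primrec.list_take.comp Primrec.snd Primrec.fst)).pair
        (hof.comp ((Primrec.list_getD 0).comp Primrec.fst Primrec.snd))
    exact h0.and (Pg.ball (p := fun (d : List ℕ) (j : ℕ) =>
      VL Q r (nodeOf ρ (d.take j)) (Denumerable.ofNat (List (ℕ × List ℕ)) (d.getD j 0)))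
      ((pg_VL hQ hr).comp hpr) Primrec.list_length)
  · intro τ h
    obtain ⟨k, hk, -⟩ := hdf2 τ h
    exact (hNQ _).2 ⟨k, hk⟩
  · simp [hD]
  · intro d c h
    exact ((hDs d c).1 h).1
  · intro d c h
    obtain ⟨h1, h2⟩ := (hDs d c).1 h
    obtain ⟨m, hm⟩ := hlen h2
    set L := Denumerable.ofNat (List (ℕ × List ℕ)) c with hL
    have hlast := (h2.2 m (by omega)).2 hm.symm
    have hρL : ρ c = (bitsL L).take m ++ [(L.getD m (0, [])).1.bodd] := by
      show bitsL L = _
      rw [← bitsL_getD L m (by omega) false, ← take_snoc _ _ (by rw [bitsL_length]; omega),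
        List.take_of_length_le (by rw [bitsL_length, hm])]
    have hlt : ((bitsL L).take m).length = m := by
      rw [List.length_take, bitsL_length, hm]; omega
    refine ⟨(bitsL L).take m, (L.getD m (0, [])).1.bodd, hρL, ?_, ?_, ?_⟩
    · rw [hρL, ← List.append_assoc]
      rw [bitsL_take] at hlast
      exact (hNQ _).2 ⟨_, hlast.1⟩
    · intro i hi
      rw [hlt] at hi
      have h3 := (h2.2 i (by omega)).1 (by omega)
      have h5 := DStp_df _ _ h3
      rw [bitsL_take] at h5
      rw [List.take_take, min_eq_left hi.le, ← h5, ← bitsL_getD L i (by omega) false]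
      rw [List.getD_eq_getElem _ _ (by rw [List.length_take, bitsL_length]; omega),
        List.getD_eq_getElem _ _ (by rw [bitsL_length]; omega), List.getElem_take]
    · rw [bitsL_take] at hlast
      exact NStp_df _ _ hlast
  · intro d hDd w hw
    obtain ⟨v, b, rfl, hNw, hdfv, hb⟩ := hw
    set τ := nodeOf ρ d with hτ
    -- the steps
    have hNi : ∀ i, N (τ ++ v.take i) := by
      intro i
      refine hpre (τ ++ v.take i) (v.drop i ++ [b]) ?_
      rw [List.append_assoc, ← List.append_assoc (v.take i), List.take_append_drop]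
      exact hNw
    choose s hs1 hs2 using fun i => exD _ (hNi i)
    obtain ⟨t, ht1, ht2⟩ := exN (τ ++ v) b (by rw [List.append_assoc]; exact hNw) hb
    set L : List (ℕ × List ℕ) := (List.range v.length).map s ++ [t] with hL
    have hbits : bitsL ((List.range v.length).map s) = v := by
      refine List.ext_getElem (by simp [bitsL]) fun i hi hi' => ?_
      simp only [bitsL, List.getElem_map, List.getElem_range]
      rw [hs1 i, ← hdfv i hi', List.getD_eq_getElem _ _ hi']
    have hbitsL : bitsL L = v ++ [b] := by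
      rw [hL, bitsL, List.map_append]
      show bitsL _ ++ _ = _
      rw [hbits]
      simp [ht1]
    have hLl : L.length = v.length + 1 := by simp [hL]
    have hVL : VL Q r τ L := by
      refine ⟨by omega, fun i hi => ⟨fun h1 => ?_, fun h1 => ?_⟩⟩
      · have h2 : i < v.length := by omega
        have e1 : L.getD i (0, []) = s i := by
          rw [hL, List.getD_append _ _ _ _ (by simpa using h2), List.getD_eq_getElem _ _ (by simpa using h2)]
          simp
        rw [e1, bitsL_take, hbitsL, List.take_append_of_le_length h2.le]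
        exact hs2 i
      · have h2 : i = v.length := by omega
        subst h2
        have e1 : L.getD v.length (0, []) = t := by
          rw [hL, List.getD_append_right _ _ _ _ (by simp)]
          simp
        rw [e1, bitsL_take, hbitsL, List.take_left']
        · exact ht2
        · rfl
    refine ⟨Encodable.encode L, ⟨(hDs _ _).2 ⟨hDd, ?_⟩, ?_⟩, ?_⟩
    · rw [Denumerable.ofNat_encode]
      exact hVL
    · show bitsL (Denumerable.ofNat (List (ℕ × List ℕ)) (Encodable.encode L)) = _
      rw [Denumerable.ofNat_encode, hbitsL]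
    · rintro c ⟨hc1, hc2⟩
      obtain ⟨-, h3⟩ := (hDs _ _).1 hc1
      have hc2' : bitsL (Denumerable.ofNat (List (ℕ × List ℕ)) c) = bitsL L := by
        rw [hbitsL]; exact hc2
      have key : Denumerable.ofNat (List (ℕ × List ℕ)) c = L := by
        generalize Denumerable.ofNat (List (ℕ × List ℕ)) c = L' at h3 hc2'
        have hl : L'.length = L.length := by
          rw [← bitsL_length L', ← bitsL_length L, hc2']
        refine List.ext_getElem hl fun i hi hi' => ?_
        have hb' : (L'.getD i (0, [])).1.bodd = (L.getD i (0, [])).1.bodd := by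
          rw [← bitsL_getD L' i hi false, ← bitsL_getD L i hi' false, hc2']
        have e1 := h3.2 i hi
        have e2 := hVL.2 i hi'
        rw [bitsL_take, hc2', ← bitsL_take] at e1
        have e3 : L'.getD i (0, []) = L.getD i (0, []) := by
          by_cases h5 : i + 1 < L.length
          · exact DStp_uniq hu hv (e1.1 (by omega)) (e2.1 h5) hb'
          · exact NStp_uniq hu (e1.2 (by omega)) (e2.2 (by omega)) hb'
        rwa [List.getD_eq_getElem _ _ hi, List.getD_eq_getElem _ _ hi'] at e3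
      rw [← key, Denumerable.encode_ofNat]

end CB
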