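import Pool.Agent.Work.MP_cb528c_lc.SegDefs

set_option autoImplicit false
set_option linter.all false

/-!
# MP_cb528c_lc, module SegPts: the branches of a segment system (pure combinatorics)

For `d` with `D d` the node `nodeOf ρ d` belongs to `N` (by `root`, resp. `seg`).  Let `x d` be the branch which extends
`nodeOf ρ d` by default steps for ever: `x d` at `i` is the entry of `nodeOf ρ d` for `i` below its length, afterwards
`x d i = df (restr (x d) i)` (define by strong recursion, or iterate `τ ↦ τ ++ [df τ]`).  All `restr (x d) n` are in `N`.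
* (dense) Let `N τ`.  By induction on `τ.length` (or the number of non default steps of `τ`): if `τ = τ' ++ [b]` and `d'` is such
  that `restr (x d') τ'.length = τ'`; claim more precisely: there is `d` with `D d`, `nodeOf ρ d <+: τ` and all steps of `τ` after
  `nodeOf ρ d` are default.  For `τ' ++ [b]`: if `b` is the default child of `τ'` keep `d`; otherwise `w := ` (the part of `τ'` after `nodeOf ρ d`)
  `++ [b]` is a `Seg` from `nodeOf ρ d`, take its code `c` and `d ++ [c]`.
* (cones) for `D t`, `D d`: `t <+: d ↔ restr (x d) (nodeOf ρ t).length = nodeOf ρ t`.  (→) `nodeOf` is monotone.  (←) induction on `t` from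
  the right: `t = t' ++ [c]`, by induction `t' <+: d`.  If `t' = d`: the last step of `nodeOf ρ t` is non default, but `x d` has
  only default steps after `nodeOf ρ d`, contradiction.  Otherwise `t' ++ [c'] <+: d`; `ρ c`, `ρ c'` are both segments from
  `nodeOf ρ t'` and both are prefixes of the same branch, hence comparable, and then equal (the first non default
  step is the last one of each), so `c = c'` by uniqueness in `ex`.
* hence for `D t` the cone `{d | t <+: d}` is determined by the coordinates below `(nodeOf ρ t).length`; if `¬ D t` it is empty.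
* `{d | x d i = true}` is determined by the cones of the finitely many `t` with `D t` and `(nodeOf ρ t).length ≤ i + 1` (finitely
  many, as `nodeOf ρ` is injective on `D` by the previous point and there are finitely many 0-1 sequences of bounded
  length; alternatively use for each `τ` of length `≤ i + 1` the at most one `t` with node `τ`).  If `d`, `d'` lie in the same of these
  cones then `restr (x d) m = restr (x d') m` for all `m ≤ i + 1` by induction on `m`: if the next step of `x d` at
  `τ = restr (x d) m` is non default, then by the claim in (dense) `restr (x d) (m+1) = nodeOf ρ t` for some `t`, with `t <+: d`,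
  so `t <+: d'`; symmetric; if both steps are default they are equal.
-/

namespace CB

/-- the default tail of length `k` after the node `σ` -/
private def tl (df : List Bool → Bool) (σ : List Bool) : ℕ → List Bool
  | 0 => []
  | k + 1 => tl df σ k ++ [df (σ ++ tl df σ k)]

private theorem tl_length (df : List Bool → Bool) (σ : List Bool) (k : ℕ) : (tl df σ k).length = k := by
  induction k with
  | zero => rfl
  | succ k ih => rw [tl, List.length_append, ih]; rfl

private theorem tl_prefix (df : List Bool → Bool) (σ : List Bool) {j k : ℕ} (h : j ≤ k) :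
    tl df σ j <+: tl df σ k := by
  induction k with
  | zero =>
    have : j = 0 := by omega
    subst this
    exact List.prefix_rfl
  | succ k ih =>
    rcases Nat.lt_or_ge j (k + 1) with h1 | h1
    · exact (ih (by omega)).trans ⟨_, rfl⟩
    · have : j = k + 1 := by omega
      subst this
      exact List.prefix_rfl

private theorem tl_take (df : List Bool → Bool) (σ : List Bool) {j k : ℕ} (h : j ≤ k) :
    (tl df σ k).take j = tl df σ j := by
  have h1 := List.prefix_iff_eq_take.1 (tl_prefix df σ h)
  rw [tl_length] at h1
  exact h1.symm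

private theorem tl_getD (df : List Bool → Bool) (σ : List Bool) {j k : ℕ} (h : j < k) :
    (tl df σ k).getD j false = df (σ ++ tl df σ j) := by
  obtain ⟨r, hr⟩ := tl_prefix df σ (show j + 1 ≤ k from h)
  rw [← hr, tl]
  have h1 : j < (tl df σ j ++ [df (σ ++ tl df σ j)]).length := by
    rw [List.length_append, tl_length]; simp
  rw [List.getD_append _ _ _ _ h1, List.getD_append_right _ _ _ _ (by rw [tl_length]), tl_length]
  simp

/-- the branch which extends `σ` by default steps -/
private def brn (df : List Bool → Bool) (σ : List Bool) (i : ℕ) : Bool := (σ ++ tl df σ (i + 1)).getD i false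

private theorem brn_eq (df : List Bool → Bool) (σ : List Bool) {i k : ℕ} (h : i < σ.length + k) :
    brn df σ i = (σ ++ tl df σ k).getD i false := by
  unfold brn
  rcases Nat.le_total k (i + 1) with h1 | h1
  · obtain ⟨r, hr⟩ := tl_prefix df σ h1
    rw [← hr, ← List.append_assoc, List.getD_append]
    rw [List.length_append, tl_length]
    exact h
  · obtain ⟨r, hr⟩ := tl_prefix df σ h1
    rw [← hr, ← List.append_assoc, List.getD_append _ r]
    rw [List.length_append, tl_length]
    omega

private theorem restr_get (y : ℕ → Bool) (n i : ℕ) (h : i < (restr y n).length) : (restr y n)[i] = y i := by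
  simp only [restr, List.getElem_map, List.getElem_range]

private theorem restr_brn (df : List Bool → Bool) (σ : List Bool) (k : ℕ) :
    restr (brn df σ) (σ.length + k) = σ ++ tl df σ k := by
  apply List.ext_getElem
  · rw [restr_length, List.length_append, tl_length]
  · intro i h1 h2
    rw [restr_get, brn_eq df σ (k := k) (by rw [restr_length] at h1; exact h1), List.getD_eq_getElem _ _ h2]

private theorem restr_tk (y : ℕ → Bool) {m n : ℕ} (h : m ≤ n) : (restr y n).take m = restr y m := by
  unfold restr
  rw [← List.map_take, List.take_range, min_eq_left h]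

private theorem restr_of_prefix {y : ℕ → Bool} {σ τ : List Bool} (h : restr y τ.length = τ) (hp : σ <+: τ) :
    restr y σ.length = σ := by
  rw [← restr_tk y hp.length_le, h]
  exact (List.prefix_iff_eq_take.1 hp).symm

private theorem nd_of_restr {df : List Bool → Bool} {y : ℕ → Bool} {σ : List Bool} {k : ℕ} {b : Bool}
    (h : restr y (σ ++ (tl df σ k ++ [b])).length = σ ++ (tl df σ k ++ [b])) (hb : b ≠ df (σ ++ tl df σ k)) :
    (∀ j < k, y (σ.length + j) = df (restr y (σ.length + j))) ∧
      y (σ.length + k) ≠ df (restr y (σ.length + k)) := by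
  have h0 : ∀ j ≤ k, restr y (σ.length + j) = σ ++ tl df σ j := by
    intro j hj
    have hp : (σ ++ tl df σ j) <+: (σ ++ (tl df σ k ++ [b])) := by
      rw [List.prefix_append_right_inj]
      exact (tl_prefix df σ hj).trans ⟨_, rfl⟩
    have := restr_of_prefix h hp
    rwa [List.length_append, tl_length] at this
  constructor
  · intro j hj
    have h1 := h0 (j + 1) hj
    rw [← add_assoc, restr_succ, h0 j hj.le, tl, ← List.append_assoc] at h1
    have h2 := List.append_cancel_left h1
    rw [h0 j hj.le]
    simpa using h2
  · have h1 : restr y (σ.length + k + 1) = σ ++ (tl df σ k ++ [b]) := by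
      have : (σ ++ (tl df σ k ++ [b])).length = σ.length + k + 1 := by
        rw [List.length_append, List.length_append, tl_length]
        simp [add_assoc]
      rw [← this]
      exact h
    rw [restr_succ, h0 k le_rfl, ← List.append_assoc] at h1
    have h2 := List.append_cancel_left h1
    rw [h0 k le_rfl]
    have h3 : y (σ.length + k) = b := by simpa using h2
    rw [h3]
    exact hb

private theorem brn_def (df : List Bool → Bool) (σ : List Bool) (j : ℕ) :
    brn df σ (σ.length + j) = df (restr (brn df σ) (σ.length + j)) := by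
  have h1 := restr_brn df σ (j + 1)
  rw [← add_assoc, restr_succ, restr_brn, tl, ← List.append_assoc] at h1
  have h2 := List.append_cancel_left h1
  rw [restr_brn]
  simpa using h2

private theorem seg_tl {N : List Bool → Prop} {df : List Bool → Bool} {σ w : List Bool} (h : Seg N df σ w) :
    ∃ k b, w = tl df σ k ++ [b] ∧ b ≠ df (σ ++ tl df σ k) ∧ N (σ ++ w) := by
  obtain ⟨v, b, hw, hN, hv, hb⟩ := h
  have h1 : ∀ j ≤ v.length, v.take j = tl df σ j := by
    intro j
    induction j with
    | zero => intro _; rfl
    | succ j ih =>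
      intro hj
      have h2 := ih (by omega)
      rw [List.take_succ_eq_append_getElem (by omega), h2, tl]
      have h3 := hv j (by omega)
      rw [List.getD_eq_getElem _ _ (by omega), h2] at h3
      rw [h3]
  have h2 := h1 v.length le_rfl
  rw [List.take_length] at h2
  refine ⟨v.length, b, ?_, ?_, hN⟩
  · rw [← h2]; exact hw
  · rw [← h2]; exact hb

private theorem tl_seg {N : List Bool → Prop} {df : List Bool → Bool} {σ : List Bool} {k : ℕ} {b : Bool}
    (hN : N (σ ++ (tl df σ k ++ [b]))) (hb : b ≠ df (σ ++ tl df σ k)) : Seg N df σ (tl df σ k ++ [b]) := by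
  refine ⟨tl df σ k, b, rfl, hN, ?_, hb⟩
  intro i hi
  rw [tl_length] at hi
  rw [tl_getD df σ hi, tl_take df σ hi.le]

private theorem nodeOf_append (ρ : ℕ → List Bool) (d e : List ℕ) : nodeOf ρ (d ++ e) = nodeOf ρ d ++ nodeOf ρ e := by
  unfold nodeOf
  rw [List.flatMap_append]

private theorem nodeOf_concat (ρ : ℕ → List Bool) (d : List ℕ) (c : ℕ) : nodeOf ρ (d ++ [c]) = nodeOf ρ d ++ ρ c := by
  rw [nodeOf_append]
  simp [nodeOf]

private theorem nodeOf_prefix (ρ : ℕ → List Bool) {d e : List ℕ} (h : d <+: e) : nodeOf ρ d <+: nodeOf ρ e := by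
  obtain ⟨r, rfl⟩ := h
  rw [nodeOf_append]
  exact ⟨_, rfl⟩

private theorem closed_prefix {α : Type} {N : List α → Prop} (hN : ∀ τ b, N (τ ++ [b]) → N τ) {σ τ : List α}
    (h : σ <+: τ) (hτ : N τ) : N σ := by
  obtain ⟨r, rfl⟩ := h
  induction r using List.reverseRecOn with
  | nil => simpa using hτ
  | append_singleton r b ih =>
    apply ih
    apply hN _ b
    rw [List.append_assoc]
    exact hτ

section
variable {N : List Bool → Prop} {df : List Bool → Bool} {D : List ℕ → Prop} {ρ : ℕ → List Bool}

private theorem node_mem (h : SegSys N df D ρ) {d : List ℕ} (hd : D d) : N (nodeOf ρ d) := by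
  induction d using List.reverseRecOn with
  | nil => exact h.root.1 hd
  | append_singleton d c ih =>
    obtain ⟨k, b, hw, hb, hN⟩ := seg_tl (h.seg d c hd)
    rw [nodeOf_concat]
    exact hN

private theorem dense_pt (hN : ∀ τ b, N (τ ++ [b]) → N τ) (h : SegSys N df D ρ) {τ : List Bool} (hτ : N τ) :
    ∃ d k, D d ∧ nodeOf ρ d ++ tl df (nodeOf ρ d) k = τ := by
  induction τ using List.reverseRecOn with
  | nil => exact ⟨[], 0, h.root.2 hτ, rfl⟩
  | append_singleton τ b ih =>
    obtain ⟨d, k, hd, hk⟩ := ih (hN τ b hτ)
    by_cases hb : b = df τ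
    · refine ⟨d, k + 1, hd, ?_⟩
      rw [tl, ← List.append_assoc, hk, ← hb]
    · have h1 : Seg N df (nodeOf ρ d) (tl df (nodeOf ρ d) k ++ [b]) := by
        apply tl_seg
        · rw [← List.append_assoc, hk]; exact hτ
        · rw [hk]; exact hb
      obtain ⟨c, ⟨hc, hρ⟩, -⟩ := h.ex d hd _ h1
      refine ⟨d ++ [c], 0, hc, ?_⟩
      rw [nodeOf_concat, hρ, tl, List.append_nil, ← List.append_assoc, hk]

private theorem cone_iff (h : SegSys N df D ρ) {t d : List ℕ} (ht : D t) (hd : D d) :
    t <+: d ↔ restr (brn df (nodeOf ρ d)) (nodeOf ρ t).length = nodeOf ρ t := by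
  constructor
  · intro htd
    apply restr_of_prefix (τ := nodeOf ρ d) _ (nodeOf_prefix ρ htd)
    have := restr_brn df (nodeOf ρ d) 0
    simpa [tl] using this
  · intro hr
    induction t using List.reverseRecOn with
    | nil => exact List.nil_prefix
    | append_singleton t c ih =>
      have ht' : D t := h.pre t c ht
      have h1 := ih ht' (restr_of_prefix hr (by rw [nodeOf_concat]; exact ⟨_, rfl⟩))
      obtain ⟨k, b, hw, hb, -⟩ := seg_tl (h.seg t c ht)
      rw [nodeOf_concat, hw] at hr
      obtain ⟨hA, hB⟩ := nd_of_restr hr hb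
      obtain ⟨e, rfl⟩ := h1
      cases e with
      | nil =>
        exfalso
        rw [List.append_nil] at hB
        exact hB (brn_def df _ k)
      | cons c' e =>
        have hp : (t ++ [c']) <+: (t ++ c' :: e) := ⟨e, by simp⟩
        have hD' : D (t ++ [c']) := closed_prefix h.pre hp hd
        obtain ⟨k', b', hw', hb', -⟩ := seg_tl (h.seg t c' hD')
        have hr' : restr (brn df (nodeOf ρ (t ++ c' :: e))) (nodeOf ρ (t ++ [c'])).length = nodeOf ρ (t ++ [c']) := by
          apply restr_of_prefix (τ := nodeOf ρ (t ++ c' :: e)) _ (nodeOf_prefix ρ hp)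
          have := restr_brn df (nodeOf ρ (t ++ c' :: e)) 0
          simpa [tl] using this
        rw [nodeOf_concat, hw'] at hr'
        obtain ⟨hA', hB'⟩ := nd_of_restr hr' hb'
        have hk : k = k' := by
          rcases Nat.lt_trichotomy k k' with hlt | heq | hgt
          · exact absurd (hA' k hlt) hB
          · exact heq
          · exact absurd (hA k' hgt) hB'
        subst hk
        have hlen : (nodeOf ρ t ++ (tl df (nodeOf ρ t) k ++ [b])).length =
            (nodeOf ρ t ++ (tl df (nodeOf ρ t) k ++ [b'])).length := by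
          simp
        have h2 : nodeOf ρ t ++ (tl df (nodeOf ρ t) k ++ [b]) = nodeOf ρ t ++ (tl df (nodeOf ρ t) k ++ [b']) := by
          rw [← hr, ← hr', hlen]
        have h3 := List.append_cancel_left h2
        have h4 : ρ c = ρ c' := by rw [hw, hw', h3]
        obtain ⟨c0, -, hu⟩ := h.ex t ht' (ρ c) (h.seg t c ht)
        have e1 := hu c ⟨ht, rfl⟩
        have e2 := hu c' ⟨hD', h4.symm⟩
        rw [e1, ← e2]
        exact hp

private theorem nonDef_node (hN : ∀ τ b, N (τ ++ [b]) → N τ) (h : SegSys N df D ρ) {y : ℕ → Bool} {m : ℕ}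
    (hy : N (restr y (m + 1))) (hm : y m ≠ df (restr y m)) : ∃ t, D t ∧ restr y (m + 1) = nodeOf ρ t := by
  obtain ⟨t, k, ht, hk⟩ := dense_pt hN h hy
  cases k with
  | zero =>
    refine ⟨t, ht, ?_⟩
    rw [← hk, tl, List.append_nil]
  | succ k =>
    exfalso
    rw [tl, ← List.append_assoc, restr_succ] at hk
    obtain ⟨h1, h2⟩ := List.append_inj' hk rfl
    apply hm
    rw [← h1]
    simpa using h2.symm

end

theorem seg_points {N : List Bool → Prop} {df : List Bool → Bool} {D : List ℕ → Prop} {ρ : ℕ → List Bool}
    (hN : ∀ τ b, N (τ ++ [b]) → N τ) (hdf : ∀ τ, N τ → N (τ ++ [df τ])) (h : SegSys N df D ρ) :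
    ∃ x : {d : List ℕ // D d} → ℕ → Bool, (∀ d n, N (restr (x d) n)) ∧
      (∀ τ, N τ → ∃ d, restr (x d) τ.length = τ) ∧
      (∀ i : ℕ, Det (fun t : List ℕ => {d : {d : List ℕ // D d} | t <+: d.1}) {d | x d i = true}) ∧
      ∀ t : List ℕ, Det (fun i : ℕ => {d : {d : List ℕ // D d} | x d i = true}) {d | t <+: d.1} := by
  have hNx : ∀ (d : {d : List ℕ // D d}) (n : ℕ), N (restr (brn df (nodeOf ρ d.1)) n) := by
    intro d n
    have hk : ∀ k, N (nodeOf ρ d.1 ++ tl df (nodeOf ρ d.1) k) := by
      intro k
      induction k with
      | zero => rw [tl, List.append_nil]; exact node_mem h d.2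
      | succ k ih =>
        rw [tl, ← List.append_assoc]
        exact hdf _ ih
    have h1 : N (restr (brn df (nodeOf ρ d.1)) ((nodeOf ρ d.1).length + n)) := by
      rw [restr_brn]
      exact hk n
    refine closed_prefix hN ?_ h1
    rw [← restr_tk _ (show n ≤ (nodeOf ρ d.1).length + n by omega)]
    exact List.take_prefix _ _
  refine ⟨fun d => brn df (nodeOf ρ d.1), hNx, ?_, ?_, ?_⟩
  · intro τ hτ
    obtain ⟨d, k, hd, hk⟩ := dense_pt hN h hτ
    refine ⟨⟨d, hd⟩, ?_⟩
    have h1 := restr_brn df (nodeOf ρ d) k
    rw [hk] at h1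
    have h2 : τ.length = (nodeOf ρ d).length + k := by
      rw [← hk, List.length_append, tl_length]
    rw [h2]
    exact h1
  · intro i
    have hinj : Set.InjOn (nodeOf ρ) {t | D t ∧ (nodeOf ρ t).length ≤ i + 1} := by
      intro t ht t' ht' he
      have key : ∀ s s' : List ℕ, D s → D s' → nodeOf ρ s = nodeOf ρ s' → s <+: s' := by
        intro s s' hs hs' he
        rw [cone_iff h hs hs', he]
        have := restr_brn df (nodeOf ρ s') 0
        simpa [tl] using this
      have h1 := key t t' ht.1 ht'.1 he
      have h2 := key t' t ht'.1 ht.1 he.symm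
      exact h1.eq_of_length (le_antisymm h1.length_le h2.length_le)
    have hfin : Set.Finite {t | D t ∧ (nodeOf ρ t).length ≤ i + 1} := by
      refine Set.Finite.of_finite_image (f := nodeOf ρ) ?_ hinj
      refine (List.finite_length_le Bool (i + 1)).subset ?_
      rintro _ ⟨t, ht, rfl⟩
      exact ht.2
    refine ⟨hfin.toFinset, ?_⟩
    intro d d' hdd
    have hF : ∀ t, D t → (nodeOf ρ t).length ≤ i + 1 → (t <+: d.1 ↔ t <+: d'.1) := by
      intro t ht hl
      exact hdd t (hfin.mem_toFinset.2 ⟨ht, hl⟩)
    have step : ∀ (e e' : {d : List ℕ // D d}),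
        (∀ t, D t → (nodeOf ρ t).length ≤ i + 1 → (t <+: e.1 → t <+: e'.1)) → ∀ m, m + 1 ≤ i + 1 →
        brn df (nodeOf ρ e.1) m ≠ df (restr (brn df (nodeOf ρ e.1)) m) →
        restr (brn df (nodeOf ρ e'.1)) (m + 1) = restr (brn df (nodeOf ρ e.1)) (m + 1) := by
      intro e e' hee m hm hnd
      obtain ⟨t, ht, hte⟩ := nonDef_node hN h (hNx e (m + 1)) hnd
      have hlen : (nodeOf ρ t).length = m + 1 := by rw [← hte, restr_length]
      have h1 : t <+: e.1 := by
        rw [cone_iff h ht e.2, hlen]
        exact hte
      have h2 := hee t ht (by omega) h1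
      rw [cone_iff h ht e'.2, hlen] at h2
      rw [h2, hte]
    have main : ∀ m ≤ i + 1, restr (brn df (nodeOf ρ d.1)) m = restr (brn df (nodeOf ρ d'.1)) m := by
      intro m
      induction m with
      | zero => intro _; rfl
      | succ m ih =>
        intro hm
        have ih' := ih (by omega)
        by_cases h1 : brn df (nodeOf ρ d.1) m = df (restr (brn df (nodeOf ρ d.1)) m)
        · by_cases h2 : brn df (nodeOf ρ d'.1) m = df (restr (brn df (nodeOf ρ d'.1)) m)
          · rw [restr_succ, restr_succ, h1, h2, ih']
          · exact step d' d (fun t ht hl htd => (hF t ht hl).2 htd) m hm h2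
        · exact (step d d' (fun t ht hl htd => (hF t ht hl).1 htd) m hm h1).symm
    have h3 := restr_eq_iff.1 (main (i + 1) le_rfl) i (by omega)
    show (brn df (nodeOf ρ d.1) i = true) ↔ (brn df (nodeOf ρ d'.1) i = true)
    rw [h3]
  · intro t
    by_cases ht : D t
    · refine ⟨Finset.range (nodeOf ρ t).length, ?_⟩
      intro d d' hdd
      have h1 : restr (brn df (nodeOf ρ d.1)) (nodeOf ρ t).length = restr (brn df (nodeOf ρ d'.1)) (nodeOf ρ t).length := by
        rw [restr_eq_iff]
        intro i hi
        have h2 := hdd i (Finset.mem_range.2 hi)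
        have h3 : (brn df (nodeOf ρ d.1) i = true) ↔ (brn df (nodeOf ρ d'.1) i = true) := h2
        exact Bool.eq_iff_iff.2 h3
      show t <+: d.1 ↔ t <+: d'.1
      rw [cone_iff h ht d.2, cone_iff h ht d'.2, h1]
    · have : {d : {d : List ℕ // D d} | t <+: d.1} = ∅ := by
        ext d
        simp only [Set.mem_setOf_eq, Set.mem_empty_iff_false, iff_false]
        intro htd
        exact ht (closed_prefix h.pre htd d.2)
      rw [this]
      exact Det.empty _

end CB
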