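import Pool.Agent.Work.MP_cb528c_lc.BaTree
import Pool.Agent.Work.MP_cb528c_lc.SegPts
import Pool.Agent.Work.MP_cb528c_lc.SegCert

set_option autoImplicit false
set_option linter.all false

/-!
# MP_cb528c_lc, module NfTree: every Pi_4 algebra is the algebra of cones of a prefix closed Pi_3 set of finite sequences

`ba_tree`, `exists_segSys`, `seg_points` and `fb_congr`.
-/

namespace CB

theorem nf_tree {B : Type} [BooleanAlgebra B] {ν : ℕ → B} (h : IsPiAlg 4 ν) :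
    ∃ D : List ℕ → Prop, Pg 3 D ∧ (∀ d c, D (d ++ [c]) → D d) ∧ Nonempty (B ≃o CA D) := by
  obtain ⟨N, h4, hN, hd, hmain⟩ := ba_tree h
  obtain ⟨df, D, ρ, hD, hdf, hs⟩ := exists_segSys h4 hN hd
  obtain ⟨x, hx1, hx2, hx3, hx4⟩ := seg_points hN hdf hs
  obtain ⟨e⟩ := hmain _ x hx1 hx2
  obtain ⟨e'⟩ := fb_congr hx3 hx4
  exact ⟨D, hD, hs.pre, ⟨e.trans e'⟩⟩

end CB
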