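import Pool.Agent.Work.MP_cb528c_lc.GoodDefs

set_option autoImplicit false
set_option linter.all false

/-!
# MP_cb528c_lc: counter machines with choices and their undo machines (definitions)

* `NM`: a machine `K` with states `Fin q`, registers `Fin B`; in state `s` it tests register `reg s` (flag `z = true` iff nonzero),
  with the choice bit `b` it goes to `nx s z b` (if defined) and changes only the register `reg s`, by `op s z`.
* The undo machine: deterministic; its registers are those of `K`, the log `L` and a temporary counter `T`; a step of `K`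
  with label `lab s z b ∈ {1, .., 4 q}` multiplies the log by `4 q + 1` and adds the label; the undo machine divides the log by
  `4 q + 1`, moves the quotient back from `T` to `L`, reads the label (the remainder) and undoes the step of `K`.
-/

namespace CB

structure NM where
  q : ℕ
  B : ℕ
  reg : Fin q → Fin B
  nx : Fin q → Bool → Bool → Option (Fin q)
  op : Fin q → Bool → Mv
  ok : ∀ s, op s false ≠ Mv.down

namespace NM

variable (K : NM)

abbrev Cfg : Type := Fin K.q × (Fin K.B → ℕ)

/-- the flag: is the tested register nonzero -/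
def flag (c : K.Cfg) : Bool := decide (c.2 (K.reg c.1) ≠ 0)

/-- one step with choice `b` -/
def kstep (b : Bool) (c : K.Cfg) : Option K.Cfg :=
  (K.nx c.1 (K.flag c) b).map (fun s =>
    (s, Function.update c.2 (K.reg c.1) ((K.op c.1 (K.flag c)).app (c.2 (K.reg c.1)))))

/-- the label of a step -/
def lab (s : Fin K.q) (z b : Bool) : ℕ := 4 * s + 2 * z.toNat + b.toNat + 1

/-- the new log -/
def nl (c : K.Cfg) (b : Bool) (L : ℕ) : ℕ := (4 * K.q + 1) * L + K.lab c.1 (K.flag c) b

/-- the time needed by the undo machine -/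
def len (c : K.Cfg) (b : Bool) (L : ℕ) : ℕ := K.nl c b L + L + 4

end NM

/-- deterministic vector counter machines with an arbitrary finite set of states -/
structure GM where
  Q : Type
  fin : Fintype Q
  k : ℕ
  δ : Q → (Fin k → Bool) → Q × (Fin k → Mv)
  ok : ∀ s z i, z i = false → (δ s z).2 i ≠ Mv.down

namespace GM

abbrev Cfg (G : GM) : Type := G.Q × (Fin G.k → ℕ)

def step (G : GM) (c : G.Cfg) : G.Cfg :=
  ((G.δ c.1 (fun i => decide (c.2 i ≠ 0))).1, fun i => ((G.δ c.1 (fun i => decide (c.2 i ≠ 0))).2 i).app (c.2 i))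

/-- the numbering of the states -/
noncomputable def num (G : GM) : G.Q ≃ Fin (@Fintype.card G.Q G.fin) := @Fintype.equivFin G.Q G.fin

/-- the machine with states `Fin q` -/
noncomputable def toMach (G : GM) : Mach where
  q := @Fintype.card G.Q G.fin
  k := G.k
  δ s z := (G.num (G.δ (G.num.symm s) z).1, (G.δ (G.num.symm s) z).2)
  ok s z i h := G.ok _ z i h

noncomputable def tr (G : GM) (c : G.Cfg) : G.toMach.Cfg := (G.num c.1, c.2)

theorem tr_step (G : GM) (c : G.Cfg) : G.toMach.step (G.tr c) = G.tr (G.step c) := by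
  unfold Mach.step tr toMach step
  simp

theorem tr_bij (G : GM) : Function.Bijective G.tr := by
  constructor
  · rintro ⟨a, b⟩ ⟨a', b'⟩ h
    unfold tr at h
    simp only [Prod.mk.injEq, EmbeddingLike.apply_eq_iff_eq] at h
    exact Prod.ext (G.num.injective h.1) h.2
  · rintro ⟨a, b⟩
    exact ⟨(G.num.symm a, b), by unfold tr; simp⟩

end GM

namespace NM

variable (K : NM)

/-- states of the undo machine: `some (0, s, i)`: dividing; `some (1, s, i)`: moving back; `some (2, s, i)`: undoing;
`some (3, s, i)`: checking; `none`: dead -/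
abbrev US : Type := Option (Fin 4 × Fin K.q × Fin (4 * K.q + 1))

/-- index of a register of `K` -/
def ri (i : Fin K.B) : Fin (K.B + 2) := Fin.castAdd 2 i
/-- index of the log -/
def Lx : Fin (K.B + 2) := Fin.natAdd K.B 0
/-- index of the temporary counter -/
def Tx : Fin (K.B + 2) := Fin.natAdd K.B 1

/-- source state of a label -/
def src (i : Fin (4 * K.q + 1)) (h : i.1 ≠ 0) : Fin K.q := ⟨(i.1 - 1) / 4, by have := i.2; omega⟩

/-- flag of a label -/
def lfl (i : Fin (4 * K.q + 1)) : Bool := decide ((i.1 - 1) / 2 % 2 = 1)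

/-- choice bit of a label -/
def lbt (i : Fin (4 * K.q + 1)) : Bool := decide ((i.1 - 1) % 2 = 1)

theorem Lx_ne_Tx : K.Lx ≠ K.Tx := by
  unfold Lx Tx
  intro h
  have := congrArg Fin.val h
  simp at this

/-- move `m` at counter `i`, no change at the others -/
def mv1 (i : Fin (K.B + 2)) (m : Mv) : Fin (K.B + 2) → Mv := fun j => if j = i then m else Mv.stay

/-- dividing the log -/
def uD (s : Fin K.q) (i : Fin (4 * K.q + 1)) (z : Fin (K.B + 2) → Bool) : K.US × (Fin (K.B + 2) → Mv) :=
  if z K.Lx = false then (some (1, s, i), fun _ => Mv.stay)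
  else if h : i.1 + 1 < 4 * K.q + 1 then (some (0, s, ⟨i.1 + 1, h⟩), K.mv1 K.Lx Mv.down)
  else (some (0, s, 0), fun j => if j = K.Lx then Mv.down else if j = K.Tx then Mv.up else Mv.stay)

/-- moving the quotient back -/
def uR (s : Fin K.q) (i : Fin (4 * K.q + 1)) (z : Fin (K.B + 2) → Bool) : K.US × (Fin (K.B + 2) → Mv) :=
  if z K.Tx = false then (some (2, s, i), fun _ => Mv.stay)
  else (some (1, s, i), fun j => if j = K.Tx then Mv.down else if j = K.Lx then Mv.up else Mv.stay)

/-- undoing the operation `m` at the register of the source state `s0` -/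
def uO (s0 : Fin K.q) (i : Fin (4 * K.q + 1)) (m : Mv) (z : Fin (K.B + 2) → Bool) : K.US × (Fin (K.B + 2) → Mv) :=
  match m with
  | Mv.stay => (some (3, s0, i), fun _ => Mv.stay)
  | Mv.down => (some (3, s0, i), K.mv1 (K.ri (K.reg s0)) Mv.up)
  | Mv.up => if z (K.ri (K.reg s0)) = false then (none, fun _ => Mv.stay)
      else (some (3, s0, i), K.mv1 (K.ri (K.reg s0)) Mv.down)

/-- undoing the step with label `i` leading to the state `s` -/
def uU (s : Fin K.q) (i : Fin (4 * K.q + 1)) (z : Fin (K.B + 2) → Bool) : K.US × (Fin (K.B + 2) → Mv) :=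
  if h : i.1 ≠ 0 then
    if K.nx (K.src i h) (K.lfl i) (K.lbt i) = some s then K.uO (K.src i h) i (K.op (K.src i h) (K.lfl i)) z
    else (none, fun _ => Mv.stay)
  else (none, fun _ => Mv.stay)

/-- checking the flag -/
def uW (s : Fin K.q) (i : Fin (4 * K.q + 1)) (z : Fin (K.B + 2) → Bool) : K.US × (Fin (K.B + 2) → Mv) :=
  if h : i.1 ≠ 0 then
    if K.src i h = s ∧ z (K.ri (K.reg s)) = K.lfl i ∧ z K.Tx = false then (some (0, s, 0), fun _ => Mv.stay)
    else (none, fun _ => Mv.stay)
  else (none, fun _ => Mv.stay)

/-- the transition function of the undo machine -/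
def uδ (s : K.US) (z : Fin (K.B + 2) → Bool) : K.US × (Fin (K.B + 2) → Mv) :=
  match s with
  | none => (none, fun _ => Mv.stay)
  | some (p, s, i) => if p = 0 then K.uD s i z else if p = 1 then K.uR s i z else if p = 2 then K.uU s i z
      else K.uW s i z

theorem uD_ok (s : Fin K.q) (j : Fin (4 * K.q + 1)) (z : Fin (K.B + 2) → Bool) (i : Fin (K.B + 2)) (hz : z i = false) :
    (K.uD s j z).2 i ≠ Mv.down := by
  unfold uD
  split_ifs with h1 h2
  · simp
  · simp only [mv1]; split_ifs with h3
    · subst h3; exact absurd hz h1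
    · simp
  · simp only; split_ifs with h3 h4
    · subst h3; exact absurd hz h1
    · simp
    · simp

theorem uR_ok (s : Fin K.q) (j : Fin (4 * K.q + 1)) (z : Fin (K.B + 2) → Bool) (i : Fin (K.B + 2)) (hz : z i = false) :
    (K.uR s j z).2 i ≠ Mv.down := by
  unfold uR
  split_ifs with h1
  · simp
  · simp only; split_ifs with h3 h4
    · subst h3; exact absurd hz h1
    · simp
    · simp

theorem uO_ok (s : Fin K.q) (j : Fin (4 * K.q + 1)) (m : Mv) (z : Fin (K.B + 2) → Bool) (i : Fin (K.B + 2))
    (hz : z i = false) : (K.uO s j m z).2 i ≠ Mv.down := by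
  unfold uO
  cases m with
  | stay => simp
  | down => simp only [mv1]; split_ifs <;> simp
  | up =>
    simp only
    split_ifs with h5
    · simp
    · simp only [mv1]; split_ifs with h3
      · subst h3; exact absurd hz h5
      · simp

theorem uδ_ok (s : K.US) (z : Fin (K.B + 2) → Bool) (i : Fin (K.B + 2)) (hz : z i = false) :
    (K.uδ s z).2 i ≠ Mv.down := by
  unfold uδ
  match s with
  | none => simp
  | some (p, s, j) =>
    simp only
    split_ifs with h0 h1 h2
    · exact K.uD_ok s j z i hz
    · exact K.uR_ok s j z i hz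
    · unfold uU
      split_ifs
      · exact K.uO_ok _ _ _ z i hz
      · simp
      · simp
    · unfold uW
      split_ifs <;> simp

/-- the undo machine -/
def undo : GM where
  Q := K.US
  fin := inferInstance
  k := K.B + 2
  δ := K.uδ
  ok := K.uδ_ok

/-- the configuration of the undo machine for the configuration `c` of `K` with log `L` -/
def uemb (c : K.Cfg) (L : ℕ) : K.undo.Cfg := (some (0, c.1, 0), Fin.append c.2 ![L, 0])

end NM

end CB
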