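import Pool.Agent.Work.MP_cb528c_lc.BaDefs
import Pool.Agent.Work.MP_cb528c_lc.Ef

set_option autoImplicit false
set_option linter.all false

/-!
# MP_cb528c_lc: the points of the Lindenbaum algebra (definitions)
-/

namespace CB

/-- `T` is finitely axiomatizable among the theories of structures of arities `ar` -/
def FAx (ar : List ℕ) (T : Set Fm) : Prop := ∃ φ ∈ T, ∀ N : Mdl, N.Ok ar → φ ∈ Th N → Th N = T

/-- decidable, not finitely axiomatizable complete theories containing `F` -/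
def Pt (ar : List ℕ) (F : Fm) : Set (Set Fm) :=
  {T | (∃ M : Mdl, M.Ok ar ∧ T = Th M) ∧ F ∈ T ∧ ComputablePred (fun φ : Fm => φ ∈ T) ∧ ¬ FAx ar T}

/-- the algebra of the sets of points defined by formulas -/
def LA (ar : List ℕ) (F : Fm) : BooleanSubalgebra (Set (Pt ar F)) :=
  FB (fun φ : Fm => {T : Pt ar F | φ ∈ T.1})

/-- a Hanf pair for `P`: a sentence `b` and a computable sequence `θ` of sentences such that the models of `b` are classified
up to elementary equivalence by the points of `P` -/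
structure HanfP (ar : List ℕ) (F : Fm) (P : Set (ℕ → Bool)) (b : Fm) (θ : ℕ → Fm) : Prop where
  b_closed : b.Closed
  comp : Computable θ
  closed : ∀ n, (θ n).Closed
  pt : ∀ M : Mdl, M.Ok ar → b ∈ Th M → F ∈ Th M ∧ ∃ y ∈ P, ∀ n, (θ n ∈ Th M ↔ y n = true)
  real : ∀ y ∈ P, ∃ M : Mdl, M.Ok ar ∧ b ∈ Th M ∧ ∀ n, (θ n ∈ Th M ↔ y n = true)
  ef : ∀ n, ∃ R, ∀ M N : Mdl, M.Ok ar → N.Ok ar → b ∈ Th M → b ∈ Th N →
    (∀ i < R, (θ i ∈ Th M ↔ θ i ∈ Th N)) → EF M N n ∅

def Hanf (ar : List ℕ) (F : Fm) (P : Set (ℕ → Bool)) : Prop := ∃ b θ, HanfP ar F P b θ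

/-- the sentence `b` and the first `n` of the `θ`, with signs `y` -/
def sgn (θ : ℕ → Fm) (b : Fm) (y : ℕ → Bool) : ℕ → Fm
  | 0 => b
  | n + 1 => Fm.and (if y n then θ n else Fm.neg (θ n)) (sgn θ b y n)

/-- the set of formulas accepted by the code `e` -/
def TC (e : Nat.Partrec.Code) : Set Fm := {φ | ∃ k, Nat.Partrec.Code.evaln k e (Encodable.encode φ) = some 1}

/-- `e` decides a set of formulas -/
def TotC (e : Nat.Partrec.Code) : Prop := ∀ φ : Fm, ∃ k, Nat.Partrec.Code.evaln k e (Encodable.encode φ) = some 1 ∨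
  Nat.Partrec.Code.evaln k e (Encodable.encode φ) = some 0

end CB
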