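import Pool.Agent.Work.MP_cb528c_lc.BaDefs

set_option autoImplicit false
set_option linter.all false

/-!
# MP_cb528c_lc: decomposition of branches of a tree into segments (definitions)

`N`: a tree of finite 0-1 sequences without dead ends, `df τ`: the default child of the node `τ`.
-/

namespace CB

/-- `w` leads from `τ` by default steps and a last non default step to a node of the tree -/
def Seg (N : List Bool → Prop) (df : List Bool → Bool) (τ w : List Bool) : Prop :=
  ∃ v b, w = v ++ [b] ∧ N (τ ++ w) ∧ (∀ i < v.length, v.getD i false = df (τ ++ v.take i)) ∧ b ≠ df (τ ++ v)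

/-- the node reached by a sequence of (codes of) segments -/
def nodeOf (ρ : ℕ → List Bool) (d : List ℕ) : List Bool := d.flatMap ρ

/-- `D` consists of the sequences of codes of segments, every segment having exactly one code -/
structure SegSys (N : List Bool → Prop) (df : List Bool → Bool) (D : List ℕ → Prop) (ρ : ℕ → List Bool) : Prop where
  root : D [] ↔ N []
  pre : ∀ d c, D (d ++ [c]) → D d
  seg : ∀ d c, D (d ++ [c]) → Seg N df (nodeOf ρ d) (ρ c)
  ex : ∀ d, D d → ∀ w, Seg N df (nodeOf ρ d) w → ∃! c, D (d ++ [c]) ∧ ρ c = w

end CB
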