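import Pool.Agent.Work.MP_cb528c_lc.InstF
import Pool.Agent.Work.MP_cb528c_lc.HdOf

set_option autoImplicit false
set_option linter.all false

/-!
# MP_cb528c_lc, module SigL: the sentence saying that the finite table `l` of truth values is part of a Henkin diagram

`sigL l := exC (l.length + 1) (conj of: for j < l.length, with insDec j = (ψ, e): instF ψ e if l[j] is true, else its negation;
and for all k ≤ l.length of the form k = wit i ψ e: imp (instF (ex i ψ) e) (instF ψ (upd e i k)))`.
(For `k = 0` no condition; for `k = k' + 1`: `k' = encode (i, ψ, e)` always holds for exactly one triple: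
`i = k'.unpair.1`, `(ψ, e) = insDec k'.unpair.2`.)
All constants occurring are `≤ l.length` (`asg_le_encode`, `encode (ψ, e) = Nat.pair ..`, `asg_lt_wit`).
Define `sigL` any way you like (keep the three properties).
-/

namespace CB

private def conjL (L : List Fm) : Fm := L.foldr Fm.and Fm.tru

private def condJ (l : List Bool) (j : ℕ) : Fm :=
  bif l.getD j false then instF (insDec j).1 (insDec j).2
  else Fm.neg (instF (insDec j).1 (insDec j).2)

private def condK (k : ℕ) : Fm :=
  bif (k == 0) then Fm.tru else
    Fm.imp (instF (Fm.ex k.pred.unpair.1 (insDec k.pred.unpair.2).1) (insDec k.pred.unpair.2).2)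
      (instF (insDec k.pred.unpair.2).1 (upd (insDec k.pred.unpair.2).2 k.pred.unpair.1 k))

private def body (l : List Bool) : Fm :=
  Fm.and (conjL ((List.range l.length).map (condJ l)))
    (conjL ((List.range (l.length + 1)).map condK))

private theorem sat_conjL {M : Mdl} (s : ℕ → M.C) (L : List Fm) :
    Sat M s (conjL L) ↔ ∀ φ ∈ L, Sat M s φ := by
  induction L with
  | nil => simp [conjL, sat_tru]
  | cons a L ih =>
    have : conjL (a :: L) = Fm.and a (conjL L) := rfl
    rw [this, sat_and, ih]
    simp

private theorem fv_conjL (L : List Fm) (j : ℕ) (h : j ∈ (conjL L).fv) : ∃ φ ∈ L, j ∈ φ.fv := by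
  induction L with
  | nil => simp [conjL, Fm.tru, Fm.fv] at h
  | cons a L ih =>
    have h1 : conjL (a :: L) = Fm.and a (conjL L) := rfl
    rw [h1] at h
    simp only [Fm.fv, List.mem_append] at h
    rcases h with h | h
    · exact ⟨a, by simp, h⟩
    · obtain ⟨φ, h2, h3⟩ := ih h
      exact ⟨φ, by simp [h2], h3⟩

private theorem primrec_conjL : Primrec conjL := by
  unfold conjL
  exact Primrec.list_foldr Primrec.id (Primrec.const _)
    (Fm.primrec_and.comp (Primrec.fst.comp Primrec.snd) (Primrec.snd.comp Primrec.snd)).to₂

private theorem primrec_insDec : Primrec insDec := by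
  unfold insDec
  exact Primrec.pair (Fm.primrec_dec.comp (Primrec.fst.comp Primrec.unpair))
    ((Primrec.ofNat (List ℕ)).comp (Primrec.snd.comp Primrec.unpair))

private theorem primrec_condJ : Primrec₂ condJ := by
  unfold condJ
  have h1 : Primrec (fun x : List Bool × ℕ => insDec x.2) := primrec_insDec.comp Primrec.snd
  have h2 : Primrec (fun x : List Bool × ℕ => instF (insDec x.2).1 (insDec x.2).2) :=
    primrec_instF.comp (Primrec.fst.comp h1) (Primrec.snd.comp h1)
  exact (Primrec.cond ((Primrec.list_getD false).comp Primrec.fst Primrec.snd) h2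
    (Fm.primrec_neg.comp h2)).to₂

private theorem primrec_condK : Primrec condK := by
  unfold condK
  have h1 : Primrec (fun k : ℕ => k.pred.unpair) := Primrec.unpair.comp Primrec.pred
  have hi : Primrec (fun k : ℕ => k.pred.unpair.1) := Primrec.fst.comp h1
  have hp : Primrec (fun k : ℕ => insDec k.pred.unpair.2) :=
    primrec_insDec.comp (Primrec.snd.comp h1)
  have hψ : Primrec (fun k : ℕ => (insDec k.pred.unpair.2).1) := Primrec.fst.comp hp
  have he : Primrec (fun k : ℕ => (insDec k.pred.unpair.2).2) := Primrec.snd.comp hp
  have hu : Primrec (fun k : ℕ => upd (insDec k.pred.unpair.2).2 k.pred.unpair.1 k) :=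
    primrec_upd.comp (Primrec.pair he (Primrec.pair hi Primrec.id))
  exact Primrec.cond (Primrec.beq.comp Primrec.id (Primrec.const 0)) (Primrec.const _)
    (Fm.primrec_imp.comp (primrec_instF.comp (Fm.primrec_ex.comp hi hψ) he)
      (primrec_instF.comp hψ hu))

private theorem primrec_body : Primrec body := by
  unfold body
  refine Fm.primrec_and.comp (primrec_conjL.comp ?_) (primrec_conjL.comp ?_)
  · exact Primrec.list_map (Primrec.list_range.comp Primrec.list_length) primrec_condJ
  · exact Primrec.list_map (Primrec.list_range.comp (Primrec.succ.comp Primrec.list_length))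
      (primrec_condK.comp Primrec.snd).to₂

private theorem asg_insDec_lt (j i : ℕ) : asg (insDec j).2 i ≤ j := by
  have h1 := asg_le_encode (insDec j).2 i
  have h2 : Encodable.encode (insDec j) =
      Nat.pair (Encodable.encode (insDec j).1) (Encodable.encode (insDec j).2) := rfl
  rw [encode_insDec] at h2
  have h3 := Nat.right_le_pair (Encodable.encode (insDec j).1) (Encodable.encode (insDec j).2)
  omega

private theorem wit_dec (k : ℕ) (hk : k ≠ 0) :
    wit k.pred.unpair.1 (insDec k.pred.unpair.2).1 (insDec k.pred.unpair.2).2 = k := by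
  unfold wit
  have h2 : Encodable.encode (k.pred.unpair.1, (insDec k.pred.unpair.2).1,
      (insDec k.pred.unpair.2).2) =
      Nat.pair k.pred.unpair.1 (Encodable.encode (insDec k.pred.unpair.2)) := rfl
  rw [h2, encode_insDec, Nat.pair_unpair]
  exact Nat.succ_pred hk

private theorem dec_wit (i : ℕ) (ψ : Fm) (e : List ℕ) :
    (wit i ψ e).pred.unpair.1 = i ∧ insDec (wit i ψ e).pred.unpair.2 = (ψ, e) := by
  unfold wit
  have h2 : Encodable.encode (i, ψ, e) = Nat.pair i (Encodable.encode (ψ, e)) := rfl
  rw [Nat.pred_succ, h2, Nat.unpair_pair]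
  exact ⟨rfl, insDec_encode ψ e⟩

private theorem asg_upd_le (e : List ℕ) (i k j : ℕ) (h : ∀ j, asg e j < k) :
    asg (upd e i k) j ≤ k := by
  rw [asg_upd]
  by_cases hj : j = i
  · subst hj; rw [Function.update_self]
  · rw [Function.update_of_ne hj]; exact (h j).le

private theorem fv_body (l : List Bool) (j : ℕ) (h : j ∈ (body l).fv) :
    j % 2 = 1 ∧ j / 2 < l.length + 1 := by
  have key : ∀ (ψ : Fm) (e : List ℕ), (∀ i, asg e i < l.length + 1) → j ∈ (instF ψ e).fv →
      j % 2 = 1 ∧ j / 2 < l.length + 1 := by
    intro ψ e he hj
    obtain ⟨i, -, rfl⟩ := fv_instF ψ e j hj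
    have := he i
    omega
  unfold body at h
  simp only [Fm.fv, List.mem_append] at h
  rcases h with h | h
  · obtain ⟨φ, h1, h2⟩ := fv_conjL _ _ h
    rw [List.mem_map] at h1
    obtain ⟨t, ht, rfl⟩ := h1
    rw [List.mem_range] at ht
    have h3 : j ∈ (instF (insDec t).1 (insDec t).2).fv := by
      unfold condJ at h2
      cases hb : l.getD t false
      · rw [hb] at h2; exact h2
      · rw [hb] at h2; exact h2
    refine key _ _ (fun i => ?_) h3
    have := asg_insDec_lt t i
    omega
  · obtain ⟨φ, h1, h2⟩ := fv_conjL _ _ h
    rw [List.mem_map] at h1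
    obtain ⟨k, hk, rfl⟩ := h1
    rw [List.mem_range] at hk
    unfold condK at h2
    by_cases hk0 : k = 0
    · subst hk0
      simp [Fm.tru, Fm.fv] at h2
    · have hb : (k == 0) = false := by simpa using hk0
      rw [hb, cond_false] at h2
      simp only [Fm.imp, Fm.fv, List.mem_append] at h2
      have hw : ∀ i, asg (insDec k.pred.unpair.2).2 i < k := fun i => by
        have := asg_lt_wit k.pred.unpair.1 (insDec k.pred.unpair.2).1
          (insDec k.pred.unpair.2).2 i
        rwa [wit_dec k hk0] at this
      rcases h2 with h2 | h2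
      · refine key _ _ (fun i => ?_) h2
        have := hw i
        omega
      · refine key _ _ (fun i => ?_) h2
        have := asg_upd_le (insDec k.pred.unpair.2).2 k.pred.unpair.1 k i hw
        omega

theorem exists_sigL : ∃ sigL : List Bool → Fm, Primrec sigL ∧ (∀ l, (sigL l).Closed) ∧
    ∀ (M : Mdl) (l : List Bool), sigL l ∈ Th M ↔ ∃ m : ℕ → M.C, WC M m (l.length + 1) ∧
      ∀ j < l.length, (l.getD j false = true ↔ Sat M (fun i => m (asg (insDec j).2 i)) (insDec j).1) := by
  have hcl : ∀ l : List Bool, (exC (l.length + 1) (body l)).Closed := by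
    intro l
    unfold Fm.Closed
    rw [List.eq_nil_iff_forall_not_mem]
    intro j hj
    obtain ⟨h1, h2⟩ := fv_exC _ _ j hj
    exact h2 (fv_body l j h1)
  refine ⟨fun l => exC (l.length + 1) (body l), ?_, hcl, ?_⟩
  · exact primrec_exC.comp (Primrec.succ.comp Primrec.list_length) primrec_body
  · intro M l
    obtain ⟨a0⟩ := M.ne
    rw [mem_th_iff (hcl l) (fun _ => a0), sat_exC]
    refine exists_congr fun m => ?_
    set K := l.length + 1 with hK
    set s : ℕ → M.C := fun j => if j % 2 = 1 ∧ j / 2 < K then m (j / 2) else a0 with hs
    have hsm : ∀ c, c < K → s (2 * c + 1) = m c := by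
      intro c hc
      have h1 : (2 * c + 1) % 2 = 1 := by omega
      have h2 : (2 * c + 1) / 2 = c := by omega
      simp only [hs, h1, h2, hc, and_self, if_true]
    have hin : ∀ (ψ : Fm) (e : List ℕ), (∀ i, asg e i < K) →
        (Sat M s (instF ψ e) ↔ Sat M (fun i => m (asg e i)) ψ) := by
      intro ψ e he
      rw [sat_instF]
      have : (fun i => s (2 * asg e i + 1)) = fun i => m (asg e i) := funext fun i => hsm _ (he i)
      rw [this]
    unfold body
    rw [sat_and, sat_conjL, sat_conjL, and_comm]
    refine and_congr ?_ ?_
    · constructor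
      · intro h i ψ e hw hex
        have h1 := h (condK (wit i ψ e)) (List.mem_map.2 ⟨_, List.mem_range.2 hw, rfl⟩)
        obtain ⟨d1, d2⟩ := dec_wit i ψ e
        have hb : (wit i ψ e == 0) = false := by
          have : wit i ψ e ≠ 0 := by unfold wit; omega
          simpa using this
        unfold condK at h1
        rw [hb, cond_false, sat_imp, d1, d2] at h1
        have hlt : ∀ j, asg e j < K := fun j => (asg_lt_wit i ψ e j).trans hw
        rw [hin _ _ hlt, hin _ _ (fun j => (asg_upd_le e i _ j (asg_lt_wit i ψ e)).trans_lt hw)]
          at h1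
        exact h1 hex
      · intro h φ hφ
        obtain ⟨k, hk, rfl⟩ := List.mem_map.1 hφ
        rw [List.mem_range] at hk
        unfold condK
        by_cases hk0 : k = 0
        · subst hk0
          simp [sat_tru]
        · have hb : (k == 0) = false := by simpa using hk0
          rw [hb, cond_false, sat_imp]
          have hwd := wit_dec k hk0
          have hlt : ∀ j, asg (insDec k.pred.unpair.2).2 j < k := fun j => by
            have := asg_lt_wit k.pred.unpair.1 (insDec k.pred.unpair.2).1
              (insDec k.pred.unpair.2).2 j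
            rwa [hwd] at this
          rw [hin _ _ (fun j => (hlt j).trans hk),
            hin _ _ (fun j => (asg_upd_le _ _ _ j hlt).trans_lt hk)]
          intro hex
          have := h k.pred.unpair.1 (insDec k.pred.unpair.2).1 (insDec k.pred.unpair.2).2
            (by rw [hwd]; exact hk) hex
          rwa [hwd] at this
    · constructor
      · intro h j hj
        have h1 := h (condJ l j) (List.mem_map.2 ⟨j, List.mem_range.2 hj, rfl⟩)
        have hlt : ∀ i, asg (insDec j).2 i < K := fun i => by
          have := asg_insDec_lt j i
          omega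
        unfold condJ at h1
        cases hb : l.getD j false
        · rw [hb, cond_false, sat_neg, hin _ _ hlt] at h1
          simpa using h1
        · rw [hb, cond_true, hin _ _ hlt] at h1
          simpa using h1
      · intro h φ hφ
        obtain ⟨j, hj, rfl⟩ := List.mem_map.1 hφ
        rw [List.mem_range] at hj
        have hlt : ∀ i, asg (insDec j).2 i < K := fun i => by
          have := asg_insDec_lt j i
          omega
        have h1 := h j hj
        unfold condJ
        cases hb : l.getD j false
        · rw [hb] at h1
          rw [cond_false, sat_neg, hin _ _ hlt]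
          simpa using h1
        · rw [hb] at h1
          rw [cond_true, hin _ _ hlt]
          simpa using h1

end CB
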