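import Pool.Agent.Work.MP_cb528c_lc.StrTh
import Pool.Agent.Work.MP_cb528c_lc.HdEff
import Pool.Agent.Work.MP_cb528c_lc.HdMdl

set_option autoImplicit false
set_option linter.all false

/-!
# MP_cb528c_lc, module StrDec: strongly constructivizable structures and decidable theories

* `dec_of_strongC`: for closed `ψ`: `ψ ∈ Th A.toMdl` iff the pair `(T2 ψ, [])` belongs to the diagram.
* `strongC_of_dec`: `hd_eff` gives a computable Henkin diagram `H` with `ins H φ [] = true ↔ φ ∈ Th M` for closed `φ`, `mdl_of_hd` the structure
  `M'` with surjective `m : ℕ → M'.C`, `m k = m l ↔ eqc H k l`, `Sat M' (fun i => m (asg e i)) ψ ↔ ins H ψ e = true`; so `Th M' = Th M`, hence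
  `IsFun σ M'` (`isFun_fo`), and `exists_str`: `A` with `A.toMdl` isomorphic to `M'` by `e`.  `ι a := ` the least `k` with `m k = e a`.
  `Diag A ι (n, l)` iff `n` is the code of a formula with free variables `< l.length` (`computable_fvlt`), every entry `k` of `l` is a
  least name (`∀ j < k, ¬ eqc H j k`, a bounded search with the computable `H`), and `ins H (T n) (the environment with value l_i at
  2 i) = true`, `T` from `exists_tr`.  (Environment: the list of length `2 * l.length` with entries `l.getD (j / 2) 0`.)
-/

namespace CB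

variable {σ : Sig}

private theorem sat_iso' {M N : Mdl} (e : M.C ≃ N.C) (he : ∀ r l, M.R r l ↔ N.R r (l.map e)) (φ : Fm) :
    ∀ s : ℕ → M.C, Sat M s φ ↔ Sat N (fun i => e (s i)) φ := by
  induction φ with
  | rel r v =>
    intro s
    rw [sat_rel, sat_rel, he, List.map_map]
    rfl
  | eq i j =>
    intro s
    rw [sat_eq, sat_eq, e.injective.eq_iff]
  | neg φ ih =>
    intro s
    rw [sat_neg, sat_neg, ih]
  | and φ ψ ih1 ih2 =>
    intro s
    rw [sat_and, sat_and, ih1, ih2]
  | ex i φ ih =>
    intro s
    rw [sat_ex, sat_ex, ← e.exists_congr_right]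
    refine exists_congr fun a => ?_
    rw [ih]
    refine iff_of_eq (congrArg (fun t => Sat N t φ) (funext fun j => ?_))
    by_cases hj : j = i
    · subst hj; simp
    · rw [Function.update_of_ne hj, Function.update_of_ne hj]

private theorem ball_comp {α : Type} [Primcodable α] {p : α → ℕ → Bool} (hp : Computable₂ p)
    {m : α → ℕ} (hm : Computable m) :
    ∃ f : α → Bool, Computable f ∧ ∀ a, f a = true ↔ ∀ j < m a, p a j = true := by
  refine ⟨fun a => Nat.rec (motive := fun _ => Bool) true (fun y IH => IH && p a y) (m a), ?_, ?_⟩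
  · refine Computable.nat_rec (σ := Bool) (h := fun a (q : ℕ × Bool) => q.2 && p a q.1) hm
      (Computable.const true) ?_
    exact Primrec.and.to_comp.comp (Computable.snd.comp Computable.snd)
      (hp.comp Computable.fst (Computable.fst.comp Computable.snd))
  · intro a
    show (Nat.rec (motive := fun _ => Bool) true (fun y IH => IH && p a y) (m a) : Bool) = true ↔ _
    generalize m a = n
    induction n with
    | zero => simp
    | succ k ih =>
      show ((Nat.rec (motive := fun _ => Bool) true (fun y IH => IH && p a y) k : Bool) && p a k) = true ↔ _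
      rw [Bool.and_eq_true]
      constructor
      · rintro ⟨h1, h2⟩ j hj
        rcases Nat.lt_succ_iff_lt_or_eq.1 hj with hj | hj
        · exact ih.1 h1 j hj
        · rw [hj]; exact h2
      · intro h
        exact ⟨ih.2 fun j hj => h j (by omega), h k (by omega)⟩

theorem dec_of_strongC {A : Str σ} (h : A.StrongC) : ComputablePred (fun ψ : Fm => ψ ∈ Th A.toMdl) := by
  obtain ⟨ι, hι, hd⟩ := h
  obtain ⟨T1, T2, -, hT2, -, h2⟩ := exists_trs σ
  obtain ⟨f, hf, hfe⟩ := ComputablePred.computable_iff.1 hd
  have hfe' : ∀ x, f x = true ↔ A.Diag ι x := fun x => by rw [hfe]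
  refine ComputablePred.computable_iff.2 ⟨fun ψ => decide ψ.Closed && f (T2 ψ, []), ?_, ?_⟩
  · exact Primrec.and.to_comp.comp Fm.primrec_closed.to_comp
      (hf.comp (Computable.pair hT2 (Computable.const [])))
  · funext ψ
    refine propext ?_
    rw [Bool.and_eq_true, decide_eq_true_iff, hfe']
    by_cases hc : ψ.Closed
    · obtain ⟨φ, hφ, hM⟩ := h2 ψ hc
      rw [← hM A, hφ]
      obtain ⟨a⟩ := A.ne
      constructor
      · intro h
        exact ⟨hc, φ.1, fun _ => a, rfl, fun i hi => by rw [φ.2] at hi; exact absurd hi (Set.notMem_empty i),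
          by simp, h _⟩
      · rintro ⟨-, φ', s, h3, -, -, h4⟩
        have := Fml.code_inj h3
        subst this
        exact (A.mod_iff φ s).2 h4
    · constructor
      · intro h; exact absurd h.1 hc
      · intro h; exact absurd h.1 hc

private def env (l : List ℕ) : List ℕ := (List.range (2 * l.length)).map (fun j => l.getD (j / 2) 0)

private theorem primrec_env : Primrec env := by
  refine Primrec.list_map (Primrec.list_range.comp (Primrec.nat_mul.comp (Primrec.const 2)
    Primrec.list_length)) ?_
  exact ((Primrec.list_getD 0).comp Primrec.fst (Primrec.nat_div.comp Primrec.snd (Primrec.const 2))).to₂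

private theorem asg_env (l : List ℕ) (i : ℕ) (h : i < l.length) : asg (env l) (2 * i) = l.getD i 0 := by
  unfold asg env
  rw [List.getD_eq_getElem?_getD, List.getElem?_map, List.getElem?_range (by omega)]
  show l.getD (2 * i / 2) 0 = _
  rw [Nat.mul_div_cancel_left _ (by norm_num)]

theorem strongC_of_dec {M : Mdl} (hM : M.Ok σ.ar) (hF : IsFun σ M) (hd : ComputablePred (fun ψ : Fm => ψ ∈ Th M)) :
    ∃ A : Str σ, A.StrongC ∧ Th A.toMdl = Th M := by
  classical
  obtain ⟨H, hH, hHD, hHM⟩ := hd_eff hM hd
  obtain ⟨M', m, hok, hsurj, hm, hsat⟩ := mdl_of_hd hHD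
  have hTh : Th M' = Th M := by
    ext ψ
    by_cases hc : ψ.Closed
    · rw [mem_th_iff hc (fun i => m (asg [] i)), hsat, hHM ψ hc]
    · exact ⟨fun h => absurd h.1 hc, fun h => absurd h.1 hc⟩
  have hF' : IsFun σ M' := by
    obtain ⟨F, -, hF1⟩ := isFun_fo σ
    rw [← hF1, hTh, hF1]
    exact hF
  obtain ⟨A, e, he⟩ := exists_str M' hok hF'
  refine ⟨A, ?_, (th_iso ⟨e, he⟩).trans hTh⟩
  have hex : ∀ a : A.C, ∃ k, m k = e a := fun a => hsurj _
  have hι1 : ∀ a : A.C, m (Nat.find (hex a)) = e a := fun a => Nat.find_spec (hex a)
  obtain ⟨T, hTc, hTfv, hTsat⟩ := exists_tr σ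
  refine ⟨fun a => Nat.find (hex a), ?_, ?_⟩
  · intro a b hab
    have hab' : Nat.find (hex a) = Nat.find (hex b) := hab
    apply e.injective
    rw [← hι1 a, ← hι1 b, hab']
  · -- the key equivalence
    have key : ∀ (φ : Fml σ) (l : List ℕ) (s : ℕ → A.C), (∀ i ∈ φ.fv, i < l.length) →
        (∀ i < l.length, m (l.getD i 0) = e (s i)) →
        (ins H (T φ.code) (env l) = true ↔ φ.Sat A s) := by
      intro φ l s h1 h2
      rw [← hsat]
      have h3 : Sat M' (fun i => m (asg (env l) i)) (T φ.code) ↔
          Sat M' (fun j => e (s (j / 2))) (T φ.code) := by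
        refine sat_congr fun j hj => ?_
        obtain ⟨i, hi, rfl⟩ := hTfv φ j hj
        show m (asg (env l) (2 * i)) = e (s (2 * i / 2))
        rw [asg_env l i (h1 i hi), h2 i (h1 i hi), Nat.mul_div_cancel_left _ (by norm_num)]
      rw [h3, ← sat_iso' (M := A.toMdl) (N := M') e he (T φ.code) (fun j => s (j / 2))]
      refine (hTsat A φ (fun j => s (j / 2))).trans ?_
      have h4 : (fun i => s (2 * i / 2)) = s := funext fun i => by
        rw [Nat.mul_div_cancel_left _ (by norm_num)]
      show Fml.Sat A (fun i => s (2 * i / 2)) φ ↔ _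
      rw [h4]
    obtain ⟨v, hv, hve⟩ := ComputablePred.computable_iff.1 (computable_fvlt σ)
    have hve' : ∀ x, v x = true ↔ ∃ φ : Fml σ, φ.code = x.1 ∧ ∀ i ∈ φ.fv, i < x.2 :=
      fun x => (iff_of_eq (congrFun hve x)).symm
    have cins : ∀ {β : Type} [Primcodable β] {a : β → Fm} {b : β → List ℕ}, Computable a → Computable b →
        Computable (fun x => ins H (a x) (b x)) := by
      intro β _ a b ha hb
      exact hH.comp (Computable.encode.comp (Computable.pair ha hb))
    obtain ⟨g2, hg2, hg2'⟩ := ball_comp (α := ℕ) (p := fun k j => !(ins H (Fm.eq 0 1) [j, k]))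
      (by
        refine Primrec.not.to_comp.comp (cins (Computable.const _) ?_)
        exact Computable.list_cons.comp Computable.snd
          (Computable.list_cons.comp Computable.fst (Computable.const [])))
      (m := fun k => k) Computable.id
    obtain ⟨g1, hg1, hg1'⟩ := ball_comp (α := List ℕ) (p := fun l i => g2 (l.getD i 0))
      (hg2.comp (Primrec.list_getD 0).to_comp) (m := fun l => l.length) Computable.list_length
    refine ComputablePred.computable_iff.2 ⟨fun x => v (x.1, x.2.length) && (g1 x.2 && ins H (T x.1) (env x.2)),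
      ?_, ?_⟩
    · exact Primrec.and.to_comp.comp (hv.comp (Computable.pair Computable.fst
          (Computable.list_length.comp Computable.snd)))
        (Primrec.and.to_comp.comp (hg1.comp Computable.snd)
          (cins (hTc.comp Computable.fst) (primrec_env.to_comp.comp Computable.snd)))
    · funext x
      obtain ⟨n, l⟩ := x
      refine propext ?_
      rw [Bool.and_eq_true, Bool.and_eq_true, hve', hg1']
      have hleast : ∀ k, g2 k = true ↔ ∀ j < k, m j ≠ m k := by
        intro k
        rw [hg2']
        refine forall_congr' fun j => forall_congr' fun _ => ?_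
        rw [Ne, hm]
        unfold eqc
        simp
      constructor
      · rintro ⟨φ, s, h1, h2, h3, h4⟩
        have h1' : φ.code = n := h1
        have h2' : ∀ i ∈ φ.fv, i < l.length := h2
        have h3' : l = (List.range l.length).map (fun i => Nat.find (hex (s i))) := h3
        have h5 : ∀ i < l.length, l.getD i 0 = Nat.find (hex (s i)) := by
          intro i hi
          rw [h3', List.getD_eq_getElem?_getD, List.getElem?_map, List.getElem?_range hi]
          rfl
        refine ⟨⟨φ, h1, h2⟩, ?_, ?_⟩
        · intro i hi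
          show g2 (l.getD i 0) = true
          rw [hleast, h5 i hi]
          intro j hj hj2
          rw [hι1] at hj2
          exact Nat.find_min (hex (s i)) hj hj2
        · show ins H (T n) (env l) = true
          rw [← h1', key φ l s h2' fun i hi => by rw [h5 i hi, hι1]]
          exact h4
      · rintro ⟨⟨φ, h1, h2⟩, h3, h4⟩
        have h1' : φ.code = n := h1
        have h2' : ∀ i ∈ φ.fv, i < l.length := h2
        have h4' : ins H (T n) (env l) = true := h4
        have h6 : ∀ i < l.length, m (l.getD i 0) = e (e.symm (m (l.getD i 0))) := fun i _ => by simp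
        refine ⟨φ, fun i => e.symm (m (l.getD i 0)), h1, h2, ?_, ?_⟩
        · show l = (List.range l.length).map (fun i => Nat.find (hex (e.symm (m (l.getD i 0)))))
          refine List.ext_getElem (by simp) fun i hi1 hi2 => ?_
          rw [List.getElem_map, List.getElem_range]
          have h7 : l.getD i 0 = l[i] := by
            rw [List.getD_eq_getElem?_getD, List.getElem?_eq_getElem hi1]; rfl
          have h8 := (hleast _).1 (h3 i hi1)
          rw [← h7]
          symm
          rw [Nat.find_eq_iff]
          refine ⟨h6 i hi1, fun j hj hj2 => ?_⟩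
          rw [← h6 i hi1] at hj2
          exact h8 j hj hj2
        · rw [← h1', key φ l (fun i => e.symm (m (l.getD i 0))) h2' h6] at h4'
          exact h4'

end CB
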