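import Pool.Agent.Work.MP_cb528c_lc.FinDefs
import Pool.Agent.Work.MP_cb528c_lc.PtDefs
import Pool.Agent.Work.MP_cb528c_lc.HanfSig

set_option autoImplicit false
set_option linter.all false

/-!
# MP_cb528c_lc: the relational version of a structure (definition)
-/

namespace CB

variable {σ : Sig}

/-- the relational version: function symbols are replaced by their graphs -/
def Str.toMdl (A : Str σ) : Mdl where
  C := A.C
  ne := A.ne
  R r l := (∃ (i : Fin σ.rel.length) (a : Fin (σ.rel.get i) → A.C), r = i ∧ l = List.ofFn a ∧ A.R i a) ∨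
    ∃ (f : Fin σ.fn.length) (a : Fin (σ.fn.get f) → A.C), r = σ.rel.length + f ∧ l = List.ofFn a ++ [A.F f a]

end CB
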