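import Pool.Agent.Work.MP_cb528c_lc.StrDefs

set_option autoImplicit false
set_option linter.all false

/-!
# MP_cb528c_lc, module StrMdl: structures and their relational versions

`exists_str`: `A.C := N.C`, `A.R i a := N.R i (List.ofFn a)`, `A.F f a` the unique `y` with `N.R (σ.rel.length + f) (List.ofFn a ++ [y])`;
`N.Ok` says that `N.R r l` holds only if `σ.ar[r]? = some l.length`, i.e. `r < σ.rel.length` and `l.length = σ.rel[r]`, or
`r = σ.rel.length + f` and `l.length = σ.fn[f] + 1`.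
-/

namespace CB

variable {σ : Sig}

private theorem ex_ofFn {C : Type} {n : ℕ} {l : List C} (h : l.length = n) :
    ∃ a : Fin n → C, l = List.ofFn a := by
  subst h
  exact ⟨l.get, (List.ofFn_get l).symm⟩

private theorem ar_rel {r : ℕ} (h : r < σ.rel.length) : σ.ar[r]? = some (σ.rel.get ⟨r, h⟩) := by
  unfold Sig.ar
  rw [List.getElem?_append_left h, List.getElem?_eq_getElem h]
  rfl

private theorem ar_fn {f : ℕ} (h : f < σ.fn.length) :
    σ.ar[σ.rel.length + f]? = some (σ.fn.get ⟨f, h⟩ + 1) := by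
  unfold Sig.ar
  rw [List.getElem?_append_right (Nat.le_add_right _ _), Nat.add_sub_cancel_left,
    List.getElem?_map, List.getElem?_eq_getElem h]
  rfl

private theorem ar_cases {r n : ℕ} (h : σ.ar[r]? = some n) :
    (∃ i : Fin σ.rel.length, r = i ∧ n = σ.rel.get i) ∨
      ∃ f : Fin σ.fn.length, r = σ.rel.length + f ∧ n = σ.fn.get f + 1 := by
  by_cases hr : r < σ.rel.length
  · rw [ar_rel hr] at h
    exact Or.inl ⟨⟨r, hr⟩, rfl, (Option.some.inj h).symm⟩
  · obtain ⟨f, rfl⟩ := Nat.exists_eq_add_of_le (not_lt.1 hr)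
    by_cases hf : f < σ.fn.length
    · rw [ar_fn hf] at h
      exact Or.inr ⟨⟨f, hf⟩, rfl, (Option.some.inj h).symm⟩
    · exfalso
      have h1 : σ.ar[σ.rel.length + f]? = none := by
        rw [List.getElem?_eq_none_iff]
        unfold Sig.ar
        rw [List.length_append, List.length_map]
        omega
      rw [h1] at h
      exact absurd h (by simp)

theorem Str.toMdl_ok (A : Str σ) : A.toMdl.Ok σ.ar := by
  rintro r l (⟨i, a, rfl, rfl, -⟩ | ⟨f, a, rfl, rfl⟩)
  · have h1 : (List.ofFn a).length = σ.rel.get i := List.length_ofFn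
    exact (ar_rel i.2).trans (congrArg some h1.symm)
  · have h1 : (List.ofFn a ++ [A.F f a]).length = σ.fn.get f + 1 := by
      rw [List.length_append, List.length_ofFn]
      rfl
    exact (ar_fn f.2).trans (congrArg some h1.symm)

theorem toMdl_rel (A : Str σ) (i : Fin σ.rel.length) (a : Fin (σ.rel.get i) → A.C) :
    A.toMdl.R i (List.ofFn a) ↔ A.R i a := by
  constructor
  · rintro (⟨i', a', h1, h2, h3⟩ | ⟨f, a', h1, h2⟩)
    · obtain rfl : i = i' := Fin.ext h1
      rwa [List.ofFn_injective h2]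
    · exact absurd i.2 (by omega)
  · intro h
    exact Or.inl ⟨i, a, rfl, rfl, h⟩

theorem toMdl_fun (A : Str σ) (f : Fin σ.fn.length) (a : Fin (σ.fn.get f) → A.C) (y : A.C) :
    A.toMdl.R (σ.rel.length + f) (List.ofFn a ++ [y]) ↔ y = A.F f a := by
  constructor
  · rintro (⟨i', a', h1, h2, h3⟩ | ⟨f', a', h1, h2⟩)
    · exact absurd i'.2 (by omega)
    · obtain rfl : f = f' := Fin.ext (by omega)
      obtain ⟨h3, h4⟩ := List.append_inj' h2 rfl
      obtain rfl := List.ofFn_injective h3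
      exact List.head_eq_of_cons_eq h4
  · rintro rfl
    exact Or.inr ⟨f, a, rfl, rfl⟩

theorem Str.toMdl_isFun (A : Str σ) : IsFun σ A.toMdl := by
  intro f n hf l hl
  obtain ⟨hf', hn⟩ := List.getElem?_eq_some_iff.1 hf
  obtain ⟨a, rfl⟩ := ex_ofFn (n := σ.fn.get ⟨f, hf'⟩) (hl.trans hn.symm)
  refine ⟨A.F ⟨f, hf'⟩ a, (toMdl_fun A ⟨f, hf'⟩ a _).2 rfl, fun y hy => ?_⟩
  exact (toMdl_fun A ⟨f, hf'⟩ a y).1 hy

theorem exists_str (N : Mdl) (hN : N.Ok σ.ar) (hF : IsFun σ N) : ∃ A : Str σ, A.toMdl.Iso N := by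
  have h1 : ∀ (f : Fin σ.fn.length) (a : Fin (σ.fn.get f) → N.C),
      ∃! y : N.C, N.R (σ.rel.length + f) (List.ofFn a ++ [y]) := fun f a =>
    hF f (σ.fn.get f) (List.getElem?_eq_getElem f.2) (List.ofFn a) (List.length_ofFn)
  choose F hF1 hF2 using h1
  let A : Str σ := ⟨N.C, N.ne, F, fun i a => N.R i (List.ofFn a)⟩
  refine ⟨A, Equiv.refl N.C, fun r (l : List N.C) => ?_⟩
  have hl : l.map (Equiv.refl N.C) = l := List.map_id l
  change A.toMdl.R r l ↔ N.R r (l.map (Equiv.refl N.C))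
  rw [hl]
  constructor
  · rintro (⟨i, a, rfl, rfl, h⟩ | ⟨f, a, rfl, rfl⟩)
    · exact h
    · exact hF1 f a
  · intro h
    rcases ar_cases (hN r l h) with ⟨i, rfl, hi⟩ | ⟨f, rfl, hf⟩
    · obtain ⟨a, rfl⟩ := ex_ofFn hi
      exact Or.inl ⟨i, a, rfl, rfl, h⟩
    · rcases List.eq_nil_or_concat l with rfl | ⟨l', y, rfl⟩
      · simp at hf
      · rw [List.concat_eq_append] at hf h ⊢
        rw [List.length_append, List.length_singleton] at hf
        obtain ⟨a, rfl⟩ := ex_ofFn (Nat.add_right_cancel hf)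
        have hy := hF2 f a y h
        subst hy
        exact Or.inr ⟨f, a, rfl, rfl⟩

end CB
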