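import Pool.Agent.Work.MP_cb528c_lc.TrFml
import Pool.Agent.Work.MP_cb528c_lc.BkFml
import Pool.Agent.Work.MP_cb528c_lc.CondTh
import Pool.Agent.Work.MP_cb528c_lc.HDec

set_option autoImplicit false
set_option linter.all false

/-!
# MP_cb528c_lc, module StrTh: theories of structures and of their relational versions

`T1` from `exists_tr`, `T2` from `exists_bk` are combined in one statement.
* `exists_trs`: the two translations on sentences.
* `finAx_iff`: (→) `Γ` finite: `φ0 := ` the conjunction of `F` and of the `T1 φ.code`, `φ ∈ Γ` (closed formulas).  If `N.Ok`, `φ0 ∈ Th N` then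
  `IsFun σ N`, so `N` is isomorphic to `A'.toMdl` (`exists_str`), `A'` is a model of `Γ`, hence of all sentences true in `A`, so
  `Th A.toMdl ⊆ Th A'.toMdl` (translate a closed `ψ` by `T2`), and both are complete, so they are equal.
  (←) `Γ := {the sentence with code T2 ψ}` for the axiom `ψ`.
* `th_sub_eq`: `Th M ⊆ Th N` implies equality.
-/

namespace CB

variable {σ : Sig}

theorem exists_trs (σ : Sig) : ∃ (T1 : ℕ → Fm) (T2 : Fm → ℕ), Computable T1 ∧ Computable T2 ∧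
    (∀ φ : Sen σ, (T1 φ.1.code).Closed ∧ ∀ A : Str σ, T1 φ.1.code ∈ Th A.toMdl ↔ A.Mod φ) ∧
    ∀ ψ : Fm, ψ.Closed → ∃ φ : Sen σ, T2 ψ = φ.1.code ∧ ∀ A : Str σ, A.Mod φ ↔ ψ ∈ Th A.toMdl := by
  obtain ⟨T1, hT1, hfv1, hs1⟩ := exists_tr σ
  obtain ⟨T2, hT2, h2⟩ := exists_bk σ
  refine ⟨T1, T2, hT1, hT2, fun φ => ?_, fun ψ hψ => ?_⟩
  · have hc : (T1 φ.1.code).Closed := by
      refine List.eq_nil_iff_forall_not_mem.2 fun j hj => ?_
      obtain ⟨i, hi, -⟩ := hfv1 φ.1 j hj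
      rw [φ.2] at hi
      exact absurd hi (Set.notMem_empty i)
    refine ⟨hc, fun A => ?_⟩
    obtain ⟨a⟩ := A.ne
    have h3 : T1 φ.1.code ∈ Th A.toMdl ↔ Sat A.toMdl (fun _ => a) (T1 φ.1.code) := mem_th_iff hc _
    rw [h3, hs1 A φ.1 (fun _ => a), A.mod_iff φ (fun _ => a)]
  · obtain ⟨φ, hφ, hfv, hs⟩ := h2 ψ
    have hc : φ.fv = ∅ := by
      refine Set.eq_empty_of_forall_notMem fun i hi => ?_
      have h3 := hfv i hi
      rw [show ψ.fv = [] from hψ] at h3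
      simp at h3
    refine ⟨⟨φ, hc⟩, hφ, fun A => ?_⟩
    obtain ⟨a⟩ := A.ne
    have h3 : ψ ∈ Th A.toMdl ↔ Sat A.toMdl (fun _ => a) ψ := mem_th_iff hψ _
    rw [h3, A.mod_iff ⟨φ, hc⟩ (fun _ => a)]
    exact hs A (fun _ => a)

theorem th_sub_eq {M N : Mdl} (h : Th M ⊆ Th N) : Th M = Th N := by
  refine Set.Subset.antisymm h fun φ hφ => ?_
  by_contra h1
  have h2 := h ((neg_mem_th hφ.1).2 h1)
  exact (neg_mem_th hφ.1).1 h2 hφ

private theorem conj_fin {F : Fm} (hF : F.Closed) {S : Set Fm} (hS : S.Finite) (hc : ∀ ψ ∈ S, ψ.Closed) :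
    ∃ φ0 : Fm, φ0.Closed ∧ ∀ N : Mdl, φ0 ∈ Th N ↔ F ∈ Th N ∧ ∀ ψ ∈ S, ψ ∈ Th N := by
  induction S, hS using Set.Finite.induction_on with
  | empty => exact ⟨F, hF, fun N => by simp⟩
  | @insert a S ha hfin ih =>
    obtain ⟨φ0, h0, h1⟩ := ih fun ψ hψ => hc ψ (Set.mem_insert_of_mem _ hψ)
    have hac := hc a (Set.mem_insert _ _)
    refine ⟨Fm.and a φ0, ?_, fun N => ?_⟩
    · show Fm.fv a ++ Fm.fv φ0 = []
      exact List.append_eq_nil_iff.2 ⟨hac, h0⟩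
    · rw [and_mem_th hac h0, h1]
      constructor
      · rintro ⟨h2, h3, h4⟩
        refine ⟨h3, fun ψ hψ => ?_⟩
        rcases Set.mem_insert_iff.1 hψ with h5 | h5
        · rw [h5]; exact h2
        · exact h4 ψ h5
      · rintro ⟨h2, h3⟩
        exact ⟨h3 a (Set.mem_insert _ _), h2, fun ψ hψ => h3 ψ (Set.mem_insert_of_mem _ hψ)⟩

theorem finAx_iff (A : Str σ) : A.FinAx ↔ FAx σ.ar (Th A.toMdl) := by
  obtain ⟨T1, T2, -, -, h1, h2⟩ := exists_trs σ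
  obtain ⟨F, hFc, hF⟩ := isFun_fo σ
  constructor
  · rintro ⟨Γ, hfin, hΓ, hent⟩
    have hfin' : ((fun φ : Sen σ => T1 φ.1.code) '' Γ).Finite := hfin.image _
    obtain ⟨φ0, hc0, hφ0⟩ := conj_fin hFc hfin' (by
      rintro _ ⟨φ, -, rfl⟩
      exact (h1 φ).1)
    refine ⟨φ0, (hφ0 _).2 ⟨(hF _).2 A.toMdl_isFun, ?_⟩, fun N hN hφN => ?_⟩
    · rintro _ ⟨φ, hφ, rfl⟩
      exact ((h1 φ).2 A).2 (hΓ φ hφ)
    · obtain ⟨h3, h4⟩ := (hφ0 N).1 hφN
      obtain ⟨A', hA'⟩ := exists_str N hN ((hF N).1 h3)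
      have h5 : Th A'.toMdl = Th N := th_iso hA'
      have h6 : ∀ ψ ∈ Γ, A'.Mod ψ := by
        intro ψ hψ
        refine ((h1 ψ).2 A').1 ?_
        rw [h5]
        exact h4 _ ⟨ψ, hψ, rfl⟩
      have h7 : Th A.toMdl ⊆ Th A'.toMdl := by
        intro ψ hψ
        obtain ⟨φ, -, hφ⟩ := h2 ψ hψ.1
        exact (hφ A').1 (hent φ ((hφ A).2 hψ) A' h6)
      rw [← h5, th_sub_eq h7]
  · rintro ⟨φ0, h3, h4⟩
    obtain ⟨φ, -, hφ⟩ := h2 φ0 h3.1
    refine ⟨{φ}, Set.finite_singleton φ, ?_, fun χ hχ A' hA' => ?_⟩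
    · intro ψ hψ
      rw [Set.mem_singleton_iff.1 hψ]
      exact (hφ A).2 h3
    · have h5 := h4 A'.toMdl A'.toMdl_ok ((hφ A').1 (hA' φ rfl))
      refine ((h1 χ).2 A').1 ?_
      rw [h5]
      exact ((h1 χ).2 A).2 hχ

end CB
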