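import Mathlib

set_option autoImplicit false
set_option linter.all false

/-!
# MP_cb528c_lc: relational syntax with named variables, coded bijectively by natural numbers
-/

namespace CB

/-- formulas of a relational language; variables and relation symbols are natural numbers, the arity of a
relation symbol is restricted only in the structures (`Mdl.Ok`) -/
inductive Fm : Type
  | rel (r : ℕ) (v : List ℕ) : Fm
  | eq (i j : ℕ) : Fm
  | neg (φ : Fm) : Fm
  | and (φ ψ : Fm) : Fm
  | ex (i : ℕ) (φ : Fm) : Fm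
  deriving DecidableEq

namespace Fm

/-- the code of a formula -/
def enc : Fm → ℕ
  | rel r v => 5 * Nat.pair r (Encodable.encode v)
  | eq i j => 5 * Nat.pair i j + 1
  | neg φ => 5 * enc φ + 2
  | and φ ψ => 5 * Nat.pair (enc φ) (enc ψ) + 3
  | ex i φ => 5 * Nat.pair i (enc φ) + 4

/-- the formula with a given code -/
def dec (n : ℕ) : Fm :=
  if h0 : n % 5 = 0 then rel (n / 5).unpair.1 (Denumerable.ofNat (List ℕ) (n / 5).unpair.2)
  else if h1 : n % 5 = 1 then eq (n / 5).unpair.1 (n / 5).unpair.2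
  else if h2 : n % 5 = 2 then neg (dec (n / 5))
  else if h3 : n % 5 = 3 then and (dec (n / 5).unpair.1) (dec (n / 5).unpair.2)
  else ex (n / 5).unpair.1 (dec (n / 5).unpair.2)
termination_by n
decreasing_by
  all_goals
    have e1 := Nat.unpair_left_le (n / 5)
    have e2 := Nat.unpair_right_le (n / 5)
    omega

theorem dec_enc (φ : Fm) : dec (enc φ) = φ := by
  induction φ with
  | rel r v =>
    rw [dec, dif_pos (by simp [enc])]
    simp [enc]
  | eq i j =>
    rw [dec, dif_neg (by simp only [enc]; omega), dif_pos (by simp only [enc]; omega)]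
    have : (5 * Nat.pair i j + 1) / 5 = Nat.pair i j := by omega
    simp [enc, this]
  | neg φ ih =>
    have h5 : (5 * enc φ + 2) / 5 = enc φ := by omega
    rw [dec, dif_neg (by simp only [enc]; omega), dif_neg (by simp only [enc]; omega),
      dif_pos (by simp only [enc]; omega)]
    simp only [enc, h5, ih]
  | and φ ψ ih1 ih2 =>
    have h5 : (5 * Nat.pair (enc φ) (enc ψ) + 3) / 5 = Nat.pair (enc φ) (enc ψ) := by omega
    rw [dec, dif_neg (by simp only [enc]; omega), dif_neg (by simp only [enc]; omega),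
      dif_neg (by simp only [enc]; omega), dif_pos (by simp only [enc]; omega)]
    simp only [enc, h5, Nat.unpair_pair, ih1, ih2]
  | ex i φ ih =>
    have h5 : (5 * Nat.pair i (enc φ) + 4) / 5 = Nat.pair i (enc φ) := by omega
    rw [dec, dif_neg (by simp only [enc]; omega), dif_neg (by simp only [enc]; omega),
      dif_neg (by simp only [enc]; omega), dif_neg (by simp only [enc]; omega)]
    simp only [enc, h5, Nat.unpair_pair, ih]

theorem enc_dec (n : ℕ) : enc (dec n) = n := by
  induction n using Nat.strong_induction_on with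
  | _ n ih =>
    have e1 := Nat.unpair_left_le (n / 5)
    have e2 := Nat.unpair_right_le (n / 5)
    have e3 := Nat.pair_unpair (n / 5)
    have hl : n % 5 < 5 := Nat.mod_lt _ (by norm_num)
    rw [dec]
    split_ifs with h0 h1 h2 h3
    · simp only [enc, Denumerable.encode_ofNat, e3]; omega
    · simp only [enc, e3]; omega
    · simp only [enc]; rw [ih (n / 5) (by omega)]; omega
    · simp only [enc]
      rw [ih _ (by omega), ih _ (by omega), e3]; omega
    · simp only [enc]
      rw [ih _ (by omega), e3]; omega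

/-- formulas are in bijection with natural numbers -/
def equiv : Fm ≃ ℕ := ⟨enc, dec, dec_enc, enc_dec⟩

instance : Primcodable Fm := Primcodable.ofEquiv ℕ equiv

/-- list of the free variables -/
def fv : Fm → List ℕ
  | rel _ v => v
  | eq i j => [i, j]
  | neg φ => fv φ
  | and φ ψ => fv φ ++ fv ψ
  | ex i φ => (fv φ).filter (fun j => j ≠ i)

/-- closed formulas (sentences) -/
def Closed (φ : Fm) : Prop := fv φ = []

/-- quantifier rank -/
def qr : Fm → ℕ
  | rel _ _ => 0
  | eq _ _ => 0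
  | neg φ => qr φ
  | and φ ψ => max (qr φ) (qr ψ)
  | ex _ φ => qr φ + 1

/-- abbreviations -/
def tru : Fm := ex 0 (eq 0 0)
def or (φ ψ : Fm) : Fm := neg (and (neg φ) (neg ψ))
def imp (φ ψ : Fm) : Fm := neg (and φ (neg ψ))
def iff (φ ψ : Fm) : Fm := and (imp φ ψ) (imp ψ φ)
def all (i : ℕ) (φ : Fm) : Fm := neg (ex i (neg φ))

end Fm

/-- (relational) structures: a relation symbol is interpreted on lists of elements -/
structure Mdl where
  C : Type
  ne : Nonempty C
  R : ℕ → List C → Prop

/-- the structure has only relations of the arities listed in `ar` -/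
def Mdl.Ok (M : Mdl) (ar : List ℕ) : Prop := ∀ r l, M.R r l → ar[r]? = some l.length

/-- satisfaction -/
def Sat (M : Mdl) : (ℕ → M.C) → Fm → Prop
  | s, Fm.rel r v => M.R r (v.map s)
  | s, Fm.eq i j => s i = s j
  | s, Fm.neg φ => ¬ Sat M s φ
  | s, Fm.and φ ψ => Sat M s φ ∧ Sat M s ψ
  | s, Fm.ex i φ => ∃ a, Sat M (Function.update s i a) φ

/-- the theory of a structure: the closed formulas that hold -/
def Th (M : Mdl) : Set Fm := {φ | φ.Closed ∧ ∀ s, Sat M s φ}

/-- isomorphism -/
def Mdl.Iso (M N : Mdl) : Prop := ∃ e : M.C ≃ N.C, ∀ r l, M.R r l ↔ N.R r (l.map e)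

section sat
variable {M : Mdl}

theorem sat_rel {s : ℕ → M.C} {r : ℕ} {v : List ℕ} : Sat M s (Fm.rel r v) ↔ M.R r (v.map s) := Iff.rfl
theorem sat_eq {s : ℕ → M.C} {i j : ℕ} : Sat M s (Fm.eq i j) ↔ s i = s j := Iff.rfl
theorem sat_neg {s : ℕ → M.C} {φ : Fm} : Sat M s (Fm.neg φ) ↔ ¬ Sat M s φ := Iff.rfl
theorem sat_and {s : ℕ → M.C} {φ ψ : Fm} : Sat M s (Fm.and φ ψ) ↔ Sat M s φ ∧ Sat M s ψ := Iff.rfl
theorem sat_ex {s : ℕ → M.C} {i : ℕ} {φ : Fm} :
    Sat M s (Fm.ex i φ) ↔ ∃ a, Sat M (Function.update s i a) φ := Iff.rfl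
theorem sat_tru {s : ℕ → M.C} : Sat M s Fm.tru ↔ True := by
  obtain ⟨a⟩ := M.ne
  exact ⟨fun _ => trivial, fun _ => ⟨a, rfl⟩⟩
theorem sat_or {s : ℕ → M.C} {φ ψ : Fm} : Sat M s (Fm.or φ ψ) ↔ Sat M s φ ∨ Sat M s ψ := by
  unfold Fm.or; rw [sat_neg, sat_and, sat_neg, sat_neg]; tauto
theorem sat_imp {s : ℕ → M.C} {φ ψ : Fm} : Sat M s (Fm.imp φ ψ) ↔ (Sat M s φ → Sat M s ψ) := by
  unfold Fm.imp; rw [sat_neg, sat_and, sat_neg]; tauto
theorem sat_iff {s : ℕ → M.C} {φ ψ : Fm} : Sat M s (Fm.iff φ ψ) ↔ (Sat M s φ ↔ Sat M s ψ) := by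
  unfold Fm.iff; rw [sat_and, sat_imp, sat_imp]; tauto
theorem sat_all {s : ℕ → M.C} {i : ℕ} {φ : Fm} :
    Sat M s (Fm.all i φ) ↔ ∀ a, Sat M (Function.update s i a) φ := by
  unfold Fm.all; rw [sat_neg, sat_ex, not_exists]
  exact forall_congr' fun a => by rw [sat_neg, not_not]

/-- satisfaction depends only on the values of the free variables -/
theorem sat_congr {s t : ℕ → M.C} {φ : Fm} (h : ∀ i ∈ φ.fv, s i = t i) : Sat M s φ ↔ Sat M t φ := by
  induction φ generalizing s t with
  | rel r v =>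
    rw [sat_rel, sat_rel]
    have : v.map s = v.map t := List.map_congr_left h
    rw [this]
  | eq i j =>
    rw [sat_eq, sat_eq, h i (by simp [Fm.fv]), h j (by simp [Fm.fv])]
  | neg φ ih => rw [sat_neg, sat_neg, ih h]
  | and φ ψ ih1 ih2 =>
    rw [sat_and, sat_and, ih1 fun i hi => h i (by simp [Fm.fv, hi]),
      ih2 fun i hi => h i (by simp [Fm.fv, hi])]
  | ex i φ ih =>
    rw [sat_ex, sat_ex]
    refine exists_congr fun a => ih fun j hj => ?_
    by_cases hji : j = i
    · subst hji; simp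
    · rw [Function.update_of_ne hji, Function.update_of_ne hji]
      exact h j (by simp [Fm.fv, hj, hji])

theorem mem_th_iff {φ : Fm} (h : φ.Closed) (s : ℕ → M.C) : φ ∈ Th M ↔ Sat M s φ := by
  constructor
  · exact fun hh => hh.2 s
  · refine fun hh => ⟨h, fun t => (sat_congr fun i hi => ?_).1 hh⟩
    rw [h] at hi; simp at hi

end sat

end CB
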