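import Pool.Agent.Work.MP_cb528c_lc.GoodCross

set_option autoImplicit false
set_option linter.all false

/-!
# MP_cb528c_lc, module SysApi: monotonicity, symmetry, shifts, runs

* `run_match`: induction on `i`: at stage `i` the shifts `n` for the counters are the same on both sides and `|n| ≤ i`, the
  flags agree by `ZEq.eq_iff` with `(o, o') ∈ P`, hence the transition `δ` is the same and the next shift is the same
  (`al_dn_shift`).
* `up_match`: induction on `m`: `f`, `f'` above `e`, `e'` with states and zero flags agreeing at the elements at heights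
  `1..m` (for `Loc`, `m ≤ R + 1`), so the same transitions are made on the way down from `f` to `e`.
* `Sys.addZ`: `ZEq.forth`; `Loc` is monotone in `P`.
* `Sys.symm`: swap everything.
-/

namespace CB

variable {M : Mach} {c0 : M.Cfg} {G G' : Good M c0}

private def mvz : Mv → ℤ
  | Mv.down => -1
  | Mv.stay => 0
  | Mv.up => 1

private theorem appZ_eq {Z : Type} (S : Equiv.Perm Z) (m : Mv) (z : Z) : m.appZ S z = (S ^ mvz m) z := by
  cases m with
  | down =>
    show S.symm z = (S ^ (-1 : ℤ)) z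
    rw [zpow_neg_one]
    rfl
  | stay =>
    show z = (S ^ (0 : ℤ)) z
    rw [zpow_zero]
    rfl
  | up =>
    show S z = (S ^ (1 : ℤ)) z
    rw [zpow_one]

private theorem mvz_abs (m : Mv) : |mvz m| ≤ 1 := by
  cases m <;> simp [mvz]

private theorem al_dn' (G : Good M c0) (i : Fin M.k) (e : G.X) :
    G.al i (G.dn e) = (G.S ^ mvz ((M.δ (G.st e) (fun i => decide (G.al i e ≠ G.o))).2 i)) (G.al i e) := by
  rw [G.al_dn, appZ_eq]

private theorem birth_of (G G' : Good M c0) {R : ℕ} {e : G.X} {e' : G'.X}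
    (ex : ∀ i ≤ R + 1, (∃ f, G.dn^[i] f = e) ↔ ∃ f', G'.dn^[i] f' = e') {i : ℕ} (hi : i ≤ R) {f : G.X} {f' : G'.X}
    (hf : G.dn^[i] f = e) (hf' : G'.dn^[i] f' = e') (hb : G'.Birth f') : G.Birth f := by
  intro g hg
  have h1 : ∃ g, G.dn^[i + 1] g = e := ⟨g, by rw [Function.iterate_succ_apply, hg, hf]⟩
  obtain ⟨g', hg'⟩ := (ex (i + 1) (by omega)).1 h1
  rw [Function.iterate_succ_apply, ← hf'] at hg'
  exact hb g' (G'.dn_inj.iterate i hg')

theorem Loc.mono {R R' : ℕ} {P P' : Set (G.Z × G'.Z)} {e : G.X} {e' : G'.X} (h : Loc G G' R P e e') (hR : R' ≤ R)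
    (hP : P ⊆ P') : Loc G G' R' P' e e' where
  ex := fun i hi => h.ex i (by omega)
  st := fun i hi => h.st i (by omega)
  zf := fun i hi => h.zf i (by omega)
  al := fun j => hP (h.al j)
  nu := hP h.nu
  la := hP h.la
  bi := fun i hi f f' hf hf' hb => by
    obtain ⟨h1, h2, h3, h4⟩ := h.bi i (by omega) f f' hf hf' hb
    exact ⟨hP h1, hP h2, h3, h4⟩
  u0 := fun j hj => h.u0 j (hj.trans (by exact_mod_cast hR))
  u1 := fun j hj => h.u1 j (hj.trans (by exact_mod_cast hR))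

theorem Loc.symm {R : ℕ} {P : Set (G.Z × G'.Z)} {e : G.X} {e' : G'.X} (h : Loc G G' R P e e') :
    Loc G' G R (Prod.swap '' P) e' e where
  ex := fun i hi => (h.ex i hi).symm
  st := fun i hi f' f hf' hf => (h.st i hi f f' hf hf').symm
  zf := fun i hi f' f hf' hf j => (h.zf i hi f f' hf hf' j).symm
  al := fun j => ⟨_, h.al j, rfl⟩
  nu := ⟨_, h.nu, rfl⟩
  la := ⟨_, h.la, rfl⟩
  bi := fun i hi f' f hf' hf hb => by
    obtain ⟨h1, h2, h3, h4⟩ := h.bi i hi f f' hf hf' (birth_of G G' h.ex hi hf hf' hb)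
    exact ⟨⟨_, h1, rfl⟩, ⟨_, h2, rfl⟩, h3.symm, h4.symm⟩
  u0 := fun j hj => (h.u0 j hj).symm
  u1 := fun j hj => (h.u1 j hj).symm

theorem Sys.mono {R T R' T' : ℕ} {P : Set (G.Z × G'.Z)} {Q : Set (G.X × G'.X)} (h : Sys G G' R T P Q)
    (hR : R' ≤ R) (hT : T' ≤ T) : Sys G G' R' T' P Q where
  finP := h.finP
  finQ := h.finQ
  o_mem := h.o_mem
  zeq := h.zeq.mono hT subset_rfl
  og_mem := h.og_mem
  loc := fun p hp => (h.loc p hp).mono hR subset_rfl
  near := fun p hp q hq i hi j hj => h.near p hp q hq i (hi.trans hR) j (hj.trans (by exact_mod_cast hR))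

theorem Sys.symm {R T : ℕ} {P : Set (G.Z × G'.Z)} {Q : Set (G.X × G'.X)} (h : Sys G G' R T P Q) :
    Sys G' G R T (Prod.swap '' P) (Prod.swap '' Q) where
  finP := h.finP.image _
  finQ := h.finQ.image _
  o_mem := ⟨_, h.o_mem, rfl⟩
  zeq := h.zeq.swap
  og_mem := ⟨_, h.og_mem, rfl⟩
  loc := by
    rintro _ ⟨p, hp, rfl⟩
    exact (h.loc p hp).symm
  near := by
    rintro _ ⟨p, hp, rfl⟩ _ ⟨q, hq, rfl⟩ i hi j hj
    exact (h.near p hp q hq i hi j hj).symm

/-- the move of the spoiler in `Z` -/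
theorem Sys.addZ {R T : ℕ} {P : Set (G.Z × G'.Z)} {Q : Set (G.X × G'.X)} (h : Sys G G' R (2 * T + 2) P Q) (z : G.Z) :
    ∃ z', Sys G G' R T (insert (z, z') P) Q := by
  obtain ⟨z', hz'⟩ := ZEq.forth G.succ G'.succ h.finP ⟨_, h.o_mem⟩ h.zeq z
  exact ⟨z', {
    finP := h.finP.insert _
    finQ := h.finQ
    o_mem := Set.mem_insert_of_mem _ h.o_mem
    zeq := hz'
    og_mem := h.og_mem
    loc := fun p hp => (h.loc p hp).mono le_rfl (Set.subset_insert _ _)
    near := h.near }⟩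

/-- the set of all shifts by at most `c` of the pairs in `P` -/
def shf (G G' : Good M c0) (c : ℕ) (P : Set (G.Z × G'.Z)) : Set (G.Z × G'.Z) :=
  {x | ∃ p ∈ P, ∃ n : ℤ, |n| ≤ c ∧ x = ((G.S ^ n) p.1, (G'.S ^ n) p.2)}

theorem shf_finite {c : ℕ} {P : Set (G.Z × G'.Z)} (h : P.Finite) : (shf G G' c P).Finite := by
  refine Set.Finite.subset ((h.prod (Set.finite_Icc (-(c : ℤ)) c)).image
    (fun x => ((G.S ^ x.2) x.1.1, (G'.S ^ x.2) x.1.2))) ?_
  rintro x ⟨p, hp, n, hn, rfl⟩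
  exact ⟨(p, n), ⟨hp, abs_le.1 hn⟩, rfl⟩

theorem subset_shf {c : ℕ} {P : Set (G.Z × G'.Z)} : P ⊆ shf G G' c P := by
  intro p hp
  refine ⟨p, hp, 0, by simp, ?_⟩
  rw [zpow_zero, zpow_zero]
  rfl

theorem zeq_shf {c T : ℕ} {P : Set (G.Z × G'.Z)} (h : ZEq G.S G'.S (T + 2 * c) P) : ZEq G.S G'.S T (shf G G' c P) := by
  exact ZEq.shifts G.succ G'.succ h

/-- going down from matched elements -/
theorem run_match {T : ℕ} {P : Set (G.Z × G'.Z)} (hP : ZEq G.S G'.S T P) (ho : (G.o, G'.o) ∈ P) {f : G.X} {f' : G'.X}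
    (hst : G.st f = G'.st f') (hal : ∀ j, (G.al j f, G'.al j f') ∈ P) (i : ℕ) (hi : i ≤ T) :
    G.st (G.dn^[i] f) = G'.st (G'.dn^[i] f') ∧
    ∀ j, (∃ n : ℤ, |n| ≤ i ∧ G.al j (G.dn^[i] f) = (G.S ^ n) (G.al j f) ∧
      G'.al j (G'.dn^[i] f') = (G'.S ^ n) (G'.al j f')) ∧
      (G.al j (G.dn^[i] f) = G.o ↔ G'.al j (G'.dn^[i] f') = G'.o) := by
  have key : ∀ (j : Fin M.k) (n : ℤ), |n| ≤ T → ((G.S ^ n) (G.al j f) = G.o ↔ (G'.S ^ n) (G'.al j f') = G'.o) :=
    fun j n hn => ZEq.eq_iff G.succ G'.succ hP (hal j) ho hn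
  induction i with
  | zero =>
    refine ⟨hst, fun j => ⟨⟨0, by simp, ?_, ?_⟩, ?_⟩⟩
    · rw [zpow_zero]; rfl
    · rw [zpow_zero]; rfl
    · have := key j 0 (by simp)
      rw [zpow_zero, zpow_zero] at this
      exact this
  | succ i ih =>
    obtain ⟨h1, h2⟩ := ih (by omega)
    have hfl : (fun j => decide (G.al j (G.dn^[i] f) ≠ G.o)) = fun j => decide (G'.al j (G'.dn^[i] f') ≠ G'.o) := by
      funext j
      exact decide_eq_decide.2 (not_congr (h2 j).2)
    rw [Function.iterate_succ_apply', Function.iterate_succ_apply']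
    refine ⟨?_, fun j => ?_⟩
    · rw [G.st_dn, G'.st_dn, hfl, h1]
    · obtain ⟨n, hn, e1, e2⟩ := (h2 j).1
      have hm := mvz_abs ((M.δ (G'.st (G'.dn^[i] f')) (fun j => decide (G'.al j (G'.dn^[i] f') ≠ G'.o))).2 j)
      have e3 : G.al j (G.dn (G.dn^[i] f)) =
          (G.S ^ (mvz ((M.δ (G'.st (G'.dn^[i] f')) (fun j => decide (G'.al j (G'.dn^[i] f') ≠ G'.o))).2 j) + n))
            (G.al j f) := by
        rw [al_dn', hfl, h1, e1, zpow_add, Equiv.Perm.mul_apply]
      have e4 : G'.al j (G'.dn (G'.dn^[i] f')) =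
          (G'.S ^ (mvz ((M.δ (G'.st (G'.dn^[i] f')) (fun j => decide (G'.al j (G'.dn^[i] f') ≠ G'.o))).2 j) + n))
            (G'.al j f') := by
        rw [al_dn', e2, zpow_add, Equiv.Perm.mul_apply]
      have hb : |mvz ((M.δ (G'.st (G'.dn^[i] f')) (fun j => decide (G'.al j (G'.dn^[i] f') ≠ G'.o))).2 j) + n| ≤
          ((i + 1 : ℕ) : ℤ) := by
        push_cast
        have := abs_add_le (mvz ((M.δ (G'.st (G'.dn^[i] f')) (fun j => decide (G'.al j (G'.dn^[i] f') ≠ G'.o))).2 j)) n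
        linarith
      refine ⟨⟨_, hb, e3, e4⟩, ?_⟩
      rw [e3, e4]
      exact key j _ (hb.trans (by exact_mod_cast hi))

/-- going up from locally matched elements: the counters are shifted by the same amounts -/
theorem up_match {R : ℕ} {P : Set (G.Z × G'.Z)} {e : G.X} {e' : G'.X} (h : Loc G G' R P e e') {m : ℕ} (hm : m ≤ R + 1)
    {f : G.X} {f' : G'.X} (hf : G.dn^[m] f = e) (hf' : G'.dn^[m] f' = e') (j : Fin M.k) :
    ∃ n : ℤ, |n| ≤ m ∧ G.al j f = (G.S ^ n) (G.al j e) ∧ G'.al j f' = (G'.S ^ n) (G'.al j e') := by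
  induction m generalizing f f' with
  | zero =>
    refine ⟨0, by simp, ?_, ?_⟩
    · rw [zpow_zero]
      exact congrArg (G.al j) hf
    · rw [zpow_zero]
      exact congrArg (G'.al j) hf'
  | succ m ih =>
    have hf1 : G.dn^[m] (G.dn f) = e := by rw [← Function.iterate_succ_apply]; exact hf
    have hf1' : G'.dn^[m] (G'.dn f') = e' := by rw [← Function.iterate_succ_apply]; exact hf'
    obtain ⟨n, hn, e1, e2⟩ := ih (by omega) hf1 hf1'
    have hst := h.st (m + 1) hm f f' hf hf'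
    have hfl : (fun j => decide (G.al j f ≠ G.o)) = fun j => decide (G'.al j f' ≠ G'.o) := by
      funext j
      exact decide_eq_decide.2 (not_congr (h.zf (m + 1) hm f f' hf hf' j))
    have hmv := mvz_abs ((M.δ (G'.st f') (fun j => decide (G'.al j f' ≠ G'.o))).2 j)
    have a1 := al_dn' G j f
    have a2 := al_dn' G' j f'
    rw [hfl, hst] at a1
    refine ⟨-mvz ((M.δ (G'.st f') (fun j => decide (G'.al j f' ≠ G'.o))).2 j) + n, ?_, ?_, ?_⟩
    · push_cast
      have := abs_add_le (-mvz ((M.δ (G'.st f') (fun j => decide (G'.al j f' ≠ G'.o))).2 j)) n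
      rw [abs_neg] at this
      linarith
    · rw [zpow_add, Equiv.Perm.mul_apply, ← e1, a1, ← Equiv.Perm.mul_apply, ← zpow_add, neg_add_cancel, zpow_zero]
      rfl
    · rw [zpow_add, Equiv.Perm.mul_apply, ← e2, a2, ← Equiv.Perm.mul_apply, ← zpow_add, neg_add_cancel, zpow_zero]
      rfl

end CB
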