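import Pool.Agent.Work.MP_cb528c_lc.StrMdl
import Pool.Agent.Work.MP_cb528c_lc.CodeFml
import Pool.Agent.Work.MP_cb528c_lc.FmPrim
import Pool.Agent.Work.MP_cb528c_lc.FoApi

set_option autoImplicit false
set_option linter.all false

/-!
# MP_cb528c_lc, module TrFml: translation of the formulas of `σ` into relational formulas, computable on codes

The variable `i` is translated to `2 i`; for every term `t` the variable `X t := 2 * t.code + 1` is used for its value.
On codes: for a code `n` of a term let `D n : List Fm` be the list of the definitions of all its subterms: for `n = Nat.pair 0 i`: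
`[eq (2 n + 1) (2 i)]`; for `n = Nat.pair (f + 1) m`, `l` the list coded by `m`: `rel (σ.rel.length + f) (l.map (2 * · + 1) ++ [2 n + 1])`
followed by the concatenation of the `D` of the entries of `l`; and let `V n : List ℕ` be the list of the `X` of all the subterms.
(Both by strong recursion, `Primrec.nat_strong_rec`.)  Semantics: if all formulas of `D t.code` hold under `s` then
`s (X u) = u.val` for every subterm `u` (induction, `toMdl_fun`); conversely if `s (X u) = u.val A (fun i => s (2 i))` for all `u` they hold.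
`T` of an atomic formula: quantify existentially over all variables of `V` of its terms the conjunction of the `D` of its
terms and `eq (X t) (X u)`, resp. `rel r [X a_0, .., X a_(n-1)]`; to see that the existential quantification is harmless use the
assignment `s' (X u) := u.val ..` (well defined by `Tm.code_inj`), `s' (2 i) = s (2 i)`.
`neg`, `and`: directly; `ex i φ`: `Fm.ex (2 i) (T φ)`.  Strong recursion on the code.
`T φ.code` has only free variables `2 i` with `i ∈ φ.fv`.
-/

namespace CB

private theorem cb_rec {S : Type} [Primcodable S] (g : List S → S) (hg : Primrec g) :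
    ∃ f : ℕ → S, Primrec f ∧ ∀ n, f n = g ((List.range n).map f) := by
  let tab : ℕ → List S := fun n => Nat.rec [] (fun _ l => l ++ [g l]) n
  have htab : ∀ n, tab (n + 1) = tab n ++ [g (tab n)] := fun n => rfl
  refine ⟨fun n => g (tab n), ?_, ?_⟩
  · have h : Primrec tab := by
      refine Primrec.nat_rec' (f := fun n : ℕ => n) (g := fun _ => ([] : List S))
        (h := fun _ p => p.2 ++ [g p.2]) Primrec.id (Primrec.const _) ?_
      have h1 : Primrec (fun p : ℕ × ℕ × List S => p.2.2) := Primrec.snd.comp Primrec.snd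
      have h2 : Primrec (fun p : ℕ × ℕ × List S => [g p.2.2]) :=
        Primrec.list_cons.comp (hg.comp h1) (Primrec.const [])
      exact (Primrec.list_append.comp h1 h2).to₂
    exact hg.comp h
  · intro n
    have : tab n = (List.range n).map (fun n => g (tab n)) := by
      induction n with
      | zero => rfl
      | succ n ih => rw [htab, List.range_succ, List.map_append, ← ih]; rfl
    show g (tab n) = _
    rw [← this]

/-- the variable for the value of the term with code `n` -/
private def XX (n : ℕ) : ℕ := 2 * n + 1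

private theorem primrec_XX : Primrec XX :=
  Primrec.nat_add.comp (Primrec.nat_mul.comp (Primrec.const 2) Primrec.id) (Primrec.const 1)

private theorem XX_inj {m n : ℕ} (h : XX m = XX n) : m = n := by unfold XX at h; omega

private theorem XX_ne (m i : ℕ) : XX m ≠ 2 * i := by unfold XX; omega

private theorem mem_lt_encode {e : List ℕ} {x : ℕ} (h : x ∈ e) : x < Encodable.encode e := by
  induction e with
  | nil => simp at h
  | cons a l ih =>
    rw [Encodable.encode_list_cons]
    have h1 := Nat.left_le_pair (Encodable.encode a) (Encodable.encode l)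
    have h2 := Nat.right_le_pair (Encodable.encode a) (Encodable.encode l)
    have h3 : Encodable.encode a = a := rfl
    rcases List.mem_cons.1 h with h | h
    · subst h; rw [h3] at h1; exact Nat.lt_succ_of_le h1
    · have := ih h; exact lt_of_lt_of_le this (by simpa using Nat.le_succ_of_le h2)

private theorem getD_range_map {S : Type} (f : ℕ → S) (n k : ℕ) (d : S) (h : k < n) :
    ((List.range n).map f).getD k d = f k := by
  rw [List.getD_eq_getElem?_getD, List.getElem?_map, List.getElem?_range h]
  rfl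

private def stD (L : ℕ) (l : List (List ℕ × List Fm)) : List ℕ × List Fm :=
  if l.length.unpair.1 = 0 then ([XX l.length], [Fm.eq (XX l.length) (2 * l.length.unpair.2)])
  else (XX l.length :: (Denumerable.ofNat (List ℕ) l.length.unpair.2).flatMap (fun k => (l.getD k ([], [])).1),
    Fm.rel (L + (l.length.unpair.1 - 1))
      ((Denumerable.ofNat (List ℕ) l.length.unpair.2).map XX ++ [XX l.length]) ::
      (Denumerable.ofNat (List ℕ) l.length.unpair.2).flatMap (fun k => (l.getD k ([], [])).2))

private theorem primrec_stD (L : ℕ) : Primrec (stD L) := by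
  have h0 : Primrec (fun l : List (List ℕ × List Fm) => l.length) := Primrec.list_length
  have h1 : Primrec (fun l : List (List ℕ × List Fm) => l.length.unpair.1) :=
    Primrec.fst.comp (Primrec.unpair.comp h0)
  have h2 : Primrec (fun l : List (List ℕ × List Fm) => l.length.unpair.2) :=
    Primrec.snd.comp (Primrec.unpair.comp h0)
  have h3 : Primrec (fun l : List (List ℕ × List Fm) => XX l.length) := primrec_XX.comp h0
  have h4 : Primrec (fun l : List (List ℕ × List Fm) =>
      Denumerable.ofNat (List ℕ) l.length.unpair.2) := (Primrec.ofNat (List ℕ)).comp h2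
  have h5 : Primrec₂ (fun (l : List (List ℕ × List Fm)) (k : ℕ) => l.getD k ([], [])) :=
    Primrec.list_getD _
  have h6 : Primrec (fun l : List (List ℕ × List Fm) =>
      (Denumerable.ofNat (List ℕ) l.length.unpair.2).flatMap (fun k => (l.getD k ([], [])).1)) :=
    Primrec.list_flatMap h4 (Primrec.fst.comp h5)
  have h7 : Primrec (fun l : List (List ℕ × List Fm) =>
      (Denumerable.ofNat (List ℕ) l.length.unpair.2).flatMap (fun k => (l.getD k ([], [])).2)) :=
    Primrec.list_flatMap h4 (Primrec.snd.comp h5)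
  have h8 : Primrec (fun l : List (List ℕ × List Fm) =>
      (Denumerable.ofNat (List ℕ) l.length.unpair.2).map XX ++ [XX l.length]) :=
    Primrec.list_append.comp (Primrec.list_map h4 (primrec_XX.comp Primrec.snd).to₂)
      (Primrec.list_cons.comp h3 (Primrec.const []))
  refine Primrec.ite (Primrec.eq.comp h1 (Primrec.const 0)) ?_ ?_
  · exact Primrec.pair (Primrec.list_cons.comp h3 (Primrec.const []))
      (Primrec.list_cons.comp (Fm.primrec_eq.comp h3
        (Primrec.nat_mul.comp (Primrec.const 2) h2)) (Primrec.const []))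
  · exact Primrec.pair (Primrec.list_cons.comp h3 h6)
      (Primrec.list_cons.comp (Fm.primrec_rel.comp
        (Primrec.nat_add.comp (Primrec.const L) (Primrec.nat_sub.comp h1 (Primrec.const 1))) h8) h7)

private def exs (v : List ℕ) (φ : Fm) : Fm := v.foldr Fm.ex φ

private theorem sat_exs {M : Mdl} (v : List ℕ) (φ : Fm) : ∀ s : ℕ → M.C,
    Sat M s (exs v φ) ↔ ∃ s' : ℕ → M.C, (∀ i, i ∉ v → s' i = s i) ∧ Sat M s' φ := by
  induction v with
  | nil =>
    intro s
    constructor
    · intro h; exact ⟨s, fun _ _ => rfl, h⟩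
    · rintro ⟨s', h1, h2⟩
      have : s' = s := funext fun i => h1 i (by simp)
      subst this
      exact h2
  | cons a v ih =>
    intro s
    have e : exs (a :: v) φ = Fm.ex a (exs v φ) := rfl
    rw [e, sat_ex]
    constructor
    · rintro ⟨c, hc⟩
      obtain ⟨s', h1, h2⟩ := (ih _).1 hc
      refine ⟨s', fun i hi => ?_, h2⟩
      have hi1 : i ≠ a := fun h => hi (by simp [h])
      have hi2 : i ∉ v := fun h => hi (by simp [h])
      rw [h1 i hi2, Function.update_of_ne hi1]
    · rintro ⟨s', h1, h2⟩
      refine ⟨s' a, (ih _).2 ⟨s', fun i hi => ?_, h2⟩⟩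
      by_cases hia : i = a
      · subst hia; simp
      · rw [Function.update_of_ne hia]
        exact h1 i (by simp [hia, hi])

private theorem fv_exs (v : List ℕ) (φ : Fm) (i : ℕ) : i ∈ (exs v φ).fv ↔ i ∈ φ.fv ∧ i ∉ v := by
  induction v with
  | nil => simp [exs]
  | cons a v ih =>
    have e : exs (a :: v) φ = Fm.ex a (exs v φ) := rfl
    rw [e]
    simp only [Fm.fv, List.mem_filter, ih, decide_not, Bool.not_eq_true', decide_eq_false_iff_not,
      List.mem_cons, not_or]
    tauto

/-- existential quantification of an atom with parameters -/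
private def atm (D : ℕ → List ℕ × List Fm) (l : List ℕ) (a : Fm) : Fm :=
  exs (l.flatMap (fun k => (D k).1)) (conjL (a :: l.flatMap (fun k => (D k).2)))

private theorem primrec_conjL : Primrec conjL := by
  have h : Primrec (fun l : List Fm => l.foldr (fun b s => Fm.and b s) Fm.tru) := by
    refine Primrec.list_foldr (f := fun l : List Fm => l) (g := fun _ => Fm.tru)
      (h := fun _ (p : Fm × Fm) => Fm.and p.1 p.2) Primrec.id (Primrec.const _) ?_
    exact (Fm.primrec_and.comp (Primrec.fst.comp Primrec.snd) (Primrec.snd.comp Primrec.snd)).to₂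
  refine h.of_eq fun l => ?_
  induction l with
  | nil => rfl
  | cons a l ih => rw [List.foldr_cons, ih]; rfl

private theorem primrec_exs : Primrec₂ exs := by
  have h : Primrec (fun x : List ℕ × Fm => x.1.foldr (fun b s => Fm.ex b s) x.2) := by
    refine Primrec.list_foldr (f := fun x : List ℕ × Fm => x.1) (g := fun x => x.2)
      (h := fun _ (p : ℕ × Fm) => Fm.ex p.1 p.2) Primrec.fst Primrec.snd ?_
    exact (Fm.primrec_ex.comp (Primrec.fst.comp Primrec.snd) (Primrec.snd.comp Primrec.snd)).to₂
  exact h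

private theorem primrec_atm {D : ℕ → List ℕ × List Fm} (hD : Primrec D) : Primrec₂ (atm D) := by
  have h1 : Primrec (fun x : List ℕ × Fm => x.1.flatMap (fun k => (D k).1)) :=
    Primrec.list_flatMap Primrec.fst (Primrec.fst.comp (hD.comp Primrec.snd)).to₂
  have h2 : Primrec (fun x : List ℕ × Fm => x.1.flatMap (fun k => (D k).2)) :=
    Primrec.list_flatMap Primrec.fst (Primrec.snd.comp (hD.comp Primrec.snd)).to₂
  exact primrec_exs.comp h1 (primrec_conjL.comp (Primrec.list_cons.comp Primrec.snd h2))

private def stT (D : ℕ → List ℕ × List Fm) (L : List Fm) : Fm :=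
  if L.length.unpair.1 = 0 then atm D [L.length.unpair.2.unpair.1, L.length.unpair.2.unpair.2]
    (Fm.eq (XX L.length.unpair.2.unpair.1) (XX L.length.unpair.2.unpair.2))
  else if L.length.unpair.1 = 1 then atm D (Denumerable.ofNat (List ℕ) L.length.unpair.2.unpair.2)
    (Fm.rel L.length.unpair.2.unpair.1 ((Denumerable.ofNat (List ℕ) L.length.unpair.2.unpair.2).map XX))
  else if L.length.unpair.1 = 2 then Fm.neg (L.getD L.length.unpair.2 Fm.tru)
  else if L.length.unpair.1 = 3 then Fm.and (L.getD L.length.unpair.2.unpair.1 Fm.tru)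
    (L.getD L.length.unpair.2.unpair.2 Fm.tru)
  else Fm.ex (2 * L.length.unpair.2.unpair.1) (L.getD L.length.unpair.2.unpair.2 Fm.tru)

private theorem primrec_stT {D : ℕ → List ℕ × List Fm} (hD : Primrec D) : Primrec (stT D) := by
  have h0 : Primrec (fun l : List Fm => l.length) := Primrec.list_length
  have h1 : Primrec (fun l : List Fm => l.length.unpair.1) :=
    Primrec.fst.comp (Primrec.unpair.comp h0)
  have h2 : Primrec (fun l : List Fm => l.length.unpair.2) :=
    Primrec.snd.comp (Primrec.unpair.comp h0)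
  have h3 : Primrec (fun l : List Fm => l.length.unpair.2.unpair.1) :=
    Primrec.fst.comp (Primrec.unpair.comp h2)
  have h4 : Primrec (fun l : List Fm => l.length.unpair.2.unpair.2) :=
    Primrec.snd.comp (Primrec.unpair.comp h2)
  have h5 : Primrec (fun l : List Fm => Denumerable.ofNat (List ℕ) l.length.unpair.2.unpair.2) :=
    (Primrec.ofNat (List ℕ)).comp h4
  have h6 : Primrec₂ (fun (l : List Fm) (k : ℕ) => l.getD k Fm.tru) := Primrec.list_getD _
  have c : ∀ r : ℕ, PrimrecPred (fun x : List Fm => x.length.unpair.1 = r) := fun r =>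
    Primrec.eq.comp h1 (Primrec.const r)
  refine Primrec.ite (c 0) ?_ (Primrec.ite (c 1) ?_ (Primrec.ite (c 2) ?_ (Primrec.ite (c 3) ?_ ?_)))
  · exact (primrec_atm hD).comp (Primrec.list_cons.comp h3 (Primrec.list_cons.comp h4 (Primrec.const [])))
      (Fm.primrec_eq.comp (primrec_XX.comp h3) (primrec_XX.comp h4))
  · exact (primrec_atm hD).comp h5 (Fm.primrec_rel.comp h3
      (Primrec.list_map h5 (primrec_XX.comp Primrec.snd).to₂))
  · exact Fm.primrec_neg.comp (h6.comp Primrec.id h2)
  · exact Fm.primrec_and.comp (h6.comp Primrec.id h3) (h6.comp Primrec.id h4)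
  · exact Fm.primrec_ex.comp (Primrec.nat_mul.comp (Primrec.const 2) h3) (h6.comp Primrec.id h4)

private theorem lt_pair_right (a b : ℕ) (h : 0 < a) : b < Nat.pair a b := by
  unfold Nat.pair
  split_ifs with h1
  · have : b ≤ b * b := Nat.le_mul_self b
    omega
  · have : 0 ≤ a * a := Nat.zero_le _
    omega

section

variable {σ : Sig} {D : ℕ → List ℕ × List Fm} (hD : ∀ n, D n = stD σ.rel.length ((List.range n).map D))

include hD

private theorem D_var (i : ℕ) : D (Tm.var i : Tm σ).code =
    ([XX (Tm.var i : Tm σ).code], [Fm.eq (XX (Tm.var i : Tm σ).code) (2 * i)]) := by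
  have e : (Tm.var i : Tm σ).code = Nat.pair 0 i := rfl
  rw [hD, stD, List.length_map, List.length_range, e, Nat.unpair_pair]
  simp

private theorem D_app (f : Fin σ.fn.length) (a : Fin (σ.fn.get f) → Tm σ) : D (Tm.app f a).code =
    (XX (Tm.app f a).code :: (List.ofFn (fun j => (a j).code)).flatMap (fun k => (D k).1),
     Fm.rel (σ.rel.length + f) ((List.ofFn (fun j => (a j).code)).map XX ++ [XX (Tm.app f a).code]) ::
      (List.ofFn (fun j => (a j).code)).flatMap (fun k => (D k).2)) := by
  have e : (Tm.app f a).code = Nat.pair (f + 1) (Encodable.encode (List.ofFn (fun j => (a j).code))) := rfl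
  have hlt : ∀ k ∈ List.ofFn (fun j => (a j).code), k < (Tm.app f a).code := by
    intro k hk
    have h1 := mem_lt_encode hk
    have h2 := Nat.right_le_pair (f + 1 : ℕ) (Encodable.encode (List.ofFn (fun j => (a j).code)))
    rw [e]
    omega
  have h1 : (List.ofFn (fun j => (a j).code)).flatMap
      (fun k => (((List.range (Tm.app f a).code).map D).getD k ([], [])).1) =
      (List.ofFn (fun j => (a j).code)).flatMap (fun k => (D k).1) := by
    unfold List.flatMap
    congr 1
    exact List.map_congr_left fun k hk => by rw [getD_range_map D _ _ _ (hlt k hk)]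
  have h2 : (List.ofFn (fun j => (a j).code)).flatMap
      (fun k => (((List.range (Tm.app f a).code).map D).getD k ([], [])).2) =
      (List.ofFn (fun j => (a j).code)).flatMap (fun k => (D k).2) := by
    unfold List.flatMap
    congr 1
    exact List.map_congr_left fun k hk => by rw [getD_range_map D _ _ _ (hlt k hk)]
  have h3 : (Tm.app f a).code.unpair.1 = f + 1 := by rw [e, Nat.unpair_pair]
  have h4 : (Tm.app f a).code.unpair.2 = Encodable.encode (List.ofFn (fun j => (a j).code)) := by
    rw [e, Nat.unpair_pair]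
  rw [hD (Tm.app f a).code, stD, List.length_map, List.length_range, if_neg (by rw [h3]; omega), h4,
    Denumerable.ofNat_encode, h1, h2, h3, Nat.add_sub_cancel]

private theorem D_odd (t : Tm σ) : ∀ j ∈ (D t.code).1, ∃ k, j = XX k := by
  induction t with
  | var i =>
    rw [D_var hD]
    intro j hj
    exact ⟨_, List.mem_singleton.1 hj⟩
  | app f a ih =>
    rw [D_app hD]
    intro j hj
    rcases List.mem_cons.1 hj with hj | hj
    · exact ⟨_, hj⟩
    · obtain ⟨k, hk, hj⟩ := List.mem_flatMap.1 hj
      obtain ⟨i, rfl⟩ := List.mem_ofFn.1 hk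
      exact ih i j hj

private theorem D_self (t : Tm σ) : XX t.code ∈ (D t.code).1 := by
  cases t with
  | var i => rw [D_var hD]; exact List.mem_singleton.2 rfl
  | app f a => rw [D_app hD]; exact List.mem_cons_self

private theorem D_fv (t : Tm σ) : ∀ φ ∈ (D t.code).2, ∀ j ∈ φ.fv, j ∈ (D t.code).1 ∨ ∃ i ∈ t.vars, j = 2 * i := by
  induction t with
  | var i =>
    rw [D_var hD]
    intro φ hφ j hj
    rw [List.mem_singleton.1 hφ] at hj
    simp only [Fm.fv, List.mem_cons, List.not_mem_nil, or_false] at hj
    rcases hj with hj | hj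
    · exact Or.inl (List.mem_singleton.2 hj)
    · exact Or.inr ⟨i, rfl, hj⟩
  | app f a ih =>
    intro φ hφ j hj
    have key : ∀ i, j ∈ (D (a i).code).1 → j ∈ (D (Tm.app f a).code).1 := by
      intro i hi
      rw [D_app hD]
      exact List.mem_cons_of_mem _ (List.mem_flatMap.2 ⟨_, List.mem_ofFn.2 ⟨i, rfl⟩, hi⟩)
    rw [D_app hD] at hφ
    rcases List.mem_cons.1 hφ with hφ | hφ
    · subst hφ
      left
      rcases List.mem_append.1 hj with hj | hj
      · obtain ⟨k, hk, rfl⟩ := List.mem_map.1 hj
        obtain ⟨i, rfl⟩ := List.mem_ofFn.1 hk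
        exact key i (D_self hD (a i))
      · rw [List.mem_singleton.1 hj]
        exact D_self hD _
    · obtain ⟨k, hk, hφ⟩ := List.mem_flatMap.1 hφ
      obtain ⟨i, rfl⟩ := List.mem_ofFn.1 hk
      rcases ih i φ hφ j hj with h | ⟨m, hm, rfl⟩
      · exact Or.inl (key i h)
      · exact Or.inr ⟨m, ⟨i, hm⟩, rfl⟩

private theorem D_sat1 (A : Str σ) (s : ℕ → A.C) (t : Tm σ) : (∀ φ ∈ (D t.code).2, Sat A.toMdl s φ) →
    s (XX t.code) = t.val A (fun i => s (2 * i)) := by
  induction t with
  | var i =>
    intro h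
    rw [D_var hD] at h
    exact h _ (List.mem_singleton.2 rfl)
  | app f a ih =>
    intro h
    rw [D_app hD] at h
    have h1 : A.toMdl.R (σ.rel.length + f) (((List.ofFn (fun j => (a j).code)).map XX ++
      [XX (Tm.app f a).code]).map s) := h _ List.mem_cons_self
    have e : ((List.ofFn (fun j => (a j).code)).map XX ++ [XX (Tm.app f a).code]).map s =
        List.ofFn (fun j => (a j).val A (fun i => s (2 * i))) ++ [s (XX (Tm.app f a).code)] := by
      rw [List.map_append, List.map_map, List.map_ofFn]
      congr 1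
      congr 1
      funext j
      exact ih j fun φ hφ => h φ (List.mem_cons_of_mem _
        (List.mem_flatMap.2 ⟨_, List.mem_ofFn.2 ⟨j, rfl⟩, hφ⟩))
    erw [e] at h1
    exact (toMdl_fun A f _ _).1 h1

private theorem D_sat2 (A : Str σ) (s : ℕ → A.C) (hs : ∀ u : Tm σ, s (XX u.code) = u.val A (fun i => s (2 * i)))
    (t : Tm σ) : ∀ φ ∈ (D t.code).2, Sat A.toMdl s φ := by
  induction t with
  | var i =>
    rw [D_var hD]
    intro φ hφ
    rw [List.mem_singleton.1 hφ]
    exact hs (Tm.var i)
  | app f a ih =>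
    rw [D_app hD]
    intro φ hφ
    rcases List.mem_cons.1 hφ with hφ | hφ
    · subst hφ
      show A.toMdl.R (σ.rel.length + f) (((List.ofFn (fun j => (a j).code)).map XX ++
        [XX (Tm.app f a).code]).map s)
      have e : ((List.ofFn (fun j => (a j).code)).map XX ++ [XX (Tm.app f a).code]).map s =
          List.ofFn (fun j => (a j).val A (fun i => s (2 * i))) ++ [s (XX (Tm.app f a).code)] := by
        rw [List.map_append, List.map_map, List.map_ofFn]
        congr 1
        congr 1
        funext j
        exact hs (a j)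
      erw [e]
      exact (toMdl_fun A f _ _).2 (hs (Tm.app f a))
    · obtain ⟨k, hk, hφ⟩ := List.mem_flatMap.1 hφ
      obtain ⟨i, rfl⟩ := List.mem_ofFn.1 hk
      exact ih i φ hφ

omit hD in
private theorem full (A : Str σ) (s : ℕ → A.C) : ∃ s' : ℕ → A.C, (∀ i, s' (2 * i) = s (2 * i)) ∧
    ∀ u : Tm σ, s' (XX u.code) = u.val A (fun i => s (2 * i)) := by
  classical
  refine ⟨fun j => if h : ∃ u : Tm σ, j = XX u.code then (Classical.choose h).val A (fun i => s (2 * i)) else s j,
    fun i => ?_, fun u => ?_⟩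
  · refine dif_neg ?_
    rintro ⟨u, hu⟩
    exact XX_ne _ _ hu.symm
  · have h : ∃ u' : Tm σ, XX u.code = XX u'.code := ⟨u, rfl⟩
    show (if h : ∃ u' : Tm σ, XX u.code = XX u'.code then (Classical.choose h).val A (fun i => s (2 * i)) else _) = _
    rw [dif_pos h]
    have := Classical.choose_spec h
    rw [← Tm.code_inj (XX_inj this)]

private theorem sat_atm (A : Str σ) (s s' : ℕ → A.C) (h1 : ∀ i, s' (2 * i) = s (2 * i))
    (h2 : ∀ u : Tm σ, s' (XX u.code) = u.val A (fun i => s (2 * i))) (l : List ℕ) (ts : List (Tm σ))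
    (hl : l = ts.map Tm.code) (a : Fm) (ha : ∀ j ∈ a.fv, ∃ t ∈ ts, j = XX t.code) :
    Sat A.toMdl s (atm D l a) ↔ Sat A.toMdl s' a := by
  subst hl
  have hodd : ∀ j ∈ (ts.map Tm.code).flatMap (fun k => (D k).1), ∃ k, j = XX k := by
    intro j hj
    obtain ⟨k, hk, hj⟩ := List.mem_flatMap.1 hj
    obtain ⟨t, ht, rfl⟩ := List.mem_map.1 hk
    exact D_odd hD t j hj
  refine (sat_exs (M := A.toMdl) _ _ s).trans ?_
  constructor
  · rintro ⟨s1, h3, h4⟩
    rw [sat_conjL] at h4
    have h5 : ∀ i, s1 (2 * i) = s (2 * i) := by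
      intro i
      refine h3 _ fun hi => ?_
      obtain ⟨k, hk⟩ := hodd _ hi
      exact XX_ne _ _ hk.symm
    have h6 : (fun i => s1 (2 * i)) = fun i => s (2 * i) := funext h5
    refine (sat_congr (M := A.toMdl) (s := s1) (t := s') fun j hj => ?_).1 (h4 a List.mem_cons_self)
    obtain ⟨t, ht, rfl⟩ := ha j hj
    have h7 := D_sat1 hD A s1 t fun φ hφ => h4 φ (List.mem_cons_of_mem _
      (List.mem_flatMap.2 ⟨t.code, List.mem_map.2 ⟨t, ht, rfl⟩, hφ⟩))
    rw [h6] at h7
    exact h7.trans (h2 t).symm
  · intro h3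
    classical
    have h4 : (fun i => s' (2 * i)) = fun i => s (2 * i) := funext h1
    have h5 : ∀ u : Tm σ, s' (XX u.code) = u.val A (fun i => s' (2 * i)) := by
      intro u; rw [h4]; exact h2 u
    refine ⟨fun i => if i ∈ (ts.map Tm.code).flatMap (fun k => (D k).1) then s' i else s i,
      fun i hi => if_neg hi, ?_⟩
    rw [sat_conjL]
    have key : ∀ φ ∈ a :: (ts.map Tm.code).flatMap (fun k => (D k).2), ∀ j ∈ φ.fv,
        j ∈ (ts.map Tm.code).flatMap (fun k => (D k).1) ∨ ∃ i, j = 2 * i := by
      intro φ hφ j hj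
      rcases List.mem_cons.1 hφ with hφ | hφ
      · subst hφ
        obtain ⟨t, ht, rfl⟩ := ha j hj
        exact Or.inl (List.mem_flatMap.2 ⟨t.code, List.mem_map.2 ⟨t, ht, rfl⟩, D_self hD t⟩)
      · obtain ⟨k, hk, hφ⟩ := List.mem_flatMap.1 hφ
        obtain ⟨t, ht, rfl⟩ := List.mem_map.1 hk
        rcases D_fv hD t φ hφ j hj with h | ⟨i, -, h⟩
        · exact Or.inl (List.mem_flatMap.2 ⟨t.code, hk, h⟩)
        · exact Or.inr ⟨i, h⟩
    intro φ hφ
    have h6 : Sat A.toMdl s' φ := by
      rcases List.mem_cons.1 hφ with hφ | hφ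
      · subst hφ; exact h3
      · obtain ⟨k, hk, hφ⟩ := List.mem_flatMap.1 hφ
        obtain ⟨t, ht, rfl⟩ := List.mem_map.1 hk
        exact D_sat2 hD A s' h5 t φ hφ
    refine (sat_congr (M := A.toMdl) (s := s') fun j hj => ?_).1 h6
    by_cases hj1 : j ∈ (ts.map Tm.code).flatMap (fun k => (D k).1)
    · exact (if_pos hj1).symm
    · rcases key φ hφ j hj with h | ⟨i, rfl⟩
      · exact absurd h hj1
      · exact (h1 i).trans (if_neg hj1).symm

private theorem fv_atm (l : List ℕ) (ts : List (Tm σ)) (hl : l = ts.map Tm.code) (a : Fm)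
    (ha : ∀ j ∈ a.fv, ∃ t ∈ ts, j = XX t.code) :
    ∀ j ∈ (atm D l a).fv, ∃ t ∈ ts, ∃ i ∈ t.vars, j = 2 * i := by
  subst hl
  intro j hj
  unfold atm at hj
  rw [fv_exs, fv_conjL] at hj
  obtain ⟨⟨φ, hφ, hj⟩, hn⟩ := hj
  rcases List.mem_cons.1 hφ with hφ | hφ
  · subst hφ
    obtain ⟨t, ht, rfl⟩ := ha j hj
    exact absurd (List.mem_flatMap.2 ⟨t.code, List.mem_map.2 ⟨t, ht, rfl⟩, D_self hD t⟩) hn
  · obtain ⟨k, hk, hφ⟩ := List.mem_flatMap.1 hφ
    obtain ⟨t, ht, rfl⟩ := List.mem_map.1 hk
    rcases D_fv hD t φ hφ j hj with h | ⟨i, hi, h⟩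
    · exact absurd (List.mem_flatMap.2 ⟨t.code, hk, h⟩) hn
    · exact ⟨t, ht, i, hi, h⟩

end

section

variable {σ : Sig} {D : ℕ → List ℕ × List Fm} {T : ℕ → Fm} (hT : ∀ n, T n = stT D ((List.range n).map T))

include hT

private theorem T_eq (t u : Tm σ) : T (Fml.eq t u).code = atm D [t.code, u.code] (Fm.eq (XX t.code) (XX u.code)) := by
  have e : (Fml.eq t u).code = Nat.pair 0 (Nat.pair t.code u.code) := rfl
  rw [hT, stT, List.length_map, List.length_range, e]
  simp only [Nat.unpair_pair, if_true]

private theorem T_rel (r : Fin σ.rel.length) (a : Fin (σ.rel.get r) → Tm σ) :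
    T (Fml.rel r a).code = atm D (List.ofFn (fun j => (a j).code))
      (Fm.rel r ((List.ofFn (fun j => (a j).code)).map XX)) := by
  have e : (Fml.rel r a).code = Nat.pair 1 (Nat.pair r (Encodable.encode (List.ofFn (fun j => (a j).code)))) := rfl
  rw [hT, stT, List.length_map, List.length_range, e]
  simp only [Nat.unpair_pair, if_true, if_false, one_ne_zero, Denumerable.ofNat_encode]

private theorem T_neg (φ : Fml σ) : T (Fml.neg φ).code = Fm.neg (T φ.code) := by
  have e : (Fml.neg φ).code = Nat.pair 2 φ.code := rfl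
  rw [hT, stT, List.length_map, List.length_range, e]
  simp only [Nat.unpair_pair]
  rw [if_neg (by norm_num), if_neg (by norm_num), if_pos trivial,
    getD_range_map T _ _ _ (lt_pair_right _ _ (by norm_num))]

private theorem T_and (φ ψ : Fml σ) : T (Fml.and φ ψ).code = Fm.and (T φ.code) (T ψ.code) := by
  have e : (Fml.and φ ψ).code = Nat.pair 3 (Nat.pair φ.code ψ.code) := rfl
  have h1 := lt_pair_right 3 (Nat.pair φ.code ψ.code) (by norm_num)
  have h2 := Nat.left_le_pair φ.code ψ.code
  have h3 := Nat.right_le_pair φ.code ψ.code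
  rw [hT, stT, List.length_map, List.length_range, e]
  simp only [Nat.unpair_pair]
  rw [if_neg (by norm_num), if_neg (by norm_num), if_neg (by norm_num), if_pos trivial,
    getD_range_map T _ _ _ (by omega), getD_range_map T _ _ _ (by omega)]

private theorem T_ex (i : ℕ) (φ : Fml σ) : T (Fml.ex i φ).code = Fm.ex (2 * i) (T φ.code) := by
  have e : (Fml.ex i φ).code = Nat.pair 4 (Nat.pair i φ.code) := rfl
  have h1 := lt_pair_right 4 (Nat.pair i φ.code) (by norm_num)
  have h3 := Nat.right_le_pair i φ.code
  rw [hT, stT, List.length_map, List.length_range, e]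
  simp only [Nat.unpair_pair]
  rw [if_neg (by norm_num), if_neg (by norm_num), if_neg (by norm_num), if_neg (by norm_num),
    getD_range_map T _ _ _ (by omega)]

end

theorem exists_tr (σ : Sig) : ∃ T : ℕ → Fm, Computable T ∧
    (∀ φ : Fml σ, ∀ j ∈ (T φ.code).fv, ∃ i ∈ φ.fv, j = 2 * i) ∧
    ∀ (A : Str σ) (φ : Fml σ) (s : ℕ → A.C), Sat A.toMdl s (T φ.code) ↔ φ.Sat A (fun i => s (2 * i)) := by
  obtain ⟨D, hDp, hD⟩ := cb_rec _ (primrec_stD σ.rel.length)
  obtain ⟨T, hTp, hT⟩ := cb_rec _ (primrec_stT hDp)
  have ea1 : ∀ t u : Tm σ, ∀ j ∈ (Fm.eq (XX t.code) (XX u.code)).fv, ∃ t' ∈ [t, u], j = XX t'.code := by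
    intro t u j hj
    simp only [Fm.fv, List.mem_cons, List.not_mem_nil, or_false] at hj
    rcases hj with hj | hj
    · exact ⟨t, by simp, hj⟩
    · exact ⟨u, by simp, hj⟩
  have ea2 : ∀ (r : Fin σ.rel.length) (a : Fin (σ.rel.get r) → Tm σ),
      ∀ j ∈ (Fm.rel r ((List.ofFn (fun j => (a j).code)).map XX)).fv, ∃ t' ∈ List.ofFn a, j = XX t'.code := by
    intro r a j hj
    obtain ⟨k, hk, rfl⟩ := List.mem_map.1 hj
    obtain ⟨i, rfl⟩ := List.mem_ofFn.1 hk
    exact ⟨a i, List.mem_ofFn.2 ⟨i, rfl⟩, rfl⟩
  have el : ∀ (r : Fin σ.rel.length) (a : Fin (σ.rel.get r) → Tm σ),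
      List.ofFn (fun j => (a j).code) = (List.ofFn a).map Tm.code := by
    intro r a
    rw [List.map_ofFn]
    rfl
  refine ⟨T, hTp.to_comp, ?_, ?_⟩
  · intro φ
    induction φ with
    | eq t u =>
      intro j hj
      rw [T_eq hT] at hj
      obtain ⟨t', ht', i, hi, rfl⟩ := fv_atm hD _ [t, u] rfl _ (ea1 t u) j hj
      simp only [List.mem_cons, List.not_mem_nil, or_false] at ht'
      rcases ht' with h | h
      · subst h; exact ⟨i, Or.inl hi, rfl⟩
      · subst h; exact ⟨i, Or.inr hi, rfl⟩
    | rel r a =>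
      intro j hj
      rw [T_rel hT] at hj
      obtain ⟨t', ht', i, hi, rfl⟩ := fv_atm hD _ (List.ofFn a) (el r a) _ (ea2 r a) j hj
      obtain ⟨k, rfl⟩ := List.mem_ofFn.1 ht'
      exact ⟨i, ⟨k, hi⟩, rfl⟩
    | neg φ ih =>
      intro j hj
      rw [T_neg hT] at hj
      exact ih j hj
    | and φ ψ ih1 ih2 =>
      intro j hj
      rw [T_and hT] at hj
      rcases List.mem_append.1 hj with hj | hj
      · obtain ⟨i, hi, h⟩ := ih1 j hj
        exact ⟨i, Or.inl hi, h⟩
      · obtain ⟨i, hi, h⟩ := ih2 j hj
        exact ⟨i, Or.inr hi, h⟩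
    | ex i φ ih =>
      intro j hj
      rw [T_ex hT] at hj
      simp only [Fm.fv, List.mem_filter, decide_not, Bool.not_eq_true', decide_eq_false_iff_not] at hj
      obtain ⟨i', hi', rfl⟩ := ih j hj.1
      exact ⟨i', ⟨hi', fun h => hj.2 (by rw [Set.mem_singleton_iff.1 h])⟩, rfl⟩
  · intro A φ
    induction φ with
    | eq t u =>
      intro s
      obtain ⟨s', h1, h2⟩ := full A s
      rw [T_eq hT]
      refine (sat_atm hD A s s' h1 h2 _ [t, u] rfl _ (ea1 t u)).trans ?_
      show s' (XX t.code) = s' (XX u.code) ↔ _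
      rw [h2, h2]
      rfl
    | rel r a =>
      intro s
      obtain ⟨s', h1, h2⟩ := full A s
      rw [T_rel hT]
      refine (sat_atm hD A s s' h1 h2 _ (List.ofFn a) (el r a) _ (ea2 r a)).trans ?_
      show A.toMdl.R r (((List.ofFn (fun j => (a j).code)).map XX).map s') ↔ _
      have e : ((List.ofFn (fun j => (a j).code)).map XX).map s' =
          List.ofFn (fun j => (a j).val A (fun i => s (2 * i))) := by
        rw [List.map_map, List.map_ofFn]
        congr 1
        funext j
        exact h2 (a j)
      erw [e]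
      exact toMdl_rel A r _
    | neg φ ih =>
      intro s
      rw [T_neg hT]
      exact not_congr (ih s)
    | and φ ψ ih1 ih2 =>
      intro s
      rw [T_and hT]
      exact and_congr (ih1 s) (ih2 s)
    | ex i φ ih =>
      intro s
      rw [T_ex hT]
      show (∃ c : A.C, Sat A.toMdl (Function.update s (2 * i) c) (T φ.code)) ↔
        ∃ c : A.C, Fml.Sat A (Function.update (fun i => s (2 * i)) i c) φ
      refine exists_congr fun c => (ih _).trans ?_
      have e : (fun k => Function.update s (2 * i) c (2 * k)) = Function.update (fun i => s (2 * i)) i c := by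
        funext k
        by_cases hk : k = i
        · subst hk; simp
        · rw [Function.update_of_ne hk, Function.update_of_ne (by omega)]
      exact iff_of_eq (congrArg (fun t => Fml.Sat A t φ) e)

end CB
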