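import Pool.Agent.Work.MP_cb528c_lc.NmDefs

set_option autoImplicit false
set_option linter.all false

/-!
# MP_cb528c_lc, module UndoFwd: the undo machine undoes a step of `K`

Let `c = (s, r)`, `z = flag c`, `K.nx s z b = some s'`, `c' = (s', r')`, `i := lab s z b` (as an element of `Fin (4 q + 1)`, nonzero, with
`src i = s`, `lfl i = z`, `lbt i = b`), `L' := nl c b L = (4 q + 1) * L + i`.
From `uemb c' L' = (D(s', 0), r', L', 0)`: after `m` steps, `m ≤ L'`, the configuration is `(D(s', m % (4q+1)), r', L' - m, m / (4q+1))`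
(induction on `m`); after `L' + 1` steps `(R(s', i), r', 0, L)`; after `m` more steps, `m ≤ L`: `(R(s', i), r', m, L - m)`; then
`(U(s', i), r', L, 0)`, `(W(s, i), r, L, 0)` (`r'` at `reg s` is `(op s z).app`, undone by the opposite move; for `op = down` the flag
is `true` by `K.ok`, so `r` at `reg s` is nonzero; for `op = up` the register is nonzero in `r'`), `(D(s, 0), r, L, 0) = uemb c L`
(the flag of `r` is `z`).  Total `L' + 1 + L + 1 + 1 + 1 = len c b L`.
(`Fin.append` at `ri i`, `Lx`, `Tx`: `Fin.append_left`, `Fin.append_right`.)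
-/

namespace CB

namespace NM

/-- the registers, the log and the temporary counter -/
private def ap {B : ℕ} (r : Fin B → ℕ) (L T : ℕ) : Fin (B + 2) → ℕ := Fin.append r ![L, T]

private theorem ap_ri (K : NM) (r : Fin K.B → ℕ) (L T : ℕ) (j : Fin K.B) : ap r L T (K.ri j) = r j := by
  unfold ap ri
  rw [Fin.append_left]

private theorem ap_L (K : NM) (r : Fin K.B → ℕ) (L T : ℕ) : ap r L T K.Lx = L := by
  unfold ap Lx
  rw [Fin.append_right]
  rfl

private theorem ap_T (K : NM) (r : Fin K.B → ℕ) (L T : ℕ) : ap r L T K.Tx = T := by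
  unfold ap Tx
  rw [Fin.append_right]
  rfl

private theorem ri_ne_L (K : NM) (j : Fin K.B) : K.ri j ≠ K.Lx := by
  unfold ri Lx
  intro h
  have h1 := congrArg Fin.val h
  simp at h1
  omega

private theorem ri_ne_T (K : NM) (j : Fin K.B) : K.ri j ≠ K.Tx := by
  unfold ri Tx
  intro h
  have h1 := congrArg Fin.val h
  simp at h1
  omega

private theorem ri_inj (K : NM) {j k : Fin K.B} (h : K.ri j = K.ri k) : j = k := by
  unfold ri at h
  exact Fin.castAdd_injective _ _ h

private theorem ap_ext (K : NM) {f g : Fin (K.B + 2) → ℕ} (h1 : ∀ j, f (K.ri j) = g (K.ri j))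
    (h2 : f K.Lx = g K.Lx) (h3 : f K.Tx = g K.Tx) : f = g := by
  funext i
  refine Fin.addCases (fun j => h1 j) (fun j => ?_) i
  fin_cases j
  · exact h2
  · exact h3

/-- the flags -/
private def fl {k : ℕ} (c : Fin k → ℕ) : Fin k → Bool := fun i => decide (c i ≠ 0)

/-- configurations of the undo machine -/
private def cf (K : NM) (s : K.US) (c : Fin (K.B + 2) → ℕ) : K.undo.Cfg := (s, c)

private theorem ustep (K : NM) (s : K.US) (c : Fin (K.B + 2) → ℕ) :
    K.undo.step (cf K s c) =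
      cf K (K.uδ s (fl c)).1 (fun i => ((K.uδ s (fl c)).2 i).app (c i)) := rfl

private theorem uδ0 (K : NM) (s : Fin K.q) (i : Fin (4 * K.q + 1)) (z : Fin (K.B + 2) → Bool) :
    K.uδ (some (0, s, i)) z = K.uD s i z := rfl

private theorem uδ1 (K : NM) (s : Fin K.q) (i : Fin (4 * K.q + 1)) (z : Fin (K.B + 2) → Bool) :
    K.uδ (some (1, s, i)) z = K.uR s i z := rfl

private theorem uδ2 (K : NM) (s : Fin K.q) (i : Fin (4 * K.q + 1)) (z : Fin (K.B + 2) → Bool) :
    K.uδ (some (2, s, i)) z = K.uU s i z := rfl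

private theorem uδ3 (K : NM) (s : Fin K.q) (i : Fin (4 * K.q + 1)) (z : Fin (K.B + 2) → Bool) :
    K.uδ (some (3, s, i)) z = K.uW s i z := rfl

private theorem fl_L (K : NM) (r : Fin K.B → ℕ) (L T : ℕ) : fl (ap r L T) K.Lx = decide (L ≠ 0) := by
  unfold fl
  rw [ap_L]

private theorem fl_T (K : NM) (r : Fin K.B → ℕ) (L T : ℕ) : fl (ap r L T) K.Tx = decide (T ≠ 0) := by
  unfold fl
  rw [ap_T]

private theorem fl_ri (K : NM) (r : Fin K.B → ℕ) (L T : ℕ) (j : Fin K.B) :
    fl (ap r L T) (K.ri j) = decide (r j ≠ 0) := by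
  unfold fl
  rw [ap_ri]

private theorem stepD1 (K : NM) (s : Fin K.q) (i : Fin (4 * K.q + 1)) (r : Fin K.B → ℕ) (L T : ℕ)
    (h : i.1 + 1 < 4 * K.q + 1) : K.undo.step (cf K (some (0, s, i)) (ap r (L + 1) T)) =
      cf K (some (0, s, ⟨i.1 + 1, h⟩)) (ap r L T) := by
  rw [ustep, uδ0]
  unfold uD
  rw [if_neg (by rw [fl_L]; simp), dif_pos h]
  refine congrArg (cf K _) (ap_ext K (fun j => ?_) ?_ ?_)
  · change (K.mv1 K.Lx Mv.down (K.ri j)).app _ = ap r L T (K.ri j)
    unfold mv1
    rw [if_neg (ri_ne_L K j), ap_ri, ap_ri]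
    rfl
  · change (K.mv1 K.Lx Mv.down K.Lx).app _ = ap r L T K.Lx
    unfold mv1
    rw [if_pos rfl, ap_L, ap_L]
    rfl
  · change (K.mv1 K.Lx Mv.down K.Tx).app _ = ap r L T K.Tx
    unfold mv1
    rw [if_neg K.Lx_ne_Tx.symm, ap_T, ap_T]
    rfl

private theorem stepD2 (K : NM) (s : Fin K.q) (i : Fin (4 * K.q + 1)) (r : Fin K.B → ℕ) (L T : ℕ)
    (h : ¬ i.1 + 1 < 4 * K.q + 1) : K.undo.step (cf K (some (0, s, i)) (ap r (L + 1) T)) =
      cf K (some (0, s, 0)) (ap r L (T + 1)) := by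
  rw [ustep, uδ0]
  unfold uD
  rw [if_neg (by rw [fl_L]; simp), dif_neg h]
  refine congrArg (cf K _) (ap_ext K (fun j => ?_) ?_ ?_)
  · change (if K.ri j = K.Lx then Mv.down else if K.ri j = K.Tx then Mv.up else Mv.stay).app _ = ap r L (T + 1) (K.ri j)
    rw [if_neg (ri_ne_L K j), if_neg (ri_ne_T K j), ap_ri, ap_ri]
    rfl
  · change (if K.Lx = K.Lx then Mv.down else if K.Lx = K.Tx then Mv.up else Mv.stay).app _ = ap r L (T + 1) K.Lx
    rw [if_pos rfl, ap_L, ap_L]
    rfl
  · change (if K.Tx = K.Lx then Mv.down else if K.Tx = K.Tx then Mv.up else Mv.stay).app _ = ap r L (T + 1) K.Tx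
    rw [if_neg K.Lx_ne_Tx.symm, if_pos rfl, ap_T, ap_T]
    rfl

private theorem stepD0 (K : NM) (s : Fin K.q) (i : Fin (4 * K.q + 1)) (r : Fin K.B → ℕ) (T : ℕ) :
    K.undo.step (cf K (some (0, s, i)) (ap r 0 T)) = cf K (some (1, s, i)) (ap r 0 T) := by
  rw [ustep, uδ0]
  unfold uD
  rw [if_pos (by rw [fl_L]; simp)]
  rfl

private theorem stepR1 (K : NM) (s : Fin K.q) (i : Fin (4 * K.q + 1)) (r : Fin K.B → ℕ) (L T : ℕ) :
    K.undo.step (cf K (some (1, s, i)) (ap r L (T + 1))) =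
      cf K (some (1, s, i)) (ap r (L + 1) T) := by
  rw [ustep, uδ1]
  unfold uR
  rw [if_neg (by rw [fl_T]; simp)]
  refine congrArg (cf K _) (ap_ext K (fun j => ?_) ?_ ?_)
  · change (if K.ri j = K.Tx then Mv.down else if K.ri j = K.Lx then Mv.up else Mv.stay).app _ = ap r (L + 1) T (K.ri j)
    rw [if_neg (ri_ne_T K j), if_neg (ri_ne_L K j), ap_ri, ap_ri]
    rfl
  · change (if K.Lx = K.Tx then Mv.down else if K.Lx = K.Lx then Mv.up else Mv.stay).app _ = ap r (L + 1) T K.Lx
    rw [if_neg K.Lx_ne_Tx, if_pos rfl, ap_L, ap_L]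
    rfl
  · change (if K.Tx = K.Tx then Mv.down else if K.Tx = K.Lx then Mv.up else Mv.stay).app _ = ap r (L + 1) T K.Tx
    rw [if_pos rfl, ap_T, ap_T]
    rfl

private theorem stepR0 (K : NM) (s : Fin K.q) (i : Fin (4 * K.q + 1)) (r : Fin K.B → ℕ) (L : ℕ) :
    K.undo.step (cf K (some (1, s, i)) (ap r L 0)) = cf K (some (2, s, i)) (ap r L 0) := by
  rw [ustep, uδ1]
  unfold uR
  rw [if_pos (by rw [fl_T]; simp)]
  rfl

private theorem phaseD (K : NM) (s : Fin K.q) (r : Fin K.B → ℕ) (L' : ℕ) (m : ℕ) (hm : m ≤ L') :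
    K.undo.step^[m] (cf K (some (0, s, 0)) (ap r L' 0)) =
      cf K (some (0, s, ⟨m % (4 * K.q + 1), Nat.mod_lt _ (Nat.succ_pos _)⟩))
        (ap r (L' - m) (m / (4 * K.q + 1))) := by
  induction m with
  | zero =>
    rw [Function.iterate_zero_apply, Nat.zero_div, Nat.sub_zero]
    rfl
  | succ m ih =>
    rw [Function.iterate_succ_apply', ih (by omega)]
    obtain ⟨l, hl⟩ : ∃ l, L' - m = l + 1 := ⟨L' - m - 1, by omega⟩
    have hl' : L' - (m + 1) = l := by omega
    rw [hl, hl']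
    have hq : 0 < 4 * K.q + 1 := Nat.succ_pos _
    by_cases h : m % (4 * K.q + 1) + 1 < 4 * K.q + 1
    · rw [stepD1 K s _ r l _ h]
      have h1 : (m + 1) % (4 * K.q + 1) = m % (4 * K.q + 1) + 1 := by
        rw [Nat.add_mod, Nat.mod_eq_of_lt (a := 1) (by have := s.2; omega), Nat.mod_eq_of_lt h]
      have h2 : (m + 1) / (4 * K.q + 1) = m / (4 * K.q + 1) := by
        rw [Nat.succ_div, if_neg, add_zero]
        intro hd
        have h3 := Nat.mod_eq_zero_of_dvd hd
        omega
      rw [h2]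
      refine congrArg (fun x => cf K x _) (congrArg (fun x => some (0, s, x)) (Fin.ext ?_))
      exact h1.symm
    · rw [stepD2 K s _ r l _ h]
      have h0 : m % (4 * K.q + 1) < 4 * K.q + 1 := Nat.mod_lt _ hq
      have h1 : (m + 1) % (4 * K.q + 1) = 0 := by
        rw [Nat.add_mod, Nat.mod_eq_of_lt (a := 1) (by have := s.2; omega)]
        have h3 : m % (4 * K.q + 1) + 1 = 4 * K.q + 1 := by omega
        rw [h3, Nat.mod_self]
      have h2 : (m + 1) / (4 * K.q + 1) = m / (4 * K.q + 1) + 1 := by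
        rw [Nat.succ_div, if_pos (Nat.dvd_of_mod_eq_zero h1)]
      rw [h2]
      refine congrArg (fun x => cf K x _) (congrArg (fun x => some (0, s, x)) (Fin.ext ?_))
      exact h1.symm

private theorem phaseR (K : NM) (s : Fin K.q) (i : Fin (4 * K.q + 1)) (r : Fin K.B → ℕ) (L : ℕ) (m : ℕ)
    (hm : m ≤ L) : K.undo.step^[m] (cf K (some (1, s, i)) (ap r 0 L)) =
      cf K (some (1, s, i)) (ap r m (L - m)) := by
  induction m with
  | zero => rfl
  | succ m ih =>
    rw [Function.iterate_succ_apply', ih (by omega)]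
    obtain ⟨l, hl⟩ : ∃ l, L - m = l + 1 := ⟨L - m - 1, by omega⟩
    have hl' : L - (m + 1) = l := by omega
    rw [hl, hl', stepR1]

private theorem lab_lt (K : NM) (s : Fin K.q) (z b : Bool) : K.lab s z b < 4 * K.q + 1 := by
  unfold lab
  have := s.2
  cases z <;> cases b <;> simp <;> omega

private theorem lab_src (K : NM) (s : Fin K.q) (z b : Bool) (h : K.lab s z b ≠ 0) :
    K.src ⟨K.lab s z b, lab_lt K s z b⟩ h = s := by
  refine Fin.ext ?_
  change (K.lab s z b - 1) / 4 = s.1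
  unfold lab
  cases z <;> cases b <;> simp <;> omega

private theorem lab_lfl (K : NM) (s : Fin K.q) (z b : Bool) :
    K.lfl ⟨K.lab s z b, lab_lt K s z b⟩ = z := by
  change decide ((K.lab s z b - 1) / 2 % 2 = 1) = z
  unfold lab
  cases z <;> cases b <;> simp <;> omega

private theorem lab_lbt (K : NM) (s : Fin K.q) (z b : Bool) :
    K.lbt ⟨K.lab s z b, lab_lt K s z b⟩ = b := by
  change decide ((K.lab s z b - 1) % 2 = 1) = b
  unfold lab
  cases z <;> cases b <;> simp <;> omega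

private theorem stepU (K : NM) (s s' : Fin K.q) (r : Fin K.B → ℕ) (b : Bool) (L : ℕ) (z : Bool)
    (hz : z = decide (r (K.reg s) ≠ 0)) (hn : K.nx s z b = some s') :
    K.undo.step (cf K (some (2, s', ⟨K.lab s z b, lab_lt K s z b⟩))
      (ap (Function.update r (K.reg s) ((K.op s z).app (r (K.reg s)))) L 0)) =
      cf K (some (3, s, ⟨K.lab s z b, lab_lt K s z b⟩)) (ap r L 0) := by
  have h0 : K.lab s z b ≠ 0 := by
    unfold lab
    omega
  rw [ustep, uδ2]
  unfold uU
  rw [dif_pos h0, lab_src K s z b h0, lab_lfl, lab_lbt, if_pos hn]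
  rcases hm : K.op s z with _ | _ | _
  · have hz' : z = true := by
      cases hz1 : z with
      | false => exact absurd (by rw [← hz1]; exact hm) (K.ok s)
      | true => rfl
    have hr : r (K.reg s) ≠ 0 := by
      rw [hz'] at hz
      exact of_decide_eq_true hz.symm
    unfold uO
    refine congrArg (cf K _) (ap_ext K (fun j => ?_) ?_ ?_)
    · change (K.mv1 (K.ri (K.reg s)) Mv.up (K.ri j)).app _ = ap r L 0 (K.ri j)
      unfold mv1
      rw [ap_ri, ap_ri]
      by_cases hj : j = K.reg s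
      · subst hj
        rw [if_pos rfl, Function.update_self]
        change r (K.reg s) - 1 + 1 = r (K.reg s)
        omega
      · rw [if_neg (fun h => hj (ri_inj K h)), Function.update_of_ne hj]
        rfl
    · change (K.mv1 (K.ri (K.reg s)) Mv.up K.Lx).app _ = ap r L 0 K.Lx
      unfold mv1
      rw [if_neg (ri_ne_L K _).symm, ap_L, ap_L]
      rfl
    · change (K.mv1 (K.ri (K.reg s)) Mv.up K.Tx).app _ = ap r L 0 K.Tx
      unfold mv1
      rw [if_neg (ri_ne_T K _).symm, ap_T, ap_T]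
      rfl
  · unfold uO
    refine congrArg (cf K _) ?_
    change ap (Function.update r (K.reg s) (r (K.reg s))) L 0 = ap r L 0
    rw [Function.update_eq_self]
  · unfold uO
    simp only
    rw [if_neg (by
      rw [fl_ri, Function.update_self]
      change ¬ decide (r (K.reg s) + 1 ≠ 0) = false
      simp)]
    refine congrArg (cf K _) (ap_ext K (fun j => ?_) ?_ ?_)
    · change (K.mv1 (K.ri (K.reg s)) Mv.down (K.ri j)).app _ = ap r L 0 (K.ri j)
      unfold mv1
      rw [ap_ri, ap_ri]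
      by_cases hj : j = K.reg s
      · subst hj
        rw [if_pos rfl, Function.update_self]
        change r (K.reg s) + 1 - 1 = r (K.reg s)
        omega
      · rw [if_neg (fun h => hj (ri_inj K h)), Function.update_of_ne hj]
        rfl
    · change (K.mv1 (K.ri (K.reg s)) Mv.down K.Lx).app _ = ap r L 0 K.Lx
      unfold mv1
      rw [if_neg (ri_ne_L K _).symm, ap_L, ap_L]
      rfl
    · change (K.mv1 (K.ri (K.reg s)) Mv.down K.Tx).app _ = ap r L 0 K.Tx
      unfold mv1
      rw [if_neg (ri_ne_T K _).symm, ap_T, ap_T]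
      rfl

private theorem stepW (K : NM) (s : Fin K.q) (r : Fin K.B → ℕ) (b : Bool) (L : ℕ) (z : Bool)
    (hz : z = decide (r (K.reg s) ≠ 0)) :
    K.undo.step (cf K (some (3, s, ⟨K.lab s z b, lab_lt K s z b⟩)) (ap r L 0)) =
      cf K (some (0, s, 0)) (ap r L 0) := by
  have h0 : K.lab s z b ≠ 0 := by
    unfold lab
    omega
  rw [ustep, uδ3]
  unfold uW
  rw [dif_pos h0, lab_src K s z b h0, lab_lfl, if_pos]
  · rfl
  · refine ⟨rfl, ?_, ?_⟩
    · rw [fl_ri, hz]
    · rw [fl_T]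
      simp

theorem undo_fwd (K : NM) (c c' : K.Cfg) (b : Bool) (L : ℕ) (h : K.kstep b c = some c') :
    K.undo.step^[K.len c b L] (K.uemb c' (K.nl c b L)) = K.uemb c L := by
  obtain ⟨s, r⟩ := c
  unfold kstep at h
  obtain ⟨s', hs', rfl⟩ := Option.map_eq_some_iff.1 h
  obtain ⟨z, hz⟩ : ∃ z, z = K.flag (s, r) := ⟨_, rfl⟩
  rw [← hz] at hs'
  have hlen : K.len (s, r) b L = 1 + (1 + (1 + (L + (1 + K.nl (s, r) b L)))) := by
    unfold len
    ring
  have hnl : K.nl (s, r) b L = (4 * K.q + 1) * L + K.lab s z b := by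
    unfold nl
    rw [hz]
  have hlt := lab_lt K s z b
  rw [hlen, Function.iterate_add_apply, Function.iterate_add_apply, Function.iterate_add_apply,
    Function.iterate_add_apply, Function.iterate_add_apply]
  have e1 : K.uemb (s', Function.update r (K.reg s) ((K.op s (K.flag (s, r))).app (r (K.reg s))))
      (K.nl (s, r) b L) = cf K (some (0, s', 0))
        (ap (Function.update r (K.reg s) ((K.op s z).app (r (K.reg s)))) (K.nl (s, r) b L) 0) := by
    rw [← hz]
    rfl
  change K.undo.step^[1] (K.undo.step^[1] (K.undo.step^[1] (K.undo.step^[L] (K.undo.step^[1]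
    (K.undo.step^[K.nl (s, r) b L] (K.uemb (s', Function.update r (K.reg s)
      ((K.op s (K.flag (s, r))).app (r (K.reg s)))) (K.nl (s, r) b L))))))) = _
  rw [e1, phaseD K s' _ _ _ le_rfl, Nat.sub_self]
  have e2 : (⟨K.nl (s, r) b L % (4 * K.q + 1), Nat.mod_lt _ (Nat.succ_pos _)⟩ : Fin (4 * K.q + 1)) =
      ⟨K.lab s z b, lab_lt K s z b⟩ := by
    refine Fin.ext ?_
    change K.nl (s, r) b L % (4 * K.q + 1) = K.lab s z b
    rw [hnl, Nat.mul_add_mod, Nat.mod_eq_of_lt hlt]
  have e3 : K.nl (s, r) b L / (4 * K.q + 1) = L := by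
    rw [hnl, Nat.mul_add_div (Nat.succ_pos _), Nat.div_eq_of_lt hlt, add_zero]
  rw [e2, e3]
  simp only [Function.iterate_one]
  rw [stepD0, phaseR K s' _ _ L L le_rfl, Nat.sub_self, stepR0, stepU K s s' r b L z hz hs',
    stepW K s r b L z hz]
  rfl

end NM

end CB
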